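import Pool.Agent.Lib.MP_640417_ag.Tg.SpecY

/-!
# The group normalizes its Lie algebra
-/

set_option autoImplicit false

namespace Pool.Agent.Lib.MP_640417_ag.Tg

open Module TensorProduct Filter Topology Pool.Agent.Lib.MP_640417_ag
  Pool.Agent.Lib.MP_640417_ag.Tor Pool.Agent.Lib.MP_640417_ag.Frob

section

variable {l : ℕ} [Fact l.Prime] {Γ : Type} [Group Γ] [TopologicalSpace Γ] {V : Type}
  [AddCommGroup V] [Module ℚ_[l] V] (ρ : H1Rep Γ ℚ_[l] V)
  (K : Type) [Field K] [Algebra ℚ_[l] K]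

private theorem AdL_bc_mul (a b : Module.End ℚ_[l] V) :
    (a * b).baseChange K = a.baseChange K * b.baseChange K := LinearMap.baseChange_comp b a

private theorem AdL_bc_one :
    (1 : Module.End ℚ_[l] V).baseChange K = 1 := LinearMap.baseChange_id

private theorem AdL_inv (γ : Γ) : ρ.T γ * ρ.T γ⁻¹ = 1 := by
  rw [← map_mul, mul_inv_cancel, map_one]

private theorem AdL_inv' (γ : Γ) : ρ.T γ⁻¹ * ρ.T γ = 1 := by
  rw [← map_mul, inv_mul_cancel, map_one]

private theorem AdL_tan (γ : Γ) {A : Module.End ℚ_[l] V} (hA : A ∈ Tangent l ρ) :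
    ρ.T γ * A * ρ.T γ⁻¹ ∈ Tangent l ρ := by
  obtain ⟨g, hg⟩ := hA
  refine ⟨fun k => γ * g k * γ⁻¹, fun f v => ?_⟩
  have h := hg (f ∘ₗ ρ.T γ) (ρ.T γ⁻¹ v)
  have e1 : ∀ w, ρ.T γ (ρ.T γ⁻¹ w) = w := fun w => by
    rw [← Module.End.mul_apply, AdL_inv ρ γ, Module.End.one_apply]
  have e2 : ∀ k, f (ρ.T (γ * g k * γ⁻¹) v - v) =
      (f ∘ₗ ρ.T γ) (ρ.T (g k) (ρ.T γ⁻¹ v) - ρ.T γ⁻¹ v) := by
    intro k
    rw [LinearMap.comp_apply, map_sub (ρ.T γ), e1, map_mul, map_mul]
    rfl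
  simp only [e2]
  exact h

private theorem AdL_lie (γ : Γ) {X : Module.End K (K ⊗[ℚ_[l]] V)} (hX : X ∈ LieK l ρ K) :
    (ρ.T γ).baseChange K * X * (ρ.T γ⁻¹).baseChange K ∈ LieK l ρ K := by
  unfold LieK at hX ⊢
  induction hX using Submodule.span_induction with
  | mem x hx =>
    obtain ⟨A, hA, rfl⟩ := hx
    refine Submodule.subset_span ⟨ρ.T γ * A * ρ.T γ⁻¹, AdL_tan ρ γ hA, ?_⟩
    simp only [AdL_bc_mul]
  | zero => rw [mul_zero, zero_mul]; exact zero_mem _
  | add x y _ _ h1 h2 => rw [mul_add, add_mul]; exact add_mem h1 h2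
  | smul c x _ h1 => rw [mul_smul_comm, smul_mul_assoc]; exact Submodule.smul_mem _ c h1

end

theorem pAdL : SAdL := by
  intro l _ Γ _ _ V _ _ _ ρ K _ _ γ
  refine ⟨⟨?_, ?_, ?_, ?_⟩, algebraMap ℚ_[l] K ((ρ.χ γ)⁻¹ : ℚ_[l]ˣ).val, ?_⟩
  · rw [← AdL_bc_mul, AdL_inv, AdL_bc_one]
  · rw [← AdL_bc_mul, AdL_inv', AdL_bc_one]
  · intro X hX
    exact AdL_lie ρ K γ hX
  · intro X hX
    have h := AdL_lie ρ K γ⁻¹ hX
    rwa [inv_inv] at h
  · intro x y
    induction x using TensorProduct.induction_on with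
    | zero => simp only [map_zero, LinearMap.zero_apply, mul_zero]
    | add x x' h1 h2 => simp only [map_add, LinearMap.add_apply, h1, h2, mul_add]
    | tmul a v =>
      induction y using TensorProduct.induction_on with
      | zero => simp only [map_zero, mul_zero]
      | add y y' h1 h2 => simp only [map_add, h1, h2, mul_add]
      | tmul b w =>
        simp only [LinearMap.baseChange_tmul, LinearMap.BilinForm.baseChange_tmul,
          ρ.form_equivariant, map_mul, Algebra.smul_def]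
        ring

end Pool.Agent.Lib.MP_640417_ag.Tg
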