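import Pool.Agent.Lib.MP_640417_ag.Tg.PairG
import Pool.Agent.Lib.MP_640417_ag.Tor.Block
import Pool.Agent.Lib.MP_640417_ag.Tor.Adj

/-!
# Toric places, no factors of type III: all blocks
-/

namespace Pool.Agent.Lib.MP_640417_ag.Tg

open Module Pool.Agent.Lib.MP_640417_ag.Tor

section aux

variable {K V : Type} [Field K] [AddCommGroup V] [Module K V]

theorem AllG_adj [FiniteDimensional K V] (ψ : LinearMap.BilinForm K V)
    (anti : ∀ x y, ψ x y = - ψ y x) (nd : ∀ x, (∀ y, ψ x y = 0) → x = 0) (c : Module.End K V) :
    ∃ c' : Module.End K V, ∀ x y, ψ (c x) y = ψ x (c' y) := by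
  refine ⟨(Adj_equiv ψ nd).symm.toLinearMap ∘ₗ c.dualMap ∘ₗ (Adj_equiv ψ nd).toLinearMap,
    fun x y => ?_⟩
  have h1 : ∀ (f : Module.Dual K V) (z : V), ψ ((Adj_equiv ψ nd).symm f) z = f z := by
    intro f z
    have h2 := (Adj_equiv ψ nd).apply_symm_apply f
    rw [Adj_equiv_apply] at h2
    rw [h2]
  rw [anti x, LinearMap.comp_apply, LinearMap.comp_apply]
  erw [h1]
  rw [anti (c x)]
  rfl

theorem AllG_ext {ψ : LinearMap.BilinForm K V} (anti : ∀ x y, ψ x y = - ψ y x)
    (nd : ∀ x, (∀ y, ψ x y = 0) → x = 0) {A B : Module.End K V}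
    (h : ∀ x y, ψ x (A y) = ψ x (B y)) : A = B := by
  refine LinearMap.ext fun y => ?_
  rw [← sub_eq_zero]
  refine nd _ fun x => ?_
  rw [anti, map_sub, h, sub_self, neg_zero]

/-- a generalized inverse -/
theorem AllG_reg (c : Module.End K V) : ∃ d : Module.End K V, c * d * c = c := by
  obtain ⟨s, hs⟩ := c.rangeRestrict.exists_rightInverse_of_surjective (LinearMap.range_rangeRestrict c)
  obtain ⟨q, hq⟩ := (LinearMap.range c).subtype.exists_leftInverse_of_injective
    (Submodule.ker_subtype _)
  refine ⟨s ∘ₗ q, LinearMap.ext fun x => ?_⟩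
  have h1 : q (c x) = c.rangeRestrict x := LinearMap.congr_fun hq (c.rangeRestrict x)
  have h2 := congrArg Subtype.val (LinearMap.congr_fun hs (c.rangeRestrict x))
  rw [Module.End.mul_apply, Module.End.mul_apply, LinearMap.comp_apply, h1]
  exact h2

end aux

theorem pAllG (hBlock : Tor.SBlock) (hSlB : SSlB) (hPairG : SPairG) (hGourG : SGourG) :
    SAllG := by
  intro K V _ _ _ _ _ _ B _ _ ψ p st hBD L hlie hmult hcom hirr hcross htor htw X hX hXc hXt
  have hcom' : ∀ c : Module.End K V, (∀ X ∈ L, c * X = X * c) → ∀ X ∈ skp ψ L, c * X = X * c := by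
    rintro c hc X ⟨-, s, hs⟩
    have h1 := hc _ hs
    rw [mul_add, add_mul, mul_smul_comm, smul_mul_assoc, mul_one, one_mul] at h1
    exact add_right_cancel h1
  have hcomg : ∀ b, ∀ X ∈ skp ψ L, p b * X = X * p b := fun b => hcom' (p b) (hcom b)
  have glie : Lie (skp ψ L) := Block_lie hlie
  have gsk : ∀ X ∈ skp ψ L, Skew ψ X := fun X hX => hX.1
  have girr : ∀ b, Irr (skp ψ L) (LinearMap.range (p b)) := fun b W' hW' hst =>
    (hirr b).2.2 W' hW' (Block_stable hmult hst)
  have hL : ∀ (c : Module.End K V) (X : Module.End K V) (s t : K),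
      c * (X - t • (1 : Module.End K V)) - (X - t • (1 : Module.End K V)) * c = s • c →
        c * X - X * c = s • c := by
    intro c X s t h
    rw [← h, mul_sub, sub_mul, mul_smul_comm, smul_mul_assoc, mul_one, one_mul]
    abel
  have twL : ∀ c : Module.End K V, (∀ X ∈ skp ψ L, ∃ s : K, c * X - X * c = s • c) →
      ∀ X ∈ L, ∃ s : K, c * X - X * c = s • c := by
    intro c hc X hX
    obtain ⟨t, ht⟩ := Block_split hmult hX
    obtain ⟨s, hs⟩ := hc _ ht
    exact ⟨s, hL c X s t hs⟩
  have hfull : ∀ b, 2 ≤ rk (p b) → ∀ X ∈ sb ψ (p b) (st b = b), ∃ Y ∈ skp ψ L, p b * Y = X := by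
    intro b hb X hX
    rcases htor b with ⟨h1, -⟩ | ⟨N, hN, hNN, hNs, h⟩
    · omega
    have hNg : N ∈ skp ψ L := ⟨hNs, 0, by rw [zero_smul, add_zero]; exact hN⟩
    by_cases hst : st b = b
    · have htor : Toric L (LinearMap.range (p b)) N := by
        rcases h with h | ⟨-, h⟩
        · exact Or.inl (Or.inl h)
        · exact h
      exact hBlock K V ψ hBD.alt hBD.anti hBD.nd L hlie hmult (p b) (hBD.pp b) (hBD.ne b)
        (fun x y => by rw [hBD.adj b x y, hst]) (hcom b) (hirr b) N hN hNN hNs htor X
        ⟨hX.2.2 hst, hX.1⟩
    · have h1 : finrank K ((LinearMap.range (p b)).map N) = 1 := by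
        rcases h with h | ⟨h, -⟩
        · exact h
        · exact absurd h hst
      rcases hSlB K V B ψ p st hBD (skp ψ L) glie gsk hcomg b (girr b) N hNg hNN h1 with
        h2 | ⟨h2, c, hc, hc0, hct⟩
      · exact h2 X ⟨hX.1, hX.2.1, False.elim⟩
      · refine absurd (htw b (st b) (fun h => hst h.symm) hst hb (fun h => ?_) c hc (twL c hct)) hc0
        omega
  have tw : ∀ a b, a ≠ b → a ≠ st b → 2 ≤ rk (p a) → 2 ≤ rk (p b) → ∀ c : Module.End K V,
      p b * c * p a = c → (∀ X ∈ skp ψ L, ∃ s : K, c * X - X * c = s • c) → c = 0 := by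
    intro a b hab hab' ha hb c hc hct
    by_cases hsa : st a = a
    · by_cases hsb : st b = b
      · by_contra hc0
        have hcp : c * p a = c := by
          rw [← hc, mul_assoc, hBD.pp]
        have hpc : p b * c = c := by
          rw [← hc, ← mul_assoc, ← mul_assoc, hBD.pp]
        have hker : LinearMap.ker c ⊓ LinearMap.range (p a) = ⊥ := by
          rcases girr a (LinearMap.ker c ⊓ LinearMap.range (p a)) inf_le_right (by
            rintro X hX y ⟨hy1, ⟨z, hz⟩⟩
            obtain ⟨s, hs⟩ := hct X hX
            refine ⟨?_, ?_⟩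
            · have h1 := LinearMap.congr_fun hs y
              rw [LinearMap.sub_apply, Module.End.mul_apply, Module.End.mul_apply,
                LinearMap.smul_apply, LinearMap.mem_ker.1 hy1, map_zero, smul_zero, sub_zero] at h1
              exact h1
            · refine ⟨X z, ?_⟩
              rw [← hz, ← Module.End.mul_apply, hcomg a X hX, Module.End.mul_apply]) with h | h
          · exact h
          · refine absurd ?_ hc0
            rw [← hcp]
            refine LinearMap.ext fun x => ?_
            have h1 : p a x ∈ LinearMap.ker c ⊓ LinearMap.range (p a) := by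
              rw [h]
              exact ⟨x, rfl⟩
            exact h1.1
        have hran : LinearMap.range c = LinearMap.range (p b) := by
          rcases girr b (LinearMap.range c) (by
            rintro _ ⟨x, rfl⟩
            exact ⟨c x, LinearMap.congr_fun hpc x⟩) (by
            rintro X hX _ ⟨y, rfl⟩
            obtain ⟨s, hs⟩ := hct X hX
            refine ⟨X y - s • y, ?_⟩
            have h1 := LinearMap.congr_fun hs y
            rw [LinearMap.sub_apply, Module.End.mul_apply, Module.End.mul_apply,
              LinearMap.smul_apply] at h1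
            rw [map_sub, map_smul, ← h1, sub_sub_cancel]) with h | h
          · exact absurd (LinearMap.range_eq_bot.1 h) hc0
          · exact h
        obtain ⟨d0, hd0⟩ := AllG_reg c
        set d : Module.End K V := p a * d0 * p b with hd
        have hcdc : c * d * c = c := by
          calc c * d * c = (c * p a) * d0 * (p b * c) := by rw [hd]; simp only [mul_assoc]
            _ = c := by rw [hcp, hpc, hd0]
        have hdc : d * c = p a := by
          refine LinearMap.ext fun x => ?_
          have h1 : (d * c) x - p a x ∈ LinearMap.ker c ⊓ LinearMap.range (p a) := by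
            refine ⟨?_, ⟨(d0 * p b * c) x - x, ?_⟩⟩
            · have h2 := LinearMap.congr_fun hcdc x
              have h3 := LinearMap.congr_fun hcp x
              rw [Module.End.mul_apply] at h3
              change c ((d * c) x - p a x) = 0
              rw [map_sub, h3, sub_eq_zero]
              exact h2
            · rw [map_sub, hd]
              rfl
          rw [hker, Submodule.mem_bot, sub_eq_zero] at h1
          exact h1
        have hcd : c * d = p b := by
          refine LinearMap.ext fun x => ?_
          obtain ⟨y, hy⟩ : p b x ∈ LinearMap.range c := by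
            rw [hran]
            exact ⟨x, rfl⟩
          have h1 : d * p b = d := by rw [hd, mul_assoc, hBD.pp]
          have h2 := LinearMap.congr_fun hcdc y
          rw [← h1, ← mul_assoc, Module.End.mul_apply, ← hy]
          exact h2
        have hps : ∀ b, st b = b → ∀ X ∈ skp ψ L, tr (X * p b) = 0 := by
          intro b hsb X hX
          refine tr_skew ψ hBD.nd (fun x y => ?_)
          rw [Module.End.mul_apply, gsk X hX, hBD.adj, hsb, ← hcomg b X hX, Module.End.mul_apply]
        have hs0 : ∀ X ∈ skp ψ L, c * X - X * c = (0 : K) • c := by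
          intro X hX
          obtain ⟨s, hs⟩ := hct X hX
          have h1 : c * X * d - X * p b = s • p b := by
            rw [← hcd, ← smul_mul_assoc, ← hs, sub_mul]
            simp only [mul_assoc]
          have h2 : tr (c * X * d) = 0 := by
            rw [mul_assoc, tr_comm, mul_assoc, hdc]
            exact hps a hsa X hX
          have h3 : tr (c * X * d - X * p b) = tr (c * X * d) - tr (X * p b) := by
            unfold tr
            rw [map_sub]
          have h4 : tr (s • p b) = s * (rk (p b) : K) := by
            rw [← tr_idem (hBD.pp b)]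
            exact map_smul _ s _
          rw [h1, h4, h2, hps b hsb X hX, sub_zero] at h3
          rcases mul_eq_zero.1 h3 with h5 | h5
          · rw [hs, h5]
          · have h6 := Nat.cast_eq_zero.1 h5
            omega
        refine hc0 ?_
        rw [← hc]
        refine hcross b a (fun h => hab h.symm) c fun X hX => ?_
        obtain ⟨t, ht⟩ := Block_split hmult hX
        have h1 := hL c X 0 t (hs0 _ ht)
        rwa [zero_smul, sub_eq_zero] at h1
      · obtain ⟨c', hc'⟩ := AllG_adj ψ hBD.anti hBD.nd c
        have h1 : p a * c' * p (st b) = c' := by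
          refine AllG_ext hBD.anti hBD.nd fun x y => ?_
          rw [Module.End.mul_apply, Module.End.mul_apply]
          have h2 := hBD.adj a x (c' (p (st b) y))
          rw [hsa] at h2
          rw [← h2, ← hc', ← hBD.adj, ← hc']
          nth_rewrite 2 [← hc]
          rfl
        have h2 : ∀ X ∈ skp ψ L, ∃ s : K, c' * X - X * c' = s • c' := by
          intro X hX
          obtain ⟨s, hs⟩ := hct X hX
          refine ⟨s, AllG_ext hBD.anti hBD.nd fun x y => ?_⟩
          have h3 := congrArg (fun Z : Module.End K V => ψ (Z x) y) hs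
          simp only [LinearMap.sub_apply, Module.End.mul_apply, LinearMap.smul_apply, map_sub,
            map_smul, smul_eq_mul] at h3
          rw [hc', hc', gsk X hX (c x), hc', gsk X hX x] at h3
          rw [LinearMap.sub_apply, LinearMap.smul_apply, Module.End.mul_apply,
            Module.End.mul_apply, map_sub, map_smul, smul_eq_mul]
          linear_combination h3
        have h3 : c' = 0 := by
          refine htw (st b) a (fun h => hab' h.symm) (fun h => hsb ?_) ?_ (fun h => hab ?_) c' h1
            (twL c' h2)
          · rw [hBD.inv] at h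
            exact h.symm
          · rw [hBD.rk_st]
            exact hb
          · rw [h.1, hBD.inv]
        refine LinearMap.ext fun x => hBD.nd _ fun y => ?_
        rw [hc', h3, LinearMap.zero_apply, map_zero]
    · refine htw a b hab hsa ha (fun h => hab' ?_) c hc (twL c hct)
      rw [h.1, hBD.inv]
  refine hGourG K V B ψ p st hBD (skp ψ L) glie gsk hcomg hfull ?_ X hX hXc hXt
  intro a b hab hab' ha hb
  refine hPairG K V B ψ p st hBD (skp ψ L) glie gsk hcomg hfull a b hab hab' ha hb
    (tw a b hab hab' ha hb) (tw a (st b) hab' ?_ ha ?_)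
  · rw [hBD.inv]
    exact hab
  · rw [hBD.rk_st]
    exact hb

end Pool.Agent.Lib.MP_640417_ag.Tg
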