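import Pool.Agent.Lib.MP_640417_ag.Tg.DefsR

/-!
# Places which decide: the conditions on the constituents
-/

namespace Pool.Agent.Lib.MP_640417_ag.Tg

open Module Pool.Agent.Lib.MP_640417_ag.Tor

variable {K V : Type} [Field K] [AddCommGroup V] [Module K V]

/-- Every irreducible constituent `W` has dimension one, or some `A ∈ L` is on `W` the sum of a scalar `a` and of
an operator `B` such that `B` has rank one on `W`, or `W` is self-dual, `B² = 0` on `W`, and the rank `r` of `B` on
`W` is `1` or `2`, or prime to the dimension of `W` while `L` contains an idempotent which is not `0`, `1`, or odd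
while the idempotents in `L` generate `L` as an ideal (`Toric`). -/
def ConstG (ψ : LinearMap.BilinForm K V) (L : Submodule K (Module.End K V)) : Prop :=
  ∀ W : Submodule K V, IrrMod L W → finrank K W = 1 ∨
    ∃ A ∈ L, ∃ a : K, finrank K (W.map (A - a • (1 : Module.End K V))) = 1 ∨
      (DualMod ψ L W W ∧ (∀ x ∈ W, (A - a • (1 : Module.End K V))
        ((A - a • (1 : Module.End K V)) x) = 0) ∧ Toric L W (A - a • (1 : Module.End K V)))

end Pool.Agent.Lib.MP_640417_ag.Tg
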