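import Pool.Agent.Lib.MP_640417_ag.Tg.SpecR
import Pool.Agent.Lib.MP_640417_ag.Tg.DefsW

/-!
# Places which decide, more general conditions on the constituents: statements with proofs

The same as `SpecA`, `SpecR` with weaker hypotheses. Every statement is a proposition `SName`; the module
`Tg/Name.lean` proves `pName : SName`, or, if the docstring names other statements, `pName` takes these as
hypotheses. `Skew` is `Tor.Skew` (there is also a `Four.Skew`, so do not open the namespace `Four` completely).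
-/

set_option autoImplicit false

namespace Pool.Agent.Lib.MP_640417_ag.Tg

open Module TensorProduct Pool.Agent.Lib.MP_640417_ag Pool.Agent.Lib.MP_640417_ag.Tor
  Pool.Agent.Lib.MP_640417_ag.Lef Pool.Agent.Lib.MP_640417_ag.Frob
  Pool.Agent.Lib.MP_640417_ag.Glob Pool.Agent.Lib.MP_640417_ag.Ty
  Pool.Agent.Lib.MP_640417_ag.Ctl

open Pool.Agent.Lib.MP_640417_ag.Four (Semisimple)

/-- **The algebraic main theorem in a block**, with a condition on the square only in the block.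
Proof. Copy `pPMB` (`Tor/PMB.lean`); `N * N = 0` is only used to show `res N * res N = 0`, and `res (N * N) = 0` follows from
the hypothesis (`PMB_coe`). -/
def SPMBW : Prop :=
  ∀ (K V : Type) [Field K] [IsAlgClosed K] [CharZero K] [AddCommGroup V] [Module K V]
    [FiniteDimensional K V] (ψ : LinearMap.BilinForm K V) (_ : ∀ x, ψ x x = 0)
    (_ : ∀ x, (∀ y, ψ x y = 0) → x = 0)
    (g : Submodule K (Module.End K V)) (_ : ∀ X ∈ g, ∀ Y ∈ g, X * Y - Y * X ∈ g)
    (_ : ∀ X ∈ g, Skew ψ X) (p : Module.End K V) (_ : p * p = p) (_ : p ≠ 0)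
    (_ : ∀ x y, ψ (p x) y = ψ x (p y)) (_ : ∀ X ∈ g, p * X = X * p)
    (_ : ∀ W' ≤ LinearMap.range p, (∀ X ∈ g, ∀ y ∈ W', X y ∈ W') →
      W' = ⊥ ∨ W' = LinearMap.range p) (N : Module.End K V), N ∈ g →
    (∀ x ∈ LinearMap.range p, N (N x) = 0) →
    ((finrank K ((LinearMap.range p).map N) = 1 ∨ finrank K ((LinearMap.range p).map N) = 2) ∨
      (Nat.Coprime (finrank K ((LinearMap.range p).map N)) (finrank K (LinearMap.range p)) ∧
        ∃ t ∈ g, t * t = (1 / 4 : K) • (1 : Module.End K V)) ∨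
      (Odd (finrank K ((LinearMap.range p).map N)) ∧ ∀ a, Idl g a →
        (∀ t ∈ g, t * t = (1 / 4 : K) • (1 : Module.End K V) → t ∈ a) → a = g)) →
    ∀ X ∈ spb ψ p, ∃ Y ∈ g, p * Y = X

/-- **The block theorem for `L`** (from `SPMBW`, `SIdem` of `Tor/SpecL.lean`).
Proof. Let `B = A - a • 1`. By `Block_split` (`Tor/Block.lean`) `A - s • 1 ∈ skp ψ L` for some `s`. The operator `p (A - s • 1)` is skew, so it has trace `0`
(`GouC_skew` in `Tor/GouC.lean`, `tr_skew` in `Tor/Adj.lean`); `p B` has square `0` (`p` commutes with `A`, `B B x = 0` on the range of `p`), so trace `0`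
(`tr_sq` in `Tor/PrimTr.lean`). The difference is `(a - s) • p`, and `tr p = rk p ≠ 0`, so `a = s` and `B ∈ skp ψ L`. Now copy the proof of `pBlock` (`Tor/Block.lean`) with
`N := B` and `SPMBW`. -/
def SBlkW : Prop :=
  ∀ (K V : Type) [Field K] [IsAlgClosed K] [CharZero K] [AddCommGroup V] [Module K V]
    [FiniteDimensional K V] (ψ : LinearMap.BilinForm K V) (_ : ∀ x, ψ x x = 0)
    (_ : ∀ x y, ψ x y = - ψ y x) (_ : ∀ x, (∀ y, ψ x y = 0) → x = 0)
    (L : Submodule K (Module.End K V)) (_ : ∀ X ∈ L, ∀ Y ∈ L, X * Y - Y * X ∈ L)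
    (_ : ∀ X ∈ L, ∃ c : K, ∀ x y, ψ (X x) y + ψ x (X y) = c * ψ x y)
    (p : Module.End K V) (_ : p * p = p) (_ : p ≠ 0)
    (_ : ∀ x y, ψ (p x) y = ψ x (p y)) (_ : ∀ X ∈ L, p * X = X * p)
    (_ : IrrMod L (LinearMap.range p)) (A : Module.End K V) (a : K), A ∈ L →
    (∀ x ∈ LinearMap.range p, (A - a • (1 : Module.End K V))
      ((A - a • (1 : Module.End K V)) x) = 0) →
    Toric L (LinearMap.range p) (A - a • (1 : Module.End K V)) →
    ∀ X ∈ spb ψ p, ∃ Y ∈ skp ψ L, p * Y = X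

/-- **An irreducible Lie algebra with a semisimple operator of rank one.**
Proof. Let `g' = {X | ∃ s, X + s • 1 ∈ g}`, a Lie algebra with the same stable subspaces, and `[g', g'] ⊆ g`. `E = v ⊗ φ ∈ g'` (`E u = φ u • v`), `c = φ v ≠ 0`. For
`X ∈ g'`: `E X E = φ(X v) E`, `[E, [E, X]] = c (E X + X E) - 2 φ(X v) E`, so `E X` and `X E` are in `g'` (`E X - X E ∈ g'`, `E X + X E ∈ g'`). Let
`P = {ψ | v ⊗ ψ ∈ g'}`, a subspace of the dual with `φ ∈ P`. For `ψ ∈ P`, `Y ∈ g'`: `E [v ⊗ ψ, Y] = c v ⊗ (ψ Y) - φ(Y v) v ⊗ ψ ∈ g'`, so `ψ Y ∈ P`. The subspace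
`{u | ψ u = 0 for ψ ∈ P}` is `g`-stable and does not contain `v`, so it is `0`, and `P` is the whole dual. In the same way `{u | u ⊗ φ ∈ g'}` is `g`-stable
(`[Y, u ⊗ φ] E = c (Y u) ⊗ φ - φ(Y v) u ⊗ φ`) and contains `v`, so it is `U`. So `[u ⊗ φ, v ⊗ ψ] = c u ⊗ ψ - ψ(u) v ⊗ φ ∈ g'` and `u ⊗ ψ ∈ g'` for all `u`, `ψ`, and
`g'` contains all operators. Operators of trace zero are sums of commutators: with a basis, `E_ij = [E_ii, E_ij]`, `E_ii - E_jj = [E_ij, E_ji]`; so they are in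
`[g', g'] ⊆ g`. -/
def SIdemOne : Prop :=
  ∀ (K U : Type) [Field K] [CharZero K] [AddCommGroup U] [Module K U]
    [FiniteDimensional K U] (g : Submodule K (Module.End K U)) (_ : Lie g) (_ : Irr g ⊤)
    (v : U) (φ : Module.Dual K U) (a : K) (T : Module.End K U), T ∈ g →
    (∀ u, T u = φ u • v + a • u) → φ v ≠ 0 → ∀ X, tr X = 0 → X ∈ g

/-- **Classification in a block** (from `SIdemOne`, `SCls`).
Proof. As `pSlB` (`Tg/SlB.lean`): `W = range (p b)`, `res` (`PMB_res` in `Tor/PMB.lean`), `g₁ = res g`, `B = res A - a`, of rank one, so `B u = φ u • v`. If `φ v ≠ 0`, `SIdemOne` for `g₁`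
shows that all operators of trace zero of `W` are in `g₁`, which is the first alternative. If `φ v = 0` then `B B = 0`. Let `g₂ = {X | ∃ s, X + s • 1 ∈ g₁}` (contains
`g₁`, `1`, `B`), a Lie algebra, irreducible; `SCls` for `g₂`. If all operators of trace zero are in `g₂`: they are sums of commutators of operators of trace
zero (`E_ij = [(E_ii - E_jj)/2, E_ij]` for `i ≠ j`, `E_ii - E_jj = [E_ij, E_ji]`; or `pPerf`), and `[g₂, g₂] ⊆ g₁`, so they are in `g₁`. Otherwise the form `ω` on `W` gives `c` as in the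
proof of `pSlB` (`g₁ ≤ g₂`). -/
def SSlW : Prop :=
  ∀ (K V : Type) [Field K] [IsAlgClosed K] [CharZero K] [AddCommGroup V] [Module K V]
    [FiniteDimensional K V] (B : Type) [Fintype B] [DecidableEq B] (ψ : LinearMap.BilinForm K V)
    (p : B → Module.End K V) (st : B → B) (_ : BD ψ p st) (g : Submodule K (Module.End K V))
    (_ : Lie g) (_ : ∀ X ∈ g, Skew ψ X) (_ : ∀ b, ∀ X ∈ g, p b * X = X * p b) (b : B)
    (_ : Irr g (LinearMap.range (p b))) (A : Module.End K V) (a : K), A ∈ g →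
    finrank K ((LinearMap.range (p b)).map (A - a • (1 : Module.End K V))) = 1 →
    (∀ Y ∈ sb ψ (p b) False, ∃ X ∈ g, p b * X = Y) ∨
      (3 ≤ rk (p b) ∧ ∃ c : Module.End K V, p (st b) * c * p b = c ∧ c ≠ 0 ∧
        ∀ X ∈ g, ∃ s : K, c * X - X * c = s • c)

/-- **Rank one in a self-dual block** (from `SIdemOne`).
Proof. `W`, `res`, `g₁ = res g`, `B = res A - a = v ⊗ φ` as in `SSlW`. If `φ v ≠ 0`: `SIdemOne` (all operators of trace zero). If `φ v = 0`: `tr (res A) = 0` (`res A` is skew for the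
restricted form, or `tr (p b A) = 0` by `tr_skew`) and `tr B = φ v = 0`, so `a * dim W = 0`, `a = 0`, and `res A` has rank one; `pRankOne` (`Tor/RankOne.lean`) for `g₁` and the form `ψ'` on `W`
(`Dat ψ' g₁` as in the proof of `pPMB`, `Tor/PMB.lean`) shows that all skew operators of `W` are in `g₁`. -/
def SRkW : Prop :=
  ∀ (K V : Type) [Field K] [IsAlgClosed K] [CharZero K] [AddCommGroup V] [Module K V]
    [FiniteDimensional K V] (ψ : LinearMap.BilinForm K V) (_ : ∀ x, ψ x x = 0)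
    (_ : ∀ x, (∀ y, ψ x y = 0) → x = 0) (g : Submodule K (Module.End K V)) (_ : Lie g)
    (_ : ∀ X ∈ g, Skew ψ X) (p : Module.End K V) (_ : p * p = p) (_ : p ≠ 0)
    (_ : ∀ x y, ψ (p x) y = ψ x (p y)) (_ : ∀ X ∈ g, p * X = X * p)
    (_ : Irr g (LinearMap.range p)) (A : Module.End K V) (a : K), A ∈ g →
    finrank K ((LinearMap.range p).map (A - a • (1 : Module.End K V))) = 1 →
    ∀ X ∈ spb ψ p, ∃ Y ∈ g, p * Y = X

/-- **All blocks** (from `SBlkW`, `SSlW`, `SRkW`, `SPairG`, `SGourG`).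
Proof. As `pAllG` (`Tg/AllG.lean`); only the step `hfull` changes: for `b` with `2 ≤ rk (p b)` the hypothesis gives `A ∈ L`, `a`. If `W.map (A - a)` has dimension one: `A₀ = A - s • 1 ∈ skp ψ L`
(`Block_split`), `A - a = A₀ - (a - s)`; if `st b = b` use `SRkW`, otherwise `SSlW` (second alternative excluded by the twist hypothesis as in `pAllG`). In the
other case `st b = b` and `SBlkW`. -/
def SAllW : Prop :=
  ∀ (K V : Type) [Field K] [IsAlgClosed K] [CharZero K] [AddCommGroup V] [Module K V]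
    [FiniteDimensional K V] (B : Type) [Fintype B] [DecidableEq B] (ψ : LinearMap.BilinForm K V)
    (p : B → Module.End K V) (st : B → B) (_ : BD ψ p st) (L : Submodule K (Module.End K V))
    (_ : Lie L) (_ : ∀ X ∈ L, ∃ c : K, ∀ x y, ψ (X x) y + ψ x (X y) = c * ψ x y)
    (_ : ∀ b, ∀ X ∈ L, p b * X = X * p b) (_ : ∀ b, IrrMod L (LinearMap.range (p b)))
    (_ : ∀ a b, a ≠ b → ∀ c : Module.End K V, (∀ X ∈ L, c * X = X * c) → p a * c * p b = 0)
    (_ : ∀ b, rk (p b) = 1 ∨ ∃ A ∈ L, ∃ a : K,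
      finrank K ((LinearMap.range (p b)).map (A - a • (1 : Module.End K V))) = 1 ∨
        (st b = b ∧ (∀ x ∈ LinearMap.range (p b), (A - a • (1 : Module.End K V))
          ((A - a • (1 : Module.End K V)) x) = 0) ∧
          Toric L (LinearMap.range (p b)) (A - a • (1 : Module.End K V))))
    (_ : ∀ a b, a ≠ b → st a ≠ a → 2 ≤ rk (p a) → ¬ (b = st a ∧ rk (p a) = 2) →
      ∀ c : Module.End K V, p b * c * p a = c → (∀ X ∈ L, ∃ s : K, c * X - X * c = s • c) → c = 0)
    (X : Module.End K V), Skew ψ X → (∀ b, p b * X = X * p b) → (∀ b, tr (p b * X) = 0) →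
    X ∈ skp ψ L

/-- **The Lie algebra of a sum with multiplicities** (from `SIrrE`, `SDualE`, `STwistE`, `SAllW`).
Proof. As `pFullG` (`Tg/FullG.lean`). -/
def SFullW : Prop :=
  ∀ (K V : Type) [Field K] [IsAlgClosed K] [CharZero K] [AddCommGroup V] [Module K V]
    [FiniteDimensional K V] (ψ : LinearMap.BilinForm K V) (L : Submodule K (Module.End K V))
    (C : Subalgebra K (Module.End K V)) (_ : Cc ψ L C) (N : ℕ) (st : Fin N → Fin N)
    (ε : Fin N → Module.End K V) (_ : Sys ψ C N st ε) (r : Fin N → Fin N)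
    (u v : Fin N → Module.End K V) (_ : UV ψ C N st ε r u v) (_ : ConstG ψ L) (_ : NoTwist ψ L)
    (X : Module.End K V), Skew ψ X → (∀ c ∈ C, X * c = c * X) → (∀ j, tr (ε j * X) = 0) →
      X ∈ skp ψ L

/-- **The Lie algebra contains the Lefschetz Lie algebra, up to the center** (from `SFullW`, `SSplit`, `SCcL`, `SDescT`).
Proof. As `pLefT` (`Tg/LefT.lean`), without the step `ToricG`. -/
def SLefW : Prop :=
  ∀ (l : ℕ) [Fact l.Prime] (Γ : Type) [Group Γ] [TopologicalSpace Γ] [IsTopologicalGroup Γ]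
    [CompactSpace Γ] (V : Type) [AddCommGroup V] [Module ℚ_[l] V] [FiniteDimensional ℚ_[l] V]
    (ρ : H1Rep Γ ℚ_[l] V) (_ : Semisimple ρ) (_ : NoTypeIII ρ) (K : Type) [Field K]
    [Algebra ℚ_[l] K] [IsAlgClosed K] (_ : ConstG (ρ.form.baseChange K) (LieK l ρ K))
    (_ : NoTwist (ρ.form.baseChange K) (LieK l ρ K)) (I : Type) [Fintype I] [DecidableEq I]
    (e : Basis I ℚ_[l] V) (R : MRep Γ ℚ_[l] I) (_ : ∀ γ, R.M γ = LinearMap.toMatrix e e (ρ.T γ))
    (_ : ∀ i j, R.J i j = ρ.form (e i) (e j)) (X : Module.End ℚ_[l] V),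
    Lefschetz ρ X → LinearMap.toMatrix e e X ∈ Hp R l

end Pool.Agent.Lib.MP_640417_ag.Tg
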