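import Pool.Agent.Lib.MP_640417_ag.Tg.SpecA

/-!
# Toric places, no factors of type III: a block is perfect
-/

namespace Pool.Agent.Lib.MP_640417_ag.Tg

open Module Pool.Agent.Lib.MP_640417_ag.Tor

/-- `sb ψ p t` is closed under brackets. -/
theorem Perf_lie {K V : Type} [Field K] [AddCommGroup V] [Module K V]
    (ψ : LinearMap.BilinForm K V) (p : Module.End K V) (t : Prop)
    (hpp : p * p = p) {X Y : Module.End K V} (hX : X ∈ sb ψ p t) (hY : Y ∈ sb ψ p t) :
    X * Y - Y * X ∈ sb ψ p t := by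
  obtain ⟨hX1, hX2, hX3⟩ := hX
  obtain ⟨hY1, hY2, hY3⟩ := hY
  have hpX : p * X = X := by
    calc p * X = p * (p * X * p) := by rw [hX1]
      _ = (p * p) * X * p := by noncomm_ring
      _ = X := by rw [hpp, hX1]
  have hpY : p * Y = Y := by
    calc p * Y = p * (p * Y * p) := by rw [hY1]
      _ = (p * p) * Y * p := by noncomm_ring
      _ = Y := by rw [hpp, hY1]
  have hXp : X * p = X := by
    calc X * p = (p * X * p) * p := by rw [hX1]
      _ = p * X * (p * p) := by noncomm_ring
      _ = X := by rw [hpp, hX1]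
  have hYp : Y * p = Y := by
    calc Y * p = (p * Y * p) * p := by rw [hY1]
      _ = p * Y * (p * p) := by noncomm_ring
      _ = Y := by rw [hpp, hY1]
  refine ⟨?_, ?_, fun ht x y => ?_⟩
  · calc p * (X * Y - Y * X) * p = (p * X) * (Y * p) - (p * Y) * (X * p) := by noncomm_ring
      _ = X * Y - Y * X := by rw [hpX, hpY, hXp, hYp]
  · unfold tr
    rw [map_sub, LinearMap.trace_mul_comm, sub_self]
  · have hx := hX3 ht
    have hy := hY3 ht
    rw [LinearMap.sub_apply, map_sub, LinearMap.sub_apply, LinearMap.sub_apply, map_sub]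
    simp only [Module.End.mul_apply]
    rw [hx, hy, hy, hx]
    ring

theorem pPerf (hSpan : SSpan) (hPartner : SPartner) : SPerf := by
  intro K V _ _ _ _ _ _ ψ p t hB
  refine (hSpan K V ψ p t hB).trans ?_
  rw [Submodule.span_le]
  rintro e ⟨he, hee, hr⟩
  obtain ⟨f, hf⟩ := (hPartner K V ψ p t hB).1 e he hee hr
  have h1 : e * f - f * e ∈ sb ψ p t := Perf_lie ψ p t hB.pp he hf.mf
  have h2 : (e * f - f * e) * e - e * (e * f - f * e) = (2 : K) • e := by
    have h3 : (e * f - f * e) * e - e * (e * f - f * e) =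
        e * f * e - f * (e * e) - e * e * f + e * f * e := by noncomm_ring
    rw [h3, hf.ee, hf.efe, two_smul, mul_zero, zero_mul]
    abel
  have h4 : (2 : K) • e ∈ der (sb ψ p t) :=
    Submodule.subset_span ⟨_, h1, e, he, h2.symm⟩
  have h5 : e = (2 : K)⁻¹ • ((2 : K) • e) := by
    rw [smul_smul, inv_mul_cancel₀ (two_ne_zero), one_smul]
  rw [SetLike.mem_coe, h5]
  exact Submodule.smul_mem _ _ h4

end Pool.Agent.Lib.MP_640417_ag.Tg
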