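import Pool.Agent.Lib.MP_640417_ag.Tg.DefsR

/-!
# Constituents with a large Lie algebra
-/

namespace Pool.Agent.Lib.MP_640417_ag.Tg

open Module Pool.Agent.Lib.MP_640417_ag.Tor

variable {K V : Type} [Field K] [AddCommGroup V] [Module K V]

/-- `L` is as large as possible on `W`: it induces on `W` all operators `Y` of trace `0` which respect the
equivariant pairings `β` of `W` with itself (pairings for which every `X ∈ L` has the same multiplier as
for the form `ψ`; all of them are `0` on `W` if `W` is not self-dual). -/
def BigMod (ψ : LinearMap.BilinForm K V) (L : Submodule K (Module.End K V))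
    (W : Submodule K V) : Prop :=
  ∀ Y : Module.End K W, LinearMap.trace K W Y = 0 →
    (∀ β : LinearMap.BilinForm K V, (∀ X ∈ L, ∀ m : K,
        (∀ x y, ψ (X x) y + ψ x (X y) = m * ψ x y) →
          ∀ x ∈ W, ∀ y ∈ W, β (X x) y + β x (X y) = m * β x y) →
      ∀ x y : W, β (Y x) y + β x (Y y) = 0) →
    ∃ A ∈ L, ∀ x : W, A x = Y x

/-- For every irreducible constituent `W`: `L` is as large as possible on `W` (`BigMod`), or some `A ∈ L` is on
`W` the sum of a scalar `a` and of an operator `B` such that `B` has rank one on `W`, or `W` is self-dual, `B² = 0` on `W`,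
and the rank `r` of `B` on `W` is `1` or `2`, or prime to the dimension of `W` while `L` contains an idempotent
which is not `0`, `1`, or odd while the idempotents in `L` generate `L` as an ideal (`Toric`). -/
def ConstH (ψ : LinearMap.BilinForm K V) (L : Submodule K (Module.End K V)) : Prop :=
  ∀ W : Submodule K V, IrrMod L W → BigMod ψ L W ∨
    ∃ A ∈ L, ∃ a : K, finrank K (W.map (A - a • (1 : Module.End K V))) = 1 ∨
      (DualMod ψ L W W ∧ (∀ x ∈ W, (A - a • (1 : Module.End K V))
        ((A - a • (1 : Module.End K V)) x) = 0) ∧ Toric L W (A - a • (1 : Module.End K V)))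

end Pool.Agent.Lib.MP_640417_ag.Tg
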