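import Pool.Agent.Lib.MP_640417_ag.Tg.SpecR
import Pool.Agent.Lib.MP_640417_ag.Dfr.HasSys
import Pool.Agent.Lib.MP_640417_ag.Lef.Main

/-!
# Systems of minimal idempotents in the commutant over `K`
-/

set_option autoImplicit false

namespace Pool.Agent.Lib.MP_640417_ag.Tg

open Module TensorProduct Pool.Agent.Lib.MP_640417_ag Pool.Agent.Lib.MP_640417_ag.Tor
  Pool.Agent.Lib.MP_640417_ag.Lef Pool.Agent.Lib.MP_640417_ag.Frob
  Pool.Agent.Lib.MP_640417_ag.Ty Pool.Agent.Lib.MP_640417_ag.Dfr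
  Pool.Agent.Lib.MP_640417_ag.Dfr.RelM

open Pool.Agent.Lib.MP_640417_ag.Four (Semisimple Dv)

/-- The commutant over `K` has a system of minimal idempotents compatible with the adjunction. -/
def HasSysK {Γ : Type} [Group Γ] [TopologicalSpace Γ] {V : Type} [AddCommGroup V] (l : ℕ)
    [Fact l.Prime] [Module ℚ_[l] V] (ρ : H1Rep Γ ℚ_[l] V) (K : Type) [Field K]
    [Algebra ℚ_[l] K] : Prop :=
  ∀ U : OpenSubgroup Γ, (∀ γ, γ ∈ U ↔ ∀ c, CommF ρ c → c * ρ.T γ = ρ.T γ * c) →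
    ∃ (N : ℕ) (st : Fin N → Fin N) (ε : Fin N → Module.End K (K ⊗[ℚ_[l]] V)),
      Sys (ρ.form.baseChange K) (cenK K (res ρ U).T) N st ε

variable (l : ℕ) [Fact l.Prime] {Γ : Type} [Group Γ]
    [TopologicalSpace Γ] [IsTopologicalGroup Γ] [CompactSpace Γ] {V : Type} [AddCommGroup V]
    [Module ℚ_[l] V] [FiniteDimensional ℚ_[l] V] (ρ : H1Rep Γ ℚ_[l] V)

theorem hasSysK_of_noTypeIII (h3 : NoTypeIII ρ) (K : Type) [Field K] [Algebra ℚ_[l] K]
    [IsAlgClosed K] : HasSysK l ρ K := by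
  intro U hU
  have hCK : CharZero K := charZero_of_injective_algebraMap (algebraMap ℚ_[l] K).injective
  obtain ⟨s, s', hs, hadj, hs', hsq, hs2, hs3⟩ := h3
  have hres : ∀ c, CommF ρ c → ∀ γ : U, c * (res ρ U).T γ = (res ρ U).T γ * c :=
    fun c hc γ => (hU γ).1 γ.2 c hc
  have hres' : ∀ c, (∀ γ : U, c * (res ρ U).T γ = (res ρ U).T γ * c) → CommF ρ c :=
    fun c hc => ⟨U, fun γ hγ => hc ⟨γ, hγ⟩⟩
  exact exists_sys K (res ρ U).T ρ.form ρ.form_alt ρ.form_nondeg s s'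
    (hres s hs) hadj hs' hsq (fun c hc => hs2 c (hres' c hc)) (fun c hc => hs3 c (hres' c hc))

theorem hasSysK_of_hasSys (h : HasSys ρ) : HasSysK l ρ (AlgebraicClosure ℚ_[l]) := by
  intro U hU
  have hCK : CharZero (AlgebraicClosure ℚ_[l]) :=
    charZero_of_injective_algebraMap (algebraMap ℚ_[l] (AlgebraicClosure ℚ_[l])).injective
  obtain ⟨N, st, ε, hS⟩ := (hasSys_res ρ U).mpr h
  rw [comK_eq (res ρ U) (fun c hc γ => (hU γ.1).mp γ.2 c ((commF_res ρ U c).mp hc))] at hS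
  exact ⟨N, st, ε, hS⟩

/-- **The first fundamental theorem.** -/
theorem fft_of (hss : Semisimple ρ) (h3 : HasSys ρ)
    (n m : ℕ) (x : ExteriorAlgebra ℚ_[l] (Fin n → V)) (hx : x ∈ ⋀[ℚ_[l]]^m (Fin n → V))
    (hk : ∀ X : Module.End ℚ_[l] V, (∀ x y, ρ.form (X x) y + ρ.form x (X y) = 0) →
      (∀ c, CommF ρ c → X * c = c * X) → Dv n X x = 0) :
    x ∈ divisorAlg (fun γ => (ρ.T γ).compLeft (Fin n)) ρ.χ := by
  obtain ⟨U, hU⟩ := exists_U0 ρ
  rw [← div_res ρ U n]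
  exact fft_full_of (res ρ U) (semi_res ρ U hss) ((hasSys_res ρ U).mpr h3)
    (fun c hc γ => (hU γ.1).mp γ.2 c ((commF_res ρ U c).mp hc)) n m x hx
    fun X hX hXc => hk X hX fun c hc => hXc c ((commF_res ρ U c).mpr hc)

end Pool.Agent.Lib.MP_640417_ag.Tg
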