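import Pool.Agent.Lib.MP_640417_ag.Tg.SpecW
import Pool.Agent.Lib.MP_640417_ag.Tg.DefsX
import Pool.Agent.Lib.MP_640417_ag.Tg.SysK

/-!
# Constituents with a large Lie algebra: statements
-/

set_option autoImplicit false

namespace Pool.Agent.Lib.MP_640417_ag.Tg

open Module TensorProduct Pool.Agent.Lib.MP_640417_ag Pool.Agent.Lib.MP_640417_ag.Tor
  Pool.Agent.Lib.MP_640417_ag.Lef Pool.Agent.Lib.MP_640417_ag.Frob
  Pool.Agent.Lib.MP_640417_ag.Glob Pool.Agent.Lib.MP_640417_ag.Ty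
  Pool.Agent.Lib.MP_640417_ag.Ctl

open Pool.Agent.Lib.MP_640417_ag.Four (Semisimple)

/-- **All blocks.** -/
def SAllX : Prop :=
  ∀ (K V : Type) [Field K] [IsAlgClosed K] [CharZero K] [AddCommGroup V] [Module K V]
    [FiniteDimensional K V] (B : Type) [Fintype B] [DecidableEq B] (ψ : LinearMap.BilinForm K V)
    (p : B → Module.End K V) (st : B → B) (_ : BD ψ p st) (L : Submodule K (Module.End K V))
    (_ : Lie L) (_ : ∀ X ∈ L, ∃ c : K, ∀ x y, ψ (X x) y + ψ x (X y) = c * ψ x y)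
    (_ : ∀ b, ∀ X ∈ L, p b * X = X * p b) (_ : ∀ b, IrrMod L (LinearMap.range (p b)))
    (_ : ∀ a b, a ≠ b → ∀ c : Module.End K V, (∀ X ∈ L, c * X = X * c) → p a * c * p b = 0)
    (_ : ∀ b, (∀ Y ∈ sb ψ (p b) (st b = b), ∃ A ∈ L, p b * A = Y) ∨ ∃ A ∈ L, ∃ a : K,
      finrank K ((LinearMap.range (p b)).map (A - a • (1 : Module.End K V))) = 1 ∨
        (st b = b ∧ (∀ x ∈ LinearMap.range (p b), (A - a • (1 : Module.End K V))
          ((A - a • (1 : Module.End K V)) x) = 0) ∧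
          Toric L (LinearMap.range (p b)) (A - a • (1 : Module.End K V))))
    (_ : ∀ a b, a ≠ b → st a ≠ a → 2 ≤ rk (p a) → ¬ (b = st a ∧ rk (p a) = 2) →
      ∀ c : Module.End K V, p b * c * p a = c → (∀ X ∈ L, ∃ s : K, c * X - X * c = s • c) → c = 0)
    (X : Module.End K V), Skew ψ X → (∀ b, p b * X = X * p b) → (∀ b, tr (p b * X) = 0) →
    X ∈ skp ψ L

/-- **The Lie algebra of a sum with multiplicities.** -/
def SFullX : Prop :=
  ∀ (K V : Type) [Field K] [IsAlgClosed K] [CharZero K] [AddCommGroup V] [Module K V]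
    [FiniteDimensional K V] (ψ : LinearMap.BilinForm K V) (L : Submodule K (Module.End K V))
    (C : Subalgebra K (Module.End K V)) (_ : Cc ψ L C) (N : ℕ) (st : Fin N → Fin N)
    (ε : Fin N → Module.End K V) (_ : Sys ψ C N st ε) (r : Fin N → Fin N)
    (u v : Fin N → Module.End K V) (_ : UV ψ C N st ε r u v) (_ : ConstH ψ L) (_ : NoTwist ψ L)
    (X : Module.End K V), Skew ψ X → (∀ c ∈ C, X * c = c * X) → (∀ j, tr (ε j * X) = 0) →
      X ∈ skp ψ L

/-- **The Lie algebra contains the Lefschetz Lie algebra, up to the center.** -/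
def SLefX : Prop :=
  ∀ (l : ℕ) [Fact l.Prime] (Γ : Type) [Group Γ] [TopologicalSpace Γ] [IsTopologicalGroup Γ]
    [CompactSpace Γ] (V : Type) [AddCommGroup V] [Module ℚ_[l] V] [FiniteDimensional ℚ_[l] V]
    (ρ : H1Rep Γ ℚ_[l] V) (_ : Semisimple ρ) (K : Type) [Field K]
    [Algebra ℚ_[l] K] [IsAlgClosed K] (_ : HasSysK l ρ K)
    (_ : ConstH (ρ.form.baseChange K) (LieK l ρ K))
    (_ : NoTwist (ρ.form.baseChange K) (LieK l ρ K)) (I : Type) [Fintype I] [DecidableEq I]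
    (e : Basis I ℚ_[l] V) (R : MRep Γ ℚ_[l] I) (_ : ∀ γ, R.M γ = LinearMap.toMatrix e e (ρ.T γ))
    (_ : ∀ i j, R.J i j = ρ.form (e i) (e j)) (X : Module.End ℚ_[l] V),
    Lefschetz ρ X → LinearMap.toMatrix e e X ∈ Hp R l

end Pool.Agent.Lib.MP_640417_ag.Tg
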