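import Pool.Agent.Lib.MP_640417_ag.Tg.SpecC
import Pool.Agent.Lib.MP_640417_ag.Tor.Adj
import Pool.Agent.Lib.MP_640417_ag.Lef.Ext

/-!
# Operators on a block which is not self-dual extend
-/

set_option autoImplicit false

namespace Pool.Agent.Lib.MP_640417_ag.Tg

open Module TensorProduct Pool.Agent.Lib.MP_640417_ag Pool.Agent.Lib.MP_640417_ag.Tor
  Pool.Agent.Lib.MP_640417_ag.Lef

/-- The adjoint operator. -/
theorem GlW_adj {K V : Type} [Field K] [AddCommGroup V] [Module K V] [FiniteDimensional K V]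
    (ψ : LinearMap.BilinForm K V) (anti : ∀ x y, ψ x y = - ψ y x)
    (nd : ∀ x, (∀ y, ψ x y = 0) → x = 0) (Y : Module.End K V) :
    ∃ Y' : Module.End K V, (∀ x y, ψ (Y x) y = ψ x (Y' y)) ∧ ∀ x y, ψ (Y' x) y = ψ x (Y y) := by
  let Y' : Module.End K V :=
    (Adj_equiv ψ nd).symm.toLinearMap ∘ₗ Y.dualMap ∘ₗ (Adj_equiv ψ nd).toLinearMap
  have h1 : ∀ x y, ψ (Y' x) y = ψ x (Y y) := by
    intro x y
    have h2 : Adj_equiv ψ nd (Y' x) = Y.dualMap (Adj_equiv ψ nd x) :=
      (Adj_equiv ψ nd).apply_symm_apply _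
    rw [Adj_equiv_apply, Adj_equiv_apply] at h2
    have h3 := LinearMap.congr_fun h2 y
    rw [LinearMap.dualMap_apply] at h3
    exact h3
  refine ⟨Y', fun x y => ?_, h1⟩
  rw [anti x (Y' y), h1, ← anti]

theorem pGlW : SGlW := by
  intro K V _ _ _ _ ψ anti nd C N st ε hS r u v hU j Y hrj hst hY
  obtain ⟨Y', hY1, hY2⟩ := GlW_adj ψ anti nd Y
  have nd' : ∀ y, (∀ x, ψ x y = 0) → y = 0 := fun y hy => nd y fun x => by
    rw [anti, hy, neg_zero]
  have hY' : ε (st j) * Y' * ε (st j) = Y' := by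
    apply LinearMap.ext
    intro y
    rw [← sub_eq_zero]
    apply nd'
    intro x
    rw [map_sub, sub_eq_zero]
    have e1 : ψ x ((ε (st j) * Y' * ε (st j)) y) = ψ ((ε j * Y * ε j) x) y := by
      rw [Module.End.mul_apply, Module.End.mul_apply, Module.End.mul_apply,
        Module.End.mul_apply, ← hS.adj j, ← hY1, hS.adj j]
    rw [e1, hY, hY1]
  have hYr : ∀ k, k ≠ j → Y * ε k = 0 := fun k hk => by
    rw [← hY, mul_assoc, hS.orth j k (Ne.symm hk), mul_zero]
  have hYl : ∀ k, k ≠ j → ε k * Y = 0 := fun k hk => by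
    rw [← hY, ← mul_assoc, ← mul_assoc, hS.orth k j hk, zero_mul, zero_mul]
  have hYr1 : Y * ε j = Y := by
    rw [← hY, mul_assoc, hS.idem]
  have hYl1 : ε j * Y = Y := by
    rw [← hY, ← mul_assoc, ← mul_assoc, hS.idem]
  have hZr : ∀ k, k ≠ st j → Y' * ε k = 0 := fun k hk => by
    rw [← hY', mul_assoc, hS.orth (st j) k (Ne.symm hk), mul_zero]
  have hZl : ∀ k, k ≠ st j → ε k * Y' = 0 := fun k hk => by
    rw [← hY', ← mul_assoc, ← mul_assoc, hS.orth k (st j) hk, zero_mul, zero_mul]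
  have hZr1 : Y' * ε (st j) = Y' := by
    rw [← hY', mul_assoc, hS.idem]
  have hZl1 : ε (st j) * Y' = Y' := by
    rw [← hY', ← mul_assoc, ← mul_assoc, hS.idem]
  have hYc : ∀ k, Y * ε k = ε k * Y := by
    intro k
    by_cases hk : k = j
    · rw [hk, hYr1, hYl1]
    · rw [hYr k hk, hYl k hk]
  have hZc : ∀ k, Y' * ε k = ε k * Y' := by
    intro k
    by_cases hk : k = st j
    · rw [hk, hZr1, hZl1]
    · rw [hZr k hk, hZl k hk]
  have hcomm : ∀ k, (Y - Y') * ε (r k) = ε (r k) * (Y - Y') := by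
    intro k
    rw [sub_mul, mul_sub, hYc, hZc]
  have hsk : Tor.Skew ψ (Y - Y') := by
    intro x y
    rw [LinearMap.sub_apply, map_sub, LinearMap.sub_apply, hY1, hY2, LinearMap.sub_apply, map_sub]
    ring
  have hsk4 : Four.Skew ψ (Y - Y') := by
    intro x y
    have := hsk x y
    rw [this]
    ring
  have hext := ext_skew hS hU hsk4
  have hv : ∀ k, r k = k → ε k * ext u v (Y - Y') = (Y - Y') * ε k := by
    intro k hk
    have h1 := v_ext hS hU hcomm k
    have h2 := hU.vr k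
    rw [hk] at h2
    rw [h2] at h1
    exact h1
  refine ⟨ext u v (Y - Y'), ?_, fun c hc => ext_comm hS hU hcomm hc, ?_, ?_⟩
  · intro x y
    have := hext x y
    linear_combination this
  · rw [hv j hrj, sub_mul, hYr1, hZr j (Ne.symm hst), sub_zero]
  · intro k hk1 hk2 hk3
    rw [hv k hk1, sub_mul, hYr k hk2, hZr k hk3, sub_zero]

end Pool.Agent.Lib.MP_640417_ag.Tg
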