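import Pool.Agent.Lib.MP_640417_ag.Tg.MainX
import Pool.Agent.Lib.MP_640417_ag.Tg.GlW

/-!
# The conditions on the constituents are necessary
-/

set_option autoImplicit false

namespace Pool.Agent.Lib.MP_640417_ag.Tg

open Module TensorProduct Pool.Agent.Lib.MP_640417_ag Pool.Agent.Lib.MP_640417_ag.Tor
  Pool.Agent.Lib.MP_640417_ag.Lef Pool.Agent.Lib.MP_640417_ag.Frob
  Pool.Agent.Lib.MP_640417_ag.Glob Pool.Agent.Lib.MP_640417_ag.Ty
  Pool.Agent.Lib.MP_640417_ag.Ctl Pool.Agent.Lib.MP_640417_ag.Gen4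
  Pool.Agent.Lib.MP_640417_ag.Dfr

open Pool.Agent.Lib.MP_640417_ag.Four (Semisimple NoExotic Dv)

/-- Skew operators on a self-dual block extend. -/
theorem BigA_self {K V : Type} [Field K] [AddCommGroup V] [Module K V] [FiniteDimensional K V]
    {ψ : LinearMap.BilinForm K V} {C : Subalgebra K (Module.End K V)} {N : ℕ}
    {st : Fin N → Fin N} {ε : Fin N → Module.End K V} (hS : Sys ψ C N st ε) {r : Fin N → Fin N}
    {u v : Fin N → Module.End K V} (hU : UV ψ C N st ε r u v) {j : Fin N} {Y : Module.End K V}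
    (hrj : r j = j) (hY : ε j * Y * ε j = Y) (hYs : Tor.Skew ψ Y) :
    ∃ X : Module.End K V, Tor.Skew ψ X ∧ (∀ c ∈ C, X * c = c * X) ∧ ε j * X = Y := by
  have hYr : ∀ k, k ≠ j → Y * ε k = 0 := fun k hk => by
    rw [← hY, mul_assoc, hS.orth j k (Ne.symm hk), mul_zero]
  have hYl : ∀ k, k ≠ j → ε k * Y = 0 := fun k hk => by
    rw [← hY, ← mul_assoc, ← mul_assoc, hS.orth k j hk, zero_mul, zero_mul]
  have hYr1 : Y * ε j = Y := by
    rw [← hY, mul_assoc, hS.idem]
  have hYl1 : ε j * Y = Y := by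
    rw [← hY, ← mul_assoc, ← mul_assoc, hS.idem]
  have hYc : ∀ k, Y * ε k = ε k * Y := by
    intro k
    by_cases hk : k = j
    · rw [hk, hYr1, hYl1]
    · rw [hYr k hk, hYl k hk]
  have hsk4 : Four.Skew ψ Y := by
    intro x y
    have := hYs x y
    rw [this]
    ring
  have hext := ext_skew hS hU hsk4
  have hcomm : ∀ k, Y * ε (r k) = ε (r k) * Y := fun k => hYc _
  have hv : ε j * ext u v Y = Y * ε j := by
    have h1 := v_ext hS hU hcomm j
    have h2 := hU.vr j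
    rw [hrj] at h2
    rw [h2] at h1
    exact h1
  refine ⟨ext u v Y, ?_, fun c hc => ext_comm hS hU hcomm hc, ?_⟩
  · intro x y
    have := hext x y
    linear_combination this
  · rw [hv, hYr1]

/-- If `L` contains the Lefschetz Lie algebra up to the center, then it is as large as possible on the
blocks. -/
theorem BigA_block {K V : Type} [Field K] [IsAlgClosed K] [CharZero K] [AddCommGroup V]
    [Module K V] [FiniteDimensional K V] {ψ : LinearMap.BilinForm K V}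
    {L : Submodule K (Module.End K V)} {C : Subalgebra K (Module.End K V)} (hC : Cc ψ L C)
    (hLef : LefAll ψ L C) {N : ℕ} {st : Fin N → Fin N} {ε : Fin N → Module.End K V}
    (hS : Sys ψ C N st ε) {r : Fin N → Fin N} {u v : Fin N → Module.End K V}
    (hU : UV ψ C N st ε r u v) {a : Fin N} (hra : r a = a) (h2 : 2 ≤ rk (ε a)) {Y : Module.End K V}
    (hY : Y ∈ sb ψ (ε a) (st a = a)) : ∃ A ∈ L, ε a * A = Y := by
  have hBlk : Blk ψ (ε a) (st a = a) :=
    { alt := hC.alt, anti := hC.anti, nd := hC.nd, pp := hS.idem a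
      adj := fun h x y => by rw [hS.adj a x y, h]
      two := h2 }
  have hcomA : ∀ A ∈ L, ε a * A = A * ε a := fun A hA => hC.com A hA _ (hS.mem a)
  have step : ∀ Z ∈ sb ψ (ε a) (st a = a), ∃ A ∈ L, ∃ t : K, ε a * A = Z + t • ε a := by
    rintro Z ⟨hZ1, -, hZ3⟩
    obtain ⟨X, hX1, hX2, hX3⟩ : ∃ X : Module.End K V, Tor.Skew ψ X ∧ (∀ c ∈ C, X * c = c * X) ∧
        ε a * X = Z := by
      by_cases hst : st a = a
      · exact BigA_self hS hU hra hZ1 (hZ3 hst)
      · obtain ⟨X, h3, h4, h5, -⟩ := pGlW K V ψ hC.anti hC.nd C N st ε hS r u v hU a Z hra hst hZ1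
        exact ⟨X, h3, h4, h5⟩
    obtain ⟨z, hz, hzc, -, -, s, hs⟩ := hLef X hX1 hX2
    obtain ⟨t, ht⟩ := hS.one a z hz
    refine ⟨_, hs, s - t, ?_⟩
    have h6 : ε a * z = t • ε a := by
      rw [← ht, mul_assoc, hzc _ (hS.mem a), ← mul_assoc, hS.idem]
    rw [mul_add, mul_sub, hX3, h6, mul_smul_comm, mul_one, sub_smul]
    abel
  have hder : der (sb ψ (ε a) (st a = a)) ≤ L.map (LinearMap.mulLeft K (ε a)) := by
    refine Submodule.span_le.2 ?_
    rintro _ ⟨Y₁, hY₁, Y₂, hY₂, rfl⟩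
    obtain ⟨A₁, hA₁, t₁, h1⟩ := step Y₁ hY₁
    obtain ⟨A₂, hA₂, t₂, h2⟩ := step Y₂ hY₂
    have f1 : ε a * Y₁ = Y₁ := by rw [← hY₁.1, ← mul_assoc, ← mul_assoc, hS.idem]
    have f2 : Y₁ * ε a = Y₁ := by rw [← hY₁.1, mul_assoc, hS.idem]
    have f3 : ε a * Y₂ = Y₂ := by rw [← hY₂.1, ← mul_assoc, ← mul_assoc, hS.idem]
    have f4 : Y₂ * ε a = Y₂ := by rw [← hY₂.1, mul_assoc, hS.idem]
    refine ⟨A₁ * A₂ - A₂ * A₁, hC.lie A₁ hA₁ A₂ hA₂, ?_⟩
    change ε a * (A₁ * A₂ - A₂ * A₁) = Y₁ * Y₂ - Y₂ * Y₁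
    have e1 : ε a * (A₁ * A₂) = (ε a * A₁) * (ε a * A₂) := by
      rw [hcomA A₁ hA₁, mul_assoc, ← mul_assoc (ε a) (ε a), hS.idem, ← mul_assoc, hcomA A₁ hA₁,
        mul_assoc, hcomA A₂ hA₂]
    have e2 : ε a * (A₂ * A₁) = (ε a * A₂) * (ε a * A₁) := by
      rw [hcomA A₂ hA₂, mul_assoc, ← mul_assoc (ε a) (ε a), hS.idem, ← mul_assoc, hcomA A₂ hA₂,
        mul_assoc, hcomA A₁ hA₁]
    rw [mul_sub, e1, e2, h1, h2]
    simp only [add_mul, mul_add, smul_mul_assoc, mul_smul_comm, f1, f2, f3, f4, hS.idem, smul_add]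
    rw [smul_comm t₂ t₁]
    abel
  exact hder (perf K V ψ (ε a) (st a = a) hBlk hY)

/-- **If `L` contains the Lefschetz Lie algebra up to the center, then it is as large as possible on the
constituents.** -/
theorem BigA_mod {K V : Type} [Field K] [IsAlgClosed K] [CharZero K] [AddCommGroup V]
    [Module K V] [FiniteDimensional K V] {ψ : LinearMap.BilinForm K V}
    {L : Submodule K (Module.End K V)} {C : Subalgebra K (Module.End K V)} (hC : Cc ψ L C)
    (hLef : LefAll ψ L C) {N : ℕ} {st : Fin N → Fin N} {ε : Fin N → Module.End K V}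
    (hS : Sys ψ C N st ε) {r : Fin N → Fin N} {u v : Fin N → Module.End K V}
    (hU : UV ψ C N st ε r u v) {W : Submodule K V} (hW : IrrMod L W) : BigMod ψ L W := by
  intro Y htr hβ
  obtain ⟨a, hra, w, hwC, d, hdC, hwd, haw, hda, hdW, hdw⟩ :=
    pRedW pIrrE K V ψ L C hC N st ε hS r u v hU W hW
  have hrk : finrank K W = rk (ε a) := NtA_rank (hS.idem a) hwd haw hdW hdw
  have hpos : finrank K W ≠ 0 := by
    intro h
    exact hW.1 (Submodule.finrank_eq_zero.1 h)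
  by_cases h1 : finrank K W = 1
  · refine ⟨0, L.zero_mem, fun x => ?_⟩
    obtain ⟨b, hb⟩ := finrank_eq_one_iff'.1 h1
    obtain ⟨c, hc⟩ := hb.2 (Y b)
    have hYc : Y = c • (1 : Module.End K W) := by
      refine LinearMap.ext fun z => ?_
      obtain ⟨t, rfl⟩ := hb.2 z
      rw [map_smul, ← hc, LinearMap.smul_apply, Module.End.one_apply, smul_comm]
    rw [hYc, map_smul, LinearMap.trace_one, h1, Nat.cast_one, smul_eq_mul, mul_one] at htr
    rw [hYc, htr]
    simp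
  have h2 : 2 ≤ rk (ε a) := by omega
  -- the operator on the block
  let d' : V →ₗ[K] W := d.codRestrict W hdW
  let Y₁ : Module.End K V := w ∘ₗ W.subtype ∘ₗ Y ∘ₗ d'
  have hY₁ : ∀ y, Y₁ y = w (Y (d' y)) := fun y => rfl
  have hd' : ∀ y, ((d' y : W) : V) = d y := fun y => rfl
  have hd'w : ∀ x : W, d' (w x) = x := fun x => Subtype.ext (hdw x x.2)
  have hd'ε : ∀ y, d' (ε a y) = d' y := fun y => Subtype.ext (LinearMap.congr_fun hda y)
  have hsb : Y₁ ∈ sb ψ (ε a) (st a = a) := by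
    refine ⟨?_, ?_, ?_⟩
    · refine LinearMap.ext fun y => ?_
      change ε a (w (Y (d' (ε a y)))) = w (Y (d' y))
      rw [hd'ε, ← Module.End.mul_apply, haw]
    · unfold tr
      have h3 : Y₁ = (w ∘ₗ W.subtype) ∘ₗ (Y ∘ₗ d') := rfl
      have h4 : (Y ∘ₗ d') ∘ₗ (w ∘ₗ W.subtype) = Y := by
        refine LinearMap.ext fun x => ?_
        change Y (d' (w x)) = Y x
        rw [hd'w]
      rw [h3, LinearMap.trace_comp_comm', h4]
      exact htr
    · intro hst x y
      have h3 := hβ (ψ.compl₁₂ w w) (by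
        intro X hX m hm x _ y _
        rw [LinearMap.compl₁₂_apply, LinearMap.compl₁₂_apply, LinearMap.compl₁₂_apply]
        have h1 : w (X x) = X (w x) := LinearMap.congr_fun (hC.com X hX w hwC) x
        have h2 : w (X y) = X (w y) := LinearMap.congr_fun (hC.com X hX w hwC) y
        rw [h1, h2, hm]) (d' x) (d' y)
      rw [LinearMap.compl₁₂_apply, LinearMap.compl₁₂_apply, hd', hd'] at h3
      have h4 : ∀ y, w (d y) = ε a y := fun y => LinearMap.congr_fun hwd y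
      have h5 : ∀ z, ψ (Y₁ z) y = ψ (Y₁ z) (ε a y) := by
        intro z
        have h6 : ε a (Y₁ z) = Y₁ z := by
          rw [hY₁, ← Module.End.mul_apply, haw]
        conv_lhs => rw [← h6]
        rw [hS.adj, hst]
      have h7 : ∀ z, ψ x (Y₁ z) = ψ (ε a x) (Y₁ z) := by
        intro z
        have h6 : ε a (Y₁ z) = Y₁ z := by
          rw [hY₁, ← Module.End.mul_apply, haw]
        conv_lhs => rw [← h6]
        rw [hS.adj, hst]
      rw [h4, h4] at h3
      rw [h5, h7]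
      exact eq_neg_of_add_eq_zero_left h3
  obtain ⟨A, hA, hA1⟩ := BigA_block hC hLef hS hU hra h2 hsb
  refine ⟨A, hA, fun x => ?_⟩
  have h3 : w (A x) = w (Y x) := by
    have h4 : w (A x) = A (w x) := LinearMap.congr_fun (hC.com A hA w hwC) x
    have h5 : A (w x) = ε a (A (w x)) := by
      rw [← h4, ← Module.End.mul_apply (ε a) w, haw]
    have h6 := LinearMap.congr_fun hA1 (w x)
    rw [Module.End.mul_apply] at h6
    rw [h4, h5, h6, hY₁, hd'w]
  have h7 := congrArg d h3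
  rwa [hdw _ (hW.2.1 A hA x x.2), hdw _ (Y x).2] at h7

section

variable (l : ℕ) [Fact l.Prime] {Γ : Type} [Group Γ]
    [TopologicalSpace Γ] [IsTopologicalGroup Γ] [CompactSpace Γ] {V : Type} [AddCommGroup V]
    [Module ℚ_[l] V] [FiniteDimensional ℚ_[l] V] (ρ : H1Rep Γ ℚ_[l] V)

/-- The Lie algebra is as large as possible on the constituents if there are no exotic classes. -/
theorem bigMod_of_lef_of (hss : Semisimple ρ) (K : Type) [Field K]
    [Algebra ℚ_[l] K] [IsAlgClosed K] (h3 : HasSysK l ρ K) (h : LefCond ρ 4 2) (W : Submodule K (K ⊗[ℚ_[l]] V))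
    (hW : IrrMod (LieK l ρ K) W) : BigMod (ρ.form.baseChange K) (LieK l ρ K) W := by
  classical
  obtain ⟨R, h1, h2, h3'⟩ := exists_coord ρ (Module.finBasis ℚ_[l] V)
  have hsemi := coord_semi ρ _ R h1 hss
  obtain ⟨U, hU⟩ := exists_U0 ρ
  have hCK : CharZero K := charZero_of_injective_algebraMap (algebraMap ℚ_[l] K).injective
  have hC := pCcL l Γ V ρ hss U hU K
  obtain ⟨N, st, ε, hS⟩ := h3 U hU
  have hreg := reg_L K (res ρ U).T (semi_res ρ U hss)
  have hadjC := adjC_L K (res ρ U).T ρ.form ρ.form_alt ρ.form_nondeg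
    (fun γ => ((res ρ U).χ γ)⁻¹) (fun γ => (res ρ U).form_equivariant γ)
  obtain ⟨r, u, v, hUV⟩ := exists_uv hC.alt hC.nd hS hreg hadjC
  refine BigA_mod hC ?_ hS hUV hW
  refine pNtK l Γ V ρ U hU K _ (Module.finBasis ℚ_[l] V) R h1 h3' fun X hX => ?_
  exact mem_of_four l ρ _ R h1 h2 h3' hsemi X hX.2 fun x hx hz => h x hx hz X hX

theorem bigMod_of_lef (hss : Semisimple ρ) (h3 : NoTypeIII ρ) (K : Type) [Field K]
    [Algebra ℚ_[l] K] [IsAlgClosed K] (h : LefCond ρ 4 2) (W : Submodule K (K ⊗[ℚ_[l]] V))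
    (hW : IrrMod (LieK l ρ K) W) : BigMod (ρ.form.baseChange K) (LieK l ρ K) W :=
  bigMod_of_lef_of l ρ hss K (hasSysK_of_noTypeIII l ρ h3 K) h W hW

/-- **Main theorem.** -/
theorem tfae_big (hss : Semisimple ρ) (h3 : NoTypeIII ρ) (K : Type) [Field K]
    [Algebra ℚ_[l] K] [IsAlgClosed K] :
    List.TFAE [NoExotic ρ,
      (∀ W, IrrMod (LieK l ρ K) W → BigMod (ρ.form.baseChange K) (LieK l ρ K) W) ∧
        NoTwist (ρ.form.baseChange K) (LieK l ρ K) ∧ ¬ WeilRel ρ,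
      ConstH (ρ.form.baseChange K) (LieK l ρ K) ∧
        NoTwist (ρ.form.baseChange K) (LieK l ρ K) ∧ ¬ WeilRel ρ] := by
  tfae_have 1 → 2 := by
    intro h
    have hlg : NoExotic ρ ↔ DivCond ρ 4 2 ∧ ¬ WeilRel ρ :=
      (local_global l ρ hss h3).out 0 1 rfl rfl
    obtain ⟨h1, h2⟩ := hlg.1 h
    exact ⟨bigMod_of_lef l ρ hss h3 K (lef_of_div l ρ h1),
      noTwist_of_lef l ρ pCcL pNtK ntA hss h3 K (lef_of_div l ρ h1), h2⟩
  tfae_have 2 → 3 := fun h => ⟨fun W hW => Or.inl (h.1 W hW), h.2⟩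
  tfae_have 3 → 1 := fun h => (noExotic_iff_of_constH l ρ hss h3 K h.1).2 h.2
  tfae_finish

end

end Pool.Agent.Lib.MP_640417_ag.Tg
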