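import Pool.Agent.Lib.MP_640417_ag.Tg.SpecW
import Pool.Agent.Lib.MP_640417_ag.Tor.Block
import Pool.Agent.Lib.MP_640417_ag.Tor.Adj
import Pool.Agent.Lib.MP_640417_ag.Tor.GouC
import Pool.Agent.Lib.MP_640417_ag.Tor.PrimTr

/-!
# The block theorem for `L`, more general condition
-/

namespace Pool.Agent.Lib.MP_640417_ag.Tg

open Module Pool.Agent.Lib.MP_640417_ag Pool.Agent.Lib.MP_640417_ag.Tor

/-- The block theorem. -/
theorem pBlkW (hPMB : SPMBW) (hIdem : SIdem) : SBlkW := by
  intro K V _ _ _ _ _ _ ψ alt anti nd L hlie hmult p hpp hp0 hadj hcom hirr A a hA hNN htor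
  have hNg : A - a • (1 : Module.End K V) ∈ skp ψ L := by
    obtain ⟨s, hs⟩ := Block_split hmult hA
    have hcA : ∀ c : K, p * (A - c • (1 : Module.End K V)) = (A - c • (1 : Module.End K V)) * p := by
      intro c
      rw [mul_sub, sub_mul, hcom A hA, mul_smul_comm, smul_mul_assoc, mul_one, one_mul]
    have h1 : tr (p * (A - s • (1 : Module.End K V))) = 0 :=
      tr_skew ψ nd (GouC_skew hadj (hcA s) hs.1)
    have h2 : tr (p * (A - a • (1 : Module.End K V))) = 0 := by
      apply tr_sq
      refine LinearMap.ext fun x => ?_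
      have h3 : p ((A - a • (1 : Module.End K V)) x) = (A - a • (1 : Module.End K V)) (p x) :=
        LinearMap.congr_fun (hcA a) x
      show p ((A - a • (1 : Module.End K V)) (p ((A - a • (1 : Module.End K V)) x))) = 0
      rw [h3, hNN (p x) ⟨x, rfl⟩, map_zero]
    have h3 : p * (A - s • (1 : Module.End K V)) =
        p * (A - a • (1 : Module.End K V)) + (a - s) • p := by
      rw [mul_sub, mul_sub, mul_smul_comm, mul_smul_comm, mul_one, sub_smul]
      abel
    have h4 : (a - s) * tr p = 0 := by
      have h5 : tr (p * (A - s • (1 : Module.End K V))) =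
          tr (p * (A - a • (1 : Module.End K V))) + (a - s) * tr p := by
        rw [h3]
        unfold tr
        rw [map_add, map_smul, smul_eq_mul]
      rw [h1, h2, zero_add] at h5
      exact h5.symm
    have h6 : tr p ≠ 0 := by
      rw [tr_idem hpp]
      intro h
      have h7 : rk p = 0 := by exact_mod_cast h
      unfold rk at h7
      rw [Submodule.finrank_eq_zero, LinearMap.range_eq_bot] at h7
      exact hp0 h7
    have h8 : a = s := by
      rcases mul_eq_zero.mp h4 with h | h
      · exact sub_eq_zero.mp h
      · exact absurd h h6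
    rw [h8]
    exact hs
  have hsq : ∀ t ∈ L, t * t = t → t ≠ 0 → t ≠ 1 →
      t - (1 / 2 : K) • (1 : Module.End K V) ∈ skp ψ L ∧
      (t - (1 / 2 : K) • (1 : Module.End K V)) * (t - (1 / 2 : K) • (1 : Module.End K V)) =
        (1 / 4 : K) • (1 : Module.End K V) := by
    intro t ht htt ht0 ht1
    obtain ⟨c, hc⟩ := hmult t ht
    refine ⟨⟨hIdem K V ψ anti nd t c htt ht0 ht1 hc, 1 / 2, by rw [sub_add_cancel]; exact ht⟩, ?_⟩
    simp only [sub_mul, mul_sub, smul_mul_assoc, mul_smul_comm, one_mul, mul_one, htt]
    module
  refine hPMB K V ψ alt nd (skp ψ L) (Block_lie hlie) (fun X hX => hX.1) p hpp hp0 hadj ?_ ?_ _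
    hNg hNN ?_
  · rintro X ⟨-, s, hs⟩
    have h1 := hcom _ hs
    rw [mul_add, add_mul, mul_smul_comm, smul_mul_assoc, mul_one, one_mul] at h1
    exact add_right_cancel h1
  · intro W' hW' hst
    exact hirr.2.2 W' hW' (Block_stable hmult hst)
  · rcases htor with h | ⟨h, t, ht, htt, ht0, ht1⟩ | ⟨h, hgen⟩
    · exact Or.inl h
    · obtain ⟨h1, h2⟩ := hsq t ht htt ht0 ht1
      exact Or.inr (Or.inl ⟨h, _, h1, h2⟩)
    · refine Or.inr (Or.inr ⟨h, fun a ha hroot => le_antisymm ha.le fun X hX => ?_⟩)
      let b : Submodule K (Module.End K V) :=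
        { carrier := {A | A ∈ L ∧ ∃ s : K, A - s • (1 : Module.End K V) ∈ a}
          add_mem' := by
            rintro A B ⟨h1, s, hs⟩ ⟨h2, t, ht⟩
            refine ⟨add_mem h1 h2, s + t, ?_⟩
            have h3 : A + B - (s + t) • (1 : Module.End K V) =
                (A - s • (1 : Module.End K V)) + (B - t • (1 : Module.End K V)) := by
              rw [add_smul]
              abel
            rw [h3]
            exact add_mem hs ht
          zero_mem' := ⟨zero_mem _, 0, by rw [zero_smul, sub_zero]; exact zero_mem _⟩
          smul_mem' := by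
            rintro c A ⟨h1, s, hs⟩
            refine ⟨Submodule.smul_mem _ _ h1, c * s, ?_⟩
            rw [mul_smul, ← smul_sub]
            exact Submodule.smul_mem _ _ hs }
      have hb : b = L := by
        refine hgen b (fun A hA => hA.1) ?_ ?_
        · rintro A hA B ⟨hB, s, hs⟩
          obtain ⟨r, hr⟩ := Block_split hmult hA
          refine ⟨hlie A hA B hB, 0, ?_⟩
          have h1 := ha.lie _ hr _ hs
          have h2 : (A - r • (1 : Module.End K V)) * (B - s • (1 : Module.End K V)) -
              (B - s • (1 : Module.End K V)) * (A - r • (1 : Module.End K V)) =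
              A * B - B * A := by
            simp only [sub_mul, mul_sub, smul_mul_assoc, mul_smul_comm, one_mul, mul_one]
            module
          rwa [h2, ← sub_zero (A * B - B * A), ← zero_smul K (1 : Module.End K V)] at h1
        · intro t ht htt
          refine ⟨ht, ?_⟩
          by_cases ht0 : t = 0
          · exact ⟨0, by rw [ht0, zero_smul, sub_zero]; exact zero_mem _⟩
          by_cases ht1 : t = 1
          · exact ⟨1, by rw [ht1, one_smul, sub_self]; exact zero_mem _⟩
          obtain ⟨h1, h2⟩ := hsq t ht htt ht0 ht1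
          exact ⟨1 / 2, hroot _ h1 h2⟩
      obtain ⟨hXs, s, hs⟩ := hX
      have h1 : X + s • (1 : Module.End K V) ∈ b := by rw [hb]; exact hs
      obtain ⟨-, s', hs'⟩ := h1
      have h2 : X + s • (1 : Module.End K V) - s' • (1 : Module.End K V) =
          X + (s - s') • (1 : Module.End K V) := by
        rw [sub_smul]
        abel
      rw [h2] at hs'
      have h3 : s - s' = 0 := by
        by_contra hne
        obtain ⟨x, hx⟩ : ∃ x, p x ≠ 0 := by
          by_contra h
          push Not at h
          exact hp0 (LinearMap.ext h)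
        apply hx
        apply nd
        intro y
        have h4 := (ha.le hs').1 (p x) y
        rw [LinearMap.add_apply, LinearMap.add_apply, LinearMap.smul_apply, LinearMap.smul_apply,
          Module.End.one_apply, Module.End.one_apply, map_add, map_add, LinearMap.add_apply,
          map_smul, map_smul, LinearMap.smul_apply, smul_eq_mul, hXs (p x) y] at h4
        have h5 : (2 * (s - s')) * ψ (p x) y = 0 := by linear_combination h4
        exact (mul_eq_zero.mp h5).resolve_left (mul_ne_zero two_ne_zero hne)
      rw [h3, zero_smul, add_zero] at hs'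
      exact hs'

end Pool.Agent.Lib.MP_640417_ag.Tg
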