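import Pool.Agent.Lib.MP_640417_ag.Tg.SpecR
import Pool.Agent.Lib.MP_640417_ag.Tor.LKm
import Pool.Agent.Lib.MP_640417_ag.Tor.CoordT
import Pool.Agent.Lib.MP_640417_ag.Tor.Dens
import Pool.Agent.Lib.MP_640417_ag.Lef.RegL
import Pool.Agent.Lib.MP_640417_ag.Glob.Coord

/-!
# Toric places, no factors of type III: the Lie algebra of the image over `K` and the commutant
-/

set_option autoImplicit false

namespace Pool.Agent.Lib.MP_640417_ag.Tg

open Module TensorProduct Pool.Agent.Lib.MP_640417_ag Pool.Agent.Lib.MP_640417_ag.Tor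
  Pool.Agent.Lib.MP_640417_ag.Lef Pool.Agent.Lib.MP_640417_ag.Frob
  Pool.Agent.Lib.MP_640417_ag.Glob Pool.Agent.Lib.MP_640417_ag.Ty
  Pool.Agent.Lib.MP_640417_ag.Ctl

open Pool.Agent.Lib.MP_640417_ag.Four (Semisimple)

section

variable {l : ℕ} [Fact l.Prime] {Γ : Type} [Group Γ] [TopologicalSpace Γ] {V : Type}
  [AddCommGroup V] [Module ℚ_[l] V] [FiniteDimensional ℚ_[l] V] (ρ : H1Rep Γ ℚ_[l] V)
  {K : Type} [Field K] [Algebra ℚ_[l] K]

omit [FiniteDimensional ℚ_[l] V] in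
/-- base change is multiplicative -/
private theorem CcL_bc_mul (a b : Module.End ℚ_[l] V) :
    (a * b).baseChange K = a.baseChange K * b.baseChange K := LinearMap.baseChange_comp b a

omit [FiniteDimensional ℚ_[l] V] in
private theorem CcL_mem (U : OpenSubgroup Γ) {c : Module.End K (K ⊗[ℚ_[l]] V)} :
    c ∈ cenK K (res ρ U).T ↔ ∀ γ ∈ U, (ρ.T γ).baseChange K * c = c * (ρ.T γ).baseChange K := by
  rw [cenK, Subalgebra.mem_centralizer_iff]
  constructor
  · intro h γ hγ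
    exact h _ ⟨⟨γ, hγ⟩, rfl⟩
  · rintro h _ ⟨γ, rfl⟩
    exact h γ.1 γ.2

/-- an operator over `K` which commutes with an open subgroup is a combination of elements of the commutant -/
theorem CcL_comb (U' : OpenSubgroup Γ) {c : Module.End K (K ⊗[ℚ_[l]] V)}
    (hc : ∀ γ ∈ U', c * (ρ.T γ).baseChange K = (ρ.T γ).baseChange K * c)
    {P : Module.End K (K ⊗[ℚ_[l]] V) → Prop} (h0 : P 0) (hadd : ∀ a b, P a → P b → P (a + b))
    (hsm : ∀ (k : K) a, P a → P (k • a)) (hcm : ∀ c₀, CommF ρ c₀ → P (c₀.baseChange K)) : P c := by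
  classical
  let b := Module.Free.chooseBasis ℚ_[l] K
  obtain ⟨τ, hτ⟩ := Four.sum_cp b c
  have h1 : ∀ t, P (b t • (Four.cp (b.coord t) c).baseChange K) := by
    intro t
    refine hsm _ _ (hcm _ ⟨U', fun γ hγ => ?_⟩)
    rw [← Four.cp_mul_baseChange, ← Four.cp_baseChange_mul, hc γ hγ]
  rw [hτ]
  induction τ using Finset.induction_on with
  | empty => rw [Finset.sum_empty]; exact h0
  | insert a s ha ih =>
    clear ih
    have h2 : ∀ s : Finset _, P (∑ t ∈ s, b t • (Four.cp (b.coord t) c).baseChange K) := by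
      intro s
      induction s using Finset.induction_on with
      | empty => rw [Finset.sum_empty]; exact h0
      | insert a s ha ih => rw [Finset.sum_insert ha]; exact hadd _ _ (h1 a) ih
    exact h2 _

/-- an operator over `K` which commutes with some open subgroup commutes with `U` -/
theorem CcL_open (U : OpenSubgroup Γ)
    (hU : ∀ γ, γ ∈ U ↔ ∀ c, CommF ρ c → c * ρ.T γ = ρ.T γ * c) (U' : OpenSubgroup Γ)
    {c : Module.End K (K ⊗[ℚ_[l]] V)}
    (hc : ∀ γ ∈ U', c * (ρ.T γ).baseChange K = (ρ.T γ).baseChange K * c) :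
    c ∈ cenK K (res ρ U).T := by
  refine CcL_comb ρ U' hc (P := fun c => c ∈ cenK K (res ρ U).T) (zero_mem _)
    (fun a b ha hb => add_mem ha hb) (fun k a ha => Subalgebra.smul_mem _ ha k) ?_
  intro c₀ hc₀
  rw [CcL_mem]
  intro γ hγ
  rw [← CcL_bc_mul, ← CcL_bc_mul, (hU γ).1 hγ c₀ hc₀]

end

section

variable {l : ℕ} [Fact l.Prime] {Γ : Type} [Group Γ] [TopologicalSpace Γ] {V : Type}
  [AddCommGroup V] [Module ℚ_[l] V] [FiniteDimensional ℚ_[l] V] {ρ : H1Rep Γ ℚ_[l] V}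
  {K : Type} [Field K] [Algebra ℚ_[l] K] {I : Type} [Fintype I] [DecidableEq I]
  {e : Basis I ℚ_[l] V} {R : MRep Γ ℚ_[l] I}

/-- the Lie algebra in coordinates -/
theorem CcL_L (hR : ∀ γ, R.M γ = LinearMap.toMatrix e e (ρ.T γ)) {X : Module.End K (K ⊗[ℚ_[l]] V)} :
    X ∈ LieK l ρ K ↔ (Algebra.TensorProduct.basis K e).equivFun.conj X ∈ LKm R l K := by
  rw [LKm, ← CoordT_lieK hR K, CoordT_mem_L]

/-- every operator in coordinates is the image of an operator of the Lie algebra -/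
theorem CcL_L' (hR : ∀ γ, R.M γ = LinearMap.toMatrix e e (ρ.T γ)) {X : Module.End K (I → K)}
    (hX : X ∈ LKm R l K) : ∃ Y ∈ LieK l ρ K, (Algebra.TensorProduct.basis K e).equivFun.conj Y = X := by
  rw [LKm, ← CoordT_lieK hR K] at hX
  obtain ⟨Y, hY, rfl⟩ := hX
  exact ⟨Y, hY, rfl⟩

omit [FiniteDimensional ℚ_[l] V] in
/-- the form in coordinates -/
theorem CcL_form (h3 : ∀ i j, R.J i j = ρ.form (e i) (e j)) (x y : K ⊗[ℚ_[l]] V) :
    Matrix.toBilin' (R.J.map (algebraMap ℚ_[l] K)) ((Algebra.TensorProduct.basis K e).equivFun x)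
      ((Algebra.TensorProduct.basis K e).equivFun y) = ρ.form.baseChange K x y := by
  set b := Algebra.TensorProduct.basis K e with hb
  have h1 : (LinearMap.BilinForm.congr b.equivFun.symm
      (Matrix.toBilin' (R.J.map (algebraMap ℚ_[l] K)))) = ρ.form.baseChange K := by
    apply LinearMap.BilinForm.ext_basis b
    intro i j
    rw [LinearMap.BilinForm.congr_apply]
    simp only [LinearEquiv.symm_symm]
    have h4 : ∀ i, b.equivFun (b i) = Pi.single i 1 := by
      intro i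
      ext k
      rw [Basis.equivFun_self, Pi.single_apply]
      exact if_congr eq_comm rfl rfl
    rw [h4, h4, Matrix.toBilin'_single, Matrix.map_apply, hb, Algebra.TensorProduct.basis_apply,
      Algebra.TensorProduct.basis_apply, LinearMap.BilinForm.baseChange_tmul, mul_one,
      Algebra.smul_def, mul_one, ← h3]
  rw [← h1, LinearMap.BilinForm.congr_apply]
  simp only [LinearEquiv.symm_symm]

omit [FiniteDimensional ℚ_[l] V] in
/-- the commutant in coordinates -/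
theorem CcL_inC (hR : ∀ γ, R.M γ = LinearMap.toMatrix e e (ρ.T γ)) {c : Module.End ℚ_[l] V}
    (hc : CommF ρ c) : R.InC (LinearMap.toMatrix e e c) := by
  obtain ⟨U, hU⟩ := hc
  refine ⟨U, fun γ hγ => ?_⟩
  rw [hR, ← LinearMap.toMatrix_mul, ← LinearMap.toMatrix_mul, hU γ hγ]

end

theorem pCcL : SCcL := by
  intro l _ Γ _ _ _ _ V _ _ _ ρ hss U hU K _ _
  have hl : ‖(l : ℚ_[l])‖ < 1 := Padic.norm_p_lt_one
  have hl0 : (l : ℚ_[l]) ≠ 0 := Nat.cast_ne_zero.2 (Fact.out : l.Prime).ne_zero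
  let e := Module.finBasis ℚ_[l] V
  obtain ⟨R, h1, -, h3⟩ := exists_coord ρ e
  have hsemi : R.Semi := coord_semi ρ e R h1 hss
  set φ := (Algebra.TensorProduct.basis K e).equivFun with hφ
  have hLm : ∀ X, X ∈ LieK l ρ K ↔ φ.conj X ∈ LKm R l K := fun X => CcL_L h1
  have hform : ∀ x y, Matrix.toBilin' (R.J.map (algebraMap ℚ_[l] K)) (φ x) (φ y) =
      ρ.form.baseChange K x y := fun x y => CcL_form h3 x y
  have hT : ∀ γ, φ.conj ((ρ.T γ).baseChange K) = opK K (R.M γ) := by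
    intro γ
    rw [h1, ← CoordT_conj_base]
  obtain ⟨U', hU'⟩ := LKm_open R l hl hl0 pDens hsemi
  have halt : ∀ x, ρ.form.baseChange K x x = 0 := alt_baseChange K ρ.form ρ.form_alt
  refine ⟨halt, Four.anti halt, nondeg_baseChange K ρ.form ρ.form_alt ρ.form_nondeg, ?_, ?_, ?_, ?_,
    ?_⟩
  · intro X hX Y hY
    rw [hLm] at hX hY ⊢
    have h4 : φ.conj (X * Y - Y * X) = φ.conj (X * Y) - φ.conj (Y * X) := map_sub φ.conj _ _
    rw [h4, CoordT_conj_mul, CoordT_conj_mul]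
    exact LKm_lie R l K hl hl0 _ hX _ hY
  · intro X hX
    rw [hLm] at hX
    obtain ⟨c, hc⟩ := LKm_mult R l K hl hl0 _ hX
    refine ⟨c, fun x y => ?_⟩
    have h4 := hc (φ x) (φ y)
    rwa [CoordT_conj_app, CoordT_conj_app, hform, hform, hform] at h4
  · intro X hX c hc
    rw [CcL_mem] at hc
    refine CcL_comb ρ U (fun γ hγ => (hc γ hγ).symm) (P := fun c => c * X = X * c) (by simp)
      (fun a b ha hb => by rw [add_mul, mul_add, ha, hb])
      (fun k a ha => by rw [smul_mul_assoc, mul_smul_comm, ha]) ?_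
    intro c₀ hc₀
    rw [hLm] at hX
    have h4 := LKm_comm R l K hl hl0 (CcL_inC h1 hc₀) _ hX
    apply φ.conj.injective
    rw [CoordT_conj_mul, CoordT_conj_mul, CoordT_conj_base]
    exact h4
  · intro c hc
    refine CcL_open ρ U hU U' fun γ hγ => ?_
    have h4 : ∀ X ∈ LKm R l K, φ.conj c * X = X * φ.conj c := by
      intro X hX
      obtain ⟨Y, hY, rfl⟩ := CcL_L' h1 hX
      rw [← CoordT_conj_mul, ← CoordT_conj_mul, hc Y hY]
    have h5 := LKm_commA R l K h4 _ (hU' γ hγ)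
    rw [← hT] at h5
    apply φ.conj.injective
    rw [CoordT_conj_mul, CoordT_conj_mul]
    exact h5
  · intro N hN
    have h4 : ∀ X ∈ LKm R l K, ∀ y ∈ N.map φ.toLinearMap, X y ∈ N.map φ.toLinearMap := by
      intro X hX
      obtain ⟨Y, hY, rfl⟩ := CcL_L' h1 hX
      rintro _ ⟨y, hy, rfl⟩
      exact ⟨Y y, hN Y hY y hy, (CoordT_conj_app φ Y y).symm⟩
    have h5 : ∀ γ ∈ U', ∀ y ∈ N, (ρ.T γ).baseChange K y ∈ N := by
      intro γ hγ y hy
      obtain ⟨z, hz, hzy⟩ := LKm_stab R l K h4 _ (hU' γ hγ) (φ y) ⟨y, hy, rfl⟩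
      rw [← hT, CoordT_conj_app] at hzy
      rw [← φ.injective hzy]
      exact hz
    obtain ⟨q, hq, hq1, hq2⟩ := proj_L K (res ρ U').T (semi_res ρ U' hss) N (fun γ => h5 γ.1 γ.2)
    refine ⟨q, CcL_open ρ U hU U' fun γ hγ => ?_, hq1, hq2⟩
    exact ((CcL_mem ρ U').1 hq γ hγ).symm

end Pool.Agent.Lib.MP_640417_ag.Tg
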