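import Pool.Agent.Lib.MP_640417_ag.Tg.SpecA

/-!
# Classification of the irreducible Lie algebras with an operator of rank one
-/

namespace Pool.Agent.Lib.MP_640417_ag.Tg

open Module Pool.Agent.Lib.MP_640417_ag.Tor

theorem pCls (hRad : SRad) (hJm : SJm) (hFrame : SFrame) (hA : SClsA) (hB : SClsB) : SCls := by
  intro K U _ _ _ _ _ _ g hl hi e he hee hr
  have hnt : Nontrivial U := by
    by_contra hcon
    rw [not_nontrivial_iff_subsingleton] at hcon
    unfold rk at hr
    rw [finrank_zero_of_subsingleton] at hr
    exact absurd hr (by norm_num)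
  obtain ⟨f, hs⟩ := hJm K U g hl (hRad K U g hl hi) e he hee
  obtain ⟨v, w, φ, χ, hF⟩ := hFrame K U g hl hi e f hs hr
  by_cases hcase : ((∀ u, φ u = 0 → χ u = 0 → u = 0) ∨
      ∃ x ∈ G1 g e f, x ≠ 0 ∧ (x w = 0 ∨ ∀ u, χ (x u) = 0))
  · exact Or.inl (hA K U g e f v w φ χ hF hcase)
  · right
    rw [not_or] at hcase
    obtain ⟨h1, h2⟩ := hcase
    push Not at h1 h2
    obtain ⟨u, hu1, hu2, hu3⟩ := h1
    refine ⟨?_, ?_⟩
    · -- u, v, w are linearly independent
      have hli : LinearIndependent K ![u, v, w] := by
        rw [Fintype.linearIndependent_iff]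
        intro c hc
        rw [Fin.sum_univ_three] at hc
        simp only [Matrix.cons_val_zero, Matrix.cons_val_one, Matrix.cons_val_two,
          Matrix.head_cons, Matrix.tail_cons, Matrix.cons_val] at hc
        have e1 := congrArg φ hc
        have e2 := congrArg χ hc
        rw [map_add, map_add, map_smul, map_smul, map_smul, map_zero, hu1, hF.fv, hF.fw] at e1
        rw [map_add, map_add, map_smul, map_smul, map_smul, map_zero, hu2, hF.cv, hF.cw] at e2
        simp only [smul_eq_mul, mul_zero, mul_one, zero_add, add_zero] at e1 e2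
        rw [e1, e2, zero_smul, zero_smul, add_zero, add_zero, smul_eq_zero] at hc
        have e0 : c 0 = 0 := hc.resolve_right hu3
        intro i
        fin_cases i
        · exact e0
        · exact e2
        · exact e1
      have := hli.fintype_card_le_finrank
      simpa using this
    · refine hB K U g e f v w φ χ hF ?_ ?_
      · intro x hx hxw
        by_contra hne
        exact (h2 x hx hne).1 hxw
      · intro x hx hxu
        by_contra hne
        obtain ⟨u', hu'⟩ := (h2 x hx hne).2
        exact hu' (hxu u')

end Pool.Agent.Lib.MP_640417_ag.Tg
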