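import Pool.Agent.Lib.MP_640417_ag.Tg.SpecA

/-!
# Irreducible Lie algebras with an operator of rank one: the special linear case
-/

namespace Pool.Agent.Lib.MP_640417_ag.Tg

open Module Pool.Agent.Lib.MP_640417_ag.Tor

section ClsA

variable {K U : Type} [Field K] [AddCommGroup U] [Module K U]
  {g : Submodule K (Module.End K U)} {e f : Module.End K U} {v w : U} {φ χ : Module.Dual K U}

/-- Decomposition of vectors. -/
lemma ClsA_zeta (h : Fr g e f v w φ χ) (u : U) :
    ∃ z, φ z = 0 ∧ χ z = 0 ∧ u = χ u • v + φ u • w + z := by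
  refine ⟨u - χ u • v - φ u • w, ?_, ?_, by abel⟩
  · rw [map_sub, map_sub, map_smul, map_smul, h.fv, h.fw, smul_zero, sub_zero, smul_eq_mul, mul_one,
      sub_self]
  · rw [map_sub, map_sub, map_smul, map_smul, h.cv, h.cw, smul_zero, sub_zero, smul_eq_mul, mul_one,
      sub_self]

/-- Decomposition of functionals. -/
lemma ClsA_dual (h : Fr g e f v w φ χ) (ξ : Module.Dual K U) :
    ∃ α : Module.Dual K U, α v = 0 ∧ α w = 0 ∧ ξ = ξ w • φ + ξ v • χ + α := by
  refine ⟨ξ - ξ w • φ - ξ v • χ, ?_, ?_, by abel⟩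
  · rw [LinearMap.sub_apply, LinearMap.sub_apply, LinearMap.smul_apply, LinearMap.smul_apply, h.fv,
      h.cv, smul_zero, sub_zero, smul_eq_mul, mul_one, sub_self]
  · rw [LinearMap.sub_apply, LinearMap.sub_apply, LinearMap.smul_apply, LinearMap.smul_apply, h.fw,
      h.cw, smul_zero, sub_zero, smul_eq_mul, mul_one, sub_self]

/-- Functionals of elements of degree one are determined on the middle part. -/
lemma ClsA_chi (h : Fr g e f v w φ χ) {x : Module.End K U} (hx : x ∈ G1 g e f)
    (hz : ∀ u, φ u = 0 → χ u = 0 → χ (x u) = 0) (u : U) : χ (x u) = 0 := by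
  obtain ⟨z, hz1, hz2, hz3⟩ := ClsA_zeta h u
  obtain ⟨h1, h2, h3⟩ := h.a0 x hx
  have hxu : x u = φ u • x w + x z := by
    conv_lhs => rw [hz3]
    rw [map_add, map_add, map_smul, map_smul, h3, smul_zero, zero_add]
  rw [hxu, map_add, map_smul, h2, hz z hz1 hz2, smul_zero, add_zero]

lemma ClsA_lie (h : Fr g e f v w φ χ) {X Y : Module.End K U} (hX : X ∈ g) (hY : Y ∈ g) :
    X * Y - Y * X ∈ g := h.lie X hX Y hY

/-- The operators `u ⊗ ξ` minus a multiple of `w ⊗ φ`. -/
def ClsA_P (g : Submodule K (Module.End K U)) (w : U) (φ ξ : Module.Dual K U) (u : U) : Prop :=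
  (ξ.smulRight u : Module.End K U) - ξ u • (φ.smulRight w : Module.End K U) ∈ g

lemma ClsA_P_add {ξ : Module.Dual K U} {u u' : U} (h1 : ClsA_P g w φ ξ u)
    (h2 : ClsA_P g w φ ξ u') : ClsA_P g w φ ξ (u + u') := by
  have h3 := add_mem h1 h2
  have h4 : (ξ.smulRight (u + u') : Module.End K U) - ξ (u + u') • (φ.smulRight w : Module.End K U)
      = ((ξ.smulRight u : Module.End K U) - ξ u • (φ.smulRight w : Module.End K U)) +
        ((ξ.smulRight u' : Module.End K U) - ξ u' • (φ.smulRight w : Module.End K U)) := by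
    ext x
    simp only [LinearMap.sub_apply, LinearMap.add_apply, LinearMap.smulRight_apply,
      LinearMap.smul_apply, map_add, smul_add, add_smul]
    abel
  rw [ClsA_P, h4]
  exact h3

lemma ClsA_P_smul {ξ : Module.Dual K U} {u : U} (c : K) (h1 : ClsA_P g w φ ξ u) :
    ClsA_P g w φ ξ (c • u) := by
  have h4 : (ξ.smulRight (c • u) : Module.End K U) - ξ (c • u) • (φ.smulRight w : Module.End K U)
      = c • ((ξ.smulRight u : Module.End K U) - ξ u • (φ.smulRight w : Module.End K U)) := by
    ext x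
    simp only [LinearMap.sub_apply, LinearMap.smulRight_apply,
      LinearMap.smul_apply, map_smul, smul_sub, smul_smul, smul_eq_mul]
    rw [mul_comm (ξ x) c, mul_assoc]
  rw [ClsA_P, h4]
  exact g.smul_mem c h1

lemma ClsA_P_add' {ξ ξ' : Module.Dual K U} {u : U} (h1 : ClsA_P g w φ ξ u)
    (h2 : ClsA_P g w φ ξ' u) : ClsA_P g w φ (ξ + ξ') u := by
  have h3 := add_mem h1 h2
  have h4 : ((ξ + ξ').smulRight u : Module.End K U) - (ξ + ξ') u • (φ.smulRight w : Module.End K U)
      = ((ξ.smulRight u : Module.End K U) - ξ u • (φ.smulRight w : Module.End K U)) +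
        ((ξ'.smulRight u : Module.End K U) - ξ' u • (φ.smulRight w : Module.End K U)) := by
    ext x
    simp only [LinearMap.sub_apply, LinearMap.add_apply, LinearMap.smulRight_apply,
      LinearMap.smul_apply, add_smul]
    abel
  rw [ClsA_P, h4]
  exact h3

lemma ClsA_P_smul' {ξ : Module.Dual K U} {u : U} (c : K) (h1 : ClsA_P g w φ ξ u) :
    ClsA_P g w φ (c • ξ) u := by
  have h4 : ((c • ξ).smulRight u : Module.End K U) - (c • ξ) u • (φ.smulRight w : Module.End K U)
      = c • ((ξ.smulRight u : Module.End K U) - ξ u • (φ.smulRight w : Module.End K U)) := by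
    ext x
    simp only [LinearMap.sub_apply, LinearMap.smulRight_apply,
      LinearMap.smul_apply, smul_sub, smul_smul, smul_eq_mul]
  rw [ClsA_P, h4]
  exact g.smul_mem c h1

/-- Generation. -/
lemma ClsA_gen [FiniteDimensional K U] (h : Fr g e f v w φ χ)
    (hA : ∀ a, φ a = 0 → χ a = 0 → (φ.smulRight a : Module.End K U) ∈ g)
    (hB : ∀ α : Module.Dual K U, α v = 0 → α w = 0 → (α.smulRight v : Module.End K U) ∈ g)
    (X : Module.End K U) (hX : tr X = 0) : X ∈ g := by
  have he : e = (φ.smulRight v : Module.End K U) := by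
    ext u
    rw [h.e_eq]
    rfl
  have hf : f = (χ.smulRight w : Module.End K U) := by
    ext u
    rw [h.f_eq]
    rfl
  have hC : ∀ a, φ a = 0 → χ a = 0 → (χ.smulRight a : Module.End K U) ∈ g := by
    intro a ha ha'
    have h1 := h.lie _ (hA a ha ha') _ h.sl.mf
    have h2 : (φ.smulRight a : Module.End K U) * f - f * (φ.smulRight a : Module.End K U) =
        (χ.smulRight a : Module.End K U) := by
      ext u
      rw [LinearMap.sub_apply, Module.End.mul_apply, Module.End.mul_apply, h.f_eq,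
        LinearMap.smulRight_apply, LinearMap.smulRight_apply, map_smul, map_smul, h.fw, h.f_eq, ha',
        zero_smul, smul_zero, sub_zero, smul_eq_mul, mul_one]
      rfl
    rwa [h2] at h1
  have hD : ∀ α : Module.Dual K U, α v = 0 → α w = 0 →
      (α.smulRight w : Module.End K U) ∈ g := by
    intro α ha ha'
    have h1 := h.lie _ h.sl.mf _ (hB α ha ha')
    have h2 : f * (α.smulRight v : Module.End K U) - (α.smulRight v : Module.End K U) * f =
        (α.smulRight w : Module.End K U) := by
      ext u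
      rw [LinearMap.sub_apply, Module.End.mul_apply, Module.End.mul_apply,
        LinearMap.smulRight_apply, LinearMap.smulRight_apply, map_smul, h.f_eq, h.f_eq, h.cv,
        map_smul, ha', smul_zero, zero_smul, sub_zero, one_smul]
      rfl
    rwa [h2] at h1
  have hE : ∀ a, φ a = 0 → χ a = 0 → ∀ α : Module.Dual K U, α v = 0 → α w = 0 →
      ClsA_P g w φ α a := by
    intro a ha ha' α hv hw
    have h1 := h.lie _ (hA a ha ha') _ (hD α hv hw)
    have h2 : (φ.smulRight a : Module.End K U) * (α.smulRight w : Module.End K U) -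
        (α.smulRight w : Module.End K U) * (φ.smulRight a : Module.End K U) =
        (α.smulRight a : Module.End K U) - α a • (φ.smulRight w : Module.End K U) := by
      ext u
      simp only [LinearMap.sub_apply, Module.End.mul_apply, LinearMap.smulRight_apply, map_smul,
        h.fw, LinearMap.smul_apply, smul_smul, mul_one]
      rw [mul_comm (α a)]
    rwa [h2] at h1
  have key : ∀ (ξ : Module.Dual K U) (u : U), ClsA_P g w φ ξ u := by
    intro ξ u
    obtain ⟨a, ha, ha', hu⟩ := ClsA_zeta h u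
    obtain ⟨α, hv, hw, hξ⟩ := ClsA_dual h ξ
    rw [hξ]
    refine ClsA_P_add' (ClsA_P_add' (ClsA_P_smul' _ ?_) (ClsA_P_smul' _ ?_)) ?_
    · rw [hu]
      refine ClsA_P_add (ClsA_P_add (ClsA_P_smul _ ?_) (ClsA_P_smul _ ?_)) ?_
      · rw [ClsA_P, h.fv, zero_smul, sub_zero, ← he]
        exact h.sl.me
      · rw [ClsA_P, h.fw, one_smul, sub_self]
        exact zero_mem _
      · rw [ClsA_P, ha, zero_smul, sub_zero]
        exact hA a ha ha'
    · rw [hu]
      refine ClsA_P_add (ClsA_P_add (ClsA_P_smul _ ?_) (ClsA_P_smul _ ?_)) ?_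
      · have h1 := h.lie _ h.sl.me _ h.sl.mf
        have h2 : e * f - f * e = (χ.smulRight v : Module.End K U) -
            (φ.smulRight w : Module.End K U) := by
          ext u
          simp only [LinearMap.sub_apply, Module.End.mul_apply, LinearMap.smulRight_apply,
            h.e_eq, h.f_eq, map_smul, h.fw, h.cv, smul_eq_mul, mul_one]
        rw [ClsA_P, h.cv, one_smul, ← h2]
        exact h1
      · rw [ClsA_P, h.cw, zero_smul, sub_zero, ← hf]
        exact h.sl.mf
      · rw [ClsA_P, ha', zero_smul, sub_zero]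
        exact hC a ha ha'
    · rw [hu]
      refine ClsA_P_add (ClsA_P_add (ClsA_P_smul _ ?_) (ClsA_P_smul _ ?_)) ?_
      · rw [ClsA_P, hv, zero_smul, sub_zero]
        exact hB α hv hw
      · rw [ClsA_P, hw, zero_smul, sub_zero]
        exact hD α hv hw
      · exact hE a ha ha' α hv hw
  have hX2 : X = ∑ i, (((Module.finBasis K U).coord i).smulRight
      (X (Module.finBasis K U i)) : Module.End K U) := by
    ext u
    rw [LinearMap.sum_apply]
    conv_lhs => rw [← (Module.finBasis K U).sum_repr u, map_sum]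
    refine Finset.sum_congr rfl fun i _ => ?_
    rw [map_smul]
    rfl
  have hX3 : X - tr X • (φ.smulRight w : Module.End K U) ∈ g := by
    have h1 : tr X = ∑ i, ((Module.finBasis K U).coord i) (X (Module.finBasis K U i)) := by
      rw [tr]
      conv_lhs => rw [hX2, map_sum]
      exact Finset.sum_congr rfl fun i _ => LinearMap.trace_smulRight _ _
    have h2 : X - tr X • (φ.smulRight w : Module.End K U) =
        ∑ i, ((((Module.finBasis K U).coord i).smulRight (X (Module.finBasis K U i)) :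
          Module.End K U) - ((Module.finBasis K U).coord i) (X (Module.finBasis K U i)) •
            (φ.smulRight w : Module.End K U)) := by
      rw [Finset.sum_sub_distrib, ← hX2, ← Finset.sum_smul, ← h1]
    rw [h2]
    exact sum_mem fun i _ => key _ _
  rw [hX, zero_smul, sub_zero] at hX3
  exact hX3

/-- The case of an element of degree one with vanishing functional. -/
lemma ClsA_two [CharZero K] [FiniteDimensional K U] (h : Fr g e f v w φ χ)
    {x₀ : Module.End K U} (hx : x₀ ∈ G1 g e f) (hx0 : x₀ ≠ 0) (hc : ∀ u, χ (x₀ u) = 0)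
    (X : Module.End K U) (hX : tr X = 0) : X ∈ g := by
  have ha0 : x₀ w ≠ 0 := by
    intro h1
    apply hx0
    ext u
    rw [h.form x₀ hx, h1, hc, smul_zero, zero_smul, add_zero, LinearMap.zero_apply]
  have P : ∀ y ∈ G1 g e f, ∀ z ∈ G1 g e f, ∃ t ∈ G1 g e f,
      t w = χ (y (x₀ w)) • z w + χ (z (x₀ w)) • y w ∧ ∀ u, χ (t u) = 0 := by
    intro y hy z hz
    obtain ⟨t, ht, ht1, ht2⟩ := h.trip x₀ hx y hy z hz
    have hmem : t - χ (y (z w)) • x₀ + χ (z (x₀ w)) • y ∈ G1 g e f :=
      add_mem (sub_mem ht (Submodule.smul_mem _ _ hx)) (Submodule.smul_mem _ _ hy)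
    refine ⟨_, hmem, ?_, ClsA_chi h hmem ?_⟩
    · rw [LinearMap.add_apply, LinearMap.sub_apply, LinearMap.smul_apply, LinearMap.smul_apply, ht1,
        hc, zero_smul]
      abel
    · intro u hu hu'
      rw [LinearMap.add_apply, LinearMap.sub_apply, LinearMap.smul_apply, LinearMap.smul_apply,
        map_add, map_sub, ht2 u hu hu', map_smul, map_smul, hc, hc, smul_eq_mul, smul_eq_mul]
      ring
  obtain ⟨h1, h2, -⟩ := h.a0 x₀ hx
  obtain ⟨y₀, hy₀, hy₀'⟩ := h.inj (x₀ w) h1 h2 ha0
  have hsq : ∀ z ∈ G1 g e f, χ (z (x₀ w)) ≠ 0 →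
      ∃ z' ∈ G1 g e f, z' w = z w ∧ ∀ u, χ (z' u) = 0 := by
    intro z hz hz0
    obtain ⟨t, ht, ht1, ht2⟩ := P z hz z hz
    refine ⟨(2 * χ (z (x₀ w)))⁻¹ • t, Submodule.smul_mem _ _ ht, ?_, ?_⟩
    · rw [LinearMap.smul_apply, ht1, ← add_smul, ← two_mul, smul_smul,
        inv_mul_cancel₀ (mul_ne_zero two_ne_zero hz0), one_smul]
    · intro u
      rw [LinearMap.smul_apply, map_smul, ht2, smul_zero]
  obtain ⟨y', hy', hy'1, hy'2⟩ := hsq y₀ hy₀ hy₀'
  have C2 : ∀ z ∈ G1 g e f, ∃ z' ∈ G1 g e f, z' w = z w ∧ ∀ u, χ (z' u) = 0 := by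
    intro z hz
    obtain ⟨t, ht, ht1, ht2⟩ := P y₀ hy₀ z hz
    refine ⟨(χ (y₀ (x₀ w)))⁻¹ • (t - χ (z (x₀ w)) • y'), Submodule.smul_mem _ _
      (sub_mem ht (Submodule.smul_mem _ _ hy')), ?_, ?_⟩
    · rw [LinearMap.smul_apply, LinearMap.sub_apply, LinearMap.smul_apply, ht1, hy'1,
        add_sub_cancel_right, smul_smul, inv_mul_cancel₀ hy₀', one_smul]
    · intro u
      rw [LinearMap.smul_apply, LinearMap.sub_apply, LinearMap.smul_apply, map_smul, map_sub,
        map_smul, ht2, hy'2, smul_zero, sub_zero, smul_zero]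
  -- the operators `v ⊗ α_z`
  have hB0 : ∀ z ∈ G1 g e f, ((χ ∘ₗ z).smulRight v : Module.End K U) ∈ g := by
    intro z hz
    obtain ⟨z', hz', hz'1, hz'2⟩ := C2 z hz
    have h3 : ((χ ∘ₗ z).smulRight v : Module.End K U) = z - z' := by
      ext u
      rw [LinearMap.sub_apply, h.form z hz u, h.form z' hz' u, hz'1, hz'2, zero_smul, add_zero,
        add_sub_cancel_left]
      rfl
    rw [h3]
    exact sub_mem hz.1 hz'.1
  refine ClsA_gen h ?_ ?_ X hX
  · intro a ha ha'
    obtain ⟨x, hx', hxw⟩ := h.surj a ha ha'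
    obtain ⟨z', hz', hz'1, hz'2⟩ := C2 x hx'
    have h3 : (φ.smulRight a : Module.End K U) = z' := by
      ext u
      rw [h.form z' hz' u, hz'1, hz'2, zero_smul, add_zero, hxw]
      rfl
    rw [h3]
    exact hz'.1
  · intro α hv hw
    let D : Submodule K (Module.Dual K U) :=
      { carrier := {β | ∃ c d : K, ∃ z ∈ G1 g e f, β = c • φ + d • χ + χ ∘ₗ z}
        add_mem' := by
          rintro _ _ ⟨c, d, z, hz, rfl⟩ ⟨c', d', z', hz', rfl⟩
          refine ⟨c + c', d + d', z + z', add_mem hz hz', ?_⟩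
          rw [add_smul, add_smul, LinearMap.comp_add]
          abel
        zero_mem' := ⟨0, 0, 0, zero_mem _, by simp⟩
        smul_mem' := by
          rintro b _ ⟨c, d, z, hz, rfl⟩
          refine ⟨b * c, b * d, b • z, Submodule.smul_mem _ _ hz, ?_⟩
          rw [smul_add, smul_add, smul_smul, smul_smul, LinearMap.comp_smul] }
    have hD0 : D.dualCoannihilator = ⊥ := by
      rw [eq_bot_iff]
      intro u hu
      rw [Submodule.mem_dualCoannihilator] at hu
      have e1 : φ u = 0 := hu φ ⟨1, 0, 0, zero_mem _, by simp⟩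
      have e2 : χ u = 0 := hu χ ⟨0, 1, 0, zero_mem _, by simp⟩
      by_contra hne
      obtain ⟨z, hz, hz'⟩ := h.inj u e1 e2 hne
      exact hz' (hu (χ ∘ₗ z) ⟨0, 0, z, hz, by simp⟩)
    have hD1 : D = ⊤ := by
      have h4 := Subspace.dualCoannihilator_dualAnnihilator_eq (W := D)
      rw [hD0] at h4
      rw [← h4, Submodule.dualAnnihilator_bot]
    have hα : α ∈ D := by
      rw [hD1]
      exact Submodule.mem_top
    obtain ⟨c, d, z, hz, hαz⟩ := hα
    obtain ⟨-, q2, q3⟩ := h.a0 z hz
    have hd : d = 0 := by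
      have h5 := congrArg (fun β : Module.Dual K U => β v) hαz
      simp only [LinearMap.add_apply, LinearMap.smul_apply, LinearMap.comp_apply, hv, h.fv, h.cv,
        q3, map_zero, smul_eq_mul, mul_zero, mul_one, zero_add, add_zero] at h5
      exact h5.symm
    have hc : c = 0 := by
      have h5 := congrArg (fun β : Module.Dual K U => β w) hαz
      simp only [LinearMap.add_apply, LinearMap.smul_apply, LinearMap.comp_apply, hw, h.fw, h.cw,
        q2, smul_eq_mul, mul_zero, mul_one, add_zero] at h5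
      exact h5.symm
    rw [hαz, hc, hd, zero_smul, zero_smul, zero_add, zero_add]
    exact hB0 z hz

end ClsA

/-- **The special linear case.** -/
theorem pClsA : SClsA := by
  intro K U _ _ _ _ _ g e f v w φ χ h hh X hX
  rcases hh with hh | ⟨x₀, hx, hx0, hh | hh⟩
  · refine ClsA_gen h ?_ ?_ X hX
    · intro a ha ha'
      rw [hh a ha ha']
      have h1 : (φ.smulRight (0 : U) : Module.End K U) = 0 := by
        ext u
        simp
      rw [h1]
      exact zero_mem _
    · intro α hv hw
      have h1 : (α.smulRight v : Module.End K U) = 0 := by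
        ext u
        obtain ⟨z, hz1, hz2, hz3⟩ := ClsA_zeta h u
        rw [hh z hz1 hz2, add_zero] at hz3
        rw [LinearMap.smulRight_apply, hz3, map_add, map_smul, map_smul, hv, hw, smul_zero,
          smul_zero, add_zero, zero_smul, LinearMap.zero_apply]
      rw [h1]
      exact zero_mem _
  · -- `x₀ w = 0`
    have h1 : ∃ u, χ (x₀ u) ≠ 0 := by
      by_contra hne
      push Not at hne
      apply hx0
      ext u
      rw [h.form x₀ hx, hh, hne, smul_zero, zero_smul, add_zero, LinearMap.zero_apply]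
    obtain ⟨u, hu⟩ := h1
    obtain ⟨z₀, hz1, hz2, hz3⟩ := ClsA_zeta h u
    have hz0 : χ (x₀ z₀) ≠ 0 := by
      intro h2
      apply hu
      obtain ⟨-, -, h3⟩ := h.a0 x₀ hx
      have hxu : x₀ u = x₀ z₀ := by
        conv_lhs => rw [hz3]
        rw [map_add, map_add, map_smul, map_smul, h3, hh, smul_zero, smul_zero, add_zero, zero_add]
      rw [hxu, h2]
    obtain ⟨z, hz, hzw⟩ := h.surj z₀ hz1 hz2
    obtain ⟨t, ht, ht1, ht2⟩ := h.trip z hz x₀ hx z hz
    have hmem : t + χ (z (z w)) • x₀ ∈ G1 g e f := add_mem ht (Submodule.smul_mem _ _ hx)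
    have hw' : (t + χ (z (z w)) • x₀) w = (2 * χ (x₀ z₀)) • z₀ := by
      rw [LinearMap.add_apply, LinearMap.smul_apply, ht1, hh, hzw, smul_zero, add_zero,
        add_zero, two_mul, add_smul]
    refine ClsA_two h hmem ?_ (ClsA_chi h hmem ?_) X hX
    · intro h2
      rw [h2, LinearMap.zero_apply] at hw'
      rcases smul_eq_zero.1 hw'.symm with h3 | h3
      · exact (mul_ne_zero two_ne_zero hz0) h3
      · rw [h3, map_zero, map_zero] at hz0
        exact hz0 rfl
    · intro u hu hu'
      rw [LinearMap.add_apply, LinearMap.smul_apply, map_add, ht2 u hu hu', map_smul, hh, map_zero,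
        map_zero, smul_eq_mul]
      ring
  · exact ClsA_two h hx hx0 hh X hX

end Pool.Agent.Lib.MP_640417_ag.Tg
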