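import Pool.Agent.Lib.MP_640417_ag.Tg.SpecA
import Pool.Agent.Lib.MP_640417_ag.Tor.Stab
import Pool.Agent.Lib.MP_640417_ag.Tor.Grade

/-!
# Toric places, no factors of type III: the symplectic case
-/

namespace Pool.Agent.Lib.MP_640417_ag.Tg

open Module Pool.Agent.Lib.MP_640417_ag.Tor

section

variable {K U : Type} [Field K] [AddCommGroup U] [Module K U]

/-- The operators which multiply a form by a scalar. -/
def ClsB_S (ω : LinearMap.BilinForm K U) : Submodule K (Module.End K U) where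
  carrier := {X | ∃ c : K, ∀ x y, ω (X x) y + ω x (X y) = c * ω x y}
  add_mem' := by
    rintro X Y ⟨c, hc⟩ ⟨d, hd⟩
    refine ⟨c + d, fun x y => ?_⟩
    rw [LinearMap.add_apply, LinearMap.add_apply, map_add, map_add, LinearMap.add_apply, add_mul,
      ← hc, ← hd]
    ring
  zero_mem' := ⟨0, fun x y => by simp⟩
  smul_mem' := by
    rintro a X ⟨c, hc⟩
    refine ⟨a * c, fun x y => ?_⟩
    rw [LinearMap.smul_apply, LinearMap.smul_apply, map_smul, map_smul, LinearMap.smul_apply,
      mul_assoc, ← hc, smul_eq_mul, smul_eq_mul]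
    ring

lemma ClsB_S_lie (ω : LinearMap.BilinForm K U) : Lie (ClsB_S ω) := by
  rintro X ⟨c, hc⟩ Y ⟨d, hd⟩
  refine ⟨0, fun x y => ?_⟩
  rw [LinearMap.sub_apply, LinearMap.sub_apply, map_sub, map_sub, LinearMap.sub_apply,
    Module.End.mul_apply, Module.End.mul_apply, Module.End.mul_apply, Module.End.mul_apply]
  have h1 := hc (Y x) y
  have h2 := hc x (Y y)
  have h3 := hd (X x) y
  have h4 := hd x (X y)
  have h5 := hc x y
  have h6 := hd x y
  linear_combination h1 - h3 + h2 - h4 + c * h6 - d * h5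

variable {g : Submodule K (Module.End K U)} {e f : Module.End K U} {v w : U}
  {φ χ : Module.Dual K U}

/-- The isotropy of the degree one elements. -/
lemma ClsB_iso [CharZero K] (hF : Fr g e f v w φ χ) (hi : ∀ x ∈ G1 g e f, x w = 0 → x = 0)
    {x : Module.End K U} (hx : x ∈ G1 g e f) : χ (x (x w)) = 0 := by
  obtain ⟨t, ht, htw, htu⟩ := hF.trip x hx x hx x hx
  obtain ⟨h1, h2, -⟩ := hF.a0 x hx
  set a := χ (x (x w)) with ha
  have h3 : t - (3 * a) • x = 0 := by
    refine hi _ (sub_mem ht (Submodule.smul_mem _ _ hx)) ?_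
    rw [LinearMap.sub_apply, htw, LinearMap.smul_apply]
    module
  have h4 := htu (x w) h1 h2
  rw [sub_eq_zero.mp h3, LinearMap.smul_apply, map_smul, smul_eq_mul, ← ha] at h4
  have h5 : 6 * (a * a) = 0 := by linear_combination h4
  rcases mul_eq_zero.mp h5 with h6 | h6
  · norm_num at h6
  · exact mul_self_eq_zero.mp h6

lemma ClsB_anti [CharZero K] (hF : Fr g e f v w φ χ) (hi : ∀ x ∈ G1 g e f, x w = 0 → x = 0)
    {x y : Module.End K U} (hx : x ∈ G1 g e f) (hy : y ∈ G1 g e f) :
    χ (x (y w)) + χ (y (x w)) = 0 := by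
  have h1 := ClsB_iso hF hi (add_mem hx hy)
  have h2 := ClsB_iso hF hi hx
  have h3 := ClsB_iso hF hi hy
  simp only [LinearMap.add_apply, map_add] at h1
  linear_combination h1 - h2 - h3

/-- The linear map from vectors to elements of degree one. -/
lemma ClsB_map (hi : ∀ x ∈ G1 g e f, x w = 0 → x = 0) :
    ∃ r : U →ₗ[K] Module.End K U, (∀ u, r u ∈ G1 g e f) ∧ ∀ x ∈ G1 g e f, r (x w) = x := by
  let ev : G1 g e f →ₗ[K] U := (LinearMap.applyₗ w) ∘ₗ (G1 g e f).subtype
  have hker : LinearMap.ker ev = ⊥ := by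
    rw [LinearMap.ker_eq_bot']
    rintro ⟨x, hx⟩ h0
    exact Subtype.ext (hi x hx h0)
  obtain ⟨s, hs⟩ := LinearMap.exists_leftInverse_of_injective _ hker
  refine ⟨(G1 g e f).subtype ∘ₗ s, fun u => (s u).2, fun x hx => ?_⟩
  have h1 := LinearMap.congr_fun hs ⟨x, hx⟩
  exact congrArg Subtype.val h1

end

/-- **The symplectic case.** -/
theorem pClsB : SClsB := by
  intro K U _ _ _ _ _ g e f v w φ χ hF hi hi'
  obtain ⟨r, hr, hrx⟩ := ClsB_map hi
  have ev : e v = 0 := by rw [hF.e_eq, hF.fv, zero_smul]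
  have ew : e w = v := by rw [hF.e_eq, hF.fw, one_smul]
  have fv : f v = w := by rw [hF.f_eq, hF.cv, one_smul]
  have fw : f w = 0 := by rw [hF.f_eq, hF.cw, zero_smul]
  -- the projection
  let ζ : U →ₗ[K] U := LinearMap.id - χ.smulRight v - φ.smulRight w
  have hζ : ∀ u, ζ u = u - χ u • v - φ u • w := fun u => rfl
  have ζφ : ∀ u, φ (ζ u) = 0 := by
    intro u
    rw [hζ, map_sub, map_sub, map_smul, map_smul, hF.fv, hF.fw, smul_zero, sub_zero, smul_eq_mul,
      mul_one, sub_self]
  have ζχ : ∀ u, χ (ζ u) = 0 := by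
    intro u
    rw [hζ, map_sub, map_sub, map_smul, map_smul, hF.cv, hF.cw, smul_zero, sub_zero, smul_eq_mul,
      mul_one, sub_self]
  have ζz : ∀ u, φ u = 0 → χ u = 0 → ζ u = u := by
    intro u h1 h2
    rw [hζ, h1, h2, zero_smul, zero_smul, sub_zero, sub_zero]
  have ζv : ζ v = 0 := by
    rw [hζ, hF.cv, hF.fv, zero_smul, one_smul, sub_self, sub_zero]
  have ζw : ζ w = 0 := by
    rw [hζ, hF.cw, hF.fw, zero_smul, one_smul, sub_zero, sub_self]
  have hdec : ∀ u, u = χ u • v + φ u • w + ζ u := by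
    intro u
    rw [hζ]
    abel
  have hrw : ∀ u, φ u = 0 → χ u = 0 → (r u) w = u := by
    intro u h1 h2
    obtain ⟨x, hx, rfl⟩ := hF.surj u h1 h2
    rw [hrx x hx]
  -- the form
  let ω : LinearMap.BilinForm K U := LinearMap.mk₂ K
    (fun u u' => χ u * φ u' - φ u * χ u' + χ ((r (ζ u)) u'))
    (by intro a b c; simp only [map_add, LinearMap.add_apply]; ring)
    (by intro t a b; simp only [map_smul, LinearMap.smul_apply, smul_eq_mul]; ring)
    (by intro a b c; simp only [map_add]; ring)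
    (by intro t a b; simp only [map_smul, smul_eq_mul]; ring)
  have hω : ∀ u u', ω u u' = χ u * φ u' - φ u * χ u' + χ ((r (ζ u)) u') := fun u u' => rfl
  have hωv : ∀ u, ω v u = φ u := by
    intro u
    rw [hω, ζv, map_zero, LinearMap.zero_apply, map_zero, hF.cv, hF.fv]
    ring
  have hωw : ∀ u, ω w u = - χ u := by
    intro u
    rw [hω, ζw, map_zero, LinearMap.zero_apply, map_zero, hF.cw, hF.fw]
    ring
  have hωx : ∀ x ∈ G1 g e f, ∀ u, ω (x w) u = χ (x u) := by
    intro x hx u
    obtain ⟨h1, h2, -⟩ := hF.a0 x hx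
    rw [hω, ζz _ h1 h2, hrx x hx, h1, h2]
    ring
  have hxζ : ∀ x ∈ G1 g e f, ∀ u, χ (x (ζ u)) = χ (x u) := by
    intro x hx u
    obtain ⟨h1, h2, h3⟩ := hF.a0 x hx
    simp only [hζ, map_sub, map_smul, h3, h2, smul_zero, sub_zero]
  have halt : ∀ u, ω u u = 0 := by
    intro u
    have hx := hr (ζ u)
    have h4 : χ ((r (ζ u)) u) = χ ((r (ζ u)) ((r (ζ u)) w)) := by
      rw [← hxζ _ hx u, hrw _ (ζφ u) (ζχ u)]
    rw [hω, h4, ClsB_iso hF hi hx]
    ring
  have hanti : ∀ u u', ω u u' = - ω u' u := by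
    intro u u'
    have h1 := halt (u + u')
    simp only [map_add, LinearMap.add_apply, halt, zero_add, add_zero] at h1
    linear_combination h1
  have hnd : ∀ x, (∀ y, ω x y = 0) → x = 0 := by
    intro x hx
    have h1 := hx v
    rw [hanti, hωv, neg_eq_zero] at h1
    have h2 := hx w
    rw [hanti, hωw, neg_neg] at h2
    obtain ⟨y, hy, rfl⟩ := hF.surj x h1 h2
    rw [hi' y hy (fun u => by rw [← hωx y hy]; exact hx u), LinearMap.zero_apply]
  refine ⟨ω, halt, hnd, ?_⟩
  -- invariance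
  have hSl := ClsB_S_lie ω
  have hSe : e ∈ ClsB_S ω := by
    refine ⟨0, fun x y => ?_⟩
    rw [hF.e_eq, hF.e_eq, map_smul, LinearMap.smul_apply, map_smul, hωv, hanti x v, hωv,
      smul_eq_mul, smul_eq_mul]
    ring
  have hSf : f ∈ ClsB_S ω := by
    refine ⟨0, fun x y => ?_⟩
    rw [hF.f_eq, hF.f_eq, map_smul, LinearMap.smul_apply, map_smul, hωw, hanti x w, hωw,
      smul_eq_mul, smul_eq_mul]
    ring
  have hSx : G1 g e f ≤ ClsB_S ω := by
    intro x hx
    have h1 : ∀ u u', ω (x u) u' = φ u * χ (x u') + χ (x u) * φ u' := by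
      intro u u'
      rw [hF.form x hx u, map_add, LinearMap.add_apply, map_smul, map_smul, LinearMap.smul_apply,
        LinearMap.smul_apply, hωx x hx, hωv, smul_eq_mul, smul_eq_mul]
      obtain ⟨h1, h2, h3⟩ := hF.a0 x hx
      rw [map_add, map_smul, map_smul, h2, hF.cv, smul_zero, zero_add, smul_eq_mul, mul_one]
    refine ⟨0, fun u u' => ?_⟩
    rw [h1, hanti u, h1]
    ring
  have hSy : G1 g f e ≤ ClsB_S ω := by
    intro y hy
    rw [G1.bracket_f hF.sl hy]
    exact hSl f hSf _ (hSx (bracket_e_mem hF.lie hF.sl hy))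
  intro X hX
  obtain ⟨-, -, m1, n1, m0⟩ := pGrade K U g hF.lie e f hF.sl X hX
  have hp : ∀ u, (e * f) u = χ u • v := by
    intro u
    rw [Module.End.mul_apply, hF.f_eq, map_smul, ew]
  have hq : ∀ u, (f * e) u = φ u • w := by
    intro u
    rw [Module.End.mul_apply, hF.e_eq, map_smul, fv]
  have h2 : (e * f) * X * (f * e) ∈ ClsB_S ω := by
    have h1 : (e * f) * X * (f * e) = χ (X w) • e := by
      refine LinearMap.ext fun u => ?_
      rw [Module.End.mul_apply, Module.End.mul_apply, hq, hp, LinearMap.smul_apply, hF.e_eq,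
        map_smul, map_smul, smul_smul, smul_eq_mul, mul_comm]
    rw [h1]
    exact Submodule.smul_mem _ _ hSe
  have h3 : (f * e) * X * (e * f) ∈ ClsB_S ω := by
    have h1 : (f * e) * X * (e * f) = φ (X v) • f := by
      refine LinearMap.ext fun u => ?_
      rw [Module.End.mul_apply, Module.End.mul_apply, hq, hp, LinearMap.smul_apply, hF.f_eq,
        map_smul, map_smul, smul_smul, smul_eq_mul, mul_comm]
    rw [h1]
    exact Submodule.smul_mem _ _ hSf
  set X₀ : Module.End K U := (e * f) * X * (e * f) + (1 - e * f - f * e) * X * (1 - e * f - f * e) +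
      (f * e) * X * (f * e) with hX₀
  have hpX : (e * f) * X₀ = X₀ * (e * f) := by
    have a1 : (e * f) * X₀ = (e * f) * (e * f) * X * (e * f) +
        ((e * f) - (e * f) * (e * f) - (e * f) * (f * e)) * X * (1 - e * f - f * e) +
        (e * f) * (f * e) * X * (f * e) := by rw [hX₀]; noncomm_ring
    have a2 : X₀ * (e * f) = (e * f) * X * ((e * f) * (e * f)) +
        (1 - e * f - f * e) * X * ((e * f) - (e * f) * (e * f) - (f * e) * (e * f)) +
        (f * e) * X * ((f * e) * (e * f)) := by rw [hX₀]; noncomm_ring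
    rw [a1, a2, hF.sl.pp, hF.sl.pq, hF.sl.qp]
    noncomm_ring
  have hqX : (f * e) * X₀ = X₀ * (f * e) := by
    have a1 : (f * e) * X₀ = (f * e) * (e * f) * X * (e * f) +
        ((f * e) - (f * e) * (e * f) - (f * e) * (f * e)) * X * (1 - e * f - f * e) +
        (f * e) * (f * e) * X * (f * e) := by rw [hX₀]; noncomm_ring
    have a2 : X₀ * (f * e) = (e * f) * X * ((e * f) * (f * e)) +
        (1 - e * f - f * e) * X * ((f * e) - (e * f) * (f * e) - (f * e) * (f * e)) +
        (f * e) * X * ((f * e) * (f * e)) := by rw [hX₀]; noncomm_ring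
    rw [a1, a2, hF.sl.qq, hF.sl.pq, hF.sl.qp]
    noncomm_ring
  have hXv : X₀ v = χ (X₀ v) • v := by
    have a1 := LinearMap.congr_fun hpX v
    rw [Module.End.mul_apply (e * f), Module.End.mul_apply X₀, hp, hp, hF.cv, one_smul] at a1
    exact a1.symm
  have hXw : X₀ w = φ (X₀ w) • w := by
    have a1 := LinearMap.congr_fun hqX w
    rw [Module.End.mul_apply (f * e), Module.End.mul_apply X₀, hq, hq, hF.fw, one_smul] at a1
    exact a1.symm
  set α := χ (X₀ v) with hα
  set γ := φ (X₀ w) with hγ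
  have hχX : ∀ u, χ (X₀ u) = α * χ u := by
    intro u
    have a1 := congrArg χ (LinearMap.congr_fun hpX u)
    rw [Module.End.mul_apply (e * f), Module.End.mul_apply X₀, hp, hp, map_smul, map_smul, map_smul, hF.cv,
      ← hα, smul_eq_mul, smul_eq_mul, mul_one] at a1
    rw [a1, mul_comm]
  have hφX : ∀ u, φ (X₀ u) = γ * φ u := by
    intro u
    have a1 := congrArg φ (LinearMap.congr_fun hqX u)
    rw [Module.End.mul_apply (f * e), Module.End.mul_apply X₀, hq, hq, map_smul, map_smul, map_smul, hF.fw,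
      ← hγ, smul_eq_mul, smul_eq_mul, mul_one] at a1
    rw [a1, mul_comm]
  have h0 : X₀ ∈ ClsB_S ω := by
    refine ⟨α + γ, fun u u' => ?_⟩
    have b1 : ω (X₀ v) u' + ω v (X₀ u') = (α + γ) * ω v u' := by
      rw [hXv, map_smul, LinearMap.smul_apply, hωv, hωv, hφX, smul_eq_mul]
      ring
    have b2 : ω (X₀ w) u' + ω w (X₀ u') = (α + γ) * ω w u' := by
      rw [hXw, map_smul, LinearMap.smul_apply, hωw, hωw, hχX, smul_eq_mul]
      ring
    have b3 : ∀ x ∈ G1 g e f, ω (X₀ (x w)) u' + ω (x w) (X₀ u') = (α + γ) * ω (x w) u' := by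
      intro x hx
      have hy : X₀ * x - x * X₀ ∈ G1 g e f := by
        refine ⟨hF.lie _ m0 _ hx.1, ?_⟩
        have a1 := hx.2
        have a2 : (e * f - f * e) * (X₀ * x - x * X₀) - (X₀ * x - x * X₀) * (e * f - f * e) =
            X₀ * ((e * f - f * e) * x - x * (e * f - f * e)) -
            ((e * f - f * e) * x - x * (e * f - f * e)) * X₀ +
            ((e * f) * X₀ - X₀ * (e * f)) * x - ((f * e) * X₀ - X₀ * (f * e)) * x
            - x * ((e * f) * X₀ - X₀ * (e * f)) + x * ((f * e) * X₀ - X₀ * (f * e)) := by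
          noncomm_ring
        rw [a2, a1, hpX, hqX]
        noncomm_ring
      have a3 := hωx _ hy u'
      rw [LinearMap.sub_apply, LinearMap.sub_apply, Module.End.mul_apply, Module.End.mul_apply,
        Module.End.mul_apply, Module.End.mul_apply, hXw, map_smul, map_sub, map_smul,
        LinearMap.sub_apply, LinearMap.smul_apply, map_sub, hωx x hx, hχX, smul_eq_mul] at a3
      rw [hωx x hx, hωx x hx]
      linear_combination a3
    obtain ⟨x, hx, hxu⟩ := hF.surj (ζ u) (ζφ u) (ζχ u)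
    have b4 := b3 x hx
    rw [hxu] at b4
    have b5 := hdec u
    rw [b5]
    simp only [map_add, map_smul, LinearMap.add_apply, LinearMap.smul_apply, smul_eq_mul]
    linear_combination χ u * b1 + φ u * b2 + b4
  have hsum : X = (e * f) * X * (f * e) +
      ((e * f) * X * (1 - e * f - f * e) + (1 - e * f - f * e) * X * (f * e)) + X₀ +
      ((1 - e * f - f * e) * X * (e * f) + (f * e) * X * (1 - e * f - f * e)) +
      (f * e) * X * (e * f) := by rw [hX₀]; noncomm_ring
  have hfin : X ∈ ClsB_S ω := by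
    rw [hsum]
    exact add_mem (add_mem (add_mem (add_mem h2 (hSx m1)) h0) (hSy n1)) h3
  exact hfin

end Pool.Agent.Lib.MP_640417_ag.Tg
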