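import Pool.Agent.Lib.MP_640417_ag.Tg.RealA
import Pool.Agent.Lib.MP_640417_ag.Tg.SpecW

/-!
# Toric places satisfy the conditions on the constituents
-/

set_option autoImplicit false

namespace Pool.Agent.Lib.MP_640417_ag.Tg

open Module TensorProduct Pool.Agent.Lib.MP_640417_ag Pool.Agent.Lib.MP_640417_ag.Tor
  Pool.Agent.Lib.MP_640417_ag.Lef Pool.Agent.Lib.MP_640417_ag.Frob
  Pool.Agent.Lib.MP_640417_ag.Glob Pool.Agent.Lib.MP_640417_ag.Ty
  Pool.Agent.Lib.MP_640417_ag.Ctl Pool.Agent.Lib.MP_640417_ag.Gen4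

open Pool.Agent.Lib.MP_640417_ag.Four (Semisimple NoExotic)

variable (l : ℕ) [Fact l.Prime] {Γ : Type} [Group Γ]
    [TopologicalSpace Γ] [IsTopologicalGroup Γ] [CompactSpace Γ] {V : Type} [AddCommGroup V]
    [Module ℚ_[l] V] [FiniteDimensional ℚ_[l] V] (ρ : H1Rep Γ ℚ_[l] V)

/-- Toric places satisfy the conditions on the constituents. -/
theorem constG_of_toricAll (K : Type) [Field K] [Algebra ℚ_[l] K] (h : ToricAll l ρ K) :
    ConstG (ρ.form.baseChange K) (LieK l ρ K) := by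
  intro W hW
  rcases h W hW with h1 | ⟨γ, h1, h2⟩
  · exact Or.inl h1
  · obtain ⟨h4, h5⟩ := pNilT l Γ V ρ K γ h1
    have hz : (ρ.T γ - 1).baseChange K - (0 : K) • (1 : Module.End K (K ⊗[ℚ_[l]] V)) =
        (ρ.T γ - 1).baseChange K :=
      LinearMap.ext fun x => by
        rw [zero_smul, LinearMap.sub_apply, LinearMap.zero_apply, sub_zero]
    refine Or.inr ⟨_, h4, 0, ?_⟩
    rw [hz]
    rcases h2 with h2 | ⟨h2, h3⟩
    · exact Or.inl h2
    · refine Or.inr ⟨h2, fun x _ => ?_, h3⟩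
      have h6 : ((ρ.T γ - 1) * (ρ.T γ - 1)).baseChange K =
        (ρ.T γ - 1).baseChange K * (ρ.T γ - 1).baseChange K := LinearMap.baseChange_comp _ _
      rw [← Module.End.mul_apply, ← h6, h1, LinearMap.baseChange_zero, LinearMap.zero_apply]

/-- The hypotheses of the theorem on one toric place imply the conditions on the constituents. -/
theorem constG_of_places (hss : Semisimple ρ) (hr : RealType ρ) (K : Type) [Field K]
    [Algebra ℚ_[l] K] [IsAlgClosed K] (h : ToricPlaces l ρ K) :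
    ConstG (ρ.form.baseChange K) (LieK l ρ K) := by
  refine constG_of_toricAll l ρ K fun W hW => Or.inr ?_
  obtain ⟨γ, h1, h2⟩ := h W hW
  exact ⟨γ, h1, Or.inr ⟨dualMod_of_real l ρ hss hr K W hW, h2⟩⟩

end Pool.Agent.Lib.MP_640417_ag.Tg
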