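import Pool.Agent.Lib.MP_640417_ag.Tor.SpecL

/-!
# Toric places, no factors of type III: blocks with a duality
-/

namespace Pool.Agent.Lib.MP_640417_ag.Tg

open Module Pool.Agent.Lib.MP_640417_ag.Tor

variable {K V : Type} [Field K] [AddCommGroup V] [Module K V]

/-- `g` is a Lie algebra of operators (closed under brackets). -/
def Lie (g : Submodule K (Module.End K V)) : Prop := ∀ X ∈ g, ∀ Y ∈ g, X * Y - Y * X ∈ g

/-- `g` acts irreducibly on the subspace `W`. -/
def Irr (g : Submodule K (Module.End K V)) (W : Submodule K V) : Prop :=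
  ∀ W' ≤ W, (∀ X ∈ g, ∀ y ∈ W', X y ∈ W') → W' = ⊥ ∨ W' = W

/-- The operators of trace zero on the range of the idempotent `p`, skew if `t` holds. -/
def sb (ψ : LinearMap.BilinForm K V) (p : Module.End K V) (t : Prop) :
    Submodule K (Module.End K V) where
  carrier := {X | p * X * p = X ∧ tr X = 0 ∧ (t → Skew ψ X)}
  add_mem' := by
    rintro X Y ⟨h1, h2, h3⟩ ⟨h4, h5, h6⟩
    refine ⟨by rw [mul_add, add_mul, h1, h4], ?_, fun ht x y => ?_⟩
    · unfold tr at *
      rw [map_add, h2, h5, add_zero]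
    · rw [LinearMap.add_apply, map_add, LinearMap.add_apply, h3 ht, h6 ht, LinearMap.add_apply,
        map_add]
      ring
  zero_mem' := by
    refine ⟨by rw [mul_zero, zero_mul], by unfold tr; rw [map_zero], fun _ x y => ?_⟩
    simp
  smul_mem' := by
    rintro c X ⟨h1, h2, h3⟩
    refine ⟨by rw [mul_smul_comm, smul_mul_assoc, h1], ?_, fun ht x y => ?_⟩
    · unfold tr at *
      rw [map_smul, h2, smul_zero]
    · rw [LinearMap.smul_apply, map_smul, LinearMap.smul_apply, h3 ht, LinearMap.smul_apply,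
        map_smul, smul_eq_mul, smul_eq_mul, mul_neg]

/-- The span of the brackets. -/
def der (g : Submodule K (Module.End K V)) : Submodule K (Module.End K V) :=
  Submodule.span K {Z | ∃ X ∈ g, ∃ Y ∈ g, Z = X * Y - Y * X}

/-- A block: `p` is an idempotent, self-adjoint if `t` holds, of rank at least two, and `ψ` is a symplectic
form. -/
structure Blk (ψ : LinearMap.BilinForm K V) (p : Module.End K V) (t : Prop) : Prop where
  alt : ∀ x, ψ x x = 0
  anti : ∀ x y, ψ x y = - ψ y x
  nd : ∀ x, (∀ y, ψ x y = 0) → x = 0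
  pp : p * p = p
  adj : t → ∀ x y, ψ (p x) y = ψ x (p y)
  two : 2 ≤ rk p

/-- A decomposition of the symplectic space `V` into blocks `p b V` with a duality `st`: `p b V` is
orthogonal to all blocks except `p (st b) V`. -/
structure BD {B : Type} [Fintype B] (ψ : LinearMap.BilinForm K V) (p : B → Module.End K V)
    (st : B → B) : Prop where
  alt : ∀ x, ψ x x = 0
  anti : ∀ x y, ψ x y = - ψ y x
  nd : ∀ x, (∀ y, ψ x y = 0) → x = 0
  sum : ∑ b, p b = 1
  pp : ∀ b, p b * p b = p b
  ne : ∀ b, p b ≠ 0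
  orth : ∀ a b, a ≠ b → p a * p b = 0
  inv : ∀ b, st (st b) = b
  adj : ∀ b x y, ψ (p b x) y = ψ x (p (st b) y)

end Pool.Agent.Lib.MP_640417_ag.Tg
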