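import Pool.Agent.Lib.MP_640417_ag.Tor.DefsL

/-!
# Toric places, no factors of type III: the conditions
-/

namespace Pool.Agent.Lib.MP_640417_ag.Tg

open Module TensorProduct Pool.Agent.Lib.MP_640417_ag.Frob Pool.Agent.Lib.MP_640417_ag.Tor

section alg

variable {K V : Type} [Field K] [AddCommGroup V] [Module K V]

/-- `W` and `W'` are dual, up to the similitude character: there is a pairing between `W` and `W'`, not
zero, for which every `X ∈ L` has the same multiplier as for the form `ψ`. -/
def DualMod (ψ : LinearMap.BilinForm K V) (L : Submodule K (Module.End K V))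
    (W W' : Submodule K V) : Prop :=
  ∃ β : LinearMap.BilinForm K V, (∃ x ∈ W, ∃ y ∈ W', β x y ≠ 0) ∧
    ∀ X ∈ L, ∀ m : K, (∀ x y, ψ (X x) y + ψ x (X y) = m * ψ x y) →
      ∀ x ∈ W, ∀ y ∈ W', β (X x) y + β x (X y) = m * β x y

/-- `c` maps `W` to `W'` and intertwines the action of `L` up to a character. -/
def Twist (L : Submodule K (Module.End K V)) (W W' : Submodule K V) (c : Module.End K V) : Prop :=
  (∀ x ∈ W, c x ∈ W') ∧ (∃ x ∈ W, c x ≠ 0) ∧
    ∀ X ∈ L, ∃ s : K, ∀ x ∈ W, c (X x) - X (c x) = s • c x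

/-- An irreducible constituent which is not self-dual, of dimension at least two, is not isomorphic to the twist of a
constituent by a nontrivial character, except in dimension two to its dual. -/
def NoTwist (ψ : LinearMap.BilinForm K V) (L : Submodule K (Module.End K V)) : Prop :=
  ∀ W W' : Submodule K V, IrrMod L W → IrrMod L W' → ¬ DualMod ψ L W W → 2 ≤ finrank K W →
    ∀ c : Module.End K V, Twist L W W' c →
      (∀ X ∈ L, ∀ x ∈ W, c (X x) = X (c x)) ∨ (finrank K W = 2 ∧ DualMod ψ L W W')

end alg

section rep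

variable {Γ : Type} [Group Γ] [TopologicalSpace Γ] {V : Type} [AddCommGroup V] (l : ℕ)
  [Fact l.Prime] [Module ℚ_[l] V]

/-- Every absolutely irreducible constituent of the Lie algebra of the image has dimension one, or a place
with monodromy of rank one, or it is self-dual and has a toric place. -/
def ToricAll (ρ : H1Rep Γ ℚ_[l] V) (K : Type) [Field K] [Algebra ℚ_[l] K] : Prop :=
  ∀ W : Submodule K (K ⊗[ℚ_[l]] V), IrrMod (LieK l ρ K) W → finrank K W = 1 ∨
    ∃ γ : Γ, (ρ.T γ - 1) * (ρ.T γ - 1) = 0 ∧
      (finrank K (W.map ((ρ.T γ - 1).baseChange K)) = 1 ∨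
        (DualMod (ρ.form.baseChange K) (LieK l ρ K) W W ∧
          Toric (LieK l ρ K) W ((ρ.T γ - 1).baseChange K)))

end rep

end Pool.Agent.Lib.MP_640417_ag.Tg
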