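import Pool.Agent.Lib.MP_640417_ag.Tg.DefsX

/-!
# Places which decide: the conditions on the constituents
-/

namespace Pool.Agent.Lib.MP_640417_ag.Tg

open Module TensorProduct Pool.Agent.Lib.MP_640417_ag.Frob Pool.Agent.Lib.MP_640417_ag.Tor

/-- Some `A ∈ L` is on `W` the sum of a scalar `a` and of an operator `B` such that `B` has rank one on `W`, or `W` is
self-dual, `B² = 0` on `W`, and the rank `r` of `B` on `W` is `1` or `2`, or prime to the dimension of `W` while `L`
contains an idempotent which is not `0`, `1`, or odd while the idempotents in `L` generate `L` as an ideal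
(`Toric`). -/
def LiePlace {K V : Type} [Field K] [AddCommGroup V] [Module K V] (ψ : LinearMap.BilinForm K V)
    (L : Submodule K (Module.End K V)) (W : Submodule K V) : Prop :=
  ∃ A ∈ L, ∃ a : K, finrank K (W.map (A - a • (1 : Module.End K V))) = 1 ∨
    (DualMod ψ L W W ∧ (∀ x ∈ W, (A - a • (1 : Module.End K V))
      ((A - a • (1 : Module.End K V)) x) = 0) ∧ Toric L W (A - a • (1 : Module.End K V)))

/-- `g` maps `W` to `W` and is on `W` the sum of a scalar `c` and of an operator of rank one, or of an operator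
of rank two, and then `W` is self-dual, of dimension at least five, and `g²` is not the scalar `c²` on `W`. -/
def SmallOn {K V : Type} [Field K] [AddCommGroup V] [Module K V] (ψ : LinearMap.BilinForm K V)
    (L : Submodule K (Module.End K V)) (W : Submodule K V) (g : Module.End K V) : Prop :=
  ∃ c : K, (∀ x ∈ W, g x ∈ W) ∧
    (finrank K (W.map (g - c • (1 : Module.End K V))) = 1 ∨
      (finrank K (W.map (g - c • (1 : Module.End K V))) = 2 ∧
        DualMod ψ L W W ∧ 4 < finrank K W ∧ ∃ x ∈ W, g (g x) ≠ (c * c) • x))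

section rep

variable {Γ : Type} [Group Γ] [TopologicalSpace Γ] {V : Type} [AddCommGroup V] (l : ℕ)
  [Fact l.Prime] [Module ℚ_[l] V]

/-- Some `γ` acts on `W` as in `SmallOn`. -/
def GroupPlace (ρ : H1Rep Γ ℚ_[l] V) (K : Type) [Field K] [Algebra ℚ_[l] K]
    (W : Submodule K (K ⊗[ℚ_[l]] V)) : Prop :=
  ∃ γ : Γ, SmallOn (ρ.form.baseChange K) (LieK l ρ K) W ((ρ.T γ).baseChange K)

/-- Every irreducible constituent `W` has dimension at most two, or the Lie algebra is as large as possible on
`W`, or one element of the Lie algebra, or of the group, acts on `W` with small rank, in the sense of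
`LiePlace`, `GroupPlace`. -/
def PlacesDecide (ρ : H1Rep Γ ℚ_[l] V) (K : Type) [Field K] [Algebra ℚ_[l] K] : Prop :=
  ∀ W : Submodule K (K ⊗[ℚ_[l]] V), IrrMod (LieK l ρ K) W → finrank K W ≤ 2 ∨
    BigMod (ρ.form.baseChange K) (LieK l ρ K) W ∨
    LiePlace (ρ.form.baseChange K) (LieK l ρ K) W ∨ GroupPlace l ρ K W

end rep

end Pool.Agent.Lib.MP_640417_ag.Tg
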