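import Pool.Agent.Lib.MP_640417_ag.Tg.MainZ

/-!
# Places which decide: two abbreviations, and the theorem
-/

set_option autoImplicit false

namespace Pool.Agent.Lib.MP_640417_ag.Tg

open Module TensorProduct Pool.Agent.Lib.MP_640417_ag Pool.Agent.Lib.MP_640417_ag.Tor
  Pool.Agent.Lib.MP_640417_ag.Lef Pool.Agent.Lib.MP_640417_ag.Frob
  Pool.Agent.Lib.MP_640417_ag.Ty Pool.Agent.Lib.MP_640417_ag.Dfr

open Pool.Agent.Lib.MP_640417_ag.Four (Semisimple NoExotic)

section defs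

variable {Γ : Type} [Group Γ] [TopologicalSpace Γ] {V : Type} [AddCommGroup V] (l : ℕ)
  [Fact l.Prime] [Module ℚ_[l] V]

/-- The Lie algebra of the image is as large as possible on every irreducible constituent. -/
def AllBig (ρ : H1Rep Γ ℚ_[l] V) (K : Type) [Field K] [Algebra ℚ_[l] K] : Prop :=
  ∀ W : Submodule K (K ⊗[ℚ_[l]] V), IrrMod (LieK l ρ K) W →
    BigMod (ρ.form.baseChange K) (LieK l ρ K) W

/-- No twists and no Weil relations. -/
def NoRel (ρ : H1Rep Γ ℚ_[l] V) (K : Type) [Field K] [Algebra ℚ_[l] K] : Prop :=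
  NoTwist (ρ.form.baseChange K) (LieK l ρ K) ∧ ¬ WeilRel ρ

end defs

variable (l : ℕ) [Fact l.Prime] {Γ : Type} [Group Γ]
    [TopologicalSpace Γ] [IsTopologicalGroup Γ] [CompactSpace Γ] {V : Type} [AddCommGroup V]
    [Module ℚ_[l] V] [FiniteDimensional ℚ_[l] V] (ρ : H1Rep Γ ℚ_[l] V)

theorem tfae_final (hss : Semisimple ρ) (h3 : NoTypeIII ρ) (K : Type) [Field K]
    [Algebra ℚ_[l] K] [IsAlgClosed K] :
    List.TFAE [NoExotic ρ, AllBig l ρ K ∧ NoRel l ρ K, PlacesDecide l ρ K ∧ NoRel l ρ K] ∧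
      (RealType ρ → NoRel l ρ K) :=
  ⟨tfae_places l ρ hss h3 K, fun hr => real_ok l ρ hss hr K⟩

end Pool.Agent.Lib.MP_640417_ag.Tg
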