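import Pool.Agent.Lib.MP_640417_ag.Tg.SpecR
import Pool.Agent.Lib.MP_640417_ag.Tor.CoordT
import Pool.Agent.Lib.MP_640417_ag.Lef.SkewL
import Pool.Agent.Lib.MP_640417_ag.Ctl.Main

/-!
# Toric places, no factors of type III: descent
-/

set_option autoImplicit false

namespace Pool.Agent.Lib.MP_640417_ag.Tg

open Module TensorProduct Pool.Agent.Lib.MP_640417_ag Pool.Agent.Lib.MP_640417_ag.Tor
  Pool.Agent.Lib.MP_640417_ag.Lef Pool.Agent.Lib.MP_640417_ag.Frob
  Pool.Agent.Lib.MP_640417_ag.Glob Pool.Agent.Lib.MP_640417_ag.Ty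
  Pool.Agent.Lib.MP_640417_ag.Ctl

open Pool.Agent.Lib.MP_640417_ag.Four (cp cp_zero cp_add cp_smul_baseChange cp_mul_baseChange
  cp_baseChange_mul form_cp)

/-- the coordinates of the elements of the span of the base changes of a set -/
theorem DescT_cp {F K : Type} [Field F] [Field K] [Algebra F K] {V : Type} [AddCommGroup V]
    [Module F V] (T : Set (Module.End F V)) (ℓ : K →ₗ[F] F) (S : Module.End K (K ⊗[F] V))
    (hS : S ∈ Submodule.span K ((fun A : Module.End F V => A.baseChange K) '' T)) :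
    cp ℓ S ∈ Submodule.span F T := by
  have key : ∀ k : K, cp ℓ (k • S) ∈ Submodule.span F T := by
    induction hS using Submodule.span_induction with
    | zero =>
      intro k
      rw [smul_zero, cp_zero]
      exact Submodule.zero_mem _
    | add x y _ _ hx hy =>
      intro k
      rw [smul_add, cp_add]
      exact Submodule.add_mem _ (hx k) (hy k)
    | smul a x _ hx =>
      intro k
      rw [smul_smul]
      exact hx _
    | mem x hx =>
      intro k
      obtain ⟨A, hA, rfl⟩ := hx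
      rw [cp_smul_baseChange]
      exact Submodule.smul_mem _ _ (Submodule.subset_span hA)
  have := key 1
  rwa [one_smul] at this

theorem DescT_cp_sub {F K : Type} [Field F] [Field K] [Algebra F K] {V : Type} [AddCommGroup V]
    [Module F V] (ℓ : K →ₗ[F] F) (S S' : Module.End K (K ⊗[F] V)) :
    cp ℓ (S - S') = cp ℓ S - cp ℓ S' := by
  apply LinearMap.ext
  intro v
  rw [LinearMap.sub_apply, Four.cp_apply, Four.cp_apply, Four.cp_apply, LinearMap.sub_apply,
    map_sub]

theorem pDescT : SDescT := by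
  intro l _ Γ _ _ _ _ V _ _ _ ρ U hU K _ _ I _ _ e R h1 h3 X hX ⟨z, hz, hzc, hzs, hz2, s, hs⟩
  -- a functional with `ℓ 1 = 1`
  obtain ⟨ℓ, hℓ⟩ : ∃ ℓ : K →ₗ[ℚ_[l]] ℚ_[l], ℓ 1 = 1 := by
    obtain ⟨g, hg⟩ := LinearMap.exists_leftInverse_of_injective (Algebra.linearMap ℚ_[l] K)
      (LinearMap.ker_eq_bot.2 (FaithfulSMul.algebraMap_injective ℚ_[l] K))
    refine ⟨g, ?_⟩
    have h2 := LinearMap.congr_fun hg 1
    rw [LinearMap.comp_apply, Algebra.linearMap_apply, map_one] at h2
    exact h2
  have hanti : ∀ u v, ρ.form u v = - ρ.form v u := Four.anti ρ.form_alt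
  have hanti' : ∀ u v, ρ.form.baseChange K u v = - ρ.form.baseChange K v u :=
    Four.anti (alt_baseChange K ρ.form ρ.form_alt)
  have hbm : ∀ g g' : Module.End ℚ_[l] V, (g * g').baseChange K = g.baseChange K * g'.baseChange K :=
    fun g g' => LinearMap.baseChange_comp g' g
  have hb1 : (1 : Module.End K (K ⊗[ℚ_[l]] V)) = (1 : Module.End ℚ_[l] V).baseChange K := by
    apply LinearMap.ext
    intro v
    change v = (LinearMap.id : V →ₗ[ℚ_[l]] V).baseChange K v
    rw [LinearMap.baseChange_id]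
    rfl
  set z' : Module.End ℚ_[l] V := cp ℓ z with hz'
  have hcen : CentralSkew ρ z' := by
    refine ⟨⟨U, fun γ hγ => ?_⟩, fun c hc => ?_, fun x y => ?_⟩
    · rw [hz', ← cp_mul_baseChange, ← cp_baseChange_mul]
      congr 1
      rw [cenK, Subalgebra.mem_centralizer_iff] at hz
      exact (hz _ ⟨⟨γ, hγ⟩, rfl⟩).symm
    · rw [hz', ← cp_mul_baseChange, ← cp_baseChange_mul]
      congr 1
      apply hzc
      rw [cenK, Subalgebra.mem_centralizer_iff]
      rintro _ ⟨γ, rfl⟩
      change (ρ.T γ.1).baseChange K * c.baseChange K = c.baseChange K * (ρ.T γ.1).baseChange K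
      rw [← hbm, ← hbm, (hU γ.1).1 γ.2 c hc]
    · rw [hz', hanti x, form_cp, form_cp, ← map_neg, ← hanti', ← map_add, hzs, neg_add_cancel,
        map_zero]
  -- the Lie algebra part
  have hA := DescT_cp (Tangent l ρ) ℓ _ hs
  have hcomp : cp ℓ (X.baseChange K - z + s • (1 : Module.End K (K ⊗[ℚ_[l]] V))) =
      (X - z') + ℓ s • (1 : Module.End ℚ_[l] V) := by
    have e1 : cp ℓ (X.baseChange K) = X := by
      have := cp_smul_baseChange ℓ (1 : K) X
      rwa [one_smul, hℓ, one_smul] at this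
    rw [cp_add, hb1, cp_smul_baseChange, DescT_cp_sub, e1]
  rw [hcomp] at hA
  have hdec : LinearMap.toMatrix e e X =
      LinearMap.toMatrix e e (X - z') + LinearMap.toMatrix e e z' := by
    rw [← map_add, sub_add_cancel]
  rw [hdec]
  refine Submodule.add_mem_sup ⟨?_, ℓ s, ?_⟩ ((coord_zm ρ e R h1 h3 z').2 hcen)
  · rw [coord_skew ρ e R h3]
    intro x y
    rw [LinearMap.sub_apply, LinearMap.sub_apply, map_sub, map_sub, LinearMap.sub_apply]
    have e3 := hX x y
    have e4 := hcen.2.2 x y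
    linear_combination e3 - e4
  · have h4 : LinearMap.toMatrix e e (X - z' + ℓ s • (1 : Module.End ℚ_[l] V)) ∈
        (Submodule.span ℚ_[l] (Tangent l ρ)).map (LinearMap.toMatrix e e).toLinearMap :=
      ⟨_, hA, rfl⟩
    rw [Submodule.map_span] at h4
    have h5 : LinearMap.toMatrix e e (X - z' + ℓ s • (1 : Module.End ℚ_[l] V)) =
        LinearMap.toMatrix e e (X - z') + ℓ s • (1 : Matrix I I ℚ_[l]) := by
      rw [map_add, map_smul, LinearMap.toMatrix_one]
    rw [← h5]
    refine Submodule.span_mono ?_ h4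
    rintro _ ⟨A, hA', rfl⟩
    exact (CoordT_tan h1 A).1 hA'

end Pool.Agent.Lib.MP_640417_ag.Tg
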