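import Pool.Agent.Lib.MP_640417_ag.Tg.SpecY

/-!
# Elements of small rank: constituents of dimension two
-/

set_option autoImplicit false

namespace Pool.Agent.Lib.MP_640417_ag.Tg

open Module Pool.Agent.Lib.MP_640417_ag.Tor

theorem pDimTwo : SDimTwo := by
  intro K V _ _ _ _ L W hW h2
  obtain ⟨hne, hst, hirr⟩ := hW
  have : FiniteDimensional K W := FiniteDimensional.of_finrank_pos (by omega)
  have : Nontrivial W := Module.nontrivial_of_finrank_pos (R := K) (by omega)
  by_cases hsc : ∀ A ∈ L, ∃ c : K, ∀ x ∈ W, A x = c • x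
  · exfalso
    obtain ⟨x, hx, hx0⟩ := (Submodule.ne_bot_iff W).1 hne
    have h1 := hirr (Submodule.span K {x}) (by rwa [Submodule.span_singleton_le_iff_mem]) (by
      intro X hX y hy
      obtain ⟨c, hc⟩ := hsc X hX
      obtain ⟨t, rfl⟩ := Submodule.mem_span_singleton.1 hy
      rw [map_smul, hc x hx]
      exact Submodule.smul_mem _ _ (Submodule.smul_mem _ _ (Submodule.mem_span_singleton_self x)))
    rcases h1 with h1 | h1
    · exact hx0 (Submodule.span_singleton_eq_bot.1 h1)
    · have h3 := finrank_span_singleton (K := K) hx0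
      rw [h1] at h3
      omega
  · push Not at hsc
    obtain ⟨A, hA, hAs⟩ := hsc
    let A' : Module.End K W := A.restrict (fun y hy => hst A hA y hy)
    obtain ⟨a, ha⟩ := Module.End.exists_eigenvalue A'
    refine ⟨A, hA, a, ?_⟩
    let B : Module.End K W := A' - a • (1 : Module.End K W)
    have hB : ∀ x : W, ((B x : W) : V) = A x - a • (x : V) := fun x => rfl
    have hmap : W.map (A - a • (1 : Module.End K V)) = (LinearMap.range B).map W.subtype := by
      ext y
      constructor
      · rintro ⟨x, hx, rfl⟩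
        exact ⟨B ⟨x, hx⟩, ⟨⟨x, hx⟩, rfl⟩, rfl⟩
      · rintro ⟨_, ⟨x, rfl⟩, rfl⟩
        exact ⟨x, x.2, rfl⟩
    rw [hmap, Submodule.finrank_map_subtype_eq]
    have h4 := LinearMap.finrank_range_add_finrank_ker B
    have h5 : 0 < finrank K (LinearMap.ker B) := by
      obtain ⟨v, hv⟩ := ha.exists_hasEigenvector
      rw [Module.finrank_pos_iff]
      refine ⟨⟨v, ?_⟩, 0, ?_⟩
      · rw [LinearMap.mem_ker]
        change A' v - a • v = 0
        rw [hv.apply_eq_smul, sub_self]
      · intro h
        exact hv.2 (congrArg Subtype.val h)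
    have h6 : 0 < finrank K (LinearMap.range B) := by
      rw [Module.finrank_pos_iff]
      obtain ⟨x, hx, hxa⟩ := hAs a
      refine ⟨⟨B ⟨x, hx⟩, ⟨⟨x, hx⟩, rfl⟩⟩, 0, ?_⟩
      intro h
      have h7 : (B ⟨x, hx⟩ : W) = 0 := congrArg Subtype.val h
      have h8 := congrArg Subtype.val h7
      rw [hB] at h8
      exact hxa (sub_eq_zero.1 h8)
    omega

end Pool.Agent.Lib.MP_640417_ag.Tg
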