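import Pool.Agent.Lib.MP_640417_ag.Tg.SpecR
import Pool.Agent.Lib.MP_640417_ag.Tor.Adj

/-!
# Toric places: dual blocks
-/

set_option autoImplicit false

namespace Pool.Agent.Lib.MP_640417_ag.Tg

open Module TensorProduct Pool.Agent.Lib.MP_640417_ag Pool.Agent.Lib.MP_640417_ag.Tor
  Pool.Agent.Lib.MP_640417_ag.Lef Pool.Agent.Lib.MP_640417_ag.Frob
  Pool.Agent.Lib.MP_640417_ag.Glob Pool.Agent.Lib.MP_640417_ag.Ty
  Pool.Agent.Lib.MP_640417_ag.Ctl

theorem pDualE : SDualE := by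
  intro K V _ _ _ _ ψ L C hC N st ε hs r u v huv j k hdual
  obtain ⟨β, ⟨x0, hx0, y0, hy0, hne⟩, hβ⟩ := hdual
  have hcomj : ∀ (i : Fin N), ∀ X ∈ L, ∀ y, ε i (X y) = X (ε i y) := fun i X hX y =>
    LinearMap.congr_fun (hC.com X hX _ (hs.mem i)) y
  have hid : ∀ (i : Fin N), ∀ y, ε i (ε i y) = ε i y := fun i y =>
    LinearMap.congr_fun (hs.idem i) y
  let c : Module.End K V := (Adj_equiv ψ hC.nd).symm.toLinearMap ∘ₗ (ε k).dualMap ∘ₗ β ∘ₗ ε j
  have hc : ∀ x y, ψ (c x) y = β (ε j x) (ε k y) := by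
    intro x y
    have h1 : Adj_equiv ψ hC.nd (c x) = (ε k).dualMap (β (ε j x)) :=
      (Adj_equiv ψ hC.nd).apply_symm_apply _
    rw [Adj_equiv_apply] at h1
    rw [h1]
    rfl
  have hcC : c ∈ C := by
    refine hC.bic c fun X hX => ?_
    obtain ⟨m, hm⟩ := hC.mult X hX
    refine LinearMap.ext fun x => ?_
    rw [← sub_eq_zero]
    refine hC.nd _ fun y => ?_
    rw [map_sub, LinearMap.sub_apply]
    show ψ (c (X x)) y - ψ (X (c x)) y = 0
    have h1 := hm (c x) y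
    have h2 := hβ X hX m hm (ε j x) ⟨x, rfl⟩ (ε k y) ⟨y, rfl⟩
    rw [← hcomj j X hX, ← hcomj k X hX, ← hc, ← hc, ← hc] at h2
    linear_combination h2 - h1
  have hcε : ε (st k) * c * ε j = c := by
    refine LinearMap.ext fun x => ?_
    rw [← sub_eq_zero]
    refine hC.nd _ fun y => ?_
    rw [map_sub, LinearMap.sub_apply]
    show ψ (ε (st k) (c (ε j x))) y - ψ (c x) y = 0
    rw [hs.adj, hs.inv, hc, hc, hid, hid, sub_self]
  have hc0 : c ≠ 0 := by
    intro h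
    apply hne
    obtain ⟨x, rfl⟩ := hx0
    obtain ⟨y, rfl⟩ := hy0
    rw [← hc x y, h]
    simp
  refine ⟨?_, ?_⟩
  · by_contra hcon
    apply hc0
    obtain ⟨t, ht⟩ := huv.one (st k) j c hcC
    rw [hcε] at ht
    rw [ht]
    have h1 : r (st k) ≠ r j := by
      rw [huv.rst]
      exact fun h => hcon h.symm
    have h2 : u (st k) * v j = 0 := by
      rw [← huv.ue (st k), ← huv.ev j, mul_assoc, ← mul_assoc (ε (r (st k))),
        hs.orth _ _ h1, zero_mul, mul_zero]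
    rw [h2, smul_zero]
  · intro hjk
    by_contra hcon
    apply hc0
    rw [← hcε, ← hjk]
    exact hs.far j hcon c hcC

end Pool.Agent.Lib.MP_640417_ag.Tg
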