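import Pool.Agent.Lib.MP_640417_ag.Tg.SpecA
import Pool.Agent.Lib.MP_640417_ag.Tor.PrimTr
import Pool.Agent.Lib.MP_640417_ag.Tor.Adj

/-!
# Extremal elements of a block have rank one
-/

namespace Pool.Agent.Lib.MP_640417_ag.Tg

open Module Pool.Agent.Lib.MP_640417_ag.Tor

section Ext

variable {K V : Type} [Field K] [AddCommGroup V] [Module K V]

lemma Ext_rk_one {e : Module.End K V} {v : V} (he : e ≠ 0) (h : ∀ x, ∃ c : K, e x = c • v) :
    rk e = 1 := by
  obtain ⟨y, hy⟩ : ∃ y, e y ≠ 0 := by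
    by_contra hne
    push Not at hne
    exact he (LinearMap.ext hne)
  have hv : v ≠ 0 := by
    rintro rfl
    obtain ⟨c, hc⟩ := h y
    rw [smul_zero] at hc
    exact hy hc
  have h1 : LinearMap.range e = K ∙ v := by
    apply le_antisymm
    · rintro _ ⟨x, rfl⟩
      obtain ⟨c, hc⟩ := h x
      rw [hc]
      exact Submodule.smul_mem _ _ (Submodule.mem_span_singleton_self v)
    · rw [Submodule.span_singleton_le_iff_mem]
      obtain ⟨c, hc⟩ := h y
      have hc0 : c ≠ 0 := by
        rintro rfl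
        rw [zero_smul] at hc
        exact hy hc
      refine ⟨c⁻¹ • y, ?_⟩
      rw [map_smul, hc, smul_smul, inv_mul_cancel₀ hc0, one_smul]
  rw [rk, h1]
  exact finrank_span_singleton hv

lemma Ext_fun {y : V} (hy : y ≠ 0) : ∃ ξ : Module.Dual K V, ξ y = 1 := by
  obtain ⟨ξ, hξ⟩ : ∃ ξ : Module.Dual K V, ξ y ≠ 0 := by
    by_contra hne
    push Not at hne
    exact hy ((Module.forall_dual_apply_eq_zero_iff K y).1 hne)
  exact ⟨(ξ y)⁻¹ • ξ, by rw [LinearMap.smul_apply, smul_eq_mul, inv_mul_cancel₀ hξ]⟩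

/-- The part without a form: all operators on the block. -/
lemma Ext_gl [IsAlgClosed K] [CharZero K] [FiniteDimensional K V] {p e : Module.End K V}
    (hpp : p * p = p) (htwo : 2 ≤ rk p) (hpe : p * e * p = e) (htr : tr e = 0) (he : e ≠ 0)
    (H : ∀ X : Module.End K V, p * X * p = X → tr X = 0 →
      ∃ c : K, e * (e * X - X * e) - (e * X - X * e) * e = c • e) : e * e = 0 ∧ rk e = 1 := by
  have hp : p * e = e := by rw [← hpe, ← mul_assoc, ← mul_assoc, hpp]
  have hp' : e * p = e := by rw [← hpe, mul_assoc, hpp]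
  have hpa : ∀ y, p (e y) = e y := fun y => LinearMap.congr_fun hp y
  have hpa' : ∀ y, e (p y) = e y := fun y => LinearMap.congr_fun hp' y
  have hppa : ∀ y, p (p y) = p y := fun y => LinearMap.congr_fun hpp y
  have htp : tr p ≠ 0 := by
    rw [tr_idem hpp]
    exact Nat.cast_ne_zero.2 (by omega)
  -- all operators
  have HH : ∀ X : Module.End K V, p * X * p = X →
      ∃ c : K, e * (e * X - X * e) - (e * X - X * e) * e = c • e := by
    intro X hX
    obtain ⟨c, hc⟩ := H (X - (tr X / tr p) • p) (by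
      rw [mul_sub, sub_mul, hX, mul_smul_comm, smul_mul_assoc, hpp, hpp]) (by
      unfold tr at *
      rw [map_sub, map_smul, smul_eq_mul, div_mul_cancel₀ _ htp, sub_self])
    refine ⟨c, ?_⟩
    rw [← hc]
    have h1 : e * (X - (tr X / tr p) • p) - (X - (tr X / tr p) • p) * e = e * X - X * e := by
      rw [mul_sub, sub_mul, mul_smul_comm, smul_mul_assoc, hp, hp']
      abel
    rw [h1]
  -- the third bracket vanishes
  have H3 : ∀ X : Module.End K V, p * X * p = X →
      e * e * e * X - (3 : K) • (e * e * X * e) + (3 : K) • (e * X * (e * e)) -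
        X * (e * e * e) = 0 := by
    intro X hX
    obtain ⟨c, hc⟩ := HH X hX
    have h1 : e * (e * (e * X - X * e) - (e * X - X * e) * e) -
        (e * (e * X - X * e) - (e * X - X * e) * e) * e = 0 := by
      rw [hc, mul_smul_comm, smul_mul_assoc, sub_self]
    rw [← h1]
    have h3 : (3 : K) = 1 + 1 + 1 := by norm_num
    rw [h3, add_smul, add_smul, one_smul, add_smul, add_smul, one_smul]
    noncomm_ring
  have hcomp : ∀ (u : V) (ξ : Module.Dual K V), p * ((ξ ∘ₗ p).smulRight (p u)) * p =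
      ((ξ ∘ₗ p).smulRight (p u) : Module.End K V) := by
    intro u ξ
    ext x
    rw [Module.End.mul_apply, Module.End.mul_apply, LinearMap.smulRight_apply,
      LinearMap.smulRight_apply, map_smul, LinearMap.comp_apply, LinearMap.comp_apply, hppa, hppa]
  -- an eigenvector
  have hstab : ∀ y ∈ LinearMap.range p, e y ∈ LinearMap.range p := fun y _ => ⟨e y, hpa y⟩
  have hnt : Nontrivial (LinearMap.range p) :=
    Module.nontrivial_of_finrank_pos (R := K) (lt_of_lt_of_le (by norm_num) htwo)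
  obtain ⟨c, hc⟩ := Module.End.exists_eigenvalue (e.restrict hstab)
  obtain ⟨⟨u, hu⟩, huc⟩ := hc.exists_hasEigenvector
  have hu0 : u ≠ 0 := fun h => huc.2 (Subtype.ext h)
  have hue : e u = c • u := congrArg Subtype.val (Module.End.HasEigenvector.apply_eq_smul huc)
  have hup : p u = u := by
    obtain ⟨y, rfl⟩ := hu
    exact hppa y
  have hcube : e * e * e = (3 * c) • (e * e) - (3 * c ^ 2) • e + c ^ 3 • p := by
    ext y
    by_contra hne
    rw [← ne_eq, ← sub_ne_zero] at hne
    obtain ⟨ξ, hξ⟩ := Ext_fun (K := K) hne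
    have h1 := LinearMap.congr_fun (H3 _ (hcomp u ξ)) y
    simp only [LinearMap.sub_apply, LinearMap.add_apply, LinearMap.smul_apply,
      Module.End.mul_apply, LinearMap.smulRight_apply, LinearMap.comp_apply, map_smul, hup, hue,
      hpa, LinearMap.zero_apply, smul_smul] at h1
    simp only [LinearMap.sub_apply, LinearMap.add_apply, LinearMap.smul_apply,
      Module.End.mul_apply, map_sub, map_add, map_smul, smul_eq_mul] at hξ
    have h2 : (ξ (p y) * (c * (c * c)) - 3 * (ξ (e y) * (c * c)) + 3 * (ξ (e (e y)) * c) -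
        ξ (e (e (e y)))) • u = 0 := by
      rw [← h1]
      module
    have h3 := (smul_eq_zero.1 h2).resolve_right hu0
    apply one_ne_zero (α := K)
    rw [← hξ]
    linear_combination -h3
  have hq2 : (e - c • p) * (e - c • p) = e * e - (2 * c) • e + c ^ 2 • p := by
    rw [mul_sub, sub_mul, sub_mul, mul_smul_comm, smul_mul_assoc, smul_mul_assoc, mul_smul_comm,
      hp, hp', hpp]
    module
  have hq3 : (e - c • p) ^ 3 = 0 := by
    rw [pow_succ, pow_two, hq2, mul_sub, add_mul, sub_mul, smul_mul_assoc, smul_mul_assoc, hp,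
      mul_smul_comm, add_mul, sub_mul, smul_mul_assoc, smul_mul_assoc, hp', hpp, mul_assoc e e p,
      hp', hcube]
    module
  have hc0 : c = 0 := by
    have h1 := (LinearMap.isNilpotent_trace_of_isNilpotent ⟨3, hq3⟩).eq_zero
    rw [map_sub, map_smul, smul_eq_mul] at h1
    change tr e - c * tr p = 0 at h1
    rw [htr, zero_sub, neg_eq_zero] at h1
    exact (mul_eq_zero.1 h1).resolve_right htp
  rw [hc0] at hcube
  have h30 : e * e * e = 0 := by
    rw [hcube]
    module
  -- the square vanishes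
  have h20 : e * e = 0 := by
    by_contra hne
    obtain ⟨y, hy⟩ : ∃ y, (e * e) y ≠ 0 := by
      by_contra hne'
      push Not at hne'
      exact hne (LinearMap.ext hne')
    obtain ⟨ξ, hξ⟩ := Ext_fun (K := K) hy
    have h1 := H3 _ (hcomp y ξ)
    rw [h30, zero_mul, mul_zero, sub_zero, zero_sub] at h1
    have h2 := congrArg (fun Z => e * Z) h1
    have h3 : e * (-((3 : K) • (e * e * ((ξ ∘ₗ p).smulRight (p y) : Module.End K V) * e)) +
        (3 : K) • (e * ((ξ ∘ₗ p).smulRight (p y) : Module.End K V) * (e * e))) =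
        (3 : K) • (e * e * ((ξ ∘ₗ p).smulRight (p y) : Module.End K V) * (e * e)) := by
      have h4 : e * (-((3 : K) • (e * e * ((ξ ∘ₗ p).smulRight (p y) : Module.End K V) * e)) +
        (3 : K) • (e * ((ξ ∘ₗ p).smulRight (p y) : Module.End K V) * (e * e))) =
        -((3 : K) • (e * e * e * ((ξ ∘ₗ p).smulRight (p y) : Module.End K V) * e)) +
        (3 : K) • (e * e * ((ξ ∘ₗ p).smulRight (p y) : Module.End K V) * (e * e)) := by
        rw [mul_add, mul_neg, mul_smul_comm, mul_smul_comm]
        simp only [mul_assoc]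
      rw [h4, h30, zero_mul, zero_mul, smul_zero, neg_zero, zero_add]
    rw [mul_zero, h3] at h2
    have h5 := (smul_eq_zero.1 h2).resolve_left three_ne_zero
    have h6 := LinearMap.congr_fun h5 y
    simp only [Module.End.mul_apply, LinearMap.smulRight_apply, LinearMap.comp_apply, map_smul,
      hpa, hpa', LinearMap.zero_apply] at h6
    rw [Module.End.mul_apply] at hξ hy
    rw [hξ, one_smul] at h6
    exact hy h6
  refine ⟨h20, ?_⟩
  obtain ⟨y, hy⟩ : ∃ y, e y ≠ 0 := by
    by_contra hne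
    push Not at hne
    exact he (LinearMap.ext hne)
  obtain ⟨ξ, hξ⟩ := Ext_fun (K := K) hy
  refine Ext_rk_one (v := e y) he ?_
  intro x
  obtain ⟨d, hd⟩ := HH _ (hcomp x ξ)
  rw [sandwich_eq h20] at hd
  have h1 := LinearMap.congr_fun hd y
  simp only [LinearMap.smul_apply, Module.End.mul_apply, LinearMap.smulRight_apply,
    LinearMap.comp_apply, hpa, hpa', hξ, one_smul] at h1
  refine ⟨(-(2 : K))⁻¹ * d, ?_⟩
  rw [mul_smul, ← h1, smul_smul, inv_mul_cancel₀ (neg_ne_zero.2 two_ne_zero), one_smul]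

end Ext

/-- **Extremal elements have rank one.** -/
theorem pExt : SExt := by
  intro K V _ _ _ _ _ _ ψ p t hb e he he0 H
  by_cases ht : t
  · have hes : e ∈ spb ψ p := ⟨he.2.2 ht, he.1⟩
    have H' : ∀ X ∈ spb ψ p, ∃ c : K, e * (e * X - X * e) - (e * X - X * e) * e = c • e := by
      intro X hX
      exact H X ⟨hX.2, tr_skew ψ hb.nd hX.1, fun _ => hX.1⟩
    have h20 := GouB_sq hb.anti hb.nd hb.pp (hb.adj ht) hes H'
    refine ⟨h20, ?_⟩
    obtain ⟨v, s, hvs⟩ := GouB_form hb.anti hb.nd hb.pp (hb.adj ht) hes he0 (by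
      intro X hX
      obtain ⟨c, hc⟩ := H' X hX
      rw [sandwich_eq h20] at hc
      refine ⟨(-(2 : K))⁻¹ * c, ?_⟩
      rw [mul_smul, ← hc, smul_smul, inv_mul_cancel₀ (neg_ne_zero.2 two_ne_zero), one_smul])
    refine Ext_rk_one (v := v) he0 ?_
    intro x
    refine ⟨s * (ψ v x + ψ v x), ?_⟩
    rw [hvs, LinearMap.smul_apply, RankOne_T_apply, ← add_smul, smul_smul]
  · refine Ext_gl hb.pp hb.two he.1 he.2.1 he0 ?_
    intro X hX hX'
    exact H X ⟨hX, hX', fun h => absurd h ht⟩

end Pool.Agent.Lib.MP_640417_ag.Tg
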