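import Pool.Agent.Lib.MP_640417_ag.Tg.SpecA
import Pool.Agent.Lib.MP_640417_ag.Tor.Grade
import Pool.Agent.Lib.MP_640417_ag.Tor.Stab

/-!
# Toric places, no factors of type III: frames
-/

namespace Pool.Agent.Lib.MP_640417_ag.Tg

open Module Pool.Agent.Lib.MP_640417_ag.Tor

variable {K U : Type} [Field K] [AddCommGroup U] [Module K U]

/-- An operator of rank one is a tensor. -/
lemma Frame_rk {e : Module.End K U} (h : rk e = 1) :
    ∃ (v : U) (φ : Module.Dual K U), v ≠ 0 ∧ (∃ u, φ u ≠ 0) ∧ ∀ u, e u = φ u • v := by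
  unfold rk at h
  obtain ⟨⟨v, u0, hu0⟩, hv0, hv⟩ := finrank_eq_one_iff'.mp h
  have hv1 : v ≠ 0 := fun h0 => hv0 (Subtype.ext h0)
  obtain ⟨α, hα⟩ : ∃ α : Module.Dual K U, α v ≠ 0 := by
    by_contra hcon
    push Not at hcon
    exact hv1 ((Module.forall_dual_apply_eq_zero_iff K v).mp hcon)
  have key : ∀ u, e u = ((α v)⁻¹ * α (e u)) • v := by
    intro u
    obtain ⟨c, hc⟩ := hv ⟨e u, u, rfl⟩
    have hc' : c • v = e u := congrArg Subtype.val hc
    rw [← hc', map_smul, smul_eq_mul]
    congr 1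
    field_simp
  refine ⟨v, (α v)⁻¹ • (α.comp e), hv1, ⟨u0, ?_⟩, ?_⟩
  · rw [LinearMap.smul_apply, LinearMap.comp_apply, hu0, smul_eq_mul, inv_mul_cancel₀ hα]
    exact one_ne_zero
  · intro u
    rw [LinearMap.smul_apply, LinearMap.comp_apply, smul_eq_mul]
    exact key u

/-- The first half of a frame. -/
structure Frame0 (g : Submodule K (Module.End K U)) (e f : Module.End K U) (v w : U)
    (φ χ : Module.Dual K U) : Prop where
  sl : Sl g e f
  lie : Lie g
  e_eq : ∀ u, e u = φ u • v
  f_eq : ∀ u, f u = χ u • w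
  fv : φ v = 0
  cw : χ w = 0
  fw : φ w = 1
  cv : χ v = 1

lemma Frame_ex {g : Submodule K (Module.End K U)} {e f : Module.End K U} (hl : Lie g)
    (hS : Sl g e f) (h : rk e = 1) : ∃ v w φ χ, Frame0 g e f v w φ χ := by
  obtain ⟨v, φ, hv, ⟨u0, hu0⟩, he⟩ := Frame_rk h
  have hw : φ (f v) = 1 := by
    have h1 := congrArg (fun X : Module.End K U => X u0) hS.efe
    simp only [Module.End.mul_apply] at h1
    rw [he u0, map_smul, map_smul, he (f v)] at h1
    have h2 : (φ u0) • ((φ (f v) - 1) • v) = 0 := by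
      rw [sub_smul, one_smul, smul_sub, h1, sub_self]
    have h3 := ((smul_eq_zero.mp h2).resolve_left hu0)
    exact sub_eq_zero.mp ((smul_eq_zero.mp h3).resolve_right hv)
  have hf : ∀ u, f u = φ (f u) • f v := by
    intro u
    have h1 := congrArg (fun X : Module.End K U => X u) hS.fef
    simp only [Module.End.mul_apply] at h1
    rw [he (f u), map_smul] at h1
    exact h1.symm
  refine ⟨v, f v, φ, φ.comp f, hS, hl, he, hf, ?_, ?_, hw, hw⟩
  · have h1 := congrArg (fun X : Module.End K U => X (f v)) hS.ee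
    simp only [Module.End.mul_apply, LinearMap.zero_apply] at h1
    rw [he (f v), hw, one_smul, he v] at h1
    exact (smul_eq_zero.mp h1).resolve_right hv
  · rw [LinearMap.comp_apply, ← Module.End.mul_apply f f, hS.ff, LinearMap.zero_apply, map_zero]

section

variable {g : Submodule K (Module.End K U)} {e f : Module.End K U} {v w : U}
  {φ χ : Module.Dual K U}

lemma Frame0.v0 (F : Frame0 g e f v w φ χ) : v ≠ 0 := by
  rintro rfl
  have := F.cv
  rw [map_zero] at this
  exact zero_ne_one this

lemma Frame0.w0 (F : Frame0 g e f v w φ χ) : w ≠ 0 := by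
  rintro rfl
  have := F.fw
  rw [map_zero] at this
  exact zero_ne_one this

lemma Frame0.p_eq (F : Frame0 g e f v w φ χ) (u : U) : (e * f) u = χ u • v := by
  rw [Module.End.mul_apply, F.f_eq, map_smul, F.e_eq, F.fw, one_smul]

lemma Frame0.q_eq (F : Frame0 g e f v w φ χ) (u : U) : (f * e) u = φ u • w := by
  rw [Module.End.mul_apply, F.e_eq, map_smul, F.f_eq, F.cv, one_smul]

variable [CharZero K]

lemma Frame0.form (F : Frame0 g e f v w φ χ) {x : Module.End K U} (hx : x ∈ G1 g e f) (u : U) :
    x u = φ u • x w + χ (x u) • v := by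
  have h1 := congrArg (fun X : Module.End K U => X u) (G1.eq F.sl hx)
  rw [LinearMap.add_apply, Module.End.mul_apply x, Module.End.mul_apply (e * f), F.q_eq, F.p_eq,
    map_smul] at h1
  exact h1

lemma Frame0.phix (F : Frame0 g e f v w φ χ) {x : Module.End K U} (hx : x ∈ G1 g e f) (u : U) :
    φ (x u) = 0 := by
  have h1 := congrArg (fun X : Module.End K U => X u) (G1.ex F.sl hx)
  simp only [Module.End.mul_apply, LinearMap.zero_apply] at h1
  rw [F.e_eq] at h1
  exact (smul_eq_zero.mp h1).resolve_right F.v0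

lemma Frame0.xv (F : Frame0 g e f v w φ χ) {x : Module.End K U} (hx : x ∈ G1 g e f) :
    x v = 0 := by
  have h1 := congrArg (fun X : Module.End K U => X w) (G1.xe F.sl hx)
  simp only [Module.End.mul_apply, LinearMap.zero_apply] at h1
  rwa [F.e_eq, F.fw, one_smul] at h1

lemma Frame0.chix (F : Frame0 g e f v w φ χ) {x : Module.End K U} (hx : x ∈ G1 g e f) :
    χ (x w) = 0 := by
  have h1 := congrArg (fun X : Module.End K U => X w) (G1.pxq F.sl hx)
  rw [Module.End.mul_apply, F.q_eq, F.fw, one_smul, Module.End.mul_apply, F.p_eq,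
    LinearMap.zero_apply] at h1
  exact (smul_eq_zero.mp h1).resolve_right F.v0

/-- Action of an element of degree one on the centre. -/
lemma Frame0.xz (F : Frame0 g e f v w φ χ) {x : Module.End K U} (hx : x ∈ G1 g e f) {u : U}
    (hu : φ u = 0) : x u = χ (x u) • v := by
  rw [F.form hx, hu, zero_smul, zero_add, map_smul, F.cv, smul_eq_mul, mul_one]

end

section deg0

variable {g : Submodule K (Module.End K U)} {e f : Module.End K U} {v w : U}
  {φ χ : Module.Dual K U}

/-- An operator of degree zero: it commutes with `p` and `q`. -/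
structure Frame_Z (g : Submodule K (Module.End K U)) (e f X : Module.End K U) : Prop where
  mem : X ∈ g
  p : X * (e * f) = (e * f) * X
  q : X * (f * e) = (f * e) * X

lemma Frame_Z.bracket (hl : Lie g) {X x : Module.End K U} (hX : Frame_Z g e f X)
    (hx : x ∈ G1 g e f) : X * x - x * X ∈ G1 g e f := by
  refine ⟨hl X hX.mem x hx.1, ?_⟩
  have h1 := hx.2
  have h2 : (e * f - f * e) * (X * x - x * X) - (X * x - x * X) * (e * f - f * e) =
      X * ((e * f - f * e) * x - x * (e * f - f * e))
        - ((e * f - f * e) * x - x * (e * f - f * e)) * X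
        - (X * (e * f) - (e * f) * X) * x + (X * (f * e) - (f * e) * X) * x
        + x * (X * (e * f) - (e * f) * X) - x * (X * (f * e) - (f * e) * X) := by noncomm_ring
  rw [h2, h1, hX.p, hX.q, sub_self, sub_self, zero_mul, mul_zero]
  abel

lemma Frame_Z.Xv (F : Frame0 g e f v w φ χ) {X : Module.End K U} (hX : Frame_Z g e f X) :
    X v = χ (X v) • v := by
  have h1 := congrArg (fun Y : Module.End K U => Y v) hX.p
  rw [Module.End.mul_apply, F.p_eq, F.cv, one_smul, Module.End.mul_apply, F.p_eq] at h1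
  exact h1

lemma Frame_Z.Xw (F : Frame0 g e f v w φ χ) {X : Module.End K U} (hX : Frame_Z g e f X) :
    X w = φ (X w) • w := by
  have h1 := congrArg (fun Y : Module.End K U => Y w) hX.q
  rw [Module.End.mul_apply, F.q_eq, F.fw, one_smul, Module.End.mul_apply, F.q_eq] at h1
  exact h1

lemma Frame_Z.phi (F : Frame0 g e f v w φ χ) {X : Module.End K U} (hX : Frame_Z g e f X) {u : U}
    (hu : φ u = 0) : φ (X u) = 0 := by
  have h1 := congrArg (fun Y : Module.End K U => Y u) hX.q
  rw [Module.End.mul_apply, F.q_eq, hu, zero_smul, map_zero, Module.End.mul_apply, F.q_eq] at h1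
  exact (smul_eq_zero.mp h1.symm).resolve_right F.w0

lemma Frame_Z.chi (F : Frame0 g e f v w φ χ) {X : Module.End K U} (hX : Frame_Z g e f X) {u : U}
    (hu : χ u = 0) : χ (X u) = 0 := by
  have h1 := congrArg (fun Y : Module.End K U => Y u) hX.p
  rw [Module.End.mul_apply, F.p_eq, hu, zero_smul, map_zero, Module.End.mul_apply, F.p_eq] at h1
  exact (smul_eq_zero.mp h1.symm).resolve_right F.v0

/-- The component of degree zero. -/
lemma Frame_Z.mk' (hS : Sl g e f) {X : Module.End K U}
    (h : (e * f) * X * (e * f) + (1 - e * f - f * e) * X * (1 - e * f - f * e) +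
      (f * e) * X * (f * e) ∈ g) :
    Frame_Z g e f ((e * f) * X * (e * f) + (1 - e * f - f * e) * X * (1 - e * f - f * e) +
      (f * e) * X * (f * e)) := by
  have zp : (1 - e * f - f * e) * (e * f) = 0 := by
    rw [sub_mul, sub_mul, hS.pp, hS.qp, one_mul, sub_self, sub_zero]
  have pz : (e * f) * (1 - e * f - f * e) = 0 := by
    rw [mul_sub, mul_sub, hS.pp, hS.pq, mul_one, sub_self, sub_zero]
  have zq : (1 - e * f - f * e) * (f * e) = 0 := by
    rw [sub_mul, sub_mul, hS.pq, hS.qq, one_mul, sub_zero, sub_self]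
  have qz : (f * e) * (1 - e * f - f * e) = 0 := by
    rw [mul_sub, mul_sub, hS.qp, hS.qq, mul_one, sub_zero, sub_self]
  refine ⟨h, ?_, ?_⟩
  · have h1 : ((e * f) * X * (e * f) + (1 - e * f - f * e) * X * (1 - e * f - f * e) +
        (f * e) * X * (f * e)) * (e * f) = (e * f) * X * ((e * f) * (e * f)) +
        (1 - e * f - f * e) * X * ((1 - e * f - f * e) * (e * f)) +
        (f * e) * X * ((f * e) * (e * f)) := by
      rw [add_mul, add_mul, mul_assoc (e * f * X), mul_assoc ((1 - e * f - f * e) * X),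
        mul_assoc (f * e * X)]
    have h2 : (e * f) * ((e * f) * X * (e * f) + (1 - e * f - f * e) * X * (1 - e * f - f * e) +
        (f * e) * X * (f * e)) = ((e * f) * (e * f)) * X * (e * f) +
        ((e * f) * (1 - e * f - f * e)) * X * (1 - e * f - f * e) +
        ((e * f) * (f * e)) * X * (f * e) := by
      rw [mul_add, mul_add]
      simp only [mul_assoc]
    rw [h1, h2, hS.pp, zp, pz, hS.qp, hS.pq]
    simp only [mul_zero, zero_mul, add_zero]
  · have h1 : ((e * f) * X * (e * f) + (1 - e * f - f * e) * X * (1 - e * f - f * e) +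
        (f * e) * X * (f * e)) * (f * e) = (e * f) * X * ((e * f) * (f * e)) +
        (1 - e * f - f * e) * X * ((1 - e * f - f * e) * (f * e)) +
        (f * e) * X * ((f * e) * (f * e)) := by
      rw [add_mul, add_mul, mul_assoc (e * f * X), mul_assoc ((1 - e * f - f * e) * X),
        mul_assoc (f * e * X)]
    have h2 : (f * e) * ((e * f) * X * (e * f) + (1 - e * f - f * e) * X * (1 - e * f - f * e) +
        (f * e) * X * (f * e)) = ((f * e) * (e * f)) * X * (e * f) +
        ((f * e) * (1 - e * f - f * e)) * X * (1 - e * f - f * e) +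
        ((f * e) * (f * e)) * X * (f * e) := by
      rw [mul_add, mul_add]
      simp only [mul_assoc]
    rw [h1, h2, hS.qq, zq, qz, hS.qp, hS.pq]
    simp only [mul_zero, zero_mul, zero_add]

end deg0

section main

variable [CharZero K] [FiniteDimensional K U] {g : Submodule K (Module.End K U)}
  {e f : Module.End K U} {v w : U} {φ χ : Module.Dual K U}

/-- Operators of `g` stabilize a subspace if those of pure degree do. -/
lemma Frame_stab (F : Frame0 g e f v w φ χ) (T : Submodule K U)
    (h1 : ∀ u ∈ T, φ u • v ∈ T) (h2 : ∀ u ∈ T, χ u • w ∈ T)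
    (h3 : ∀ x ∈ G1 g e f, ∀ u ∈ T, x u ∈ T) (h4 : ∀ X, Frame_Z g e f X → ∀ u ∈ T, X u ∈ T) :
    ∀ X ∈ g, ∀ u ∈ T, X u ∈ T := by
  intro X hX u hu
  obtain ⟨-, -, m1, n1, m0⟩ := pGrade K U g F.lie e f F.sl X hX
  have hsum : X = (e * f) * X * (f * e) +
      ((e * f) * X * (1 - e * f - f * e) + (1 - e * f - f * e) * X * (f * e)) +
      ((e * f) * X * (e * f) + (1 - e * f - f * e) * X * (1 - e * f - f * e) +
        (f * e) * X * (f * e)) +
      ((1 - e * f - f * e) * X * (e * f) + (f * e) * X * (1 - e * f - f * e)) +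
      (f * e) * X * (e * f) := by
    generalize e * f = p
    generalize f * e = q
    noncomm_ring
  have t1 : ((e * f) * X * (f * e)) u ∈ T := by
    rw [Module.End.mul_apply, Module.End.mul_apply, F.q_eq, map_smul, map_smul, F.p_eq,
      smul_comm]
    exact T.smul_mem _ (h1 u hu)
  have t5 : ((f * e) * X * (e * f)) u ∈ T := by
    rw [Module.End.mul_apply, Module.End.mul_apply, F.p_eq, map_smul, map_smul, F.q_eq,
      smul_comm]
    exact T.smul_mem _ (h2 u hu)
  have t3 := h4 _ (Frame_Z.mk' F.sl m0) u hu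
  have t2 := h3 _ m1 u hu
  have t4 : ((1 - e * f - f * e) * X * (e * f) + (f * e) * X * (1 - e * f - f * e)) u ∈ T := by
    have hb := bracket_e_mem F.lie F.sl n1
    have he := G1.bracket_f F.sl n1
    generalize (1 - e * f - f * e) * X * (e * f) + (f * e) * X * (1 - e * f - f * e) = y
      at hb he ⊢
    generalize e * y - y * e = x' at hb he
    rw [he, LinearMap.sub_apply, Module.End.mul_apply, Module.End.mul_apply]
    refine T.sub_mem ?_ ?_
    · rw [F.f_eq]
      exact h2 _ (h3 _ hb u hu)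
    · refine h3 _ hb _ ?_
      rw [F.f_eq]
      exact h2 u hu
  rw [hsum, LinearMap.add_apply, LinearMap.add_apply, LinearMap.add_apply, LinearMap.add_apply]
  exact T.add_mem (T.add_mem (T.add_mem (T.add_mem t1 t2) t3) t4) t5

/-- The middle component. -/
def Frame_zeta (v w : U) (φ χ : Module.Dual K U) : Module.End K U :=
  LinearMap.id - χ.smulRight v - φ.smulRight w

omit [CharZero K] [FiniteDimensional K U] in
lemma Frame_zeta_apply (v w : U) (φ χ : Module.Dual K U) (u : U) :
    Frame_zeta v w φ χ u = u - χ u • v - φ u • w := rfl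

lemma Frame_surj (F : Frame0 g e f v w φ χ) (hI : Irr g ⊤) {u : U} (hf : φ u = 0)
    (hc : χ u = 0) : ∃ x ∈ G1 g e f, x w = u := by
  set T : Submodule K U := ((G1 g e f).map (LinearMap.applyₗ w)).comap (Frame_zeta v w φ χ) with hT
  have memT : ∀ u, u ∈ T ↔ ∃ x ∈ G1 g e f, x w = u - χ u • v - φ u • w := by
    intro u
    rw [hT, Submodule.mem_comap, Submodule.mem_map, Frame_zeta_apply]
    rfl
  have hvT : v ∈ T := (memT v).mpr ⟨0, zero_mem _, by
    rw [LinearMap.zero_apply, F.cv, F.fv, one_smul, zero_smul, sub_self, sub_zero]⟩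
  have hwT : w ∈ T := (memT w).mpr ⟨0, zero_mem _, by
    rw [LinearMap.zero_apply, F.cw, F.fw, one_smul, zero_smul, sub_zero, sub_self]⟩
  have hxT : ∀ x ∈ G1 g e f, x w ∈ T := fun x hx => (memT _).mpr ⟨x, hx, by
    rw [F.chix hx, F.phix hx, zero_smul, zero_smul, sub_zero, sub_zero]⟩
  have hdec : ∀ X : Module.End K U, X v ∈ T → X w ∈ T → (∀ x ∈ G1 g e f, X (x w) ∈ T) →
      ∀ u ∈ T, X u ∈ T := by
    intro X h1 h2 h3 u hu
    obtain ⟨x, hx, hxu⟩ := (memT u).mp hu
    have h4 : u = χ u • v + φ u • w + x w := by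
      rw [hxu]
      abel
    rw [h4, map_add, map_add, map_smul, map_smul]
    exact T.add_mem (T.add_mem (T.smul_mem _ h1) (T.smul_mem _ h2)) (h3 x hx)
  have hst := Frame_stab F T (fun u _ => T.smul_mem _ hvT) (fun u _ => T.smul_mem _ hwT)
    (fun x hx u _ => by
      rw [F.form hx u]
      exact T.add_mem (T.smul_mem _ (hxT x hx)) (T.smul_mem _ hvT))
    (fun X hX => hdec X (by rw [hX.Xv F]; exact T.smul_mem _ hvT)
      (by rw [hX.Xw F]; exact T.smul_mem _ hwT) (fun x hx => by
        have h1 : X (x w) = (X * x - x * X) w + φ (X w) • x w := by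
          have h2 : x (X w) = φ (X w) • x w := by
            conv_lhs => rw [hX.Xw F, map_smul]
          rw [LinearMap.sub_apply, Module.End.mul_apply, Module.End.mul_apply, h2]
          abel
        rw [h1]
        exact T.add_mem (hxT _ (hX.bracket F.lie hx)) (T.smul_mem _ (hxT x hx))))
  rcases hI T le_top hst with h | h
  · rw [h, Submodule.mem_bot] at hwT
    exact absurd hwT F.w0
  · have hu : u ∈ T := by rw [h]; exact Submodule.mem_top
    obtain ⟨x, hx, hxu⟩ := (memT u).mp hu
    refine ⟨x, hx, ?_⟩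
    rw [hxu, hf, hc, zero_smul, zero_smul, sub_zero, sub_zero]

lemma Frame_inj (F : Frame0 g e f v w φ χ) (hI : Irr g ⊤) {u : U} (hf : φ u = 0)
    (hc : χ u = 0) (hu : u ≠ 0) : ∃ x ∈ G1 g e f, χ (x u) ≠ 0 := by
  by_contra hcon
  push Not at hcon
  let N : Submodule K U :=
    { carrier := {u | φ u = 0 ∧ χ u = 0 ∧ ∀ x ∈ G1 g e f, χ (x u) = 0}
      add_mem' := by
        rintro a b ⟨h1, h2, h3⟩ ⟨h4, h5, h6⟩
        refine ⟨by rw [map_add, h1, h4, add_zero], by rw [map_add, h2, h5, add_zero],
          fun x hx => ?_⟩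
        rw [map_add, map_add, h3 x hx, h6 x hx, add_zero]
      zero_mem' := ⟨map_zero _, map_zero _, fun x _ => by rw [map_zero, map_zero]⟩
      smul_mem' := by
        rintro c a ⟨h1, h2, h3⟩
        refine ⟨by rw [map_smul, h1, smul_zero], by rw [map_smul, h2, smul_zero],
          fun x hx => ?_⟩
        rw [map_smul, map_smul, h3 x hx, smul_zero] }
  have hk : ∀ x ∈ G1 g e f, ∀ u ∈ N, x u = 0 := by
    rintro x hx u ⟨h1, h2, h3⟩
    rw [F.xz hx h1, h3 x hx, zero_smul]
  have hst := Frame_stab F N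
    (by
      rintro u ⟨h1, h2, h3⟩
      rw [h1, zero_smul]
      exact N.zero_mem)
    (by
      rintro u ⟨h1, h2, h3⟩
      rw [h2, zero_smul]
      exact N.zero_mem)
    (by
      intro x hx u hu
      rw [hk x hx u hu]
      exact N.zero_mem)
    (by
      intro X hX u hu
      refine ⟨hX.phi F hu.1, hX.chi F hu.2.1, fun x hx => ?_⟩
      have h1 : x (X u) = X (x u) - (X * x - x * X) u := by
        rw [LinearMap.sub_apply, Module.End.mul_apply, Module.End.mul_apply]
        abel
      rw [h1, hk x hx u hu, hk _ (hX.bracket F.lie hx) u hu, map_zero, sub_zero, map_zero])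
  rcases hI N le_top hst with h | h
  · have h1 : u ∈ N := ⟨hf, hc, hcon⟩
    rw [h, Submodule.mem_bot] at h1
    exact hu h1
  · have h1 : v ∈ N := by rw [h]; exact Submodule.mem_top
    have h2 := h1.2.1
    rw [F.cv] at h2
    exact one_ne_zero h2

end main

section trip

variable [CharZero K] {g : Submodule K (Module.End K U)}
  {e f : Module.End K U} {v w : U} {φ χ : Module.Dual K U}

omit [CharZero K] in
/-- The commutator with `H` is a derivation. -/
lemma Frame_der {H A B A' B' : Module.End K U} (hA : H * A - A * H = A')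
    (hB : H * B - B * H = B') :
    H * (A * B - B * A) - (A * B - B * A) * H = (A' * B - B * A') + (A * B' - B' * A) := by
  rw [← hA, ← hB]
  noncomm_ring

omit [CharZero K] in
lemma Frame_mem (F : Frame0 g e f v w φ χ) {x y z : Module.End K U} (hx : x ∈ G1 g e f)
    (hy : y ∈ G1 g e f) (hz : z ∈ G1 g e f) :
    (x * (f * y - y * f) - (f * y - y * f) * x) * z -
      z * (x * (f * y - y * f) - (f * y - y * f) * x) ∈ G1 g e f := by
  refine ⟨F.lie _ (F.lie _ hx.1 _ (F.lie _ F.sl.mf _ hy.1)) _ hz.1, ?_⟩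
  have d1 := Frame_der F.sl.hf hy.2
  have d2 : (e * f - f * e) * (f * y - y * f) - (f * y - y * f) * (e * f - f * e) =
      -(f * y - y * f) := by
    rw [d1, smul_mul_assoc, mul_smul_comm]
    module
  have d3 := Frame_der hx.2 d2
  have d4 : (e * f - f * e) * (x * (f * y - y * f) - (f * y - y * f) * x) -
      (x * (f * y - y * f) - (f * y - y * f) * x) * (e * f - f * e) = 0 := by
    rw [d3]
    noncomm_ring
  have d5 := Frame_der d4 hz.2
  rw [d5]
  noncomm_ring

lemma Frame_M (F : Frame0 g e f v w φ χ) {x y : Module.End K U} (hx : x ∈ G1 g e f)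
    (hy : y ∈ G1 g e f) (u : U) :
    (x * (f * y - y * f) - (f * y - y * f) * x) u =
      χ (y u) • x w - (χ u * χ (x (y w))) • v - (φ u * χ (y (x w))) • w + χ (x u) • y w := by
  have hb : ∀ u, (f * y - y * f) u = χ (y u) • w - χ u • y w := by
    intro u
    rw [LinearMap.sub_apply, Module.End.mul_apply, Module.End.mul_apply, F.f_eq, F.f_eq u,
      map_smul]
  obtain ⟨c, h1⟩ : ∃ c, c = χ (x (y w)) := ⟨_, rfl⟩
  have h3 : x (y w) = c • v := by
    rw [h1]
    exact F.xz hx (F.phix hy w)
  have h2 : χ (y (x u)) = φ u * χ (y (x w)) := by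
    rw [F.form hx u, map_add, map_smul, map_smul, F.xv hy, smul_zero, add_zero, map_smul,
      smul_eq_mul]
  rw [LinearMap.sub_apply, Module.End.mul_apply, Module.End.mul_apply, hb, hb, map_sub, map_smul,
    map_smul, ← h1, h3, h2]
  module

theorem Frame_trip (F : Frame0 g e f v w φ χ) {x y z : Module.End K U} (hx : x ∈ G1 g e f)
    (hy : y ∈ G1 g e f) (hz : z ∈ G1 g e f) : ∃ t ∈ G1 g e f,
    t w = χ (y (z w)) • x w + χ (x (z w)) • y w + χ (y (x w)) • z w ∧
    ∀ u, φ u = 0 → χ u = 0 → χ (t u) = -(χ (x (y w)) * χ (z u)) - χ (z (x w)) * χ (y u)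
      - χ (z (y w)) * χ (x u) := by
  refine ⟨_, Frame_mem F hx hy hz, ?_, ?_⟩
  · rw [LinearMap.sub_apply, Module.End.mul_apply, Module.End.mul_apply, Frame_M F hx hy,
      Frame_M F hx hy, F.chix hz, F.phix hz, F.chix hy, F.chix hx, F.cw, F.fw]
    simp only [zero_mul, zero_smul, sub_zero, one_mul, add_zero, zero_sub, map_neg, map_smul]
    abel
  · intro u hu hc
    rw [LinearMap.sub_apply, Module.End.mul_apply, Module.End.mul_apply, Frame_M F hx hy u, hu,
      hc, F.xz hz hu, map_smul, Frame_M F hx hy v, F.xv hy, F.xv hx, F.cv, F.fv]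
    simp only [zero_mul, zero_smul, sub_zero, one_mul, add_zero, zero_sub, map_zero, map_neg,
      map_smul, map_add, map_sub, smul_eq_mul, F.cv]
    ring

end trip

/-- **Frames.** -/
theorem pFrame : SFrame := by
  intro K U _ _ _ _ _ g hl hI e f hS hr
  obtain ⟨v, w, φ, χ, F⟩ := Frame_ex hl hS hr
  exact ⟨v, w, φ, χ,
    { sl := F.sl
      lie := F.lie
      e_eq := F.e_eq
      f_eq := F.f_eq
      fv := F.fv
      cw := F.cw
      fw := F.fw
      cv := F.cv
      form := fun x hx u => F.form hx u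
      a0 := fun x hx => ⟨F.phix hx w, F.chix hx, F.xv hx⟩
      surj := fun u h1 h2 => Frame_surj F hI h1 h2
      inj := fun u h1 h2 h3 => Frame_inj F hI h1 h2 h3
      trip := fun x hx y hy z hz => Frame_trip F hx hy hz }⟩

end Pool.Agent.Lib.MP_640417_ag.Tg
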