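import Pool.Agent.Lib.MP_640417_ag.Tg.SpecR

/-!
# Toric places, no factors of type III: the Lie algebra of a sum with multiplicities
-/

set_option autoImplicit false

namespace Pool.Agent.Lib.MP_640417_ag.Tg

open Module TensorProduct Pool.Agent.Lib.MP_640417_ag Pool.Agent.Lib.MP_640417_ag.Tor
  Pool.Agent.Lib.MP_640417_ag.Lef

section comp

variable {K V W : Type} [Field K] [AddCommGroup V] [Module K V] [AddCommGroup W] [Module K W]
  (i : W →ₗ[K] V) (p : V →ₗ[K] W)

/-- Compression to `W`. -/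
def FG_c : Module.End K V →ₗ[K] Module.End K W where
  toFun X := p ∘ₗ X ∘ₗ i
  map_add' X Y := by
    ext1 w
    rw [LinearMap.add_comp, LinearMap.comp_add]
  map_smul' c X := by
    ext1 w
    rw [LinearMap.smul_comp, LinearMap.comp_smul, RingHom.id_apply]

/-- Extension by zero. -/
def FG_e (Y : Module.End K W) : Module.End K V := i ∘ₗ Y ∘ₗ p

/-- The operators which commute with the projection to `W`. -/
def FG_Com (X : Module.End K V) : Prop := ∀ v, X (i (p v)) = i (p (X v))

lemma FG_c_apply (X : Module.End K V) (w : W) : FG_c i p X w = p (X (i w)) := rfl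

lemma FG_e_apply (Y : Module.End K W) (v : V) : FG_e i p Y v = i (Y (p v)) := rfl

variable {i p}

lemma FG_Com.inc (hpi : ∀ w, p (i w) = w) {X : Module.End K V} (hX : FG_Com i p X) (w : W) :
    X (i w) = i (FG_c i p X w) := by
  rw [FG_c_apply, ← hX, hpi]

lemma FG_Com.prj (hpi : ∀ w, p (i w) = w) {X : Module.End K V} (hX : FG_Com i p X) (v : V) :
    p (X v) = FG_c i p X (p v) := by
  rw [FG_c_apply, hX, hpi]

lemma FG_mul (hpi : ∀ w, p (i w) = w) {X : Module.End K V} (hX : FG_Com i p X)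
    (Y : Module.End K V) : FG_c i p (X * Y) = FG_c i p X * FG_c i p Y := by
  refine LinearMap.ext fun w => ?_
  rw [Module.End.mul_apply, FG_c_apply i p Y, ← hX.prj hpi, FG_c_apply, Module.End.mul_apply]

lemma FG_mul' (hpi : ∀ w, p (i w) = w) {X Y : Module.End K V} (hY : FG_Com i p Y) :
    FG_c i p (X * Y) = FG_c i p X * FG_c i p Y := by
  refine LinearMap.ext fun w => ?_
  rw [Module.End.mul_apply, FG_c_apply i p X (FG_c i p Y w), ← hY.inc hpi, FG_c_apply,
    Module.End.mul_apply]

lemma FG_one (hpi : ∀ w, p (i w) = w) : FG_c i p 1 = 1 := by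
  refine LinearMap.ext fun w => ?_
  rw [FG_c_apply, Module.End.one_apply, Module.End.one_apply, hpi]

lemma FG_c_e (hpi : ∀ w, p (i w) = w) (Y : Module.End K W) : FG_c i p (FG_e i p Y) = Y := by
  refine LinearMap.ext fun w => ?_
  rw [FG_c_apply, FG_e_apply, hpi, hpi]

lemma FG_e_mul {X : Module.End K V} (hpi : ∀ w, p (i w) = w) (hX : FG_Com i p X)
    (Y : Module.End K W) : FG_e i p Y * X = FG_e i p (Y * FG_c i p X) := by
  refine LinearMap.ext fun v => ?_
  rw [Module.End.mul_apply, FG_e_apply, FG_e_apply, hX.prj hpi, Module.End.mul_apply]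

lemma FG_mul_e {X : Module.End K V} (hpi : ∀ w, p (i w) = w) (hX : FG_Com i p X)
    (Y : Module.End K W) : X * FG_e i p Y = FG_e i p (FG_c i p X * Y) := by
  refine LinearMap.ext fun v => ?_
  rw [Module.End.mul_apply, FG_e_apply, FG_e_apply, hX.inc hpi, Module.End.mul_apply]

lemma FG_inj (hpi : ∀ w, p (i w) = w) : Function.Injective i := fun x y h => by
  rw [← hpi x, h, hpi]

/-- Irreducibility of the compression. -/
lemma FG_irr (hpi : ∀ w, p (i w) = w) {L : Submodule K (Module.End K V)}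
    (hL : ∀ X ∈ L, FG_Com i p X) {U : Submodule K W} (h : IrrMod L (U.map i)) :
    IrrMod (L.map (FG_c i p)) U := by
  refine ⟨?_, ?_, ?_⟩
  · rintro rfl
    exact h.1 (Submodule.map_bot i)
  · rintro _ ⟨X, hX, rfl⟩ y hy
    obtain ⟨z, hz, hz'⟩ := h.2.1 X hX (i y) ⟨y, hy, rfl⟩
    rw [FG_c_apply, ← hz', hpi]
    exact hz
  · intro N hN hst
    have h1 := h.2.2 (N.map i) (Submodule.map_mono hN) (by
      rintro X hX _ ⟨y, hy, rfl⟩
      exact ⟨FG_c i p X y, hst _ ⟨X, hX, rfl⟩ y hy, ((hL X hX).inc hpi y).symm⟩)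
    rcases h1 with h1 | h1
    · left
      rw [← Submodule.map_bot i] at h1
      exact Submodule.map_injective_of_injective (FG_inj hpi) h1
    · right
      exact Submodule.map_injective_of_injective (FG_inj hpi) h1

lemma FG_finrank (hpi : ∀ w, p (i w) = w) (U : Submodule K W) :
    finrank K (U.map i) = finrank K U :=
  LinearEquiv.finrank_eq (Submodule.equivMapOfInjective i (FG_inj hpi) U).symm

lemma FG_map (hpi : ∀ w, p (i w) = w) {N : Module.End K V} (hN : FG_Com i p N)
    (U : Submodule K W) : (U.map i).map N = (U.map (FG_c i p N)).map i := by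
  rw [← Submodule.map_comp, ← Submodule.map_comp]
  congr 1
  exact LinearMap.ext fun y => hN.inc hpi y

/-- The toric condition for the compression. -/
lemma FG_toric (hpi : ∀ w, p (i w) = w) {L : Submodule K (Module.End K V)}
    (hL : ∀ X ∈ L, FG_Com i p X) (hlie : Lie L) (hinj : ∀ t ∈ L, FG_c i p t = 0 → t = 0)
    (hinj1 : ∀ t ∈ L, FG_c i p t = 1 → t = 1) {N : Module.End K V} (hN : FG_Com i p N)
    {U : Submodule K W} (h : Toric L (U.map i) N) :
    Toric (L.map (FG_c i p)) U (FG_c i p N) := by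
  unfold Toric at h ⊢
  rw [FG_map hpi hN, FG_finrank hpi, FG_finrank hpi] at h
  rcases h with h | ⟨h, t, ht, htt, ht0, ht1⟩ | ⟨h, hgen⟩
  · exact Or.inl h
  · refine Or.inr (Or.inl ⟨h, FG_c i p t, ⟨t, ht, rfl⟩, ?_, fun h0 => ht0 (hinj t ht h0),
      fun h0 => ht1 (hinj1 t ht h0)⟩)
    rw [← FG_mul hpi (hL t ht), htt]
  · refine Or.inr (Or.inr ⟨h, fun a ha halie haid => le_antisymm ha ?_⟩)
    let a' : Submodule K (Module.End K V) := L ⊓ a.comap (FG_c i p)
    have ha' : a' = L := by
      refine hgen a' inf_le_left ?_ ?_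
      · rintro X hX Y ⟨hY, hYa⟩
        refine ⟨hlie X hX Y hY, ?_⟩
        show FG_c i p (X * Y - Y * X) ∈ a
        rw [map_sub, FG_mul hpi (hL X hX), FG_mul hpi (hL Y hY)]
        exact halie _ ⟨X, hX, rfl⟩ _ hYa
      · intro t ht htt
        refine ⟨ht, ?_⟩
        show FG_c i p t ∈ a
        refine haid _ ⟨t, ht, rfl⟩ ?_
        rw [← FG_mul hpi (hL t ht), htt]
    rintro _ ⟨X, hX, rfl⟩
    have h5 : X ∈ a' := by rw [ha']; exact hX
    exact h5.2

end comp

theorem pFullG (hIrr : SIrrE) (hDual : SDualE) (hTw : STwistE) (hAll : SAllG) : SFullG := by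
  classical
  intro K V _ _ _ _ _ _ ψ L C hC N st ε hS r u v hU hTor hNo X hX hXC hXt
  -- the representatives
  let B : Type := {j : Fin N // r j = j}
  have hstB : ∀ b : B, r (st b.1) = st b.1 := fun b => by rw [hU.rst, b.2]
  let st' : B → B := fun b => ⟨st b.1, hstB b⟩
  set f : Module.End K V := ∑ b : B, ε b.1 with hf
  have hεf : ∀ b : B, ε b.1 * f = ε b.1 := by
    intro b
    rw [hf, Finset.mul_sum, Finset.sum_eq_single b]
    · exact hS.idem _
    · intro c _ hc
      exact hS.orth _ _ fun h => hc (Subtype.ext h.symm)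
    · intro h
      exact absurd (Finset.mem_univ _) h
  have hfε : ∀ b : B, f * ε b.1 = ε b.1 := by
    intro b
    rw [hf, Finset.sum_mul, Finset.sum_eq_single b]
    · exact hS.idem _
    · intro c _ hc
      exact hS.orth _ _ fun h => hc (Subtype.ext h)
    · intro h
      exact absurd (Finset.mem_univ _) h
  have hff : f * f = f := by
    conv_lhs => rw [hf, Finset.sum_mul]
    rw [hf]
    exact Finset.sum_congr rfl fun b _ => hεf b
  have hfC : f ∈ C := by
    rw [hf]
    exact sum_mem fun b _ => hS.mem _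
  have hfadj : ∀ x y, ψ (f x) y = ψ x (f y) := by
    intro x y
    have h1 : ∀ z, f z = ∑ b : B, ε b.1 z := fun z => by rw [hf, LinearMap.sum_apply]
    have h2 : f y = ∑ b : B, ε (st b.1) y := by
      rw [h1]
      have hinv : Function.Involutive st' := fun b => Subtype.ext (hS.inv b.1)
      exact (Equiv.sum_comp hinv.toPerm (fun b : B => ε b.1 y)).symm
    rw [h1 x, h2, map_sum, map_sum, LinearMap.sum_apply]
    exact Finset.sum_congr rfl fun b _ => hS.adj _ _ _
  -- the space `W` and the maps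
  let W : Type := LinearMap.range f
  let i : W →ₗ[K] V := (LinearMap.range f).subtype
  let p : V →ₗ[K] W := f.rangeRestrict
  have hip : ∀ y, i (p y) = f y := fun y => rfl
  have hpi : ∀ w, p (i w) = w := by
    rintro ⟨_, y, rfl⟩
    apply Subtype.ext
    show f (f y) = f y
    rw [← Module.End.mul_apply, hff]
  have hcomC : ∀ Y : Module.End K V, f * Y = Y * f → FG_Com i p Y := by
    intro Y hY y
    rw [hip, hip, ← Module.End.mul_apply, ← Module.End.mul_apply, hY]
  have hLc : ∀ Y ∈ L, FG_Com i p Y := fun Y hY => hcomC Y (hC.com Y hY f hfC)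
  have hXc : FG_Com i p X := hcomC X (hXC f hfC).symm
  have hεc : ∀ b : B, FG_Com i p (ε b.1) := fun b => hcomC _ (by rw [hfε, hεf])
  have hεe : ∀ b : B, ε b.1 = FG_e i p (FG_c i p (ε b.1)) := by
    intro b
    refine LinearMap.ext fun y => ?_
    rw [FG_e_apply, FG_c_apply, hip, hip, ← Module.End.mul_apply, ← Module.End.mul_apply, hfε,
      hεf]
  -- injectivity
  have hinj : ∀ D : Module.End K V, (∀ c ∈ C, D * c = c * D) → FG_c i p D = 0 → D = 0 := by
    intro D hD h0
    have hDf : D * f = 0 := by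
      refine LinearMap.ext fun y => ?_
      have h1 := (hcomC D (hD f hfC).symm).inc hpi (p y)
      rw [h0, LinearMap.zero_apply, map_zero, hip] at h1
      exact h1
    have h1 : D = ∑ j, u j * (D * v j) := by
      have h2 : ∀ j, u j * (D * v j) = D * ε j := by
        intro j
        rw [← mul_assoc, ← hD _ (hU.uC j), mul_assoc, hU.uv]
      rw [Finset.sum_congr rfl fun j _ => h2 j, ← Finset.mul_sum, hS.sum, mul_one]
    rw [h1]
    refine Finset.sum_eq_zero fun j _ => ?_
    have h3 : D * v j = D * f * (ε (r j) * v j) := by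
      have h4 : f * ε (r j) = ε (r j) := hfε ⟨r j, hU.rr j⟩
      rw [mul_assoc, ← mul_assoc f, h4, hU.ev]
    rw [h3, hDf, zero_mul, mul_zero]
  -- the form
  let ψ₀ : LinearMap.BilinForm K W := ψ.compl₁₂ i i
  have hψ₀ : ∀ x y, ψ₀ x y = ψ (i x) (i y) := fun x y => rfl
  have hform : ∀ (x : W) (z : V), ψ (i x) z = ψ₀ x (p z) := by
    intro x z
    have h1 : f (i x) = i x := by rw [← hip, hpi]
    rw [hψ₀, hip, ← hfadj, h1]
  have hl : ∀ Y : Module.End K V, FG_Com i p Y → ∀ x y, ψ₀ (FG_c i p Y x) y =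
      ψ (Y (i x)) (i y) := by
    intro Y hY x y
    rw [hψ₀, ← hY.inc hpi]
  have hr : ∀ Y : Module.End K V, FG_Com i p Y → ∀ x y, ψ₀ x (FG_c i p Y y) =
      ψ (i x) (Y (i y)) := by
    intro Y hY x y
    rw [hψ₀, ← hY.inc hpi]
  let P : B → Module.End K W := fun b => FG_c i p (ε b.1)
  have hPr : ∀ b : B, (LinearMap.range (P b)).map i = LinearMap.range (ε b.1) := by
    intro b
    ext y
    constructor
    · rintro ⟨_, ⟨z, rfl⟩, rfl⟩
      exact ⟨i z, (hεc b).inc hpi z⟩
    · rintro ⟨z, rfl⟩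
      refine ⟨p (ε b.1 z), ⟨p z, ((hεc b).prj hpi z).symm⟩, ?_⟩
      rw [hip, ← Module.End.mul_apply, hfε]
  have hrk : ∀ b : B, rk (P b) = rk (ε b.1) := by
    intro b
    unfold rk
    rw [← hPr, FG_finrank hpi]
  have hBD : BD ψ₀ P st' :=
    { alt := fun x => hC.alt _
      anti := fun x y => hC.anti _ _
      nd := by
        intro x h
        have h1 : i x = 0 := by
          apply hC.nd
          intro z
          rw [hform]
          exact h _
        rw [← hpi x, h1, map_zero]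
      sum := by
        show ∑ b : B, FG_c i p (ε b.1) = 1
        rw [← map_sum, ← hf]
        refine LinearMap.ext fun w => ?_
        rw [FG_c_apply, ← hip, hpi, hpi, Module.End.one_apply]
      pp := fun b => by
        show FG_c i p (ε b.1) * FG_c i p (ε b.1) = FG_c i p (ε b.1)
        rw [← FG_mul hpi (hεc b), hS.idem]
      ne := by
        intro b h0
        apply hS.ne b.1
        rw [hεe b]
        have h1 : FG_c i p (ε b.1) = 0 := h0
        rw [h1]
        refine LinearMap.ext fun y => ?_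
        rw [FG_e_apply, LinearMap.zero_apply, map_zero, LinearMap.zero_apply]
      orth := by
        intro a b hab
        show FG_c i p (ε a.1) * FG_c i p (ε b.1) = 0
        rw [← FG_mul hpi (hεc a), hS.orth _ _ fun h => hab (Subtype.ext h), map_zero]
      inv := fun b => Subtype.ext (hS.inv b.1)
      adj := by
        intro b x y
        show ψ₀ (FG_c i p (ε b.1) x) y = ψ₀ x (FG_c i p (ε (st' b).1) y)
        rw [hl _ (hεc b), hr _ (hεc (st' b))]
        exact hS.adj _ _ _ }
  set L₀ : Submodule K (Module.End K W) := L.map (FG_c i p) with hL₀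
  have hlie : Lie L₀ := by
    rintro _ ⟨Y, hY, rfl⟩ _ ⟨Z, hZ, rfl⟩
    refine ⟨Y * Z - Z * Y, hC.lie Y hY Z hZ, ?_⟩
    rw [map_sub, FG_mul hpi (hLc Y hY), FG_mul hpi (hLc Z hZ)]
  have hmult : ∀ Y ∈ L₀, ∃ c : K, ∀ x y, ψ₀ (Y x) y + ψ₀ x (Y y) = c * ψ₀ x y := by
    rintro _ ⟨Y, hY, rfl⟩
    obtain ⟨c, hc⟩ := hC.mult Y hY
    refine ⟨c, fun x y => ?_⟩
    rw [hl Y (hLc Y hY), hr Y (hLc Y hY), hψ₀]
    exact hc _ _
  have hcom : ∀ b, ∀ Y ∈ L₀, P b * Y = Y * P b := by
    rintro b _ ⟨Y, hY, rfl⟩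
    show FG_c i p (ε b.1) * FG_c i p Y = FG_c i p Y * FG_c i p (ε b.1)
    rw [← FG_mul hpi (hεc b), ← FG_mul hpi (hLc Y hY), hC.com Y hY _ (hS.mem b.1)]
  have hirrL : ∀ b : B, IrrMod L (LinearMap.range (ε b.1)) := fun b =>
    hIrr K V ψ L C hC N st ε hS b.1
  have hirr : ∀ b, IrrMod L₀ (LinearMap.range (P b)) := by
    intro b
    apply FG_irr hpi hLc
    rw [hPr]
    exact hirrL b
  have hext : ∀ c : Module.End K W, (∀ Y ∈ L₀, c * Y = Y * c) → FG_e i p c ∈ C := by
    intro c hc
    apply hC.bic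
    intro Y hY
    rw [FG_e_mul hpi (hLc Y hY), FG_mul_e hpi (hLc Y hY), hc _ ⟨Y, hY, rfl⟩]
  have hcross : ∀ a b, a ≠ b → ∀ c : Module.End K W, (∀ Y ∈ L₀, c * Y = Y * c) →
      P a * c * P b = 0 := by
    intro a b hab c hc
    obtain ⟨t, ht⟩ := hU.one a.1 b.1 _ (hext c hc)
    have hua : u a.1 = ε a.1 := by
      have h1 := hU.ur a.1
      rwa [a.2] at h1
    have hvb : v b.1 = ε b.1 := by
      have h1 := hU.vr b.1
      rwa [b.2] at h1
    rw [hua, hvb, hS.orth _ _ fun h => hab (Subtype.ext h), smul_zero] at ht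
    have h2 : P a * c * P b = FG_c i p (ε a.1 * FG_e i p c * ε b.1) := by
      rw [FG_mul' hpi (hεc b), FG_mul hpi (hεc a), FG_c_e hpi]
    rw [h2, ht, map_zero]
  have htor : ∀ b, (rk (P b) = 1 ∧ st' b ≠ b) ∨ ∃ M ∈ L₀, M * M = 0 ∧ Skew ψ₀ M ∧
      (finrank K ((LinearMap.range (P b)).map M) = 1 ∨
        (st' b = b ∧ Toric L₀ (LinearMap.range (P b)) M)) := by
    intro b
    rcases hTor _ (hirrL b) with h1 | ⟨M, hM, hMM, hMs, hM1⟩
    · left
      refine ⟨by rw [hrk]; exact h1, fun hst => ?_⟩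
      have hst1 : st b.1 = b.1 := congrArg Subtype.val hst
      -- a line is not self-dual
      obtain ⟨w, hw, hspan⟩ := finrank_eq_one_iff'.1 h1
      have hfix : ε b.1 (w : V) = w := by
        obtain ⟨z, hz⟩ := w.2
        rw [← hz, ← Module.End.mul_apply, hS.idem]
      have h2 : (w : V) = 0 := by
        apply hC.nd
        intro y
        obtain ⟨t, ht⟩ := hspan ⟨ε b.1 y, y, rfl⟩
        have h3 : t • (w : V) = ε b.1 y := congrArg Subtype.val ht
        have h4 := hS.adj b.1 (w : V) y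
        rw [hst1, hfix, ← h3, map_smul, hC.alt, smul_zero] at h4
        exact h4
      exact hw (Subtype.ext h2)
    · right
      have hMc := hLc M hM
      refine ⟨FG_c i p M, ⟨M, hM, rfl⟩, ?_, ?_, ?_⟩
      · rw [← FG_mul hpi hMc, hMM, map_zero]
      · intro x y
        rw [hl M hMc, hr M hMc]
        exact hMs _ _
      · rcases hM1 with h1 | ⟨h1, h2⟩
        · left
          rw [← hPr, FG_map hpi hMc, FG_finrank hpi] at h1
          exact h1
        · right
          refine ⟨Subtype.ext ((hDual K V ψ L C hC N st ε hS r u v hU b.1 b.1 h1).2 rfl), ?_⟩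
          rw [← hPr] at h2
          refine FG_toric hpi hLc hC.lie (fun t ht h0 => ?_) (fun t ht h0 => ?_) hMc h2
          · exact hinj t (fun c hc => (hC.com t ht c hc).symm) h0
          · rw [← sub_eq_zero]
            apply hinj
            · intro c hc
              rw [sub_mul, mul_sub, hC.com t ht c hc, one_mul, mul_one]
            · rw [map_sub, h0, FG_one hpi, sub_self]
  have htw : ∀ a b, a ≠ b → st' a ≠ a → 2 ≤ rk (P a) → ¬ (b = st' a ∧ rk (P a) = 2) →
      ∀ c : Module.End K W, P b * c * P a = c → (∀ Y ∈ L₀, ∃ s : K, c * Y - Y * c = s • c) →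
        c = 0 := by
    intro a b hab hsta hrka hnot c hc hcs
    have h1 : FG_e i p c = 0 := by
      refine hTw K V ψ L C hC N st ε hS r u v hU hNo a.1 b.1 a.2 b.2
        (fun h => hab (Subtype.ext h)) (fun h => hsta (Subtype.ext h)) (by rw [← hrk]; exact hrka)
        (fun h => hnot ⟨Subtype.ext h.1, by rw [hrk]; exact h.2⟩) (FG_e i p c) ?_ ?_
      · rw [FG_mul_e hpi (hεc b), FG_e_mul hpi (hεc a)]
        exact congrArg _ hc
      · intro Y hY
        obtain ⟨s, hs⟩ := hcs _ ⟨Y, hY, rfl⟩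
        refine ⟨s, ?_⟩
        rw [FG_e_mul hpi (hLc Y hY), FG_mul_e hpi (hLc Y hY)]
        refine LinearMap.ext fun y => ?_
        rw [LinearMap.sub_apply, FG_e_apply, FG_e_apply, ← map_sub, ← LinearMap.sub_apply, hs,
          LinearMap.smul_apply, LinearMap.smul_apply, map_smul, FG_e_apply]
    rw [← FG_c_e hpi c, h1, map_zero]
  have hXs : Skew ψ₀ (FG_c i p X) := by
    intro x y
    rw [hl X hXc, hr X hXc]
    exact hX _ _
  have hXP : ∀ b, P b * FG_c i p X = FG_c i p X * P b := by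
    intro b
    show FG_c i p (ε b.1) * FG_c i p X = FG_c i p X * FG_c i p (ε b.1)
    rw [← FG_mul hpi (hεc b), ← FG_mul hpi hXc, hXC _ (hS.mem b.1)]
  have hXtr : ∀ b, tr (P b * FG_c i p X) = 0 := by
    intro b
    have h1 : P b * FG_c i p X = FG_c i p (ε b.1 * X) := (FG_mul hpi (hεc b) X).symm
    have h2 : tr (FG_c i p (ε b.1 * X)) = tr (ε b.1 * X) := by
      unfold tr
      have h3 : FG_c i p (ε b.1 * X) = p ∘ₗ ((ε b.1 * X) ∘ₗ i) := rfl
      have h4 : ((ε b.1 * X) ∘ₗ i) ∘ₗ p = ε b.1 * X := by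
        refine LinearMap.ext fun y => ?_
        show (ε b.1 * X) (i (p y)) = (ε b.1 * X) y
        rw [hip, ← Module.End.mul_apply, mul_assoc, hXC f hfC, ← mul_assoc, hεf]
      rw [h3, LinearMap.trace_comp_comm', h4]
    rw [h1, h2]
    exact hXt _
  obtain ⟨-, s, A, hA, hAs⟩ := hAll K W B ψ₀ P st' hBD L₀ hlie hmult hcom hirr hcross htor htw
    (FG_c i p X) hXs hXP hXtr
  refine ⟨hX, s, ?_⟩
  have hAX : A = X + s • (1 : Module.End K V) := by
    rw [← sub_eq_zero]
    apply hinj
    · intro c hc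
      rw [sub_mul, mul_sub, add_mul, mul_add, hC.com A hA c hc, hXC c hc, mul_smul_comm,
        smul_mul_assoc, mul_one, one_mul]
    · rw [map_sub, map_add, map_smul, FG_one hpi, hAs, sub_self]
  rw [← hAX]
  exact hA

end Pool.Agent.Lib.MP_640417_ag.Tg
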