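import Pool.Agent.Lib.MP_640417_ag.Tg.SpecX
import Pool.Agent.Lib.MP_640417_ag.Tor.Adj
import Pool.Agent.Lib.MP_640417_ag.Tg.FullG

/-!
# Constituents with a large Lie algebra: the Lie algebra of a sum with multiplicities

As `Tg/FullG.lean` (whose lemmas on the compression to the range of the sum of the representatives are used).
-/

set_option autoImplicit false

namespace Pool.Agent.Lib.MP_640417_ag.Tg

open Module TensorProduct Pool.Agent.Lib.MP_640417_ag Pool.Agent.Lib.MP_640417_ag.Tor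
  Pool.Agent.Lib.MP_640417_ag.Lef

/-- Equivariant pairings of a self-dual block are multiples of the form. -/
theorem FX_pair {K V : Type} [Field K] [AddCommGroup V] [Module K V] [FiniteDimensional K V]
    {ψ : LinearMap.BilinForm K V} {L : Submodule K (Module.End K V)}
    {C : Subalgebra K (Module.End K V)} (hC : Cc ψ L C) {N : ℕ} {st : Fin N → Fin N}
    {ε : Fin N → Module.End K V} (hs : Sys ψ C N st ε) (j : Fin N) (hst : st j = j)
    (β : LinearMap.BilinForm K V) (hβ : ∀ X ∈ L, ∀ m : K,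
      (∀ x y, ψ (X x) y + ψ x (X y) = m * ψ x y) → ∀ x ∈ LinearMap.range (ε j),
        ∀ y ∈ LinearMap.range (ε j), β (X x) y + β x (X y) = m * β x y) :
    ∃ t : K, ∀ x ∈ LinearMap.range (ε j), ∀ y ∈ LinearMap.range (ε j), β x y = t * ψ x y := by
  have hcomj : ∀ X ∈ L, ∀ y, ε j (X y) = X (ε j y) := fun X hX y =>
    LinearMap.congr_fun (hC.com X hX _ (hs.mem j)) y
  have hid : ∀ y, ε j (ε j y) = ε j y := fun y => LinearMap.congr_fun (hs.idem j) y
  let c : Module.End K V := (Adj_equiv ψ hC.nd).symm.toLinearMap ∘ₗ (ε j).dualMap ∘ₗ β ∘ₗ ε j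
  have hc : ∀ x y, ψ (c x) y = β (ε j x) (ε j y) := by
    intro x y
    have h1 : Adj_equiv ψ hC.nd (c x) = (ε j).dualMap (β (ε j x)) :=
      (Adj_equiv ψ hC.nd).apply_symm_apply _
    rw [Adj_equiv_apply] at h1
    rw [h1]
    rfl
  have hcC : c ∈ C := by
    refine hC.bic c fun X hX => ?_
    obtain ⟨m, hm⟩ := hC.mult X hX
    refine LinearMap.ext fun x => ?_
    rw [← sub_eq_zero]
    refine hC.nd _ fun y => ?_
    rw [map_sub, LinearMap.sub_apply]
    show ψ (c (X x)) y - ψ (X (c x)) y = 0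
    have h1 := hm (c x) y
    have h2 := hβ X hX m hm (ε j x) ⟨x, rfl⟩ (ε j y) ⟨y, rfl⟩
    rw [← hcomj X hX, ← hcomj X hX, ← hc, ← hc, ← hc] at h2
    linear_combination h2 - h1
  have hcε : ε j * c * ε j = c := by
    refine LinearMap.ext fun x => ?_
    rw [← sub_eq_zero]
    refine hC.nd _ fun y => ?_
    rw [map_sub, LinearMap.sub_apply]
    show ψ (ε j (c (ε j x))) y - ψ (c x) y = 0
    rw [hs.adj, hst, hc, hc, hid, hid, sub_self]
  obtain ⟨t, ht⟩ := hs.one j c hcC
  rw [hcε] at ht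
  refine ⟨t, ?_⟩
  rintro _ ⟨x, rfl⟩ _ ⟨y, rfl⟩
  rw [← hc, ht, LinearMap.smul_apply, map_smul, LinearMap.smul_apply, smul_eq_mul, hs.adj, hst,
    hs.adj, hst, hid]

theorem pFullX (hIrr : SIrrE) (hDual : SDualE) (hTw : STwistE) (hAll : SAllX) : SFullX := by
  classical
  intro K V _ _ _ _ _ _ ψ L C hC N st ε hS r u v hU hTor hNo X hX hXC hXt
  -- the representatives
  let B : Type := {j : Fin N // r j = j}
  have hstB : ∀ b : B, r (st b.1) = st b.1 := fun b => by rw [hU.rst, b.2]
  let st' : B → B := fun b => ⟨st b.1, hstB b⟩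
  set f : Module.End K V := ∑ b : B, ε b.1 with hf
  have hεf : ∀ b : B, ε b.1 * f = ε b.1 := by
    intro b
    rw [hf, Finset.mul_sum, Finset.sum_eq_single b]
    · exact hS.idem _
    · intro c _ hc
      exact hS.orth _ _ fun h => hc (Subtype.ext h.symm)
    · intro h
      exact absurd (Finset.mem_univ _) h
  have hfε : ∀ b : B, f * ε b.1 = ε b.1 := by
    intro b
    rw [hf, Finset.sum_mul, Finset.sum_eq_single b]
    · exact hS.idem _
    · intro c _ hc
      exact hS.orth _ _ fun h => hc (Subtype.ext h)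
    · intro h
      exact absurd (Finset.mem_univ _) h
  have hff : f * f = f := by
    conv_lhs => rw [hf, Finset.sum_mul]
    rw [hf]
    exact Finset.sum_congr rfl fun b _ => hεf b
  have hfC : f ∈ C := by
    rw [hf]
    exact sum_mem fun b _ => hS.mem _
  have hfadj : ∀ x y, ψ (f x) y = ψ x (f y) := by
    intro x y
    have h1 : ∀ z, f z = ∑ b : B, ε b.1 z := fun z => by rw [hf, LinearMap.sum_apply]
    have h2 : f y = ∑ b : B, ε (st b.1) y := by
      rw [h1]
      have hinv : Function.Involutive st' := fun b => Subtype.ext (hS.inv b.1)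
      exact (Equiv.sum_comp hinv.toPerm (fun b : B => ε b.1 y)).symm
    rw [h1 x, h2, map_sum, map_sum, LinearMap.sum_apply]
    exact Finset.sum_congr rfl fun b _ => hS.adj _ _ _
  -- the space `W` and the maps
  let W : Type := LinearMap.range f
  let i : W →ₗ[K] V := (LinearMap.range f).subtype
  let p : V →ₗ[K] W := f.rangeRestrict
  have hip : ∀ y, i (p y) = f y := fun y => rfl
  have hpi : ∀ w, p (i w) = w := by
    rintro ⟨_, y, rfl⟩
    apply Subtype.ext
    show f (f y) = f y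
    rw [← Module.End.mul_apply, hff]
  have hcomC : ∀ Y : Module.End K V, f * Y = Y * f → FG_Com i p Y := by
    intro Y hY y
    rw [hip, hip, ← Module.End.mul_apply, ← Module.End.mul_apply, hY]
  have hLc : ∀ Y ∈ L, FG_Com i p Y := fun Y hY => hcomC Y (hC.com Y hY f hfC)
  have hXc : FG_Com i p X := hcomC X (hXC f hfC).symm
  have hεc : ∀ b : B, FG_Com i p (ε b.1) := fun b => hcomC _ (by rw [hfε, hεf])
  have hεe : ∀ b : B, ε b.1 = FG_e i p (FG_c i p (ε b.1)) := by
    intro b
    refine LinearMap.ext fun y => ?_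
    rw [FG_e_apply, FG_c_apply, hip, hip, ← Module.End.mul_apply, ← Module.End.mul_apply, hfε,
      hεf]
  -- injectivity
  have hinj : ∀ D : Module.End K V, (∀ c ∈ C, D * c = c * D) → FG_c i p D = 0 → D = 0 := by
    intro D hD h0
    have hDf : D * f = 0 := by
      refine LinearMap.ext fun y => ?_
      have h1 := (hcomC D (hD f hfC).symm).inc hpi (p y)
      rw [h0, LinearMap.zero_apply, map_zero, hip] at h1
      exact h1
    have h1 : D = ∑ j, u j * (D * v j) := by
      have h2 : ∀ j, u j * (D * v j) = D * ε j := by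
        intro j
        rw [← mul_assoc, ← hD _ (hU.uC j), mul_assoc, hU.uv]
      rw [Finset.sum_congr rfl fun j _ => h2 j, ← Finset.mul_sum, hS.sum, mul_one]
    rw [h1]
    refine Finset.sum_eq_zero fun j _ => ?_
    have h3 : D * v j = D * f * (ε (r j) * v j) := by
      have h4 : f * ε (r j) = ε (r j) := hfε ⟨r j, hU.rr j⟩
      rw [mul_assoc, ← mul_assoc f, h4, hU.ev]
    rw [h3, hDf, zero_mul, mul_zero]
  -- the form
  let ψ₀ : LinearMap.BilinForm K W := ψ.compl₁₂ i i
  have hψ₀ : ∀ x y, ψ₀ x y = ψ (i x) (i y) := fun x y => rfl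
  have hform : ∀ (x : W) (z : V), ψ (i x) z = ψ₀ x (p z) := by
    intro x z
    have h1 : f (i x) = i x := by rw [← hip, hpi]
    rw [hψ₀, hip, ← hfadj, h1]
  have hl : ∀ Y : Module.End K V, FG_Com i p Y → ∀ x y, ψ₀ (FG_c i p Y x) y =
      ψ (Y (i x)) (i y) := by
    intro Y hY x y
    rw [hψ₀, ← hY.inc hpi]
  have hr : ∀ Y : Module.End K V, FG_Com i p Y → ∀ x y, ψ₀ x (FG_c i p Y y) =
      ψ (i x) (Y (i y)) := by
    intro Y hY x y
    rw [hψ₀, ← hY.inc hpi]
  let P : B → Module.End K W := fun b => FG_c i p (ε b.1)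
  have hPr : ∀ b : B, (LinearMap.range (P b)).map i = LinearMap.range (ε b.1) := by
    intro b
    ext y
    constructor
    · rintro ⟨_, ⟨z, rfl⟩, rfl⟩
      exact ⟨i z, (hεc b).inc hpi z⟩
    · rintro ⟨z, rfl⟩
      refine ⟨p (ε b.1 z), ⟨p z, ((hεc b).prj hpi z).symm⟩, ?_⟩
      rw [hip, ← Module.End.mul_apply, hfε]
  have hrk : ∀ b : B, rk (P b) = rk (ε b.1) := by
    intro b
    unfold rk
    rw [← hPr, FG_finrank hpi]
  have hBD : BD ψ₀ P st' :=
    { alt := fun x => hC.alt _
      anti := fun x y => hC.anti _ _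
      nd := by
        intro x h
        have h1 : i x = 0 := by
          apply hC.nd
          intro z
          rw [hform]
          exact h _
        rw [← hpi x, h1, map_zero]
      sum := by
        show ∑ b : B, FG_c i p (ε b.1) = 1
        rw [← map_sum, ← hf]
        refine LinearMap.ext fun w => ?_
        rw [FG_c_apply, ← hip, hpi, hpi, Module.End.one_apply]
      pp := fun b => by
        show FG_c i p (ε b.1) * FG_c i p (ε b.1) = FG_c i p (ε b.1)
        rw [← FG_mul hpi (hεc b), hS.idem]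
      ne := by
        intro b h0
        apply hS.ne b.1
        rw [hεe b]
        have h1 : FG_c i p (ε b.1) = 0 := h0
        rw [h1]
        refine LinearMap.ext fun y => ?_
        rw [FG_e_apply, LinearMap.zero_apply, map_zero, LinearMap.zero_apply]
      orth := by
        intro a b hab
        show FG_c i p (ε a.1) * FG_c i p (ε b.1) = 0
        rw [← FG_mul hpi (hεc a), hS.orth _ _ fun h => hab (Subtype.ext h), map_zero]
      inv := fun b => Subtype.ext (hS.inv b.1)
      adj := by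
        intro b x y
        show ψ₀ (FG_c i p (ε b.1) x) y = ψ₀ x (FG_c i p (ε (st' b).1) y)
        rw [hl _ (hεc b), hr _ (hεc (st' b))]
        exact hS.adj _ _ _ }
  set L₀ : Submodule K (Module.End K W) := L.map (FG_c i p) with hL₀
  have hlie : Lie L₀ := by
    rintro _ ⟨Y, hY, rfl⟩ _ ⟨Z, hZ, rfl⟩
    refine ⟨Y * Z - Z * Y, hC.lie Y hY Z hZ, ?_⟩
    rw [map_sub, FG_mul hpi (hLc Y hY), FG_mul hpi (hLc Z hZ)]
  have hmult : ∀ Y ∈ L₀, ∃ c : K, ∀ x y, ψ₀ (Y x) y + ψ₀ x (Y y) = c * ψ₀ x y := by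
    rintro _ ⟨Y, hY, rfl⟩
    obtain ⟨c, hc⟩ := hC.mult Y hY
    refine ⟨c, fun x y => ?_⟩
    rw [hl Y (hLc Y hY), hr Y (hLc Y hY), hψ₀]
    exact hc _ _
  have hcom : ∀ b, ∀ Y ∈ L₀, P b * Y = Y * P b := by
    rintro b _ ⟨Y, hY, rfl⟩
    show FG_c i p (ε b.1) * FG_c i p Y = FG_c i p Y * FG_c i p (ε b.1)
    rw [← FG_mul hpi (hεc b), ← FG_mul hpi (hLc Y hY), hC.com Y hY _ (hS.mem b.1)]
  have hirrL : ∀ b : B, IrrMod L (LinearMap.range (ε b.1)) := fun b =>
    hIrr K V ψ L C hC N st ε hS b.1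
  have hirr : ∀ b, IrrMod L₀ (LinearMap.range (P b)) := by
    intro b
    apply FG_irr hpi hLc
    rw [hPr]
    exact hirrL b
  have hext : ∀ c : Module.End K W, (∀ Y ∈ L₀, c * Y = Y * c) → FG_e i p c ∈ C := by
    intro c hc
    apply hC.bic
    intro Y hY
    rw [FG_e_mul hpi (hLc Y hY), FG_mul_e hpi (hLc Y hY), hc _ ⟨Y, hY, rfl⟩]
  have hcross : ∀ a b, a ≠ b → ∀ c : Module.End K W, (∀ Y ∈ L₀, c * Y = Y * c) →
      P a * c * P b = 0 := by
    intro a b hab c hc
    obtain ⟨t, ht⟩ := hU.one a.1 b.1 _ (hext c hc)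
    have hua : u a.1 = ε a.1 := by
      have h1 := hU.ur a.1
      rwa [a.2] at h1
    have hvb : v b.1 = ε b.1 := by
      have h1 := hU.vr b.1
      rwa [b.2] at h1
    rw [hua, hvb, hS.orth _ _ fun h => hab (Subtype.ext h), smul_zero] at ht
    have h2 : P a * c * P b = FG_c i p (ε a.1 * FG_e i p c * ε b.1) := by
      rw [FG_mul' hpi (hεc b), FG_mul hpi (hεc a), FG_c_e hpi]
    rw [h2, ht, map_zero]
  have hsub : ∀ (A : Module.End K V) (a : K), FG_c i p (A - a • (1 : Module.End K V)) =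
      FG_c i p A - a • (1 : Module.End K W) := by
    intro A a
    rw [map_sub, map_smul, FG_one hpi]
  have htor : ∀ b, (∀ Y ∈ sb ψ₀ (P b) (st' b = b), ∃ A ∈ L₀, P b * A = Y) ∨
      ∃ A ∈ L₀, ∃ a : K,
      finrank K ((LinearMap.range (P b)).map (A - a • (1 : Module.End K W))) = 1 ∨
        (st' b = b ∧ (∀ x ∈ LinearMap.range (P b), (A - a • (1 : Module.End K W))
          ((A - a • (1 : Module.End K W)) x) = 0) ∧
          Toric L₀ (LinearMap.range (P b)) (A - a • (1 : Module.End K W))) := by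
    intro b
    rcases hTor _ (hirrL b) with h1 | ⟨M, hM, a, hM1⟩
    · left
      rintro Y ⟨hY1, hY2, hY3⟩
      have hPP : P b * P b = P b := hBD.pp b
      have hPY : P b * Y = Y := by rw [← hY1, ← mul_assoc, ← mul_assoc, hPP]
      have hYP : Y * P b = Y := by rw [← hY1, mul_assoc, hPP]
      have hmem : ∀ z, FG_e i p Y z ∈ LinearMap.range (ε b.1) := by
        intro z
        rw [FG_e_apply, ← hPY, Module.End.mul_apply]
        exact ⟨i (Y (p z)), (hεc b).inc hpi _⟩
      have htr0 : tr (FG_e i p Y) = tr Y := by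
        unfold tr
        have h3 : FG_e i p Y = i ∘ₗ (Y ∘ₗ p) := rfl
        have h4 : (Y ∘ₗ p) ∘ₗ i = Y := by
          refine LinearMap.ext fun y => ?_
          show Y (p (i y)) = Y y
          rw [hpi]
        rw [h3, LinearMap.trace_comp_comm', h4]
      have htr1 : LinearMap.trace K (LinearMap.range (ε b.1))
          ((FG_e i p Y).restrict fun z _ => hmem z) = 0 := by
        rw [LinearMap.trace_restrict_eq_of_forall_mem _ _ hmem]
        exact htr0.trans hY2
      obtain ⟨A, hA, hA1⟩ := h1 ((FG_e i p Y).restrict fun z _ => hmem z) htr1 (by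
        intro β hβ x y
        by_cases hβ0 : ∃ x ∈ LinearMap.range (ε b.1), ∃ y ∈ LinearMap.range (ε b.1), β x y ≠ 0
        · have hst := (hDual K V ψ L C hC N st ε hS r u v hU b.1 b.1 ⟨β, hβ0, hβ⟩).2 rfl
          obtain ⟨t, ht⟩ := FX_pair hC hS b.1 hst β hβ
          have hYs := hY3 (Subtype.ext hst)
          have hfx : ∀ x ∈ LinearMap.range (ε b.1), i (p x) = x := by
            rintro _ ⟨z, rfl⟩
            rw [hip, ← Module.End.mul_apply, hfε]
          change β (FG_e i p Y x) y + β x (FG_e i p Y y) = 0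
          rw [ht _ (hmem x) _ y.2, ht _ x.2 _ (hmem y), ← mul_add, FG_e_apply, FG_e_apply, hform]
          have h5 : ψ (x : V) (i (Y (p y))) = ψ₀ (p x) (Y (p y)) := by
            rw [hψ₀, hfx _ x.2]
          rw [h5, hYs, neg_add_cancel, mul_zero]
        · push Not at hβ0
          change β (FG_e i p Y x) y + β x (FG_e i p Y y) = 0
          rw [hβ0 _ (hmem x) _ y.2, hβ0 _ x.2 _ (hmem y), add_zero])
      refine ⟨FG_c i p A, ⟨A, hA, rfl⟩, ?_⟩
      rw [hcom b _ ⟨A, hA, rfl⟩]
      refine LinearMap.ext fun w => ?_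
      have h6 : i (P b w) ∈ LinearMap.range (ε b.1) := ⟨i w, (hεc b).inc hpi w⟩
      have h7 := hA1 ⟨i (P b w), h6⟩
      change A (i (P b w)) = FG_e i p Y (i (P b w)) at h7
      rw [Module.End.mul_apply, FG_c_apply, h7, FG_e_apply, hpi, hpi, ← Module.End.mul_apply, hYP]
    · right
      have hMc : FG_Com i p (M - a • (1 : Module.End K V)) := by
        apply hcomC
        rw [mul_sub, sub_mul, (hC.com M hM f hfC), mul_smul_comm, smul_mul_assoc, one_mul,
          mul_one]
      refine ⟨FG_c i p M, ⟨M, hM, rfl⟩, a, ?_⟩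
      rw [← hsub]
      rcases hM1 with h1 | ⟨h1, h3, h2⟩
      · left
        rw [← hPr, FG_map hpi hMc, FG_finrank hpi] at h1
        exact h1
      · right
        refine ⟨Subtype.ext ((hDual K V ψ L C hC N st ε hS r u v hU b.1 b.1 h1).2 rfl), ?_, ?_⟩
        · intro x hx
          apply FG_inj hpi
          rw [← hMc.inc hpi, ← hMc.inc hpi, map_zero]
          apply h3
          rw [← hPr]
          exact ⟨x, hx, rfl⟩
        · rw [← hPr] at h2
          refine FG_toric hpi hLc hC.lie (fun t ht h0 => ?_) (fun t ht h0 => ?_) hMc h2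
          · exact hinj t (fun c hc => (hC.com t ht c hc).symm) h0
          · rw [← sub_eq_zero]
            apply hinj
            · intro c hc
              rw [sub_mul, mul_sub, hC.com t ht c hc, one_mul, mul_one]
            · rw [map_sub, h0, FG_one hpi, sub_self]
  have htw : ∀ a b, a ≠ b → st' a ≠ a → 2 ≤ rk (P a) → ¬ (b = st' a ∧ rk (P a) = 2) →
      ∀ c : Module.End K W, P b * c * P a = c → (∀ Y ∈ L₀, ∃ s : K, c * Y - Y * c = s • c) →
        c = 0 := by
    intro a b hab hsta hrka hnot c hc hcs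
    have h1 : FG_e i p c = 0 := by
      refine hTw K V ψ L C hC N st ε hS r u v hU hNo a.1 b.1 a.2 b.2
        (fun h => hab (Subtype.ext h)) (fun h => hsta (Subtype.ext h)) (by rw [← hrk]; exact hrka)
        (fun h => hnot ⟨Subtype.ext h.1, by rw [hrk]; exact h.2⟩) (FG_e i p c) ?_ ?_
      · rw [FG_mul_e hpi (hεc b), FG_e_mul hpi (hεc a)]
        exact congrArg _ hc
      · intro Y hY
        obtain ⟨s, hs⟩ := hcs _ ⟨Y, hY, rfl⟩
        refine ⟨s, ?_⟩
        rw [FG_e_mul hpi (hLc Y hY), FG_mul_e hpi (hLc Y hY)]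
        refine LinearMap.ext fun y => ?_
        rw [LinearMap.sub_apply, FG_e_apply, FG_e_apply, ← map_sub, ← LinearMap.sub_apply, hs,
          LinearMap.smul_apply, LinearMap.smul_apply, map_smul, FG_e_apply]
    rw [← FG_c_e hpi c, h1, map_zero]
  have hXs : Skew ψ₀ (FG_c i p X) := by
    intro x y
    rw [hl X hXc, hr X hXc]
    exact hX _ _
  have hXP : ∀ b, P b * FG_c i p X = FG_c i p X * P b := by
    intro b
    show FG_c i p (ε b.1) * FG_c i p X = FG_c i p X * FG_c i p (ε b.1)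
    rw [← FG_mul hpi (hεc b), ← FG_mul hpi hXc, hXC _ (hS.mem b.1)]
  have hXtr : ∀ b, tr (P b * FG_c i p X) = 0 := by
    intro b
    have h1 : P b * FG_c i p X = FG_c i p (ε b.1 * X) := (FG_mul hpi (hεc b) X).symm
    have h2 : tr (FG_c i p (ε b.1 * X)) = tr (ε b.1 * X) := by
      unfold tr
      have h3 : FG_c i p (ε b.1 * X) = p ∘ₗ ((ε b.1 * X) ∘ₗ i) := rfl
      have h4 : ((ε b.1 * X) ∘ₗ i) ∘ₗ p = ε b.1 * X := by
        refine LinearMap.ext fun y => ?_
        show (ε b.1 * X) (i (p y)) = (ε b.1 * X) y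
        rw [hip, ← Module.End.mul_apply, mul_assoc, hXC f hfC, ← mul_assoc, hεf]
      rw [h3, LinearMap.trace_comp_comm', h4]
    rw [h1, h2]
    exact hXt _
  obtain ⟨-, s, A, hA, hAs⟩ := hAll K W B ψ₀ P st' hBD L₀ hlie hmult hcom hirr hcross htor htw
    (FG_c i p X) hXs hXP hXtr
  refine ⟨hX, s, ?_⟩
  have hAX : A = X + s • (1 : Module.End K V) := by
    rw [← sub_eq_zero]
    apply hinj
    · intro c hc
      rw [sub_mul, mul_sub, add_mul, mul_add, hC.com A hA c hc, hXC c hc, mul_smul_comm,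
        smul_mul_assoc, mul_one, one_mul]
    · rw [map_sub, map_add, map_smul, FG_one hpi, hAs, sub_self]
  rw [← hAX]
  exact hA

end Pool.Agent.Lib.MP_640417_ag.Tg
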