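import Pool.Agent.Lib.MP_640417_ag.Tg.SpecC

/-!
# Toric places, converse: no form of dimension at least three is preserved, up to scalars, by all operators
-/

set_option autoImplicit false

namespace Pool.Agent.Lib.MP_640417_ag.Tg

open Module

theorem pGam : SGam := by
  intro K U _ _ _ _ h3 γ hγ hY
  have hdual : ∀ x : U, x ≠ 0 → ∃ φ : Module.Dual K U, φ x = 1 := by
    intro x hx
    by_contra hcon
    push Not at hcon
    apply hx
    rw [← Module.forall_dual_apply_eq_zero_iff K]
    intro φ
    by_contra h0
    apply hcon ((φ x)⁻¹ • φ)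
    rw [LinearMap.smul_apply, smul_eq_mul, inv_mul_cancel₀ h0]
  have hker : ∀ x, (∀ y, γ x y = 0) → x = 0 := by
    intro x hx
    by_contra hx0
    apply hγ
    refine LinearMap.ext fun x' => LinearMap.ext fun y => ?_
    obtain ⟨φ, hφ⟩ := hdual x hx0
    obtain ⟨s, hs⟩ := hY (φ.smulRight x')
    have h := hs x y
    rw [LinearMap.smulRight_apply, hφ, one_smul, hx, hx, mul_zero, add_zero] at h
    exact h
  -- the scalars of the operators of rank one vanish
  have hrel : ∀ (φ : Module.Dual K U) (u x₀ : U), φ x₀ = 1 → ∀ x y,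
      φ x * γ u y + φ y * γ x u = 0 := by
    intro φ u x₀ hx₀ x y
    obtain ⟨s, hs⟩ := hY (φ.smulRight u)
    have hs' : ∀ x y, φ x * γ u y + φ y * γ x u = s * γ x y := by
      intro x y
      have h := hs x y
      rw [LinearMap.smulRight_apply, LinearMap.smulRight_apply, map_smul, map_smul,
        LinearMap.smul_apply, smul_eq_mul, smul_eq_mul] at h
      exact h
    by_cases h0 : s = 0
    · rw [hs', h0, zero_mul]
    · exfalso
      let F : U →ₗ[K] K × K := φ.prod (γ.flip x₀)
      have hF : Function.Injective F := by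
        rw [← LinearMap.ker_eq_bot, LinearMap.ker_eq_bot']
        intro z hz
        have h1 : φ z = 0 := congrArg Prod.fst hz
        have h2 : γ z x₀ = 0 := congrArg Prod.snd hz
        apply hker
        intro y
        have h4 := hs' z y
        have h5 := hs' z (y - φ y • x₀)
        have h6 : φ (y - φ y • x₀) = 0 := by
          rw [map_sub, map_smul, hx₀, smul_eq_mul, mul_one, sub_self]
        rw [h1, h6, zero_mul, zero_mul, add_zero, map_sub, map_smul, h2, smul_zero, sub_zero] at h5
        exact (mul_eq_zero.1 h5.symm).resolve_left h0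
      have h7 := LinearMap.finrank_le_finrank_of_injective hF
      rw [Module.finrank_prod, Module.finrank_self] at h7
      omega
  apply hγ
  refine LinearMap.ext fun u => LinearMap.ext fun y => ?_
  have hlt : Submodule.span K {y} < ⊤ := by
    rw [lt_top_iff_ne_top]
    intro h
    have h1 := finrank_span_le_card (R := K) ({y} : Set U)
    rw [h, finrank_top, Set.toFinset_singleton, Finset.card_singleton] at h1
    omega
  obtain ⟨φ, hφ0, hφ⟩ := Submodule.exists_le_ker_of_lt_top _ hlt
  have hφy : φ y = 0 := hφ (Submodule.mem_span_singleton_self y)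
  obtain ⟨x₁, hx₁⟩ : ∃ x₁, φ x₁ ≠ 0 := by
    by_contra hcon
    push Not at hcon
    exact hφ0 (LinearMap.ext hcon)
  have hx₂ : φ ((φ x₁)⁻¹ • x₁) = 1 := by
    rw [map_smul, smul_eq_mul, inv_mul_cancel₀ hx₁]
  have h := hrel φ u _ hx₂ ((φ x₁)⁻¹ • x₁) y
  rw [hx₂, hφy, one_mul, zero_mul, add_zero] at h
  exact h

end Pool.Agent.Lib.MP_640417_ag.Tg
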