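import Pool.Agent.Lib.MP_640417_ag.Tg.SpecA
import Pool.Agent.Lib.MP_640417_ag.Tor.GouC
import Pool.Agent.Lib.MP_640417_ag.Tor.PrimTr

/-!
# Toric places, no factors of type III: Goursat for blocks with a duality
-/

namespace Pool.Agent.Lib.MP_640417_ag.Tg

open Module Pool.Agent.Lib.MP_640417_ag.Tor

section

variable {K V : Type} [Field K] [AddCommGroup V] [Module K V]

lemma GourG_tr_ne [CharZero K] [FiniteDimensional K V] {p : Module.End K V} (hp : p * p = p)
    (h0 : p ≠ 0) : tr p ≠ 0 := by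
  rw [tr_idem hp]
  intro h1
  apply h0
  have h2 : rk p = 0 := by exact_mod_cast h1
  unfold rk at h2
  rw [Submodule.finrank_eq_zero, LinearMap.range_eq_bot] at h2
  exact h2

/-- Operators on a line. -/
lemma GourG_line [FiniteDimensional K V] {p : Module.End K V} (h2 : rk p < 2)
    (X : Module.End K V) : ∃ c : K, p * X * p = c • p := by
  have h3 : finrank K (LinearMap.range p) ≤ 1 := by
    unfold rk at h2
    omega
  obtain ⟨⟨v, hv⟩, h4⟩ := finrank_le_one_iff.mp h3
  obtain ⟨c, hc⟩ := h4 ⟨(p * X) v, ⟨X v, rfl⟩⟩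
  refine ⟨c, LinearMap.ext fun x => ?_⟩
  obtain ⟨d, hd⟩ := h4 ⟨p x, ⟨x, rfl⟩⟩
  have hc' : c • v = (p * X) v := congrArg Subtype.val hc
  have hd' : d • v = p x := congrArg Subtype.val hd
  rw [Module.End.mul_apply (p * X) p, ← hd', map_smul, ← hc', LinearMap.smul_apply, ← hd',
    smul_comm]

end

/-- **Goursat for blocks with a duality.** -/
theorem pGourG (hPerf : SPerf) (hSimp : SSimp) (hIrrB : SIrrB) : SGourG := by
  intro K V _ _ _ _ _ _ B _ _ ψ p st hBD g hl hsp hcom hfull hpair
  have hblk : ∀ b, 2 ≤ rk (p b) → Blk ψ (p b) (st b = b) := by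
    intro b hb
    refine ⟨hBD.alt, hBD.anti, hBD.nd, hBD.pp b, fun ht x y => ?_, hb⟩
    rw [hBD.adj, ht]
  have hproj : ∀ b, ∀ Y ∈ g, p b * (p b * Y) * p b = p b * Y ∧ (st b = b → Skew ψ (p b * Y)) := by
    intro b Y hY
    refine ⟨?_, fun ht => GouC_skew (fun x y => by rw [hBD.adj, ht]) (hcom b Y hY) (hsp Y hY)⟩
    rw [← mul_assoc, hBD.pp, mul_assoc, ← hcom b Y hY, ← mul_assoc, hBD.pp]
  -- brackets
  have hzero : ∀ t, ∀ W ∈ g, ∀ Y ∈ g, p t * Y = 0 → p t * (W * Y - Y * W) = 0 := by
    intro t W hW Y hY h0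
    rw [mul_sub, ← mul_assoc, ← mul_assoc, hcom t W hW, mul_assoc, h0, mul_zero, zero_mul,
      sub_zero]
  have hzero' : ∀ t, ∀ W ∈ g, ∀ Y ∈ g, p t * W = 0 → p t * (W * Y - Y * W) = 0 := by
    intro t W hW Y hY h0
    rw [mul_sub, ← mul_assoc, ← mul_assoc, hcom t Y hY, mul_assoc Y, h0, mul_zero, zero_mul,
      sub_zero]
  -- the statement for a finite set
  have key : ∀ (S : Finset B) (b : B), b ∉ S → st b ∉ S → ∀ X ∈ sb ψ (p b) (st b = b),
      ∃ Y ∈ g, p b * Y = X ∧ ∀ s ∈ S, p s * Y = 0 := by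
    intro S
    induction S using Finset.induction_on with
    | empty =>
      intro b _ _ X hX
      by_cases hb2 : 2 ≤ rk (p b)
      · obtain ⟨Y, hY, h1⟩ := hfull b hb2 X hX
        exact ⟨Y, hY, h1, fun s hs => absurd hs (Finset.notMem_empty s)⟩
      · obtain ⟨c, hc⟩ := GourG_line (not_le.mp hb2) X
        rw [hX.1] at hc
        have h1 := hX.2.1
        rw [hc] at h1
        unfold tr at h1
        rw [map_smul, smul_eq_mul] at h1
        have hc0 : c = 0 := (mul_eq_zero.mp h1).resolve_right (GourG_tr_ne (hBD.pp b) (hBD.ne b))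
        refine ⟨0, zero_mem _, ?_, fun _ _ => mul_zero _⟩
        rw [mul_zero, hc, hc0, zero_smul]
    | insert s S hs ih =>
      intro b hb hb' X hX
      have hbs : b ≠ s := fun h => hb (h ▸ Finset.mem_insert_self _ _)
      have hbs' : b ≠ st s := by
        intro h
        apply hb'
        rw [h, hBD.inv]
        exact Finset.mem_insert_self _ _
      have hbS : b ∉ S := fun h => hb (Finset.mem_insert_of_mem h)
      have hbS' : st b ∉ S := fun h => hb' (Finset.mem_insert_of_mem h)
      by_cases hb2 : 2 ≤ rk (p b)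
      swap
      · obtain ⟨c, hc⟩ := GourG_line (not_le.mp hb2) X
        rw [hX.1] at hc
        have h1 := hX.2.1
        rw [hc] at h1
        unfold tr at h1
        rw [map_smul, smul_eq_mul] at h1
        have hc0 : c = 0 := (mul_eq_zero.mp h1).resolve_right (GourG_tr_ne (hBD.pp b) (hBD.ne b))
        refine ⟨0, zero_mem _, ?_, fun _ _ => mul_zero _⟩
        rw [mul_zero, hc, hc0, zero_smul]
      let a : Submodule K (Module.End K V) :=
        { carrier := {X | ∃ Y ∈ g, p b * Y = X ∧ p s * Y = 0 ∧ ∀ t ∈ S, p t * Y = 0}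
          add_mem' := by
            rintro _ _ ⟨X, hX, rfl, h1, h2⟩ ⟨Y, hY, rfl, h3, h4⟩
            refine ⟨X + Y, add_mem hX hY, mul_add _ _ _, by rw [mul_add, h1, h3, add_zero],
              fun t ht => by rw [mul_add, h2 t ht, h4 t ht, add_zero]⟩
          zero_mem' := ⟨0, zero_mem _, mul_zero _, mul_zero _, fun _ _ => mul_zero _⟩
          smul_mem' := by
            rintro c _ ⟨X, hX, rfl, h1, h2⟩
            exact ⟨c • X, Submodule.smul_mem _ _ hX, mul_smul_comm _ _ _,
              by rw [mul_smul_comm, h1, smul_zero],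
              fun t ht => by rw [mul_smul_comm, h2 t ht, smul_zero]⟩ }
      have hall : sb ψ (p b) (st b = b) ≤ a := by
        by_cases hs2 : 2 ≤ rk (p s)
        · obtain ⟨Z, hZ, hZs, hZb⟩ := hpair b s hbs hbs' hb2 hs2
          have hale : ∀ Y ∈ a, p b * Y * p b = Y ∧ (st b = b → Skew ψ Y) := by
            rintro _ ⟨Y, hY, rfl, -, -⟩
            exact hproj b Y hY
          have halie : ∀ W ∈ sb ψ (p b) (st b = b), ∀ Y ∈ a, W * Y - Y * W ∈ a := by
            rintro W hW _ ⟨Y, hY, rfl, h1, h2⟩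
            obtain ⟨W', hW', rfl⟩ := hfull b hb2 W hW
            refine ⟨W' * Y - Y * W', hl W' hW' Y hY, ?_, hzero s W' hW' Y hY h1,
              fun t ht => hzero t W' hW' Y hY (h2 t ht)⟩
            rw [GouC_mul (hBD.pp b) (hcom b W' hW'), GouC_mul (hBD.pp b) (hcom b Y hY), mul_sub]
          obtain ⟨W, hW, hWZ⟩ : ∃ W ∈ sb ψ (p b) (st b = b), (p b * Z) * W ≠ W * (p b * Z) := by
            by_contra hno
            push Not at hno
            obtain ⟨c, hc⟩ := (hIrrB K V ψ (p b) (st b = b) (hblk b hb2)).2 _ (hproj b Z hZ).1 hno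
            exact hZb c hc
          obtain ⟨W', hW', hW'b, hW'S⟩ := ih b hbS hbS' W hW
          have hmem : p b * (Z * W' - W' * Z) ∈ a :=
            ⟨_, hl Z hZ W' hW', rfl, hzero' s Z hZ W' hW' hZs,
              fun t ht => hzero t Z hZ W' hW' (hW'S t ht)⟩
          refine hSimp K V ψ (p b) (st b = b) (hblk b hb2) a hale halie _ hmem ?_
          intro c hc
          have h1 : p b * (Z * W' - W' * Z) = (p b * Z) * W - W * (p b * Z) := by
            rw [← hW'b, GouC_mul (hBD.pp b) (hcom b Z hZ), GouC_mul (hBD.pp b) (hcom b W' hW'),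
              mul_sub]
          rw [h1] at hc
          have h2 := congrArg tr hc
          have h3 : tr ((p b * Z) * W - W * (p b * Z)) = 0 := by
            have h4 := tr_comm (p b * Z) W
            unfold tr at h4 ⊢
            rw [map_sub, h4, sub_self]
          rw [h3] at h2
          unfold tr at h2
          rw [map_smul, smul_eq_mul] at h2
          have hc0 : c = 0 :=
            (mul_eq_zero.mp h2.symm).resolve_right (GourG_tr_ne (hBD.pp b) (hBD.ne b))
          rw [hc0, zero_smul] at hc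
          exact hWZ (sub_eq_zero.mp hc)
        · refine le_trans (hPerf K V ψ (p b) (st b = b) (hblk b hb2)) (Submodule.span_le.mpr ?_)
          rintro _ ⟨X₁, hX₁, X₂, hX₂, rfl⟩
          obtain ⟨Y₁, hY₁, h1, h2⟩ := ih b hbS hbS' X₁ hX₁
          obtain ⟨Y₂, hY₂, h3, h4⟩ := ih b hbS hbS' X₂ hX₂
          refine ⟨Y₁ * Y₂ - Y₂ * Y₁, hl Y₁ hY₁ Y₂ hY₂, ?_, ?_,
            fun t ht => hzero t Y₁ hY₁ Y₂ hY₂ (h4 t ht)⟩
          · rw [← h1, ← h3, GouC_mul (hBD.pp b) (hcom b Y₁ hY₁),
              GouC_mul (hBD.pp b) (hcom b Y₂ hY₂), mul_sub]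
          · obtain ⟨c₁, hc₁⟩ := GourG_line (not_le.mp hs2) (p s * Y₁)
            obtain ⟨c₂, hc₂⟩ := GourG_line (not_le.mp hs2) (p s * Y₂)
            rw [(hproj s Y₁ hY₁).1] at hc₁
            rw [(hproj s Y₂ hY₂).1] at hc₂
            rw [mul_sub, ← GouC_mul (hBD.pp s) (hcom s Y₁ hY₁),
              ← GouC_mul (hBD.pp s) (hcom s Y₂ hY₂), hc₁, hc₂, smul_mul_smul_comm,
              smul_mul_smul_comm, mul_comm c₂ c₁, sub_self]
      obtain ⟨Y, hY, h1, h2, h3⟩ := hall hX
      refine ⟨Y, hY, h1, fun t ht => ?_⟩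
      rcases Finset.mem_insert.mp ht with h | h
      · rw [h, h2]
      · exact h3 t h
  intro X hX hXc hXt
  have hblock : ∀ b, p b * X + p (st b) * X ∈ g := by
    intro b
    have h1 : p b * X ∈ sb ψ (p b) (st b = b) := by
      refine ⟨?_, hXt b, fun ht => GouC_skew (fun x y => by rw [hBD.adj, ht]) (hXc b) hX⟩
      rw [← mul_assoc, hBD.pp, mul_assoc, ← hXc b, ← mul_assoc, hBD.pp]
    obtain ⟨Y, hY, h2, h3⟩ := key (Finset.univ.filter fun s => s ≠ b ∧ s ≠ st b) b
      (by simp) (by simp) _ h1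
    have h4 : p (st b) * Y = p (st b) * X := by
      refine LinearMap.ext fun x => ?_
      rw [← sub_eq_zero]
      refine hBD.nd _ fun y => ?_
      have e1 : ψ ((p (st b) * Y) x) y = - ψ x ((p b * Y) y) := by
        rw [Module.End.mul_apply, hBD.adj, hBD.inv, hsp Y hY, ← Module.End.mul_apply Y,
          ← hcom b Y hY]
      have e2 : ψ ((p (st b) * X) x) y = - ψ x ((p b * X) y) := by
        rw [Module.End.mul_apply, hBD.adj, hBD.inv, hX, ← Module.End.mul_apply X, ← hXc b]
      rw [map_sub, LinearMap.sub_apply, e1, e2, h2, sub_self]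
    rw [← h2, ← h4]
    have hY1 : ∑ s, p s * Y = Y := by rw [← Finset.sum_mul, hBD.sum, one_mul]
    by_cases hst : st b = b
    · have h5 : ∑ s, p s * Y = p b * Y := by
        rw [Finset.sum_eq_single b]
        · intro s _ hs
          exact h3 s (by simp [hs, hst])
        · intro h
          exact absurd (Finset.mem_univ b) h
      rw [hst, ← h5, hY1]
      exact add_mem hY hY
    · have h5 : ∑ s, p s * Y = p b * Y + p (st b) * Y := by
        have h6 : ∀ s ∉ ({b, st b} : Finset B), p s * Y = 0 := by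
          intro s hs
          rw [Finset.mem_insert, Finset.mem_singleton, not_or] at hs
          exact h3 s (by simp [hs.1, hs.2])
        rw [← Finset.sum_subset (Finset.subset_univ {b, st b}) (fun s _ hs => h6 s hs),
          Finset.sum_pair (fun h => hst h.symm)]
      rw [← h5, hY1]
      exact hY
  have hX1 : ∑ b, p b * X = X := by rw [← Finset.sum_mul, hBD.sum, one_mul]
  have hX2 : ∑ b, p (st b) * X = X :=
    (Equiv.sum_comp (Function.Involutive.toPerm st hBD.inv) (fun b => p b * X)).trans hX1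
  have h5 : X = (1 / 2 : K) • ∑ b, (p b * X + p (st b) * X) := by
    rw [Finset.sum_add_distrib, hX1, hX2]
    module
  rw [h5]
  exact Submodule.smul_mem _ _ (Submodule.sum_mem _ fun b _ => hblock b)

end Pool.Agent.Lib.MP_640417_ag.Tg
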