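import Pool.Agent.Lib.MP_640417_ag.Tg.SpecW

/-!
# An irreducible Lie algebra with a semisimple operator of rank one
-/

set_option autoImplicit false

namespace Pool.Agent.Lib.MP_640417_ag.Tg

open Module Pool.Agent.Lib.MP_640417_ag Pool.Agent.Lib.MP_640417_ag.Tor

namespace IdemOneA

variable {K U : Type} [Field K] [AddCommGroup U] [Module K U]

/-- operators which are in `g` up to a scalar -/
def ext (g : Submodule K (Module.End K U)) : Submodule K (Module.End K U) where
  carrier := {X | ∃ s : K, X + s • (1 : Module.End K U) ∈ g}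
  add_mem' := by
    rintro A B ⟨s, hs⟩ ⟨t, ht⟩
    refine ⟨s + t, ?_⟩
    have h : A + B + (s + t) • (1 : Module.End K U) =
        (A + s • (1 : Module.End K U)) + (B + t • (1 : Module.End K U)) := by
      rw [add_smul]
      abel
    rw [h]
    exact add_mem hs ht
  zero_mem' := ⟨0, by rw [zero_smul, add_zero]; exact zero_mem _⟩
  smul_mem' := by
    rintro c A ⟨s, hs⟩
    refine ⟨c * s, ?_⟩
    rw [mul_smul, ← smul_add]
    exact Submodule.smul_mem _ _ hs

lemma le_ext (g : Submodule K (Module.End K U)) : g ≤ ext g := fun X hX =>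
  ⟨0, by rw [zero_smul, add_zero]; exact hX⟩

lemma com_mem {g : Submodule K (Module.End K U)} (hg : Lie g) {X Y : Module.End K U}
    (hX : X ∈ ext g) (hY : Y ∈ ext g) : X * Y - Y * X ∈ g := by
  obtain ⟨s, hs⟩ := hX
  obtain ⟨t, ht⟩ := hY
  have h1 := hg _ hs _ ht
  have h2 : (X + s • (1 : Module.End K U)) * (Y + t • (1 : Module.End K U)) -
      (Y + t • (1 : Module.End K U)) * (X + s • (1 : Module.End K U)) = X * Y - Y * X := by
    simp only [add_mul, mul_add, smul_mul_assoc, mul_smul_comm, one_mul, mul_one]
    module
  rwa [h2] at h1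

/-- rank one operators, linear in both arguments -/
def rkOne (ξ : Module.Dual K U) (u : U) : Module.End K U := LinearMap.smulRight ξ u

lemma rkOne_apply (ξ : Module.Dual K U) (u x : U) : rkOne ξ u x = ξ x • u := rfl

end IdemOneA

open IdemOneA in
theorem pIdemOne : SIdemOne := by
  intro K U _ _ _ _ _ g hg hirr v φ a T hT hTu hc X hX
  set c : K := φ v with hcdef
  set E : Module.End K U := rkOne φ v with hE
  have hEx : ∀ x, E x = φ x • v := fun x => rfl
  have hEg : E ∈ ext g := by
    refine ⟨a, ?_⟩
    have h : E + a • (1 : Module.End K U) = T := by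
      refine LinearMap.ext fun u => ?_
      rw [hTu u]
      rfl
    rw [h]
    exact hT
  have hbr : ∀ {Y Z : Module.End K U}, Y ∈ ext g → Z ∈ ext g → Y * Z - Z * Y ∈ ext g :=
    fun hY hZ => le_ext g (com_mem hg hY hZ)
  -- products with `E`
  have hprod : ∀ Y ∈ ext g, E * Y ∈ ext g ∧ Y * E ∈ ext g := by
    intro Y hY
    have h1 := hbr hEg hY
    have h2 := hbr hEg h1
    have h3 : E * (E * Y - Y * E) - (E * Y - Y * E) * E =
        c • (E * Y + Y * E) - (2 * φ (Y v)) • E := by
      refine LinearMap.ext fun x => ?_
      simp only [LinearMap.sub_apply, LinearMap.add_apply, LinearMap.smul_apply,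
        Module.End.mul_apply, hEx, map_sub, map_smul, smul_eq_mul]
      rw [← hcdef]
      module
    rw [h3] at h2
    have h4 : c • (E * Y + Y * E) ∈ ext g := by
      have := add_mem h2 (Submodule.smul_mem _ (2 * φ (Y v)) hEg)
      rwa [sub_add_cancel] at this
    have h5 : E * Y + Y * E ∈ ext g := by
      have := Submodule.smul_mem _ c⁻¹ h4
      rwa [smul_smul, inv_mul_cancel₀ hc, one_smul] at this
    constructor
    · have h6 : E * Y = (1 / 2 : K) • ((E * Y + Y * E) + (E * Y - Y * E)) := by
        have : (E * Y + Y * E) + (E * Y - Y * E) = (2 : K) • (E * Y) := by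
          rw [two_smul]
          abel
        rw [this, smul_smul]
        norm_num
      rw [h6]
      exact Submodule.smul_mem _ _ (add_mem h5 h1)
    · have h6 : Y * E = (1 / 2 : K) • ((E * Y + Y * E) - (E * Y - Y * E)) := by
        have : (E * Y + Y * E) - (E * Y - Y * E) = (2 : K) • (Y * E) := by
          rw [two_smul]
          abel
        rw [this, smul_smul]
        norm_num
      rw [h6]
      exact Submodule.smul_mem _ _ (sub_mem h5 h1)
  -- the functionals
  let P : Submodule K (Module.Dual K U) :=
    { carrier := {ξ | rkOne ξ v ∈ ext g}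
      add_mem' := by
        intro ξ η h1 h2
        have h : rkOne (ξ + η) v = rkOne ξ v + rkOne η v := by
          refine LinearMap.ext fun x => ?_
          rw [LinearMap.add_apply, rkOne_apply, rkOne_apply, rkOne_apply, LinearMap.add_apply, add_smul]
        show rkOne (ξ + η) v ∈ ext g
        rw [h]
        exact add_mem h1 h2
      zero_mem' := by
        have h : rkOne (0 : Module.Dual K U) v = 0 := by
          refine LinearMap.ext fun x => ?_
          rw [rkOne_apply, LinearMap.zero_apply, LinearMap.zero_apply, zero_smul]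
        show rkOne (0 : Module.Dual K U) v ∈ ext g
        rw [h]
        exact zero_mem _
      smul_mem' := by
        intro k ξ h1
        have h : rkOne (k • ξ) v = k • rkOne ξ v := by
          refine LinearMap.ext fun x => ?_
          rw [LinearMap.smul_apply, rkOne_apply, rkOne_apply, LinearMap.smul_apply, smul_eq_mul, mul_smul]
        show rkOne (k • ξ) v ∈ ext g
        rw [h]
        exact Submodule.smul_mem _ _ h1 }
  have hPmem : ∀ ξ, ξ ∈ P ↔ rkOne ξ v ∈ ext g := fun ξ => Iff.rfl
  have hPst : ∀ ξ ∈ P, ∀ Y ∈ g, ξ ∘ₗ Y ∈ P := by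
    intro ξ hξ Y hY
    rw [hPmem] at hξ ⊢
    have h1 := (hprod _ (hbr hξ (le_ext g hY))).1
    have h2 : E * (rkOne ξ v * Y - Y * rkOne ξ v) = c • rkOne (ξ ∘ₗ Y) v - φ (Y v) • rkOne ξ v := by
      refine LinearMap.ext fun x => ?_
      simp only [LinearMap.sub_apply, LinearMap.smul_apply, LinearMap.comp_apply,
        Module.End.mul_apply, hEx, rkOne_apply, map_sub, map_smul, smul_eq_mul]
      rw [← hcdef]
      module
    rw [h2] at h1
    have h3 := add_mem h1 (Submodule.smul_mem _ (φ (Y v)) hξ)
    rw [sub_add_cancel] at h3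
    have h4 := Submodule.smul_mem _ c⁻¹ h3
    rwa [smul_smul, inv_mul_cancel₀ hc, one_smul] at h4
  have hPtop : P = ⊤ := by
    have h1 : P.dualCoannihilator = ⊥ := by
      rcases hirr P.dualCoannihilator le_top (by
        intro Y hY y hy
        rw [Submodule.mem_dualCoannihilator] at hy ⊢
        intro ξ hξ
        exact hy _ (hPst ξ hξ Y hY)) with h | h
      · exact h
      · exfalso
        have h2 : v ∈ P.dualCoannihilator := by
          rw [h]
          exact Submodule.mem_top
        rw [Submodule.mem_dualCoannihilator] at h2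
        exact hc (h2 φ hEg)
    have h2 := Subspace.dualCoannihilator_dualAnnihilator_eq (W := P)
    rw [h1, Submodule.dualAnnihilator_bot] at h2
    exact h2.symm
  -- the vectors
  let Q : Submodule K U :=
    { carrier := {u | rkOne φ u ∈ ext g}
      add_mem' := by
        intro u w h1 h2
        have h : rkOne φ (u + w) = rkOne φ u + rkOne φ w := by
          refine LinearMap.ext fun x => ?_
          rw [LinearMap.add_apply, rkOne_apply, rkOne_apply, rkOne_apply, smul_add]
        show rkOne φ (u + w) ∈ ext g
        rw [h]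
        exact add_mem h1 h2
      zero_mem' := by
        have h : rkOne φ (0 : U) = 0 := by
          refine LinearMap.ext fun x => ?_
          rw [rkOne_apply, LinearMap.zero_apply, smul_zero]
        show rkOne φ (0 : U) ∈ ext g
        rw [h]
        exact zero_mem _
      smul_mem' := by
        intro k u h1
        have h : rkOne φ (k • u) = k • rkOne φ u := by
          refine LinearMap.ext fun x => ?_
          rw [LinearMap.smul_apply, rkOne_apply, rkOne_apply, smul_comm]
        show rkOne φ (k • u) ∈ ext g
        rw [h]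
        exact Submodule.smul_mem _ _ h1 }
  have hQmem : ∀ u, u ∈ Q ↔ rkOne φ u ∈ ext g := fun u => Iff.rfl
  have hQtop : Q = ⊤ := by
    rcases hirr Q le_top (by
      intro Y hY u hu
      rw [hQmem] at hu ⊢
      have h1 := (hprod _ (hbr (le_ext g hY) hu)).2
      have h2 : (Y * rkOne φ u - rkOne φ u * Y) * E = c • rkOne φ (Y u) - φ (Y v) • rkOne φ u := by
        refine LinearMap.ext fun x => ?_
        simp only [LinearMap.sub_apply, LinearMap.smul_apply,
          Module.End.mul_apply, hEx, rkOne_apply, map_smul, smul_eq_mul]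
        rw [← hcdef]
        module
      rw [h2] at h1
      have h3 := add_mem h1 (Submodule.smul_mem _ (φ (Y v)) hu)
      rw [sub_add_cancel] at h3
      have h4 := Submodule.smul_mem _ c⁻¹ h3
      rwa [smul_smul, inv_mul_cancel₀ hc, one_smul] at h4) with h | h
    · exfalso
      have h1 : v ∈ Q := hEg
      rw [h, Submodule.mem_bot] at h1
      apply hc
      rw [hcdef, h1, map_zero]
    · exact h
  -- rank one operators modulo `E`
  have hone : ∀ (ξ : Module.Dual K U) (u : U), rkOne ξ u - (c⁻¹ * ξ u) • E ∈ g := by
    intro ξ u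
    have h1 : rkOne φ u ∈ ext g := by
      rw [← hQmem, hQtop]
      exact Submodule.mem_top
    have h2 : rkOne ξ v ∈ ext g := by
      rw [← hPmem, hPtop]
      exact Submodule.mem_top
    have h3 := com_mem hg h1 h2
    have h4 : rkOne φ u * rkOne ξ v - rkOne ξ v * rkOne φ u = c • (rkOne ξ u - (c⁻¹ * ξ u) • E) := by
      refine LinearMap.ext fun x => ?_
      simp only [LinearMap.sub_apply, LinearMap.smul_apply,
        Module.End.mul_apply, hEx, rkOne_apply, map_smul, smul_eq_mul]
      have e1 : c • (ξ x • u - (c⁻¹ * ξ u) • φ x • v) =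
          (ξ x * c) • u - ((c * c⁻¹) * (φ x * ξ u)) • v := by
        module
      rw [← hcdef, e1, mul_inv_cancel₀ hc, one_mul]
      module
    rw [h4] at h3
    have h5 := Submodule.smul_mem _ c⁻¹ h3
    rwa [smul_smul, inv_mul_cancel₀ hc, one_smul] at h5
  -- a basis
  let b := Module.finBasis K U
  have hXs : X = ∑ i, rkOne (b.coord i) (X (b i)) := by
    refine b.ext fun j => ?_
    rw [LinearMap.sum_apply]
    simp only [rkOne_apply, Basis.coord_apply, Basis.repr_self]
    rw [Finset.sum_eq_single j]
    · rw [Finsupp.single_eq_same, one_smul]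
    · intro i _ hij
      rw [Finsupp.single_eq_of_ne hij, zero_smul]
    · intro h
      exact absurd (Finset.mem_univ j) h
  have htr : ∑ i, b.coord i (X (b i)) = 0 := by
    have h1 := hX
    unfold tr at h1
    rw [LinearMap.trace_eq_matrix_trace K b] at h1
    rw [← h1]
    unfold Matrix.trace
    refine Finset.sum_congr rfl fun i _ => ?_
    rw [Matrix.diag_apply, LinearMap.toMatrix_apply, Basis.coord_apply]
  have hfin : X = ∑ i, (rkOne (b.coord i) (X (b i)) - (c⁻¹ * b.coord i (X (b i))) • E) := by
    rw [Finset.sum_sub_distrib, ← hXs, ← Finset.sum_smul, ← Finset.mul_sum, htr, mul_zero,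
      zero_smul, sub_zero]
  rw [hfin]
  exact Submodule.sum_mem _ fun i _ => hone _ _

end Pool.Agent.Lib.MP_640417_ag.Tg
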