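import Pool.Agent.Lib.MP_640417_ag.Tg.SpecA
import Pool.Agent.Lib.MP_640417_ag.Tor.GouA
import Pool.Agent.Lib.MP_640417_ag.Tor.Adj

/-!
# Toric places, no factors of type III: a block is irreducible
-/

namespace Pool.Agent.Lib.MP_640417_ag.Tg

open Module Pool.Agent.Lib.MP_640417_ag.Tor

section

variable {K V : Type} [Field K] [AddCommGroup V] [Module K V]

/-- Operators of rank one with trace zero on the range of `p`. -/
lemma IrrB_rankOne {ψ : LinearMap.BilinForm K V} [FiniteDimensional K V] {p : Module.End K V}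
    {t : Prop} (ht : ¬ t) (hpp : p * p = p) (φ : V →ₗ[K] K) {x : V} (hx : p x = x)
    (hφ : φ x = 0) : (φ.comp p).smulRight x ∈ sb ψ p t := by
  refine ⟨?_, ?_, fun h => absurd h ht⟩
  · ext y
    rw [Module.End.mul_apply, Module.End.mul_apply, LinearMap.smulRight_apply,
      LinearMap.smulRight_apply, map_smul, hx, LinearMap.comp_apply, LinearMap.comp_apply,
      ← Module.End.mul_apply, hpp]
  · unfold tr
    rw [LinearMap.trace_smulRight, LinearMap.comp_apply, hx, hφ]

/-- Operators for which all vectors of a block are eigenvectors are scalar. -/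
lemma IrrB_scalar {p Y : Module.End K V} (hpp : p * p = p) (hY : p * Y * p = Y)
    (h : ∀ u, p u = u → ∃ c : K, Y u = c • u) : ∃ c : K, Y = c • p := by
  have hYp : ∀ x, Y (p x) = Y x := by
    intro x
    rw [← Module.End.mul_apply, ← hY, mul_assoc, hpp, hY]
  by_cases h0 : ∃ u, p u = u ∧ u ≠ 0
  · obtain ⟨u, hu, hu0⟩ := h0
    obtain ⟨c, hc⟩ := h u hu
    refine ⟨c, ?_⟩
    ext x
    rw [← hYp x, LinearMap.smul_apply]
    have hv : p (p x) = p x := by rw [← Module.End.mul_apply, hpp]
    generalize p x = v at hv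
    by_cases hs : ∃ s : K, v = s • u
    · obtain ⟨s, rfl⟩ := hs
      rw [map_smul, hc, smul_comm]
    · push Not at hs
      obtain ⟨d, hd⟩ := h v hv
      obtain ⟨e, he⟩ := h (u + v) (by rw [map_add, hu, hv])
      rw [map_add, hc, hd, smul_add] at he
      have h1 : (e - d) • v = (c - e) • u := by
        rw [sub_smul, sub_smul]
        have h2 : d • v - e • v = e • u - c • u := by
          rw [sub_eq_sub_iff_add_eq_add, add_comm, he]
        rw [← neg_sub (d • v), h2, neg_sub]
      have h3 : e - d = 0 := by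
        by_contra hne
        apply hs ((e - d)⁻¹ * (c - e))
        rw [mul_smul, ← h1, smul_smul, inv_mul_cancel₀ hne, one_smul]
      rw [h3, zero_smul] at h1
      have h4 : c - e = 0 := (smul_eq_zero.mp h1.symm).resolve_right hu0
      rw [hd, ← sub_eq_zero.mp h3, ← sub_eq_zero.mp h4]
  · push Not at h0
    refine ⟨0, ?_⟩
    ext x
    rw [← hYp x, h0 (p x) (by rw [← Module.End.mul_apply, hpp]), map_zero, zero_smul,
      LinearMap.zero_apply]

/-- A functional with given values on two independent vectors. -/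
lemma IrrB_dual {u x : V} (hu : u ≠ 0) (hx : ∀ c : K, x ≠ c • u) :
    ∃ φ : V →ₗ[K] K, φ u = 0 ∧ φ x = 1 := by
  have h1 : x ∉ Submodule.span K {u} := by
    intro h
    obtain ⟨c, hc⟩ := Submodule.mem_span_singleton.mp h
    exact hx c hc.symm
  obtain ⟨f, hf, hfu⟩ := Submodule.exists_le_ker_of_notMem h1
  refine ⟨(f x)⁻¹ • f, ?_, ?_⟩
  · have h2 : f u = 0 := hfu (Submodule.mem_span_singleton_self u)
    rw [LinearMap.smul_apply, h2, smul_zero]
  · rw [LinearMap.smul_apply, smul_eq_mul, inv_mul_cancel₀ hf]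

/-- A block of rank at least two has a vector independent of a given one. -/
lemma IrrB_two [FiniteDimensional K V] {p : Module.End K V} (hpp : p * p = p) (h2 : 2 ≤ rk p)
    (u : V) : ∃ w, p w = w ∧ ∀ c : K, w ≠ c • u := by
  by_contra hne
  push Not at hne
  have h3 : LinearMap.range p ≤ Submodule.span K {u} := by
    rintro _ ⟨x, rfl⟩
    obtain ⟨c, hc⟩ := hne (p x) (by rw [← Module.End.mul_apply, hpp])
    rw [hc]
    exact Submodule.smul_mem _ _ (Submodule.mem_span_singleton_self u)
  have h4 := (Submodule.finrank_mono h3).trans (finrank_span_le_card ({u} : Set V))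
  rw [Set.toFinset_card, Fintype.card_unique] at h4
  unfold rk at h2
  omega

end

theorem pIrrB : SIrrB := by
  intro K V _ _ _ _ _ _ ψ p t hB
  have hsk : ∀ X ∈ spb ψ p, X ∈ sb ψ p t := fun X hX =>
    ⟨hX.2, tr_skew ψ hB.nd hX.1, fun _ => hX.1⟩
  refine ⟨?_, ?_⟩
  · intro W' hle hst
    by_cases hbot : W' = ⊥
    · exact Or.inl hbot
    · right
      obtain ⟨u, huW, hu0⟩ := (Submodule.ne_bot_iff _).mp hbot
      have hup : p u = u := by
        obtain ⟨y, rfl⟩ := hle huW
        rw [← Module.End.mul_apply, hB.pp]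
      refine le_antisymm hle ?_
      rintro _ ⟨x', rfl⟩
      have hx : p (p x') = p x' := by rw [← Module.End.mul_apply, hB.pp]
      generalize p x' = x at hx
      by_cases ht : t
      · obtain ⟨X, hX, hXu⟩ := GouA_move hB.anti hB.nd hB.pp (hB.adj ht) hup hu0 hx
        rw [← hXu]
        exact hst X (hsk X hX) u huW
      · by_cases hs : ∃ c : K, x = c • u
        · obtain ⟨c, rfl⟩ := hs
          exact Submodule.smul_mem _ _ huW
        · push Not at hs
          have hx0 : x ≠ 0 := fun h0 => hs 0 (by rw [h0, zero_smul])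
          have hux : ∀ c : K, u ≠ c • x := by
            intro c hc
            by_cases hc0 : c = 0
            · rw [hc0, zero_smul] at hc
              exact hu0 hc
            · apply hs c⁻¹
              rw [hc, smul_smul, inv_mul_cancel₀ hc0, one_smul]
          obtain ⟨φ, hφx, hφu⟩ := IrrB_dual hx0 hux
          have h1 := hst _ (IrrB_rankOne (ψ := ψ) ht hB.pp φ hx hφx) u huW
          rw [LinearMap.smulRight_apply, LinearMap.comp_apply, hup, hφu, one_smul] at h1
          exact h1
  · intro Y hY hcomm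
    refine IrrB_scalar hB.pp hY (fun u hu => ?_)
    by_cases hu0 : u = 0
    · exact ⟨0, by rw [hu0, map_zero, smul_zero]⟩
    by_cases ht : t
    · obtain ⟨w, hw, hwu⟩ := GouA_pair hB.anti hB.nd hB.pp (hB.adj ht) hu hu0
      have h1 := hcomm _ (hsk _ (GouA_T hB.anti (hB.adj ht) hu hu))
      have h2 := LinearMap.congr_fun h1 w
      rw [Module.End.mul_apply, Module.End.mul_apply, RankOne_T_apply, RankOne_T_apply,
        hB.anti u w, hwu, map_add, map_smul] at h2
      refine ⟨- ψ u (Y w), ?_⟩
      have h3 : (2 : K) • Y u = (2 : K) • (- ψ u (Y w) • u) := by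
        have h4 : (2 : K) • Y u = -((-(1 : K)) • Y u + (-(1 : K)) • Y u) := by module
        rw [h4, h2]
        module
      exact smul_right_injective V (two_ne_zero : (2 : K) ≠ 0) h3
    · obtain ⟨w, hw, hwu⟩ := IrrB_two hB.pp hB.two u
      obtain ⟨φ, hφu, hφw⟩ := IrrB_dual hu0 hwu
      have h1 := hcomm _ (IrrB_rankOne (ψ := ψ) ht hB.pp φ hu hφu)
      have h2 := LinearMap.congr_fun h1 w
      rw [Module.End.mul_apply, Module.End.mul_apply, LinearMap.smulRight_apply,
        LinearMap.smulRight_apply, LinearMap.comp_apply, hw, hφw, one_smul] at h2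
      exact ⟨_, h2⟩

end Pool.Agent.Lib.MP_640417_ag.Tg
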