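import Pool.Agent.Lib.MP_640417_ag.Tg.SpecR

/-!
# Toric places: the range of a minimal idempotent is irreducible
-/

set_option autoImplicit false

namespace Pool.Agent.Lib.MP_640417_ag.Tg

open Module TensorProduct Pool.Agent.Lib.MP_640417_ag Pool.Agent.Lib.MP_640417_ag.Tor
  Pool.Agent.Lib.MP_640417_ag.Lef Pool.Agent.Lib.MP_640417_ag.Frob
  Pool.Agent.Lib.MP_640417_ag.Glob Pool.Agent.Lib.MP_640417_ag.Ty
  Pool.Agent.Lib.MP_640417_ag.Ctl

theorem pIrrE : SIrrE := by
  intro K V _ _ _ ψ L C hC N st ε hs j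
  have hcom : ∀ X ∈ L, ∀ y, ε j (X y) = X (ε j y) := fun X hX y =>
    LinearMap.congr_fun (hC.com X hX _ (hs.mem j)) y
  have hid : ∀ y ∈ LinearMap.range (ε j), ε j y = y := by
    rintro _ ⟨y, rfl⟩
    exact LinearMap.congr_fun (hs.idem j) y
  refine ⟨?_, ?_, ?_⟩
  · intro h
    exact hs.ne j (LinearMap.range_eq_bot.mp h)
  · rintro X hX _ ⟨y, rfl⟩
    exact ⟨X y, hcom X hX y⟩
  · intro W' hW' hst
    obtain ⟨q, hq, hq1, hq2⟩ := hC.proj W' hst
    obtain ⟨t, ht⟩ := hs.one j q hq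
    by_cases h0 : W' = ⊥
    · exact Or.inl h0
    · right
      obtain ⟨y, hy, hy0⟩ := Submodule.exists_mem_ne_zero_of_ne_bot h0
      have h1 : ε j (q (ε j y)) = t • ε j y := LinearMap.congr_fun ht y
      rw [hid y (hW' hy), hq2 y hy, hid y (hW' hy)] at h1
      have ht1 : t = 1 := by
        have h2 : (t - 1) • y = 0 := by
          rw [sub_smul, one_smul, ← h1, sub_self]
        exact sub_eq_zero.mp ((smul_eq_zero.mp h2).resolve_right hy0)
      refine le_antisymm hW' fun x hx => ?_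
      have h2 : ε j (q (ε j x)) = t • ε j x := LinearMap.congr_fun ht x
      rw [ht1, one_smul, hid x hx, hid _ (hW' (hq1 x))] at h2
      rw [← h2]
      exact hq1 x

end Pool.Agent.Lib.MP_640417_ag.Tg
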