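import Pool.Agent.Lib.MP_640417_ag.Tg.SpecA
import Pool.Agent.Lib.MP_640417_ag.Tor.Sl

/-!
# Toric places, no factors of type III: a square-zero element lies in an `sl₂`

The proof is the one of `pSl` (`Tor/Sl.lean`), which only uses the nondegeneracy of the trace form.
-/

namespace Pool.Agent.Lib.MP_640417_ag.Tg

open Module Pool.Agent.Lib.MP_640417_ag.Tor

/-- A square-zero element lies in an `sl₂`. -/
theorem pJm : SJm := by
  intro K V _ _ _ _ _ g hlie hnd N hN hNN
  -- step 1
  obtain ⟨X, hX, hNX⟩ : ∃ X ∈ g, N * X * N = N := by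
    let φ : g →ₗ[K] g :=
      { toFun := fun X => ⟨N * X.1 * N, sandwich_mem hlie hN hNN X.2⟩
        map_add' := by
          intro X Y
          apply Subtype.ext
          simp only [Submodule.coe_add, mul_add, add_mul]
        map_smul' := by
          intro c X
          apply Subtype.ext
          simp only [Submodule.coe_smul, mul_smul_comm, smul_mul_assoc, RingHom.id_apply] }
    by_contra hne
    have h1 : (⟨N, hN⟩ : g) ∉ LinearMap.range φ := by
      rintro ⟨X, hX⟩
      exact hne ⟨X.1, X.2, congrArg Subtype.val hX⟩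
    obtain ⟨χ, hχ, hker⟩ := Submodule.exists_le_ker_of_notMem h1
    obtain ⟨Z, hZ, hZr⟩ := Sl_repr g hnd χ
    have h2 : N * Z * N = 0 := by
      refine hnd _ (sandwich_mem hlie hN hNN hZ) fun Y hY => ?_
      have h3 : χ (φ ⟨Y, hY⟩) = 0 := hker ⟨_, rfl⟩
      rw [hZr] at h3
      have h4 : tr (N * Z * N * Y) = tr (Z * (N * Y * N)) := by
        rw [tr_comm Z]
        have h5 : N * Z * N * Y = N * (Z * N * Y) := by noncomm_ring
        rw [h5, tr_comm N]
        have h6 : Z * N * Y * N = Z * (N * Y * N) := by noncomm_ring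
        rw [h6, tr_comm Z]
      rw [h4]
      exact h3
    apply hχ
    rw [hZr]
    have h7 : (Z * N) * (Z * N) = 0 := by
      have : (Z * N) * (Z * N) = Z * (N * Z * N) := by noncomm_ring
      rw [this, h2, mul_zero]
    exact (LinearMap.isNilpotent_trace_of_isNilpotent ⟨2, by rw [pow_two, h7]⟩).eq_zero
  -- step 2
  set P : Module.End K V := N * X with hP
  set Q : Module.End K V := X * N with hQ
  have PP : P * P = P := by rw [hP, ← mul_assoc, hNX]
  have QQ : Q * Q = Q := by
    rw [hQ]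
    have : X * N * (X * N) = X * (N * X * N) := by noncomm_ring
    rw [this, hNX]
  have QP : Q * P = 0 := by
    rw [hQ, hP]
    have : X * N * (N * X) = X * (N * N) * X := by noncomm_ring
    rw [this, hNN, mul_zero, zero_mul]
  have hH : P - Q ∈ g := hlie N hN X hX
  have HH : (P - Q) * (P - Q) = P - P * Q + Q := by
    have : (P - Q) * (P - Q) = P * P - P * Q - Q * P + Q * Q := by noncomm_ring
    rw [this, PP, QP, QQ, sub_zero]
  have HHH : (P - Q) * ((P - Q) * (P - Q)) = P - Q := by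
    rw [HH]
    have : (P - Q) * (P - P * Q + Q) = P * P - (P * P) * Q + P * Q - Q * P + (Q * P) * Q
      - Q * Q := by noncomm_ring
    rw [this, PP, QP, QQ, zero_mul, sub_zero, add_zero]
    abel
  set H : Module.End K V := P - Q with hHdef
  set E1 : Module.End K V := (1 / 2 : K) • (H * H + H) with hE1
  set E2 : Module.End K V := (1 / 2 : K) • (H * H - H) with hE2
  set E0 : Module.End K V := 1 - H * H with hE0
  have HHH' : H * H * H = H := by rw [mul_assoc, HHH]
  have H1 : H * E1 = (1 : K) • E1 := by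
    rw [hE1, mul_smul_comm, mul_add, HHH, one_smul, add_comm]
  have H2 : H * E2 = (-1 : K) • E2 := by
    rw [hE2, mul_smul_comm, mul_sub, HHH]
    module
  have H0 : H * E0 = (0 : K) • E0 := by
    rw [hE0, mul_sub, HHH, mul_one, sub_self, zero_smul]
  have K1 : E1 * H = (1 : K) • E1 := by
    rw [hE1, smul_mul_assoc, add_mul, HHH', one_smul, add_comm]
  have K2 : E2 * H = (-1 : K) • E2 := by
    rw [hE2, smul_mul_assoc, sub_mul, HHH']
    module
  have K0 : E0 * H = (0 : K) • E0 := by
    rw [hE0, sub_mul, HHH', one_mul, sub_self, zero_smul]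
  have hE : E1 + E0 + E2 = 1 := by
    rw [hE1, hE0, hE2]
    module
  have E12 : E1 * E2 = 0 := by
    have h1 : E1 * E2 = E1 * H * E2 := by rw [K1, one_smul]
    have h2 : E1 * H * E2 = - (E1 * E2) := by
      rw [mul_assoc, H2, neg_smul, one_smul, mul_neg]
    rw [h2] at h1
    have h3 : (2 : K) • (E1 * E2) = 0 := by
      rw [two_smul]
      nth_rw 1 [h1]
      exact neg_add_cancel _
    exact (smul_eq_zero.mp h3).resolve_left two_ne_zero
  have hDg : ∀ Y ∈ g, Grade_D H Y ∈ g := fun Y hY => hlie _ hH Y hY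
  have hsum : (E1 * X * E2) + (E1 * X * E0 + E0 * X * E2)
      + (E1 * X * E1 + E0 * X * E0 + E2 * X * E2)
      + (E0 * X * E1 + E2 * X * E0) + (E2 * X * E1) = X := by
    have h1 : (E1 * X * E2) + (E1 * X * E0 + E0 * X * E2)
      + (E1 * X * E1 + E0 * X * E0 + E2 * X * E2)
      + (E0 * X * E1 + E2 * X * E0) + (E2 * X * E1) =
      (E1 + E0 + E2) * X * (E1 + E0 + E2) := by noncomm_ring
    rw [h1, hE, one_mul, mul_one]
  have a2 : Grade_D H (E1 * X * E2) = (2 : K) • (E1 * X * E2) := by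
    rw [Grade_D_eig H1 K2]
    norm_num
  have a1 : Grade_D H (E1 * X * E0 + E0 * X * E2) = E1 * X * E0 + E0 * X * E2 := by
    rw [map_add, Grade_D_eig H1 K0, Grade_D_eig H0 K2, sub_zero, zero_sub, neg_neg, one_smul,
      one_smul]
  have a0 : Grade_D H (E1 * X * E1 + E0 * X * E0 + E2 * X * E2) = 0 := by
    rw [map_add, map_add, Grade_D_eig H1 K1, Grade_D_eig H0 K0, Grade_D_eig H2 K2]
    simp
  have b1 : Grade_D H (E0 * X * E1 + E2 * X * E0) = -(E0 * X * E1 + E2 * X * E0) := by
    rw [map_add, Grade_D_eig H0 K1, Grade_D_eig H2 K0]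
    module
  have b2 : Grade_D H (E2 * X * E1) = -(2 : K) • (E2 * X * E1) := by
    rw [Grade_D_eig H2 K1]
    norm_num
  obtain ⟨-, hf₀, -⟩ := Grade_aux (Grade_D H) hDg a2 a1 a0 b1 b2 (by rw [hsum]; exact hX)
  set f₀ : Module.End K V := E2 * X * E1 with hf₀def
  have hff : f₀ * f₀ = 0 := by
    have : f₀ * f₀ = E2 * X * (E1 * E2) * X * E1 := by
      rw [hf₀def]
      noncomm_ring
    rw [this, E12, mul_zero, zero_mul, zero_mul]
  -- `N = E1 N E2`
  have HN : H * N = N := by
    rw [hHdef, sub_mul, hP, hQ, hNX, mul_assoc X, hNN, mul_zero, sub_zero]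
  have NH : N * H = - N := by
    rw [hHdef, mul_sub, hP, hQ, ← mul_assoc, ← mul_assoc, hNN, zero_mul, hNX, zero_sub]
  have E1N : E1 * N = N := by
    rw [hE1, smul_mul_assoc, add_mul, mul_assoc, HN, HN]
    module
  have NE2 : N * E2 = N := by
    rw [hE2, mul_smul_comm, mul_sub, ← mul_assoc, NH, neg_mul, NH]
    module
  have hNf : N * f₀ * N = N := by
    have : N * f₀ * N = (N * E2) * X * (E1 * N) := by
      rw [hf₀def]
      noncomm_ring
    rw [this, NE2, E1N, hNX]
  -- step 3
  refine ⟨f₀ * N * f₀, hN, sandwich_mem hlie hf₀ hff hN, hNN, ?_, ?_, ?_⟩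
  · have : f₀ * N * f₀ * (f₀ * N * f₀) = f₀ * N * (f₀ * f₀) * N * f₀ := by noncomm_ring
    rw [this, hff, mul_zero, zero_mul, zero_mul]
  · have : N * (f₀ * N * f₀) * N = (N * f₀ * N) * f₀ * N := by noncomm_ring
    rw [this, hNf, hNf]
  · have : f₀ * N * f₀ * N * (f₀ * N * f₀) = f₀ * (N * f₀ * N) * f₀ * N * f₀ := by noncomm_ring
    rw [this, hNf]
    have : f₀ * N * f₀ * N * f₀ = f₀ * (N * f₀ * N) * f₀ := by noncomm_ring
    rw [this, hNf]

end Pool.Agent.Lib.MP_640417_ag.Tg
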