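import Pool.Agent.Lib.MP_640417_ag.Tg.SpecY

/-!
# The Lie algebra on `W`
-/

set_option autoImplicit false

namespace Pool.Agent.Lib.MP_640417_ag.Tg

open Module Pool.Agent.Lib.MP_640417_ag Pool.Agent.Lib.MP_640417_ag.Tor

theorem pLWa : SLWa := by
  intro K V _ _ _ L W hL hW
  obtain ⟨hne, hst, hirr⟩ := hW
  refine ⟨?_, ?_⟩
  · rintro Y ⟨X, hX, h1⟩ Z ⟨X', hX', h2⟩
    refine ⟨X * X' - X' * X, hL X hX X' hX', fun x => ?_⟩
    rw [LinearMap.sub_apply, Module.End.mul_apply, Module.End.mul_apply, h2 x, h1 x, h1 (Z x),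
      h2 (Y x), LinearMap.sub_apply, Module.End.mul_apply, Module.End.mul_apply,
      Submodule.coe_sub]
  · intro W' _ hW'
    have hinj : Function.Injective (Submodule.map W.subtype) :=
      Submodule.map_injective_of_injective W.subtype_injective
    have key := hirr (W'.map W.subtype) (Submodule.map_subtype_le W W') (by
      rintro X hX _ ⟨w, hw, rfl⟩
      have hs : ∀ x ∈ W, X x ∈ W := fun x hx => hst X hX x hx
      have hY : X.restrict hs ∈ LW L W := ⟨X, hX, fun x => by
        rw [LinearMap.coe_restrict_apply]⟩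
      exact ⟨X.restrict hs w, hW' _ hY w hw, by
        rw [Submodule.subtype_apply, LinearMap.coe_restrict_apply, Submodule.subtype_apply]⟩)
    rcases key with h | h
    · left
      apply hinj
      rw [h, Submodule.map_bot]
    · right
      apply hinj
      rw [h, Submodule.map_subtype_top]

end Pool.Agent.Lib.MP_640417_ag.Tg
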