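import Pool.Agent.Lib.MP_640417_ag.Tg.SpecR
import Pool.Agent.Lib.MP_640417_ag.Tor.Nil
import Pool.Agent.Lib.MP_640417_ag.Tor.CoordT
import Pool.Agent.Lib.MP_640417_ag.Ctl.Main

/-!
# Toric places, no factors of type III: unipotent elements
-/

set_option autoImplicit false

namespace Pool.Agent.Lib.MP_640417_ag.Tg

open Module TensorProduct Pool.Agent.Lib.MP_640417_ag Pool.Agent.Lib.MP_640417_ag.Tor
  Pool.Agent.Lib.MP_640417_ag.Glob Pool.Agent.Lib.MP_640417_ag.Ctl

/-- extension of scalars for skew operators -/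
theorem NilT_base {F K V : Type} [Field F] [Field K] [Algebra F K] [AddCommGroup V] [Module F V]
    (B : LinearMap.BilinForm F V) (X : Module.End F V) (h : ∀ x y, B (X x) y + B x (X y) = 0) :
    Skew (B.baseChange K) (X.baseChange K) := by
  intro x y
  induction x using TensorProduct.induction_on with
  | zero => simp
  | add x₁ x₂ h₁ h₂ => simp only [map_add, LinearMap.add_apply, h₁, h₂, neg_add]
  | tmul a v =>
    induction y using TensorProduct.induction_on with
    | zero => simp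
    | add y₁ y₂ h₁ h₂ => simp only [map_add, h₁, h₂, neg_add]
    | tmul b w =>
      rw [LinearMap.baseChange_tmul, LinearMap.baseChange_tmul,
        LinearMap.BilinForm.baseChange_tmul, LinearMap.BilinForm.baseChange_tmul,
        eq_neg_of_add_eq_zero_left (h v w), neg_smul]

theorem pNilT : SNilT := by
  intro l _ Γ _ _ V _ _ _ ρ K _ _ γ hN
  classical
  let e := Module.finBasis ℚ_[l] V
  obtain ⟨R, hM, -, hJ⟩ := exists_coord ρ e
  have hl : ‖((l : ℕ) : ℚ_[l])‖ < 1 := by
    rw [Padic.norm_p]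
    exact inv_lt_one_of_one_lt₀ (by exact_mod_cast (Fact.out : l.Prime).one_lt)
  have hl0 : ((l : ℕ) : ℚ_[l]) ≠ 0 := by exact_mod_cast (Fact.out : l.Prime).ne_zero
  have hm : LinearMap.toMatrix e e (ρ.T γ - 1) = R.M γ - 1 := by
    rw [hM, map_sub, LinearMap.toMatrix_one]
  have h0 : (R.M γ - 1) * (R.M γ - 1) = 0 := by
    rw [← hm, ← LinearMap.toMatrix_mul, hN, map_zero]
  obtain ⟨h1, h2⟩ := pNil ℚ_[l] _ Γ R l hl hl0 γ h0
  rw [← hm] at h1 h2
  have h3 := (CoordT_tan hM _).2 h1
  have h4 := (coord_skew ρ e R hJ _).1 h2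
  exact ⟨Submodule.subset_span ⟨_, h3, rfl⟩, NilT_base ρ.form _ h4⟩

end Pool.Agent.Lib.MP_640417_ag.Tg
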