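import Pool.Agent.Lib.MP_640417_ag.Tg.SpecR
import Pool.Agent.Lib.MP_640417_ag.Tg.NilT
import Pool.Agent.Lib.MP_640417_ag.Lef.Eps
import Pool.Agent.Lib.MP_640417_ag.Lef.RegL
import Pool.Agent.Lib.MP_640417_ag.Lef.Units
import Pool.Agent.Lib.MP_640417_ag.Four.Span

/-!
# Toric places, no factors of type III: the Lie algebra contains the Lefschetz Lie algebra
-/

set_option autoImplicit false

namespace Pool.Agent.Lib.MP_640417_ag.Tg

open Module TensorProduct Pool.Agent.Lib.MP_640417_ag Pool.Agent.Lib.MP_640417_ag.Tor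
  Pool.Agent.Lib.MP_640417_ag.Lef Pool.Agent.Lib.MP_640417_ag.Frob
  Pool.Agent.Lib.MP_640417_ag.Glob Pool.Agent.Lib.MP_640417_ag.Ty
  Pool.Agent.Lib.MP_640417_ag.Ctl

open Pool.Agent.Lib.MP_640417_ag.Four (Semisimple sum_cp cp cp_mul_baseChange cp_baseChange_mul)

/-- elements of the commutant over the extension are combinations of elements of the commutant -/
theorem LefT_comm {Γ : Type} [Group Γ] {F : Type} [Field F] [CharZero F] {V : Type}
    [AddCommGroup V] [Module F V] [FiniteDimensional F V] (K : Type) [Field K] [Algebra F K]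
    (T : Γ →* Module.End F V) (X : Module.End F V)
    (hX : ∀ c : Module.End F V, (∀ γ, c * T γ = T γ * c) → X * c = c * X)
    (c : Module.End K (K ⊗[F] V)) (hc : c ∈ cenK K T) :
    X.baseChange K * c = c * X.baseChange K := by
  classical
  let b := Module.Free.chooseBasis F K
  have hm : ∀ g g' : Module.End F V, (g * g').baseChange K = g.baseChange K * g'.baseChange K :=
    fun g g' => LinearMap.baseChange_comp g' g
  obtain ⟨τ, hτ⟩ := sum_cp b c
  rw [hτ, Finset.mul_sum, Finset.sum_mul]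
  refine Finset.sum_congr rfl fun t _ => ?_
  rw [mul_smul_comm, smul_mul_assoc, ← hm, ← hm, hX]
  intro γ
  rw [← cp_mul_baseChange, ← cp_baseChange_mul]
  rw [cenK, Subalgebra.mem_centralizer_iff] at hc
  rw [hc _ ⟨γ, rfl⟩]

theorem LefT_sub {K W : Type} [Field K] [AddCommGroup W] [Module K W] {Y z c : Module.End K W}
    (h1 : Y * c = c * Y) (h2 : z * c = c * z) : (Y - z) * c = c * (Y - z) := by
  rw [sub_mul, mul_sub, h1, h2]

theorem pLefT (hFull : SFullG) (hSplit : SSplit) (hCc : SCcL) (hNil : SNilT)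
    (hDesc : SDescT) : SLefT := by
  intro l _ Γ _ _ _ _ V _ _ _ ρ hss h3 K _ _ _ hT hNT I _ _ e R hM hJ X hX
  classical
  obtain ⟨U, hU⟩ := exists_U0 ρ
  have hCK : CharZero K := charZero_of_injective_algebraMap (algebraMap ℚ_[l] K).injective
  have hC := hCc l Γ V ρ hss U hU K
  obtain ⟨s, s', hs, hadj, hs', hsq, hs2, hs3⟩ := h3
  have hres : ∀ c, CommF ρ c → ∀ γ : U, c * (res ρ U).T γ = (res ρ U).T γ * c :=
    fun c hc γ => (hU γ).1 γ.2 c hc
  have hres' : ∀ c, (∀ γ : U, c * (res ρ U).T γ = (res ρ U).T γ * c) → CommF ρ c :=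
    fun c hc => ⟨U, fun γ hγ => hc ⟨γ, hγ⟩⟩
  obtain ⟨N, st, ε, hS⟩ := exists_sys K (res ρ U).T ρ.form ρ.form_alt ρ.form_nondeg s s'
    (hres s hs) hadj hs' hsq (fun c hc => hs2 c (hres' c hc)) (fun c hc => hs3 c (hres' c hc))
  have hreg := reg_L K (res ρ U).T (semi_res ρ U hss)
  have hadjC := adjC_L K (res ρ U).T ρ.form ρ.form_alt ρ.form_nondeg
    (fun γ => ((res ρ U).χ γ)⁻¹) (fun γ => (res ρ U).form_equivariant γ)
  obtain ⟨r, u, v, hUV⟩ := exists_uv hC.alt hC.nd hS hreg hadjC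
  have hTG : ToricG (ρ.form.baseChange K) (LieK l ρ K) := by
    intro W hW
    rcases hT W hW with h | ⟨γ, h1, h2⟩
    · exact Or.inl h
    · obtain ⟨h4, h5⟩ := hNil l Γ V ρ K γ h1
      refine Or.inr ⟨_, h4, ?_, h5, h2⟩
      have h6 : ((ρ.T γ - 1) * (ρ.T γ - 1)).baseChange K =
        (ρ.T γ - 1).baseChange K * (ρ.T γ - 1).baseChange K := LinearMap.baseChange_comp _ _
      rw [← h6, h1, LinearMap.baseChange_zero]
  have hY : Skew (ρ.form.baseChange K) (X.baseChange K) := NilT_base ρ.form X hX.2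
  have hYc : ∀ c ∈ cenK K (res ρ U).T, X.baseChange K * c = c * X.baseChange K :=
    LefT_comm K (res ρ U).T X fun c hc => hX.1 c (hres' c hc)
  obtain ⟨z, hz, hzc, hzs, hz0⟩ := hSplit K (K ⊗[ℚ_[l]] V) _ hC.anti hC.nd _ N st ε hS r u v hUV
    _ hY hYc
  refine hDesc l Γ V ρ U hU K I e R hM hJ X hX.2 ⟨z, hz, hzc, hzs, ?_⟩
  refine hFull K _ _ _ _ hC N st ε hS r u v hUV hTG hNT _ (fun x y => ?_) (fun c hc => ?_) hz0
  · rw [LinearMap.sub_apply, LinearMap.sub_apply, map_sub, map_sub, LinearMap.sub_apply, hY, hzs]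
    ring
  · exact LefT_sub (hYc c hc) (hzc c hc)

end Pool.Agent.Lib.MP_640417_ag.Tg
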