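import Pool.Agent.Lib.MP_640417_ag.Tg.SpecX
import Pool.Agent.Lib.MP_640417_ag.Tg.LefT

/-!
# Constituents with a large Lie algebra: the Lie algebra contains the Lefschetz Lie algebra
-/

set_option autoImplicit false

namespace Pool.Agent.Lib.MP_640417_ag.Tg

open Module TensorProduct Pool.Agent.Lib.MP_640417_ag Pool.Agent.Lib.MP_640417_ag.Tor
  Pool.Agent.Lib.MP_640417_ag.Lef Pool.Agent.Lib.MP_640417_ag.Frob
  Pool.Agent.Lib.MP_640417_ag.Glob Pool.Agent.Lib.MP_640417_ag.Ty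
  Pool.Agent.Lib.MP_640417_ag.Ctl

open Pool.Agent.Lib.MP_640417_ag.Four (Semisimple)

theorem pLefX (hFull : SFullX) (hSplit : SSplit) (hCc : SCcL) (hDesc : SDescT) : SLefX := by
  intro l _ Γ _ _ _ _ V _ _ _ ρ hss K _ _ _ h3 hT hNT I _ _ e R hM hJ X hX
  classical
  obtain ⟨U, hU⟩ := exists_U0 ρ
  have hCK : CharZero K := charZero_of_injective_algebraMap (algebraMap ℚ_[l] K).injective
  have hC := hCc l Γ V ρ hss U hU K
  have hres' : ∀ c, (∀ γ : U, c * (res ρ U).T γ = (res ρ U).T γ * c) → CommF ρ c :=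
    fun c hc => ⟨U, fun γ hγ => hc ⟨γ, hγ⟩⟩
  obtain ⟨N, st, ε, hS⟩ := h3 U hU
  have hreg := reg_L K (res ρ U).T (semi_res ρ U hss)
  have hadjC := adjC_L K (res ρ U).T ρ.form ρ.form_alt ρ.form_nondeg
    (fun γ => ((res ρ U).χ γ)⁻¹) (fun γ => (res ρ U).form_equivariant γ)
  obtain ⟨r, u, v, hUV⟩ := exists_uv hC.alt hC.nd hS hreg hadjC
  have hY : Skew (ρ.form.baseChange K) (X.baseChange K) := NilT_base ρ.form X hX.2
  have hYc : ∀ c ∈ cenK K (res ρ U).T, X.baseChange K * c = c * X.baseChange K :=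
    LefT_comm K (res ρ U).T X fun c hc => hX.1 c (hres' c hc)
  obtain ⟨z, hz, hzc, hzs, hz0⟩ := hSplit K (K ⊗[ℚ_[l]] V) _ hC.anti hC.nd _ N st ε hS r u v hUV
    _ hY hYc
  refine hDesc l Γ V ρ U hU K I e R hM hJ X hX.2 ⟨z, hz, hzc, hzs, ?_⟩
  refine hFull K _ _ _ _ hC N st ε hS r u v hUV hT hNT _ (fun x y => ?_) (fun c hc => ?_) hz0
  · rw [LinearMap.sub_apply, LinearMap.sub_apply, map_sub, map_sub, LinearMap.sub_apply, hY, hzs]
    ring
  · exact LefT_sub (hYc c hc) (hzc c hc)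

end Pool.Agent.Lib.MP_640417_ag.Tg
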