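import Pool.Agent.Lib.MP_640417_ag.Tg.SpecA
import Pool.Agent.Lib.MP_640417_ag.Tor.Stab

/-!
# Toric places, no factors of type III: two linked blocks are isomorphic
-/

namespace Pool.Agent.Lib.MP_640417_ag.Tg

open Module Pool.Agent.Lib.MP_640417_ag.Tor

section

variable {K V : Type} [Field K] [CharZero K] [AddCommGroup V] [Module K V]
  {D : Submodule K (Module.End K V)} {P Q e f : Module.End K V}

omit [CharZero K] in
/-- A vector of the block in the range of `f e`. -/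
lemma LinkA_vec (hcom : ∀ X ∈ D, P * X = X * P) (hPP : P * P = P) (hS : Sl D e f)
    (hP : e * P ≠ 0) : ∃ w : V, w ≠ 0 ∧ P w = w ∧ (f * e) w = w := by
  obtain ⟨x, hx⟩ : ∃ x, e (P x) ≠ 0 := by
    by_contra hcon
    push Not at hcon
    exact hP (LinearMap.ext hcon)
  refine ⟨(f * e) (P x), ?_, ?_, ?_⟩
  · intro h0
    apply hx
    have h1 : e ((f * e) (P x)) = e (P x) := by
      rw [← Module.End.mul_apply e (f * e), hS.eq]
    rw [← h1, h0, map_zero]
  · have h1 : P * (f * e) = (f * e) * P := by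
      rw [← mul_assoc, hcom f hS.mf, mul_assoc, hcom e hS.me, ← mul_assoc]
    rw [← Module.End.mul_apply P, h1, Module.End.mul_apply, ← Module.End.mul_apply P P, hPP]
  · rw [← Module.End.mul_apply (f * e) (f * e), hS.qq]

/-- Stability of `Lu D e f w`. -/
lemma LinkA_stab (hl : Lie D) (hS : Sl D e f) {w : V} (hq : (f * e) w = w)
    {β : Module.End K V → Module.End K V → K}
    (hβ : ∀ x ∈ G1 D e f, ∀ y ∈ G1 D e f, x (y w) = β x y • e w)
    (hgen : ∀ S : Submodule K (Module.End K V), Lie S → e ∈ S → f ∈ S → G1 D e f ≤ S →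
      G1 D f e ≤ S → D ≤ S) : ∀ X ∈ D, ∀ v ∈ Lu D e f w, X v ∈ Lu D e f w := by
  let S : Submodule K (Module.End K V) :=
    { carrier := {X | ∀ v ∈ Lu D e f w, X v ∈ Lu D e f w}
      add_mem' := by
        intro X Y hX hY v hv
        rw [LinearMap.add_apply]
        exact add_mem (hX v hv) (hY v hv)
      zero_mem' := by
        intro v hv
        rw [LinearMap.zero_apply]
        exact zero_mem _
      smul_mem' := by
        intro c X hX v hv
        rw [LinearMap.smul_apply]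
        exact Submodule.smul_mem _ _ (hX v hv) }
  have hSl : Lie S := by
    intro X hX Y hY v hv
    rw [LinearMap.sub_apply, Module.End.mul_apply, Module.End.mul_apply]
    exact sub_mem (hX _ (hY v hv)) (hY _ (hX v hv))
  have mk : ∀ (α γ : K) (x : Module.End K V), x ∈ G1 D e f →
      α • w + x w + γ • e w ∈ Lu D e f w := fun α γ x hx => ⟨α, γ, x, hx, rfl⟩
  have ev_fu : f w = 0 := by
    rw [← hq, ← Module.End.mul_apply, hS.fq, LinearMap.zero_apply]
  have ev_fx : ∀ x ∈ G1 D e f, f (x w) = 0 := by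
    intro x hx
    rw [← hq, ← Module.End.mul_apply, ← Module.End.mul_apply, G1.fxq hS hx,
      LinearMap.zero_apply]
  have hSe : e ∈ S := by
    rintro _ ⟨α, γ, x, hx, rfl⟩
    rw [map_add, map_add, map_smul, map_smul, ← Module.End.mul_apply e x, G1.ex hS hx,
      ← Module.End.mul_apply e e, hS.ee, LinearMap.zero_apply, smul_zero, add_zero, add_zero]
    have h1 := mk 0 α 0 (zero_mem _)
    rwa [zero_smul, LinearMap.zero_apply, zero_add, zero_add] at h1
  have hSf : f ∈ S := by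
    rintro _ ⟨α, γ, x, hx, rfl⟩
    rw [map_add, map_add, map_smul, map_smul, ev_fu, ev_fx x hx, smul_zero, zero_add,
      zero_add, ← Module.End.mul_apply, hq]
    have h1 := mk γ 0 0 (zero_mem _)
    rwa [zero_smul, LinearMap.zero_apply, add_zero, add_zero] at h1
  have hSx : G1 D e f ≤ S := by
    rintro y hy _ ⟨α, γ, x, hx, rfl⟩
    rw [map_add, map_add, map_smul, map_smul, hβ y hy x hx, ← Module.End.mul_apply y e,
      G1.xe hS hy, LinearMap.zero_apply, smul_zero, add_zero]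
    have h1 := mk 0 (β y x) (α • y) (Submodule.smul_mem _ _ hy)
    rwa [zero_smul, zero_add, LinearMap.smul_apply] at h1
  have hSw : G1 D f e ≤ S := by
    rintro v hv
    have h1 := G1.bracket_f hS hv
    have h2 := bracket_e_mem hl hS hv
    rw [h1]
    exact hSl f hSf _ (hSx h2)
  exact hgen S hSl hSe hSf hSx hSw

/-- The intersection with a block is zero. -/
lemma LinkA_inf (hS : Sl D e f) (hcom : ∀ X ∈ D, P * X = X * P)
    (hIrr : Irr D (LinearMap.range P)) {w w₁ w₂ : V} (hw : w = w₁ + w₂) (hw₁ : w₁ ≠ 0)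
    (hw₂ : w₂ ≠ 0) (hPw₁ : P w₁ = w₁) (hQw₁ : Q w₁ = 0) (hQw₂ : Q w₂ = w₂)
    (hq₁ : (f * e) w₁ = w₁) (hq : (f * e) w = w)
    (hstab : ∀ X ∈ D, ∀ v ∈ Lu D e f w, X v ∈ Lu D e f w) :
    Lu D e f w ⊓ LinearMap.range P = ⊥ := by
  rcases hIrr (Lu D e f w ⊓ LinearMap.range P) inf_le_right (by
    rintro X hX y ⟨hy, z, rfl⟩
    refine ⟨hstab X hX _ hy, X z, ?_⟩
    rw [← Module.End.mul_apply, hcom X hX, Module.End.mul_apply]) with h | h
  · exact h
  · exfalso
    have h1 : w₁ ∈ Lu D e f w ⊓ LinearMap.range P := by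
      rw [h]
      exact ⟨w₁, hPw₁⟩
    obtain ⟨α, γ, x, hx, h2⟩ := h1.1
    have h3 := congrArg (f * e) h2
    rw [map_add, map_add, map_smul, map_smul, hq₁, hq, ← Module.End.mul_apply (f * e) x,
      G1.qx hS hx, ← Module.End.mul_apply (f * e) e, hS.qe, LinearMap.zero_apply, smul_zero,
      add_zero, add_zero] at h3
    have h4 := congrArg Q h3
    rw [hQw₁, map_smul, hw, map_add, hQw₁, hQw₂, zero_add] at h4
    have hα : α = 0 := (smul_eq_zero.mp h4.symm).resolve_right hw₂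
    rw [hα, zero_smul] at h3
    exact hw₁ h3

end

/-- **Two linked blocks are isomorphic.** -/
theorem pLinkA : SLinkA := by
  intro K V _ _ _ _ _ D hl P Q hPP hQQ hPQ hQP hPc hQc hIP hIQ e f hS hP hQ β hβ hgen
  obtain ⟨w₁, hw₁, hPw₁, hq₁⟩ := LinkA_vec hPc hPP hS hP
  obtain ⟨w₂, hw₂, hQw₂, hq₂⟩ := LinkA_vec hQc hQQ hS hQ
  have hPw₂ : P w₂ = 0 := by rw [← hQw₂, ← Module.End.mul_apply, hPQ, LinearMap.zero_apply]
  have hQw₁ : Q w₁ = 0 := by rw [← hPw₁, ← Module.End.mul_apply, hQP, LinearMap.zero_apply]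
  have hq : (f * e) (w₁ + w₂) = w₁ + w₂ := by rw [map_add, hq₁, hq₂]
  have hPw : P (w₁ + w₂) = w₁ := by rw [map_add, hPw₁, hPw₂, add_zero]
  have hQw : Q (w₁ + w₂) = w₂ := by rw [map_add, hQw₂, hQw₁, zero_add]
  have hβ' : ∀ x ∈ G1 D e f, ∀ y ∈ G1 D e f, x (y (w₁ + w₂)) = β x y • e (w₁ + w₂) := by
    intro x hx y hy
    obtain ⟨h1, h2⟩ := hβ x hx y hy
    have h3 := LinearMap.congr_fun h1 w₁
    have h4 := LinearMap.congr_fun h2 w₂
    simp only [Module.End.mul_apply, LinearMap.smul_apply, hPw₁, hQw₂] at h3 h4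
    rw [map_add, map_add, h3, h4, map_add, smul_add]
  have hstab := LinkA_stab hl hS hq hβ' hgen
  have hinfQ : Lu D e f (w₁ + w₂) ⊓ LinearMap.range Q = ⊥ :=
    LinkA_inf (Q := P) hS hQc hIQ (add_comm w₁ w₂) hw₂ hw₁ hQw₂ hPw₂ hPw₁ hq₂ hq hstab
  have wL : w₁ + w₂ ∈ Lu D e f (w₁ + w₂) := ⟨1, 0, 0, zero_mem _, by
    rw [one_smul, LinearMap.zero_apply, zero_smul, add_zero, add_zero]⟩
  have happ : ∀ X ∈ D, ∀ y, P (X y) = X (P y) := by
    intro X hX y
    rw [← Module.End.mul_apply, hPc X hX, Module.End.mul_apply]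
  have happQ : ∀ X ∈ D, ∀ y, Q (X y) = X (Q y) := by
    intro X hX y
    rw [← Module.End.mul_apply, hQc X hX, Module.End.mul_apply]
  have hsum : ∀ y ∈ Lu D e f (w₁ + w₂), P y + Q y = y := by
    rintro _ ⟨α, γ, x, hx, rfl⟩
    have h1 : ∀ z : V, P z + Q z = (P + Q) z := fun z => rfl
    have h2 : (P + Q) (w₁ + w₂) = w₁ + w₂ := by rw [LinearMap.add_apply, hPw, hQw]
    have h3 : ∀ X ∈ D, (P + Q) (X (w₁ + w₂)) = X (w₁ + w₂) := by
      intro X hX
      rw [LinearMap.add_apply, happ X hX, happQ X hX, hPw, hQw, ← map_add]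
    rw [h1, map_add, map_add, map_smul, map_smul, h2, h3 x hx.1, h3 e hS.me]
  have hinj : ∀ y ∈ Lu D e f (w₁ + w₂), P y = 0 → y = 0 := by
    intro y hy h0
    have h1 := hsum y hy
    rw [h0, zero_add] at h1
    have h2 : y ∈ Lu D e f (w₁ + w₂) ⊓ LinearMap.range Q := ⟨hy, y, h1⟩
    rw [hinfQ] at h2
    exact h2
  have hmap : (Lu D e f (w₁ + w₂)).map P = LinearMap.range P := by
    rcases hIP ((Lu D e f (w₁ + w₂)).map P) (by
      rintro _ ⟨y, -, rfl⟩
      exact ⟨y, rfl⟩) (by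
      rintro X hX _ ⟨y, hy, rfl⟩
      exact ⟨X y, hstab X hX y hy, happ X hX y⟩) with h | h
    · exfalso
      have h1 : w₁ ∈ (Lu D e f (w₁ + w₂)).map P := ⟨w₁ + w₂, wL, hPw⟩
      rw [h] at h1
      exact hw₁ h1
    · exact h
  have hsurj : ∀ x : V, ∃ y ∈ Lu D e f (w₁ + w₂), P y = P x := by
    intro x
    have h1 : P x ∈ (Lu D e f (w₁ + w₂)).map P := by
      rw [hmap]
      exact ⟨x, rfl⟩
    exact h1
  -- the operator
  let L := Lu D e f (w₁ + w₂)
  have hker : LinearMap.ker (P.domRestrict L) = ⊥ := by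
    rw [LinearMap.ker_eq_bot']
    rintro ⟨y, hy⟩ h0
    exact Subtype.ext (hinj y hy h0)
  obtain ⟨s, hs⟩ := LinearMap.exists_leftInverse_of_injective _ hker
  have hsy : ∀ y ∈ L, ((s (P y) : L) : V) = y := by
    intro y hy
    have h1 := LinearMap.congr_fun hs ⟨y, hy⟩
    exact congrArg Subtype.val h1
  let c : Module.End K V := Q ∘ₗ L.subtype ∘ₗ s ∘ₗ P
  have hc : ∀ x, ∀ y ∈ L, P y = P x → c x = Q y := by
    intro x y hy hxy
    have h1 : c x = Q ((s (P x) : L) : V) := rfl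
    rw [h1, ← hxy, hsy y hy]
  refine ⟨c, ?_, ?_, ?_⟩
  · refine LinearMap.ext fun x => ?_
    obtain ⟨y, hy, hyx⟩ := hsurj x
    rw [Module.End.mul_apply, Module.End.mul_apply, hc x y hy hyx,
      hc (P x) y hy (by rw [hyx, ← Module.End.mul_apply, hPP]), ← Module.End.mul_apply, hQQ]
  · intro h0
    have h1 := hc w₁ (w₁ + w₂) wL (by rw [hPw, hPw₁])
    rw [h0, LinearMap.zero_apply, hQw] at h1
    exact hw₂ h1.symm
  · intro X hX
    refine LinearMap.ext fun x => ?_
    obtain ⟨y, hy, hyx⟩ := hsurj x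
    rw [Module.End.mul_apply, Module.End.mul_apply, hc x y hy hyx,
      hc (X x) (X y) (hstab X hX y hy) (by rw [happ X hX, hyx, happ X hX]), happQ X hX]

end Pool.Agent.Lib.MP_640417_ag.Tg
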