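import Pool.Agent.Lib.MP_640417_ag.Tg.SpecC
import Pool.Agent.Lib.MP_640417_ag.Gen4.Cor
import Pool.Agent.Lib.MP_640417_ag.Tg.SysK

/-!
# Toric places, no factors of type III: the two directions
-/

set_option autoImplicit false

namespace Pool.Agent.Lib.MP_640417_ag.Tg

open Module TensorProduct Pool.Agent.Lib.MP_640417_ag Pool.Agent.Lib.MP_640417_ag.Tor
  Pool.Agent.Lib.MP_640417_ag.Lef Pool.Agent.Lib.MP_640417_ag.Frob
  Pool.Agent.Lib.MP_640417_ag.Glob Pool.Agent.Lib.MP_640417_ag.Ty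
  Pool.Agent.Lib.MP_640417_ag.Ctl Pool.Agent.Lib.MP_640417_ag.Gen4

open Pool.Agent.Lib.MP_640417_ag.Four (Semisimple Dv)

variable (l : ℕ) [Fact l.Prime] {Γ : Type} [Group Γ]
    [TopologicalSpace Γ] [IsTopologicalGroup Γ] [CompactSpace Γ] {V : Type} [AddCommGroup V]
    [Module ℚ_[l] V] [FiniteDimensional ℚ_[l] V] (ρ : H1Rep Γ ℚ_[l] V)

/-- Toric places and no twists: the Lefschetz Lie algebra kills what the center kills. -/
theorem lef_of_noTwist (hLefT : SLefT) (hss : Semisimple ρ) (h3 : NoTypeIII ρ) (K : Type) [Field K]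
    [Algebra ℚ_[l] K] [IsAlgClosed K] (hT : ToricAll l ρ K)
    (hN : NoTwist (ρ.form.baseChange K) (LieK l ρ K)) (n i : ℕ) : LefCond ρ n i := by
  intro x hx hz X hX
  obtain ⟨R, h1, h2, h3'⟩ := exists_coord ρ (Module.finBasis ℚ_[l] V)
  exact kills_of_mem l ρ _ R h1 h2 h3' X
    (hLefT l Γ V ρ hss h3 K hT hN _ (Module.finBasis ℚ_[l] V) R h1 h3' X hX) n i x hx hz

/-- Conversely, twists give Tate classes which are killed by the center but not by the Lefschetz Lie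
algebra. -/
theorem noTwist_of_lef_of (hCc : SCcL) (hK : SNtK) (hA : SNtA) (hss : Semisimple ρ)
    (K : Type) [Field K] [Algebra ℚ_[l] K] [IsAlgClosed K] (h3 : HasSysK l ρ K)
    (h : LefCond ρ 4 2) : NoTwist (ρ.form.baseChange K) (LieK l ρ K) := by
  classical
  obtain ⟨R, h1, h2, h3'⟩ := exists_coord ρ (Module.finBasis ℚ_[l] V)
  have hsemi := coord_semi ρ _ R h1 hss
  obtain ⟨U, hU⟩ := exists_U0 ρ
  have hCK : CharZero K := charZero_of_injective_algebraMap (algebraMap ℚ_[l] K).injective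
  have hC := hCc l Γ V ρ hss U hU K
  obtain ⟨N, st, ε, hS⟩ := h3 U hU
  have hreg := reg_L K (res ρ U).T (semi_res ρ U hss)
  have hadjC := adjC_L K (res ρ U).T ρ.form ρ.form_alt ρ.form_nondeg
    (fun γ => ((res ρ U).χ γ)⁻¹) (fun γ => (res ρ U).form_equivariant γ)
  obtain ⟨r, u, v, hUV⟩ := exists_uv hC.alt hC.nd hS hreg hadjC
  refine hA K _ _ _ _ hC ?_ N st ε hS r u v hUV
  refine hK l Γ V ρ U hU K _ (Module.finBasis ℚ_[l] V) R h1 h3' fun X hX => ?_
  exact mem_of_four l ρ _ R h1 h2 h3' hsemi X hX.2 fun x hx hz => h x hx hz X hX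

theorem noTwist_of_lef (hCc : SCcL) (hK : SNtK) (hA : SNtA) (hss : Semisimple ρ)
    (h3 : NoTypeIII ρ) (K : Type) [Field K] [Algebra ℚ_[l] K] [IsAlgClosed K]
    (h : LefCond ρ 4 2) : NoTwist (ρ.form.baseChange K) (LieK l ρ K) :=
  noTwist_of_lef_of l ρ hCc hK hA hss K (hasSysK_of_noTypeIII l ρ h3 K) h

end Pool.Agent.Lib.MP_640417_ag.Tg
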