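import Pool.Agent.Lib.MP_640417_ag.Tg.PairJ

/-!
# Toric places, no factors of type III: two blocks are independent, the theorem
-/

namespace Pool.Agent.Lib.MP_640417_ag.Tg

open Module Pool.Agent.Lib.MP_640417_ag.Tor

variable {K V : Type} [Field K] [AddCommGroup V] [Module K V] {B : Type} [Fintype B]
  [DecidableEq B] {ψ : LinearMap.BilinForm K V} {p : B → Module.End K V} {st : B → B} {a b : B}

/-- If two blocks are not independent then they are linked. -/
lemma Lk_mk [IsAlgClosed K] [CharZero K] [FiniteDimensional K V] (hPartner : SPartner)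
    (hPerf : SPerf) (hSimp : SSimp) (hBD : BD ψ p st) {g : Submodule K (Module.End K V)}
    (hg : Lie g) (hsk : ∀ X ∈ g, Skew ψ X) (hc : ∀ b, ∀ X ∈ g, p b * X = X * p b)
    (hfull : ∀ b, 2 ≤ rk (p b) → ∀ X ∈ sb ψ (p b) (st b = b), ∃ Y ∈ g, p b * Y = X)
    (ha : 2 ≤ rk (p a)) (hb : 2 ≤ rk (p b))
    (hno : ∀ X ∈ g, p b * X = 0 → ∃ s : K, p a * X = s • p a) :
    Lk ψ p st a b ((der g).map (LinearMap.mulLeft K (BE p (TT st a b)))) := by
  have hle := der_le hg
  have hrk : ∀ c ∈ TT st a b, 2 ≤ rk (p c) := by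
    intro c hcT
    rcases TT_cases hcT with rfl | rfl | rfl | rfl
    · exact ha
    · exact hb
    · rw [hBD.rk_st]; exact ha
    · rw [hBD.rk_st]; exact hb
  have hsbD : ∀ c, ∀ X ∈ der g, p c * X ∈ sb ψ (p c) (st c = c) := fun c =>
    der_sb (hBD.pp c) (fun hs x y => by rw [hBD.adj, hs]) hsk (hc c)
  have hlift : ∀ c ∈ TT st a b, ∀ Y ∈ sb ψ (p c) (st c = c), ∃ X ∈ der g, p c * X = Y :=
    fun c hcT => der_lift (hBD.pp c) (hc c) (hfull c (hrk c hcT))
      (hPerf K V ψ (p c) _ (hBD.blk (hrk c hcT)))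
  -- the block `b` determines the block `a`
  have k1 : ∀ X ∈ der g, p b * X = 0 → p a * X = 0 := by
    intro X hX h0
    obtain ⟨s, hs⟩ := hno X (hle hX) h0
    exact scalar_tr (hBD.pp a) (by omega) hs (hsbD a X hX).2.1
  -- the block `a` determines the block `b`
  have k2 : ∀ X ∈ der g, p a * X = 0 → p b * X = 0 := by
    intro X hX h0
    by_contra hne
    let J : Submodule K (Module.End K V) :=
      ((der g) ⊓ LinearMap.ker (LinearMap.mulLeft K (p a))).map (LinearMap.mulLeft K (p b))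
    have hJ : sb ψ (p b) (st b = b) ≤ J := by
      refine hSimp K V ψ (p b) _ (hBD.blk hb) J ?_ ?_ (p b * X)
        ⟨X, ⟨hX, LinearMap.mem_ker.mpr h0⟩, rfl⟩ ?_
      · rintro _ ⟨Y, ⟨hY, -⟩, rfl⟩
        have h2 := hsbD b Y hY
        exact ⟨h2.1, h2.2.2⟩
      · rintro Z hZ _ ⟨Y, ⟨hY, hY0⟩, rfl⟩
        obtain ⟨Z', hZ', rfl⟩ := hlift b TT_b Z hZ
        have hY0' : p a * Y = 0 := hY0
        refine ⟨Z' * Y - Y * Z', ⟨der_lie hg Z' hZ' Y hY, ?_⟩, ?_⟩
        · rw [SetLike.mem_coe, LinearMap.mem_ker]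
          show p a * (Z' * Y - Y * Z') = 0
          rw [mul_sub, ← GouC_mul (hBD.pp a) (hc a Z' (hle hZ')),
            ← GouC_mul (hBD.pp a) (hc a Y (hle hY)), hY0', mul_zero, zero_mul, sub_zero]
        · show p b * (Z' * Y - Y * Z') = (p b * Z') * (p b * Y) - (p b * Y) * (p b * Z')
          rw [GouC_mul (hBD.pp b) (hc b Z' (hle hZ')), GouC_mul (hBD.pp b) (hc b Y (hle hY)),
            mul_sub]
      · intro c hcc
        exact hne (scalar_tr (hBD.pp b) (by omega) hcc (hsbD b X hX).2.1)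
    have hall : ∀ Y ∈ der g, p a * Y = 0 := by
      intro Y hY
      obtain ⟨Z, ⟨hZ, hZ0⟩, hZY⟩ := hJ (hsbD b Y hY)
      have hZ0' : p a * Z = 0 := hZ0
      have h1 : p b * (Y - Z) = 0 := by
        rw [mul_sub, sub_eq_zero]
        exact hZY.symm
      have h2 := k1 _ (sub_mem hY hZ) h1
      rwa [mul_sub, hZ0', sub_zero] at h2
    obtain ⟨-, e, he, -, hr⟩ := hPartner K V ψ (p a) _ (hBD.blk ha)
    obtain ⟨Y, hY, rfl⟩ := hlift a TT_a e he
    exact PairG_ne hr (hall Y hY)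
  set E := BE p (TT st a b) with hE
  have hEE : E * E = E := hBD.BE_BE _
  have hEc : ∀ X ∈ g, E * X = X * E := fun X hX => BE_comm fun c => hc c X hX
  have hpE : ∀ c ∈ TT st a b, ∀ X : Module.End K V, p c * (E * X) = p c * X := by
    intro c hcT X
    rw [← mul_assoc, hE, hBD.mul_BE hcT]
  have hinj : ∀ X ∈ der g, p a * X = 0 → E * X = 0 := by
    intro X hX h0
    refine BE_zero fun c hcT => ?_
    have hXs := hsk X (hle hX)
    have hXc : ∀ c, p c * X = X * p c := fun c => hc c X (hle hX)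
    rcases TT_cases hcT with rfl | rfl | rfl | rfl
    · exact h0
    · exact k2 X hX h0
    · exact hBD.st_zero hXs hXc h0
    · exact hBD.st_zero hXs hXc (k2 X hX h0)
  have hpEc : ∀ c, ∀ X ∈ g, p c * (E * X) = (E * X) * p c := by
    intro c X hX
    have h1 : p c * E = E * p c := by
      by_cases hcT : c ∈ TT st a b
      · rw [hE, hBD.mul_BE hcT, hBD.BE_mul hcT]
      · rw [hE]
        unfold BE
        rw [Finset.mul_sum, Finset.sum_mul]
        refine Finset.sum_congr rfl fun d hd => ?_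
        have hne : c ≠ d := fun h => hcT (h ▸ hd)
        rw [hBD.orth c d hne, hBD.orth d c hne.symm]
    rw [← mul_assoc, h1, mul_assoc, hc c X hX, mul_assoc]
  refine ⟨hBD, ?_, ?_, ?_, ?_, ?_, ?_, ?_, ?_, hrk⟩
  · rintro _ ⟨X, hX, rfl⟩ _ ⟨Y, hY, rfl⟩
    refine ⟨X * Y - Y * X, der_lie hg X hX Y hY, ?_⟩
    show E * (X * Y - Y * X) = (E * X) * (E * Y) - (E * Y) * (E * X)
    rw [GouC_mul hEE (hEc X (hle hX)), GouC_mul hEE (hEc Y (hle hY)), mul_sub]
  · rintro _ ⟨X, hX, rfl⟩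
    exact GouC_skew (hBD.BE_adj fun c hcT => TT_st hBD.inv hcT) (hEc X (hle hX))
      (hsk X (hle hX))
  · rintro c _ ⟨X, hX, rfl⟩
    exact hpEc c X (hle hX)
  · rintro _ ⟨X, hX, rfl⟩
    show E * (E * X) = E * X
    rw [← mul_assoc, hEE]
  · rintro _ ⟨X, hX, rfl⟩ h0
    have h1 : p a * (E * X) = 0 := h0
    rw [hpE a TT_a] at h1
    exact hinj X hX h1
  · rintro _ ⟨X, hX, rfl⟩ h0
    have h1 : p b * (E * X) = 0 := h0
    rw [hpE b TT_b] at h1
    exact hinj X hX (k1 X hX h1)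
  · intro c hcT Y hY
    obtain ⟨X, hX, rfl⟩ := hlift c hcT Y hY
    exact ⟨E * X, ⟨X, hX, rfl⟩, hpE c hcT X⟩
  · rintro c hcT _ ⟨X, hX, rfl⟩
    show p c * (E * X) ∈ _
    rw [hpE c hcT]
    exact hsbD c X hX

/-- **Two blocks are independent.** -/
theorem pPairG (hExt : SExt) (hPartner : SPartner) (hPerf : SPerf) (hSimp : SSimp)
    (hIrrB : SIrrB) (hQuad : SQuad) (hSchurT : SSchurT) (hLinkA : SLinkA) : SPairG := by
  intro K V _ _ _ _ _ _ B _ _ ψ p st hBD g hg hsk hc hfull a b hab hasb ha hb tw1 tw2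
  by_contra hno
  push Not at hno
  have hL := Lk_mk hPartner hPerf hSimp hBD hg hsk hc hfull ha hb hno
  obtain ⟨q, hq, c, hcc, hc0, hcD⟩ := hL.main hExt hPartner hSimp hIrrB hQuad hLinkA hab hasb
  have hqT : q ∈ TT st a b := by
    rcases hq with rfl | rfl
    · exact TT_b
    · exact TT_sb
  have hQc : p q * c = c := by
    rw [← hcc]
    simp only [← mul_assoc]
    rw [hBD.pp]
  have hcP : c * p a = c := by
    rw [← hcc]
    simp only [mul_assoc]
    rw [hBD.pp]
  have hcD' : ∀ X ∈ der g, c * X = X * c := by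
    intro X hX
    have h1 := hcD (BE p (TT st a b) * X) ⟨X, hX, rfl⟩
    have h2 : c * (BE p (TT st a b) * X) = c * X := by
      rw [← mul_assoc]
      conv_lhs => rw [← hcP, mul_assoc c, hBD.mul_BE TT_a, hcP]
    have h3 : BE p (TT st a b) * X * c = X * c := by
      have hEc : BE p (TT st a b) * X = X * BE p (TT st a b) := BE_comm fun d => hc d X (der_le hg hX)
      rw [hEc, mul_assoc]
      conv_lhs => rw [← hQc, ← mul_assoc (BE p (TT st a b)), hBD.BE_mul hqT, hQc]
    rw [← h2, h1, h3]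
  have htw : ∀ X ∈ g, ∃ s : K, c * X - X * c = s • c := by
    intro X hX
    have hirr : ∀ r ∈ TT st a b, Irr (der g) (LinearMap.range (p r)) := by
      intro r hr W' hW' hst
      refine hL.irr hIrrB hr W' hW' ?_
      rintro _ ⟨Y, hY, rfl⟩ y hy
      obtain ⟨z, hz⟩ := hW' hy
      have h1 : (BE p (TT st a b) * Y) y = Y y := by
        rw [BE_comm fun d => hc d Y (der_le hg hY), Module.End.mul_apply]
        congr 1
        rw [← hz, ← Module.End.mul_apply, hBD.BE_mul hr]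
      show (BE p (TT st a b) * Y) y ∈ W'
      rw [h1]
      exact hst Y hY y hy
    refine hSchurT K V (der g) (p a) (p q) (hBD.pp a) (hBD.pp q)
      (fun Y hY => hc a Y (der_le hg hY)) (fun Y hY => hc q Y (der_le hg hY)) (hirr a TT_a)
      (hirr q hqT) c (c * X - X * c) hcc ?_ hcD' ?_ hc0
    · rw [mul_sub, sub_mul]
      congr 1
      · rw [← mul_assoc, hQc, mul_assoc, ← hc a X hX, ← mul_assoc, hcP]
      · rw [← mul_assoc, hc q X hX, mul_assoc X, hQc, mul_assoc, hcP]
    · intro Y hY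
      have h1 := hcD' Y hY
      have h2 := hcD' _ (der_bracket hg hX hY)
      calc (c * X - X * c) * Y = c * (X * Y - Y * X) + (c * Y) * X - X * (c * Y) := by
            noncomm_ring
        _ = (X * Y - Y * X) * c + (Y * c) * X - X * (Y * c) := by rw [h2, h1]
        _ = _ := by noncomm_ring
  rcases hq with rfl | rfl
  · exact hc0 (tw1 c hcc htw)
  · exact hc0 (tw2 c hcc htw)

end Pool.Agent.Lib.MP_640417_ag.Tg
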