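import Pool.Agent.Lib.MP_640417_ag.Tg.SpecA
import Pool.Agent.Lib.MP_640417_ag.Tor.GouB
import Pool.Agent.Lib.MP_640417_ag.Tor.Adj

/-!
# Toric places, no factors of type III: partners of elements of rank one
-/

namespace Pool.Agent.Lib.MP_640417_ag.Tg

open Module Pool.Agent.Lib.MP_640417_ag.Tor

variable {K V : Type} [Field K] [AddCommGroup V] [Module K V] {ψ : LinearMap.BilinForm K V}
  {p : Module.End K V} {t : Prop}

lemma Partner_rk {u : V} {φ : Module.Dual K V} (hu : u ≠ 0) (hφ : φ ≠ 0) :
    rk (φ.smulRight u : Module.End K V) = 1 := by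
  unfold rk
  have h1 : LinearMap.range (φ.smulRight u : Module.End K V) = Submodule.span K {u} := by
    ext y
    rw [Submodule.mem_span_singleton]
    constructor
    · rintro ⟨x, rfl⟩
      exact ⟨φ x, rfl⟩
    · rintro ⟨a, rfl⟩
      obtain ⟨x, hx⟩ : ∃ x, φ x ≠ 0 := by
        by_contra h
        push Not at h
        exact hφ (LinearMap.ext h)
      refine ⟨(a * (φ x)⁻¹) • x, ?_⟩
      rw [LinearMap.smulRight_apply, map_smul, smul_eq_mul, mul_assoc, inv_mul_cancel₀ hx, mul_one]
  rw [h1, finrank_span_singleton hu]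

/-- An operator of rank one. -/
lemma Partner_form {e : Module.End K V} (hr : rk e = 1) :
    ∃ (u : V) (φ : Module.Dual K V), u ≠ 0 ∧ φ ≠ 0 ∧ (∃ x, e x = u) ∧ ∀ x, e x = φ x • u := by
  obtain ⟨v', hv, hspan⟩ := finrank_eq_one_iff'.1 hr
  obtain ⟨v, y, hy⟩ := v'
  have hv0 : v ≠ 0 := fun h => hv (Subtype.ext h)
  have h1 : ∀ x, ∃ c : K, c • v = e x := by
    intro x
    obtain ⟨c, hc⟩ := hspan ⟨e x, LinearMap.mem_range_self e x⟩
    exact ⟨c, congrArg Subtype.val hc⟩
  choose lam hlam using h1
  have hinj : ∀ a b : K, a • v = b • v → a = b := fun a b h => smul_left_injective K hv0 h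
  let φ : Module.Dual K V :=
    { toFun := lam
      map_add' := fun x z => hinj _ _ (by rw [add_smul, hlam, hlam, hlam, map_add])
      map_smul' := fun c x => hinj _ _ (by
        rw [RingHom.id_apply, smul_eq_mul, mul_smul, hlam, hlam, map_smul]) }
  refine ⟨v, φ, hv0, ?_, ⟨y, hy⟩, fun x => (hlam x).symm⟩
  intro h0
  have h2 := hlam y
  have h3 : lam y = 0 := LinearMap.congr_fun h0 y
  rw [h3, zero_smul, hy] at h2
  exact hv0 h2.symm

/-- Partners of elements of rank one. -/
theorem pPartner : SPartner := by
  intro K V _ _ _ _ _ _ ψ p t hB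
  have hpp' : ∀ x, p (p x) = p x := fun x => by rw [← Module.End.mul_apply, hB.pp]
  have hrange : ∀ x ∈ LinearMap.range p, p x = x := by
    rintro _ ⟨y, rfl⟩
    exact hpp' y
  have hfin : 1 < finrank K (LinearMap.range p) := hB.two
  by_cases ht : t
  · have hadj := hB.adj ht
    have hmem : ∀ (v : V) (s : K), p v = v → ((s • ψ v : Module.Dual K V).smulRight v :
        Module.End K V) ∈ sb ψ p t := by
      intro v s hv
      have hsk : Skew ψ ((s • ψ v : Module.Dual K V).smulRight v : Module.End K V) := by
        intro x y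
        rw [LinearMap.smulRight_apply, LinearMap.smulRight_apply, map_smul, map_smul,
          LinearMap.smul_apply, LinearMap.smul_apply, LinearMap.smul_apply, smul_eq_mul,
          smul_eq_mul, smul_eq_mul, smul_eq_mul, hB.anti x v]
        ring
      refine ⟨?_, tr_skew ψ hB.nd hsk, fun _ => hsk⟩
      ext x
      rw [Module.End.mul_apply, Module.End.mul_apply, LinearMap.smulRight_apply,
        LinearMap.smulRight_apply, map_smul, hv, LinearMap.smul_apply, LinearMap.smul_apply,
        ← hadj, hv]
    refine ⟨?_, ?_⟩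
    · intro e he hee hr
      obtain ⟨v, s, hv0, hs0, hev⟩ := RankOne_form hB.nd hB.anti (he.2.2 ht) hr
      have hpe : p * e = e := by rw [← he.1, ← mul_assoc, ← mul_assoc, hB.pp]
      obtain ⟨y, hy⟩ : ∃ y, ψ v y ≠ 0 := by
        by_contra h
        push Not at h
        exact hv0 (hB.nd v h)
      have hpv : p v = v := by
        have h1 : (s * ψ v y)⁻¹ • e y = v := by
          rw [hev, smul_smul, inv_mul_cancel₀ (mul_ne_zero hs0 hy), one_smul]
        rw [← h1, map_smul, ← Module.End.mul_apply, hpe]
      obtain ⟨c, hc, hcv⟩ := GouA_pair hB.anti hB.nd hB.pp hadj hpv hv0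
      have hvc : ψ v c = -1 := by rw [hB.anti, hcv]
      have hcc : ψ c c = 0 := hB.alt c
      refine ⟨((-s⁻¹) • ψ c : Module.Dual K V).smulRight c, he, hmem c _ hc, hee, ?_, ?_, ?_⟩
      · ext x
        simp only [Module.End.mul_apply, LinearMap.smulRight_apply, LinearMap.smul_apply, map_smul,
          smul_eq_mul, hcc, LinearMap.zero_apply, mul_zero, zero_smul, smul_zero]
      · ext x
        simp only [Module.End.mul_apply, LinearMap.smulRight_apply, LinearMap.smul_apply, map_smul,
          smul_eq_mul, hev, hcv, hvc, smul_smul]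
        congr 1
        field_simp
      · ext x
        simp only [Module.End.mul_apply, LinearMap.smulRight_apply, LinearMap.smul_apply, map_smul,
          smul_eq_mul, hev, hcv, hvc, smul_smul]
        congr 1
        field_simp
    · have : Nontrivial (LinearMap.range p) :=
        Module.nontrivial_of_finrank_pos (R := K) (by omega)
      obtain ⟨⟨v, hv⟩, hv0⟩ := exists_ne (0 : LinearMap.range p)
      have hv0' : v ≠ 0 := fun h => hv0 (Subtype.ext h)
      refine ⟨_, hmem v 1 (hrange v hv), ?_, ?_⟩
      · ext x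
        simp only [Module.End.mul_apply, LinearMap.smulRight_apply, LinearMap.smul_apply, map_smul,
          smul_eq_mul, hB.alt v, LinearMap.zero_apply, mul_zero, zero_smul, smul_zero]
      · refine Partner_rk hv0' ?_
        intro h
        apply hv0'
        apply hB.nd
        intro y
        have h3 := LinearMap.congr_fun h y
        rwa [one_smul, LinearMap.zero_apply] at h3
  · have hmem : ∀ {u : V} {φ : Module.Dual K V}, p u = u → (∀ x, φ (p x) = φ x) → φ u = 0 →
        (φ.smulRight u : Module.End K V) ∈ sb ψ p t := by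
      intro u φ hu hφ h0
      refine ⟨?_, ?_, fun h => absurd h ht⟩
      · ext x
        rw [Module.End.mul_apply, Module.End.mul_apply, LinearMap.smulRight_apply,
          LinearMap.smulRight_apply, map_smul, hu, hφ]
      · unfold tr
        rw [LinearMap.trace_smulRight, h0]
    refine ⟨?_, ?_⟩
    · intro e he hee hr
      obtain ⟨u, φ, hu0, hφ0, ⟨y, hy⟩, heφ⟩ := Partner_form hr
      have hpe : p * e = e := by rw [← he.1, ← mul_assoc, ← mul_assoc, hB.pp]
      have hep : e * p = e := by rw [← he.1, mul_assoc, hB.pp]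
      have hpu : p u = u := by rw [← hy, ← Module.End.mul_apply, hpe]
      have hφp : ∀ x, φ (p x) = φ x := by
        intro x
        apply smul_left_injective K hu0
        change φ (p x) • u = φ x • u
        rw [← heφ, ← heφ, ← Module.End.mul_apply, hep]
      have hφu : φ u = 0 := by
        have h1 : e (e y) = 0 := by
          rw [← Module.End.mul_apply, hee, LinearMap.zero_apply]
        rw [hy, heφ] at h1
        exact (smul_eq_zero.1 h1).resolve_right hu0
      obtain ⟨x₀, hx₀⟩ : ∃ x, φ x ≠ 0 := by
        by_contra h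
        push Not at h
        exact hφ0 (LinearMap.ext h)
      set x : V := (φ x₀)⁻¹ • p x₀ with hxd
      have hpx : p x = x := by rw [hxd, map_smul, hpp']
      have hφx : φ x = 1 := by rw [hxd, map_smul, hφp, smul_eq_mul, inv_mul_cancel₀ hx₀]
      obtain ⟨ξ', hξ', -⟩ := Submodule.exists_le_ker_of_notMem (p := (⊥ : Submodule K V)) (v := u)
        (by rwa [Submodule.mem_bot])
      obtain ⟨η, hηu⟩ : ∃ η : Module.Dual K V, η u = 1 :=
        ⟨(ξ' u)⁻¹ • ξ', by rw [LinearMap.smul_apply, smul_eq_mul, inv_mul_cancel₀ hξ']⟩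
      obtain ⟨ξ, hξ⟩ : ∃ ξ : Module.Dual K V, ∀ z, ξ z = η (p z) - η x * φ (p z) :=
        ⟨(η - η x • φ).comp p, fun z => rfl⟩
      have hξp : ∀ z, ξ (p z) = ξ z := by
        intro z
        rw [hξ, hξ, hpp']
      have hξu : ξ u = 1 := by rw [hξ, hpu, hφu, hηu, mul_zero, sub_zero]
      have hξx : ξ x = 0 := by rw [hξ, hpx, hφx, mul_one, sub_self]
      refine ⟨ξ.smulRight x, he, hmem hpx hξp hξx, hee, ?_, ?_, ?_⟩
      · ext z
        simp only [Module.End.mul_apply, LinearMap.smulRight_apply, map_smul, hξx,
          LinearMap.zero_apply, zero_smul, smul_zero]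
      · ext z
        simp only [Module.End.mul_apply, LinearMap.smulRight_apply, map_smul, smul_eq_mul, heφ,
          hξu, hφx, mul_one, smul_smul]
      · ext z
        simp only [Module.End.mul_apply, LinearMap.smulRight_apply, map_smul, heφ, hξu, hφx,
          mul_one, smul_smul]
    · have : Nontrivial (LinearMap.range p) :=
        Module.nontrivial_of_finrank_pos (R := K) (by omega)
      obtain ⟨⟨u, hu⟩, hu0⟩ := exists_ne (0 : LinearMap.range p)
      have hu0' : u ≠ 0 := fun h => hu0 (Subtype.ext h)
      obtain ⟨x, hx, hxu⟩ : ∃ x ∈ LinearMap.range p, x ∉ Submodule.span K {u} := by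
        by_contra h
        push Not at h
        have h1 : LinearMap.range p ≤ Submodule.span K {u} := h
        have h2 := Submodule.finrank_mono h1
        rw [finrank_span_singleton hu0'] at h2
        omega
      obtain ⟨φ, hφ, hφ'⟩ := Submodule.exists_le_ker_of_notMem hxu
      have hφu : φ u = 0 := hφ' (Submodule.mem_span_singleton_self u)
      have hu' := hrange u hu
      have hx' := hrange x hx
      have h0 : (φ.comp p) u = 0 := by rw [LinearMap.comp_apply, hu', hφu]
      refine ⟨(φ.comp p).smulRight u, hmem hu' (fun z => by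
        rw [LinearMap.comp_apply, LinearMap.comp_apply, hpp']) h0, ?_, ?_⟩
      · ext z
        rw [Module.End.mul_apply, LinearMap.smulRight_apply, LinearMap.smulRight_apply, map_smul,
          h0, smul_zero, zero_smul, LinearMap.zero_apply]
      · refine Partner_rk hu0' ?_
        intro h
        apply hφ
        have h1 := LinearMap.congr_fun h x
        rwa [LinearMap.comp_apply, hx', LinearMap.zero_apply] at h1

end Pool.Agent.Lib.MP_640417_ag.Tg
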