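import Pool.Agent.Lib.MP_640417_ag.Tg.SpecA

/-!
# Quadratic forms with equal squares
-/

set_option autoImplicit false

namespace Pool.Agent.Lib.MP_640417_ag.Tg

theorem quad_polar {K G : Type} [Field K] [CharZero K] [AddCommGroup G] [Module K G]
    (B : LinearMap.BilinForm K G) (hB : ∀ x y, B x y = B y x) (h : ∀ x, B x x = 0) (x y : G) :
    B x y = 0 := by
  have h1 := h (x + y)
  simp only [map_add, LinearMap.add_apply] at h1
  rw [h x, h y, hB y x, zero_add, add_zero] at h1
  have h2 : (2 : K) * B x y = 0 := by rw [two_mul, h1]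
  exact (mul_eq_zero.mp h2).resolve_left two_ne_zero

theorem quad_num {K : Type} [Field K] [CharZero K] {a b c b' : K} (ha : a ≠ 0) (hc : c ≠ 0)
    (hT : ∀ T : K, (-a + 2 * T * b + T ^ 2 * c) ^ 2 = (a + 2 * T * b' + T ^ 2 * c) ^ 2) :
    False := by
  have e1 := hT 1
  have e2 := hT (-1)
  have e3 := hT 2
  have g1 : (b - b') * c = 0 := by
    have g : (24 : K) * ((b - b') * c) = 0 := by linear_combination e3 - 3 * e1 - e2
    exact (mul_eq_zero.mp g).resolve_left (by norm_num)
  have g2 : a * (b + b') = 0 := by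
    have g : (8 : K) * (a * (b + b')) = 0 := by linear_combination e2 - e1 + 8 * g1
    exact (mul_eq_zero.mp g).resolve_left (by norm_num)
  have g3 : b + b' = 0 := (mul_eq_zero.mp g2).resolve_left ha
  have g4 : a * c = 0 := by
    have g : (8 : K) * (a * c) = 0 := by linear_combination (-1) * e1 - e2 + 8 * (b - b') * g3
    exact (mul_eq_zero.mp g).resolve_left (by norm_num)
  exact (mul_ne_zero ha hc) g4

theorem pQuad : SQuad := by
  intro K G _ _ _ _ B₁ B₂ h1 h2 h
  have key : (∀ x, B₁ x x = B₂ x x) ∨ (∀ x, B₁ x x = -B₂ x x) := by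
    by_contra hcon
    push Not at hcon
    obtain ⟨⟨x, hx⟩, ⟨y, hy⟩⟩ := hcon
    have ex : B₁ x x = -B₂ x x := (sq_eq_sq_iff_eq_or_eq_neg.mp (h x)).resolve_left hx
    have ey : B₁ y y = B₂ y y := (sq_eq_sq_iff_eq_or_eq_neg.mp (h y)).resolve_right hy
    have ha : B₂ x x ≠ 0 := by
      intro h0
      apply hx
      rw [ex, h0, neg_zero]
    have hc : B₂ y y ≠ 0 := by
      intro h0
      apply hy
      rw [ey, h0, neg_zero]
    refine quad_num (b := B₁ x y) (b' := B₂ x y) ha hc (fun T => ?_)
    have hT := h (x + T • y)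
    simp only [map_add, map_smul, LinearMap.add_apply, LinearMap.smul_apply, smul_eq_mul] at hT
    rw [h1 y x, h2 y x, ex, ey] at hT
    linear_combination hT
  rcases key with hk | hk
  · left
    intro x y
    have g := quad_polar (B₁ - B₂) (fun x y => by
      rw [LinearMap.sub_apply, LinearMap.sub_apply, LinearMap.sub_apply, LinearMap.sub_apply,
        h1 x y, h2 x y]) (fun x => by
      rw [LinearMap.sub_apply, LinearMap.sub_apply, hk, sub_self]) x y
    rw [LinearMap.sub_apply, LinearMap.sub_apply] at g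
    exact sub_eq_zero.mp g
  · right
    intro x y
    have g := quad_polar (B₁ + B₂) (fun x y => by
      rw [LinearMap.add_apply, LinearMap.add_apply, LinearMap.add_apply, LinearMap.add_apply,
        h1 x y, h2 x y]) (fun x => by
      rw [LinearMap.add_apply, LinearMap.add_apply, hk, neg_add_cancel]) x y
    rw [LinearMap.add_apply, LinearMap.add_apply] at g
    exact eq_neg_of_add_eq_zero_left g

end Pool.Agent.Lib.MP_640417_ag.Tg
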