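import Pool.Agent.Lib.MP_640417_ag.Tg.SpecA
import Pool.Agent.Lib.MP_640417_ag.Tor.Tr

/-!
# Toric places, no factors of type III: the trace form of an irreducible Lie algebra
-/

namespace Pool.Agent.Lib.MP_640417_ag.Tg

open Module Pool.Agent.Lib.MP_640417_ag.Tor

attribute [local instance 100] LieRing.ofAssociativeRing

variable {K U : Type} [Field K] [AddCommGroup U] [Module K U]

/-- The projection to the operators of trace zero. -/
noncomputable def Rad_pr : Module.End K U →ₗ[K] Module.End K U :=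
  LinearMap.id - (LinearMap.trace K U).smulRight
    ((finrank K U : K)⁻¹ • (1 : Module.End K U))

lemma Rad_pr_apply (X : Module.End K U) :
    Rad_pr X = X - tr X • ((finrank K U : K)⁻¹ • (1 : Module.End K U)) := rfl

lemma Rad_pr_eq {X : Module.End K U} (h : tr X = 0) : Rad_pr X = X := by
  rw [Rad_pr_apply, h, zero_smul, sub_zero]

lemma Rad_pr_vec (X : Module.End K U) (y : U) :
    X y = Rad_pr X y + (tr X * (finrank K U : K)⁻¹) • y := by
  rw [Rad_pr_apply, LinearMap.sub_apply, LinearMap.smul_apply, LinearMap.smul_apply,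
    Module.End.one_apply, smul_smul, sub_add_cancel]

lemma Rad_tr_lie (X Y : Module.End K U) : tr (X * Y - Y * X) = 0 := by
  unfold tr
  rw [map_sub, LinearMap.trace_mul_comm, sub_self]

lemma Rad_lie (X Y : Module.End K U) :
    Rad_pr X * Rad_pr Y - Rad_pr Y * Rad_pr X = X * Y - Y * X := by
  ext y
  simp only [Rad_pr_apply, LinearMap.sub_apply, Module.End.mul_apply, LinearMap.smul_apply,
    Module.End.one_apply, map_sub, map_smul]
  module

lemma Rad_tr_pr [CharZero K] [FiniteDimensional K U] [Nontrivial U] (X : Module.End K U) :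
    tr (Rad_pr X) = 0 := by
  have hn : (finrank K U : K) ≠ 0 := by
    have := finrank_pos (R := K) (M := U)
    exact_mod_cast this.ne'
  unfold tr
  rw [Rad_pr_apply, map_sub, map_smul, map_smul, LinearMap.trace_one, smul_eq_mul, smul_eq_mul,
    inv_mul_cancel₀ hn, mul_one]
  exact sub_self _

/-- The trace form of an irreducible Lie algebra is nondegenerate. -/
theorem pRad : SRad := by
  intro K U _ _ _ _ _ _ _ g hl hirr X hX hX0
  have hn : (finrank K U : K) ≠ 0 := by
    have := finrank_pos (R := K) (M := U)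
    exact_mod_cast this.ne'
  -- the radical of the trace form
  let R : Submodule K (Module.End K U) :=
    { carrier := {X | X ∈ g ∧ ∀ Y ∈ g, tr (X * Y) = 0}
      add_mem' := by
        rintro X Z ⟨h1, h2⟩ ⟨h3, h4⟩
        refine ⟨add_mem h1 h3, fun Y hY => ?_⟩
        have h5 := h2 Y hY
        have h6 := h4 Y hY
        unfold tr at h5 h6 ⊢
        rw [add_mul, map_add, h5, h6, add_zero]
      zero_mem' := ⟨zero_mem _, fun Y _ => by unfold tr; rw [zero_mul, map_zero]⟩
      smul_mem' := by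
        rintro c X ⟨h1, h2⟩
        refine ⟨Submodule.smul_mem _ _ h1, fun Y hY => ?_⟩
        have h5 := h2 Y hY
        unfold tr at h5 ⊢
        rw [smul_mul_assoc, map_smul, h5, smul_zero] }
  have hRid : ∀ Z ∈ g, ∀ Y ∈ R, Z * Y - Y * Z ∈ R := by
    rintro Z hZ Y ⟨h1, h2⟩
    refine ⟨hl Z hZ Y h1, fun W hW => ?_⟩
    have h3 := h2 (W * Z - Z * W) (hl W hW Z hZ)
    unfold tr at h3 ⊢
    have h4 : (Z * Y - Y * Z) * W = Z * (Y * W) - Y * Z * W := by noncomm_ring
    have h5 : Y * (W * Z - Z * W) = Y * W * Z - Y * Z * W := by noncomm_ring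
    rw [h5, map_sub] at h3
    rw [h4, map_sub, LinearMap.trace_mul_comm]
    exact h3
  have hRR : ∀ Y ∈ R, ∀ Z ∈ R, Y * Z - Z * Y ∈ R := fun Y hY Z hZ => hRid Y hY.1 Z hZ
  obtain ⟨v, hv0, hv⟩ := Tr_vec R hRR (fun Y hY Z hZ => hY.2 Z hZ.1)
  -- the brackets vanish
  let W : Submodule K U :=
    { carrier := {v | ∀ Y ∈ R, ∀ Z ∈ R, (Y * Z - Z * Y) v = 0}
      add_mem' := by
        intro v w hv hw Y hY Z hZ
        rw [map_add, hv Y hY Z hZ, hw Y hY Z hZ, add_zero]
      zero_mem' := fun Y _ Z _ => map_zero _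
      smul_mem' := by
        intro c v hv Y hY Z hZ
        rw [map_smul, hv Y hY Z hZ, smul_zero] }
  have hWst : ∀ Z ∈ g, ∀ w ∈ W, Z w ∈ W := by
    intro T hT w hw Y hY Z hZ
    have h1 : (Y * Z - Z * Y) * T = T * (Y * Z - Z * Y)
        - ((T * Y - Y * T) * Z - Z * (T * Y - Y * T))
        - (Y * (T * Z - Z * T) - (T * Z - Z * T) * Y) := by noncomm_ring
    rw [← Module.End.mul_apply, h1, LinearMap.sub_apply, LinearMap.sub_apply,
      Module.End.mul_apply, hw Y hY Z hZ, hw _ (hRid T hT Y hY) Z hZ, hw Y hY _ (hRid T hT Z hZ),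
      map_zero, sub_zero, sub_zero]
  have hWtop : W = ⊤ := by
    rcases hirr W le_top hWst with h | h
    · exfalso
      apply hv0
      have h1 : v ∈ W := hv
      rw [h] at h1
      exact (Submodule.mem_bot K).mp h1
    · exact h
  have hcomm : ∀ Y ∈ R, ∀ Z ∈ R, Y * Z = Z * Y := by
    intro Y hY Z hZ
    rw [← sub_eq_zero]
    ext w
    have h1 : w ∈ W := by rw [hWtop]; exact Submodule.mem_top
    exact h1 Y hY Z hZ
  -- the Lie algebra of the operators with the traces removed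
  let g₀ : Submodule K (Module.End K U) := g.map Rad_pr
  have hl₀ : ∀ X ∈ g₀, ∀ Y ∈ g₀, X * Y - Y * X ∈ g₀ := by
    rintro _ ⟨X, hX, rfl⟩ _ ⟨Y, hY, rfl⟩
    rw [Rad_lie]
    exact ⟨_, hl X hX Y hY, Rad_pr_eq (Rad_tr_lie X Y)⟩
  let L := Tr_sub g₀ hl₀
  have : LieModule.IsIrreducible K L U := by
    refine LieModule.IsIrreducible.mk (fun N hN => ?_)
    rcases hirr N.toSubmodule le_top (fun Z hZ y hy => by
      rw [Rad_pr_vec Z y]
      exact add_mem (N.lie_mem (x := (⟨Rad_pr Z, ⟨Z, hZ, rfl⟩⟩ : L)) hy)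
        (N.toSubmodule.smul_mem _ hy)) with h | h
    · exfalso
      apply hN
      rwa [LieSubmodule.toSubmodule_eq_bot] at h
    · rwa [LieSubmodule.toSubmodule_eq_top] at h
  have : LieModule.IsFaithful K L U := by
    rw [LieModule.isFaithful_iff']
    intro x hx
    apply Subtype.ext
    ext w
    exact hx w
  have htr0 : ∀ x : L, LinearMap.trace K _ (LieModule.toEnd K L U x) = 0 := by
    rintro ⟨x, hx⟩
    obtain ⟨Z, hZ, rfl⟩ := hx
    exact Rad_tr_pr Z
  have : LieAlgebra.HasTrivialRadical K L :=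
    LieAlgebra.hasTrivialRadical_of_isIrreducible_of_isFaithful K L U htr0
  let I : LieIdeal K L :=
    { carrier := {x : L | x.1 ∈ R.map Rad_pr}
      add_mem' := fun {x y} hx hy => (R.map Rad_pr).add_mem hx hy
      zero_mem' := (R.map Rad_pr).zero_mem
      smul_mem' := fun c x hx => (R.map Rad_pr).smul_mem c hx
      lie_mem := by
        rintro ⟨x, hx⟩ ⟨m, hm'⟩ hm
        obtain ⟨Z, hZ, rfl⟩ := hx
        obtain ⟨Y, hY, rfl⟩ := hm
        refine ⟨Z * Y - Y * Z, hRid Z hZ Y hY, ?_⟩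
        rw [Rad_pr_eq (Rad_tr_lie Z Y)]
        exact (Rad_lie Z Y).symm }
  have : IsLieAbelian I := by
    refine ⟨fun x y => ?_⟩
    obtain ⟨Z, hZ, hZx⟩ := x.2
    obtain ⟨Y, hY, hYy⟩ := y.2
    apply Subtype.ext
    apply Subtype.ext
    change x.1.1 * y.1.1 - y.1.1 * x.1.1 = 0
    rw [← hZx, ← hYy, Rad_lie]
    exact sub_eq_zero.mpr (hcomm Z hZ Y hY)
  have hsolv : LieAlgebra.IsSolvable I := inferInstance
  rw [LieAlgebra.LieIdeal.solvable_iff_le_radical,
    LieAlgebra.HasTrivialRadical.radical_eq_bot, le_bot_iff] at hsolv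
  have hXI : (⟨Rad_pr X, ⟨X, hX, rfl⟩⟩ : L) ∈ I := ⟨X, ⟨hX, hX0⟩, rfl⟩
  rw [hsolv, LieSubmodule.mem_bot] at hXI
  have h0 : Rad_pr X = 0 := congrArg Subtype.val hXI
  -- `X` is a scalar
  rw [Rad_pr_apply, sub_eq_zero, smul_smul] at h0
  have h1 := hX0 X hX
  rw [h0] at h1
  unfold tr at h1
  rw [smul_mul_assoc, mul_smul_comm, one_mul, map_smul, map_smul, LinearMap.trace_one, smul_eq_mul,
    smul_eq_mul] at h1
  have h2 : LinearMap.trace K U X * (finrank K U : K)⁻¹ = 0 := by
    rcases mul_eq_zero.1 h1 with h | h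
    · exact h
    · rcases mul_eq_zero.1 h with h | h
      · exact h
      · exact absurd h hn
  rw [h0]
  unfold tr
  rw [h2, zero_smul]

end Pool.Agent.Lib.MP_640417_ag.Tg
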