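import Pool.Agent.Lib.MP_640417_ag.Tg.SpecA

/-!
# Schur's lemma for two blocks
-/

set_option autoImplicit false

namespace Pool.Agent.Lib.MP_640417_ag.Tg

open Module Pool.Agent.Lib.MP_640417_ag.Tor

theorem pSchurT : SSchurT := by
  intro K V _ _ _ _ _ D P Q hP _ hDP _ hIP hIQ c d hc hd hcD hdD hc0
  have hcP : c * P = c := by
    calc c * P = Q * c * P * P := by rw [hc]
      _ = Q * c * P := by rw [mul_assoc (Q * c), hP]
      _ = c := hc
  have hdP : d * P = d := by
    calc d * P = Q * d * P * P := by rw [hd]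
      _ = Q * d * P := by rw [mul_assoc (Q * d), hP]
      _ = d := hd
  have hcQ : ∀ x, c x ∈ LinearMap.range Q := by
    intro x
    refine ⟨c (P x), ?_⟩
    calc Q (c (P x)) = (Q * c * P) x := rfl
      _ = c x := by rw [hc]
  have hdQ : ∀ x, d x ∈ LinearMap.range Q := by
    intro x
    refine ⟨d (P x), ?_⟩
    calc Q (d (P x)) = (Q * d * P) x := rfl
      _ = d x := by rw [hd]
  have stP : ∀ X ∈ D, ∀ y ∈ LinearMap.range P, X y ∈ LinearMap.range P := by
    rintro X hX _ ⟨y, rfl⟩
    refine ⟨X y, ?_⟩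
    calc P (X y) = (P * X) y := rfl
      _ = (X * P) y := by rw [hDP X hX]
      _ = X (P y) := rfl
  have hcX : ∀ X ∈ D, ∀ y, c (X y) = X (c y) := by
    intro X hX y
    calc c (X y) = (c * X) y := rfl
      _ = (X * c) y := by rw [hcD X hX]
      _ = X (c y) := rfl
  have hdX : ∀ X ∈ D, ∀ y, d (X y) = X (d y) := by
    intro X hX y
    calc d (X y) = (d * X) y := rfl
      _ = (X * d) y := by rw [hdD X hX]
      _ = X (d y) := rfl
  have hcPx : ∀ x, c (P x) = c x := fun x => congrArg (fun f : Module.End K V => f x) hcP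
  have hdPx : ∀ x, d (P x) = d x := fun x => congrArg (fun f : Module.End K V => f x) hdP
  -- injectivity
  have h1 : LinearMap.range P ⊓ LinearMap.ker c = ⊥ := by
    rcases hIP (LinearMap.range P ⊓ LinearMap.ker c) inf_le_left (by
      rintro X hX y ⟨hy1, hy2⟩
      refine ⟨stP X hX y hy1, ?_⟩
      rw [SetLike.mem_coe, LinearMap.mem_ker] at hy2 ⊢
      rw [hcX X hX, hy2, map_zero]) with h | h
    · exact h
    · exfalso
      apply hc0
      refine LinearMap.ext fun x => ?_
      have h2 : P x ∈ LinearMap.range P ⊓ LinearMap.ker c := by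
        rw [h]
        exact ⟨x, rfl⟩
      rw [← hcPx]
      exact h2.2
  -- surjectivity
  have h2 : LinearMap.range c = LinearMap.range Q := by
    rcases hIQ (LinearMap.range c) (by
      rintro _ ⟨x, rfl⟩
      exact hcQ x) (by
      rintro X hX _ ⟨y, rfl⟩
      exact ⟨X y, hcX X hX y⟩) with h | h
    · exact absurd (LinearMap.range_eq_bot.mp h) hc0
    · exact h
  -- the left inverse
  obtain ⟨g, hg⟩ := LinearMap.exists_leftInverse_of_injective
    (c.comp (LinearMap.range P).subtype) (by
      rw [LinearMap.ker_eq_bot']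
      intro u hu
      have h3 : (u : V) ∈ LinearMap.range P ⊓ LinearMap.ker c := ⟨u.2, hu⟩
      rw [h1] at h3
      exact Subtype.ext ((Submodule.mem_bot K).mp h3))
  have hg' : ∀ u : LinearMap.range P, g (c (u : V)) = u := fun u =>
    congrArg (fun f : LinearMap.range P →ₗ[K] LinearMap.range P => f u) hg
  have : Nontrivial (LinearMap.range P) := by
    rw [Submodule.nontrivial_iff_ne_bot]
    intro h
    apply hc0
    refine LinearMap.ext fun x => ?_
    have h3 : P x ∈ LinearMap.range P := ⟨x, rfl⟩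
    rw [h, Submodule.mem_bot] at h3
    rw [← hcPx, h3, map_zero, LinearMap.zero_apply]
  obtain ⟨s, hs⟩ := Module.End.exists_eigenvalue
    ((g.comp d).comp (LinearMap.range P).subtype : Module.End K (LinearMap.range P))
  obtain ⟨u, hu⟩ := hs.exists_hasEigenvector
  have hu1 : g (d (u : V)) = s • u := hu.apply_eq_smul
  have hu2 : d (u : V) = s • c (u : V) := by
    have h3 := hdQ (u : V)
    rw [← h2] at h3
    obtain ⟨w, hw⟩ := h3
    have h4 := hg' ⟨P w, ⟨w, rfl⟩⟩
    change g (c (P w)) = _ at h4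
    rw [hcPx, hw, hu1] at h4
    have h5 : s • (u : V) = P w := congrArg Subtype.val h4
    rw [← hw, ← hcPx, ← h5, map_smul]
  refine ⟨s, ?_⟩
  rcases hIP (LinearMap.range P ⊓ LinearMap.ker (d - s • c)) inf_le_left (by
      rintro X hX y ⟨hy1, hy2⟩
      refine ⟨stP X hX y hy1, ?_⟩
      rw [SetLike.mem_coe, LinearMap.mem_ker, LinearMap.sub_apply, LinearMap.smul_apply] at hy2 ⊢
      rw [hcX X hX, hdX X hX, ← map_smul, ← map_sub, hy2, map_zero]) with h | h
  · exfalso
    apply hu.2
    have h3 : (u : V) ∈ LinearMap.range P ⊓ LinearMap.ker (d - s • c) := by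
      refine ⟨u.2, ?_⟩
      rw [SetLike.mem_coe, LinearMap.mem_ker, LinearMap.sub_apply, LinearMap.smul_apply, hu2,
        sub_self]
    rw [h, Submodule.mem_bot] at h3
    exact Subtype.ext h3
  · refine LinearMap.ext fun x => ?_
    have h3 : P x ∈ LinearMap.range P ⊓ LinearMap.ker (d - s • c) := by
      rw [h]
      exact ⟨x, rfl⟩
    have h4 := h3.2
    rw [SetLike.mem_coe, LinearMap.mem_ker, LinearMap.sub_apply, LinearMap.smul_apply, hdPx, hcPx,
      sub_eq_zero] at h4
    exact h4

end Pool.Agent.Lib.MP_640417_ag.Tg
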