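import Pool.Agent.Lib.MP_640417_ag.Tg.SpecA
import Pool.Agent.Lib.MP_640417_ag.Tor.GouA
import Pool.Agent.Lib.MP_640417_ag.Tor.Adj

/-!
# Toric places, no factors of type III: the block is simple
-/

namespace Pool.Agent.Lib.MP_640417_ag.Tg

open Module Pool.Agent.Lib.MP_640417_ag.Tor

section

variable {K V : Type} [Field K] [AddCommGroup V] [Module K V]

/-- A functional separating `y` from the line of `u`. -/
lemma Simp_sep {u y : V} (h : ∀ c : K, y ≠ c • u) : ∃ φ : Module.Dual K V, φ u = 0 ∧ φ y = 1 := by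
  have h1 : y ∉ Submodule.span K {u} := by
    intro h2
    obtain ⟨c, hc⟩ := Submodule.mem_span_singleton.mp h2
    exact h c hc.symm
  obtain ⟨f, hf, hle⟩ := Submodule.exists_le_ker_of_notMem h1
  refine ⟨(f y)⁻¹ • f, ?_, ?_⟩
  · have h3 : f u = 0 := hle (Submodule.mem_span_singleton_self u)
    rw [LinearMap.smul_apply, h3, smul_zero]
  · rw [LinearMap.smul_apply, smul_eq_mul, inv_mul_cancel₀ hf]

/-- The rank one operator is in the block. -/
lemma Simp_mem [FiniteDimensional K V] (ψ : LinearMap.BilinForm K V) {p : Module.End K V} {t : Prop}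
    (ht : ¬ t) {u : V}
    {φ : Module.Dual K V} (hu : p u = u) (hφ : ∀ x, φ (p x) = φ x) (h0 : φ u = 0) :
    LinearMap.smulRight φ u ∈ sb ψ p t := by
  refine ⟨?_, ?_, fun h => absurd h ht⟩
  · ext x
    simp only [Module.End.mul_apply, LinearMap.smulRight_apply, map_smul, hu, hφ]
  · unfold tr
    rw [LinearMap.trace_smulRight, h0]

/-- Brackets with a rank one operator of square zero. -/
lemma Simp_br {u : V} {φ : Module.Dual K V} (h0 : φ u = 0) (Y : Module.End K V) :
    LinearMap.smulRight φ u * (LinearMap.smulRight φ u * Y - Y * LinearMap.smulRight φ u) -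
      (LinearMap.smulRight φ u * Y - Y * LinearMap.smulRight φ u) * LinearMap.smulRight φ u =
      (-(2 * φ (Y u))) • LinearMap.smulRight φ u := by
  have h1 : LinearMap.smulRight φ u * LinearMap.smulRight φ u = 0 := by
    ext x
    rw [Module.End.mul_apply, LinearMap.smulRight_apply, LinearMap.smulRight_apply, map_smul, h0,
      smul_zero, zero_smul, LinearMap.zero_apply]
  have h2 : LinearMap.smulRight φ u * Y * LinearMap.smulRight φ u =
      φ (Y u) • LinearMap.smulRight φ u := by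
    ext x
    rw [Module.End.mul_apply, Module.End.mul_apply, LinearMap.smul_apply, LinearMap.smulRight_apply,
      LinearMap.smulRight_apply, map_smul, map_smul, smul_smul, smul_eq_mul, mul_comm]
  have h3 : LinearMap.smulRight φ u * (LinearMap.smulRight φ u * Y - Y * LinearMap.smulRight φ u) -
      (LinearMap.smulRight φ u * Y - Y * LinearMap.smulRight φ u) * LinearMap.smulRight φ u =
      (LinearMap.smulRight φ u * LinearMap.smulRight φ u) * Y + Y * (LinearMap.smulRight φ u *
        LinearMap.smulRight φ u) - (2 : K) • (LinearMap.smulRight φ u * Y * LinearMap.smulRight φ u) := by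
    rw [two_smul]
    noncomm_ring
  rw [h3, h1, h2, zero_mul, mul_zero, smul_smul, neg_smul]
  abel

/-- Two functionals. -/
lemma Simp_two {x y : V} {φ χ : Module.Dual K V} (hx : φ x ≠ 0) (hy : χ y ≠ 0) :
    ∃ z : V, (z = x ∨ z = y ∨ z = x + y) ∧ φ z ≠ 0 ∧ χ z ≠ 0 := by
  by_cases h1 : χ x = 0
  · by_cases h2 : φ y = 0
    · exact ⟨x + y, Or.inr (Or.inr rfl), by rw [map_add, h2, add_zero]; exact hx,
        by rw [map_add, h1, zero_add]; exact hy⟩
    · exact ⟨y, Or.inr (Or.inl rfl), h2, hy⟩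
  · exact ⟨x, Or.inl rfl, hx, h1⟩

/-- An operator on the range of `p` for which all vectors are eigenvectors is a multiple of `p`. -/
lemma Simp_scalar {p Y : Module.End K V} (hpp : p * p = p) (hY : p * Y * p = Y)
    (h : ∀ u, p u = u → ∃ c : K, Y u = c • u) : ∃ c : K, Y = c • p := by
  by_cases hp : p = 0
  · exact ⟨0, by rw [← hY, hp, mul_zero, smul_zero]⟩
  obtain ⟨x₀, hx₀⟩ : ∃ x, p x ≠ 0 := by
    by_contra hne
    push Not at hne
    exact hp (LinearMap.ext hne)
  have hpx : ∀ x, p (p x) = p x := fun x => by rw [← Module.End.mul_apply, hpp]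
  obtain ⟨c, hc⟩ := h (p x₀) (hpx x₀)
  refine ⟨c, ?_⟩
  have hYp : ∀ x, Y (p x) = Y x := by
    intro x
    conv_rhs => rw [← hY]
    conv_lhs => rw [← hY]
    simp only [Module.End.mul_apply, hpx]
  ext x
  rw [LinearMap.smul_apply, ← hYp]
  obtain ⟨d, hd⟩ := h (p x) (hpx x)
  by_cases hdep : ∃ s : K, p x = s • p x₀
  · obtain ⟨s, hs⟩ := hdep
    rw [hs, map_smul, hc, smul_comm]
  · push Not at hdep
    obtain ⟨f, hf0, hf1⟩ := Simp_sep hdep
    obtain ⟨b, hb⟩ := h (p x + p x₀) (by rw [map_add, hpx, hpx])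
    rw [map_add, hd, hc, smul_add] at hb
    have h1 := congrArg f hb
    rw [map_add, map_add, map_smul, map_smul, map_smul, map_smul, hf0, hf1, smul_zero, smul_zero,
      add_zero, add_zero, smul_eq_mul, smul_eq_mul, mul_one, mul_one] at h1
    subst h1
    rw [add_right_inj] at hb
    rw [hd]
    have h2 : (c - d) • p x₀ = 0 := by rw [sub_smul, hb, sub_self]
    rcases smul_eq_zero.mp h2 with h3 | h3
    · rw [sub_eq_zero.mp h3]
    · exact absurd h3 hx₀

/-- The form of an operator of rank one. -/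
lemma Simp_form {e : Module.End K V} (hr : rk e = 1) :
    ∃ (v : V) (φ : Module.Dual K V), v ≠ 0 ∧ e = LinearMap.smulRight φ v := by
  obtain ⟨v', hv, hspan⟩ := finrank_eq_one_iff'.1 hr
  obtain ⟨v, hvm⟩ := v'
  have hv0 : v ≠ 0 := fun h => hv (Subtype.ext h)
  have h1 : ∀ x, ∃ c : K, e x = c • v := by
    intro x
    obtain ⟨c, hc⟩ := hspan ⟨e x, LinearMap.mem_range_self e x⟩
    exact ⟨c, (congrArg Subtype.val hc).symm⟩
  choose lam hlam using h1
  have hinj : ∀ a b : K, a • v = b • v → a = b := fun a b h => smul_left_injective K hv0 h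
  refine ⟨v, { toFun := lam, map_add' := ?_, map_smul' := ?_ }, hv0, ?_⟩
  · intro x y
    apply hinj
    rw [add_smul, ← hlam, ← hlam, ← hlam, map_add]
  · intro c x
    apply hinj
    rw [RingHom.id_apply, smul_eq_mul, mul_smul, ← hlam, ← hlam, map_smul]
  · ext x
    rw [LinearMap.smulRight_apply, hlam]
    rfl

end

/-- **The block is simple.** -/
theorem pSimp (hSpan : SSpan) : SSimp := by
  intro K V _ _ _ _ _ _ ψ p t hB a ha hlie Y hY hYc
  by_cases ht : t
  · have hle : a ≤ spb ψ p := fun Z hZ => ⟨(ha Z hZ).2 ht, (ha Z hZ).1⟩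
    have hsp : ∀ Z ∈ spb ψ p, Z ∈ sb ψ p t := fun Z hZ => ⟨hZ.2, tr_skew ψ hB.nd hZ.1, fun _ => hZ.1⟩
    have h1 := GouA_simple hB.anti hB.alt hB.nd hB.pp (hB.adj ht) a hle
      (fun Z hZ X hX => hlie Z (hsp Z hZ) X hX) hY (by
        intro h
        exact hYc 0 (by rw [h, zero_smul]))
    exact fun Z hZ => h1 ⟨hZ.2.2 ht, hZ.1⟩
  · have hpx : ∀ x, p (p x) = p x := fun x => by rw [← Module.End.mul_apply, hB.pp]
    have hpY : ∀ x, p (Y x) = Y x := by
      intro x
      have h1 := (ha Y hY).1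
      conv_lhs => rw [← h1]
      conv_rhs => rw [← h1]
      simp only [Module.End.mul_apply, hpx]
    -- the first element
    obtain ⟨u, hu, hYu⟩ : ∃ u, p u = u ∧ ∀ c : K, Y u ≠ c • u := by
      by_contra hne
      push Not at hne
      obtain ⟨c, hc⟩ := Simp_scalar hB.pp (ha Y hY).1 hne
      exact hYc c hc
    obtain ⟨φ₀, hφ0, hφ1⟩ := Simp_sep hYu
    have hφ : ∀ x, (φ₀ ∘ₗ p) (p x) = (φ₀ ∘ₗ p) x := by
      intro x
      rw [LinearMap.comp_apply, LinearMap.comp_apply, hpx]
    have hφu : (φ₀ ∘ₗ p) u = 0 := by rw [LinearMap.comp_apply, hu, hφ0]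
    have hφY : (φ₀ ∘ₗ p) (Y u) = 1 := by rw [LinearMap.comp_apply, hpY, hφ1]
    have hZ := Simp_mem ψ ht hu hφ hφu
    have hZa : LinearMap.smulRight (φ₀ ∘ₗ p) u ∈ a := by
      have h1 := hlie _ hZ _ (hlie _ hZ Y hY)
      rw [Simp_br hφu, hφY] at h1
      have h2 := a.smul_mem (-(2 * 1) : K)⁻¹ h1
      rwa [smul_smul, inv_mul_cancel₀ (by norm_num), one_smul] at h2
    -- propagation
    have hprop : ∀ (u : V) (φ : Module.Dual K V) (x : V) (ξ : Module.Dual K V),
        LinearMap.smulRight φ u ∈ a → p x = x → (∀ y, ξ (p y) = ξ y) → ξ x = 0 → ξ u ≠ 0 → φ x ≠ 0 →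
        LinearMap.smulRight ξ x ∈ a := by
      intro u φ x ξ h1 hx hξ hξx hξu hφx
      have hm := Simp_mem ψ ht hx hξ hξx
      have h2 := hlie _ hm _ (hlie _ hm _ h1)
      rw [Simp_br hξx, LinearMap.smulRight_apply, map_smul, smul_eq_mul] at h2
      have h3 := a.smul_mem (-(2 * (φ x * ξ u)))⁻¹ h2
      rwa [smul_smul, inv_mul_cancel₀ (neg_ne_zero.mpr (mul_ne_zero two_ne_zero
        (mul_ne_zero hφx hξu))), one_smul] at h3
    refine (hSpan K V ψ p t hB).trans (Submodule.span_le.mpr ?_)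
    rintro e ⟨he, hee, hre⟩
    obtain ⟨u', φ', hu'0, rfl⟩ := Simp_form hre
    obtain ⟨hpe, htr, -⟩ := he
    -- properties of the target
    have hφ'0 : ∃ y, φ' y ≠ 0 := by
      by_contra hne
      push Not at hne
      have h1 : LinearMap.smulRight φ' u' = 0 := by
        ext x
        rw [LinearMap.smulRight_apply, hne, zero_smul, LinearMap.zero_apply]
      rw [h1] at hre
      unfold rk at hre
      rw [LinearMap.range_zero, finrank_bot] at hre
      exact zero_ne_one hre
    obtain ⟨y, hy⟩ := hφ'0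
    have hφ'u' : φ' u' = 0 := by
      unfold tr at htr
      rwa [LinearMap.trace_smulRight] at htr
    have h4 : ∀ x, φ' (p x) • p u' = φ' x • u' := by
      intro x
      have h5 := LinearMap.congr_fun hpe x
      simpa only [Module.End.mul_apply, LinearMap.smulRight_apply, map_smul] using h5
    have hpu' : p u' = u' := by
      have h5 := congrArg p (h4 y)
      rw [map_smul, map_smul, hpx, h4 y] at h5
      exact (smul_right_injective V hy h5).symm
    have hφ' : ∀ x, φ' (p x) = φ' x := by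
      intro x
      have h5 := h4 x
      rw [hpu'] at h5
      exact smul_left_injective K hu'0 h5
    -- the intermediate vector
    obtain ⟨x, hx, hx1, hx2⟩ := Simp_two (φ := φ₀ ∘ₗ p) (χ := φ') (x := Y u) (y := p y)
      (by rw [hφY]; exact one_ne_zero) (by rw [hφ']; exact hy)
    have hpxx : p x = x := by
      rcases hx with rfl | rfl | rfl
      · exact hpY u
      · exact hpx y
      · rw [map_add, hpY, hpx]
    have hxu : ∀ c : K, u ≠ c • x := by
      intro c hc
      have h5 := congrArg (φ₀ ∘ₗ p) hc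
      rw [hφu, map_smul, smul_eq_mul] at h5
      have hc0 : c = 0 := (mul_eq_zero.mp h5.symm).resolve_right hx1
      rw [hc0, zero_smul] at hc
      exact hYu 0 (by rw [hc, map_zero, smul_zero])
    have hxu' : ∀ c : K, u' ≠ c • x := by
      intro c hc
      have h5 := congrArg φ' hc
      rw [hφ'u', map_smul, smul_eq_mul] at h5
      have hc0 : c = 0 := (mul_eq_zero.mp h5.symm).resolve_right hx2
      rw [hc0, zero_smul] at hc
      exact hu'0 hc
    obtain ⟨ξ₁, h1x, h1u⟩ := Simp_sep hxu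
    obtain ⟨ξ₂, h2x, h2u⟩ := Simp_sep hxu'
    obtain ⟨ξ, hξx, hξu, hξu'⟩ : ∃ ξ : Module.Dual K V, ξ x = 0 ∧ ξ u ≠ 0 ∧ ξ u' ≠ 0 := by
      by_cases h5 : ξ₁ u' = 0
      · by_cases h6 : ξ₂ u = 0
        · refine ⟨ξ₁ + ξ₂, ?_, ?_, ?_⟩
          · rw [LinearMap.add_apply, h1x, h2x, add_zero]
          · rw [LinearMap.add_apply, h1u, h6, add_zero]
            exact one_ne_zero
          · rw [LinearMap.add_apply, h5, h2u, zero_add]
            exact one_ne_zero
        · exact ⟨ξ₂, h2x, h6, by rw [h2u]; exact one_ne_zero⟩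
      · exact ⟨ξ₁, h1x, by rw [h1u]; exact one_ne_zero, h5⟩
    have h7 := hprop u (φ₀ ∘ₗ p) x (ξ ∘ₗ p) hZa hpxx
      (fun y => by rw [LinearMap.comp_apply, LinearMap.comp_apply, hpx])
      (by rw [LinearMap.comp_apply, hpxx, hξx]) (by rw [LinearMap.comp_apply, hu]; exact hξu) hx1
    exact hprop x (ξ ∘ₗ p) u' φ' h7 hpu' hφ' hφ'u' hx2 (by
      rw [LinearMap.comp_apply, hpu']
      exact hξu')

end Pool.Agent.Lib.MP_640417_ag.Tg
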