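import Pool.Agent.Lib.MP_640417_ag.Tg.SpecA
import Pool.Agent.Lib.MP_640417_ag.Tor.PMB
import Pool.Agent.Lib.MP_640417_ag.Tor.Adj

/-!
# Toric places, no factors of type III: classification in a block
-/

set_option autoImplicit false

namespace Pool.Agent.Lib.MP_640417_ag.Tg

open Module Pool.Agent.Lib.MP_640417_ag.Tor

private lemma slb_tr {K V : Type} [Field K] [AddCommGroup V] [Module K V] [FiniteDimensional K V]
    {p Y : Module.End K V} (hY : Y * p = Y) : tr (PMB_res p Y) = tr Y := by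
  unfold tr
  have h1 : PMB_res p Y = p.rangeRestrict ∘ₗ (Y ∘ₗ (LinearMap.range p).subtype) := rfl
  rw [h1, LinearMap.trace_comp_comm', LinearMap.comp_assoc]
  have h2 : (LinearMap.range p).subtype ∘ₗ p.rangeRestrict = p := by
    ext x
    rfl
  rw [h2]
  exact congrArg _ hY

theorem pSlB (hCls : SCls) : SSlB := by
  intro K V _ _ _ _ _ _ B _ _ ψ p st hBD g lie sp hcom b hirr N hN hNN hrk1
  classical
  have hpp : p b * p b = p b := hBD.pp b
  let W := LinearMap.range (p b)
  let res := PMB_res (p b)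
  have hfix : ∀ w : W, p b w = w := PMB_fix hpp
  have hres : ∀ Y ∈ g, ∀ w : W, ((res Y w : W) : V) = Y w := fun Y hY =>
    PMB_com hpp (hcom b Y hY)
  have hmul : ∀ Y ∈ g, ∀ Z ∈ g, res (Y * Z) = res Y * res Z := fun Y hY Z hZ =>
    PMB_mul hpp (hcom b Y hY) (hcom b Z hZ)
  have hlie : ∀ Y ∈ g, ∀ Z ∈ g, res (Y * Z - Z * Y) = res Y * res Z - res Z * res Y := by
    intro Y hY Z hZ
    rw [map_sub, hmul Y hY Z hZ, hmul Z hZ Y hY]
  let g' : Submodule K (Module.End K W) := g.map res
  have hLie' : Lie g' := by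
    rintro _ ⟨Y, hY, rfl⟩ _ ⟨Z, hZ, rfl⟩
    exact ⟨Y * Z - Z * Y, lie Y hY Z hZ, hlie Y hY Z hZ⟩
  have hIrr' : Irr g' ⊤ := by
    intro W₁ _ hW₁
    have h1 := hirr (W₁.map W.subtype) (Submodule.map_subtype_le W W₁) (by
      rintro Y hY _ ⟨w, hw, rfl⟩
      exact ⟨res Y w, hW₁ (res Y) ⟨Y, hY, rfl⟩ w hw, hres Y hY w⟩)
    rcases h1 with h1 | h1
    · left
      rw [eq_bot_iff]
      intro w hw
      have h2 : (w : V) ∈ W₁.map W.subtype := ⟨w, hw, rfl⟩
      rw [h1] at h2
      exact (Submodule.mem_bot K).mpr (Subtype.ext ((Submodule.mem_bot K).mp h2))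
    · right
      rw [eq_top_iff]
      intro w _
      have h2 : (w : V) ∈ W₁.map W.subtype := by
        rw [h1]
        exact w.2
      obtain ⟨w', hw', h3⟩ := h2
      rwa [← Subtype.ext h3]
  have hrk : rk (res N) = 1 := by
    have h1 : rk (res N) = finrank K (W.map N) := PMB_rk hpp (hcom b N hN)
    rw [h1]
    exact hrk1
  rcases hCls K W g' hLie' hIrr' (res N) ⟨N, hN, rfl⟩
    (by rw [← hmul N hN N hN, hNN, map_zero]) hrk with h | ⟨h3, ω, -, hnd, hω⟩
  · left
    intro X hX
    obtain ⟨hX1, hX2, -⟩ := hX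
    have hpX : p b * X = X := by rw [← hX1, ← mul_assoc, ← mul_assoc, hpp]
    have hXp : X * p b = X := by rw [← hX1, mul_assoc, hpp]
    have hXc : p b * X = X * p b := by rw [hpX, hXp]
    obtain ⟨Y, hY, hYX⟩ := h (res X) (by
      have h1 : tr (res X) = tr X := slb_tr hXp
      rw [h1, hX2])
    refine ⟨Y, hY, LinearMap.ext fun v => ?_⟩
    have h1 := congrArg Subtype.val (LinearMap.congr_fun hYX ⟨p b v, ⟨v, rfl⟩⟩)
    rw [hres Y hY, PMB_com hpp hXc] at h1
    rw [hcom b Y hY]
    have h2 : X (p b v) = X v := LinearMap.congr_fun hXp v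
    rw [← h2]
    exact h1
  · right
    refine ⟨h3, ?_⟩
    let π : V →ₗ[K] W := (p b).rangeRestrict
    let c : Module.End K V := (Adj_equiv ψ hBD.nd).symm.toLinearMap ∘ₗ (ω.compl₁₂ π π)
    have hc : ∀ x y, ψ (c x) y = ω (π x) (π y) := by
      intro x y
      rw [← Adj_equiv_apply ψ hBD.nd]
      change (Adj_equiv ψ hBD.nd) ((Adj_equiv ψ hBD.nd).symm ((ω.compl₁₂ π π) x)) y = _
      rw [LinearEquiv.apply_symm_apply]
      rfl
    have hπ : ∀ x, π (p b x) = π x := by
      intro x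
      apply Subtype.ext
      exact LinearMap.congr_fun hpp x
    have hπX : ∀ X ∈ g, ∀ x, π (X x) = res X (π x) := by
      intro X hX x
      apply Subtype.ext
      rw [hres X hX]
      exact LinearMap.congr_fun (hcom b X hX) x
    have hext : ∀ A D : Module.End K V, (∀ x y, ψ (A x) y = ψ (D x) y) → A = D := by
      intro A D hAD
      refine LinearMap.ext fun x => ?_
      have h1 := hBD.nd (A x - D x) fun y => by
        rw [map_sub, LinearMap.sub_apply, hAD, sub_self]
      exact sub_eq_zero.1 h1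
    refine ⟨c, hext _ _ fun x y => ?_, ?_, fun X hX => ?_⟩
    · have h1 := hBD.adj (st b) (c (p b x)) y
      rw [hBD.inv] at h1
      change ψ (p (st b) (c (p b x))) y = _
      rw [h1, hc, hc, hπ, hπ]
    · intro h0
      apply hBD.ne b
      refine LinearMap.ext fun v => ?_
      have h1 : π v = 0 := by
        refine hnd _ fun y => ?_
        obtain ⟨y', hy'⟩ : ∃ y' : V, π y' = y := ⟨y, Subtype.ext (hfix y)⟩
        rw [← hy', ← hc, h0, LinearMap.zero_apply, map_zero, LinearMap.zero_apply]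
      exact congrArg Subtype.val h1
    · obtain ⟨s, hs⟩ := hω (res X) ⟨X, hX, rfl⟩
      refine ⟨s, hext _ _ fun x y => ?_⟩
      have h1 : ψ ((c * X - X * c) x) y = ψ (c (X x)) y - ψ (X (c x)) y := by
        rw [LinearMap.sub_apply, map_sub, LinearMap.sub_apply]
        rfl
      rw [h1, sp X hX, hc, hc, hπX X hX, hπX X hX, LinearMap.smul_apply, map_smul,
        LinearMap.smul_apply, hc, smul_eq_mul, ← hs]
      ring

end Pool.Agent.Lib.MP_640417_ag.Tg
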