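import Pool.Agent.Lib.MP_640417_ag.Tg.SpecA
import Pool.Agent.Lib.MP_640417_ag.Tor.GouB
import Pool.Agent.Lib.MP_640417_ag.Tor.Adj

/-!
# Toric places, no factors of type III: a block is spanned by elements of rank one
-/

namespace Pool.Agent.Lib.MP_640417_ag.Tg

open Module Pool.Agent.Lib.MP_640417_ag.Tor

variable {K V : Type} [Field K] [AddCommGroup V] [Module K V] {ψ : LinearMap.BilinForm K V}
  {p : Module.End K V} {t : Prop}

/-- If `t` holds, `sb ψ p t` is the symplectic block. -/
lemma Span_sb_true [CharZero K] [FiniteDimensional K V] (h : Blk ψ p t) (ht : t) :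
    sb ψ p t = spb ψ p := by
  ext X
  constructor
  · rintro ⟨h1, _, h3⟩
    exact ⟨h3 ht, h1⟩
  · rintro ⟨h1, h2⟩
    exact ⟨h2, tr_skew ψ h.nd h1, fun _ => h1⟩

/-- Operators `u ⊗ φ`. -/
lemma Span_smulRight [FiniteDimensional K V] (ht : ¬ t) {u : V} {φ : Module.Dual K V} (hu : p u = u)
    (hφ : ∀ x, φ (p x) = φ x) (h0 : φ u = 0) : φ.smulRight u ∈ sb ψ p t := by
  refine ⟨?_, ?_, fun h => absurd h ht⟩
  · ext x
    rw [Module.End.mul_apply, Module.End.mul_apply, LinearMap.smulRight_apply,
      LinearMap.smulRight_apply, map_smul, hu, hφ]
  · unfold tr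
    rw [LinearMap.trace_smulRight, h0]

lemma Span_sq {u : V} {φ : Module.Dual K V} (h0 : φ u = 0) :
    (φ.smulRight u : Module.End K V) * φ.smulRight u = 0 := by
  ext x
  rw [Module.End.mul_apply, LinearMap.smulRight_apply, LinearMap.smulRight_apply, map_smul, h0,
    smul_zero, zero_smul, LinearMap.zero_apply]

lemma Span_rk {u : V} {φ : Module.Dual K V} (hu : u ≠ 0) (hφ : φ ≠ 0) :
    rk (φ.smulRight u : Module.End K V) = 1 := by
  unfold rk
  have h1 : LinearMap.range (φ.smulRight u : Module.End K V) = Submodule.span K {u} := by
    ext y
    rw [Submodule.mem_span_singleton]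
    constructor
    · rintro ⟨x, rfl⟩
      exact ⟨φ x, rfl⟩
    · rintro ⟨a, rfl⟩
      obtain ⟨x, hx⟩ : ∃ x, φ x ≠ 0 := by
        by_contra h
        push Not at h
        exact hφ (LinearMap.ext h)
      refine ⟨(a * (φ x)⁻¹) • x, ?_⟩
      rw [LinearMap.smulRight_apply, map_smul, smul_eq_mul, mul_assoc, inv_mul_cancel₀ hx, mul_one]
  rw [h1, finrank_span_singleton hu]

/-- Rank one elements span. -/
theorem pSpan : SSpan := by
  intro K V _ _ _ _ _ _ ψ p t hB
  set a : Submodule K (Module.End K V) :=
    Submodule.span K {e | e ∈ sb ψ p t ∧ e * e = 0 ∧ rk e = 1} with ha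
  by_cases ht : t
  · rw [Span_sb_true hB ht]
    have hadj := hB.adj ht
    have hTv : ∀ v, p v = v → RankOne_T ψ v v ∈ a := by
      intro v hv
      by_cases hv0 : v = 0
      · have h1 := RankOne_T_smul ψ (0 : K) v v
        rw [zero_smul, zero_smul] at h1
        rw [hv0] at h1 ⊢
        rw [h1]
        exact zero_mem _
      · refine Submodule.subset_span ⟨?_, GouB_TT hB.alt v, ?_⟩
        · rw [Span_sb_true hB ht]
          exact GouA_T hB.anti hadj hv hv
        · have h1 : RankOne_T ψ v v = (((2 : K) • ψ v : Module.Dual K V).smulRight v :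
              Module.End K V) := by
            ext x
            rw [RankOne_T_apply, LinearMap.smulRight_apply, LinearMap.smul_apply, smul_eq_mul,
              ← add_smul, two_mul]
          rw [h1]
          refine Span_rk hv0 ?_
          intro h2
          apply hv0
          apply hB.nd
          intro y
          have h3 := LinearMap.congr_fun h2 y
          rw [LinearMap.smul_apply, LinearMap.zero_apply, smul_eq_mul] at h3
          exact (mul_eq_zero.1 h3).resolve_left two_ne_zero
    have hTab : ∀ c b, p c = c → p b = b → RankOne_T ψ c b ∈ a := by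
      intro c b hc hb
      have h1 := hTv (c + b) (by rw [map_add, hc, hb])
      have h2 := sub_mem (sub_mem h1 (hTv c hc)) (hTv b hb)
      have h3 : RankOne_T ψ (c + b) (c + b) - RankOne_T ψ c c - RankOne_T ψ b b =
          (2 : K) • RankOne_T ψ c b := by
        rw [RankOne_T_add, RankOne_T_add', RankOne_T_add', RankOne_T_comm ψ b c, two_smul]
        abel
      rw [h3] at h2
      have h4 := a.smul_mem (2 : K)⁻¹ h2
      rwa [smul_smul, inv_mul_cancel₀ two_ne_zero, one_smul] at h4
    let g : Submodule K (Module.End K V) :=
      { carrier := {Z | p * Z * p ∈ a}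
        add_mem' := by
          intro X Y hX hY
          change p * (X + Y) * p ∈ a
          rw [mul_add, add_mul]
          exact a.add_mem hX hY
        zero_mem' := by
          change p * 0 * p ∈ a
          rw [mul_zero, zero_mul]
          exact a.zero_mem
        smul_mem' := by
          intro c X hX
          change p * (c • X) * p ∈ a
          rw [mul_smul_comm, smul_mul_assoc]
          exact a.smul_mem c hX }
    intro X hX
    have h1 : X ∈ g := RankOne_all hB.alt hB.nd hB.anti g (fun c b => by
      change p * RankOne_T ψ c b * p ∈ a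
      rw [GouA_compress hadj]
      exact hTab _ _ (by rw [← Module.End.mul_apply, hB.pp])
        (by rw [← Module.End.mul_apply, hB.pp])) hX.1
    have h2 : p * X * p ∈ a := h1
    rwa [hX.2] at h2
  · -- all operators of trace zero
    have hmem : ∀ (u : V) (φ : Module.Dual K V), p u = u → (∀ x, φ (p x) = φ x) → φ u = 0 →
        φ.smulRight u ∈ a := by
      intro u φ hu hφ h0
      by_cases hu0 : u = 0
      · have h1 : (φ.smulRight u : Module.End K V) = 0 := by
          ext x
          rw [hu0, LinearMap.smulRight_apply, smul_zero, LinearMap.zero_apply]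
        rw [h1]
        exact zero_mem _
      by_cases hφ0 : φ = 0
      · have h1 : (φ.smulRight u : Module.End K V) = 0 := by
          ext x
          rw [hφ0, LinearMap.smulRight_apply, LinearMap.zero_apply, zero_smul,
            LinearMap.zero_apply]
        rw [h1]
        exact zero_mem _
      · exact Submodule.subset_span ⟨Span_smulRight ht hu hφ h0, Span_sq h0, Span_rk hu0 hφ0⟩
    have hpp' : ∀ x, p (p x) = p x := fun x => by rw [← Module.End.mul_apply, hB.pp]
    -- a basis of the range
    let b := Module.finBasis K (LinearMap.range p)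
    let π : V →ₗ[K] LinearMap.range p := p.rangeRestrict
    let ε : Fin (finrank K (LinearMap.range p)) → Module.Dual K V := fun i => (b.coord i).comp π
    let e : Fin (finrank K (LinearMap.range p)) → V := fun i => (b i : V)
    have he : ∀ i, p (e i) = e i := by
      intro i
      obtain ⟨x, hx⟩ := (b i).2
      change p (b i : V) = (b i : V)
      rw [← hx, hpp']
    have hπe : ∀ i, π (e i) = b i := fun i => Subtype.ext (he i)
    have hεp : ∀ i x, ε i (p x) = ε i x := by
      intro i x
      have h1 : π (p x) = π x := Subtype.ext (hpp' x)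
      change b.coord i (π (p x)) = b.coord i (π x)
      rw [h1]
    have hεe : ∀ i j, ε i (e j) = if i = j then 1 else 0 := by
      intro i j
      change b.coord i (π (e j)) = _
      rw [hπe, Basis.coord_apply, Basis.repr_self, Finsupp.single_apply]
      simp only [eq_comm]
    have hsum : ∀ x, ∑ i, ε i x • e i = p x := by
      intro x
      have h1 := b.sum_repr (π x)
      have h2 := congrArg Subtype.val h1
      rw [Submodule.coe_sum] at h2
      exact h2
    rintro X ⟨hX1, hX2, -⟩
    have hpX : p * X = X := by rw [← hX1, ← mul_assoc, ← mul_assoc, hB.pp]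
    have hXp : X * p = X := by rw [← hX1, mul_assoc, hB.pp]
    have hXsum : X = ∑ i, ∑ j, ε i (X (e j)) • ((ε j).smulRight (e i) : Module.End K V) := by
      ext x
      rw [LinearMap.sum_apply]
      simp only [LinearMap.sum_apply, LinearMap.smul_apply, LinearMap.smulRight_apply]
      rw [Finset.sum_comm]
      have h1 : X x = ∑ j, ε j x • X (e j) := by
        conv_lhs => rw [← hXp, Module.End.mul_apply, ← hsum x]
        rw [map_sum]
        simp only [map_smul]
      rw [h1]
      refine Finset.sum_congr rfl fun j _ => ?_
      have h2 : X (e j) = ∑ i, ε i (X (e j)) • e i := by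
        rw [hsum, ← Module.End.mul_apply, hpX]
      conv_lhs => rw [h2]
      rw [Finset.smul_sum]
      refine Finset.sum_congr rfl fun i _ => ?_
      rw [smul_comm]
    have htr : ∑ i, ε i (X (e i)) = 0 := by
      have h1 : tr X = ∑ i, ∑ j, ε i (X (e j)) * ε j (e i) := by
        conv_lhs => rw [hXsum]
        unfold tr
        rw [map_sum]
        refine Finset.sum_congr rfl fun i _ => ?_
        rw [map_sum]
        refine Finset.sum_congr rfl fun j _ => ?_
        rw [map_smul, LinearMap.trace_smulRight, smul_eq_mul]
      rw [hX2] at h1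
      rw [h1]
      refine Finset.sum_congr rfl fun i _ => ?_
      rw [Finset.sum_eq_single i]
      · rw [hεe, if_pos rfl, mul_one]
      · intro j _ hj
        rw [hεe, if_neg hj, mul_zero]
      · intro h
        exact absurd (Finset.mem_univ i) h
    have hpos : 0 < finrank K (LinearMap.range p) := by
      have := hB.two
      unfold rk at this
      omega
    let o : Fin (finrank K (LinearMap.range p)) := ⟨0, hpos⟩
    have hE : ∀ i j, ((ε j).smulRight (e i) : Module.End K V) -
        (if i = j then (1 : K) else 0) • ((ε o).smulRight (e o) : Module.End K V) ∈ a := by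
      intro i j
      by_cases hij : i = j
      · subst hij
        rw [if_pos rfl, one_smul]
        have h1 : ((ε i).smulRight (e i) : Module.End K V) - (ε o).smulRight (e o) =
            (ε i - ε o).smulRight (e i + e o) + ((ε o).smulRight (e i) - (ε i).smulRight (e o)) := by
          ext x
          simp only [LinearMap.sub_apply, LinearMap.add_apply, LinearMap.smulRight_apply]
          module
        rw [h1]
        refine add_mem (hmem _ _ ?_ ?_ ?_) ?_
        · rw [map_add, he, he]
        · intro x
          rw [LinearMap.sub_apply, LinearMap.sub_apply, hεp, hεp]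
        · rw [LinearMap.sub_apply, map_add, map_add, hεe, hεe, hεe, hεe, if_pos rfl, if_pos rfl]
          by_cases hio : i = o
          · simp [hio]
          · rw [if_neg hio, if_neg (Ne.symm hio)]
            ring
        · by_cases hio : i = o
          · rw [hio, sub_self]
            exact zero_mem _
          · refine sub_mem (hmem _ _ (he i) (hεp o) ?_) (hmem _ _ (he o) (hεp i) ?_)
            · rw [hεe, if_neg (Ne.symm hio)]
            · rw [hεe, if_neg hio]
      · rw [if_neg hij, zero_smul, sub_zero]
        refine hmem _ _ (he i) (hεp j) ?_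
        rw [hεe, if_neg (Ne.symm hij)]
    have hfin : X = ∑ i, ∑ j, ε i (X (e j)) • (((ε j).smulRight (e i) : Module.End K V) -
        (if i = j then (1 : K) else 0) • ((ε o).smulRight (e o) : Module.End K V)) := by
      have h1 : ∑ i, ∑ j, ε i (X (e j)) • (((ε j).smulRight (e i) : Module.End K V) -
          (if i = j then (1 : K) else 0) • ((ε o).smulRight (e o) : Module.End K V)) =
          (∑ i, ∑ j, ε i (X (e j)) • ((ε j).smulRight (e i) : Module.End K V)) -
          (∑ i, ε i (X (e i))) • ((ε o).smulRight (e o) : Module.End K V) := by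
        rw [Finset.sum_smul, ← Finset.sum_sub_distrib]
        refine Finset.sum_congr rfl fun i _ => ?_
        have h2 : ∑ j, ε i (X (e j)) • (if i = j then (1 : K) else 0) •
            ((ε o).smulRight (e o) : Module.End K V) =
            ε i (X (e i)) • ((ε o).smulRight (e o) : Module.End K V) := by
          rw [Finset.sum_eq_single i]
          · rw [if_pos rfl, one_smul]
          · intro j _ hj
            rw [if_neg (Ne.symm hj), zero_smul, smul_zero]
          · intro h
            exact absurd (Finset.mem_univ i) h
        rw [← h2, ← Finset.sum_sub_distrib]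
        refine Finset.sum_congr rfl fun j _ => ?_
        rw [smul_sub]
      rw [h1, htr, zero_smul, sub_zero]
      exact hXsum
    rw [hfin]
    exact Submodule.sum_mem _ fun i _ => Submodule.sum_mem _ fun j _ =>
      Submodule.smul_mem _ _ (hE i j)

end Pool.Agent.Lib.MP_640417_ag.Tg
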