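import Pool.Agent.Lib.MP_640417_ag.Tg.SpecR
import Pool.Agent.Lib.MP_640417_ag.Tor.Adj
import Pool.Agent.Lib.MP_640417_ag.Tor.PrimTr

/-!
# Toric places: the central part
-/

set_option autoImplicit false

namespace Pool.Agent.Lib.MP_640417_ag.Tg

open Module TensorProduct Pool.Agent.Lib.MP_640417_ag Pool.Agent.Lib.MP_640417_ag.Tor
  Pool.Agent.Lib.MP_640417_ag.Lef Pool.Agent.Lib.MP_640417_ag.Frob
  Pool.Agent.Lib.MP_640417_ag.Glob Pool.Agent.Lib.MP_640417_ag.Ty
  Pool.Agent.Lib.MP_640417_ag.Ctl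

theorem pSplit : SSplit := by
  intro K V _ _ _ _ _ ψ hanti nd C N st ε hs r u v huv X hX hXC
  have hn : ∀ j, tr (ε j) ≠ 0 := by
    intro j
    rw [tr_idem (hs.idem j)]
    have h1 : rk (ε j) ≠ 0 := by
      intro h
      apply hs.ne j
      unfold rk at h
      exact LinearMap.range_eq_bot.mp (Submodule.finrank_eq_zero.mp h)
    exact_mod_cast h1
  let a : Fin N → K := fun j => tr (ε j * X) / tr (ε j)
  have ha : ∀ j, a j * tr (ε j) = tr (ε j * X) := fun j => div_mul_cancel₀ _ (hn j)
  let z : Module.End K V := ∑ j, a j • ε j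
  have hεz : ∀ j, ε j * z = a j • ε j := by
    intro j
    show ε j * ∑ i, a i • ε i = _
    rw [Finset.mul_sum, Finset.sum_eq_single j]
    · rw [mul_smul_comm, hs.idem]
    · intro i _ hi
      rw [mul_smul_comm, hs.orth j i (Ne.symm hi), smul_zero]
    · intro h
      exact absurd (Finset.mem_univ _) h
  have hzε : ∀ j, z * ε j = a j • ε j := by
    intro j
    show (∑ i, a i • ε i) * ε j = _
    rw [Finset.sum_mul, Finset.sum_eq_single j]
    · rw [smul_mul_assoc, hs.idem]
    · intro i _ hi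
      rw [smul_mul_assoc, hs.orth i j hi, smul_zero]
    · intro h
      exact absurd (Finset.mem_univ _) h
  have har : ∀ j, a j = a (r j) := by
    intro j
    have h1 : tr (ε j) = tr (ε (r j)) := by
      rw [← huv.uv j, tr_comm, huv.vu]
    have h2 : tr (ε j * X) = tr (ε (r j) * X) := by
      rw [← huv.uv j, mul_assoc, tr_comm, mul_assoc, hXC _ (huv.uC j), ← mul_assoc, huv.vu]
    show tr (ε j * X) / tr (ε j) = tr (ε (r j) * X) / tr (ε (r j))
    rw [h1, h2]
  have hast : ∀ j, a (st j) = - a j := by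
    intro j
    have h1 : tr (ε j) = tr (ε (st j)) := tr_adj ψ nd (hs.adj j)
    have h2 : tr (ε j * X) = tr (-(X * ε (st j))) := by
      refine tr_adj ψ nd fun x y => ?_
      show ψ (ε j (X x)) y = ψ x (-(X (ε (st j) y)))
      rw [hs.adj, hX, map_neg]
    have h3 : tr (-(X * ε (st j))) = - tr (ε (st j) * X) := by
      rw [tr_comm]
      unfold tr
      rw [map_neg]
    show tr (ε (st j) * X) / tr (ε (st j)) = -(tr (ε j * X) / tr (ε j))
    rw [h2, h3, ← h1, neg_div, neg_neg]
  refine ⟨z, ?_, ?_, ?_, ?_⟩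
  · exact Subalgebra.sum_mem _ fun j _ => Subalgebra.smul_mem _ (hs.mem j) _
  · intro c hc
    have key : ∀ j k, ε j * (z * c) * ε k = ε j * (c * z) * ε k := by
      intro j k
      have h1 : ε j * (z * c) * ε k = a j • (ε j * c * ε k) := by
        rw [← mul_assoc (ε j), hεz, smul_mul_assoc, smul_mul_assoc]
      have h2 : ε j * (c * z) * ε k = a k • (ε j * c * ε k) := by
        rw [mul_assoc (ε j), mul_assoc c, hzε, mul_smul_comm, mul_smul_comm, ← mul_assoc]
      rw [h1, h2]
      obtain ⟨t, ht⟩ := huv.one j k c hc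
      by_cases hjk : r j = r k
      · rw [har j, har k, hjk]
      · have h3 : u j * v k = 0 := by
          rw [← huv.ue j, ← huv.ev k, mul_assoc, ← mul_assoc (ε (r j)),
            hs.orth _ _ hjk, zero_mul, mul_zero]
        rw [ht, h3, smul_zero, smul_zero, smul_zero]
    have hexp : ∀ Y : Module.End K V, Y = ∑ j, ∑ k, ε j * Y * ε k := by
      intro Y
      have h1 : ∀ j, ∑ k, ε j * Y * ε k = ε j * Y := by
        intro j
        rw [← Finset.mul_sum, hs.sum, mul_one]
      rw [Finset.sum_congr rfl fun j _ => h1 j, ← Finset.sum_mul, hs.sum, one_mul]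
    rw [hexp (z * c), hexp (c * z)]
    exact Finset.sum_congr rfl fun j _ => Finset.sum_congr rfl fun k _ => key j k
  · intro x y
    have h1 : ∀ w : V, z w = ∑ j, a j • ε j w := by
      intro w
      show (∑ j, a j • ε j) w = _
      rw [LinearMap.sum_apply]
      rfl
    let e : Equiv.Perm (Fin N) := ⟨st, st, hs.inv, hs.inv⟩
    rw [h1, h1, map_sum, map_sum, LinearMap.sum_apply, ← Finset.sum_neg_distrib]
    rw [← Equiv.sum_comp e (fun j => ψ (a j • ε j x) y)]
    refine Finset.sum_congr rfl fun j _ => ?_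
    show ψ (a (st j) • ε (st j) x) y = - ψ x (a j • ε j y)
    rw [map_smul, map_smul, LinearMap.smul_apply, hs.adj, hs.inv, hast, smul_eq_mul, smul_eq_mul,
      neg_mul]
  · intro j
    rw [mul_sub, hεz]
    unfold tr
    rw [map_sub, map_smul, smul_eq_mul]
    have h1 := ha j
    unfold tr at h1
    rw [h1, sub_self]

end Pool.Agent.Lib.MP_640417_ag.Tg
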