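import Pool.Agent.Lib.MP_640417_ag.Tg.SpecR

/-!
# Toric places, no factors of type III: twists between blocks
-/

set_option autoImplicit false

namespace Pool.Agent.Lib.MP_640417_ag.Tg

open Module Pool.Agent.Lib.MP_640417_ag.Tor Pool.Agent.Lib.MP_640417_ag.Lef

/-- **Twists between blocks.** -/
theorem pTwistE (hI : SIrrE) (hD : SDualE) : STwistE := by
  intro K V _ _ _ _ ψ L C hC N st ε hS r u v hUV hNT j k hj hk hjk hst h2 hn c hc hX
  by_contra hc0
  have hcj : c * ε j = c := by
    rw [← hc, mul_assoc, hS.idem]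
  have hmem : ∀ x, c x ∈ LinearMap.range (ε k) := by
    intro x
    have h1 := congrArg (fun Y : Module.End K V => Y x) hc
    simp only [Module.End.mul_apply] at h1
    exact ⟨_, h1⟩
  have hne : ∃ x ∈ LinearMap.range (ε j), c x ≠ 0 := by
    obtain ⟨x, hx⟩ : ∃ x, c x ≠ 0 := by
      by_contra hcon
      push Not at hcon
      exact hc0 (LinearMap.ext hcon)
    refine ⟨ε j x, ⟨x, rfl⟩, ?_⟩
    rwa [← Module.End.mul_apply, hcj]
  have htw : Twist L (LinearMap.range (ε j)) (LinearMap.range (ε k)) c := by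
    refine ⟨fun x _ => hmem x, hne, fun X hXL => ?_⟩
    obtain ⟨s, hs⟩ := hX X hXL
    refine ⟨s, fun x _ => ?_⟩
    have h1 := congrArg (fun Y : Module.End K V => Y x) hs
    exact h1
  have hnd : ¬ DualMod ψ L (LinearMap.range (ε j)) (LinearMap.range (ε j)) := fun hd =>
    hst ((hD K V ψ L C hC N st ε hS r u v hUV j j hd).2 rfl)
  rcases hNT _ _ (hI K V ψ L C hC N st ε hS j) (hI K V ψ L C hC N st ε hS k) hnd h2 c htw with
    h | ⟨h, hd⟩
  · have hcC : c ∈ C := by
      refine hC.bic c fun X hXL => LinearMap.ext fun x => ?_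
      have h1 : ε j * X = X * ε j := hC.com X hXL (ε j) (hS.mem j)
      have h3 : c * X = c * (X * ε j) := by
        rw [← h1, ← mul_assoc, hcj]
      rw [h3, Module.End.mul_apply, Module.End.mul_apply, h X hXL _ ⟨x, rfl⟩,
        ← Module.End.mul_apply c, hcj, Module.End.mul_apply]
    obtain ⟨t, ht⟩ := hUV.one k j c hcC
    have h0 : u k * v j = 0 := by
      rw [← hUV.ue k, ← hUV.ev j, hk, hj, mul_assoc, ← mul_assoc (ε k), hS.orth k j (Ne.symm hjk),
        zero_mul, mul_zero]
    rw [hc, h0, smul_zero] at ht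
    exact hc0 ht
  · have h1 := (hD K V ψ L C hC N st ε hS r u v hUV j k hd).1
    rw [hj, hk] at h1
    exact hn ⟨by rw [h1, hS.inv], h⟩

end Pool.Agent.Lib.MP_640417_ag.Tg
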