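import Pool.Agent.Lib.MP_640417_ag.Tg.MainA
import Pool.Agent.Lib.MP_640417_ag.Tg.Rad
import Pool.Agent.Lib.MP_640417_ag.Tg.Jm
import Pool.Agent.Lib.MP_640417_ag.Tg.Frame
import Pool.Agent.Lib.MP_640417_ag.Tg.ClsA
import Pool.Agent.Lib.MP_640417_ag.Tg.ClsB
import Pool.Agent.Lib.MP_640417_ag.Tg.Cls
import Pool.Agent.Lib.MP_640417_ag.Tg.SlB
import Pool.Agent.Lib.MP_640417_ag.Tg.Span
import Pool.Agent.Lib.MP_640417_ag.Tg.Partner
import Pool.Agent.Lib.MP_640417_ag.Tg.Perf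
import Pool.Agent.Lib.MP_640417_ag.Tg.Simp
import Pool.Agent.Lib.MP_640417_ag.Tg.Ext
import Pool.Agent.Lib.MP_640417_ag.Tg.IrrB
import Pool.Agent.Lib.MP_640417_ag.Tg.Quad
import Pool.Agent.Lib.MP_640417_ag.Tg.SchurT
import Pool.Agent.Lib.MP_640417_ag.Tg.LinkA
import Pool.Agent.Lib.MP_640417_ag.Tg.GourG
import Pool.Agent.Lib.MP_640417_ag.Tg.PairK
import Pool.Agent.Lib.MP_640417_ag.Tg.AllG
import Pool.Agent.Lib.MP_640417_ag.Tg.IrrE
import Pool.Agent.Lib.MP_640417_ag.Tg.DualE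
import Pool.Agent.Lib.MP_640417_ag.Tg.TwistE
import Pool.Agent.Lib.MP_640417_ag.Tg.FullG
import Pool.Agent.Lib.MP_640417_ag.Tg.Split
import Pool.Agent.Lib.MP_640417_ag.Tg.CcL
import Pool.Agent.Lib.MP_640417_ag.Tg.NilT
import Pool.Agent.Lib.MP_640417_ag.Tg.DescT
import Pool.Agent.Lib.MP_640417_ag.Tg.LefT
import Pool.Agent.Lib.MP_640417_ag.Tor.IdemL
import Pool.Agent.Lib.MP_640417_ag.Tor.Block
import Pool.Agent.Lib.MP_640417_ag.Tor.PMB

/-!
# Toric places, no factors of type III: the Lie algebra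
-/

set_option autoImplicit false

namespace Pool.Agent.Lib.MP_640417_ag.Tg

open Pool.Agent.Lib.MP_640417_ag.Tor

theorem perf : SPerf := pPerf pSpan pPartner
theorem simp' : SSimp := pSimp pSpan

theorem pairG : SPairG :=
  pPairG pExt pPartner perf simp' pIrrB pQuad pSchurT pLinkA

theorem allG : SAllG :=
  pAllG (pBlock pPMB pIdem) (pSlB (pCls pRad pJm pFrame pClsA pClsB)) pairG
    (pGourG perf simp' pIrrB)

theorem lefT : SLefT :=
  pLefT (pFullG pIrrE pDualE (pTwistE pIrrE pDualE) allG) Tg.pSplit pCcL pNilT pDescT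

end Pool.Agent.Lib.MP_640417_ag.Tg
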