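import Pool.Agent.Lib.MP_640417_ag.Tg.SpecC

/-!
# Toric places, the converse, abstract
-/

set_option autoImplicit false

namespace Pool.Agent.Lib.MP_640417_ag.Tg

open Module Pool.Agent.Lib.MP_640417_ag.Tor Pool.Agent.Lib.MP_640417_ag.Lef

section

variable {K V : Type} [Field K] [AddCommGroup V] [Module K V] {ψ : LinearMap.BilinForm K V}
  {L : Submodule K (Module.End K V)} {C : Subalgebra K (Module.End K V)}

/-- Duality of submodules which are isomorphic to dual blocks. -/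
lemma NtA_dual (hC : Cc ψ L C) {W W' : Submodule K V} {p w d w' d' p' : Module.End K V}
    (hp : p * p = p) (hp0 : p ≠ 0) (hadj : ∀ x y, ψ (p x) y = ψ x (p' y)) (hw : w ∈ C) (hw' : w' ∈ C)
    (hwd : w * d = p) (hwd' : w' * d' = p') (hdW : ∀ y, d y ∈ W) (hdW' : ∀ y, d' y ∈ W') :
    DualMod ψ L W W' := by
  refine ⟨ψ.compl₁₂ w w', ?_, ?_⟩
  · obtain ⟨x, y, hxy⟩ : ∃ x y, ψ (p x) y ≠ 0 := by
      by_contra hcon
      push Not at hcon
      exact hp0 (LinearMap.ext fun x => hC.nd _ (hcon x))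
    refine ⟨d x, hdW x, d' y, hdW' y, ?_⟩
    rw [LinearMap.compl₁₂_apply, ← Module.End.mul_apply w, hwd, ← Module.End.mul_apply w', hwd',
      ← hadj, ← Module.End.mul_apply p, hp]
    exact hxy
  · intro X hX m hm x _ y _
    rw [LinearMap.compl₁₂_apply, LinearMap.compl₁₂_apply, LinearMap.compl₁₂_apply]
    have h1 : w (X x) = X (w x) := LinearMap.congr_fun (hC.com X hX w hw) x
    have h2 : w' (X y) = X (w' y) := LinearMap.congr_fun (hC.com X hX w' hw') y
    rw [h1, h2, hm]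

/-- The dimension of a submodule which is isomorphic to a block. -/
lemma NtA_rank {W : Submodule K V} {p w d : Module.End K V} (hp : p * p = p) (hwd : w * d = p)
    (hpw : p * w = w) (hdW : ∀ y, d y ∈ W) (hdw : ∀ x ∈ W, d (w x) = x) :
    finrank K W = rk p := by
  have hU : ∀ y ∈ LinearMap.range p, p y = y := by
    rintro _ ⟨y, rfl⟩
    exact LinearMap.congr_fun hp y
  refine LinearEquiv.finrank_eq (LinearEquiv.ofLinearMap
    ((w ∘ₗ W.subtype).codRestrict (LinearMap.range p) fun x =>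
      ⟨w x, LinearMap.congr_fun hpw x⟩)
    ((d ∘ₗ (LinearMap.range p).subtype).codRestrict W fun y => hdW y) ?_ ?_)
  · refine LinearMap.ext fun y => Subtype.ext ?_
    change w (d y) = y
    rw [← Module.End.mul_apply, hwd, hU y y.2]
  · refine LinearMap.ext fun x => Subtype.ext ?_
    exact hdw x x.2

end

/-- **The converse, abstract.** -/
theorem pNtA (_hI : SIrrE) (hR : SRedW) (hT : STwS) (hD : STwD) (hN : STwN) : SNtA := by
  intro K V _ _ _ _ _ ψ L C hC hLef N st ε hS r u v hUV W W' hW hW' hnd h2 c hcT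
  obtain ⟨hcW, ⟨x₀, hx₀, hcx₀⟩, hcX⟩ := hcT
  obtain ⟨a, hra, w, hwC, d, hdC, hwd, haw, hda, hdW, hdw⟩ := hR K V ψ L C hC N st ε hS r u v hUV
    W hW
  obtain ⟨b, hrb, w', hwC', d', hdC', hwd', hbw, hdb, hdW', hdw'⟩ :=
    hR K V ψ L C hC N st ε hS r u v hUV W' hW'
  have hcom : ∀ z ∈ C, ∀ X ∈ L, ∀ y, z (X y) = X (z y) := fun z hz X hX y =>
    LinearMap.congr_fun (hC.com X hX z hz) y
  have hrk : finrank K W = rk (ε a) := NtA_rank (hS.idem a) hwd haw hdW hdw
  set c₁ : Module.End K V := w' * c * d with hc₁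
  have hc₁a : ∀ y, c₁ y = w' (c (d y)) := fun y => rfl
  have hc₁w : ∀ x ∈ W, c₁ (w x) = w' (c x) := by
    intro x hx
    rw [hc₁a, hdw x hx]
  have hc₁ε : ε b * c₁ * ε a = c₁ := by
    calc ε b * c₁ * ε a = (ε b * w') * c * (d * ε a) := by
          rw [hc₁]
          noncomm_ring
      _ = c₁ := by rw [hbw, hda]
  have hc₁0 : c₁ ≠ 0 := by
    intro h0
    apply hcx₀
    have h1 := hc₁w x₀ hx₀
    rw [h0, LinearMap.zero_apply] at h1
    rw [← hdw' _ (hcW x₀ hx₀), ← h1, map_zero]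
  have hc₁X : ∀ X ∈ L, ∃ s : K, c₁ * X - X * c₁ = s • c₁ := by
    intro X hX
    obtain ⟨s, hs⟩ := hcX X hX
    refine ⟨s, LinearMap.ext fun y => ?_⟩
    rw [LinearMap.sub_apply, Module.End.mul_apply c₁ X, Module.End.mul_apply X c₁,
      LinearMap.smul_apply, hc₁a, hc₁a, hcom d hdC X hX, ← hcom w' hwC' X hX, ← map_sub, hs _ (hdW y), map_smul]
  have hsta : st a ≠ a := by
    intro h
    exact hnd (NtA_dual hC (hS.idem a) (hS.ne a) (fun x y => by rw [hS.adj, h]) hwC hwC hwd hwd hdW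
      hdW)
  by_cases hba : b = a
  · left
    subst hba
    have h3 := hT K V ψ L C hC N st ε hS b c₁ hc₁ε hc₁0 hc₁X
    intro X hX x hx
    have h4 : w' (c (X x)) = w' (X (c x)) := by
      rw [← hc₁w _ (hW.2.1 X hX x hx), hcom w hwC X hX, ← Module.End.mul_apply c₁ X, h3 X hX,
        Module.End.mul_apply X c₁, hc₁w x hx, hcom w' hwC' X hX]
    have h5 := congrArg d' h4
    rwa [hdw' _ (hcW _ (hW.2.1 X hX x hx)), hdw' _ (hW'.2.1 X hX _ (hcW x hx))] at h5
  · by_cases hbs : b = st a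
    · by_cases h3 : rk (ε a) = 2
      · right
        refine ⟨by rw [hrk, h3], ?_⟩
        subst hbs
        exact NtA_dual hC (hS.idem a) (hS.ne a) (hS.adj a) hwC hwC' hwd hwd' hdW hdW'
      · exfalso
        subst hbs
        exact hc₁0 (hD K V ψ L C hC hLef N st ε hS r u v hUV a c₁ hra hsta (by omega) hc₁ε hc₁X)
    · exfalso
      exact hc₁0 (hN K V ψ L C hC hLef N st ε hS r u v hUV a b c₁ hra hrb hba hbs hsta (by omega)
        hc₁ε hc₁X)

end Pool.Agent.Lib.MP_640417_ag.Tg
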