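import Pool.Agent.Lib.MP_640417_ag.Tg.SpecC
import Pool.Agent.Lib.MP_640417_ag.Tg.CcL
import Pool.Agent.Lib.MP_640417_ag.Tg.NilT
import Pool.Agent.Lib.MP_640417_ag.Lef.SkewL

/-!
# Toric places, the converse: base change of the Lefschetz Lie algebra
-/

set_option autoImplicit false

namespace Pool.Agent.Lib.MP_640417_ag.Tg

open Module TensorProduct Pool.Agent.Lib.MP_640417_ag Pool.Agent.Lib.MP_640417_ag.Tor
  Pool.Agent.Lib.MP_640417_ag.Lef Pool.Agent.Lib.MP_640417_ag.Frob
  Pool.Agent.Lib.MP_640417_ag.Glob Pool.Agent.Lib.MP_640417_ag.Ty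
  Pool.Agent.Lib.MP_640417_ag.Ctl

open Pool.Agent.Lib.MP_640417_ag.Four (cp sum_cp cp_mul_baseChange cp_baseChange_mul form_cp)

section

variable {l : ℕ} [Fact l.Prime] {Γ : Type} [Group Γ] [TopologicalSpace Γ] {V : Type}
  [AddCommGroup V] [Module ℚ_[l] V] (ρ : H1Rep Γ ℚ_[l] V)
  {K : Type} [Field K] [Algebra ℚ_[l] K]

theorem NtK_bc_mul (a b : Module.End ℚ_[l] V) :
    (a * b).baseChange K = a.baseChange K * b.baseChange K := LinearMap.baseChange_comp b a

theorem NtK_bc_one :
    (1 : Module.End ℚ_[l] V).baseChange K = (1 : Module.End K (K ⊗[ℚ_[l]] V)) := by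
  apply LinearMap.ext
  intro v
  change (LinearMap.id : V →ₗ[ℚ_[l]] V).baseChange K v = v
  rw [LinearMap.baseChange_id]
  rfl

/-- elements of the commutant give elements of `cenK` -/
theorem NtK_mem (U : OpenSubgroup Γ)
    (hU : ∀ γ, γ ∈ U ↔ ∀ c, CommF ρ c → c * ρ.T γ = ρ.T γ * c) {c : Module.End ℚ_[l] V}
    (hc : CommF ρ c) : c.baseChange K ∈ cenK K (res ρ U).T := by
  rw [cenK, Subalgebra.mem_centralizer_iff]
  rintro _ ⟨γ, rfl⟩
  change (ρ.T γ.1).baseChange K * c.baseChange K = c.baseChange K * (ρ.T γ.1).baseChange K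
  rw [← NtK_bc_mul, ← NtK_bc_mul, (hU γ.1).1 γ.2 c hc]

/-- base change of the span of the tangent vectors -/
theorem NtK_lie {A : Module.End ℚ_[l] V} (hA : A ∈ Submodule.span ℚ_[l] (Tangent l ρ)) :
    A.baseChange K ∈ LieK l ρ K := by
  induction hA using Submodule.span_induction with
  | zero =>
    rw [LinearMap.baseChange_zero]
    exact zero_mem _
  | add x y _ _ hx hy =>
    rw [LinearMap.baseChange_add]
    exact add_mem hx hy
  | smul a x _ hx =>
    have h1 : (a • x).baseChange K = (algebraMap ℚ_[l] K a) • x.baseChange K := by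
      rw [LinearMap.baseChange_smul, algebraMap_smul]
    rw [h1]
    exact Submodule.smul_mem _ _ hx
  | mem x hx => exact Submodule.subset_span ⟨x, hx, rfl⟩

end

/-- **Base change of the Lefschetz Lie algebra.** -/
theorem pNtK : SNtK := by
  intro l _ Γ _ _ _ _ V _ _ _ ρ U hU K _ _ I _ _ e R h1 h3 H X hX hXc
  classical
  have hanti : ∀ u v, ρ.form u v = - ρ.form v u := Four.anti ρ.form_alt
  have hanti' : ∀ u v, ρ.form.baseChange K u v = - ρ.form.baseChange K v u :=
    Four.anti (alt_baseChange K ρ.form ρ.form_alt)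
  -- the coordinates
  have hLef : ∀ ℓ : K →ₗ[ℚ_[l]] ℚ_[l], Lefschetz ρ (cp ℓ X) := by
    intro ℓ
    refine ⟨fun c hc => ?_, fun x y => ?_⟩
    · rw [← cp_mul_baseChange, ← cp_baseChange_mul, hXc _ (NtK_mem ρ U hU hc)]
    · rw [hanti x, form_cp, form_cp, ← map_neg, ← hanti', ← map_add, hX, neg_add_cancel,
        map_zero]
  have hdec : ∀ ℓ : K →ₗ[ℚ_[l]] ℚ_[l], ∃ z : Module.End ℚ_[l] V, CentralSkew ρ z ∧
      (cp ℓ X - z).baseChange K ∈ skp (ρ.form.baseChange K) (LieK l ρ K) := by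
    intro ℓ
    obtain ⟨A, hA, Z, hZ, hAZ⟩ := Submodule.mem_sup.mp (H _ (hLef ℓ))
    obtain ⟨z, rfl⟩ := (LinearMap.toMatrix e e).surjective Z
    have hz : CentralSkew ρ z := (coord_zm ρ e R h1 h3 z).mp hZ
    refine ⟨z, hz, NilT_base ρ.form _ ?_, ?_⟩
    · intro x y
      have e1 := (hLef ℓ).2 x y
      have e2 := hz.2.2 x y
      rw [LinearMap.sub_apply, LinearMap.sub_apply, map_sub, map_sub, LinearMap.sub_apply]
      linear_combination e1 - e2
    · obtain ⟨-, s, hs⟩ := hA
      have h4 : LinearMap.toMatrix e e (cp ℓ X - z + s • (1 : Module.End ℚ_[l] V)) =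
          A + s • (1 : Matrix I I ℚ_[l]) := by
        rw [map_add, map_sub, map_smul, LinearMap.toMatrix_one, ← hAZ, add_sub_cancel_right]
      have h5 : cp ℓ X - z + s • (1 : Module.End ℚ_[l] V) ∈
          Submodule.span ℚ_[l] (Tangent l ρ) := by
        rw [← h4] at hs
        have h6 : R.Zt l = (LinearMap.toMatrix e e) '' (Tangent l ρ) := by
          ext M
          constructor
          · intro hM
            refine ⟨Matrix.toLin e e M, ?_, LinearMap.toMatrix_toLin e e M⟩
            rw [CoordT_tan h1, LinearMap.toMatrix_toLin]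
            exact hM
          · rintro ⟨B, hB, rfl⟩
            exact (CoordT_tan h1 B).1 hB
        rw [h6] at hs
        have h7 : LinearMap.toMatrix e e (cp ℓ X - z + s • (1 : Module.End ℚ_[l] V)) ∈
            (Submodule.span ℚ_[l] (Tangent l ρ)).map (LinearMap.toMatrix e e).toLinearMap := by
          rw [Submodule.map_span]
          exact hs
        obtain ⟨B, hB, hB'⟩ := h7
        rwa [(LinearMap.toMatrix e e).injective hB'] at hB
      refine ⟨algebraMap ℚ_[l] K s, ?_⟩
      have h8 := NtK_lie ρ (K := K) h5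
      have h9 : (cp ℓ X - z + s • (1 : Module.End ℚ_[l] V)).baseChange K =
          (cp ℓ X - z).baseChange K + algebraMap ℚ_[l] K s •
            (1 : Module.End K (K ⊗[ℚ_[l]] V)) := by
        rw [LinearMap.baseChange_add, LinearMap.baseChange_smul, NtK_bc_one, algebraMap_smul]
      rwa [h9] at h8
  choose z hz hz' using hdec
  let b := Module.Free.chooseBasis ℚ_[l] K
  obtain ⟨τ, hτ⟩ := sum_cp b X
  have hzcen : ∀ ℓ, (z ℓ).baseChange K ∈ cenK K (res ρ U).T := fun ℓ => NtK_mem ρ U hU (hz ℓ).1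
  have hzcom : ∀ ℓ, ∀ c ∈ cenK K (res ρ U).T, (z ℓ).baseChange K * c = c * (z ℓ).baseChange K := by
    intro ℓ c hc
    refine CcL_comb ρ U (c := c) (fun γ hγ => ?_)
      (P := fun c => (z ℓ).baseChange K * c = c * (z ℓ).baseChange K) (by simp)
      (fun a b ha hb => by rw [add_mul, mul_add, ha, hb])
      (fun k a ha => by rw [smul_mul_assoc, mul_smul_comm, ha]) ?_
    · rw [cenK, Subalgebra.mem_centralizer_iff] at hc
      exact (hc _ ⟨⟨γ, hγ⟩, rfl⟩).symm
    · intro c₀ hc₀
      rw [← NtK_bc_mul, ← NtK_bc_mul, (hz ℓ).2.1 c₀ hc₀]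
  let f : Module.Free.ChooseBasisIndex ℚ_[l] K → Module.End K (K ⊗[ℚ_[l]] V) := fun t =>
    b t • (z (b.coord t)).baseChange K
  let g : Module.Free.ChooseBasisIndex ℚ_[l] K → Module.End K (K ⊗[ℚ_[l]] V) := fun t =>
    b t • (cp (b.coord t) X - z (b.coord t)).baseChange K
  have hf : ∀ t, f t = b t • (z (b.coord t)).baseChange K := fun t => rfl
  have hfg : ∀ t, g t + f t = b t • (cp (b.coord t) X).baseChange K := by
    intro t
    have h4 : g t + f t = b t • ((cp (b.coord t) X - z (b.coord t)).baseChange K +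
        (z (b.coord t)).baseChange K) := (smul_add _ _ _).symm
    rw [h4, ← LinearMap.baseChange_add, sub_add_cancel]
  refine ⟨∑ t ∈ τ, f t, ?_, ?_, ?_, ?_⟩
  · exact sum_mem fun t _ => Subalgebra.smul_mem _ (hzcen _) _
  · intro c hc
    rw [Finset.sum_mul, Finset.mul_sum]
    refine Finset.sum_congr rfl fun t _ => ?_
    rw [hf, smul_mul_assoc, mul_smul_comm, hzcom _ c hc]
  · intro x y
    rw [LinearMap.sum_apply, LinearMap.sum_apply, map_sum, map_sum, LinearMap.sum_apply,
      ← Finset.sum_neg_distrib]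
    refine Finset.sum_congr rfl fun t _ => ?_
    rw [hf, LinearMap.smul_apply, LinearMap.smul_apply, map_smul, map_smul, LinearMap.smul_apply,
      NilT_base ρ.form _ (hz (b.coord t)).2.2 x y, smul_neg]
  · have h4 : X - ∑ t ∈ τ, f t = ∑ t ∈ τ, g t := by
      have h5 : X = ∑ t ∈ τ, (g t + f t) :=
        hτ.trans (Finset.sum_congr rfl fun t _ => (hfg t).symm)
      exact sub_eq_iff_eq_add.mpr (h5.trans Finset.sum_add_distrib)
    rw [h4]
    exact sum_mem fun t _ => Submodule.smul_mem _ _ (hz' _)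

end Pool.Agent.Lib.MP_640417_ag.Tg
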