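import Pool.Agent.Lib.MP_640417_ag.Tg.SpecC

/-!
# Toric places, the converse: irreducible submodules are isomorphic to blocks
-/

set_option autoImplicit false

namespace Pool.Agent.Lib.MP_640417_ag.Tg

open Module TensorProduct Pool.Agent.Lib.MP_640417_ag Pool.Agent.Lib.MP_640417_ag.Tor
  Pool.Agent.Lib.MP_640417_ag.Lef Pool.Agent.Lib.MP_640417_ag.Frob
  Pool.Agent.Lib.MP_640417_ag.Glob Pool.Agent.Lib.MP_640417_ag.Ty
  Pool.Agent.Lib.MP_640417_ag.Ctl

theorem pRedW (hI : SIrrE) : SRedW := by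
  intro K V _ _ _ _ ψ L C hC N st ε hS r u v hU W hW
  obtain ⟨hW0, hWs, hWi⟩ := hW
  -- some `ε j` does not vanish on `W`
  obtain ⟨x₀, hx₀, j, hj⟩ : ∃ x ∈ W, ∃ j, ε j x ≠ 0 := by
    obtain ⟨x, hx, hx0⟩ := (Submodule.ne_bot_iff _).1 hW0
    refine ⟨x, hx, ?_⟩
    by_contra! h
    apply hx0
    have h1 : (∑ j, ε j) x = x := by
      rw [hS.sum]
      rfl
    rw [← h1, LinearMap.sum_apply]
    exact Finset.sum_eq_zero fun j _ => h j
  have hcom : ∀ X ∈ L, ∀ c ∈ C, ∀ y, c (X y) = X (c y) := fun X hX c hc y =>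
    LinearMap.congr_fun (hC.com X hX c hc) y
  have hv0 : v j x₀ ≠ 0 := by
    intro h
    apply hj
    rw [← hU.uv j, Module.End.mul_apply, h, map_zero]
  -- `v j` is injective on `W`
  have hinj : ∀ x ∈ W, v j x = 0 → x = 0 := by
    have h1 := hWi (W ⊓ LinearMap.ker (v j)) inf_le_left (by
      intro X hX y hy
      refine ⟨hWs X hX y hy.1, ?_⟩
      have h2 : v j y = 0 := hy.2
      change v j (X y) = 0
      rw [hcom X hX _ (hU.vC j), h2, map_zero])
    rcases h1 with h1 | h1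
    · intro x hx h2
      have h3 : x ∈ W ⊓ LinearMap.ker (v j) := ⟨hx, h2⟩
      rw [h1] at h3
      exact (Submodule.mem_bot K).1 h3
    · exfalso
      have h3 : x₀ ∈ W ⊓ LinearMap.ker (v j) := by rw [h1]; exact hx₀
      exact hv0 h3.2
  have hinj' : ∀ x ∈ W, ∀ y ∈ W, v j x = v j y → x = y := by
    intro x hx y hy h
    have h1 := hinj (x - y) (W.sub_mem hx hy) (by rw [map_sub, h, sub_self])
    exact sub_eq_zero.1 h1
  -- the image is the range
  have hle : W.map (v j) ≤ LinearMap.range (ε (r j)) := by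
    rintro _ ⟨x, hx, rfl⟩
    refine ⟨v j x, ?_⟩
    rw [← Module.End.mul_apply, hU.ev]
  have hmap : W.map (v j) = LinearMap.range (ε (r j)) := by
    have h1 := (hI K V ψ L C hC N st ε hS (r j)).2.2 (W.map (v j)) hle (by
      rintro X hX _ ⟨x, hx, rfl⟩
      exact ⟨X x, hWs X hX x hx, hcom X hX _ (hU.vC j) x⟩)
    rcases h1 with h1 | h1
    · exfalso
      have h3 : v j x₀ ∈ W.map (v j) := ⟨x₀, hx₀, rfl⟩
      rw [h1] at h3
      exact hv0 ((Submodule.mem_bot K).1 h3)
    · exact h1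
  -- the inverse
  obtain ⟨d, hdW, hdv⟩ : ∃ d : Module.End K V, (∀ y, d y ∈ W) ∧ ∀ y, v j (d y) = ε (r j) y := by
    let f : W →ₗ[K] LinearMap.range (ε (r j)) :=
      ((v j).comp W.subtype).codRestrict _ (fun x => hle ⟨x, x.2, rfl⟩)
    have hf : Function.Bijective f := by
      constructor
      · intro x y h
        have h1 : v j x = v j y := congrArg Subtype.val h
        exact Subtype.ext (hinj' x x.2 y y.2 h1)
      · rintro ⟨y, hy⟩
        rw [← hmap] at hy
        obtain ⟨x, hx, rfl⟩ := hy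
        exact ⟨⟨x, hx⟩, rfl⟩
    let e := LinearEquiv.ofBijective f hf
    refine ⟨W.subtype.comp (e.symm.toLinearMap.comp (ε (r j)).rangeRestrict), ?_, ?_⟩
    · intro y
      exact (e.symm ((ε (r j)).rangeRestrict y)).2
    · intro y
      have h1 : e (e.symm ((ε (r j)).rangeRestrict y)) = (ε (r j)).rangeRestrict y :=
        e.apply_symm_apply _
      exact congrArg Subtype.val h1
  have hdC : d ∈ C := by
    apply hC.bic
    intro X hX
    refine LinearMap.ext fun y => ?_
    rw [Module.End.mul_apply, Module.End.mul_apply]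
    apply hinj' _ (hdW _) _ (hWs X hX _ (hdW y))
    rw [hdv, hcom X hX _ (hS.mem _), hcom X hX _ (hU.vC j), hdv]
  refine ⟨r j, hU.rr j, v j, hU.vC j, d, hdC, ?_, hU.ev j, ?_, hdW, ?_⟩
  · exact LinearMap.ext fun y => hdv y
  · refine LinearMap.ext fun y => ?_
    rw [Module.End.mul_apply]
    apply hinj' _ (hdW _) _ (hdW _)
    rw [hdv, hdv, ← Module.End.mul_apply, hS.idem]
  · intro x hx
    apply hinj' _ (hdW _) _ hx
    rw [hdv, ← Module.End.mul_apply, hU.ev]

end Pool.Agent.Lib.MP_640417_ag.Tg
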