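import Pool.Agent.Lib.MP_640417_ag.Tg.SpecC

/-!
# Toric places, the converse: no twists to the dual
-/

set_option autoImplicit false

namespace Pool.Agent.Lib.MP_640417_ag.Tg

open Module Pool.Agent.Lib.MP_640417_ag.Tor Pool.Agent.Lib.MP_640417_ag.Lef

/-- **No twists to the dual.** -/
theorem pTwD (_hI : SIrrE) (hG : SGam) (hW : SGlW) (hL : STwL) : STwD := by
  intro K V _ _ _ _ ψ L C hC hLef N st ε hS r u v hUV a c hra hsta h3 hc hcX
  by_contra hc0
  have hcs : ∀ x, c x = ε (st a) (c x) := by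
    intro x
    have h1 := LinearMap.congr_fun hc x
    simp only [Module.End.mul_apply] at h1
    rw [← h1, ← Module.End.mul_apply (ε (st a)) (ε (st a)), hS.idem]
  have hca : ∀ x, c (ε a x) = c x := by
    intro x
    have h1 : c * ε a = c := by rw [← hc, mul_assoc, hS.idem]
    exact LinearMap.congr_fun h1 x
  let U : Submodule K V := LinearMap.range (ε a)
  have hU : ∀ x : U, ε a (x : V) = x := by
    rintro ⟨_, y, rfl⟩
    exact LinearMap.congr_fun (hS.idem a) y
  let γ : LinearMap.BilinForm K U := ψ.compl₁₂ (c ∘ₗ U.subtype) U.subtype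
  have hγ : ∀ x y : U, γ x y = ψ (c x) y := fun x y => rfl
  have hγ0 : γ ≠ 0 := by
    intro h0
    apply hc0
    refine LinearMap.ext fun x => hC.nd _ fun y => ?_
    have h1 := hγ ⟨ε a x, x, rfl⟩ ⟨ε a y, y, rfl⟩
    rw [h0, LinearMap.zero_apply, LinearMap.zero_apply] at h1
    change (0 : K) = ψ (c (ε a x)) (ε a y) at h1
    rw [hca] at h1
    rw [hcs x, hS.adj, hS.inv, ← h1]
  refine hG K U h3 γ hγ0 fun Y => ?_
  let π : V →ₗ[K] U := (ε a).rangeRestrict
  let Y' : Module.End K V := U.subtype ∘ₗ Y ∘ₗ π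
  have hY' : ∀ x : U, Y' x = Y x := by
    intro x
    have h1 : π x = x := Subtype.ext (hU x)
    change ((Y (π x) : U) : V) = Y x
    rw [h1]
  have hY'a : ε a * Y' * ε a = Y' := by
    refine LinearMap.ext fun x => ?_
    have h1 : π (ε a x) = π x := Subtype.ext (LinearMap.congr_fun (hS.idem a) x)
    change ε a ((Y (π (ε a x)) : U) : V) = ((Y (π x) : U) : V)
    rw [h1, hU]
  obtain ⟨X, hXs, hXc, hXa, -⟩ := hW K V ψ hC.anti hC.nd C N st ε hS r u v hUV a Y' hra hsta hY'a
  obtain ⟨s, hs⟩ := hL K V ψ L C hLef N st ε hS a (st a) c hc hcX X hXs hXc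
  have hXU : ∀ x : U, X x = Y x := by
    intro x
    have h1 : X (ε a (x : V)) = ε a (X x) := LinearMap.congr_fun (hXc _ (hS.mem a)) x
    rw [hU] at h1
    rw [h1, ← Module.End.mul_apply, hXa, hY']
  refine ⟨s, fun x y => ?_⟩
  have h1 := LinearMap.congr_fun hs (x : V)
  rw [LinearMap.sub_apply, Module.End.mul_apply, Module.End.mul_apply, LinearMap.smul_apply,
    sub_eq_iff_eq_add] at h1
  rw [hγ, hγ, hγ, ← hXU x, ← hXU y, h1, map_add, LinearMap.add_apply, map_smul,
    LinearMap.smul_apply, hXs (c x) y, smul_eq_mul]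
  ring

end Pool.Agent.Lib.MP_640417_ag.Tg
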