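import Pool.Agent.Lib.MP_640417_ag.Tg.SpecC

/-!
# Twists for `L` are twists for the Lefschetz Lie algebra
-/

set_option autoImplicit false

namespace Pool.Agent.Lib.MP_640417_ag.Tg

open Module TensorProduct Pool.Agent.Lib.MP_640417_ag Pool.Agent.Lib.MP_640417_ag.Tor
  Pool.Agent.Lib.MP_640417_ag.Lef

theorem pTwL : STwL := by
  intro K V _ _ _ ψ L C hL N st ε hS a b c hc hX X hX1 hX2
  obtain ⟨z, hz1, hz2, hz3, hz4⟩ := hL X hX1 hX2
  obtain ⟨-, s0, hs0⟩ := hz4
  obtain ⟨s, hs⟩ := hX _ hs0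
  obtain ⟨t, ht⟩ := hS.one a z hz1
  obtain ⟨t', ht'⟩ := hS.one b z hz1
  have ha : ε a * z = t • ε a := by
    rw [← ht, mul_assoc, hz2 (ε a) (hS.mem a), ← mul_assoc, hS.idem]
  have hb : z * ε b = t' • ε b := by
    rw [← ht', ← hz2 (ε b) (hS.mem b), mul_assoc, hS.idem]
  have hca : c * ε a = c := by
    rw [← hc, mul_assoc, hS.idem]
  have hbc : ε b * c = c := by
    rw [← hc, ← mul_assoc, ← mul_assoc, hS.idem]
  have h1 : c * z = t • c := by
    calc c * z = c * (ε a * z) := by rw [← mul_assoc, hca]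
      _ = t • c := by rw [ha, mul_smul_comm, hca]
  have h2 : z * c = t' • c := by
    calc z * c = (z * ε b) * c := by rw [mul_assoc, hbc]
      _ = t' • c := by rw [hb, smul_mul_assoc, hbc]
  refine ⟨s + t - t', ?_⟩
  have h3 : c * (X - z + s0 • (1 : Module.End K V)) - (X - z + s0 • 1) * c =
      (c * X - X * c) - (c * z - z * c) := by
    rw [mul_add, add_mul, mul_sub, sub_mul, mul_smul_comm, smul_mul_assoc, mul_one, one_mul]
    abel
  rw [h3, h1, h2] at hs
  rw [sub_smul, add_smul, ← hs]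
  abel

end Pool.Agent.Lib.MP_640417_ag.Tg
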