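import Pool.Agent.Lib.MP_640417_ag.Tg.SpecC

/-!
# No twists to other blocks
-/

set_option autoImplicit false

namespace Pool.Agent.Lib.MP_640417_ag.Tg

open Module TensorProduct Pool.Agent.Lib.MP_640417_ag Pool.Agent.Lib.MP_640417_ag.Tor
  Pool.Agent.Lib.MP_640417_ag.Lef

theorem pTwN (h1 : SIrrE) (h2 : SGlW) (h3 : STwL) : STwN := by
  intro K V _ _ _ _ ψ L C hC hL N st ε hS r u v hU a b c hra hrb hba hbst hsta hrk hc hX
  by_contra hc0
  have hca : c * ε a = c := by
    rw [← hc, mul_assoc, hS.idem]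
  have hbc : ε b * c = c := by
    rw [← hc, ← mul_assoc, ← mul_assoc, hS.idem]
  have hirr := h1 K V ψ L C hC N st ε hS a
  -- `c` is injective on the range
  have hstab : ∀ X ∈ L, ∀ y ∈ LinearMap.ker c ⊓ LinearMap.range (ε a),
      X y ∈ LinearMap.ker c ⊓ LinearMap.range (ε a) := by
    intro X hXL y hy
    refine ⟨?_, hirr.2.1 X hXL y hy.2⟩
    obtain ⟨s, hs⟩ := hX X hXL
    have h5 := LinearMap.congr_fun hs y
    rw [LinearMap.sub_apply, Module.End.mul_apply, Module.End.mul_apply,
      LinearMap.smul_apply, LinearMap.mem_ker.1 hy.1, map_zero, smul_zero, sub_zero] at h5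
    exact LinearMap.mem_ker.2 h5
  have hker : LinearMap.ker c ⊓ LinearMap.range (ε a) = ⊥ := by
    rcases hirr.2.2 (LinearMap.ker c ⊓ LinearMap.range (ε a)) inf_le_right hstab with h4 | h4
    · exact h4
    · exfalso
      apply hc0
      rw [← hca]
      apply LinearMap.ext
      intro x
      have h5 : ε a x ∈ LinearMap.ker c ⊓ LinearMap.range (ε a) := by
        rw [h4]
        exact LinearMap.mem_range_self _ x
      exact LinearMap.mem_ker.1 h5.1
  have hidem : ∀ x ∈ LinearMap.range (ε a), ε a x = x := by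
    rintro x ⟨y, rfl⟩
    rw [← Module.End.mul_apply, hS.idem]
  -- all operators are scalars
  have hsc : ∀ Y : Module.End K V, ε a * Y * ε a = Y → ∃ s : K, Y = s • ε a := by
    intro Y hY
    obtain ⟨X, hX1, hX2, hX3, hX4⟩ := h2 K V ψ hC.anti hC.nd C N st ε hS r u v hU a Y hra hsta hY
    obtain ⟨s, hs⟩ := h3 K V ψ L C hL N st ε hS a b c hc hX X hX1 hX2
    have h5 : c * X = c * Y := by
      rw [← hX3, ← mul_assoc, hca]
    have h6 : X * c = 0 := by
      rw [← hbc, ← mul_assoc, hX2 (ε b) (hS.mem b), hX4 b hrb hba hbst, zero_mul]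
    rw [h5, h6, sub_zero] at hs
    refine ⟨s, ?_⟩
    have hYa : ε a * Y = Y := by
      rw [← hY, ← mul_assoc, ← mul_assoc, hS.idem]
    apply LinearMap.ext
    intro x
    rw [← sub_eq_zero]
    have h7 : Y x - (s • ε a) x ∈ LinearMap.ker c ⊓ LinearMap.range (ε a) := by
      constructor
      · rw [SetLike.mem_coe, LinearMap.mem_ker, map_sub, LinearMap.smul_apply, map_smul,
          ← Module.End.mul_apply, ← Module.End.mul_apply, hs, hca, LinearMap.smul_apply, sub_self]
      · refine ⟨Y x - s • x, ?_⟩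
        rw [map_sub, map_smul, ← Module.End.mul_apply, hYa]
        rfl
    rw [hker] at h7
    exact h7
  -- the dimension is at most one
  have hne : LinearMap.range (ε a) ≠ ⊥ := hirr.1
  obtain ⟨x, hx, hx0⟩ := (Submodule.ne_bot_iff _).1 hne
  obtain ⟨φ, hφ⟩ : ∃ φ : Module.Dual K V, φ x ≠ 0 := by
    by_contra hcon
    push Not at hcon
    exact hx0 ((Module.forall_dual_apply_eq_zero_iff K x).1 hcon)
  have hfin : finrank K (LinearMap.range (ε a)) ≤ 1 := by
    refine finrank_le_one (⟨x, hx⟩ : LinearMap.range (ε a)) ?_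
    rintro ⟨w, hw⟩
    obtain ⟨s, hs⟩ := hsc ((φ.smulRight w) * ε a) (by
      apply LinearMap.ext
      intro y
      rw [mul_assoc, mul_assoc, hS.idem, Module.End.mul_apply, Module.End.mul_apply,
        LinearMap.smulRight_apply, map_smul, hidem w hw])
    have h5 := LinearMap.congr_fun hs x
    rw [Module.End.mul_apply, LinearMap.smulRight_apply, LinearMap.smul_apply, hidem x hx] at h5
    refine ⟨(φ x)⁻¹ * s, ?_⟩
    apply Subtype.ext
    show ((φ x)⁻¹ * s) • x = w
    rw [mul_smul, ← h5, smul_smul, inv_mul_cancel₀ hφ, one_smul]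
  unfold rk at hrk
  omega

end Pool.Agent.Lib.MP_640417_ag.Tg
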