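import Pool.Agent.Lib.MP_640417_ag.Tg.SpecC
import Pool.Agent.Lib.MP_640417_ag.Tor.PrimTr

/-!
# Toric places: self-twists are trivial
-/

set_option autoImplicit false

namespace Pool.Agent.Lib.MP_640417_ag.Tg

open Module TensorProduct Pool.Agent.Lib.MP_640417_ag Pool.Agent.Lib.MP_640417_ag.Tor
  Pool.Agent.Lib.MP_640417_ag.Lef Pool.Agent.Lib.MP_640417_ag.Frob
  Pool.Agent.Lib.MP_640417_ag.Glob Pool.Agent.Lib.MP_640417_ag.Ty
  Pool.Agent.Lib.MP_640417_ag.Ctl

theorem pTwS (hI : SIrrE) : STwS := by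
  intro K V _ _ _ _ _ ψ L C hC N st ε hs a c hc hc0 htw
  have hcom : ∀ X ∈ L, ∀ y, ε a (X y) = X (ε a y) := fun X hX y =>
    LinearMap.congr_fun (hC.com X hX _ (hs.mem a)) y
  have hid : ∀ y ∈ LinearMap.range (ε a), ε a y = y := by
    rintro _ ⟨y, rfl⟩
    exact LinearMap.congr_fun (hs.idem a) y
  have hcl : ε a * c = c := by
    rw [← hc, ← mul_assoc, ← mul_assoc, hs.idem a]
  have hcr : c * ε a = c := by
    rw [← hc, mul_assoc, hs.idem a]
  -- injectivity
  have hinj : ∀ y ∈ LinearMap.range (ε a), c y = 0 → y = 0 := by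
    have hst : ∀ X ∈ L, ∀ y ∈ LinearMap.range (ε a) ⊓ LinearMap.ker c,
        X y ∈ LinearMap.range (ε a) ⊓ LinearMap.ker c := by
      rintro X hX y ⟨hy1, hy2⟩
      refine ⟨?_, ?_⟩
      · rw [← hid y hy1, ← hcom X hX]
        exact ⟨X y, rfl⟩
      · obtain ⟨s, hs⟩ := htw X hX
        have h1 := LinearMap.congr_fun hs y
        have h2 : c y = 0 := hy2
        rw [LinearMap.sub_apply, Module.End.mul_apply, Module.End.mul_apply, LinearMap.smul_apply,
          h2, map_zero, sub_zero, smul_zero] at h1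
        exact h1
    rcases (hI K V ψ L C hC N st ε hs a).2.2 _ inf_le_left hst with h1 | h1
    · intro y hy hy2
      have h2 : y ∈ LinearMap.range (ε a) ⊓ LinearMap.ker c := ⟨hy, hy2⟩
      rw [h1] at h2
      exact h2
    · exfalso
      apply hc0
      rw [← hcr]
      ext y
      have h2 : ε a y ∈ LinearMap.range (ε a) ⊓ LinearMap.ker c := by
        rw [h1]
        exact ⟨y, rfl⟩
      exact h2.2
  -- the inverse
  obtain ⟨c', h1, h2⟩ : ∃ c' : Module.End K V, c * c' = ε a ∧ c' * c = ε a := by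
    have hπi : ∀ y : LinearMap.range (ε a), (ε a).rangeRestrict (y : V) = y := fun y =>
      Subtype.ext (hid y y.2)
    have hi : Function.Injective ((ε a).rangeRestrict ∘ₗ c ∘ₗ (LinearMap.range (ε a)).subtype) := by
      rw [← LinearMap.ker_eq_bot, LinearMap.ker_eq_bot']
      intro y hy
      have h3 : ε a (c y) = 0 := congrArg Subtype.val hy
      have h4 : ε a (c y) = c y := LinearMap.congr_fun hcl (y : V)
      rw [h4] at h3
      exact Subtype.ext (hinj y y.2 h3)
    let e := LinearEquiv.ofInjectiveEndo _ hi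
    have he : ∀ y : LinearMap.range (ε a), ((e y : LinearMap.range (ε a)) : V) = c y := by
      intro y
      exact LinearMap.congr_fun hcl (y : V)
    refine ⟨(LinearMap.range (ε a)).subtype ∘ₗ (e.symm : _ →ₗ[K] _) ∘ₗ (ε a).rangeRestrict,
      ?_, ?_⟩
    · ext y
      have h3 := he (e.symm ((ε a).rangeRestrict y))
      rw [LinearEquiv.apply_symm_apply] at h3
      exact h3.symm
    · ext y
      have h3 : e ((ε a).rangeRestrict y) = (ε a).rangeRestrict (c y) := by
        apply Subtype.ext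
        rw [he]
        have h4 : c (ε a y) = c y := LinearMap.congr_fun hcr y
        have h5 : ε a (c y) = c y := LinearMap.congr_fun hcl y
        exact h4.trans h5.symm
      have h4 : e.symm ((ε a).rangeRestrict (c y)) = (ε a).rangeRestrict y := by
        rw [← h3, LinearEquiv.symm_apply_apply]
      exact congrArg Subtype.val h4
  intro X hX
  obtain ⟨s, hs'⟩ := htw X hX
  have h3 : c * X * c' - X * ε a = s • ε a := by
    rw [← h1, ← mul_assoc, ← sub_mul, hs', smul_mul_assoc]
  have h4 := congrArg tr h3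
  have h5 : tr (c * X * c') = tr (X * ε a) := by
    rw [tr, tr, mul_assoc, LinearMap.trace_mul_comm, mul_assoc, h2]
  have h6 : tr (s • ε a) = s * tr (ε a) := by
    rw [tr, tr, map_smul, smul_eq_mul]
  have h7 : tr (c * X * c' - X * ε a) = tr (c * X * c') - tr (X * ε a) := by
    rw [tr, tr, tr, map_sub]
  rw [h7, h6, h5, sub_self] at h4
  have h8 : tr (ε a) = (rk (ε a) : K) := tr_idem (hs.idem a)
  have h9 : rk (ε a) ≠ 0 := by
    intro h10
    apply hs.ne a
    rw [rk, Submodule.finrank_eq_zero, LinearMap.range_eq_bot] at h10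
    exact h10
  have h10 : s = 0 := by
    rw [h8] at h4
    exact (mul_eq_zero.mp h4.symm).resolve_right (Nat.cast_ne_zero.mpr h9)
  rw [h10, zero_smul] at hs'
  exact sub_eq_zero.mp hs'

end Pool.Agent.Lib.MP_640417_ag.Tg
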