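import Pool.Agent.Lib.MP_640417_ag.Tg.MainB
import Pool.Agent.Lib.MP_640417_ag.Tg.Gam
import Pool.Agent.Lib.MP_640417_ag.Tg.GlW
import Pool.Agent.Lib.MP_640417_ag.Tg.RedW
import Pool.Agent.Lib.MP_640417_ag.Tg.TwS
import Pool.Agent.Lib.MP_640417_ag.Tg.TwL
import Pool.Agent.Lib.MP_640417_ag.Tg.TwD
import Pool.Agent.Lib.MP_640417_ag.Tg.TwN
import Pool.Agent.Lib.MP_640417_ag.Tg.NtA
import Pool.Agent.Lib.MP_640417_ag.Tg.NtK
import Pool.Agent.Lib.MP_640417_ag.Dfr.Main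

/-!
# Toric places decide: the main theorem without factors of type III
-/

set_option autoImplicit false

namespace Pool.Agent.Lib.MP_640417_ag.Tg

open Module TensorProduct Pool.Agent.Lib.MP_640417_ag Pool.Agent.Lib.MP_640417_ag.Tor
  Pool.Agent.Lib.MP_640417_ag.Lef Pool.Agent.Lib.MP_640417_ag.Frob
  Pool.Agent.Lib.MP_640417_ag.Glob Pool.Agent.Lib.MP_640417_ag.Ty
  Pool.Agent.Lib.MP_640417_ag.Ctl Pool.Agent.Lib.MP_640417_ag.Gen4
  Pool.Agent.Lib.MP_640417_ag.Dfr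

open Pool.Agent.Lib.MP_640417_ag.Four (Semisimple NoExotic Dv)

theorem ntA : SNtA :=
  pNtA pIrrE (pRedW pIrrE) (pTwS pIrrE) (pTwD pIrrE pGam pGlW pTwL) (pTwN pIrrE pGlW pTwL)

variable (l : ℕ) [Fact l.Prime] {Γ : Type} [Group Γ]
    [TopologicalSpace Γ] [IsTopologicalGroup Γ] [CompactSpace Γ] {V : Type} [AddCommGroup V]
    [Module ℚ_[l] V] [FiniteDimensional ℚ_[l] V] (ρ : H1Rep Γ ℚ_[l] V)

/-- **Toric places decide.** -/
theorem noExotic_iff_of_toric (hss : Semisimple ρ) (h3 : NoTypeIII ρ) (K : Type) [Field K]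
    [Algebra ℚ_[l] K] [IsAlgClosed K] (hT : ToricAll l ρ K) :
    NoExotic ρ ↔ NoTwist (ρ.form.baseChange K) (LieK l ρ K) ∧ ¬ WeilRel ρ := by
  have hlg : NoExotic ρ ↔ DivCond ρ 4 2 ∧ ¬ WeilRel ρ := (local_global l ρ hss h3).out 0 1 rfl rfl
  rw [hlg]
  refine and_congr_left fun _ => ⟨fun h => ?_, fun h => ?_⟩
  · exact noTwist_of_lef l ρ pCcL pNtK ntA hss h3 K (lef_of_div l ρ h)
  · exact div_of_lef l ρ hss h3 (lef_of_noTwist l ρ lefT hss h3 K hT h 4 2)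

end Pool.Agent.Lib.MP_640417_ag.Tg
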