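import Pool.Agent.Lib.MP_640417_ag.Tg.SpecW
import Pool.Agent.Lib.MP_640417_ag.Tor.PMB

/-!
# The algebraic main theorem in a block, condition on the square only in the block
-/

namespace Pool.Agent.Lib.MP_640417_ag.Tg

open Module Pool.Agent.Lib.MP_640417_ag Pool.Agent.Lib.MP_640417_ag.Tor

theorem pPMBW : SPMBW := by
  intro K V _ _ _ _ _ _ ψ alt nd g lie sp p hpp hp0 hadj hcom hirr N hN hNN hT X hX
  classical
  let W := LinearMap.range p
  let res := PMB_res p
  let ψ' : LinearMap.BilinForm K W := ψ.compl₁₂ W.subtype W.subtype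
  have hψ' : ∀ x y : W, ψ' x y = ψ x y := fun x y => rfl
  have hfix : ∀ w : W, p w = w := PMB_fix hpp
  have hres : ∀ Y ∈ g, ∀ w : W, ((res Y w : W) : V) = Y w := fun Y hY =>
    PMB_com hpp (hcom Y hY)
  have hmul : ∀ Y ∈ g, ∀ Z ∈ g, res (Y * Z) = res Y * res Z := fun Y hY Z hZ =>
    PMB_mul hpp (hcom Y hY) (hcom Z hZ)
  have hlie : ∀ Y ∈ g, ∀ Z ∈ g, res (Y * Z - Z * Y) = res Y * res Z - res Z * res Y := by
    intro Y hY Z hZ
    rw [map_sub, hmul Y hY Z hZ, hmul Z hZ Y hY]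
  have hnt : Nontrivial W := by
    obtain ⟨v, hv⟩ : ∃ v, p v ≠ 0 := by
      by_contra hcon
      push Not at hcon
      exact hp0 (LinearMap.ext hcon)
    exact ⟨⟨⟨p v, ⟨v, rfl⟩⟩, 0, fun h => hv (congrArg Subtype.val h)⟩⟩
  let g' : Submodule K (Module.End K W) := g.map res
  have hdat : Dat ψ' g' := by
    refine ⟨fun x => alt x, fun x hx => ?_, ?_, ?_, fun W₁ hW₁ => ?_⟩
    · apply Subtype.ext
      refine nd x fun y => ?_
      have h1 := hx ⟨p y, ⟨y, rfl⟩⟩
      rw [hψ'] at h1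
      rw [← hfix x, hadj]
      exact h1
    · rintro _ ⟨Y, hY, rfl⟩ _ ⟨Z, hZ, rfl⟩
      exact ⟨Y * Z - Z * Y, lie Y hY Z hZ, hlie Y hY Z hZ⟩
    · rintro _ ⟨Y, hY, rfl⟩ x y
      rw [hψ', hψ', hres Y hY, hres Y hY]
      exact sp Y hY x y
    · have h1 := hirr (W₁.map W.subtype) (Submodule.map_subtype_le W W₁) (by
        rintro Y hY _ ⟨w, hw, rfl⟩
        exact ⟨res Y w, hW₁ (res Y) ⟨Y, hY, rfl⟩ w hw, hres Y hY w⟩)
      rcases h1 with h1 | h1
      · left
        rw [eq_bot_iff]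
        intro w hw
        have h2 : (w : V) ∈ W₁.map W.subtype := ⟨w, hw, rfl⟩
        rw [h1] at h2
        exact (Submodule.mem_bot K).mpr (Subtype.ext ((Submodule.mem_bot K).mp h2))
      · right
        rw [eq_top_iff]
        intro w _
        have h2 : (w : V) ∈ W₁.map W.subtype := by
          rw [h1]
          exact w.2
        obtain ⟨w', hw', h3⟩ := h2
        rwa [← Subtype.ext h3]
  have hrk : rk (res N) = finrank K (W.map N) := PMB_rk hpp (hcom N hN)
  have hquart : ∀ t ∈ g, t * t = (1 / 4 : K) • (1 : Module.End K V) →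
      res t * res t = (1 / 4 : K) • (1 : Module.End K W) := by
    intro t ht h1
    rw [← hmul t ht t ht, h1, map_smul]
    exact congrArg _ (PMB_one hpp)
  have hmain := pMain K W ψ' g' hdat (res N) ⟨N, hN, rfl⟩ (by
    rw [← hmul N hN N hN]
    refine LinearMap.ext fun w => Subtype.ext ?_
    show p (N (N (w : V))) = 0
    rw [hNN w w.2, map_zero]) (by
    rcases hT with h | ⟨h1, t, ht, h2⟩ | ⟨h1, h2⟩
    · left
      constructor
      · intro h0
        have h3 : rk (res N) = 0 := by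
          rw [h0]
          unfold rk
          rw [LinearMap.range_zero, finrank_bot]
        rw [hrk] at h3
        have h4 : finrank K (W.map N) = 1 ∨ finrank K (W.map N) = 2 := h
        omega
      · rw [hrk]
        have h4 : finrank K (W.map N) = 1 ∨ finrank K (W.map N) = 2 := h
        omega
    · right
      left
      rw [hrk]
      exact ⟨h1, res t, ⟨t, ht, rfl⟩, hquart t ht h2⟩
    · right
      right
      rw [hrk]
      refine ⟨h1, fun a' ha' hta => le_antisymm ha'.le ?_⟩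
      have h3 := h2 (g ⊓ a'.comap res) ⟨inf_le_left, fun Y hY Z hZ =>
        ⟨lie Y hY Z hZ.1, by
          show res (Y * Z - Z * Y) ∈ a'
          rw [hlie Y hY Z hZ.1]
          exact ha'.lie _ ⟨Y, hY, rfl⟩ _ hZ.2⟩⟩ (fun t ht htt =>
        ⟨ht, hta (res t) ⟨t, ht, rfl⟩ (hquart t ht htt)⟩)
      rintro _ ⟨Y, hY, rfl⟩
      rw [← h3] at hY
      exact hY.2)
  have hpX : p * X = X := by rw [← hX.2, ← mul_assoc, ← mul_assoc, hpp]
  have hXp : X * p = X := by rw [← hX.2, mul_assoc, hpp]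
  have hXc : p * X = X * p := by rw [hpX, hXp]
  obtain ⟨Y, hY, hYX⟩ := hmain (res X) (by
    intro x y
    rw [hψ', hψ', PMB_com hpp hXc, PMB_com hpp hXc]
    exact hX.1 x y)
  refine ⟨Y, hY, LinearMap.ext fun v => ?_⟩
  have h1 := congrArg Subtype.val (LinearMap.congr_fun hYX ⟨p v, ⟨v, rfl⟩⟩)
  rw [hres Y hY, PMB_com hpp hXc] at h1
  rw [hcom Y hY]
  have h2 : X (p v) = X v := LinearMap.congr_fun hXp v
  rw [← h2]
  exact h1

end Pool.Agent.Lib.MP_640417_ag.Tg
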