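import Pool.Agent.Lib.MP_640417_ag.Tg.SpecW
import Pool.Agent.Lib.MP_640417_ag.Tor.PMB
import Pool.Agent.Lib.MP_640417_ag.Tor.Adj
import Pool.Agent.Lib.MP_640417_ag.Tor.Tr
import Pool.Agent.Lib.MP_640417_ag.Tor.Sl
import Pool.Agent.Lib.MP_640417_ag.Tor.Grade
import Pool.Agent.Lib.MP_640417_ag.Tor.RankOne
import Pool.Agent.Lib.MP_640417_ag.Tor.PrimTr

/-!
# Places which decide, more general conditions on the constituents: rank one in a self-dual block
-/

set_option autoImplicit false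

namespace Pool.Agent.Lib.MP_640417_ag.Tg

open Module Pool.Agent.Lib.MP_640417_ag.Tor

/-- an operator of rank one is `u ↦ φ u • v` -/
private lemma rkw_one {K U : Type} [Field K] [AddCommGroup U] [Module K U] [FiniteDimensional K U]
    {e : Module.End K U} (he : rk e = 1) :
    ∃ (v : U) (φ : Module.Dual K U), ∀ u, e u = φ u • v := by
  obtain ⟨v, hv, hv'⟩ := finrank_eq_one_iff'.1 he
  have hv0 : (v : U) ≠ 0 := fun h => hv (Subtype.ext h)
  obtain ⟨f, hf⟩ : ∃ f : Module.Dual K U, f (v : U) ≠ 0 := by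
    by_contra hcon
    push Not at hcon
    exact hv0 ((Module.forall_dual_apply_eq_zero_iff K (v : U)).1 hcon)
  have key : ∀ u, e u = ((f (v : U))⁻¹ * f (e u)) • (v : U) := by
    intro u
    obtain ⟨c, hc⟩ := hv' ⟨e u, ⟨u, rfl⟩⟩
    have hc' : c • (v : U) = e u := congrArg Subtype.val hc
    have : f (e u) = c * f (v : U) := by rw [← hc', map_smul, smul_eq_mul]
    rw [this, ← hc']
    congr 1
    field_simp
  exact ⟨v, (f (v : U))⁻¹ • (f ∘ₗ e), key⟩

theorem pRkW (hId : SIdemOne) : SRkW := by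
  intro K V _ _ _ _ _ _ ψ alt nd g lie sp p hpp hp0 hadj hcom hirr A a hA hrk1 X hX
  classical
  let W := LinearMap.range p
  let res := PMB_res p
  let ψ' : LinearMap.BilinForm K W := ψ.compl₁₂ W.subtype W.subtype
  have hψ' : ∀ x y : W, ψ' x y = ψ x y := fun x y => rfl
  have hfix : ∀ w : W, p w = w := PMB_fix hpp
  have hres : ∀ Y ∈ g, ∀ w : W, ((res Y w : W) : V) = Y w := fun Y hY =>
    PMB_com hpp (hcom Y hY)
  have hmul : ∀ Y ∈ g, ∀ Z ∈ g, res (Y * Z) = res Y * res Z := fun Y hY Z hZ =>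
    PMB_mul hpp (hcom Y hY) (hcom Z hZ)
  have hlie : ∀ Y ∈ g, ∀ Z ∈ g, res (Y * Z - Z * Y) = res Y * res Z - res Z * res Y := by
    intro Y hY Z hZ
    rw [map_sub, hmul Y hY Z hZ, hmul Z hZ Y hY]
  have hnt : Nontrivial W := by
    obtain ⟨v, hv⟩ : ∃ v, p v ≠ 0 := by
      by_contra hcon
      push Not at hcon
      exact hp0 (LinearMap.ext hcon)
    exact ⟨⟨⟨p v, ⟨v, rfl⟩⟩, 0, fun h => hv (congrArg Subtype.val h)⟩⟩
  let g' : Submodule K (Module.End K W) := g.map res
  have hdat : Dat ψ' g' := by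
    refine ⟨fun x => alt x, fun x hx => ?_, ?_, ?_, fun W₁ hW₁ => ?_⟩
    · apply Subtype.ext
      refine nd x fun y => ?_
      have h1 := hx ⟨p y, ⟨y, rfl⟩⟩
      rw [hψ'] at h1
      rw [← hfix x, hadj]
      exact h1
    · rintro _ ⟨Y, hY, rfl⟩ _ ⟨Z, hZ, rfl⟩
      exact ⟨Y * Z - Z * Y, lie Y hY Z hZ, hlie Y hY Z hZ⟩
    · rintro _ ⟨Y, hY, rfl⟩ x y
      rw [hψ', hψ', hres Y hY, hres Y hY]
      exact sp Y hY x y
    · have h1 := hirr (W₁.map W.subtype) (Submodule.map_subtype_le W W₁) (by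
        rintro Y hY _ ⟨w, hw, rfl⟩
        exact ⟨res Y w, hW₁ (res Y) ⟨Y, hY, rfl⟩ w hw, hres Y hY w⟩)
      rcases h1 with h1 | h1
      · left
        rw [eq_bot_iff]
        intro w hw
        have h2 : (w : V) ∈ W₁.map W.subtype := ⟨w, hw, rfl⟩
        rw [h1] at h2
        exact (Submodule.mem_bot K).mpr (Subtype.ext ((Submodule.mem_bot K).mp h2))
      · right
        rw [eq_top_iff]
        intro w _
        have h2 : (w : V) ∈ W₁.map W.subtype := by
          rw [h1]
          exact w.2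
        obtain ⟨w', hw', h3⟩ := h2
        rwa [← Subtype.ext h3]
  have hAa : p * (A - a • (1 : Module.End K V)) = (A - a • (1 : Module.End K V)) * p := by
    rw [mul_sub, sub_mul, hcom A hA, mul_smul_comm, smul_mul_assoc, mul_one, one_mul]
  have hE : res (A - a • (1 : Module.End K V)) = res A - a • (1 : Module.End K W) := by
    have h1 : res (1 : Module.End K V) = 1 := PMB_one hpp
    rw [map_sub, map_smul, h1]
  have hrk : rk (res A - a • (1 : Module.End K W)) = 1 := by
    rw [← hE]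
    have h1 := PMB_rk hpp hAa
    exact h1.trans hrk1
  obtain ⟨v, φ, hE1⟩ := rkw_one hrk
  -- all skew operators of `W` are in `g'`
  have main : ∀ X' : Module.End K W, Skew ψ' X' → X' ∈ g' := by
    by_cases hφv : φ v = 0
    · have hEE : (res A - a • (1 : Module.End K W)) * (res A - a • (1 : Module.End K W)) = 0 := by
        refine LinearMap.ext fun u => ?_
        rw [Module.End.mul_apply, hE1 u, map_smul, hE1 v, hφv, zero_smul, smul_zero]
        rfl
      have h1 : tr (res A - a • (1 : Module.End K W)) = 0 := tr_sq hEE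
      have h2 : tr (res A) = 0 := tr_skew ψ' hdat.nd (hdat.sp _ ⟨A, hA, rfl⟩)
      have h3 : a = 0 := by
        unfold tr at h1 h2
        rw [map_sub, h2, map_smul, LinearMap.trace_one, zero_sub, neg_eq_zero, smul_eq_mul] at h1
        have h4 : (finrank K W : K) ≠ 0 := Nat.cast_ne_zero.2 finrank_pos.ne'
        exact (mul_eq_zero.1 h1).resolve_right h4
      rw [h3, zero_smul, sub_zero] at hrk
      exact pRankOne pTr (pSl pTr) pGrade K W ψ' g' hdat (res A) ⟨A, hA, rfl⟩ hrk
    · intro X' hX'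
      refine hId K W g' hdat.lie (fun W₁ _ h2 => hdat.irr W₁ h2) v φ a (res A) ⟨A, hA, rfl⟩ ?_ hφv
        X' (tr_skew ψ' hdat.nd hX')
      intro u
      have h1 := hE1 u
      rw [LinearMap.sub_apply, LinearMap.smul_apply, Module.End.one_apply] at h1
      rw [← h1]
      abel
  have hpX : p * X = X := by rw [← hX.2, ← mul_assoc, ← mul_assoc, hpp]
  have hXp : X * p = X := by rw [← hX.2, mul_assoc, hpp]
  have hXc : p * X = X * p := by rw [hpX, hXp]
  obtain ⟨Y, hY, hYX⟩ := main (res X) (by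
    intro x y
    rw [hψ', hψ', PMB_com hpp hXc, PMB_com hpp hXc]
    exact hX.1 x y)
  refine ⟨Y, hY, LinearMap.ext fun v => ?_⟩
  have h1 := congrArg Subtype.val (LinearMap.congr_fun hYX ⟨p v, ⟨v, rfl⟩⟩)
  rw [hres Y hY, PMB_com hpp hXc] at h1
  rw [hcom Y hY]
  have h2 : X (p v) = X v := LinearMap.congr_fun hXp v
  rw [← h2]
  exact h1

end Pool.Agent.Lib.MP_640417_ag.Tg
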