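import Pool.Agent.Lib.MP_640417_ag.Tg.SpecW
import Pool.Agent.Lib.MP_640417_ag.Tg.Perf
import Pool.Agent.Lib.MP_640417_ag.Tg.Span
import Pool.Agent.Lib.MP_640417_ag.Tg.Partner
import Pool.Agent.Lib.MP_640417_ag.Tor.PMB
import Pool.Agent.Lib.MP_640417_ag.Tor.Adj

/-!
# Places which decide, more general conditions on the constituents: classification in a block
-/

set_option autoImplicit false

namespace Pool.Agent.Lib.MP_640417_ag.Tg

open Module Pool.Agent.Lib.MP_640417_ag.Tor

private lemma slw_tr {K V : Type} [Field K] [AddCommGroup V] [Module K V] [FiniteDimensional K V]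
    {p Y : Module.End K V} (hY : Y * p = Y) : tr (PMB_res p Y) = tr Y := by
  unfold tr
  have h1 : PMB_res p Y = p.rangeRestrict ∘ₗ (Y ∘ₗ (LinearMap.range p).subtype) := rfl
  rw [h1, LinearMap.trace_comp_comm', LinearMap.comp_assoc]
  have h2 : (LinearMap.range p).subtype ∘ₗ p.rangeRestrict = p := by
    ext x
    rfl
  rw [h2]
  exact congrArg _ hY

private lemma slw_lift {K V : Type} [Field K] [AddCommGroup V] [Module K V]
    {p X U : Module.End K V} (hpp : p * p = p) (hX : p * X = X * p) (hU : p * U = U)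
    (hU' : U * p = U) (h : PMB_res p X = PMB_res p U) : p * X = U := by
  refine LinearMap.ext fun v => ?_
  have h1 := congrArg Subtype.val (LinearMap.congr_fun h ⟨p v, ⟨v, rfl⟩⟩)
  rw [PMB_com hpp hX, PMB_com hpp (hU.trans hU'.symm)] at h1
  rw [hX]
  have h2 : U (p v) = U v := LinearMap.congr_fun hU' v
  rw [← h2]
  exact h1

/-- an operator of rank one is `u ↦ φ u • v` -/
private lemma slw_one {K U : Type} [Field K] [AddCommGroup U] [Module K U] [FiniteDimensional K U]
    {e : Module.End K U} (he : rk e = 1) :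
    ∃ (v : U) (φ : Module.Dual K U), v ≠ 0 ∧ φ ≠ 0 ∧ ∀ u, e u = φ u • v := by
  obtain ⟨v, hv, hv'⟩ := finrank_eq_one_iff'.1 he
  have hv0 : (v : U) ≠ 0 := fun h => hv (Subtype.ext h)
  obtain ⟨f, hf⟩ : ∃ f : Module.Dual K U, f (v : U) ≠ 0 := by
    by_contra hcon
    push Not at hcon
    exact hv0 ((Module.forall_dual_apply_eq_zero_iff K (v : U)).1 hcon)
  have key : ∀ u, e u = ((f (v : U))⁻¹ * f (e u)) • (v : U) := by
    intro u
    obtain ⟨c, hc⟩ := hv' ⟨e u, ⟨u, rfl⟩⟩
    have hc' : c • (v : U) = e u := congrArg Subtype.val hc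
    have : f (e u) = c * f (v : U) := by rw [← hc', map_smul, smul_eq_mul]
    rw [this, ← hc']
    congr 1
    field_simp
  refine ⟨v, (f (v : U))⁻¹ • (f ∘ₗ e), hv0, ?_, key⟩
  intro h0
  obtain ⟨u, hu⟩ := v.2
  apply hv0
  rw [← hu, key u]
  have := LinearMap.congr_fun h0 u
  change (f (v : U))⁻¹ * f (e u) = 0 at this
  rw [this, zero_smul]

theorem pSlW (hId : SIdemOne) (hCls : SCls) : SSlW := by
  intro K V _ _ _ _ _ _ B _ _ ψ p st hBD g lie sp hcom b hirr A a hA hrk1
  classical
  have hpp : p b * p b = p b := hBD.pp b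
  let W := LinearMap.range (p b)
  let res := PMB_res (p b)
  have hfix : ∀ w : W, p b w = w := PMB_fix hpp
  have hres : ∀ Y ∈ g, ∀ w : W, ((res Y w : W) : V) = Y w := fun Y hY =>
    PMB_com hpp (hcom b Y hY)
  have hmul : ∀ Y ∈ g, ∀ Z ∈ g, res (Y * Z) = res Y * res Z := fun Y hY Z hZ =>
    PMB_mul hpp (hcom b Y hY) (hcom b Z hZ)
  have hlie : ∀ Y ∈ g, ∀ Z ∈ g, res (Y * Z - Z * Y) = res Y * res Z - res Z * res Y := by
    intro Y hY Z hZ
    rw [map_sub, hmul Y hY Z hZ, hmul Z hZ Y hY]
  let g' : Submodule K (Module.End K W) := g.map res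
  have hLie' : Lie g' := by
    rintro _ ⟨Y, hY, rfl⟩ _ ⟨Z, hZ, rfl⟩
    exact ⟨Y * Z - Z * Y, lie Y hY Z hZ, hlie Y hY Z hZ⟩
  have hIrr' : Irr g' ⊤ := by
    intro W₁ _ hW₁
    have h1 := hirr (W₁.map W.subtype) (Submodule.map_subtype_le W W₁) (by
      rintro Y hY _ ⟨w, hw, rfl⟩
      exact ⟨res Y w, hW₁ (res Y) ⟨Y, hY, rfl⟩ w hw, hres Y hY w⟩)
    rcases h1 with h1 | h1
    · left
      rw [eq_bot_iff]
      intro w hw
      have h2 : (w : V) ∈ W₁.map W.subtype := ⟨w, hw, rfl⟩
      rw [h1] at h2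
      exact (Submodule.mem_bot K).mpr (Subtype.ext ((Submodule.mem_bot K).mp h2))
    · right
      rw [eq_top_iff]
      intro w _
      have h2 : (w : V) ∈ W₁.map W.subtype := by
        rw [h1]
        exact w.2
      obtain ⟨w', hw', h3⟩ := h2
      rwa [← Subtype.ext h3]
  have hAa : p b * (A - a • (1 : Module.End K V)) = (A - a • (1 : Module.End K V)) * p b := by
    rw [mul_sub, sub_mul, hcom b A hA, mul_smul_comm, smul_mul_assoc, mul_one, one_mul]
  have hE : res (A - a • (1 : Module.End K V)) = res A - a • (1 : Module.End K W) := by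
    have h1 : res (1 : Module.End K V) = 1 := PMB_one hpp
    rw [map_sub, map_smul, h1]
  have hrk : rk (res A - a • (1 : Module.End K W)) = 1 := by
    rw [← hE]
    have h1 := PMB_rk hpp hAa
    exact h1.trans hrk1
  obtain ⟨v, φ, hv, hφ, hE1⟩ := slw_one hrk
  -- operators of trace zero of `W` in `g'` give the first alternative
  have first : (∀ X : Module.End K W, tr X = 0 → X ∈ g') →
      ∀ Y ∈ sb ψ (p b) False, ∃ X ∈ g, p b * X = Y := by
    intro h X hX
    obtain ⟨hX1, hX2, -⟩ := hX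
    have hpX : p b * X = X := by rw [← hX1, ← mul_assoc, ← mul_assoc, hpp]
    have hXp : X * p b = X := by rw [← hX1, mul_assoc, hpp]
    obtain ⟨Y, hY, hYX⟩ := h (res X) (by
      have h1 : tr (res X) = tr X := slw_tr hXp
      rw [h1, hX2])
    exact ⟨Y, hY, slw_lift hpp (hcom b Y hY) hpX hXp hYX⟩
  by_cases hφv : φ v = 0
  swap
  · left
    refine first (hId K W g' hLie' hIrr' v φ a (res A) ⟨A, hA, rfl⟩ ?_ hφv)
    intro u
    have h1 := hE1 u
    rw [LinearMap.sub_apply, LinearMap.smul_apply, Module.End.one_apply] at h1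
    rw [← h1]
    abel
  set E : Module.End K W := res A - a • (1 : Module.End K W) with hEdef
  have hEE : E * E = 0 := by
    refine LinearMap.ext fun u => ?_
    rw [Module.End.mul_apply, hE1 u, map_smul, hE1 v, hφv, zero_smul, smul_zero]
    rfl
  -- the Lie algebra with scalars
  let g₂ : Submodule K (Module.End K W) := g' ⊔ Submodule.span K {1}
  have hg₂ : ∀ X ∈ g₂, ∃ Y ∈ g', ∃ s : K, X = Y + s • (1 : Module.End K W) := by
    intro X hX
    obtain ⟨Y, hY, Z, hZ, rfl⟩ := Submodule.mem_sup.1 hX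
    obtain ⟨s, rfl⟩ := Submodule.mem_span_singleton.1 hZ
    exact ⟨Y, hY, s, rfl⟩
  have hle : g' ≤ g₂ := le_sup_left
  have hLie₂ : Lie g₂ := by
    intro X hX Y hY
    obtain ⟨X', hX', s, rfl⟩ := hg₂ X hX
    obtain ⟨Y', hY', t, rfl⟩ := hg₂ Y hY
    have : (X' + s • (1 : Module.End K W)) * (Y' + t • 1) - (Y' + t • 1) * (X' + s • 1)
        = X' * Y' - Y' * X' := by
      simp only [add_mul, mul_add, smul_mul_assoc, mul_smul_comm, one_mul, mul_one, smul_add,
        smul_smul, mul_comm t s]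
      abel
    rw [this]
    exact hle (hLie' X' hX' Y' hY')
  have hIrr₂ : Irr g₂ ⊤ := fun W₁ h1 h2 => hIrr' W₁ h1 (fun X hX => h2 X (hle hX))
  have hEmem : E ∈ g₂ := by
    have hE3 : E = res A + (-a) • (1 : Module.End K W) := by
      rw [hEdef, sub_eq_add_neg]
      exact congrArg _ (neg_smul a (1 : Module.End K W)).symm
    rw [hE3]
    exact Submodule.add_mem_sup ⟨A, hA, rfl⟩ (Submodule.mem_span_singleton.2 ⟨-a, rfl⟩)
  rcases hCls K W g₂ hLie₂ hIrr₂ E hEmem hEE hrk with h | ⟨h3, ω, -, hnd, hω⟩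
  · left
    -- the block has dimension at least two
    have htwo : 2 ≤ rk (p b) := by
      have h1 : LinearMap.range E ≤ LinearMap.ker E := by
        rintro _ ⟨u, rfl⟩
        exact LinearMap.congr_fun hEE u
      have h2 := LinearMap.finrank_range_add_finrank_ker E
      have h3 := Submodule.finrank_mono h1
      have h4 : finrank K (LinearMap.range E) = 1 := hrk
      have h5 : rk (p b) = finrank K W := rfl
      omega
    have hBlk : Blk ψ (p b) False :=
      { alt := hBD.alt, anti := hBD.anti, nd := hBD.nd, pp := hpp, adj := fun h => h.elim,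
        two := htwo }
    have hperf := pPerf pSpan pPartner K V ψ (p b) False hBlk
    have hder : der (sb ψ (p b) False) ≤ g.map (LinearMap.mulLeft K (p b)) := by
      refine Submodule.span_le.2 ?_
      rintro Z ⟨X, hX, Y, hY, rfl⟩
      have hZ := Perf_lie ψ (p b) False hpp hX hY
      obtain ⟨hX1, hX2, -⟩ := hX
      obtain ⟨hY1, hY2, -⟩ := hY
      obtain ⟨hZ1, hZ2, -⟩ := hZ
      have hpX : p b * X = X := by rw [← hX1, ← mul_assoc, ← mul_assoc, hpp]
      have hXp : X * p b = X := by rw [← hX1, mul_assoc, hpp]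
      have hpY : p b * Y = Y := by rw [← hY1, ← mul_assoc, ← mul_assoc, hpp]
      have hYp : Y * p b = Y := by rw [← hY1, mul_assoc, hpp]
      have hpZ : p b * (X * Y - Y * X) = X * Y - Y * X := by
        rw [mul_sub, ← mul_assoc, ← mul_assoc, hpX, hpY]
      have hZp : (X * Y - Y * X) * p b = X * Y - Y * X := by
        rw [sub_mul, mul_assoc, mul_assoc, hYp, hXp]
      obtain ⟨_, ⟨X', hX', rfl⟩, s, hs⟩ := hg₂ (res X) (h (res X) (by
        have h1 : tr (res X) = tr X := slw_tr hXp
        rw [h1, hX2]))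
      obtain ⟨_, ⟨Y', hY', rfl⟩, t, ht⟩ := hg₂ (res Y) (h (res Y) (by
        have h1 : tr (res Y) = tr Y := slw_tr hYp
        rw [h1, hY2]))
      refine ⟨X' * Y' - Y' * X', lie X' hX' Y' hY', ?_⟩
      change p b * (X' * Y' - Y' * X') = X * Y - Y * X
      refine slw_lift hpp (hcom b _ (lie X' hX' Y' hY')) hpZ hZp ?_
      have h1 : res (X' * Y' - Y' * X') = res X' * res Y' - res Y' * res X' := hlie X' hX' Y' hY'
      have h2 : res (X * Y - Y * X) = res X * res Y - res Y * res X := by
        have e1 : res (X * Y) = res X * res Y :=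
          PMB_mul hpp (hpX.trans hXp.symm) (hpY.trans hYp.symm)
        have e2 : res (Y * X) = res Y * res X :=
          PMB_mul hpp (hpY.trans hYp.symm) (hpX.trans hXp.symm)
        rw [map_sub, e1, e2]
      change res (X' * Y' - Y' * X') = res (X * Y - Y * X)
      rw [h1, h2, hs, ht]
      simp only [add_mul, mul_add, smul_mul_assoc, mul_smul_comm, one_mul, mul_one, smul_add,
        smul_smul, mul_comm t s]
      abel
    intro Y hY
    obtain ⟨X, hX, h1⟩ := hder (hperf hY)
    exact ⟨X, hX, h1⟩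
  · right
    refine ⟨h3, ?_⟩
    let π : V →ₗ[K] W := (p b).rangeRestrict
    let c : Module.End K V := (Adj_equiv ψ hBD.nd).symm.toLinearMap ∘ₗ (ω.compl₁₂ π π)
    have hc : ∀ x y, ψ (c x) y = ω (π x) (π y) := by
      intro x y
      rw [← Adj_equiv_apply ψ hBD.nd]
      change (Adj_equiv ψ hBD.nd) ((Adj_equiv ψ hBD.nd).symm ((ω.compl₁₂ π π) x)) y = _
      rw [LinearEquiv.apply_symm_apply]
      rfl
    have hπ : ∀ x, π (p b x) = π x := by
      intro x
      apply Subtype.ext
      exact LinearMap.congr_fun hpp x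
    have hπX : ∀ X ∈ g, ∀ x, π (X x) = res X (π x) := by
      intro X hX x
      apply Subtype.ext
      rw [hres X hX]
      exact LinearMap.congr_fun (hcom b X hX) x
    have hext : ∀ A D : Module.End K V, (∀ x y, ψ (A x) y = ψ (D x) y) → A = D := by
      intro A D hAD
      refine LinearMap.ext fun x => ?_
      have h1 := hBD.nd (A x - D x) fun y => by
        rw [map_sub, LinearMap.sub_apply, hAD, sub_self]
      exact sub_eq_zero.1 h1
    refine ⟨c, hext _ _ fun x y => ?_, ?_, fun X hX => ?_⟩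
    · have h1 := hBD.adj (st b) (c (p b x)) y
      rw [hBD.inv] at h1
      change ψ (p (st b) (c (p b x))) y = _
      rw [h1, hc, hc, hπ, hπ]
    · intro h0
      apply hBD.ne b
      refine LinearMap.ext fun v => ?_
      have h1 : π v = 0 := by
        refine hnd _ fun y => ?_
        obtain ⟨y', hy'⟩ : ∃ y' : V, π y' = y := ⟨y, Subtype.ext (hfix y)⟩
        rw [← hy', ← hc, h0, LinearMap.zero_apply, map_zero, LinearMap.zero_apply]
      exact congrArg Subtype.val h1
    · obtain ⟨s, hs⟩ := hω (res X) (hle ⟨X, hX, rfl⟩)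
      refine ⟨s, hext _ _ fun x y => ?_⟩
      have h1 : ψ ((c * X - X * c) x) y = ψ (c (X x)) y - ψ (X (c x)) y := by
        rw [LinearMap.sub_apply, map_sub, LinearMap.sub_apply]
        rfl
      rw [h1, sp X hX, hc, hc, hπX X hX, hπX X hX, LinearMap.smul_apply, map_smul,
        LinearMap.smul_apply, hc, smul_eq_mul, ← hs]
      ring

end Pool.Agent.Lib.MP_640417_ag.Tg
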