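import Pool.Agent.Lib.MP_640417_ag.Tg.RealA
import Pool.Agent.Lib.MP_640417_ag.Tg.PMBW
import Pool.Agent.Lib.MP_640417_ag.Tg.BlkW
import Pool.Agent.Lib.MP_640417_ag.Tg.IdemOne
import Pool.Agent.Lib.MP_640417_ag.Tg.SlW
import Pool.Agent.Lib.MP_640417_ag.Tg.RkW
import Pool.Agent.Lib.MP_640417_ag.Tg.AllW
import Pool.Agent.Lib.MP_640417_ag.Tg.FullW
import Pool.Agent.Lib.MP_640417_ag.Tg.LefW

/-!
# Places which decide: the main theorem with general conditions on the constituents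
-/

set_option autoImplicit false

namespace Pool.Agent.Lib.MP_640417_ag.Tg

open Module TensorProduct Pool.Agent.Lib.MP_640417_ag Pool.Agent.Lib.MP_640417_ag.Tor
  Pool.Agent.Lib.MP_640417_ag.Lef Pool.Agent.Lib.MP_640417_ag.Frob
  Pool.Agent.Lib.MP_640417_ag.Glob Pool.Agent.Lib.MP_640417_ag.Ty
  Pool.Agent.Lib.MP_640417_ag.Ctl Pool.Agent.Lib.MP_640417_ag.Gen4
  Pool.Agent.Lib.MP_640417_ag.Dfr

open Pool.Agent.Lib.MP_640417_ag.Four (Semisimple NoExotic Dv)

theorem allW : SAllW :=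
  pAllW (pBlkW pPMBW pIdem) (pSlW pIdemOne (pCls pRad pJm pFrame pClsA pClsB)) (pRkW pIdemOne)
    pairG (pGourG perf simp' pIrrB)

theorem lefW : SLefW :=
  pLefW (pFullW pIrrE pDualE (pTwistE pIrrE pDualE) allW) Tg.pSplit pCcL pDescT

variable (l : ℕ) [Fact l.Prime] {Γ : Type} [Group Γ]
    [TopologicalSpace Γ] [IsTopologicalGroup Γ] [CompactSpace Γ] {V : Type} [AddCommGroup V]
    [Module ℚ_[l] V] [FiniteDimensional ℚ_[l] V] (ρ : H1Rep Γ ℚ_[l] V)

/-- Good constituents and no twists: the Lefschetz Lie algebra kills what the center kills. -/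
theorem lef_of_const (hss : Semisimple ρ) (h3 : NoTypeIII ρ) (K : Type) [Field K]
    [Algebra ℚ_[l] K] [IsAlgClosed K] (hT : ConstG (ρ.form.baseChange K) (LieK l ρ K))
    (hN : NoTwist (ρ.form.baseChange K) (LieK l ρ K)) (n i : ℕ) : LefCond ρ n i := by
  intro x hx hz X hX
  obtain ⟨R, h1, h2, h3'⟩ := exists_coord ρ (Module.finBasis ℚ_[l] V)
  exact kills_of_mem l ρ _ R h1 h2 h3' X
    (lefW l Γ V ρ hss h3 K hT hN _ (Module.finBasis ℚ_[l] V) R h1 h3' X hX) n i x hx hz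

/-- **Places decide.** -/
theorem noExotic_iff_of_const (hss : Semisimple ρ) (h3 : NoTypeIII ρ) (K : Type) [Field K]
    [Algebra ℚ_[l] K] [IsAlgClosed K] (hT : ConstG (ρ.form.baseChange K) (LieK l ρ K)) :
    NoExotic ρ ↔ NoTwist (ρ.form.baseChange K) (LieK l ρ K) ∧ ¬ WeilRel ρ := by
  have hlg : NoExotic ρ ↔ DivCond ρ 4 2 ∧ ¬ WeilRel ρ := (local_global l ρ hss h3).out 0 1 rfl rfl
  rw [hlg]
  refine and_congr_left fun _ => ⟨fun h => ?_, fun h => ?_⟩
  · exact noTwist_of_lef l ρ pCcL pNtK ntA hss h3 K (lef_of_div l ρ h)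
  · exact div_of_lef l ρ hss h3 (lef_of_const l ρ hss h3 K hT h 4 2)

/-- **Places decide; without factors of type IV there are no conditions.** -/
theorem noExotic_of_const_real (hss : Semisimple ρ) (hr : RealType ρ) (K : Type) [Field K]
    [Algebra ℚ_[l] K] [IsAlgClosed K] (hT : ConstG (ρ.form.baseChange K) (LieK l ρ K)) :
    NoExotic ρ := by
  refine (noExotic_iff_of_const l ρ hss (noTypeIII_of_real hr) K hT).mpr
    ⟨fun W W' hW _ hnd => ?_, not_weilRel_of_real hr⟩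
  exact absurd (dualMod_of_real l ρ hss hr K W hW) hnd

end Pool.Agent.Lib.MP_640417_ag.Tg
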