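import Pool.Agent.Lib.MP_640417_ag.Tg.SpecR

/-!
# Toric places, no factors of type III: the converse (twists give exotic classes), statements with proofs

Every statement is a proposition `SName`; the module `Tg/Name.lean` proves `pName : SName`, or, if the
docstring names other statements, `pName` takes these as hypotheses. `Skew` is `Tor.Skew` (there is also a
`Four.Skew`, so do not open the namespace `Four` completely).
-/

set_option autoImplicit false

namespace Pool.Agent.Lib.MP_640417_ag.Tg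

open Module TensorProduct Pool.Agent.Lib.MP_640417_ag Pool.Agent.Lib.MP_640417_ag.Tor
  Pool.Agent.Lib.MP_640417_ag.Lef Pool.Agent.Lib.MP_640417_ag.Frob
  Pool.Agent.Lib.MP_640417_ag.Glob Pool.Agent.Lib.MP_640417_ag.Ty
  Pool.Agent.Lib.MP_640417_ag.Ctl

/-- Every skew operator which commutes with `C` is in `L`, up to scalars and to a central element of `C`. -/
def LefAll {K V : Type} [Field K] [AddCommGroup V] [Module K V] (ψ : LinearMap.BilinForm K V)
    (L : Submodule K (Module.End K V)) (C : Subalgebra K (Module.End K V)) : Prop :=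
  ∀ X : Module.End K V, Skew ψ X → (∀ c ∈ C, X * c = c * X) →
    ∃ z ∈ C, (∀ c ∈ C, z * c = c * z) ∧ Skew ψ z ∧ X - z ∈ skp ψ L

/-- **No form of dimension at least three is preserved, up to scalars, by all operators.**
Proof. `{x | γ x y = 0 for all y}` is stable under all operators, so it is `0` (`γ ≠ 0`). For a functional `φ` and a vector `u` with
`φ u = 0` let `Y x = φ x • u`, `s` its scalar: `φ x * γ u y + φ y * γ x u = s * γ x y`. If `s ≠ 0` (for some `φ ≠ 0`) then `γ` vanishes on
`ker φ × ker φ`; for `x ∈ ker φ` the functional `γ x ·` vanishes on `ker φ`, so it is a multiple of `φ`; so `x ↦ γ x ·` maps the space `ker φ` of dimension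
`≥ 2` injectively to a line, a contradiction. So `s = 0`; taking `x` with `φ x = 1`: `γ u y = - γ x u * φ y`. Fix `u ≠ 0` and two linearly independent
functionals `φ`, `φ'` which vanish at `u` (dimension at least `3`): `γ u ·` is a multiple of both, so it is `0`, so `u = 0`, a contradiction. -/
def SGam : Prop :=
  ∀ (K U : Type) [Field K] [AddCommGroup U] [Module K U] [FiniteDimensional K U],
    3 ≤ finrank K U → ∀ γ : LinearMap.BilinForm K U, γ ≠ 0 →
      (∀ Y : Module.End K U, ∃ s : K, ∀ x y, γ (Y x) y + γ x (Y y) = s * γ x y) → False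

/-- **Operators on a block which is not self-dual extend.**
Proof. Let `Y'` be the adjoint of `Y` (`ψ (Y x) y = ψ x (Y' y)`; exists by nondegeneracy, `Adj_equiv` in `Tor/Adj.lean`), `Y' = ε (st j) Y' ε (st j)`, and
`Y₀ = Y - Y'`, skew (use `anti`), commuting with all `ε k` (`st j ≠ j`). `X = ext u v Y₀` (`Lef/Defs.lean`) is skew and commutes with `C` (`ext_skew`, `ext_comm` in
`Lef/Ext.lean`; `Four.Skew` and `Tor.Skew` differ only by the sign on one side). For a representative `k` (`r k = k`): `ε k X = ε k Y₀ ε k` by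
`UV.ur`, `UV.vr`, `Sys.orth`. -/
def SGlW : Prop :=
  ∀ (K V : Type) [Field K] [AddCommGroup V] [Module K V] [FiniteDimensional K V]
    (ψ : LinearMap.BilinForm K V) (_ : ∀ x y, ψ x y = - ψ y x)
    (_ : ∀ x, (∀ y, ψ x y = 0) → x = 0) (C : Subalgebra K (Module.End K V)) (N : ℕ)
    (st : Fin N → Fin N) (ε : Fin N → Module.End K V) (_ : Sys ψ C N st ε) (r : Fin N → Fin N)
    (u v : Fin N → Module.End K V) (_ : UV ψ C N st ε r u v) (j : Fin N) (Y : Module.End K V),
    r j = j → st j ≠ j → ε j * Y * ε j = Y →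
      ∃ X : Module.End K V, Skew ψ X ∧ (∀ c ∈ C, X * c = c * X) ∧ ε j * X = Y ∧
        ∀ k, r k = k → k ≠ j → k ≠ st j → ε k * X = 0

/-- **Irreducible submodules are isomorphic to blocks** (from `SIrrE`).
Proof. Some `ε j` does not vanish on `W` (`sum`). `a = r j`. If `x ∈ W`, `v j x = 0` then `ε j x = u j (v j x) = 0`; so `v j` does not vanish on `W`, the kernel of
`v j` in `W` is `L`-stable (`v j ∈ C` commutes with `L`), so `v j` is injective on `W`; `v j W ≤ range (ε a)` (`ev`) is `L`-stable and nonzero, so it is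
`range (ε a)` (`SIrrE`). Let `d : V → V` be `ε a` followed by the inverse of `v j : W ≃ range (ε a)`. `d` commutes with `X ∈ L`: `d X y` and `X d y` are in `W` and
`v j (X d y) = X v j d y = X ε a y = ε a X y = v j (d X y)`. So `d ∈ C` (`bic`). -/
def SRedW : Prop :=
  ∀ (K V : Type) [Field K] [AddCommGroup V] [Module K V] [FiniteDimensional K V]
    (ψ : LinearMap.BilinForm K V) (L : Submodule K (Module.End K V))
    (C : Subalgebra K (Module.End K V)) (_ : Cc ψ L C) (N : ℕ) (st : Fin N → Fin N)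
    (ε : Fin N → Module.End K V) (_ : Sys ψ C N st ε) (r : Fin N → Fin N)
    (u v : Fin N → Module.End K V) (_ : UV ψ C N st ε r u v) (W : Submodule K V), IrrMod L W →
      ∃ a, r a = a ∧ ∃ w ∈ C, ∃ d ∈ C, w * d = ε a ∧ ε a * w = w ∧ d * ε a = d ∧
        (∀ y, d y ∈ W) ∧ ∀ x ∈ W, d (w x) = x

/-- **Self-twists are trivial** (from `SIrrE`).
Proof. The kernel of `c` in `range (ε a)` is `L`-stable (`c X x = X c x + s c x`), so `c` is injective, so bijective on `range (ε a)`; let `c'` be the inverse,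
`c' = ε a c' ε a`, `c c' = ε a = c' c`. From `c X - X c = s c`: `c X c' - X ε a = s ε a`; traces: `tr (c X c') = tr (X c' c) = tr (X ε a)`, so `s rk (ε a) = 0`
(`tr_idem`), `s = 0`. -/
def STwS : Prop :=
  ∀ (K V : Type) [Field K] [CharZero K] [AddCommGroup V] [Module K V] [FiniteDimensional K V]
    (ψ : LinearMap.BilinForm K V) (L : Submodule K (Module.End K V))
    (C : Subalgebra K (Module.End K V)) (_ : Cc ψ L C) (N : ℕ) (st : Fin N → Fin N)
    (ε : Fin N → Module.End K V) (_ : Sys ψ C N st ε) (a : Fin N) (c : Module.End K V),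
    ε a * c * ε a = c → c ≠ 0 → (∀ X ∈ L, ∃ s : K, c * X - X * c = s • c) →
      ∀ X ∈ L, c * X = X * c

/-- **Twists for `L` are twists for the Lefschetz Lie algebra.**
Proof. `X - z + s₀ ∈ L` for a scalar `s₀` (definition of `skp`). `c z = c ε a z = c ε a z ε a = t c` (`Sys.one`, `z` commutes with `ε a ∈ C`), and `z c = t' c` in the
same way. -/
def STwL : Prop :=
  ∀ (K V : Type) [Field K] [AddCommGroup V] [Module K V]
    (ψ : LinearMap.BilinForm K V) (L : Submodule K (Module.End K V))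
    (C : Subalgebra K (Module.End K V)) (_ : LefAll ψ L C) (N : ℕ) (st : Fin N → Fin N)
    (ε : Fin N → Module.End K V) (_ : Sys ψ C N st ε) (a b : Fin N) (c : Module.End K V),
    ε b * c * ε a = c → (∀ X ∈ L, ∃ s : K, c * X - X * c = s • c) →
      ∀ X : Module.End K V, Skew ψ X → (∀ c ∈ C, X * c = c * X) → ∃ s : K, c * X - X * c = s • c

/-- **No twists to the dual** (from `SIrrE`, `SGam`, `SGlW`, `STwL`).
Proof. Suppose `c ≠ 0`. `U = range (ε a)` (as a type), `γ x y = ψ (c x) y` on `U`; `γ ≠ 0`: `ψ (c x) y = ψ (ε (st a) c x) y = ψ (c x) (ε a y)` (`adj`, `inv`). For an operator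
`Y` of `U` let `Y' = Y` extended by `0`, i.e. `Y' = incl Y (ε a)`, and `X` from `SGlW` with `ε a X = Y'`. `STwL`: `c X - X c = s c`. For `x, y ∈ U`: `Y' x = ε a X x = X x`
(`X` commutes with `ε a`), so `γ (Y x) y = ψ (c X x) y = ψ (X c x) y + s ψ (c x) y = - ψ (c x) (X y) + s γ x y = - γ x (Y y) + s γ x y`. `SGam`. -/
def STwD : Prop :=
  ∀ (K V : Type) [Field K] [AddCommGroup V] [Module K V] [FiniteDimensional K V]
    (ψ : LinearMap.BilinForm K V) (L : Submodule K (Module.End K V))
    (C : Subalgebra K (Module.End K V)) (_ : Cc ψ L C) (_ : LefAll ψ L C) (N : ℕ)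
    (st : Fin N → Fin N) (ε : Fin N → Module.End K V) (_ : Sys ψ C N st ε)
    (r : Fin N → Fin N) (u v : Fin N → Module.End K V) (_ : UV ψ C N st ε r u v) (a : Fin N)
    (c : Module.End K V), r a = a → st a ≠ a → 3 ≤ rk (ε a) → ε (st a) * c * ε a = c →
      (∀ X ∈ L, ∃ s : K, c * X - X * c = s • c) → c = 0

/-- **No twists to other blocks** (from `SIrrE`, `SGlW`, `STwL`).
Proof. Suppose `c ≠ 0`; the kernel of `c` in `range (ε a)` is `L`-stable, so `c` is injective on `range (ε a)`. For every `Y = ε a Y ε a` take `X` from `SGlW`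
(`ε a X = Y`, `ε b X = 0`); `STwL`: `c X - X c = s c`, and `c X = c ε a X = c Y`, `X c = X ε b c = ε b X c = 0`; so `c Y = s c`, `Y = s ε a` (injectivity). So all operators
of `range (ε a)` are scalars, and the dimension is at most `1`, a contradiction. -/
def STwN : Prop :=
  ∀ (K V : Type) [Field K] [AddCommGroup V] [Module K V] [FiniteDimensional K V]
    (ψ : LinearMap.BilinForm K V) (L : Submodule K (Module.End K V))
    (C : Subalgebra K (Module.End K V)) (_ : Cc ψ L C) (_ : LefAll ψ L C) (N : ℕ)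
    (st : Fin N → Fin N) (ε : Fin N → Module.End K V) (_ : Sys ψ C N st ε)
    (r : Fin N → Fin N) (u v : Fin N → Module.End K V) (_ : UV ψ C N st ε r u v) (a b : Fin N)
    (c : Module.End K V), r a = a → r b = b → b ≠ a → b ≠ st a → st a ≠ a → 2 ≤ rk (ε a) →
      ε b * c * ε a = c → (∀ X ∈ L, ∃ s : K, c * X - X * c = s • c) → c = 0

/-- **The converse, abstract** (from `SIrrE`, `SRedW`, `STwS`, `STwD`, `STwN`).
Proof. Let `W`, `W'`, `c` be as in `NoTwist`; `SRedW` for `W`, `W'` gives `a`, `w`, `d` and `b`, `w'`, `d'`. `c₁ = w' c d`: `ε b c₁ ε a = c₁`; `c₁ ≠ 0`: if `x ∈ W`, `c x ≠ 0` then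
`c₁ (w x) = w' (c x) ≠ 0` (`d' w'` is the identity on `W'`). For `X ∈ L`: `c₁ X - X c₁ = s c₁` (`w'`, `d` commute with `X`, `d y ∈ W`). `finrank W = rk (ε a)` (`w : W → range (ε a)` is
bijective with inverse `d`). (1) `st a ≠ a`: otherwise `β x y = ψ (w x) (w y)` shows `DualMod ψ L W W` (not zero: `ε a` is then self-adjoint,
`ψ (ε a x) y = ψ (ε a x) (ε a y)` is not zero for some `x`, `y`, and `ε a x = w (d x)`). (2) `b = a`: `STwS` for `c₁`: `c₁ X = X c₁`, so for `x ∈ W`:
`w' (c X x) = w' c d X w x = c₁ X (w x) = X c₁ (w x) = w' (X c x)`, and `d'`: `c (X x) = X (c x)`. (3) `b = st a`: if `rk (ε a) = 2` then `β x y = ψ (w x) (w' y)` shows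
`DualMod ψ L W W'` (not zero: `ψ (ε a x) y = ψ (ε a x) (ε (st a) y)`); otherwise `rk (ε a) ≥ 3`, `STwD` gives `c₁ = 0`. (4) otherwise `STwN`. -/
def SNtA : Prop :=
  ∀ (K V : Type) [Field K] [CharZero K] [AddCommGroup V] [Module K V] [FiniteDimensional K V]
    (ψ : LinearMap.BilinForm K V) (L : Submodule K (Module.End K V))
    (C : Subalgebra K (Module.End K V)) (_ : Cc ψ L C) (_ : LefAll ψ L C) (N : ℕ)
    (st : Fin N → Fin N) (ε : Fin N → Module.End K V) (_ : Sys ψ C N st ε)
    (r : Fin N → Fin N) (u v : Fin N → Module.End K V) (_ : UV ψ C N st ε r u v), NoTwist ψ L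

/-- **Base change of the Lefschetz Lie algebra.**
Proof. Let `X` be skew over `K`, commuting with `cenK`. For a basis `b` of `K` over `ℚ_[l]`: `X = ∑ b t • (X_t).baseChange K`, `X_t = cp (b.coord t) X` (`sum_cp` in `Four/Span.lean`), and
`Lefschetz ρ X_t` (as in the proof of `skew_K`, `Lef/SkewL.lean`; a `c` with `CommF ρ c` commutes with `U`). So `toMatrix X_t = A_t + Z_t` with `A_t ∈ Hh R l`, `Z_t ∈ Zm R`;
`Z_t` is the matrix of some `z_t` with `CentralSkew ρ z_t` (`coord_zm` in `Ctl/Main.lean`), `A_t` the matrix of some `a_t`, skew (`coord_skew`), with `a_t + s` in the span of `Tangent l ρ`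
(`CoordT_tan` in `Tor/CoordT.lean`). `z = ∑ b t • (z_t).baseChange K`: in `cenK` (`CommF ρ z_t`, definition of `U`), skew, and it commutes with `cenK` (its elements are
`K`-combinations of `c.baseChange K` with `CommF ρ c`). `X - z = ∑ b t • (a_t).baseChange K ∈ skp`. -/
def SNtK : Prop :=
  ∀ (l : ℕ) [Fact l.Prime] (Γ : Type) [Group Γ] [TopologicalSpace Γ] [IsTopologicalGroup Γ]
    [CompactSpace Γ] (V : Type) [AddCommGroup V] [Module ℚ_[l] V] [FiniteDimensional ℚ_[l] V]
    (ρ : H1Rep Γ ℚ_[l] V) (U : OpenSubgroup Γ)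
    (_ : ∀ γ, γ ∈ U ↔ ∀ c, CommF ρ c → c * ρ.T γ = ρ.T γ * c) (K : Type) [Field K]
    [Algebra ℚ_[l] K] (I : Type) [Fintype I] [DecidableEq I] (e : Basis I ℚ_[l] V)
    (R : MRep Γ ℚ_[l] I) (_ : ∀ γ, R.M γ = LinearMap.toMatrix e e (ρ.T γ))
    (_ : ∀ i j, R.J i j = ρ.form (e i) (e j)),
    (∀ X : Module.End ℚ_[l] V, Lefschetz ρ X → LinearMap.toMatrix e e X ∈ Hp R l) →
      LefAll (ρ.form.baseChange K) (LieK l ρ K) (cenK K (res ρ U).T)

end Pool.Agent.Lib.MP_640417_ag.Tg
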