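import Pool.Agent.Lib.MP_640417_ag.Tg.SpecX
import Pool.Agent.Lib.MP_640417_ag.Tg.SpecC

/-!
# Elements of the group which act with small rank: statements with proofs

Every statement is a proposition `SName`; the module `Tg/Name.lean` proves `pName : SName`, or, if the
docstring names other statements, `pName` takes these as hypotheses. Notation: `[X, Y] = X Y - Y X`,
`v ⊗ φ` is the operator `u ↦ φ u • v`. `Skew` is `Tor.Skew` (there is also a `Four.Skew`, so do not open the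
namespace `Four` completely).
-/

set_option autoImplicit false

namespace Pool.Agent.Lib.MP_640417_ag.Tg

open Module TensorProduct Pool.Agent.Lib.MP_640417_ag Pool.Agent.Lib.MP_640417_ag.Tor
  Pool.Agent.Lib.MP_640417_ag.Lef Pool.Agent.Lib.MP_640417_ag.Frob
  Pool.Agent.Lib.MP_640417_ag.Glob Pool.Agent.Lib.MP_640417_ag.Ty
  Pool.Agent.Lib.MP_640417_ag.Ctl

open Pool.Agent.Lib.MP_640417_ag.Four (Semisimple)

section defs

variable {K U : Type} [Field K] [AddCommGroup U] [Module K U]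

/-- `Θ` is invertible with inverse `Θ'` and normalizes `g`. -/
structure Nrm (g : Submodule K (Module.End K U)) (Θ Θ' : Module.End K U) : Prop where
  r : Θ * Θ' = 1
  l : Θ' * Θ = 1
  n : ∀ X ∈ g, Θ * X * Θ' ∈ g
  n' : ∀ X ∈ g, Θ' * X * Θ ∈ g

/-- `g` is an irreducible Lie algebra of similitudes of the symplectic space `(U, β)`. -/
structure Sim (β : LinearMap.BilinForm K U) (g : Submodule K (Module.End K U)) : Prop where
  alt : ∀ x, β x x = 0
  nd : ∀ x, (∀ y, β x y = 0) → x = 0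
  lie : Lie g
  irr : Irr g ⊤
  mult : ∀ X ∈ g, ∃ c : K, ∀ x y, β (X x) y + β x (X y) = c * β x y

/-- The operators which `L` induces on `W`. -/
def LW (L : Submodule K (Module.End K U)) (W : Submodule K U) : Submodule K (Module.End K W) where
  carrier := {Y | ∃ X ∈ L, ∀ x : W, X x = Y x}
  add_mem' := by
    rintro Y Z ⟨X, hX, h1⟩ ⟨X', hX', h2⟩
    exact ⟨X + X', add_mem hX hX', fun x => by
      rw [LinearMap.add_apply, h1, h2, LinearMap.add_apply, Submodule.coe_add]⟩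
  zero_mem' := ⟨0, zero_mem _, fun x => by simp⟩
  smul_mem' := by
    rintro c Y ⟨X, hX, h1⟩
    exact ⟨c • X, Submodule.smul_mem _ _ hX, fun x => by
      rw [LinearMap.smul_apply, h1, LinearMap.smul_apply, Submodule.coe_smul]⟩

end defs

/-! ### Pseudo-reflections -/

/-- **Operators of trace zero are sums of brackets of operators of trace zero.**
Proof. Let `b` be a basis of `U` (`Module.finBasis K U`), `E_ij` the operator `u ↦ b.coord j u • b i`; `E_ij E_kl = δ_jk E_il`, `tr E_ij = δ_ij`. For `i ≠ j`: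
`E_ij = 1/2 [E_ii - E_jj, E_ij]`, `E_ii - E_jj = [E_ij, E_ji]`. `X = ∑_(i ≠ j) x_ij E_ij + ∑_i x_ii (E_ii - E_(i₀ i₀))` if `tr X = ∑ x_ii = 0`. (If `U = 0` or
the dimension is one, then `X = 0`.) -/
def SSlPf : Prop :=
  ∀ (K U : Type) [Field K] [CharZero K] [AddCommGroup U] [Module K U] [FiniteDimensional K U]
    (X : Module.End K U), tr X = 0 → X ∈ Submodule.span K
      {Z | ∃ Y Y' : Module.End K U, tr Y = 0 ∧ tr Y' = 0 ∧ Z = Y * Y' - Y' * Y}

/-- **Pseudo-reflections, order not two.**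
Proof. `R = Θ - 1 = v ⊗ φ` (rank one, see `rkw_one` in `Tg/RkW.lean`), `v ≠ 0`, `φ ≠ 0`, `R R = s R` with `s = φ v`. `a = 1 + s ≠ 0` (otherwise `Θ v = 0`). `Θ' = 1 - a⁻¹ R` (`(1 + R)(1 - a⁻¹ R) = 1`).
`Θ Θ = 1 + (2 + s) R ≠ 1` gives `a ≠ -1`. `Θ X Θ' - Θ' X Θ = (1 + a⁻¹) (R X - X R)`. -/
def SNrmR : Prop :=
  ∀ (K U : Type) [Field K] [AddCommGroup U] [Module K U] [FiniteDimensional K U]
    (g : Submodule K (Module.End K U)) (Θ Θ' : Module.End K U), Nrm g Θ Θ' → rk (Θ - 1) = 1 →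
    Θ * Θ ≠ 1 → ∀ X ∈ g, (Θ - 1) * X - X * (Θ - 1) ∈ g

/-- **An operator of rank one which normalizes an irreducible Lie algebra** (from `SSlPf`, `SIdemOne`, `SCls`).
Proof. `g₂ = g ⊔ span {R} ⊔ span {1}` is a Lie algebra with `[g₂, g₂] ⊆ g`, irreducible. `R = v ⊗ φ`. If `φ v ≠ 0`: `SIdemOne` (`T = R`, `a = 0`): all operators of trace zero are in `g₂`. If
`φ v = 0`: `R R = 0`, `SCls` for `g₂`, `e = R`: all operators of trace zero are in `g₂`, or there is `ω` (and `g ⊆ g₂`). In the first case the operators of trace zero are in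
`span [g₂, g₂] ⊆ g` by `SSlPf`. -/
def SNrmOne : Prop :=
  ∀ (K U : Type) [Field K] [IsAlgClosed K] [CharZero K] [AddCommGroup U] [Module K U]
    [FiniteDimensional K U] (g : Submodule K (Module.End K U)) (_ : Lie g) (_ : Irr g ⊤)
    (R : Module.End K U), rk R = 1 → (∀ X ∈ g, R * X - X * R ∈ g) →
    (∀ X, tr X = 0 → X ∈ g) ∨ (3 ≤ finrank K U ∧
      ∃ ω : LinearMap.BilinForm K U, (∀ x, (∀ y, ω x y = 0) → x = 0) ∧
      ∀ X ∈ g, ∃ c : K, ∀ x y, ω (X x) y + ω x (X y) = c * ω x y)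

/-- **Reflections** (from `SCls`).
Proof. `R = 1 - Θ = v ⊗ φ`, `R R = 2 R`, so `φ v = 2`. `Z = ker φ`, `Θ v = - v`, `Θ z = z` for `z ∈ Z`, `Θ' = Θ`. For `X ∈ g`: `X = X⁺ + X⁻` with `X^± = (X ± Θ X Θ)/2 ∈ g`. Let `g⁻ = {X ∈ g | Θ X Θ = - X}`,
`g⁺ = {X ∈ g | Θ X = X Θ}`. For `X ∈ g⁻`: `X v ∈ Z`, `X z = α_X(z) v` for `z ∈ Z`. For `Y ∈ g⁺`: `Y v = y v`, `Y Z ⊆ Z`.
(1) `{X v | X ∈ g⁻} = Z`: `K v + {X v | X ∈ g⁻}` is `g`-stable (`Y X v = [Y, X] v + y X v`, `X X' v ∈ K v`) and contains `v`, so it is `U`. (2) `{z ∈ Z | α_X(z) = 0 for all X ∈ g⁻}`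
is `g`-stable (`X Y z = [X, Y] z + Y X z`) and does not contain `v`, so it is `0`. (3) If some `X ∈ g⁻`, `X ≠ 0`, has `X v = 0` or `α_X = 0` then `X X = 0`, `rk X = 1`, and `SCls` gives the
claim. (4) Otherwise for `z ∈ Z` there is exactly one `E_z ∈ g⁻` with `E_z v = z`; it depends linearly on `z`; let `λ(z, z') = α_(E_z)(z')`. `λ(z, ·) = 0` implies `z = 0`.
(5) For `Y ∈ g⁺`: `[Y, E_w] = E_(Y w - y w)` (both are in `g⁻`, apply to `v`); applied to `z ∈ Z`: `λ(Y w, z) + λ(w, Y z) = 2 y λ(w, z)`. (6) `λ` is symmetric: for `Y = [E_u, E_u'] ∈ g⁺` one has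
`y = λ(u, u') - λ(u', u) =: δ(u, u')`, `Y z = λ(u', z) u - λ(u, z) u'`, and (5) becomes `λ(δ(u', w) u - δ(u, w) u' - 2 δ(u, u') w, z) = 0`, so by (4) `δ(u', w) u - δ(u, w) u' - 2 δ(u, u') w = 0`; `w = u`:
`- 3 δ(u, u') u = 0`. (7) `ω(t v + z, t' v + z') = - t t' + λ(z, z')` (on `U`: `t = φ x / 2`, `z = x - t v`) is nondegenerate; for `Y ∈ g⁺` the scalar is `2 y`, for `X ∈ g⁻` it is `0`. -/
def SRefl : Prop :=
  ∀ (K U : Type) [Field K] [IsAlgClosed K] [CharZero K] [AddCommGroup U] [Module K U]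
    [FiniteDimensional K U] (g : Submodule K (Module.End K U)) (_ : Lie g) (_ : Irr g ⊤)
    (Θ Θ' : Module.End K U), Nrm g Θ Θ' → rk (Θ - 1) = 1 → Θ * Θ = 1 → 3 ≤ finrank K U →
    (∀ X, tr X = 0 → X ∈ g) ∨ ∃ ω : LinearMap.BilinForm K U, (∀ x, (∀ y, ω x y = 0) → x = 0) ∧
      ∀ X ∈ g, ∃ c : K, ∀ x y, ω (X x) y + ω x (X y) = c * ω x y

/-! ### Symplectic spaces -/

/-- **The multiplier of a similitude of small rank.**
Proof. The kernel `N` of `Θ - 1` has dimension `n - rk (Θ - 1) > n / 2`. If `β` vanishes on `N × N` then `N` is contained in its orthogonal space `N^⊥` of dimension `n - dim N < dim N`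
(nondegenerate form: `LinearMap.BilinForm.finrank_orthogonal`, or: `x ↦ β x ·` restricted to the range of `Θ - 1`...), a contradiction. For `x, y ∈ N` with `β x y ≠ 0`:
`β x y = β (Θ x) (Θ y) = μ β x y`. -/
def SMulOne : Prop :=
  ∀ (K U : Type) [Field K] [AddCommGroup U] [Module K U] [FiniteDimensional K U]
    (β : LinearMap.BilinForm K U) (_ : ∀ x, β x x = 0) (_ : ∀ x, (∀ y, β x y = 0) → x = 0)
    (Θ : Module.End K U) (μ : K), (∀ x y, β (Θ x) (Θ y) = μ * β x y) →
    2 * rk (Θ - 1) < finrank K U → μ = 1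

/-- **A nilpotent operator of small rank which normalizes `g`.** (Uses `pMain` of `Tor/Main.lean`, `pPerf`, `pSpan`, `pPartner`.)
Proof. `g₀ = skp β g` (`Tor/SpecL.lean`), `Block_lie`, `Block_split`, `Block_stable` (`Tor/Block.lean`); `g₁ = g₀ ⊔ span {N}`: `Dat β g₁` (`Dat` in `Tor/Defs.lean`): skew; a Lie algebra: `[N, X] ∈ g₀` for `X ∈ g₀`
(`X + s ∈ g`, `[N, X] = [N, X + s] ∈ g`, and it is skew); irreducible as `g₀` is (`Block_stable`). `pMain` for `g₁`, `N` (first case): all skew operators are in `g₁`. The skew operators are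
sums of brackets of skew operators (`pPerf pSpan pPartner` for `V := U`, `p := 1`, `t := True`; `2 ≤ finrank K U` because of `N ≠ 0` and `N N = 0`; skew operators have trace zero, `tr_skew`), and `[g₁, g₁] ⊆ g`:
for `X, Y ∈ g₀` with `X + s, Y + t ∈ g`: `[X, Y] = [X + s, Y + t] ∈ g`. -/
def SNrmS : Prop :=
  ∀ (K U : Type) [Field K] [IsAlgClosed K] [CharZero K] [AddCommGroup U] [Module K U]
    [FiniteDimensional K U] (β : LinearMap.BilinForm K U) (g : Submodule K (Module.End K U)),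
    Sim β g → ∀ N, Skew β N → N * N = 0 → N ≠ 0 → rk N ≤ 2 → (∀ X ∈ g, N * X - X * N ∈ g) →
    ∀ Y, Skew β Y → Y ∈ g

/-- **Unipotent isometries of small rank** (from `SNrmS`).
Proof. `N = Θ - 1`. `β (N x) (N y) = 0` and `β (Θ x) (Θ y) = β x y` give `β (N x) y + β x (N y) = 0`; `β (N N x) y = - β (N x) (N y) = 0`, so `N N = 0`, `Θ' = 1 - N`. `Θ X Θ' - Θ' X Θ = 2 [N, X]`. `SNrmS`. -/
def SUni : Prop :=
  ∀ (K U : Type) [Field K] [IsAlgClosed K] [CharZero K] [AddCommGroup U] [Module K U]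
    [FiniteDimensional K U] (β : LinearMap.BilinForm K U) (g : Submodule K (Module.End K U)),
    Sim β g → ∀ Θ Θ', Nrm g Θ Θ' → (∀ x y, β (Θ x) (Θ y) = β x y) → Θ ≠ 1 → rk (Θ - 1) ≤ 2 →
    (∀ x y, β ((Θ - 1) x) ((Θ - 1) y) = 0) → ∀ Y, Skew β Y → Y ∈ g

/-- A semisimple isometry with eigenvectors `p`, `q` (`Θ p = a p`, `Θ q = a⁻¹ q`), which is the identity on the orthogonal space
of `p`, `q`. -/
structure Rot {K U : Type} [Field K] [AddCommGroup U] [Module K U] (β : LinearMap.BilinForm K U)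
    (Θ Θ' : Module.End K U) (p q : U) (a : K) : Prop where
  iso : ∀ x y, β (Θ x) (Θ y) = β x y
  pq : β p q = 1
  a0 : a ≠ 0
  a2 : a * a ≠ 1
  hp : Θ p = a • p
  hq : Θ q = a⁻¹ • q
  hz : ∀ x, β p x = 0 → β q x = 0 → Θ x = x

/-- **Eigenvalue not of order three: an element of degree one** (from `SNrmS`).
Proof. Let `π₁ x = - β q x • p`, `π₂ x = β p x • q`, `π₀ = 1 - π₁ - π₂` (projections: `β p q = 1`, `β q p = - 1`), `Θ = a π₁ + a⁻¹ π₂ + π₀`, `Θ' = a⁻¹ π₁ + a π₂ + π₀`. For an operator `D = Θ · Θ'`: `π_i X π_j` is an eigenvector with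
eigenvalue `a_i / a_j` (`a₁ = a`, `a₂ = a⁻¹`, `a₀ = 1`). The polynomial `(D - 1)(D - a⁻¹)(D - a²)(D - a⁻²)` in `D` maps `X ∈ g` to `c X₁`, `X₁ = π₁ X π₀ + π₀ X π₂`, `c = (a - 1)(a - a⁻¹)(a - a²)(a - a⁻²) ≠ 0` if `a³ ≠ 1`, so `X₁ ∈ g`.
With `w = π₀ X q`: `X₁ q = w`, `X₁ p = 0`, and for `x` with `β p x = β q x = 0`: `X₁ x = - β q (X x) • p` with `β q (X x) = - β (X q) x` (multiplier relation of `X`, `β q x = 0`) `= - β w x` (as `x` is orthogonal to `p`, `q`), so
`X₁ x = β w x • p`. So `X₁ x = β p x • w + β w x • p` for all `x`; skew, `X₁ X₁ = 0` (`β p w = 0 = β w w = β p p`), `rk X₁ ≤ 2`, and `[X₁, Y] ∈ g`. `SNrmS`. -/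
def SRotA : Prop :=
  ∀ (K U : Type) [Field K] [IsAlgClosed K] [CharZero K] [AddCommGroup U] [Module K U]
    [FiniteDimensional K U] (β : LinearMap.BilinForm K U) (g : Submodule K (Module.End K U)),
    Sim β g → ∀ Θ Θ', Nrm g Θ Θ' → ∀ p q a, Rot β Θ Θ' p q a → a * a * a ≠ 1 →
    (∃ X ∈ g, ∀ s t : K, X q ≠ s • p + t • q) → ∀ Y, Skew β Y → Y ∈ g

/-- **Eigenvalue of order three** (from `SNrmS`).
Proof. Notation as in `SRotA`; `a³ = 1`, so the eigenvalues of `D` are `1`, `a`, `a⁻¹` (different), and for `X ∈ g` the components `X₀ + ...`: `X = A + B + C` with `A, B, C ∈ g`, `D A = A`, `D B = a B`, `D C = a⁻¹ C`. `D B = a B` means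
`B = π₁ B π₀ + π₀ B π₂ + π₂ B π₁`, i.e. (with `w = B q`, orthogonal to `p`, `q`, and `B p = s q`): `B x = β p x • w + β w x • p - s β q x • q`. In the same way `C x = - β q x • w' + ... `: `C p = w'`, `C q = s' p`, `C x = c β w' x • q` on the orthogonal space of `p`, `q`.
(1) If some `B ∈ g`, `B ≠ 0`, `D B = a B`, has `s = 0`, then `B` is skew, `B B = 0`, `rk B ≤ 2`, and `SNrmS` gives the claim; the same for `C`. (2) Otherwise the spaces of these `B`, `C` have dimension at most one (`s` is injective); let `B`, `C` be generators (or `0`). For `A ∈ g`,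
`D A = A`: `A p ∈ K p`, `A q ∈ K q`, `[A, B] = t B`; applied to `q`: `A w ∈ K w`; in the same way `A w' ∈ K w'`. So the span of `p`, `q`, `w`, `w'` is stable under `g`, it is not `0`, and its dimension is at most `4 < finrank K U`: a contradiction. -/
def SRotB : Prop :=
  ∀ (K U : Type) [Field K] [IsAlgClosed K] [CharZero K] [AddCommGroup U] [Module K U]
    [FiniteDimensional K U] (β : LinearMap.BilinForm K U) (g : Submodule K (Module.End K U)),
    Sim β g → ∀ Θ Θ', Nrm g Θ Θ' → ∀ p q a, Rot β Θ Θ' p q a → a * a * a = 1 →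
    4 < finrank K U → ∀ Y, Skew β Y → Y ∈ g

/-- **Isometries of rank two** (from `SUni`, `SRotA`, `SRotB`).
Proof. Let `P` be the range of `Θ - 1`, of dimension two. `x ∈ ker (Θ - 1)` if and only if `β ((Θ - 1) y) x = 0` for all `y`: `β ((Θ - 1) y) x = β (Θ y) x - β (Θ y) (Θ x) = - β (Θ y) ((Θ - 1) x)` and `Θ` is surjective. If `β` vanishes on `P × P`: `SUni`.
Otherwise `β` is nondegenerate on `P` (alternating, dimension two) and `P ∩ ker (Θ - 1) = 0`. `Θ` maps `P` to `P`; let `p ∈ P` be an eigenvector, `Θ p = a p`, `a ≠ 1`; `q ∈ P` with `β p q = 1`; `p`, `q` is a basis of `P`, `Θ q = b q + t p`, `a b = 1` (`β (Θ p) (Θ q) = 1`).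
(1) `a a ≠ 1`: replace `q` by `q + (t / (a⁻¹ - a)) p`; then `Rot β Θ Θ' p q a` (the orthogonal space of `P` is `ker (Θ - 1)`). If `a³ = 1`: `SRotB`. Otherwise: if all `X ∈ g` satisfy `X q ∈ K p + K q` and `X p ∈ K p + K q` then `K p + K q` is `g`-stable, a contradiction to
irreducibility (`4 < finrank K U`). If some `X q` is not in `K p + K q`: `SRotA`. If some `X p` is not: `SRotA` for `Θ`, `Θ'` with `q`, `- p`, `a⁻¹` (`β q (- p) = 1`) in the roles of `p`, `q`, `a`. (2) `a a = 1`, so `a = - 1`, `Θ q = - q + t p`, `Θ Θ q = q - 2 t p`, `Θ Θ p = p`, and `Θ Θ = 1` on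
`ker (Θ - 1)`; `U = P + ker (Θ - 1)` (dimensions), so `t ≠ 0` as `Θ Θ ≠ 1`, the range of `Θ Θ - 1` is `K p`, and `SUni` for `Θ Θ`, `Θ' Θ'` (rank one, the range `K p` is isotropic). -/
def SRotTwo : Prop :=
  ∀ (K U : Type) [Field K] [IsAlgClosed K] [CharZero K] [AddCommGroup U] [Module K U]
    [FiniteDimensional K U] (β : LinearMap.BilinForm K U) (g : Submodule K (Module.End K U)),
    Sim β g → ∀ Θ Θ', Nrm g Θ Θ' → (∀ x y, β (Θ x) (Θ y) = β x y) → rk (Θ - 1) = 2 → Θ * Θ ≠ 1 →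
    4 < finrank K U → ∀ Y, Skew β Y → Y ∈ g

/-! ### From `V` to `W` -/

/-- **The Lie algebra on `W`.**
Proof. For `X ∈ L` the restriction `Y` of `X` to `W` (`LinearMap.restrict`) is in `LW L W`. Brackets: clear. A subspace `W₁` of `W` stable under `LW L W` gives the `L`-stable subspace `W₁.map W.subtype ≤ W` of `V`. -/
def SLWa : Prop :=
  ∀ (K V : Type) [Field K] [AddCommGroup V] [Module K V] (L : Submodule K (Module.End K V))
    (W : Submodule K V), Lie L → IrrMod L W → Lie (LW L W) ∧ Irr (LW L W) ⊤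

/-- **Similitude forms on a constituent which is not self-dual contradict `NoTwist`.**
Proof. By `Cc.proj` there is `π ∈ C` with range `W`, the identity on `W`. By nondegeneracy of `ψ` (`Adj_equiv` in `Tor/Adj.lean`, see `Tg/DualE.lean`) there is `c : V → V` with `ψ (c x) y = ω (π x) (π y)`. For `X ∈ L` with multiplier `m` for `ψ` and scalar `s` for `ω`
(`π` commutes with `X`): `ψ (c X x) y = ω (X π x) (π y) = s ω (π x) (π y) - ω (π x) (X π y) = s ψ (c x) y - ψ (c x) (X y) = (s - m) ψ (c x) y + ψ (X c x) y`. So `c X - X c = (s - m) c`. `W' = W.map c`: `c` is injective on `W` (`ω` is nondegenerate), so `W'` is irreducible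
(`IrrMod L W'`; a stable subspace of `W'` is `W''.map c` with `W'' ≤ W` stable), and `Twist L W W' c`. `NoTwist`: as `3 ≤ finrank K W`, `c X x = X c x` for `x ∈ W`, `X ∈ L`. Then `β x y = ψ (c x) y` shows `DualMod ψ L W W`: for `x, y ∈ W`:
`β (X x) y + β x (X y) = ψ (X c x) y + ψ (c x) (X y) = m ψ (c x) y`, and it is not zero (`β x y = ω x y` on `W`). A contradiction. -/
def STwW : Prop :=
  ∀ (K V : Type) [Field K] [AddCommGroup V] [Module K V] [FiniteDimensional K V]
    (ψ : LinearMap.BilinForm K V) (L : Submodule K (Module.End K V))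
    (C : Subalgebra K (Module.End K V)) (_ : Cc ψ L C) (_ : NoTwist ψ L) (W : Submodule K V),
    IrrMod L W → ¬ DualMod ψ L W W → 3 ≤ finrank K W → ∀ ω : LinearMap.BilinForm K W,
    (∀ x, (∀ y, ω x y = 0) → x = 0) →
    (∀ X ∈ LW L W, ∃ c : K, ∀ x y, ω (X x) y + ω x (X y) = c * ω x y) → False

/-- **The form on a self-dual constituent** (from `SIrrE`, `SRedW`, `SDualE`).
Proof. `SRedW`: `a`, `w`, `d`, `W ≅ range (ε a)`. `DualMod ψ L (range (ε a)) (range (ε a))` (pairing `β (d x) (d y)` if `β` is the pairing on `W`; `d` commutes with `L`), so `st a = a` (`SDualE`) and `ε a` is self-adjoint. `β x y = ψ (w x) (w y)` on `W`: alternating; nondegenerate: if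
`ψ (w x) (w y) = 0` for all `y ∈ W` then `ψ (w x) (ε a z) = 0` for all `z` (`ε a z = w (d z)`), so `ψ (ε a w x) z = ψ (w x) z = 0`, `w x = 0`, `x = d (w x) = 0`. Equivariant as `w ∈ C`. Uniqueness up to scalars: for another equivariant pairing `β'` (a form on `V`) let
`c = (β' on W transported)`: by `FX_pair` (`Tg/FullX.lean`) for the pairing `β' (d x) (d y)` on `range (ε a)` there is `t` with `β' (d x) (d y) = t ψ x y` for `x, y ∈ range (ε a)`; put `x = w x'`, `y = w y'`. -/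
def SSdW : Prop :=
  ∀ (K V : Type) [Field K] [AddCommGroup V] [Module K V] [FiniteDimensional K V]
    (ψ : LinearMap.BilinForm K V) (L : Submodule K (Module.End K V))
    (C : Subalgebra K (Module.End K V)) (_ : Cc ψ L C) (N : ℕ) (st : Fin N → Fin N)
    (ε : Fin N → Module.End K V) (_ : Sys ψ C N st ε) (r : Fin N → Fin N)
    (u v : Fin N → Module.End K V) (_ : UV ψ C N st ε r u v) (W : Submodule K V), IrrMod L W →
    DualMod ψ L W W → ∃ B : LinearMap.BilinForm K V,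
      (∀ x ∈ W, B x x = 0) ∧ (∀ x ∈ W, (∀ y ∈ W, B x y = 0) → x = 0) ∧
      (∀ X ∈ L, ∀ m : K, (∀ x y, ψ (X x) y + ψ x (X y) = m * ψ x y) →
        ∀ x ∈ W, ∀ y ∈ W, B (X x) y + B x (X y) = m * B x y) ∧
      ∀ B' : LinearMap.BilinForm K V, (∀ X ∈ L, ∀ m : K,
          (∀ x y, ψ (X x) y + ψ x (X y) = m * ψ x y) →
            ∀ x ∈ W, ∀ y ∈ W, B' (X x) y + B' x (X y) = m * B' x y) →
        ∃ t : K, ∀ x ∈ W, ∀ y ∈ W, B' x y = t * B x y

/-- **Elements of small rank: constituents which are not self-dual** (from `SNrmR`, `SNrmOne`, `SRefl`, `SLWa`, `STwW`).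
Proof. `θ` maps `W` to `W`, injective, so bijective (finite dimension), so `θ'` maps `W` to `W`. `c ≠ 0`: otherwise `finrank (W.map θ) = finrank W ≥ 3`. `Θ = c⁻¹ • θ` restricted to `W`, `Θ' = c • θ'` restricted to `W`: `Nrm (LW L W) Θ Θ'` and `rk (Θ - 1) = 1` (the image of the range of `Θ - 1` in `V` is
`W.map (θ - c)`). `SLWa`. If `Θ Θ ≠ 1`: `SNrmR`, `SNrmOne`; otherwise `SRefl`. The alternative with `ω` contradicts `STwW`. So `LW L W` contains all operators of trace zero of `W`, which gives `BigMod`. -/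
def SPlcA : Prop :=
  ∀ (K V : Type) [Field K] [IsAlgClosed K] [CharZero K] [AddCommGroup V] [Module K V]
    [FiniteDimensional K V] (ψ : LinearMap.BilinForm K V) (L : Submodule K (Module.End K V))
    (C : Subalgebra K (Module.End K V)) (_ : Cc ψ L C) (_ : NoTwist ψ L) (W : Submodule K V),
    IrrMod L W → ¬ DualMod ψ L W W → 3 ≤ finrank K W → ∀ θ θ' : Module.End K V, Nrm L θ θ' →
    (∀ x ∈ W, θ x ∈ W) → ∀ c : K, finrank K (W.map (θ - c • (1 : Module.End K V))) = 1 →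
    BigMod ψ L W

/-- **Elements of small rank: self-dual constituents** (from `SUni`, `SRotTwo`, `SMulOne`, `SLWa`, `SSdW`).
Proof. `B` from `SSdW`, `β` its restriction to `W`. The dimension of `W` is even (a symplectic space; or avoid this by the hypotheses). `Θ`, `Θ'` as in `SPlcA`. `B' x y = B (θ x) (θ y)` is equivariant on `W`: for `X ∈ L` with multiplier `m` let `X' = θ X θ' ∈ L`, `X' θ = θ X`; its multiplier is `m`:
`ψ (X' (θ x)) (θ y) + ψ (θ x) (X' (θ y)) = ψ (θ X x) (θ y) + ψ (θ x) (θ X y) = μ m ψ x y = m ψ (θ x) (θ y)` and `θ` is surjective. So `B (θ x) (θ y) = t B x y` on `W`, and `Θ` is a similitude with multiplier `t c⁻²`, which is `1` by `SMulOne` (rank `1`, `3 ≤ dim`; rank `2`, `5 ≤ dim`). `Sim β (LW L W)`: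
`SLWa`, `SSdW` (`Cc.mult`). Rank one: the range of `Θ - 1` is a line, so isotropic: `SUni`. Rank two: `SRotTwo` (`Θ Θ ≠ 1` by hypothesis). So all skew operators of `(W, β)` are in `LW L W`. `BigMod`: an operator `Y` of `W` which respects `B` is skew. -/
def SPlcB : Prop :=
  ∀ (K V : Type) [Field K] [IsAlgClosed K] [CharZero K] [AddCommGroup V] [Module K V]
    [FiniteDimensional K V] (ψ : LinearMap.BilinForm K V) (L : Submodule K (Module.End K V))
    (C : Subalgebra K (Module.End K V)) (_ : Cc ψ L C) (N : ℕ) (st : Fin N → Fin N)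
    (ε : Fin N → Module.End K V) (_ : Sys ψ C N st ε) (r : Fin N → Fin N)
    (u v : Fin N → Module.End K V) (_ : UV ψ C N st ε r u v) (W : Submodule K V),
    IrrMod L W → DualMod ψ L W W → 3 ≤ finrank K W → ∀ θ θ' : Module.End K V, Nrm L θ θ' →
    (∃ μ : K, ∀ x y, ψ (θ x) (θ y) = μ * ψ x y) →
    (∀ x ∈ W, θ x ∈ W) → ∀ c : K, (finrank K (W.map (θ - c • (1 : Module.End K V))) = 1 ∨
      (finrank K (W.map (θ - c • (1 : Module.End K V))) = 2 ∧ 4 < finrank K W ∧
        ∃ x ∈ W, θ (θ x) ≠ (c * c) • x)) →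
    BigMod ψ L W

/-- **Constituents of dimension two.**
Proof. Some `A ∈ L` is not a scalar on `W` (otherwise every line of `W` is stable). Let `a` be an eigenvalue of `A` on `W` (`K` is algebraically closed): `A - a` has a kernel in `W` and is not `0` on `W`, so `finrank (W.map (A - a)) = 1`. -/
def SDimTwo : Prop :=
  ∀ (K V : Type) [Field K] [IsAlgClosed K] [AddCommGroup V] [Module K V]
    (L : Submodule K (Module.End K V)) (W : Submodule K V), IrrMod L W → finrank K W = 2 →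
    ∃ A ∈ L, ∃ a : K, finrank K (W.map (A - a • (1 : Module.End K V))) = 1

/-- **The group normalizes its Lie algebra.**
Proof. If `A` is the limit of `(T (γ k) - 1) / l ^ k` then `T γ A T γ⁻¹` is the limit for `γ (γ k) γ⁻¹` (in the definition of `Tangent` take the functional `f ∘ T γ` and the vector `T γ⁻¹ v`). Base change of a product is the product of the base changes; span. -/
def SAdL : Prop :=
  ∀ (l : ℕ) [Fact l.Prime] (Γ : Type) [Group Γ] [TopologicalSpace Γ] (V : Type) [AddCommGroup V]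
    [Module ℚ_[l] V] [FiniteDimensional ℚ_[l] V] (ρ : H1Rep Γ ℚ_[l] V) (K : Type) [Field K]
    [Algebra ℚ_[l] K] (γ : Γ),
    Nrm (LieK l ρ K) ((ρ.T γ).baseChange K) ((ρ.T γ⁻¹).baseChange K) ∧
      ∃ μ : K, ∀ x y, ρ.form.baseChange K ((ρ.T γ).baseChange K x) ((ρ.T γ).baseChange K y) =
        μ * ρ.form.baseChange K x y

end Pool.Agent.Lib.MP_640417_ag.Tg
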