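import Pool.Agent.Lib.MP_640417_ag.Tg.DefsY
import Pool.Agent.Lib.MP_640417_ag.Tg.SpecY
import Pool.Agent.Lib.MP_640417_ag.Tg.BigA

/-!
# Places which decide: reduction to the constituents
-/

set_option autoImplicit false

namespace Pool.Agent.Lib.MP_640417_ag.Tg

open Module TensorProduct Pool.Agent.Lib.MP_640417_ag Pool.Agent.Lib.MP_640417_ag.Tor
  Pool.Agent.Lib.MP_640417_ag.Lef Pool.Agent.Lib.MP_640417_ag.Frob
  Pool.Agent.Lib.MP_640417_ag.Glob Pool.Agent.Lib.MP_640417_ag.Ty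
  Pool.Agent.Lib.MP_640417_ag.Ctl Pool.Agent.Lib.MP_640417_ag.Gen4
  Pool.Agent.Lib.MP_640417_ag.Dfr

open Pool.Agent.Lib.MP_640417_ag.Four (Semisimple NoExotic Dv)

/-- Constituents of dimension one. -/
theorem bigMod_one {K V : Type} [Field K] [AddCommGroup V] [Module K V]
    [FiniteDimensional K V]
    {ψ : LinearMap.BilinForm K V} {L : Submodule K (Module.End K V)} {W : Submodule K V}
    (h1 : finrank K W = 1) : BigMod ψ L W := by
  intro Y htr _
  refine ⟨0, L.zero_mem, fun x => ?_⟩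
  obtain ⟨b, hb⟩ := finrank_eq_one_iff'.1 h1
  obtain ⟨c, hc⟩ := hb.2 (Y b)
  have hYc : Y = c • (1 : Module.End K W) := by
    refine LinearMap.ext fun z => ?_
    obtain ⟨t, rfl⟩ := hb.2 z
    rw [map_smul, ← hc, LinearMap.smul_apply, Module.End.one_apply, smul_comm]
  rw [hYc, map_smul, LinearMap.trace_one, h1, Nat.cast_one, smul_eq_mul, mul_one] at htr
  rw [hYc, htr]
  simp

section

variable (l : ℕ) [Fact l.Prime] {Γ : Type} [Group Γ]
    [TopologicalSpace Γ] [IsTopologicalGroup Γ] [CompactSpace Γ] {V : Type} [AddCommGroup V]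
    [Module ℚ_[l] V] [FiniteDimensional ℚ_[l] V] (ρ : H1Rep Γ ℚ_[l] V)

theorem constH_of_places_of (hPlcA : SPlcA) (hPlcB : SPlcB) (hDim : SDimTwo) (hAd : SAdL)
    (hss : Semisimple ρ) (K : Type) [Field K]
    [Algebra ℚ_[l] K] [IsAlgClosed K] (h3 : HasSysK l ρ K) (hN : NoTwist (ρ.form.baseChange K) (LieK l ρ K))
    (h : PlacesDecide l ρ K) : ConstH (ρ.form.baseChange K) (LieK l ρ K) := by
  classical
  obtain ⟨U, hU⟩ := exists_U0 ρ
  have hCK : CharZero K := charZero_of_injective_algebraMap (algebraMap ℚ_[l] K).injective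
  have hC := pCcL l Γ V ρ hss U hU K
  obtain ⟨N, st, ε, hS⟩ := h3 U hU
  have hreg := reg_L K (res ρ U).T (semi_res ρ U hss)
  have hadjC := adjC_L K (res ρ U).T ρ.form ρ.form_alt ρ.form_nondeg
    (fun γ => ((res ρ U).χ γ)⁻¹) (fun γ => (res ρ U).form_equivariant γ)
  obtain ⟨r, u, v, hUV⟩ := exists_uv hC.alt hC.nd hS hreg hadjC
  intro W hW
  have hpos : finrank K W ≠ 0 := fun h => hW.1 (Submodule.finrank_eq_zero.1 h)
  by_cases h1 : finrank K W = 1
  · exact Or.inl (bigMod_one h1)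
  by_cases h2 : finrank K W = 2
  · obtain ⟨A, hA, a, ha⟩ := hDim K _ _ W hW h2
    exact Or.inr ⟨A, hA, a, Or.inl ha⟩
  have h3' : 3 ≤ finrank K W := by omega
  rcases h W hW with h4 | h4 | h4 | ⟨γ, c, hγ, h4⟩
  · omega
  · exact Or.inl h4
  · exact Or.inr h4
  · left
    obtain ⟨hn, hμ⟩ := hAd l Γ V ρ K γ
    by_cases hd : DualMod (ρ.form.baseChange K) (LieK l ρ K) W W
    · refine hPlcB K _ _ _ _ hC N st ε hS r u v hUV W hW hd h3' _ _ hn hμ hγ c ?_
      rcases h4 with h4 | ⟨h4, -, h5, h6⟩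
      · exact Or.inl h4
      · exact Or.inr ⟨h4, h5, h6⟩
    · rcases h4 with h4 | ⟨-, h5, -⟩
      · exact hPlcA K _ _ _ _ hC hN W hW hd h3' _ _ hn hγ c h4
      · exact absurd h5 hd

theorem constH_of_places (hPlcA : SPlcA) (hPlcB : SPlcB) (hDim : SDimTwo) (hAd : SAdL)
    (hss : Semisimple ρ) (h3 : NoTypeIII ρ) (K : Type) [Field K]
    [Algebra ℚ_[l] K] [IsAlgClosed K] (hN : NoTwist (ρ.form.baseChange K) (LieK l ρ K))
    (h : PlacesDecide l ρ K) : ConstH (ρ.form.baseChange K) (LieK l ρ K) :=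
  constH_of_places_of l ρ hPlcA hPlcB hDim hAd hss K (hasSysK_of_noTypeIII l ρ h3 K) hN h

end

end Pool.Agent.Lib.MP_640417_ag.Tg
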