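import Pool.Agent.Lib.MP_640417_ag.Tg.SpecY

/-!
# The multiplier of a similitude of small rank
-/

set_option autoImplicit false

namespace Pool.Agent.Lib.MP_640417_ag.Tg

open Module Pool.Agent.Lib.MP_640417_ag Pool.Agent.Lib.MP_640417_ag.Tor

theorem pMulOne : SMulOne := by
  intro K U _ _ _ _ β _ hnd Θ μ hμ hrk
  obtain ⟨N, hN⟩ : ∃ N : Submodule K U, N = LinearMap.ker (Θ - 1) := ⟨_, rfl⟩
  have hfix : ∀ x ∈ N, Θ x = x := by
    intro x hx
    rw [hN, LinearMap.mem_ker, LinearMap.sub_apply, Module.End.one_apply, sub_eq_zero] at hx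
    exact hx
  have hdim : rk (Θ - 1) + finrank K N = finrank K U := by
    rw [hN]
    exact LinearMap.finrank_range_add_finrank_ker (Θ - 1)
  have key : ∃ x ∈ N, ∃ y ∈ N, β x y ≠ 0 := by
    by_contra hcon
    push Not at hcon
    have hmem : ∀ x : N, (β ∘ₗ N.subtype) x ∈ N.dualAnnihilator := by
      intro x
      rw [Submodule.mem_dualAnnihilator]
      intro w hw
      exact hcon x.1 x.2 w hw
    have hinj : Function.Injective
        (LinearMap.codRestrict N.dualAnnihilator (β ∘ₗ N.subtype) hmem) := by
      refine (injective_iff_map_eq_zero _).mpr fun x hx => ?_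
      have h1 : (β ∘ₗ N.subtype) x = 0 := by
        have := congrArg Subtype.val hx
        rw [LinearMap.codRestrict_apply] at this
        exact this
      have h2 : (x : U) = 0 := hnd x.1 (fun y => by
        have := LinearMap.congr_fun h1 y
        simpa using this)
      exact Subtype.ext h2
    have h3 := LinearMap.finrank_le_finrank_of_injective hinj
    have h4 := Subspace.finrank_add_finrank_dualAnnihilator_eq N
    omega
  obtain ⟨x, hx, y, hy, hxy⟩ := key
  have h1 := hμ x y
  rw [hfix x hx, hfix y hy] at h1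
  have h2 : (μ - 1) * β x y = 0 := by
    linear_combination -h1
  rcases mul_eq_zero.mp h2 with h3 | h3
  · exact sub_eq_zero.mp h3
  · exact absurd h3 hxy

end Pool.Agent.Lib.MP_640417_ag.Tg
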