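import Pool.Agent.Lib.MP_640417_ag.Tg.Defs

/-!
# Toric places, no factors of type III: statements of the independent modules (algebra), with proofs

Every statement is a proposition `SName`; the module `Tg/Name.lean` proves `pName : SName`, or, if the
docstring names other statements, `pName` takes these as hypotheses. Notation: `[X, Y] = X Y - Y X`;
`u ⊗ φ` is the operator `x ↦ φ x • u` (`LinearMap.smulRight φ u`), so `(u ⊗ φ)(u' ⊗ φ') = φ(u') u ⊗ φ'`,
`Y (u ⊗ φ) = Y u ⊗ φ`, `(u ⊗ φ) Y = u ⊗ (φ ∘ Y)`, `tr (u ⊗ φ) = φ u`. The library `Tor/*.lean` may be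
imported (`Tor/Base.lean`: identities for `Sl`, `G1`; `sandwich_eq`: `[X, [X, Y]] = - 2 X Y X` if `X X = 0`).
-/

namespace Pool.Agent.Lib.MP_640417_ag.Tg

open Module Pool.Agent.Lib.MP_640417_ag.Tor

/-! ### Irreducible Lie algebras with an operator of rank one -/

/-- **The trace form of an irreducible Lie algebra is nondegenerate.**
Proof. As `pTr` (`Tor/Tr.lean`), with one change. `R = {X ∈ g | tr (X Y) = 0 for all Y ∈ g}` is an ideal,
`Tr_vec` (`Tor/Tr.lean`) gives a vector killed by all brackets of `R`, the space of these vectors is `g`-stable,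
so `R` is commutative. Let `g₀` be the space of the operators `X - (tr X / dim U) • 1`, `X ∈ g`; it is a Lie
algebra (brackets have trace zero), irreducible, with traces zero, so it has trivial radical
(`LieAlgebra.hasTrivialRadical_of_isIrreducible_of_isFaithful`), and the images of the elements of `R` form
an abelian ideal of `g₀`; so `X ∈ R` is a scalar `c`, and `0 = tr (X X) = c² dim U`, `c = 0`. -/
def SRad : Prop :=
  ∀ (K U : Type) [Field K] [IsAlgClosed K] [CharZero K] [AddCommGroup U] [Module K U]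
    [FiniteDimensional K U] [Nontrivial U] (g : Submodule K (Module.End K U)) (_ : Lie g)
    (_ : Irr g ⊤) (X : Module.End K U), X ∈ g → (∀ Y ∈ g, tr (X * Y) = 0) → X = 0

/-- **A square-zero element lies in an `sl₂`.**
Proof. Copy the proof of `pSl` (`Tor/Sl.lean`); it uses only the nondegeneracy of the trace form. -/
def SJm : Prop :=
  ∀ (K U : Type) [Field K] [CharZero K] [AddCommGroup U] [Module K U]
    [FiniteDimensional K U] (g : Submodule K (Module.End K U)) (_ : Lie g)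
    (_ : ∀ X ∈ g, (∀ Y ∈ g, tr (X * Y) = 0) → X = 0) (N : Module.End K U), N ∈ g → N * N = 0 →
    ∃ f, Sl g N f

/-- A frame: `e = v ⊗ φ`, `f = w ⊗ χ`, and the elements of degree one `x = x w ⊗ φ + v ⊗ (χ ∘ x)`. -/
structure Fr {K U : Type} [Field K] [AddCommGroup U] [Module K U]
    (g : Submodule K (Module.End K U)) (e f : Module.End K U) (v w : U) (φ χ : Module.Dual K U) :
    Prop where
  sl : Sl g e f
  lie : Lie g
  e_eq : ∀ u, e u = φ u • v
  f_eq : ∀ u, f u = χ u • w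
  fv : φ v = 0
  cw : χ w = 0
  fw : φ w = 1
  cv : χ v = 1
  /-- elements of degree one -/
  form : ∀ x ∈ G1 g e f, ∀ u, x u = φ u • x w + χ (x u) • v
  a0 : ∀ x ∈ G1 g e f, φ (x w) = 0 ∧ χ (x w) = 0 ∧ x v = 0
  surj : ∀ u, φ u = 0 → χ u = 0 → ∃ x ∈ G1 g e f, x w = u
  inj : ∀ u, φ u = 0 → χ u = 0 → u ≠ 0 → ∃ x ∈ G1 g e f, χ (x u) ≠ 0
  /-- the triple product -/
  trip : ∀ x ∈ G1 g e f, ∀ y ∈ G1 g e f, ∀ z ∈ G1 g e f, ∃ t ∈ G1 g e f,
    t w = χ (y (z w)) • x w + χ (x (z w)) • y w + χ (y (x w)) • z w ∧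
    ∀ u, φ u = 0 → χ u = 0 → χ (t u) = -(χ (x (y w)) * χ (z u)) - χ (z (x w)) * χ (y u)
      - χ (z (y w)) * χ (x u)

/-- **Frames.**
Proof. `rk e = 1` gives `e = v ⊗ φ` with `φ ≠ 0`, `v ≠ 0`; `e e = 0`: `φ v = 0`. `f = f e f` has rank one,
`f = w ⊗ χ`, `χ w = 0`, `e f e = e`: `φ(w) χ(v) = 1`; scale `w` and `χ` so that `φ w = 1 = χ v`. `p = e f = v ⊗ χ`,
`q = f e = w ⊗ φ`, `z = 1 - p - q`. `form`: `x = x q + p x` (`G1.eq`). `a0`: `x v = x e w = 0` (`G1.xe`),
`χ(x w) v = e f x w`, `e f x w = p x q w = 0` (`G1.pxq`), `φ(x w) w = f e x w = 0` (`G1.ex`).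
`surj`: `T = {α v + x w + γ w}` (`x ∈ G1 g e f`) is `g`-stable and contains `w`: by `Grade` (`pGrade`,
`Tor/Grade.lean`) it is enough to consider `X ∈ g` of pure degree. Degree `2`: `p X q`, a multiple of `e`
(as operators `v ⊗ φ`), degree `-2`: a multiple of `f`, degree `0`: `X v ∈ K v`, `X w ∈ K w`,
`X x w = [X, x] w + x X w` with `[X, x] ∈ G1 g e f`; degree `1`, `y ∈ G1 g e f`: `y w ∈ T`,
`y x w = φ (x w) y w + χ (y x w) v ∈ K v`, `y v = 0`; degree `-1`, `y ∈ G1 g f e`: `x' = e y - y e ∈ G1 g e f` and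
`y = f x' - x' f` (see the proof in `Tor/Stab.lean`), `f` maps `T` to `T` (`f v = w`, `f w = 0`, `f x w = 0`).
So `T = U` (`Irr`), and for `u` with `φ u = χ u = 0` the coefficients `α = χ u`, `γ = φ u` vanish. `inj`: `N = {u | φ u = χ u = 0,
χ (x u) = 0 for all x ∈ G1 g e f}` is `g`-stable: all elements of degree `1`, `2`, `-1`, `-2` kill it (`x u = 0` by `form`;
`y = f x' - x' f`), and for degree `0`: `x X u = X x u - [X, x] u = 0`; also `p X u = X p u = 0`. It does not contain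
`v`, so it is `0`. `trip`: `t = [[x, [f, y]], z]` has degree `1` and is in `g`; with `a_x = x w`, `α_x = χ ∘ x`:
`[f, y] = w ⊗ α_y - a_y ⊗ χ`, `M = [x, [f, y]] = a_x ⊗ α_y - α_x(a_y) v ⊗ χ - α_y(a_x) w ⊗ φ + a_y ⊗ α_x`,
`[M, z] u = φ(u) (α_y(a_z) a_x + α_x(a_z) a_y + α_y(a_x) a_z) - (α_x(a_y) α_z(u) + α_z(a_x) α_y(u) + α_z(a_y) α_x(u)) v`. -/
def SFrame : Prop :=
  ∀ (K U : Type) [Field K] [CharZero K] [AddCommGroup U] [Module K U]
    [FiniteDimensional K U] (g : Submodule K (Module.End K U)) (_ : Lie g)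
    (_ : Irr g ⊤) (e f : Module.End K U), Sl g e f → rk e = 1 → ∃ v w φ χ, Fr g e f v w φ χ

/-- **The special linear case.**
Proof. (1) If `φ u = χ u = 0` implies `u = 0` then `U = K v + K w` and `e`, `f`, `[e, f]` span the operators of trace
zero. (2) Let `x₀ ∈ G1 g e f`, `x₀ ≠ 0`, `χ ∘ x₀ = 0` (write `a = x₀ w`; `a ≠ 0` by `form`). For `y, z ∈ G1` (with
`a_y = y w`, `α_y = χ ∘ y`) `trip` for `x₀, y, z` gives `t ∈ G1` with `t w = α_y(a_z) a + α_y(a) a_z`,
`α_t = - α_z(a) α_y`. So `t' = t - α_y(a_z) x₀ + α_z(a) y ∈ G1` has `α_{t'} = 0` (on all `u`, by `form`, `a0`) and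
`t' w = α_y(a) a_z + α_z(a) a_y`. For `y = z`: if `α_z(a) ≠ 0` there is `z' ∈ G1` with `z' w = a_z`, `α_{z'} = 0`. For
any `z` take `y` with `α_y(a) ≠ 0` (`inj`), and `y' ∈ G1` with `y' w = a_y`, `α_{y'} = 0`; then `t' - α_z(a) y'`
gives `z' ∈ G1` with `z' w = a_z`, `α_{z'} = 0`, so `z' = a_z ⊗ φ`; and `z - z' = v ⊗ α_z ∈ g`. (3) If
`x₀ w = 0`, `x₀ ≠ 0` (`α = α_{x₀} ≠ 0`): `trip` for `y, x₀, z` in the roles `x, y, z`: `t w = α(a_z) a_y + α(a_y) a_z`,
`α_t = - α_z(a_y) α`. So `t'' = t + α_z(a_y) x₀` has `α_{t''} = 0` and `t'' w = α(a_z) a_y + α(a_y) a_z`. With `y = z` and `α(a_z) ≠ 0` we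
get `z'' ∈ G1` with `z'' w = a_z ≠ 0`, `α_{z''} = 0`; there is such `z` by `surj` (as `α ≠ 0`); now use (2). (4) By `surj`, all
`a ⊗ φ` with `φ a = χ a = 0` are in `g`; all `v ⊗ α` with `α v = α w = 0` are in `g`: the `α_z`, `z ∈ G1`, separate the
points of `Z = {u | φ u = χ u = 0}` (`inj`), so they span its dual. Brackets with `f`: `- a ⊗ χ`, `w ⊗ α ∈ g`, and
`[a ⊗ φ, w ⊗ α] = a ⊗ α - α(a) w ⊗ φ ∈ g`. With `e`, `f`, `[e, f] = v ⊗ χ - w ⊗ φ` these span all operators of trace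
zero: write `X = (p + q + z) X (p + q + z)` and use a basis of `Z`. -/
def SClsA : Prop :=
  ∀ (K U : Type) [Field K] [CharZero K] [AddCommGroup U] [Module K U]
    [FiniteDimensional K U] (g : Submodule K (Module.End K U)) (e f : Module.End K U) (v w : U)
    (φ χ : Module.Dual K U), Fr g e f v w φ χ →
    ((∀ u, φ u = 0 → χ u = 0 → u = 0) ∨
      ∃ x ∈ G1 g e f, x ≠ 0 ∧ (x w = 0 ∨ ∀ u, χ (x u) = 0)) → ∀ X, tr X = 0 → X ∈ g

/-- **The symplectic case.**
Proof. Let `a_x = x w`, `α_x = χ ∘ x`, `s(x, y) = α_x(a_y) + α_y(a_x)`. From `trip`: `t' = t - α_y(a_z) x - α_x(a_z) y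
- α_y(a_x) z ∈ G1` has `t' w = 0`, so `t' = 0`, so `α_{t'} = 0`, on `Z = {φ = χ = 0}`, hence everywhere:
`s(z, x) α_y + s(z, y) α_x + s(x, y) α_z = 0`. For `x = y = z`: `3 s(x, x) α_x = 0`; `α_x = 0` gives `x = 0` and
`s(x, x) = 0`; so `s(x, x) = 0` always, `s = 0`. For `u ∈ Z` let `θ(u) = α_x` with `a_x = u` (`surj`, unique because `x w = 0`
implies `x = 0`; linear). With `ζ u = u - χ(u) v - φ(u) w ∈ Z` put
`ω(u, u') = χ(u) φ(u') - φ(u) χ(u') + θ(ζ u)(ζ u')`. Alternating since `s = 0`. Nondegenerate: if `ω(u, ·) = 0` then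
`u' = v, w` give `φ u = 0`, `χ u = 0`, and `θ(u) = 0` on `Z` gives `u = 0` (injectivity of `x ↦ α_x`). `ω(X u, u') + ω(u, X u') = c ω(u, u')`:
for `X = e`, `f`, `x ∈ G1 g e f` with `c = 0` (direct computation: `ω(v, ·) = φ`, `ω(w, ·) = - χ`, `ω(a_x, u') = α_x(u')` on `Z`); the
set of all `X` with this property for some `c` is closed under brackets, so it contains `G1 g f e` (`y = f x' - x' f`, see
`Tor/Stab.lean`). For `X ∈ g` of degree `0` (commuting with `h = e f - f e`): `X v = α v`, `X w = γ w`, `X Z ⊆ Z`, and `[X, x] ∈ G1` with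
`[X, x] w = X a_x - γ a_x`, `χ ∘ [X, x] = α α_x - α_x ∘ X`, so `ω(X a_x - γ a_x, u') = α α_x(u') - α_x(X u')` for `u' ∈ Z`, i.e.
`ω(X a, u') + ω(a, X u') = (α + γ) ω(a, u')`; the same for the pairs `(v, w)`, and the other pairs vanish. By `pGrade`
(`Tor/Grade.lean`) every `X ∈ g` is a sum of elements of `g` of pure degree, and those of degree `2`, `-2` are multiples of
`e`, `f`. -/
def SClsB : Prop :=
  ∀ (K U : Type) [Field K] [CharZero K] [AddCommGroup U] [Module K U]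
    [FiniteDimensional K U] (g : Submodule K (Module.End K U)) (e f : Module.End K U) (v w : U)
    (φ χ : Module.Dual K U), Fr g e f v w φ χ → (∀ x ∈ G1 g e f, x w = 0 → x = 0) →
    (∀ x ∈ G1 g e f, (∀ u, χ (x u) = 0) → x = 0) →
    ∃ ω : LinearMap.BilinForm K U, (∀ x, ω x x = 0) ∧ (∀ x, (∀ y, ω x y = 0) → x = 0) ∧
      ∀ X ∈ g, ∃ c : K, ∀ x y, ω (X x) y + ω x (X y) = c * ω x y

/-- **Classification** (from `SRad`, `SJm`, `SFrame`, `SClsA`, `SClsB`).
Proof. `SRad`, `SJm`: `f` with `Sl g e f`; `SFrame`; if the hypothesis of `SClsA` is false then `SClsB` applies, and there is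
`u ≠ 0` with `φ u = χ u = 0`, so `u`, `v`, `w` are linearly independent and the dimension is at least `3`. -/
def SCls : Prop :=
  ∀ (K U : Type) [Field K] [IsAlgClosed K] [CharZero K] [AddCommGroup U] [Module K U]
    [FiniteDimensional K U] (g : Submodule K (Module.End K U)) (_ : Lie g) (_ : Irr g ⊤)
    (e : Module.End K U), e ∈ g → e * e = 0 → rk e = 1 →
    (∀ X, tr X = 0 → X ∈ g) ∨ (3 ≤ finrank K U ∧
      ∃ ω : LinearMap.BilinForm K U, (∀ x, ω x x = 0) ∧ (∀ x, (∀ y, ω x y = 0) → x = 0) ∧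
      ∀ X ∈ g, ∃ c : K, ∀ x y, ω (X x) y + ω x (X y) = c * ω x y)

/-- **Classification in a block** (from `SCls`).
Proof. `W = range (p b)`, `res X : W → W` the restriction of `X` (see `PMB_res` in `Tor/PMB.lean`), `g' = res g` is a Lie algebra,
irreducible on `W` (a stable subspace `W₁` of `W` gives the stable subspace `W₁.map W.subtype` of `V`), `e = res N`, `e e = 0`,
`rk e = finrank (W.map N) = 1`. If `g'` contains all operators of trace zero: for `Y ∈ sb ψ (p b) False` the restriction of `Y` to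
`W` has trace `tr Y = 0` (`Y = p b Y p b`), so it is `res X`, `X ∈ g`, and `p b X = p b X p b = Y`. In the second case let `ω` be the form
on `W`; by nondegeneracy of `ψ` there is `c : V → V` with `ψ (c x) y = ω (p b x) (p b y)` for all `x, y` (`Adj_equiv` in `Tor/Adj.lean`).
`c p b = c`, `p (st b) c = c` (`ψ (p (st b) c x) y = ψ (c x) (p b y)` by `adj`, `inv`), `c ≠ 0` since `ω` is nondegenerate and `W ≠ 0`, and for
`X ∈ g`, `s` the scalar of `res X`: `ψ (c X x) y = ω (X p x) (p y) = s ω (p x) (p y) - ω (p x) (p X y) = s ψ (c x) y - ψ (c x) (X y)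
= ψ (s c x + X c x) y`. -/
def SSlB : Prop :=
  ∀ (K V : Type) [Field K] [IsAlgClosed K] [CharZero K] [AddCommGroup V] [Module K V]
    [FiniteDimensional K V] (B : Type) [Fintype B] [DecidableEq B] (ψ : LinearMap.BilinForm K V)
    (p : B → Module.End K V) (st : B → B) (_ : BD ψ p st) (g : Submodule K (Module.End K V))
    (_ : Lie g) (_ : ∀ X ∈ g, Skew ψ X) (_ : ∀ b, ∀ X ∈ g, p b * X = X * p b) (b : B)
    (_ : Irr g (LinearMap.range (p b))) (N : Module.End K V), N ∈ g → N * N = 0 →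
    finrank K ((LinearMap.range (p b)).map N) = 1 →
    (∀ Y ∈ sb ψ (p b) False, ∃ X ∈ g, p b * X = Y) ∨
      (3 ≤ rk (p b) ∧ ∃ c : Module.End K V, p (st b) * c * p b = c ∧ c ≠ 0 ∧
        ∀ X ∈ g, ∃ s : K, c * X - X * c = s • c)

/-! ### The Lie algebra of a block

If `t` holds then `sb ψ p t = spb ψ p` (`Tor/GouA.lean`; skew operators have trace zero: `tr_skew`), spanned by
the `T_{a,b}` with `p a = a`, `p b = b`. If `t` is false then `sb ψ p t` consists of all operators `X = p X p` of trace zero; `u ⊗ φ`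
is in it if `p u = u`, `φ ∘ p = φ`, `φ u = 0`. -/

/-- **Rank one elements span.**
Proof. `t` true: `X = (1/2) Σ T_{b^i, X b_i}` as in `Tor/RankOne.lean` (or `GouA_simple` with `a` = the span of the
`T_{v,v}`, which is stable under brackets: `[Z, T_{v,v}] = 2 T_{v, Z v}` and `2 T_{a,b} = T_{a+b,a+b} - T_{a,a} - T_{b,b}`).
`t` false: let `e_i` be a basis of `range p`, `e^i` the coordinates, extended by `∘ p`; `X = Σ X_ij e_i ⊗ e^j`, `Σ X_ii = 0`, and
`e_i ⊗ e^i - e_j ⊗ e^j = (e_i + e_j) ⊗ (e^i - e^j) + e_i ⊗ e^j - e_j ⊗ e^i`, all of rank one and square zero. -/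
def SSpan : Prop :=
  ∀ (K V : Type) [Field K] [IsAlgClosed K] [CharZero K] [AddCommGroup V] [Module K V]
    [FiniteDimensional K V] (ψ : LinearMap.BilinForm K V) (p : Module.End K V) (t : Prop),
    Blk ψ p t → sb ψ p t ≤ Submodule.span K {e | e ∈ sb ψ p t ∧ e * e = 0 ∧ rk e = 1}

/-- **Partners of rank one elements.**
Proof. `t` true: `e = s T_{v,v}`, `s ≠ 0` (`GouB_form` in `Tor/GouB.lean`), `f` is a multiple of `T_{c,c}` with `ψ c v = 1`
(`GouA_pair`). `t` false: `e = u ⊗ φ` with `φ u = 0`; take `x ∈ range p`, `ξ = ξ ∘ p` with `φ x = 1`, `ξ u = 1`, `ξ x = 0` (possible: `x` is not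
in `K u` since `φ u = 0`), `f = x ⊗ ξ`. -/
def SPartner : Prop :=
  ∀ (K V : Type) [Field K] [IsAlgClosed K] [CharZero K] [AddCommGroup V] [Module K V]
    [FiniteDimensional K V] (ψ : LinearMap.BilinForm K V) (p : Module.End K V) (t : Prop),
    Blk ψ p t → (∀ e ∈ sb ψ p t, e * e = 0 → rk e = 1 → ∃ f, Sl (sb ψ p t) e f) ∧
      ∃ e ∈ sb ψ p t, e * e = 0 ∧ rk e = 1

/-- **The block is perfect** (from `SSpan`, `SPartner`).
Proof. `e = (1/2) [[e, f], e]`, `[e, f] ∈ sb` (`sb` is closed under brackets). -/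
def SPerf : Prop :=
  ∀ (K V : Type) [Field K] [IsAlgClosed K] [CharZero K] [AddCommGroup V] [Module K V]
    [FiniteDimensional K V] (ψ : LinearMap.BilinForm K V) (p : Module.End K V) (t : Prop),
    Blk ψ p t → sb ψ p t ≤ der (sb ψ p t)

/-- **The block is simple** (from `SSpan`).
Proof. `t` true: `a ≤ spb ψ p` and `GouA_simple`. `t` false: `Y` is not a multiple of `p`, so some `u = p u` has `Y u ∉ K u`; take
`φ = φ ∘ p` with `φ u = 0`, `φ (Y u) = 1`, `Z = u ⊗ φ`: `[Z, [Z, Y]] = - 2 Z Y Z = - 2 Z ∈ a`, so `Z ∈ a`. If `u ⊗ φ ∈ a` and `ξ x = 0`,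
`ξ u ≠ 0`, `φ x ≠ 0` (`x = p x`, `ξ = ξ ∘ p`) then `x ⊗ ξ ∈ a`: `[x ⊗ ξ, [x ⊗ ξ, u ⊗ φ]] = - 2 ξ(u) φ(x) x ⊗ ξ`. For any `u' ⊗ φ'` of square
zero (`u' = p u' ≠ 0`, `φ' = φ' ∘ p ≠ 0`, `φ' u' = 0`) there are `x` with `φ x ≠ 0`, `φ' x ≠ 0` (two proper subspaces do not cover), then `x`
is not in `K u`, `K u'`, so there is `ξ` with `ξ x = 0`, `ξ u ≠ 0`, `ξ u' ≠ 0`. So `x ⊗ ξ ∈ a` and `u' ⊗ φ' ∈ a`. `SSpan`. -/
def SSimp : Prop :=
  ∀ (K V : Type) [Field K] [IsAlgClosed K] [CharZero K] [AddCommGroup V] [Module K V]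
    [FiniteDimensional K V] (ψ : LinearMap.BilinForm K V) (p : Module.End K V) (t : Prop),
    Blk ψ p t → ∀ a : Submodule K (Module.End K V), (∀ Y ∈ a, p * Y * p = Y ∧ (t → Skew ψ Y)) →
    (∀ Z ∈ sb ψ p t, ∀ Y ∈ a, Z * Y - Y * Z ∈ a) → ∀ Y ∈ a, (∀ c : K, Y ≠ c • p) → sb ψ p t ≤ a

/-- **Extremal elements have rank one.**
Proof. `t` true: `GouB_sq`, then `e X e ∈ K e` and `GouB_form`; `T_{v,v} = 2 v ⊗ ψ v`. `t` false: `e` is an operator on
`W = range p`. (1) `e` is nilpotent: let `α`, `β` be eigenvalues of `e` on `W`, `e u = α u`, `φ e = β φ` (`u`, `φ` nonzero). If `α ≠ β` then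
`φ u = 0` and `X = u ⊗ φ ∈ sb`, `[e, X] = (α - β) X`; `[e, [e, X]] = c e`, so `[e, [e, [e, X]]] = 0 = (α - β)³ X`, a contradiction. So `e`
has only one eigenvalue on `W` (`K` is algebraically closed), it is `0` as `tr e = 0` (characteristic zero). (2) `e e = 0`: let
`e^k = 0`, `e^(k-1) ≠ 0`, `k ≥ 3`; for all `X ∈ sb`, so (adding multiples of `p`) for all `X = p X p`, `(ad e)³ X = 0`, so
`(ad e)^(2k-2) X = 0`, but all its terms vanish except a nonzero multiple of `e^(k-1) X e^(k-1)`, so `e^(k-1) X e^(k-1) = 0` for all `X`,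
a contradiction. (Or: with `k` minimal use `e^(k-3)`: multiply `(ad e)³ X = 0` by `e^(k-2)` from the left and from the right; the
coefficients are `e³X - 3 e²Xe + 3 eXe² - Xe³`; left multiplication by `e^(k-2)` kills `e³`, `e²`: `3 e^(k-1) X e² = e^(k-2) X e³`; right
multiplication by `e^(k-3)`: `3 e^(k-1) X e^(k-1) = e^(k-2) X e^k = 0`.) (3) `- 2 e X e = c e` for all `X ∈ sb`, so for all `X`, so the rank is one. -/
def SExt : Prop :=
  ∀ (K V : Type) [Field K] [IsAlgClosed K] [CharZero K] [AddCommGroup V] [Module K V]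
    [FiniteDimensional K V] (ψ : LinearMap.BilinForm K V) (p : Module.End K V) (t : Prop),
    Blk ψ p t → ∀ e ∈ sb ψ p t, e ≠ 0 →
    (∀ X ∈ sb ψ p t, ∃ c : K, e * (e * X - X * e) - (e * X - X * e) * e = c • e) →
    e * e = 0 ∧ rk e = 1

/-- **The block is irreducible, and its centralizer consists of scalars.**
Proof. First part: `0 ≠ u ∈ W'`. `t` true: `GouA_move`. `t` false: for `x = p x ∉ K u` take `φ = φ ∘ p`, `φ u = 1`, `φ x = 0`, then
`(x ⊗ φ) u = x`; these `x` span `range p`. Second part: `t` true: `Y T_{v,v} = T_{v,v} Y` gives `Y v ∈ K v` for all `v = p v`; `t` false: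
`Y (u ⊗ φ) = (u ⊗ φ) Y` with `φ u = 0`, `φ ≠ 0`, gives `Y u ∈ K u` for all `u = p u`. An operator for which all vectors are
eigenvectors is a scalar. -/
def SIrrB : Prop :=
  ∀ (K V : Type) [Field K] [IsAlgClosed K] [CharZero K] [AddCommGroup V] [Module K V]
    [FiniteDimensional K V] (ψ : LinearMap.BilinForm K V) (p : Module.End K V) (t : Prop),
    Blk ψ p t → Irr (sb ψ p t) (LinearMap.range p) ∧
      ∀ Y : Module.End K V, p * Y * p = Y → (∀ X ∈ sb ψ p t, Y * X = X * Y) → ∃ c : K, Y = c • p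

/-! ### Two blocks -/

/-- **Quadratic forms with equal squares.**
Proof. If `B₁ x x ≠ B₂ x x` and `B₁ y y ≠ - B₂ y y` for some `x`, `y`, then the polynomials
`(B₁ - B₂)(x + T y, x + T y)` (constant term `≠ 0`) and `(B₁ + B₂)(x + T y, x + T y)` (coefficient of `T²` nonzero) have product zero at all
`T ∈ K`, a contradiction (infinite field). So one of the two holds for all `x`; polarization. -/
def SQuad : Prop :=
  ∀ (K G : Type) [Field K] [CharZero K] [AddCommGroup G] [Module K G]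
    (B₁ B₂ : LinearMap.BilinForm K G), (∀ x y, B₁ x y = B₁ y x) → (∀ x y, B₂ x y = B₂ y x) →
    (∀ x, (B₁ x x) ^ 2 = (B₂ x x) ^ 2) → (∀ x y, B₁ x y = B₂ x y) ∨ (∀ x y, B₁ x y = -B₂ x y)

/-- **Schur for two blocks.**
Proof. `c` is injective on `range P` (its kernel there is stable) and maps onto `range Q`; let `c'` be the inverse, the linear map
`c' d` of `range P ≠ 0` has an eigenvalue `s`, and `{u ∈ range P | d u = s c u}` is stable and nonzero, so it is `range P`. -/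
def SSchurT : Prop :=
  ∀ (K V : Type) [Field K] [IsAlgClosed K] [AddCommGroup V] [Module K V]
    [FiniteDimensional K V] (D : Submodule K (Module.End K V)) (P Q : Module.End K V),
    P * P = P → Q * Q = Q → (∀ X ∈ D, P * X = X * P) → (∀ X ∈ D, Q * X = X * Q) →
    Irr D (LinearMap.range P) → Irr D (LinearMap.range Q) → ∀ c d : Module.End K V,
    Q * c * P = c → Q * d * P = d → (∀ X ∈ D, c * X = X * c) → (∀ X ∈ D, d * X = X * d) → c ≠ 0 →
    ∃ s : K, d = s • c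

/-- **Two linked blocks are isomorphic.**
Proof. Let `q = f e`; `q P ≠ 0` (otherwise `e P = e q P = 0`), so there is `w₁ ≠ 0` with `P w₁ = w₁`, `q w₁ = w₁`, and `w₂ ≠ 0` with
`Q w₂ = w₂`, `q w₂ = w₂` (`P`, `Q` commute with `e`, `f`). `w = w₁ + w₂`, `L = Lu D e f w`. `L` is stable under `D`: by `hgen` for
`S = {X | X L ⊆ L}` (closed under brackets): `e`: `e w ∈ L`, `e x w = 0` (`G1.ex`), `e e w = 0`; `f`: `f w = f f e w = 0`,
`f x w = f x q w = 0` (`G1.fxq`), `f e w = w`; `y ∈ G1 D e f`: `y w ∈ L`, `y x w = y x P w₁ + y x Q w₂ = β y x (e w₁ + e w₂) = β y x e w`,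
`y e w = 0` (`G1.xe`); `y ∈ G1 D f e`: `x' = e y - y e ∈ G1 D e f` and `y = f x' - x' f` (see `Tor/Stab.lean`). The space `L ∩ range P`
is stable; if it is `range P` then `w₁ ∈ L`, `w₁ = α w + x w + γ e w`, apply `q`: `w₁ = α w` (`G1.qx`, `q e w = 0`), apply `Q`:
`0 = α w₂`, so `α = 0`, `w₁ = 0`, a contradiction; so it is `0`. The same for `Q`. `P L` is stable, nonzero (`w₁`), so
`P L = range P`, and `P` is injective on `L` (`y ∈ L`, `P y = 0`: `y = Q y + P y` as `L ⊆ range P + range Q`, so `y ∈ L ∩ range Q = 0`). So there is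
`c` with `c (P y) = Q y` for `y ∈ L` and `c = c P` (see the end of the proof of `pGou` in `Tor/GouC.lean`); `Q c P = c`, `c w₁ = w₂ ≠ 0`, and `c` commutes with `D`. -/
def SLinkA : Prop :=
  ∀ (K V : Type) [Field K] [CharZero K] [AddCommGroup V] [Module K V]
    [FiniteDimensional K V] (D : Submodule K (Module.End K V)) (_ : Lie D) (P Q : Module.End K V),
    P * P = P → Q * Q = Q → P * Q = 0 → Q * P = 0 → (∀ X ∈ D, P * X = X * P) →
    (∀ X ∈ D, Q * X = X * Q) → Irr D (LinearMap.range P) → Irr D (LinearMap.range Q) →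
    ∀ e f, Sl D e f → e * P ≠ 0 → e * Q ≠ 0 → ∀ β : Module.End K V → Module.End K V → K,
    (∀ x ∈ G1 D e f, ∀ y ∈ G1 D e f, x * y * P = β x y • (e * P) ∧ x * y * Q = β x y • (e * Q)) →
    (∀ S : Submodule K (Module.End K V), Lie S → e ∈ S → f ∈ S → G1 D e f ≤ S → G1 D f e ≤ S →
      D ≤ S) → ∃ c : Module.End K V, Q * c * P = c ∧ c ≠ 0 ∧ ∀ X ∈ D, c * X = X * c

/-! ### Many blocks -/

/-- **Goursat for blocks with a duality** (from `SPerf`, `SSimp`, `SIrrB`).
Proof. Compare `Tor/Gour.lean`. `Blk ψ (p b) (st b = b)` holds if `2 ≤ rk (p b)`. (1) Claim: for every finite set `S` of blocks, every `b` with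
`b ∉ S`, `st b ∉ S`, and every `X ∈ sb ψ (p b) (st b = b)` there is `Y ∈ g` with `p b Y = X`, `p s Y = 0` for `s ∈ S`. If `rk (p b) < 2` then
`X = 0` (`X = c p b` has trace `0`; `rk (p b) ≥ 1`). Induction on `S`. `S = ∅`: `hfull`. `S ∪ {s}`: if `rk (p s) < 2`, `X` is a sum of brackets
`[X₁, X₂]` of elements of `sb` (`SPerf`), lift these with the claim for `S` to `Y₁`, `Y₂`; `[Y₁, Y₂]` vanishes also in the block `s` (two operators
of a line commute). If `rk (p s) ≥ 2`: `s ≠ b`, `s ≠ st b`, so there is `Z ∈ g` with `p s Z = 0`, `p b Z ∉ K p b` (`hpair`). By `SIrrB` there is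
`W ∈ sb ψ (p b) _` with `[p b Z, W] ≠ 0`; lift `W` to `W'` (claim for `S`). `a = {X | ∃ Y ∈ g, p b Y = X, p s Y = 0, p t Y = 0 for t ∈ S}` contains
`p b [Z, W'] = [p b Z, W] ≠ 0`, which has trace zero, so it is not a multiple of `p b`; `a` is stable under brackets with `sb` (lift by `hfull`), so
`SSimp` gives `sb ≤ a`. (2) Let `X` be as in the statement and `X_b = p b X + p (st b) X` if `st b ≠ b`, `X_b = p b X` if `st b = b`. Then
`X_b ∈ g`: by the claim with `S` = all blocks except `b`, `st b` there is `Y ∈ g` with `p b Y = p b X`, `p s Y = 0` for `s ∈ S`; as `X`, `Y` are skew,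
`ψ (p (st b) Y x) y = ψ (Y x) (p b y) = - ψ x (Y p b y) = - ψ x (X p b y) = ψ (p (st b) X x) y`, so `p (st b) Y = p (st b) X`, so `Y = X_b`. Finally
`X = Σ_b c_b X_b` with `c_b = 1/2` if `st b ≠ b`, `c_b = 1` if `st b = b`. -/
def SGourG : Prop :=
  ∀ (K V : Type) [Field K] [IsAlgClosed K] [CharZero K] [AddCommGroup V] [Module K V]
    [FiniteDimensional K V] (B : Type) [Fintype B] [DecidableEq B] (ψ : LinearMap.BilinForm K V)
    (p : B → Module.End K V) (st : B → B) (_ : BD ψ p st) (g : Submodule K (Module.End K V))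
    (_ : Lie g) (_ : ∀ X ∈ g, Skew ψ X) (_ : ∀ b, ∀ X ∈ g, p b * X = X * p b)
    (_ : ∀ b, 2 ≤ rk (p b) → ∀ X ∈ sb ψ (p b) (st b = b), ∃ Y ∈ g, p b * Y = X)
    (_ : ∀ a b, a ≠ b → a ≠ st b → 2 ≤ rk (p a) → 2 ≤ rk (p b) →
      ∃ X ∈ g, p b * X = 0 ∧ ∀ c : K, p a * X ≠ c • p a)
    (X : Module.End K V), Skew ψ X → (∀ b, p b * X = X * p b) → (∀ b, tr (p b * X) = 0) → X ∈ g

/-- **Two blocks are independent** (from `SExt`, `SPartner`, `SPerf`, `SSimp`, `SIrrB`, `SQuad`, `SSchurT`, `SLinkA`). -/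
def SPairG : Prop :=
  ∀ (K V : Type) [Field K] [IsAlgClosed K] [CharZero K] [AddCommGroup V] [Module K V]
    [FiniteDimensional K V] (B : Type) [Fintype B] [DecidableEq B] (ψ : LinearMap.BilinForm K V)
    (p : B → Module.End K V) (st : B → B) (_ : BD ψ p st) (g : Submodule K (Module.End K V))
    (_ : Lie g) (_ : ∀ X ∈ g, Skew ψ X) (_ : ∀ b, ∀ X ∈ g, p b * X = X * p b)
    (_ : ∀ b, 2 ≤ rk (p b) → ∀ X ∈ sb ψ (p b) (st b = b), ∃ Y ∈ g, p b * Y = X) (a b : B),
    a ≠ b → a ≠ st b → 2 ≤ rk (p a) → 2 ≤ rk (p b) →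
    (∀ c : Module.End K V, p b * c * p a = c → (∀ X ∈ g, ∃ s : K, c * X - X * c = s • c) → c = 0) →
    (∀ c : Module.End K V, p (st b) * c * p a = c → (∀ X ∈ g, ∃ s : K, c * X - X * c = s • c) →
      c = 0) → ∃ X ∈ g, p b * X = 0 ∧ ∀ s : K, p a * X ≠ s • p a

/-- **All blocks** (from `SBlock`, `SSlB`, `SPairG`, `SGourG`). -/
def SAllG : Prop :=
  ∀ (K V : Type) [Field K] [IsAlgClosed K] [CharZero K] [AddCommGroup V] [Module K V]
    [FiniteDimensional K V] (B : Type) [Fintype B] [DecidableEq B] (ψ : LinearMap.BilinForm K V)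
    (p : B → Module.End K V) (st : B → B) (_ : BD ψ p st) (L : Submodule K (Module.End K V))
    (_ : Lie L) (_ : ∀ X ∈ L, ∃ c : K, ∀ x y, ψ (X x) y + ψ x (X y) = c * ψ x y)
    (_ : ∀ b, ∀ X ∈ L, p b * X = X * p b) (_ : ∀ b, IrrMod L (LinearMap.range (p b)))
    (_ : ∀ a b, a ≠ b → ∀ c : Module.End K V, (∀ X ∈ L, c * X = X * c) → p a * c * p b = 0)
    (_ : ∀ b, (rk (p b) = 1 ∧ st b ≠ b) ∨ ∃ N ∈ L, N * N = 0 ∧ Skew ψ N ∧
      (finrank K ((LinearMap.range (p b)).map N) = 1 ∨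
        (st b = b ∧ Toric L (LinearMap.range (p b)) N)))
    (_ : ∀ a b, a ≠ b → st a ≠ a → 2 ≤ rk (p a) → ¬ (b = st a ∧ rk (p a) = 2) →
      ∀ c : Module.End K V, p b * c * p a = c → (∀ X ∈ L, ∃ s : K, c * X - X * c = s • c) → c = 0)
    (X : Module.End K V), Skew ψ X → (∀ b, p b * X = X * p b) → (∀ b, tr (p b * X) = 0) →
    X ∈ skp ψ L

end Pool.Agent.Lib.MP_640417_ag.Tg
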