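import Pool.Agent.Lib.MP_640417_ag.Tg.SpecY
import Pool.Agent.Lib.MP_640417_ag.Tg.SpecW
import Pool.Agent.Lib.MP_640417_ag.Tg.SpecA

/-!
# Elements of small rank: an operator of rank one which normalizes an irreducible Lie algebra
-/

set_option autoImplicit false

namespace Pool.Agent.Lib.MP_640417_ag.Tg

open Module Pool.Agent.Lib.MP_640417_ag.Tor

/-- an operator of rank one is `u ↦ φ u • v` -/
lemma nrmOne_form {K U : Type} [Field K] [AddCommGroup U] [Module K U] [FiniteDimensional K U]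
    {e : Module.End K U} (he : rk e = 1) :
    ∃ (v : U) (φ : Module.Dual K U), ∀ u, e u = φ u • v := by
  obtain ⟨v, hv, hv'⟩ := finrank_eq_one_iff'.1 he
  have hv0 : (v : U) ≠ 0 := fun h => hv (Subtype.ext h)
  obtain ⟨f, hf⟩ : ∃ f : Module.Dual K U, f (v : U) ≠ 0 := by
    by_contra hcon
    push Not at hcon
    exact hv0 ((Module.forall_dual_apply_eq_zero_iff K (v : U)).1 hcon)
  refine ⟨v, (f (v : U))⁻¹ • (f ∘ₗ e), fun u => ?_⟩
  obtain ⟨c, hc⟩ := hv' ⟨e u, ⟨u, rfl⟩⟩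
  have hc' : c • (v : U) = e u := congrArg Subtype.val hc
  have h1 : f (e u) = c * f (v : U) := by rw [← hc', map_smul, smul_eq_mul]
  change e u = ((f (v : U))⁻¹ * f (e u)) • (v : U)
  rw [h1, ← hc']
  congr 1
  field_simp

theorem pNrmOne (hSl : SSlPf) (hId : SIdemOne) (hCls : SCls) : SNrmOne := by
  intro K U _ _ _ _ _ _ g lie hirr R hrk hR
  let g₂ : Submodule K (Module.End K U) := g ⊔ (Submodule.span K {R} ⊔ Submodule.span K {1})
  have hle : g ≤ g₂ := le_sup_left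
  have hg₂ : ∀ X ∈ g₂, ∃ Y ∈ g, ∃ r s : K, X = Y + r • R + s • (1 : Module.End K U) := by
    intro X hX
    obtain ⟨Y, hY, Z, hZ, rfl⟩ := Submodule.mem_sup.1 hX
    obtain ⟨Z1, hZ1, Z2, hZ2, rfl⟩ := Submodule.mem_sup.1 hZ
    obtain ⟨r, rfl⟩ := Submodule.mem_span_singleton.1 hZ1
    obtain ⟨s, rfl⟩ := Submodule.mem_span_singleton.1 hZ2
    exact ⟨Y, hY, r, s, by rw [add_assoc]⟩
  have hbr : ∀ X ∈ g₂, ∀ Y ∈ g₂, X * Y - Y * X ∈ g := by
    intro X hX Y hY
    obtain ⟨X', hX', r, s, rfl⟩ := hg₂ X hX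
    obtain ⟨Y', hY', r', s', rfl⟩ := hg₂ Y hY
    have h1 : (X' + r • R + s • (1 : Module.End K U)) * (Y' + r' • R + s' • 1) -
        (Y' + r' • R + s' • 1) * (X' + r • R + s • 1)
        = (X' * Y' - Y' * X') + r • (R * Y' - Y' * R) - r' • (R * X' - X' * R) := by
      simp only [add_mul, mul_add, smul_mul_assoc, mul_smul_comm, one_mul, mul_one, smul_add,
        smul_sub, smul_smul, mul_comm s' s, mul_comm r' r, mul_comm s' r, mul_comm r' s]
      abel
    rw [h1]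
    exact g.sub_mem (g.add_mem (lie X' hX' Y' hY') (g.smul_mem r (hR Y' hY')))
      (g.smul_mem r' (hR X' hX'))
  have hLie₂ : Lie g₂ := fun X hX Y hY => hle (hbr X hX Y hY)
  have hIrr₂ : Irr g₂ ⊤ := fun W₁ h1 h2 => hirr W₁ h1 (fun X hX => h2 X (hle hX))
  have hR₂ : R ∈ g₂ :=
    Submodule.mem_sup_right (Submodule.mem_sup_left (Submodule.mem_span_singleton_self R))
  have fin : (∀ X, tr X = 0 → X ∈ g₂) → ∀ X, tr X = 0 → X ∈ g := by
    intro h X hX
    have h1 := hSl K U X hX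
    refine (Submodule.span_le (p := g)).2 ?_ h1
    rintro Z ⟨Y, Y', hY, hY', rfl⟩
    exact hbr Y (h Y hY) Y' (h Y' hY')
  obtain ⟨v, φ, hf⟩ := nrmOne_form hrk
  by_cases hφv : φ v = 0
  · have hRR : R * R = 0 := by
      refine LinearMap.ext fun u => ?_
      rw [Module.End.mul_apply, hf u, map_smul, hf v, hφv, zero_smul, smul_zero]
      rfl
    rcases hCls K U g₂ hLie₂ hIrr₂ R hR₂ hRR hrk with h | ⟨h3, ω, -, hnd, hω⟩
    · exact Or.inl (fin h)
    · exact Or.inr ⟨h3, ω, hnd, fun X hX => hω X (hle hX)⟩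
  · left
    exact fin (hId K U g₂ hLie₂ hIrr₂ v φ 0 R hR₂
      (fun u => by rw [hf u, zero_smul, add_zero]) hφv)

end Pool.Agent.Lib.MP_640417_ag.Tg
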