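import Pool.Agent.Lib.MP_640417_ag.Tg.SpecY

/-!
# Pseudo-reflections of order not two which normalize a Lie algebra
-/

set_option autoImplicit false

namespace Pool.Agent.Lib.MP_640417_ag.Tg

open Module Pool.Agent.Lib.MP_640417_ag.Tor

/-- an operator of rank one is `u ↦ φ u • v` -/
private lemma nrmR_one {K U : Type} [Field K] [AddCommGroup U] [Module K U] [FiniteDimensional K U]
    {e : Module.End K U} (he : rk e = 1) :
    ∃ (v : U) (φ : Module.Dual K U), v ≠ 0 ∧ (∃ u, φ u ≠ 0) ∧ ∀ u, e u = φ u • v := by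
  obtain ⟨v, hv, hv'⟩ := finrank_eq_one_iff'.1 he
  have hv0 : (v : U) ≠ 0 := fun h => hv (Subtype.ext h)
  obtain ⟨f, hf⟩ : ∃ f : Module.Dual K U, f (v : U) ≠ 0 := by
    by_contra hcon
    push Not at hcon
    exact hv0 ((Module.forall_dual_apply_eq_zero_iff K (v : U)).1 hcon)
  have key : ∀ u, e u = ((f (v : U))⁻¹ * f (e u)) • (v : U) := by
    intro u
    obtain ⟨c, hc⟩ := hv' ⟨e u, ⟨u, rfl⟩⟩
    have hc' : c • (v : U) = e u := congrArg Subtype.val hc
    have : f (e u) = c * f (v : U) := by rw [← hc', map_smul, smul_eq_mul]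
    rw [this, ← hc']
    congr 1
    field_simp
  refine ⟨v, (f (v : U))⁻¹ • (f ∘ₗ e), hv0, ?_, key⟩
  obtain ⟨u, hu⟩ := v.2
  refine ⟨u, ?_⟩
  have h1 : ((f (v : U))⁻¹ • (f ∘ₗ e)) u = (f (v : U))⁻¹ * f (e u) := rfl
  rw [h1, hu]
  exact mul_ne_zero (inv_ne_zero hf) hf

theorem pNrmR : SNrmR := by
  intro K U _ _ _ _ g Θ Θ' hN hrk hne X hX
  obtain ⟨v, φ, hv0, -, hR⟩ := nrmR_one hrk
  have hΘ : ∀ u, Θ u = u + φ u • v := by
    intro u
    have := hR u
    rw [LinearMap.sub_apply, Module.End.one_apply, sub_eq_iff_eq_add] at this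
    rw [this, add_comm]
  have ha : (1 : K) + φ v ≠ 0 := by
    intro h
    apply hv0
    have h1 : Θ v = 0 := by
      have : v + φ v • v = ((1 : K) + φ v) • v := by rw [add_smul, one_smul]
      rw [hΘ, this, h, zero_smul]
    have h2 : (Θ' * Θ) v = v := by rw [hN.l, Module.End.one_apply]
    rw [Module.End.mul_apply, h1, map_zero] at h2
    exact h2.symm
  have hΘ' : Θ' = 1 - ((1 : K) + φ v)⁻¹ • (Θ - 1) := by
    have h1 : Θ * (1 - ((1 : K) + φ v)⁻¹ • (Θ - 1)) = 1 := by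
      refine LinearMap.ext fun u => ?_
      rw [Module.End.mul_apply, LinearMap.sub_apply, LinearMap.smul_apply, hR,
        Module.End.one_apply, hΘ, map_sub, map_smul, map_smul]
      have : u - ((1 : K) + φ v)⁻¹ • φ u • v + (φ u - ((1 : K) + φ v)⁻¹ • φ u • φ v) • v
          = u + (φ u - ((1 : K) + φ v)⁻¹ * φ u * ((1 : K) + φ v)) • v := by
        simp only [smul_eq_mul]
        module
      rw [this]
      have : φ u - ((1 : K) + φ v)⁻¹ * φ u * ((1 : K) + φ v) = 0 := by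
        field_simp
        ring
      rw [this, zero_smul, add_zero]
    calc Θ' = Θ' * (Θ * (1 - ((1 : K) + φ v)⁻¹ • (Θ - 1))) := by rw [h1, mul_one]
      _ = (Θ' * Θ) * (1 - ((1 : K) + φ v)⁻¹ • (Θ - 1)) := by rw [mul_assoc]
      _ = _ := by rw [hN.l, one_mul]
  have hc : (1 : K) + ((1 : K) + φ v)⁻¹ ≠ 0 := by
    intro h
    apply hne
    have h1 : (2 : K) + φ v = 0 := by
      have := congrArg (fun t => t * ((1 : K) + φ v)) h
      simp only [add_mul, one_mul, inv_mul_cancel₀ ha, zero_mul] at this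
      linear_combination this
    refine LinearMap.ext fun u => ?_
    rw [Module.End.mul_apply, hΘ, hΘ, map_add, map_smul, Module.End.one_apply]
    have : u + φ u • v + (φ u + φ u • φ v) • v = u + (((2 : K) + φ v) * φ u) • v := by
      simp only [smul_eq_mul]
      module
    rw [this, h1, zero_mul, zero_smul, add_zero]
  have hd : Θ * X * Θ' - Θ' * X * Θ =
      ((1 : K) + ((1 : K) + φ v)⁻¹) • ((Θ - 1) * X - X * (Θ - 1)) := by
    rw [hΘ']
    generalize ((1 : K) + φ v)⁻¹ = b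
    obtain ⟨R, rfl⟩ : ∃ R, Θ = 1 + R := ⟨Θ - 1, by abel⟩
    simp only [add_sub_cancel_left, mul_sub, sub_mul, add_mul, mul_add, one_mul, mul_one,
      smul_mul_assoc, mul_smul_comm, add_smul, one_smul, smul_sub, smul_add, mul_assoc]
    abel
  have hmem : ((1 : K) + ((1 : K) + φ v)⁻¹) • ((Θ - 1) * X - X * (Θ - 1)) ∈ g := by
    rw [← hd]
    exact sub_mem (hN.n X hX) (hN.n' X hX)
  have := Submodule.smul_mem g ((1 : K) + ((1 : K) + φ v)⁻¹)⁻¹ hmem
  rwa [smul_smul, inv_mul_cancel₀ hc, one_smul] at this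

end Pool.Agent.Lib.MP_640417_ag.Tg
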