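import Pool.Agent.Lib.MP_640417_ag.Tg.SpecY
import Pool.Agent.Lib.MP_640417_ag.Tor.Main
import Pool.Agent.Lib.MP_640417_ag.Tor.Block
import Pool.Agent.Lib.MP_640417_ag.Tor.Adj
import Pool.Agent.Lib.MP_640417_ag.Tg.Perf
import Pool.Agent.Lib.MP_640417_ag.Tg.Span
import Pool.Agent.Lib.MP_640417_ag.Tg.Partner

/-!
# A nilpotent operator of small rank which normalizes the Lie algebra
-/

set_option autoImplicit false

namespace Pool.Agent.Lib.MP_640417_ag.Tg

open Module Pool.Agent.Lib.MP_640417_ag.Tor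

theorem pNrmS : SNrmS := by
  intro K U _ _ _ _ _ _ β g hS N hN hNN hN0 hrk hcom Y hY
  have anti : ∀ x y, β x y = - β y x := by
    intro x y
    have h := hS.alt (x + y)
    simp only [map_add, LinearMap.add_apply, hS.alt x, hS.alt y] at h
    linear_combination h
  have hcomN : ∀ X ∈ g, ∀ s : K, N * (X - s • (1 : Module.End K U)) - (X - s • 1) * N ∈ g := by
    intro X hX s
    have h1 : N * (X - s • (1 : Module.End K U)) - (X - s • 1) * N = N * X - X * N := by
      simp only [sub_mul, mul_sub, smul_mul_assoc, mul_smul_comm, one_mul, mul_one]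
      module
    rw [h1]
    exact hcom X hX
  -- brackets
  have hb0 : ∀ X ∈ skp β g, ∀ Z ∈ skp β g, X * Z - Z * X ∈ g := by
    rintro X ⟨-, s, hs⟩ Z ⟨-, t, ht⟩
    have h1 := hS.lie _ hs _ ht
    have h2 : (X + s • (1 : Module.End K U)) * (Z + t • (1 : Module.End K U)) -
        (Z + t • (1 : Module.End K U)) * (X + s • (1 : Module.End K U)) = X * Z - Z * X := by
      simp only [add_mul, mul_add, smul_mul_assoc, mul_smul_comm, one_mul, mul_one]
      module
    rwa [h2] at h1
  have hbN : ∀ X ∈ skp β g, N * X - X * N ∈ g := by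
    rintro X ⟨-, s, hs⟩
    have h1 := hcom _ hs
    have h2 : N * (X + s • (1 : Module.End K U)) - (X + s • (1 : Module.End K U)) * N =
        N * X - X * N := by
      simp only [add_mul, mul_add, smul_mul_assoc, mul_smul_comm, one_mul, mul_one]
      module
    rwa [h2] at h1
  let g₁ : Submodule K (Module.End K U) := skp β g ⊔ Submodule.span K {N}
  have hmem : ∀ X ∈ g₁, ∃ A ∈ skp β g, ∃ c : K, X = A + c • N := by
    intro X hX
    obtain ⟨A, hA, B, hB, rfl⟩ := Submodule.mem_sup.1 hX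
    obtain ⟨c, rfl⟩ := Submodule.mem_span_singleton.1 hB
    exact ⟨A, hA, c, rfl⟩
  have hbr : ∀ X ∈ g₁, ∀ Z ∈ g₁, X * Z - Z * X ∈ g := by
    intro X hX Z hZ
    obtain ⟨A, hA, c, rfl⟩ := hmem X hX
    obtain ⟨B, hB, d, rfl⟩ := hmem Z hZ
    have h1 : (A + c • N) * (B + d • N) - (B + d • N) * (A + c • N) =
        (A * B - B * A) + c • (N * B - B * N) - d • (N * A - A * N) := by
      simp only [add_mul, mul_add, smul_mul_assoc, mul_smul_comm, hNN]
      module
    rw [h1]
    exact sub_mem (add_mem (hb0 A hA B hB) (Submodule.smul_mem _ _ (hbN B hB)))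
      (Submodule.smul_mem _ _ (hbN A hA))
  have hsk : ∀ X ∈ g₁, Skew β X := by
    intro X hX x y
    obtain ⟨A, hA, c, rfl⟩ := hmem X hX
    rw [LinearMap.add_apply, map_add, LinearMap.add_apply, LinearMap.smul_apply, map_smul,
      LinearMap.smul_apply, hA.1, hN, LinearMap.add_apply, map_add, LinearMap.smul_apply,
      map_smul, smul_eq_mul, smul_eq_mul]
    ring
  have hle : skp β g ≤ g₁ := le_sup_left
  have hNmem : N ∈ g₁ := Submodule.mem_sup_right (Submodule.mem_span_singleton_self N)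
  have hdat : Dat β g₁ := by
    refine ⟨hS.alt, hS.nd, fun X hX Z hZ => hle ⟨(hsk X hX).lie (hsk Z hZ), 0, ?_⟩, hsk, ?_⟩
    · rw [zero_smul, add_zero]
      exact hbr X hX Z hZ
    · intro W hW
      exact hS.irr W le_top (Block_stable hS.mult fun X hX y hy => hW X (hle hX) y hy)
  obtain ⟨x₀, hx₀⟩ : ∃ x, N x ≠ 0 := by
    by_contra h
    push Not at h
    exact hN0 (LinearMap.ext h)
  haveI : Nontrivial U := ⟨N x₀, 0, hx₀⟩
  have hall : ∀ X, Skew β X → X ∈ g₁ := pMain K U β g₁ hdat N hNmem hNN (Or.inl ⟨hN0, hrk⟩)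
  -- the dimension
  have htwo : 2 ≤ rk (1 : Module.End K U) := by
    have h1 : LinearMap.range N ≤ LinearMap.ker N := by
      rintro _ ⟨y, rfl⟩
      rw [LinearMap.mem_ker, ← Module.End.mul_apply, hNN, LinearMap.zero_apply]
    have h2 := Submodule.finrank_mono h1
    have h3 := LinearMap.finrank_range_add_finrank_ker N
    have h4 : 0 < finrank K (LinearMap.range N) := by
      rw [Module.finrank_pos_iff_exists_ne_zero]
      exact ⟨⟨N x₀, x₀, rfl⟩, fun h => hx₀ (congrArg Subtype.val h)⟩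
    have h5 : rk (1 : Module.End K U) = finrank K U := by
      unfold rk
      rw [show LinearMap.range (1 : Module.End K U) = ⊤ from LinearMap.range_id, finrank_top]
    rw [h5]
    omega
  have hB : Blk β (1 : Module.End K U) True :=
    ⟨hS.alt, anti, hS.nd, one_mul 1, fun _ x y => rfl, htwo⟩
  have hYsb : Y ∈ sb β (1 : Module.End K U) True :=
    ⟨by rw [one_mul, mul_one], tr_skew β hS.nd hY, fun _ => hY⟩
  have hYd := pPerf pSpan pPartner K U β 1 True hB hYsb
  refine (Submodule.span_le.2 ?_ : der (sb β (1 : Module.End K U) True) ≤ g) hYd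
  rintro _ ⟨X, hX, Z, hZ, rfl⟩
  exact hbr X (hall X (hX.2.2 trivial)) Z (hall Z (hZ.2.2 trivial))

end Pool.Agent.Lib.MP_640417_ag.Tg
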