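import Pool.Agent.Lib.MP_640417_ag.Tg.SpecY

/-!
# Elements of small rank: constituents which are not self-dual
-/

set_option autoImplicit false

namespace Pool.Agent.Lib.MP_640417_ag.Tg

open Module Pool.Agent.Lib.MP_640417_ag Pool.Agent.Lib.MP_640417_ag.Tor

namespace PlcAA

variable {K V : Type} [Field K] [AddCommGroup V] [Module K V]

/-- An injective operator which maps a finite dimensional space `W` to `W`: its inverse does, too. -/
lemma inv_stable [FiniteDimensional K V] {W : Submodule K V} {θ θ' : Module.End K V}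
    (hl : θ' * θ = 1) (hW : ∀ x ∈ W, θ x ∈ W) : ∀ x ∈ W, θ' x ∈ W := by
  have h1 : ∀ x, θ' (θ x) = x := fun x => LinearMap.congr_fun hl x
  have hinj : Function.Injective θ := Function.LeftInverse.injective h1
  have h2 : W.map θ ≤ W := by
    rintro _ ⟨x, hx, rfl⟩
    exact hW x hx
  have h3 : W.map θ = W := Submodule.eq_of_le_of_finrank_eq h2
    (LinearEquiv.finrank_eq (Submodule.equivMapOfInjective θ hinj W)).symm
  intro x hx
  rw [← h3] at hx
  obtain ⟨y, hy, rfl⟩ := hx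
  rw [h1]
  exact hy

/-- The scaled restriction. -/
def sres {W : Submodule K V} {θ : Module.End K V} (hW : ∀ x ∈ W, θ x ∈ W) (c : K) :
    Module.End K W := c • LinearMap.restrict θ hW

lemma sres_coe {W : Submodule K V} {θ : Module.End K V} (hW : ∀ x ∈ W, θ x ∈ W) (c : K) (x : W) :
    ((sres hW c x : W) : V) = c • θ x := rfl

lemma sres_mul {W : Submodule K V} {θ θ' : Module.End K V} (hW : ∀ x ∈ W, θ x ∈ W)
    (hW' : ∀ x ∈ W, θ' x ∈ W) (c c' : K) (h : c * c' = 1) (hr : θ * θ' = 1) :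
    sres hW c * sres hW' c' = 1 := by
  refine LinearMap.ext fun x => Subtype.ext ?_
  rw [Module.End.mul_apply, sres_coe, sres_coe, map_smul, smul_smul, h, one_smul]
  exact LinearMap.congr_fun hr (x : V)

lemma sres_nrm {W : Submodule K V} {θ θ' : Module.End K V} (hW : ∀ x ∈ W, θ x ∈ W)
    (hW' : ∀ x ∈ W, θ' x ∈ W) (c c' : K) (h : c * c' = 1) {L : Submodule K (Module.End K V)}
    (hn : ∀ X ∈ L, θ * X * θ' ∈ L) {Y : Module.End K W} (hY : Y ∈ LW L W) :
    sres hW c * Y * sres hW' c' ∈ LW L W := by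
  obtain ⟨X, hX, hXY⟩ := hY
  refine ⟨θ * X * θ', hn X hX, fun x => ?_⟩
  have h1 := hXY (sres hW' c' x)
  rw [sres_coe, map_smul] at h1
  have h2 : (((sres hW c * Y * sres hW' c') x : W) : V) = c • θ (Y (sres hW' c' x)) := rfl
  rw [h2, ← h1, map_smul, smul_smul, h, one_smul]
  rfl

/-- The constant is not zero, and the rank is one. -/
lemma rank_one [FiniteDimensional K V] {W : Submodule K V} {θ : Module.End K V}
    (hW : ∀ x ∈ W, θ x ∈ W) {c : K} (hc : c ≠ 0) :
    rk (sres hW c⁻¹ - 1) = finrank K (W.map (θ - c • (1 : Module.End K V))) := by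
  unfold rk
  rw [← Submodule.finrank_map_subtype_eq W (LinearMap.range (sres hW c⁻¹ - 1))]
  have h1 : (LinearMap.range (sres hW c⁻¹ - 1)).map W.subtype =
      W.map (θ - c • (1 : Module.End K V)) := by
    have h2 : ∀ x : W, (((sres hW c⁻¹ - 1) x : W) : V) = c⁻¹ • (θ - c • (1 : Module.End K V)) x := by
      intro x
      rw [LinearMap.sub_apply, Submodule.coe_sub, sres_coe, LinearMap.sub_apply,
        LinearMap.smul_apply, smul_sub, smul_smul, inv_mul_cancel₀ hc, one_smul]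
      rfl
    apply le_antisymm
    · rintro _ ⟨_, ⟨x, rfl⟩, rfl⟩
      rw [Submodule.subtype_apply, h2]
      exact Submodule.smul_mem _ _ ⟨x, x.2, rfl⟩
    · rintro _ ⟨x, hx, rfl⟩
      refine ⟨(sres hW c⁻¹ - 1) (c • ⟨x, hx⟩), ⟨_, rfl⟩, ?_⟩
      rw [Submodule.subtype_apply, h2, Submodule.coe_smul, map_smul, smul_smul,
        inv_mul_cancel₀ hc, one_smul]
  rw [h1]

end PlcAA

open PlcAA in
theorem pPlcA (h1 : SNrmR) (h2 : SNrmOne) (h3 : SRefl) (h4 : SLWa) (h5 : STwW) : SPlcA := by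
  intro K V _ _ _ _ _ _ ψ L C hC hT W hirr hdual hdim θ θ' nrm hW c hrk
  have hW' := inv_stable nrm.l hW
  have hc : c ≠ 0 := by
    rintro rfl
    rw [zero_smul, sub_zero] at hrk
    have hinj : Function.Injective θ :=
      Function.LeftInverse.injective fun x => LinearMap.congr_fun nrm.l x
    have h6 := LinearEquiv.finrank_eq (Submodule.equivMapOfInjective θ hinj W)
    omega
  have hr : c⁻¹ * c = 1 := inv_mul_cancel₀ hc
  have hl : c * c⁻¹ = 1 := mul_inv_cancel₀ hc
  have N : Nrm (LW L W) (sres hW c⁻¹) (sres hW' c) :=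
    ⟨sres_mul hW hW' _ _ hr nrm.r, sres_mul hW' hW _ _ hl nrm.l,
      fun Y hY => sres_nrm hW hW' _ _ hr nrm.n hY,
      fun Y hY => sres_nrm hW' hW _ _ hl nrm.n' hY⟩
  have hrk1 : rk (sres hW c⁻¹ - 1) = 1 := (rank_one hW hc).trans hrk
  obtain ⟨hlie, hirrW⟩ := h4 K V L W hC.lie hirr
  have hform : ¬ ∃ ω : LinearMap.BilinForm K W, (∀ x, (∀ y, ω x y = 0) → x = 0) ∧
      ∀ X ∈ LW L W, ∃ c : K, ∀ x y, ω (X x) y + ω x (X y) = c * ω x y := by
    rintro ⟨ω, hω1, hω2⟩
    exact h5 K V ψ L C hC hT W hirr hdual hdim ω hω1 hω2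
  have main : ∀ X : Module.End K W, tr X = 0 → X ∈ LW L W := by
    by_cases hsq : sres hW c⁻¹ * sres hW c⁻¹ = 1
    · rcases h3 K W (LW L W) hlie hirrW _ _ N hrk1 hsq hdim with h | h
      · exact h
      · exact absurd h hform
    · rcases h2 K W (LW L W) hlie hirrW _ hrk1 (h1 K W (LW L W) _ _ N hrk1 hsq) with h | h
      · exact h
      · exact absurd h.2 hform
  intro Y hY _
  exact main Y hY

end Pool.Agent.Lib.MP_640417_ag.Tg
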