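import Pool.Agent.Lib.MP_640417_ag.Tg.SpecY

/-!
# Elements of small rank: self-dual constituents
-/

set_option autoImplicit false

namespace Pool.Agent.Lib.MP_640417_ag.Tg

open Module Pool.Agent.Lib.MP_640417_ag.Tor

theorem pPlcB (hUni : SUni) (hRotTwo : SRotTwo) (hMulOne : SMulOne) (hLWa : SLWa) (hSdW : SSdW) :
    SPlcB := by
  intro K V _ _ _ _ _ _ ψ L C hC N st ε hSys r u v hUV W hirr hdual hdim θ θ' hN hsim hθW c hc
  obtain ⟨μ, hμ⟩ := hsim
  obtain ⟨B, Balt, Bnd, Beq, Buniq⟩ := hSdW K V ψ L C hC N st ε hSys r u v hUV W hirr hdual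
  have hr : ∀ x, θ (θ' x) = x := fun x => by
    rw [← Module.End.mul_apply, hN.r, Module.End.one_apply]
  have hl : ∀ x, θ' (θ x) = x := fun x => by
    rw [← Module.End.mul_apply, hN.l, Module.End.one_apply]
  have hinj : Function.Injective θ := fun x y h => by
    rw [← hl x, ← hl y, h]
  -- `θ'` maps `W` to `W`
  have hmapfin : finrank K (W.map θ) = finrank K W :=
    (Submodule.equivMapOfInjective θ hinj W).finrank_eq.symm
  have hmapW : W.map θ = W := by
    apply Submodule.eq_of_le_of_finrank_eq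
    · rintro _ ⟨x, hx, rfl⟩
      exact hθW x hx
    · exact hmapfin
  have hθ'W : ∀ x ∈ W, θ' x ∈ W := by
    intro x hx
    rw [← hmapW] at hx
    obtain ⟨y, hy, rfl⟩ := hx
    rw [hl]
    exact hy
  have hc0 : c ≠ 0 := by
    rintro rfl
    rw [zero_smul, sub_zero, hmapfin] at hc
    omega
  -- the operators on `W`
  let Θ₀ : Module.End K W := θ.restrict hθW
  let Θ₁ : Module.End K W := θ'.restrict hθ'W
  have hΘ₀ : ∀ x : W, ((Θ₀ x : W) : V) = θ x := fun x => rfl
  have hΘ₁ : ∀ x : W, ((Θ₁ x : W) : V) = θ' x := fun x => rfl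
  let Θ : Module.End K W := c⁻¹ • Θ₀
  let Θ' : Module.End K W := c • Θ₁
  have hΘ : ∀ x : W, ((Θ x : W) : V) = c⁻¹ • θ x := fun x => rfl
  have hΘ' : ∀ x : W, ((Θ' x : W) : V) = c • θ' x := fun x => rfl
  have hNrm : Nrm (LW L W) Θ Θ' := by
    refine ⟨?_, ?_, ?_, ?_⟩
    · ext x
      rw [Module.End.mul_apply, Module.End.one_apply, hΘ, hΘ', map_smul, smul_smul,
        inv_mul_cancel₀ hc0, one_smul, hr]
    · ext x
      rw [Module.End.mul_apply, Module.End.one_apply, hΘ', hΘ, map_smul, smul_smul,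
        mul_inv_cancel₀ hc0, one_smul, hl]
    · rintro Y ⟨X, hX, hXY⟩
      refine ⟨θ * X * θ', hN.n X hX, fun x => ?_⟩
      rw [Module.End.mul_apply, Module.End.mul_apply, Module.End.mul_apply, Module.End.mul_apply,
        hΘ, ← hXY, hΘ', map_smul, map_smul, smul_smul, inv_mul_cancel₀ hc0, one_smul]
    · rintro Y ⟨X, hX, hXY⟩
      refine ⟨θ' * X * θ, hN.n' X hX, fun x => ?_⟩
      rw [Module.End.mul_apply, Module.End.mul_apply, Module.End.mul_apply, Module.End.mul_apply,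
        hΘ', ← hXY, hΘ, map_smul, map_smul, smul_smul, mul_inv_cancel₀ hc0, one_smul]
  -- the rank
  have hΘ1 : ∀ w : W, (((Θ - 1) w : W) : V) = c⁻¹ • θ w - w := fun w => rfl
  have hθc : ∀ w : V, (θ - c • (1 : Module.End K V)) w = θ w - c • w := fun w => rfl
  have hrkmap : (LinearMap.range (Θ - 1)).map W.subtype = W.map (θ - c • (1 : Module.End K V)) := by
    ext y
    constructor
    · rintro ⟨_, ⟨w, rfl⟩, rfl⟩
      refine ⟨c⁻¹ • (w : V), W.smul_mem _ w.2, ?_⟩
      rw [Submodule.subtype_apply, hΘ1, hθc, map_smul, smul_smul, mul_inv_cancel₀ hc0, one_smul]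
    · rintro ⟨w, hw, rfl⟩
      refine ⟨(Θ - 1) (c • ⟨w, hw⟩), ⟨_, rfl⟩, ?_⟩
      rw [Submodule.subtype_apply, hΘ1, hθc, Submodule.coe_smul, map_smul, smul_smul,
        inv_mul_cancel₀ hc0, one_smul]
  have hrk : rk (Θ - 1) = finrank K (W.map (θ - c • (1 : Module.End K V))) := by
    rw [← hrkmap]
    exact (Submodule.equivMapOfInjective W.subtype W.injective_subtype _).finrank_eq
  -- the form
  let β : LinearMap.BilinForm K W := B.compl₁₂ W.subtype W.subtype
  have hβ : ∀ x y : W, β x y = B x y := fun x y => rfl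
  have βalt : ∀ x, β x x = 0 := fun x => Balt x x.2
  have βnd : ∀ x, (∀ y, β x y = 0) → x = 0 := by
    intro x hx
    apply Subtype.ext
    exact Bnd x x.2 fun y hy => hx ⟨y, hy⟩
  have hmultθ : ∀ X ∈ L, ∀ m : K, (∀ x y, ψ (X x) y + ψ x (X y) = m * ψ x y) →
      ∀ x y, ψ ((θ * X * θ') x) y + ψ x ((θ * X * θ') y) = m * ψ x y := by
    intro X _ m hm x y
    have h1 := hμ (X (θ' x)) (θ' y)
    have h2 := hμ (θ' x) (X (θ' y))
    have h3 := hμ (θ' x) (θ' y)
    have h4 := hm (θ' x) (θ' y)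
    rw [hr] at h1 h2 h3
    rw [hr] at h3
    simp only [Module.End.mul_apply]
    rw [h1, h2, h3]
    linear_combination μ * h4
  obtain ⟨t, ht⟩ := Buniq (B.compl₁₂ θ θ) (by
    intro X hX m hm x hx y hy
    have h1 := Beq _ (hN.n X hX) m (hmultθ X hX m hm) (θ x) (hθW x hx) (θ y) (hθW y hy)
    simp only [Module.End.mul_apply, hl] at h1
    exact h1)
  have hsimβ : ∀ x y, β (Θ x) (Θ y) = (c⁻¹ * c⁻¹ * t) * β x y := by
    intro x y
    have h1 : B (θ x) (θ y) = t * B x y := ht x x.2 y y.2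
    rw [hβ, hβ, hΘ, hΘ, map_smul, map_smul, LinearMap.smul_apply, smul_eq_mul, smul_eq_mul, h1]
    ring
  obtain ⟨hlie, hirrW⟩ := hLWa K V L W hC.lie hirr
  have hSim : Sim β (LW L W) := by
    refine ⟨βalt, βnd, hlie, hirrW, ?_⟩
    rintro Y ⟨X, hX, hXY⟩
    obtain ⟨m, hm⟩ := hC.mult X hX
    refine ⟨m, fun x y => ?_⟩
    have h1 := Beq X hX m hm x x.2 y y.2
    rw [hXY, hXY] at h1
    exact h1
  have hall : ∀ Y, Skew β Y → Y ∈ LW L W := by
    rcases hc with hc1 | ⟨hc2, hd4, x₀, hx₀, hne⟩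
    · have hrk1 : rk (Θ - 1) = 1 := by rw [hrk, hc1]
      have hone : c⁻¹ * c⁻¹ * t = 1 := hMulOne K W β βalt βnd Θ _ hsimβ (by rw [hrk1]; omega)
      have hiso : ∀ x y, β (Θ x) (Θ y) = β x y := fun x y => by rw [hsimβ, hone, one_mul]
      refine hUni K W β (LW L W) hSim Θ Θ' hNrm hiso ?_ (by rw [hrk1]; omega) ?_
      · rintro h
        rw [h, sub_self] at hrk1
        unfold rk at hrk1
        rw [LinearMap.range_zero, finrank_bot] at hrk1
        omega
      · intro x y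
        obtain ⟨w, -, hw⟩ := finrank_eq_one_iff'.1 hrk1
        obtain ⟨a, ha⟩ := hw ⟨(Θ - 1) x, x, rfl⟩
        obtain ⟨b, hb⟩ := hw ⟨(Θ - 1) y, y, rfl⟩
        have ha' : a • (w : W) = (Θ - 1) x := congrArg Subtype.val ha
        have hb' : b • (w : W) = (Θ - 1) y := congrArg Subtype.val hb
        rw [← ha', ← hb', map_smul, map_smul, LinearMap.smul_apply, βalt, smul_zero, smul_zero]
    · have hrk2 : rk (Θ - 1) = 2 := by rw [hrk, hc2]
      have hone : c⁻¹ * c⁻¹ * t = 1 := hMulOne K W β βalt βnd Θ _ hsimβ (by rw [hrk2]; omega)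
      have hiso : ∀ x y, β (Θ x) (Θ y) = β x y := fun x y => by rw [hsimβ, hone, one_mul]
      refine hRotTwo K W β (LW L W) hSim Θ Θ' hNrm hiso hrk2 ?_ hd4
      intro h
      apply hne
      have h1 : ((Θ (Θ ⟨x₀, hx₀⟩) : W) : V) = x₀ := by
        rw [← Module.End.mul_apply, h, Module.End.one_apply]
      rw [hΘ, hΘ, map_smul, smul_smul] at h1
      have h2 : (c * c) • ((c⁻¹ * c⁻¹) • θ (θ x₀)) = (c * c) • x₀ := congrArg ((c * c) • ·) h1
      rw [smul_smul, show c * c * (c⁻¹ * c⁻¹) = 1 by field_simp, one_smul] at h2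
      exact h2
  intro Y _ hY
  have h1 := hY B Beq
  obtain ⟨X, hX, hXY⟩ := hall Y fun x y => by
    rw [hβ, hβ]
    linear_combination h1 x y
  exact ⟨X, hX, hXY⟩

end Pool.Agent.Lib.MP_640417_ag.Tg
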