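import Pool.Agent.Lib.MP_640417_ag.Tg.SpecY

/-!
# Elements of the group which act with small rank: reflections
-/

set_option autoImplicit false

namespace Pool.Agent.Lib.MP_640417_ag.Tg

open Module Pool.Agent.Lib.MP_640417_ag.Tor

/-- an operator of rank one is `u ↦ φ u • v` -/
private lemma refl_one {K U : Type} [Field K] [AddCommGroup U] [Module K U] [FiniteDimensional K U]
    {e : Module.End K U} (he : rk e = 1) :
    ∃ (v : U) (φ : Module.Dual K U), ∀ u, e u = φ u • v := by
  obtain ⟨v, hv, hv'⟩ := finrank_eq_one_iff'.1 he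
  have hv0 : (v : U) ≠ 0 := fun h => hv (Subtype.ext h)
  obtain ⟨f, hf⟩ : ∃ f : Module.Dual K U, f (v : U) ≠ 0 := by
    by_contra hcon
    push Not at hcon
    exact hv0 ((Module.forall_dual_apply_eq_zero_iff K (v : U)).1 hcon)
  have key : ∀ u, e u = ((f (v : U))⁻¹ * f (e u)) • (v : U) := by
    intro u
    obtain ⟨c, hc⟩ := hv' ⟨e u, ⟨u, rfl⟩⟩
    have hc' : c • (v : U) = e u := congrArg Subtype.val hc
    have : f (e u) = c * f (v : U) := by rw [← hc', map_smul, smul_eq_mul]
    rw [this, ← hc']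
    congr 1
    field_simp
  exact ⟨v, (f (v : U))⁻¹ • (f ∘ₗ e), key⟩

/-- a nonzero operator with values on a line has rank one -/
private lemma refl_rk {K U : Type} [Field K] [AddCommGroup U] [Module K U] [FiniteDimensional K U]
    {X : Module.End K U} (hX : X ≠ 0) (w : U) (h : ∀ u, ∃ c : K, X u = c • w) : rk X = 1 := by
  obtain ⟨u, hu⟩ : ∃ u, X u ≠ 0 := by
    by_contra hcon
    push Not at hcon
    exact hX (LinearMap.ext hcon)
  have hw : w ≠ 0 := by
    rintro rfl
    obtain ⟨c, hc⟩ := h u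
    exact hu (by rw [hc, smul_zero])
  have hr : LinearMap.range X = Submodule.span K {w} := by
    apply le_antisymm
    · rintro _ ⟨y, rfl⟩
      obtain ⟨c, hc⟩ := h y
      rw [hc]
      exact Submodule.smul_mem _ _ (Submodule.mem_span_singleton_self w)
    · rw [Submodule.span_singleton_le_iff_mem]
      obtain ⟨c, hc⟩ := h u
      have hc0 : c ≠ 0 := by
        rintro rfl
        exact hu (by rw [hc, zero_smul])
      exact ⟨c⁻¹ • u, by rw [map_smul, hc, smul_smul, inv_mul_cancel₀ hc0, one_smul]⟩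
  unfold rk
  rw [hr]
  exact finrank_span_singleton hw

/-- the operators of `g` which anticommute with `Θ` -/
private def Gm {K U : Type} [Field K] [AddCommGroup U] [Module K U]
    (g : Submodule K (Module.End K U)) (Θ : Module.End K U) : Submodule K (Module.End K U) where
  carrier := {X | X ∈ g ∧ ∀ u, Θ (X u) = - X (Θ u)}
  add_mem' := by
    rintro X Y ⟨h1, h2⟩ ⟨h3, h4⟩
    refine ⟨add_mem h1 h3, fun u => ?_⟩
    rw [LinearMap.add_apply, map_add, h2, h4, LinearMap.add_apply]
    abel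
  zero_mem' := ⟨zero_mem _, fun u => by simp⟩
  smul_mem' := by
    rintro c X ⟨h1, h2⟩
    refine ⟨Submodule.smul_mem _ _ h1, fun u => ?_⟩
    rw [LinearMap.smul_apply, map_smul, h2, LinearMap.smul_apply, smul_neg]

/-- the operators of `g` which commute with `Θ` -/
private def Gp {K U : Type} [Field K] [AddCommGroup U] [Module K U]
    (g : Submodule K (Module.End K U)) (Θ : Module.End K U) (X : Module.End K U) : Prop :=
  X ∈ g ∧ ∀ u, Θ (X u) = X (Θ u)

theorem pRefl (hCls : SCls) : SRefl := by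
  intro K U _ _ _ _ _ _ g lie irr Θ Θ' hN hrk hΘΘ h3
  classical
  have h2 : (2 : K) ≠ 0 := two_ne_zero
  obtain ⟨v, φ₀, hφ₀⟩ := refl_one hrk
  let φ : Module.Dual K U := -φ₀
  have hΘ : ∀ u, Θ u = u - φ u • v := by
    intro u
    have h := hφ₀ u
    rw [LinearMap.sub_apply, Module.End.one_apply] at h
    show Θ u = u - (-φ₀ u) • v
    rw [neg_smul, ← h]
    abel
  have hne : Θ - 1 ≠ 0 := by
    intro h
    rw [h] at hrk
    unfold rk at hrk
    rw [LinearMap.range_zero, finrank_bot] at hrk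
    exact absurd hrk (by norm_num)
  obtain ⟨u₀, hu₀⟩ : ∃ u, φ u • v ≠ 0 := by
    by_contra hcon
    push Not at hcon
    refine hne (LinearMap.ext fun u => ?_)
    rw [LinearMap.sub_apply, Module.End.one_apply, hΘ u, hcon u, sub_zero, sub_self]
    rfl
  have hv0 : v ≠ 0 := by
    rintro rfl
    exact hu₀ (smul_zero _)
  have hφu : φ u₀ ≠ 0 := by
    intro h
    exact hu₀ (by rw [h, zero_smul])
  have hΘΘ' : ∀ u, Θ (Θ u) = u := fun u => by
    have := LinearMap.congr_fun hΘΘ u
    exact this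
  have hφv : φ v = 2 := by
    have h := hΘΘ' u₀
    rw [hΘ (Θ u₀), hΘ u₀, map_sub, map_smul, smul_eq_mul] at h
    have h4 : (φ u₀ * (φ v - 2)) • v = 0 := by
      have h5 : (φ u₀ * (φ v - 2)) • v =
          (u₀ - φ u₀ • v - (φ u₀ - φ u₀ * φ v) • v) - u₀ := by
        module
      rw [h5, h, sub_self]
    rcases smul_eq_zero.1 h4 with h5 | h5
    · rcases mul_eq_zero.1 h5 with h6 | h6
      · exact absurd h6 hφu
      · exact sub_eq_zero.1 h6
    · exact absurd h5 hv0
  have hΘv : Θ v = - v := by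
    rw [hΘ v, hφv]
    module
  have hΘz : ∀ z, φ z = 0 → Θ z = z := fun z hz => by rw [hΘ z, hz, zero_smul, sub_zero]
  have hΘ'eq : Θ' = Θ := by
    have h := congrArg (fun M => Θ * M) hN.r
    simp only [← mul_assoc] at h
    rw [hΘΘ, one_mul, mul_one] at h
    exact h
  have hcon : ∀ X ∈ g, Θ * X * Θ ∈ g := by
    intro X hX
    have := hN.n X hX
    rw [hΘ'eq] at this
    exact this
  -- decomposition
  have hdec : ∀ X ∈ g, ∃ Y X', Gp g Θ Y ∧ X' ∈ Gm g Θ ∧ X = Y + X' := by
    intro X hX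
    refine ⟨(2 : K)⁻¹ • (X + Θ * X * Θ), (2 : K)⁻¹ • (X - Θ * X * Θ), ⟨?_, ?_⟩, ⟨?_, ?_⟩, ?_⟩
    · exact Submodule.smul_mem _ _ (add_mem hX (hcon X hX))
    · intro u
      simp only [LinearMap.smul_apply, LinearMap.add_apply, Module.End.mul_apply, map_smul, map_add,
        hΘΘ']
      rw [add_comm]
    · exact Submodule.smul_mem _ _ (sub_mem hX (hcon X hX))
    · intro u
      simp only [LinearMap.smul_apply, LinearMap.sub_apply, Module.End.mul_apply, map_smul, map_sub,
        hΘΘ']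
      module
    · have : (2 : K)⁻¹ • (X + Θ * X * Θ) + (2 : K)⁻¹ • (X - Θ * X * Θ) =
          ((2 : K)⁻¹ * 2) • X := by module
      rw [this, inv_mul_cancel₀ h2, one_smul]
  -- facts
  have m1 : ∀ X ∈ Gm g Θ, φ (X v) = 0 := by
    rintro X ⟨hX, hX'⟩
    have h := hX' v
    rw [hΘv, map_neg, neg_neg, hΘ (X v)] at h
    have h4 : φ (X v) • v = 0 := by
      have h5 : φ (X v) • v = X v - (X v - φ (X v) • v) := by abel
      rw [h5, h, sub_self]
    rcases smul_eq_zero.1 h4 with h5 | h5
    · exact h5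
    · exact absurd h5 hv0
  have m2 : ∀ X ∈ Gm g Θ, ∀ z, φ z = 0 → X z = (2⁻¹ * φ (X z)) • v := by
    rintro X ⟨hX, hX'⟩ z hz
    have h := hX' z
    rw [hΘz z hz, hΘ (X z)] at h
    have h4 : X z = (2⁻¹ * φ (X z)) • v + (2 : K)⁻¹ • ((X z - φ (X z) • v) - (- X z)) := by
      have h5 : (2⁻¹ * φ (X z)) • v + (2 : K)⁻¹ • ((X z - φ (X z) • v) - (- X z)) =
          ((2 : K)⁻¹ * 2) • X z := by module
      rw [h5, inv_mul_cancel₀ h2, one_smul]
    rw [h, sub_self, smul_zero, add_zero] at h4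
    exact h4
  have p1 : ∀ Y, Gp g Θ Y → Y v = (2⁻¹ * φ (Y v)) • v := by
    rintro Y ⟨hY, hY'⟩
    have h := hY' v
    rw [hΘv, map_neg, hΘ (Y v)] at h
    have h4 : Y v = (2⁻¹ * φ (Y v)) • v + (2 : K)⁻¹ • ((Y v - φ (Y v) • v) - (- Y v)) := by
      have h5 : (2⁻¹ * φ (Y v)) • v + (2 : K)⁻¹ • ((Y v - φ (Y v) • v) - (- Y v)) =
          ((2 : K)⁻¹ * 2) • Y v := by module
      rw [h5, inv_mul_cancel₀ h2, one_smul]
    rw [h, sub_self, smul_zero, add_zero] at h4
    exact h4
  have p2 : ∀ Y, Gp g Θ Y → ∀ z, φ z = 0 → φ (Y z) = 0 := by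
    rintro Y ⟨hY, hY'⟩ z hz
    have h := hY' z
    rw [hΘz z hz, hΘ (Y z)] at h
    have h4 : φ (Y z) • v = 0 := by
      have h5 : φ (Y z) • v = Y z - (Y z - φ (Y z) • v) := by abel
      rw [h5, h, sub_self]
    rcases smul_eq_zero.1 h4 with h5 | h5
    · exact h5
    · exact absurd h5 hv0
  have bpm : ∀ Y, Gp g Θ Y → ∀ X ∈ Gm g Θ, Y * X - X * Y ∈ Gm g Θ := by
    rintro Y ⟨hY, hY'⟩ X ⟨hX, hX'⟩
    refine ⟨lie Y hY X hX, fun u => ?_⟩
    simp only [LinearMap.sub_apply, Module.End.mul_apply, map_sub]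
    rw [hY', hX' (Y u), hY', hX', map_neg]
    abel
  have bmm : ∀ X ∈ Gm g Θ, ∀ X' ∈ Gm g Θ, Gp g Θ (X * X' - X' * X) := by
    rintro X ⟨hX, hX'⟩ Y ⟨hY, hY'⟩
    refine ⟨lie X hX Y hY, fun u => ?_⟩
    simp only [LinearMap.sub_apply, Module.End.mul_apply, map_sub]
    rw [hX', hY', hY', hX', map_neg, map_neg, neg_neg, neg_neg]
  -- (1)
  have st1 : ∀ z, φ z = 0 → ∃ X ∈ Gm g Θ, X v = z := by
    let W₁ : Submodule K U :=
      { carrier := {u | ∃ c : K, ∃ X ∈ Gm g Θ, u = c • v + X v}
        add_mem' := by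
          rintro _ _ ⟨c, X, hX, rfl⟩ ⟨c', X', hX', rfl⟩
          exact ⟨c + c', X + X', add_mem hX hX', by rw [LinearMap.add_apply]; module⟩
        zero_mem' := ⟨0, 0, zero_mem _, by simp⟩
        smul_mem' := by
          rintro a _ ⟨c, X, hX, rfl⟩
          exact ⟨a * c, a • X, Submodule.smul_mem _ _ hX, by rw [LinearMap.smul_apply]; module⟩ }
    have hst : ∀ X ∈ g, ∀ y ∈ W₁, X y ∈ W₁ := by
      rintro X hX _ ⟨c, X', hX', rfl⟩
      obtain ⟨Y, X₂, hY, hX₂, rfl⟩ := hdec X hX
      have e1 : Y (X' v) = (Y * X' - X' * Y) v + X' (Y v) := by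
        simp only [LinearMap.sub_apply, Module.End.mul_apply]
        abel
      have e2 : X₂ (X' v) = (2⁻¹ * φ (X₂ (X' v))) • v := m2 X₂ hX₂ _ (m1 X' hX')
      refine ⟨c * (2⁻¹ * φ (Y v)) + 2⁻¹ * φ (X₂ (X' v)),
        (Y * X' - X' * Y) + (2⁻¹ * φ (Y v)) • X' + c • X₂,
        add_mem (add_mem (bpm Y hY X' hX') (Submodule.smul_mem _ _ hX'))
          (Submodule.smul_mem _ _ hX₂), ?_⟩
      rw [LinearMap.add_apply, map_add, map_add, map_smul, map_smul, e1, e2, p1 Y hY, map_smul]
      simp only [LinearMap.add_apply, LinearMap.smul_apply, map_smul, smul_eq_mul, hφv]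
      have e3 : (2 : K)⁻¹ * (2⁻¹ * φ (Y v) * 2) = 2⁻¹ * φ (Y v) := by
        field_simp
      rw [e3]
      module
    have hv1 : v ∈ W₁ := ⟨1, 0, zero_mem _, by simp⟩
    have htop : W₁ = ⊤ := by
      rcases irr W₁ le_top hst with h | h
      · rw [h] at hv1
        exact absurd ((Submodule.mem_bot K).1 hv1) hv0
      · exact h
    intro z hz
    have hz1 : z ∈ W₁ := by rw [htop]; exact Submodule.mem_top
    obtain ⟨c, X, hX, hcz⟩ := hz1
    have hc : c = 0 := by
      have h := congrArg φ hcz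
      rw [hz, map_add, map_smul, smul_eq_mul, hφv, m1 X hX, add_zero] at h
      rcases mul_eq_zero.1 h.symm with h4 | h4
      · exact h4
      · exact absurd h4 h2
    exact ⟨X, hX, by rw [hcz, hc, zero_smul, zero_add]⟩
  -- (3)
  by_cases hA : ∃ X ∈ Gm g Θ, X ≠ 0 ∧ (X v = 0 ∨ ∀ z, φ z = 0 → X z = 0)
  · obtain ⟨X, hX, hX0, hX1⟩ := hA
    have hsplit : ∀ u, u = (2⁻¹ * φ u) • v + (u - (2⁻¹ * φ u) • v) := fun u => by abel
    have hpr : ∀ u, φ (u - (2⁻¹ * φ u) • v) = 0 := by
      intro u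
      rw [map_sub, map_smul, smul_eq_mul, hφv]
      field_simp
      ring
    have hfin : X * X = 0 ∧ rk X = 1 := by
      rcases hX1 with hX1 | hX1
      · have h4 : ∀ u, ∃ c : K, X u = c • v := by
          intro u
          refine ⟨2⁻¹ * φ (X (u - (2⁻¹ * φ u) • v)), ?_⟩
          rw [← m2 X hX _ (hpr u), map_sub, map_smul, hX1, smul_zero, sub_zero]
        refine ⟨LinearMap.ext fun u => ?_, refl_rk hX0 v h4⟩
        obtain ⟨c, hc⟩ := h4 u
        rw [Module.End.mul_apply, hc, map_smul, hX1, smul_zero]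
        rfl
      · have h4 : ∀ u, X u = (2⁻¹ * φ u) • X v := by
          intro u
          have h5 := hX1 _ (hpr u)
          rw [map_sub, map_smul, sub_eq_zero] at h5
          exact h5
        refine ⟨LinearMap.ext fun u => ?_, refl_rk hX0 (X v) fun u => ⟨_, h4 u⟩⟩
        rw [Module.End.mul_apply, h4 u, map_smul, hX1 _ (m1 X hX), smul_zero]
        rfl
    rcases hCls K U g lie irr X hX.1 hfin.1 hfin.2 with h | ⟨_, ω, _, h5, h6⟩
    · exact Or.inl h
    · exact Or.inr ⟨ω, h5, h6⟩
  right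
  push Not at hA
  -- uniqueness
  have uniq : ∀ X ∈ Gm g Θ, X v = 0 → X = 0 := by
    intro X hX h
    by_contra h0
    exact (hA X hX h0).1 h
  have uniq2 : ∀ X ∈ Gm g Θ, (∀ z, φ z = 0 → X z = 0) → X = 0 := by
    intro X hX h
    by_contra h0
    obtain ⟨z, hz, hz'⟩ := (hA X hX h0).2
    exact hz' (h z hz)
  -- the operators `E`
  let ev : Gm g Θ →ₗ[K] U := (LinearMap.applyₗ v).comp (Gm g Θ).subtype
  have hev : ∀ X : Gm g Θ, ev X = (X : Module.End K U) v := fun X => rfl
  have hinj : Function.Injective ev := by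
    rw [← LinearMap.ker_eq_bot, LinearMap.ker_eq_bot']
    intro X hX
    exact Subtype.ext (uniq X X.2 hX)
  let P : U →ₗ[K] U := LinearMap.id - (2⁻¹ : K) • (φ.smulRight v)
  have hP : ∀ u, P u = u - (2⁻¹ * φ u) • v := by
    intro u
    show u - (2⁻¹ : K) • (φ u • v) = _
    rw [smul_smul]
  have hPφ : ∀ u, φ (P u) = 0 := by
    intro u
    rw [hP, map_sub, map_smul, smul_eq_mul, hφv]
    field_simp
    ring
  have hPz : ∀ z, φ z = 0 → P z = z := by
    intro z hz
    rw [hP, hz, mul_zero, zero_smul, sub_zero]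
  have hPv : P v = 0 := by
    rw [hP, hφv, inv_mul_cancel₀ h2, one_smul, sub_self]
  have hPr : ∀ u, P u ∈ LinearMap.range ev := by
    intro u
    obtain ⟨X, hX, hXv⟩ := st1 (P u) (hPφ u)
    exact ⟨⟨X, hX⟩, hXv⟩
  let E : U →ₗ[K] Gm g Θ :=
    ((LinearEquiv.ofInjective ev hinj).symm : LinearMap.range ev →ₗ[K] Gm g Θ).comp
      (P.codRestrict (LinearMap.range ev) hPr)
  have hE : ∀ u, (E u : Module.End K U) v = P u := by
    intro u
    have h : (LinearEquiv.ofInjective ev hinj) (E u) = P.codRestrict (LinearMap.range ev) hPr u :=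
      LinearEquiv.apply_symm_apply _ _
    have h' := congrArg Subtype.val h
    exact h'
  have hEz : ∀ z, φ z = 0 → (E z : Module.End K U) v = z := fun z hz => by rw [hE, hPz z hz]
  have hEm : ∀ u, (E u : Module.End K U) ∈ Gm g Θ := fun u => (E u).2
  -- the form on `Z`
  let lam : U → U → K := fun z z' => 2⁻¹ * φ ((E z : Module.End K U) z')
  have hlam : ∀ z z', φ z' = 0 → (E z : Module.End K U) z' = lam z z' • v := fun z z' hz' =>
    m2 _ (hEm z) z' hz'
  have lam_add1 : ∀ x y z, lam (x + y) z = lam x z + lam y z := by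
    intro x y z
    show 2⁻¹ * φ ((E (x + y) : Module.End K U) z) = _
    rw [map_add, Submodule.coe_add, LinearMap.add_apply, map_add, mul_add]
  have lam_smul1 : ∀ (c : K) x z, lam (c • x) z = c * lam x z := by
    intro c x z
    show 2⁻¹ * φ ((E (c • x) : Module.End K U) z) = c * (2⁻¹ * φ ((E x : Module.End K U) z))
    rw [map_smul, Submodule.coe_smul, LinearMap.smul_apply, map_smul, smul_eq_mul]
    ring
  have lam_add2 : ∀ x y z, lam x (y + z) = lam x y + lam x z := by
    intro x y z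
    show 2⁻¹ * φ ((E x : Module.End K U) (y + z)) = _
    rw [map_add, map_add, mul_add]
  have lam_smul2 : ∀ (c : K) x z, lam x (c • z) = c * lam x z := by
    intro c x z
    show 2⁻¹ * φ ((E x : Module.End K U) (c • z)) = c * (2⁻¹ * φ ((E x : Module.End K U) z))
    rw [map_smul, map_smul, smul_eq_mul]
    ring
  have lam_nd : ∀ z, φ z = 0 → (∀ z', φ z' = 0 → lam z z' = 0) → z = 0 := by
    intro z hz h
    have h4 : (E z : Module.End K U) = 0 := uniq2 _ (hEm z) fun z' hz' => by
      rw [hlam z z' hz', h z' hz', zero_smul]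
    rw [← hEz z hz, h4]
    rfl
  -- (5)
  have h5 : ∀ Y, Gp g Θ Y → ∀ w z, φ w = 0 → φ z = 0 →
      lam (Y w) z + lam w (Y z) = 2 * (2⁻¹ * φ (Y v)) * lam w z := by
    intro Y hY w z hw hz
    set y : K := 2⁻¹ * φ (Y v) with hy
    have hYv : Y v = y • v := p1 Y hY
    have hYw : φ (Y w) = 0 := p2 Y hY w hw
    have hYz : φ (Y z) = 0 := p2 Y hY z hz
    have hmem : (Y * (E w : Module.End K U) - (E w : Module.End K U) * Y) -
        (E (Y w - y • w) : Module.End K U) ∈ Gm g Θ := sub_mem (bpm Y hY _ (hEm w)) (hEm _)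
    have hφ' : φ (Y w - y • w) = 0 := by rw [map_sub, hYw, map_smul, hw, smul_zero, sub_zero]
    have h0 := uniq _ hmem (by
      simp only [LinearMap.sub_apply, Module.End.mul_apply]
      rw [hEz w hw, hYv, map_smul, hEz w hw, hEz _ hφ', sub_self])
    have h4 := LinearMap.congr_fun h0 z
    simp only [LinearMap.sub_apply, Module.End.mul_apply, LinearMap.zero_apply] at h4
    rw [hlam w z hz, hlam w (Y z) hYz, hlam _ z hz, map_smul, hYv, smul_smul, ← sub_smul,
      ← sub_smul] at h4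
    have h6 : lam w z * y - lam w (Y z) - lam (Y w - y • w) z = 0 := by
      rcases smul_eq_zero.1 h4 with h7 | h7
      · exact h7
      · exact absurd h7 hv0
    have h7 : lam (Y w - y • w) z = lam (Y w) z - y * lam w z := by
      have h8 : Y w - y • w = Y w + (-y) • w := by module
      rw [h8, lam_add1, lam_smul1]
      ring
    rw [h7] at h6
    linear_combination (-1 : K) * h6
  -- (6)
  have symm : ∀ u u', φ u = 0 → φ u' = 0 → lam u u' = lam u' u := by
    intro u u' hu hu'
    by_contra hne'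
    apply hne'
    have hY := bmm _ (hEm u) _ (hEm u')
    set Y : Module.End K U := (E u : Module.End K U) * (E u' : Module.End K U) -
      (E u' : Module.End K U) * (E u : Module.End K U) with hYdef
    have hYv : Y v = (lam u u' - lam u' u) • v := by
      rw [hYdef]
      simp only [LinearMap.sub_apply, Module.End.mul_apply]
      rw [hEz u hu, hEz u' hu', hlam u u' hu', hlam u' u hu, sub_smul]
    have hYz : ∀ z, φ z = 0 → Y z = lam u' z • u - lam u z • u' := by
      intro z hz
      rw [hYdef]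
      simp only [LinearMap.sub_apply, Module.End.mul_apply]
      rw [hlam u' z hz, hlam u z hz, map_smul, map_smul, hEz u hu, hEz u' hu']
    have hy : 2⁻¹ * φ (Y v) = lam u u' - lam u' u := by
      rw [hYv, map_smul, smul_eq_mul, hφv]
      field_simp
    have hu0 : u = 0 := by
      refine lam_nd u hu fun z hz => ?_
      have h4 := h5 Y hY u z hu hz
      rw [hy, hYz u hu, hYz z hz] at h4
      have e1 : lam (lam u' u • u - lam u u • u') z = lam u' u * lam u z - lam u u * lam u' z := by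
        have h8 : lam u' u • u - lam u u • u' = lam u' u • u + (-(lam u u)) • u' := by module
        rw [h8, lam_add1, lam_smul1, lam_smul1]
        ring
      have e2 : lam u (lam u' z • u - lam u z • u') = lam u' z * lam u u - lam u z * lam u u' := by
        have h8 : lam u' z • u - lam u z • u' = lam u' z • u + (-(lam u z)) • u' := by module
        rw [h8, lam_add2, lam_smul2, lam_smul2]
        ring
      rw [e1, e2] at h4
      have h6 : 3 * ((lam u u' - lam u' u) * lam u z) = 0 := by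
        linear_combination (-1 : K) * h4
      rcases mul_eq_zero.1 h6 with h7 | h7
      · exact absurd h7 three_ne_zero
      · rcases mul_eq_zero.1 h7 with h8 | h8
        · exact absurd (sub_eq_zero.1 h8) hne'
        · exact h8
    have l1 : ∀ z, lam 0 z = 0 := by
      intro z
      have := lam_smul1 0 0 z
      rw [zero_smul, zero_mul] at this
      exact this
    have l2 : ∀ z, lam z 0 = 0 := by
      intro z
      have := lam_smul2 0 z 0
      rw [zero_smul, zero_mul] at this
      exact this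
    rw [hu0, l1, l2]
  -- (7)
  let ω : LinearMap.BilinForm K U := LinearMap.mk₂ K
    (fun x y => -((2⁻¹ * φ x) * (2⁻¹ * φ y)) + lam (P x) (P y))
    (fun x y z => by
      show -((2⁻¹ * φ (x + y)) * (2⁻¹ * φ z)) + lam (P (x + y)) (P z) =
        (-((2⁻¹ * φ x) * (2⁻¹ * φ z)) + lam (P x) (P z)) +
        (-((2⁻¹ * φ y) * (2⁻¹ * φ z)) + lam (P y) (P z))
      rw [map_add, map_add, lam_add1]
      ring)
    (fun c x z => by
      show -((2⁻¹ * φ (c • x)) * (2⁻¹ * φ z)) + lam (P (c • x)) (P z) =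
        c • (-((2⁻¹ * φ x) * (2⁻¹ * φ z)) + lam (P x) (P z))
      rw [map_smul, map_smul, lam_smul1, smul_eq_mul, smul_eq_mul]
      ring)
    (fun x y z => by
      show -((2⁻¹ * φ x) * (2⁻¹ * φ (y + z))) + lam (P x) (P (y + z)) =
        (-((2⁻¹ * φ x) * (2⁻¹ * φ y)) + lam (P x) (P y)) +
        (-((2⁻¹ * φ x) * (2⁻¹ * φ z)) + lam (P x) (P z))
      rw [map_add, map_add, lam_add2]
      ring)
    (fun c x z => by
      show -((2⁻¹ * φ x) * (2⁻¹ * φ (c • z))) + lam (P x) (P (c • z)) =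
        c • (-((2⁻¹ * φ x) * (2⁻¹ * φ z)) + lam (P x) (P z))
      rw [map_smul, map_smul, lam_smul2, smul_eq_mul, smul_eq_mul]
      ring)
  have hω : ∀ x y, ω x y = -((2⁻¹ * φ x) * (2⁻¹ * φ y)) + lam (P x) (P y) := fun x y => rfl
  have l2 : ∀ z, lam z 0 = 0 := by
    intro z
    have := lam_smul2 0 z 0
    rw [zero_smul, zero_mul] at this
    exact this
  have l1 : ∀ z, lam 0 z = 0 := by
    intro z
    have := lam_smul1 0 0 z
    rw [zero_smul, zero_mul] at this
    exact this
  refine ⟨ω, ?_, ?_⟩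
  · intro x hx
    have hx1 : φ x = 0 := by
      have h := hx v
      rw [hω, hPv, l2, hφv, inv_mul_cancel₀ h2, mul_one, add_zero, neg_eq_zero] at h
      rcases mul_eq_zero.1 h with h4 | h4
      · exact absurd h4 (inv_ne_zero h2)
      · exact h4
    refine lam_nd x hx1 fun z hz => ?_
    have h := hx z
    rw [hω, hx1, mul_zero, zero_mul, neg_zero, zero_add, hPz x hx1, hPz z hz] at h
    exact h
  · intro X hX
    obtain ⟨Y, X', hY, hX', rfl⟩ := hdec X hX
    have hsplit : ∀ u, u = (2⁻¹ * φ u) • v + P u := fun u => by rw [hP]; abel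
    -- the even part
    have hev' : ∀ x y, ω (Y x) y + ω x (Y y) = 2 * (2⁻¹ * φ (Y v)) * ω x y := by
      intro x y
      have a1 : ∀ u, φ (Y u) = φ u * (2⁻¹ * φ (Y v)) := by
        intro u
        have h := congrArg (fun t => φ (Y t)) (hsplit u)
        simp only [map_add, map_smul] at h
        rw [h, p2 Y hY _ (hPφ u), add_zero, smul_eq_mul]
        ring
      have a2 : ∀ u, P (Y u) = Y (P u) := by
        intro u
        have h4 : Y (P u) = Y u - (2⁻¹ * φ u) • Y v := by rw [hP, map_sub, map_smul]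
        rw [hP, a1 u, h4, p1 Y hY, map_smul, hφv, smul_eq_mul, smul_smul]
        congr 2
        field_simp
      rw [hω, hω, hω, a1 x, a1 y, a2, a2]
      have h6 := h5 Y hY (P x) (P y) (hPφ x) (hPφ y)
      linear_combination h6
    have hod : ∀ x y, ω (X' x) y + ω x (X' y) = 0 := by
      intro x y
      have hXE : X' = (E (X' v) : Module.End K U) := by
        have h4 := uniq (X' - (E (X' v) : Module.End K U)) (sub_mem hX' (hEm _)) (by
          rw [LinearMap.sub_apply, hEz _ (m1 X' hX'), sub_self])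
        exact sub_eq_zero.1 h4
      have hu : φ (X' v) = 0 := m1 X' hX'
      have a0 : ∀ x, X' x = (2⁻¹ * φ x) • X' v + lam (X' v) (P x) • v := by
        intro x
        have h := congrArg X' (hsplit x)
        rw [map_add, map_smul] at h
        rw [h, ← hlam (X' v) (P x) (hPφ x), ← hXE]
      have a1 : ∀ x, φ (X' x) = 2 * lam (X' v) (P x) := by
        intro x
        rw [a0 x, map_add, map_smul, map_smul, hu, smul_zero, zero_add, hφv, smul_eq_mul]
        ring
      have a2 : ∀ x, P (X' x) = (2⁻¹ * φ x) • X' v := by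
        intro x
        rw [a0 x, map_add, map_smul, map_smul, hPv, hPz _ hu, smul_zero, add_zero]
      rw [hω, hω, a1, a1, a2, a2, lam_smul1, lam_smul2, symm (P x) (X' v) (hPφ x) hu]
      have e : (2 : K)⁻¹ * 2 = 1 := inv_mul_cancel₀ h2
      linear_combination (-(lam (X' v) (P x) * 2⁻¹ * φ y + 2⁻¹ * φ x * lam (X' v) (P y))) * e
    refine ⟨2 * (2⁻¹ * φ (Y v)), fun x y => ?_⟩
    have h4 := hev' x y
    have h6 := hod x y
    rw [LinearMap.add_apply, LinearMap.add_apply, map_add, map_add, LinearMap.add_apply]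
    linear_combination h4 + h6

end Pool.Agent.Lib.MP_640417_ag.Tg
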