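import Pool.Agent.Lib.MP_640417_ag.Tg.SpecY

/-!
# Elements of the group which act with small rank: isometries of rank two, eigenvalue not of order three
-/

set_option autoImplicit false

namespace Pool.Agent.Lib.MP_640417_ag.Tg

open Module Pool.Agent.Lib.MP_640417_ag.Tor

section

variable {K U : Type} [Field K] [AddCommGroup U] [Module K U]

/-- conjugation minus a scalar -/
private def rotF (Θ Θ' : Module.End K U) (c : K) : Module.End K U →ₗ[K] Module.End K U :=
  (LinearMap.mulLeft K Θ).comp (LinearMap.mulRight K Θ') - c • LinearMap.id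

private lemma rotF_apply (Θ Θ' : Module.End K U) (c : K) (M : Module.End K U) :
    rotF Θ Θ' c M = Θ * (M * Θ') - c • M := rfl

private lemma rotF_eig {Θ Θ' : Module.End K U} {lam : K} {M : Module.End K U}
    (h : Θ * (M * Θ') = lam • M) (c : K) : rotF Θ Θ' c M = (lam - c) • M := by
  rw [rotF_apply, h, sub_smul]

private lemma rotF_four {Θ Θ' : Module.End K U} {lam : K} {M : Module.End K U}
    (h : Θ * (M * Θ') = lam • M) (c1 c2 c3 c4 : K) :
    rotF Θ Θ' c4 (rotF Θ Θ' c3 (rotF Θ Θ' c2 (rotF Θ Θ' c1 M))) =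
      ((lam - c1) * (lam - c2) * (lam - c3) * (lam - c4)) • M := by
  simp only [rotF_eig h, map_smul, smul_smul]

private lemma rotF_conj {Θ Θ' P X Q : Module.End K U} {s t : K} (h1 : Θ * P = s • P)
    (h2 : Q * Θ' = t • Q) : Θ * ((P * X * Q) * Θ') = (s * t) • (P * X * Q) := by
  have h3 : Θ * ((P * X * Q) * Θ') = (Θ * P) * X * (Q * Θ') := by
    simp only [mul_assoc]
  rw [h3, h1, h2, smul_mul_assoc, smul_mul_assoc, mul_smul_comm, smul_smul]

private lemma rot_range_le {X : Module.End K U} [FiniteDimensional K U] (w p : U)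
    (h : ∀ u, ∃ c d : K, X u = c • w + d • p) : rk X ≤ 2 := by
  classical
  have hr : LinearMap.range X ≤ Submodule.span K {w, p} := by
    rintro _ ⟨y, rfl⟩
    obtain ⟨c, d, hc⟩ := h y
    rw [hc]
    exact Submodule.add_mem _ (Submodule.smul_mem _ _ (Submodule.subset_span (by simp)))
      (Submodule.smul_mem _ _ (Submodule.subset_span (by simp)))
  unfold rk
  refine (Submodule.finrank_mono hr).trans ?_
  have h1 := finrank_span_finset_le_card (R := K) ({w, p} : Finset U)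
  have h2 : (({w, p} : Finset U) : Set U) = {w, p} := by simp
  rw [h2] at h1
  exact h1.trans Finset.card_le_two

end

theorem pRotA (hS : SNrmS) : SRotA := by
  intro K U _ _ _ _ _ _ β g hSim Θ Θ' hN p q a hR ha3 hX
  obtain ⟨X, hXg, hXq⟩ := hX
  have alt := hSim.alt
  have anti : ∀ x y, β x y = - β y x := by
    intro x y
    have h := alt (x + y)
    simp only [map_add, LinearMap.add_apply, alt, zero_add, add_zero] at h
    linear_combination h
  have hqp : β q p = -1 := by rw [anti, hR.pq]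
  have ha0 := hR.a0
  let P1 : Module.End K U := -((β q).smulRight p)
  let P2 : Module.End K U := (β p).smulRight q
  have hP1 : ∀ x, P1 x = -(β q x • p) := fun x => rfl
  have hP2 : ∀ x, P2 x = β p x • q := fun x => rfl
  obtain ⟨P0, hP0⟩ : ∃ P0 : Module.End K U, P0 = 1 - P1 - P2 := ⟨_, rfl⟩
  have hP0' : ∀ x, P0 x = x + β q x • p - β p x • q := by
    intro x
    rw [hP0, LinearMap.sub_apply, LinearMap.sub_apply, Module.End.one_apply, hP1, hP2, sub_neg_eq_add]
  have hp0 : ∀ x, β p (P0 x) = 0 := by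
    intro x
    rw [hP0', map_sub, map_add, map_smul, map_smul, alt, hR.pq, smul_zero, smul_eq_mul, mul_one,
      add_zero, sub_self]
  have hq0 : ∀ x, β q (P0 x) = 0 := by
    intro x
    rw [hP0', map_sub, map_add, map_smul, map_smul, alt, hqp, smul_zero, smul_eq_mul]
    ring
  -- the eigenspaces
  have t1 : Θ * P1 = a • P1 := by
    refine LinearMap.ext fun x => ?_
    rw [Module.End.mul_apply, LinearMap.smul_apply, hP1, map_neg, map_smul, hR.hp, smul_neg, smul_comm]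
  have t2 : Θ * P2 = a⁻¹ • P2 := by
    refine LinearMap.ext fun x => ?_
    rw [Module.End.mul_apply, LinearMap.smul_apply, hP2, map_smul, hR.hq, smul_comm]
  have t0 : Θ * P0 = (1 : K) • P0 := by
    refine LinearMap.ext fun x => ?_
    rw [Module.End.mul_apply, one_smul, hR.hz _ (hp0 x) (hq0 x)]
  have hsum : P0 + P1 + P2 = 1 := by
    rw [hP0]
    abel
  have hΘs : Θ = P0 + a • P1 + a⁻¹ • P2 := by
    have h : Θ = Θ * (P0 + P1 + P2) := by rw [hsum, mul_one]
    rw [h, mul_add, mul_add, t0, t1, t2, one_smul]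
  have hqΘ : ∀ x, β q (Θ x) = a * β q x := by
    intro x
    have h := hR.iso (a • q) x
    rw [map_smul, hR.hq, smul_smul, mul_inv_cancel₀ ha0, one_smul, map_smul, LinearMap.smul_apply,
      smul_eq_mul] at h
    exact h
  have hpΘ : ∀ x, β p (Θ x) = a⁻¹ * β p x := by
    intro x
    have h := hR.iso (a⁻¹ • p) x
    rw [map_smul, hR.hp, smul_smul, inv_mul_cancel₀ ha0, one_smul, map_smul, LinearMap.smul_apply,
      smul_eq_mul] at h
    exact h
  have r1 : P1 * Θ = a • P1 := by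
    refine LinearMap.ext fun x => ?_
    rw [Module.End.mul_apply, LinearMap.smul_apply, hP1, hP1, hqΘ, mul_smul, smul_neg]
  have r2 : P2 * Θ = a⁻¹ • P2 := by
    refine LinearMap.ext fun x => ?_
    rw [Module.End.mul_apply, LinearMap.smul_apply, hP2, hP2, hpΘ, mul_smul]
  have r0 : P0 * Θ = P0 := by
    have h : (P0 + P1 + P2) * Θ = Θ := by rw [hsum, one_mul]
    rw [add_mul, add_mul, r1, r2] at h
    have h' : P0 * Θ + a • P1 + a⁻¹ • P2 = P0 + a • P1 + a⁻¹ • P2 := by rw [h, ← hΘs]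
    exact add_right_cancel (add_right_cancel h')
  have s1 : P1 * Θ' = a⁻¹ • P1 := by
    have h : P1 = a⁻¹ • (P1 * Θ) := by rw [r1, smul_smul, inv_mul_cancel₀ ha0, one_smul]
    calc P1 * Θ' = (a⁻¹ • (P1 * Θ)) * Θ' := by rw [← h]
      _ = a⁻¹ • (P1 * (Θ * Θ')) := by rw [smul_mul_assoc, mul_assoc]
      _ = a⁻¹ • P1 := by rw [hN.r, mul_one]
  have s2 : P2 * Θ' = a • P2 := by
    have h : P2 = a • (P2 * Θ) := by rw [r2, smul_smul, mul_inv_cancel₀ ha0, one_smul]
    calc P2 * Θ' = (a • (P2 * Θ)) * Θ' := by rw [← h]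
      _ = a • (P2 * (Θ * Θ')) := by rw [smul_mul_assoc, mul_assoc]
      _ = a • P2 := by rw [hN.r, mul_one]
  have s0 : P0 * Θ' = (1 : K) • P0 := by
    calc P0 * Θ' = (P0 * Θ) * Θ' := by rw [r0]
      _ = P0 * (Θ * Θ') := by rw [mul_assoc]
      _ = (1 : K) • P0 := by rw [hN.r, mul_one, one_smul]
  -- the eigencomponent
  have hFg : ∀ c : K, ∀ M ∈ g, rotF Θ Θ' c M ∈ g := by
    intro c M hM
    rw [rotF_apply, ← mul_assoc]
    exact sub_mem (hN.n M hM) (Submodule.smul_mem _ _ hM)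
  have hdec : X = P0 * X * P0 + P0 * X * P1 + P0 * X * P2 + P1 * X * P0 + P1 * X * P1 +
      P1 * X * P2 + P2 * X * P0 + P2 * X * P1 + P2 * X * P2 := by
    have h : X = (P0 + P1 + P2) * X * (P0 + P1 + P2) := by rw [hsum, one_mul, mul_one]
    calc X = (P0 + P1 + P2) * X * (P0 + P1 + P2) := h
      _ = _ := by
        simp only [add_mul, mul_add]
        abel
  have ha1 : a - 1 ≠ 0 := by
    intro h
    apply hR.a2
    rw [sub_eq_zero.1 h, one_mul]
  have haa : a - a⁻¹ ≠ 0 := by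
    intro h
    apply hR.a2
    have h' := sub_eq_zero.1 h
    calc a * a = a * a⁻¹ := by rw [← h']
      _ = 1 := mul_inv_cancel₀ ha0
  have haa2 : a - a * a ≠ 0 := by
    intro h
    apply ha1
    have h' : a * (a - 1) = 0 := by linear_combination (-1 : K) * h
    rcases mul_eq_zero.1 h' with h'' | h''
    · exact absurd h'' ha0
    · exact h''
  have haa3 : a - a⁻¹ * a⁻¹ ≠ 0 := by
    intro h
    apply ha3
    have h' := sub_eq_zero.1 h
    calc a * a * a = a * a * (a⁻¹ * a⁻¹) := by rw [← h']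
      _ = (a * a⁻¹) * (a * a⁻¹) := by ring
      _ = 1 := by rw [mul_inv_cancel₀ ha0, one_mul]
  have hmem : rotF Θ Θ' (a⁻¹ * a⁻¹) (rotF Θ Θ' (a * a) (rotF Θ Θ' a⁻¹ (rotF Θ Θ' 1 X))) ∈ g :=
    hFg _ _ (hFg _ _ (hFg _ _ (hFg _ _ hXg)))
  have hval : rotF Θ Θ' (a⁻¹ * a⁻¹) (rotF Θ Θ' (a * a) (rotF Θ Θ' a⁻¹ (rotF Θ Θ' 1 X))) =
      ((a - 1) * (a - a⁻¹) * (a - a * a) * (a - a⁻¹ * a⁻¹)) • (P1 * X * P0 + P0 * X * P2) := by
    have e00 := rotF_four (rotF_conj (X := X) t0 s0) 1 a⁻¹ (a * a) (a⁻¹ * a⁻¹)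
    have e01 := rotF_four (rotF_conj (X := X) t0 s1) 1 a⁻¹ (a * a) (a⁻¹ * a⁻¹)
    have e02 := rotF_four (rotF_conj (X := X) t0 s2) 1 a⁻¹ (a * a) (a⁻¹ * a⁻¹)
    have e10 := rotF_four (rotF_conj (X := X) t1 s0) 1 a⁻¹ (a * a) (a⁻¹ * a⁻¹)
    have e11 := rotF_four (rotF_conj (X := X) t1 s1) 1 a⁻¹ (a * a) (a⁻¹ * a⁻¹)
    have e12 := rotF_four (rotF_conj (X := X) t1 s2) 1 a⁻¹ (a * a) (a⁻¹ * a⁻¹)
    have e20 := rotF_four (rotF_conj (X := X) t2 s0) 1 a⁻¹ (a * a) (a⁻¹ * a⁻¹)
    have e21 := rotF_four (rotF_conj (X := X) t2 s1) 1 a⁻¹ (a * a) (a⁻¹ * a⁻¹)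
    have e22 := rotF_four (rotF_conj (X := X) t2 s2) 1 a⁻¹ (a * a) (a⁻¹ * a⁻¹)
    have z00 : ((1 : K) * 1 - 1) * (1 * 1 - a⁻¹) * (1 * 1 - a * a) * (1 * 1 - a⁻¹ * a⁻¹) = 0 := by
      ring
    have z01 : ((1 : K) * a⁻¹ - 1) * (1 * a⁻¹ - a⁻¹) * (1 * a⁻¹ - a * a) * (1 * a⁻¹ - a⁻¹ * a⁻¹) = 0 := by
      ring
    have z11 : (a * a⁻¹ - 1) * (a * a⁻¹ - a⁻¹) * (a * a⁻¹ - a * a) * (a * a⁻¹ - a⁻¹ * a⁻¹) = 0 := by
      rw [mul_inv_cancel₀ ha0]
      ring
    have z12 : (a * a - 1) * (a * a - a⁻¹) * (a * a - a * a) * (a * a - a⁻¹ * a⁻¹) = 0 := by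
      ring
    have z20 : (a⁻¹ * 1 - 1) * (a⁻¹ * 1 - a⁻¹) * (a⁻¹ * 1 - a * a) * (a⁻¹ * 1 - a⁻¹ * a⁻¹) = 0 := by
      ring
    have z21 : (a⁻¹ * a⁻¹ - 1) * (a⁻¹ * a⁻¹ - a⁻¹) * (a⁻¹ * a⁻¹ - a * a) *
        (a⁻¹ * a⁻¹ - a⁻¹ * a⁻¹) = 0 := by
      ring
    have z22 : (a⁻¹ * a - 1) * (a⁻¹ * a - a⁻¹) * (a⁻¹ * a - a * a) * (a⁻¹ * a - a⁻¹ * a⁻¹) = 0 := by
      rw [inv_mul_cancel₀ ha0]
      ring
    rw [z00, zero_smul] at e00
    rw [z01, zero_smul] at e01
    rw [z11, zero_smul] at e11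
    rw [z12, zero_smul] at e12
    rw [z20, zero_smul] at e20
    rw [z21, zero_smul] at e21
    rw [z22, zero_smul] at e22
    rw [one_mul] at e02
    rw [mul_one] at e10
    conv_lhs => rw [hdec]
    simp only [map_add, e00, e01, e02, e10, e11, e12, e20, e21, e22, smul_add, zero_add, add_zero]
    abel
  have hX1 : P1 * X * P0 + P0 * X * P2 ∈ g := by
    rw [hval] at hmem
    have hc : (a - 1) * (a - a⁻¹) * (a - a * a) * (a - a⁻¹ * a⁻¹) ≠ 0 :=
      mul_ne_zero (mul_ne_zero (mul_ne_zero ha1 haa) haa2) haa3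
    have h := Submodule.smul_mem g ((a - 1) * (a - a⁻¹) * (a - a * a) * (a - a⁻¹ * a⁻¹))⁻¹ hmem
    rw [smul_smul, inv_mul_cancel₀ hc, one_smul] at h
    exact h
  -- the shape
  obtain ⟨m, hm⟩ := hSim.mult X hXg
  set w := P0 (X q) with hw
  have hpw : β p w = 0 := hp0 _
  have hqw : β q w = 0 := hq0 _
  have hwp : β w p = 0 := by rw [anti, hpw, neg_zero]
  have hwq : β w q = 0 := by rw [anti, hqw, neg_zero]
  have hshape : ∀ x, (P1 * X * P0 + P0 * X * P2) x = β p x • w + β w x • p := by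
    intro x
    have e1 : β (X q) (P0 x) = β w (P0 x) := by
      have h : w = X q + β q (X q) • p - β p (X q) • q := hP0' _
      rw [h, map_sub, map_add, map_smul, map_smul, LinearMap.sub_apply, LinearMap.add_apply,
        LinearMap.smul_apply, LinearMap.smul_apply, hp0, hq0, smul_zero, smul_zero, add_zero, sub_zero]
    have e2 : β w (P0 x) = β w x := by
      rw [hP0', map_sub, map_add, map_smul, map_smul, hwp, hwq, smul_zero, smul_zero, add_zero,
        sub_zero]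
    have e3 : β q (X (P0 x)) = - β w x := by
      have h := hm q (P0 x)
      rw [hq0, mul_zero, e1, e2] at h
      exact eq_neg_of_add_eq_zero_right h
    rw [LinearMap.add_apply, Module.End.mul_apply, Module.End.mul_apply, Module.End.mul_apply,
      Module.End.mul_apply, hP1, hP2, e3, map_smul, map_smul, ← hw, neg_smul, neg_neg]
    abel
  set N := P1 * X * P0 + P0 * X * P2 with hNdef
  have hNq : N q = w := by rw [hshape, hR.pq, hwq, one_smul, zero_smul, add_zero]
  have hNp : N p = 0 := by rw [hshape, alt, hwp, zero_smul, zero_smul, add_zero]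
  have hNw : N w = 0 := by rw [hshape, hpw, alt, zero_smul, zero_smul, add_zero]
  refine hS K U β g hSim N ?_ ?_ ?_ ?_ fun Y hY => hSim.lie N hX1 Y hY
  · intro x y
    rw [hshape, hshape, map_add, map_smul, map_smul, LinearMap.add_apply, LinearMap.smul_apply,
      LinearMap.smul_apply, map_add, map_smul, map_smul, anti x w, anti x p]
    simp only [smul_eq_mul]
    ring
  · refine LinearMap.ext fun x => ?_
    rw [Module.End.mul_apply, hshape x, map_add, map_smul, map_smul, hNw, hNp, smul_zero, smul_zero,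
      add_zero]
    rfl
  · intro h
    have hw0 : w = 0 := by
      rw [← hNq, h]
      rfl
    have h' : X q + β q (X q) • p - β p (X q) • q = 0 := by rw [← hP0', ← hw, hw0]
    refine hXq (-(β q (X q))) (β p (X q)) ?_
    have h'' : X q = (X q + β q (X q) • p - β p (X q) • q) +
        ((-(β q (X q))) • p + (β p (X q)) • q) := by module
    rw [h', zero_add] at h''
    exact h''
  · exact rot_range_le w p fun u => ⟨β p u, β w u, hshape u⟩

end Pool.Agent.Lib.MP_640417_ag.Tg
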