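import Pool.Agent.Lib.MP_640417_ag.Tg.SpecY

/-!
# Elements of small rank: semisimple isometries of rank two, eigenvalue of order three
-/

set_option autoImplicit false

namespace Pool.Agent.Lib.MP_640417_ag.Tg

open Module Pool.Agent.Lib.MP_640417_ag Pool.Agent.Lib.MP_640417_ag.Tor

namespace RotBA

variable {K U : Type} [Field K] [AddCommGroup U] [Module K U]
  {β : LinearMap.BilinForm K U} {Θ Θ' : Module.End K U} {p q : U} {a : K}

lemma anti (alt : ∀ x, β x x = 0) (x y : U) : β x y = - β y x := by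
  have h := alt (x + y)
  simp only [map_add, LinearMap.add_apply, alt, zero_add, add_zero] at h
  linear_combination h

lemma a_ne_one (R : Rot β Θ Θ' p q a) : a ≠ 1 := by
  rintro rfl
  exact R.a2 (one_mul 1)

lemma qp (alt : ∀ x, β x x = 0) (R : Rot β Θ Θ' p q a) : β q p = -1 := by
  rw [anti alt q p, R.pq]

/-- the same rotation, with the eigenvectors exchanged -/
lemma sym (alt : ∀ x, β x x = 0) (R : Rot β Θ Θ' p q a) : Rot β Θ Θ' q (-p) a⁻¹ where
  iso := R.iso
  pq := by rw [map_neg, qp alt R, neg_neg]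
  a0 := inv_ne_zero R.a0
  a2 := by
    intro h
    apply R.a2
    have h1 := congrArg (fun t => t⁻¹) h
    simp only [mul_inv, inv_inv, inv_one] at h1
    exact h1
  hp := R.hq
  hq := by rw [inv_inv, map_neg, R.hp, smul_neg]
  hz := by
    intro x h1 h2
    rw [map_neg, LinearMap.neg_apply, neg_eq_zero] at h2
    exact R.hz x h2 h1

lemma dec_p (alt : ∀ x, β x x = 0) (R : Rot β Θ Θ' p q a) (x : U) :
    β p (x + β q x • p - β p x • q) = 0 := by
  rw [map_sub, map_add, map_smul, map_smul, alt, R.pq, smul_eq_mul, smul_eq_mul]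
  ring

lemma dec_q (alt : ∀ x, β x x = 0) (R : Rot β Θ Θ' p q a) (x : U) :
    β q (x + β q x • p - β p x • q) = 0 := by
  rw [map_sub, map_add, map_smul, map_smul, alt, qp alt R, smul_eq_mul, smul_eq_mul]
  ring

/-- eigenvectors for the eigenvalue `a` -/
lemma eigA (alt : ∀ x, β x x = 0) (R : Rot β Θ Θ' p q a) {x : U} (h : Θ x = a • x) :
    x = (- β q x) • p := by
  have h1 : β p x = 0 := by
    have h2 := R.iso p x
    rw [R.hp, h, map_smul, map_smul, LinearMap.smul_apply, smul_eq_mul, smul_eq_mul] at h2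
    have h3 : (a * a - 1) * β p x = 0 := by linear_combination h2
    exact (mul_eq_zero.1 h3).resolve_left (sub_ne_zero.2 R.a2)
  have h2 := R.hz _ (dec_p alt R x) (dec_q alt R x)
  rw [h1, zero_smul, sub_zero, map_add, map_smul, h, R.hp] at h2
  have h3 : (a - 1) • (x + β q x • p) = 0 := by
    rw [sub_smul, one_smul, sub_eq_zero, smul_add, smul_comm a]
    exact h2
  have h4 := (smul_eq_zero.1 h3).resolve_left (sub_ne_zero.2 (a_ne_one R))
  rw [neg_smul]
  exact eq_neg_of_add_eq_zero_left h4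

/-- eigenvectors for the eigenvalue `1` -/
lemma eigOne (alt : ∀ x, β x x = 0) (R : Rot β Θ Θ' p q a) {x : U} (h : Θ x = x) :
    β p x = 0 ∧ β q x = 0 := by
  have key : ∀ (p q : U) (a : K), Rot β Θ Θ' p q a → β p x = 0 := by
    intro p q a R
    have h2 := R.iso p x
    rw [R.hp, h, map_smul, LinearMap.smul_apply, smul_eq_mul] at h2
    have h3 : (a - 1) * β p x = 0 := by linear_combination h2
    exact (mul_eq_zero.1 h3).resolve_left (sub_ne_zero.2 (a_ne_one R))
  exact ⟨key p q a R, key _ _ _ (sym alt R)⟩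

section B

variable (alt : ∀ x, β x x = 0) (R : Rot β Θ Θ' p q a) {B : Module.End K U}
  (hB : Θ * B = a • (B * Θ))

include hB in
lemma hBx (x : U) : Θ (B x) = a • B (Θ x) := by
  have := LinearMap.congr_fun hB x
  exact this

include alt R hB in
lemma Bp (a3 : a * a * a = 1) : B p = β p (B p) • q := by
  have h1 : Θ (B p) = a⁻¹ • B p := by
    rw [hBx hB, R.hp, map_smul, smul_smul]
    congr 1
    exact eq_inv_of_mul_eq_one_left a3
  have h2 := eigA alt (sym alt R) h1
  rw [map_neg, LinearMap.neg_apply, neg_neg] at h2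
  exact h2

include alt R hB in
lemma Bq : β p (B q) = 0 ∧ β q (B q) = 0 := by
  refine eigOne alt R ?_
  rw [hBx hB, R.hq, map_smul, smul_smul, mul_inv_cancel₀ R.a0, one_smul]

include alt R hB in
lemma Bz {c : K} (hm : ∀ x y, β (B x) y + β x (B y) = c * β x y) {z : U} (h1 : β p z = 0)
    (h2 : β q z = 0) : B z = β (B q) z • p := by
  have h3 : Θ (B z) = a • B z := by rw [hBx hB, R.hz z h1 h2]
  have h4 := eigA alt R h3
  have h5 := hm q z
  rw [h2, mul_zero] at h5
  have h6 : - β q (B z) = β (B q) z := by linear_combination -h5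
  rwa [h6] at h4

include alt R hB in
lemma Bx {c : K} (hm : ∀ x y, β (B x) y + β x (B y) = c * β x y) (h0 : B p = 0) (x : U) :
    B x = β p x • B q + β (B q) x • p := by
  obtain ⟨h1, h2⟩ := Bq alt R hB
  have h3 := Bz alt R hB hm (dec_p alt R x) (dec_q alt R x)
  rw [map_sub, map_add, map_smul, map_smul, h0, smul_zero, add_zero, map_sub, map_add, map_smul,
    map_smul, anti alt (B q) p, h1, anti alt (B q) q, h2, neg_zero, smul_zero, smul_zero, add_zero,
    sub_zero] at h3
  rw [← h3]
  abel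

end B

/-- an element of degree one without component `s` -/
lemma one [CharZero K] [IsAlgClosed K] [FiniteDimensional K U] (hS : SNrmS)
    {g : Submodule K (Module.End K U)} (S : Sim β g) (R : Rot β Θ Θ' p q a) {B : Module.End K U}
    (hBg : B ∈ g) (hB : Θ * B = a • (B * Θ)) (h0 : B p = 0) (hne : B ≠ 0) :
    ∀ Y, Skew β Y → Y ∈ g := by
  classical
  obtain ⟨c, hm⟩ := S.mult B hBg
  have alt := S.alt
  have hx := Bx alt R hB hm h0
  obtain ⟨h1, h2⟩ := Bq alt R hB
  refine hS K U β g S B ?_ ?_ hne ?_ fun X hX => S.lie _ hBg _ hX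
  · intro x y
    rw [hx x, hx y, map_add, LinearMap.add_apply, map_smul, map_smul, LinearMap.smul_apply,
      LinearMap.smul_apply, map_add, map_smul, map_smul, anti alt x (B q), anti alt x p]
    simp only [smul_eq_mul]
    ring
  · refine LinearMap.ext fun x => ?_
    rw [Module.End.mul_apply, hx x, map_add, map_smul, map_smul, h0, hx (B q), h1, alt, zero_smul,
      zero_smul, add_zero, smul_zero, smul_zero, add_zero]
    rfl
  · have h3 : LinearMap.range B ≤ Submodule.span K ((({B q, p} : Finset U)) : Set U) := by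
      rintro _ ⟨x, rfl⟩
      rw [hx x]
      refine add_mem (Submodule.smul_mem _ _ (Submodule.subset_span ?_))
        (Submodule.smul_mem _ _ (Submodule.subset_span ?_))
      · simp
      · simp
    exact (Submodule.finrank_mono h3).trans
      ((finrank_span_finset_le_card _).trans Finset.card_le_two)

/-- a subspace on which a functional is injective -/
lemma gen {M : Type} [AddCommGroup M] [Module K M] (P : Submodule K M) (f : M →ₗ[K] K)
    (h : ∀ B ∈ P, f B = 0 → B = 0) : ∃ B₀ ∈ P, ∀ B ∈ P, ∃ t : K, B = t • B₀ := by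
  by_cases h1 : ∃ B ∈ P, f B ≠ 0
  · obtain ⟨B₀, hB₀, hne⟩ := h1
    refine ⟨B₀, hB₀, fun B hB => ⟨f B / f B₀, ?_⟩⟩
    have h2 := h (B - (f B / f B₀) • B₀) (sub_mem hB (Submodule.smul_mem _ _ hB₀)) (by
      rw [map_sub, map_smul, smul_eq_mul, div_mul_cancel₀ _ hne, sub_self])
    exact sub_eq_zero.1 h2
  · push Not at h1
    exact ⟨0, zero_mem _, fun B hB => ⟨0, by rw [h B hB (h1 B hB), smul_zero]⟩⟩

/-- operators in `g` with `Θ B = a B Θ` -/
def eg (g : Submodule K (Module.End K U)) (Θ : Module.End K U) (a : K) :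
    Submodule K (Module.End K U) where
  carrier := {B | B ∈ g ∧ Θ * B = a • (B * Θ)}
  add_mem' := by
    rintro B C ⟨h1, h2⟩ ⟨h3, h4⟩
    exact ⟨add_mem h1 h3, by rw [mul_add, add_mul, smul_add, h2, h4]⟩
  zero_mem' := ⟨zero_mem _, by rw [mul_zero, zero_mul, smul_zero]⟩
  smul_mem' := by
    rintro c B ⟨h1, h2⟩
    exact ⟨Submodule.smul_mem _ _ h1, by
      rw [mul_smul_comm, smul_mul_assoc, h2, smul_comm]⟩

/-- the functional `B ↦ β p (B p)` -/
def fun1 (β : LinearMap.BilinForm K U) (p : U) : Module.End K U →ₗ[K] K where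
  toFun B := β p (B p)
  map_add' B C := by rw [LinearMap.add_apply, map_add]
  map_smul' c B := by rw [LinearMap.smul_apply, map_smul, RingHom.id_apply]

end RotBA

open RotBA in
theorem pRotB (hS : SNrmS) : SRotB := by
  intro K U _ _ _ _ _ _ β g S Θ Θ' nrm p q a R a3 hdim
  classical
  by_contra hG
  have alt := S.alt
  have a1 : a ≠ 1 := a_ne_one R
  have hinv : a⁻¹ = a * a := (eq_inv_of_mul_eq_one_left a3).symm
  have R' := sym alt R
  have a3' : a⁻¹ * a⁻¹ * a⁻¹ = 1 := by
    rw [← mul_inv, ← mul_inv, a3, inv_one]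
  have hsum : 1 + a + a * a = 0 := by
    have h1 : (a - 1) * (1 + a + a * a) = 0 := by linear_combination a3
    exact (mul_eq_zero.1 h1).resolve_left (sub_ne_zero.2 a1)
  -- `Θ³ = 1`
  have hT3 : Θ * Θ * Θ = 1 := by
    refine LinearMap.ext fun x => ?_
    have h1 := R.hz _ (dec_p alt R x) (dec_q alt R x)
    have h2 : x = (x + β q x • p - β p x • q) + β p x • q - β q x • p := by abel
    have h3 : Θ (Θ (Θ x)) = x := by
      have e1 : Θ (Θ (Θ (x + β q x • p - β p x • q))) = x + β q x • p - β p x • q := by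
        rw [h1, h1, h1]
      have e2 : Θ (Θ (Θ p)) = p := by
        rw [R.hp, map_smul, R.hp, map_smul, map_smul, R.hp, smul_smul, smul_smul, a3, one_smul]
      have e3 : Θ (Θ (Θ q)) = q := by
        rw [R.hq, map_smul, R.hq, map_smul, map_smul, R.hq, smul_smul, smul_smul, a3', one_smul]
      calc Θ (Θ (Θ x)) = Θ (Θ (Θ ((x + β q x • p - β p x • q) + β p x • q - β q x • p))) := by
            rw [← h2]
        _ = (x + β q x • p - β p x • q) + β p x • q - β q x • p := by
            simp only [map_add, map_sub, map_smul] at e1 ⊢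
            rw [e2, e3] at e1 ⊢
            rw [e1]
        _ = x := h2.symm
    exact h3
  have hT2 : Θ' * Θ' = Θ := by
    calc Θ' * Θ' = Θ' * Θ' * (Θ * Θ * Θ) := by rw [hT3, mul_one]
      _ = Θ' * (Θ' * Θ) * Θ * Θ := by simp only [mul_assoc]
      _ = Θ := by rw [nrm.l, mul_one, nrm.l, one_mul]
  -- generators
  obtain ⟨B₀, ⟨hB₀g, hB₀⟩, hBgen⟩ := gen (eg g Θ a) (fun1 β p) (by
    rintro B ⟨hBg, hB⟩ h1
    by_contra hne
    have h2 := Bp alt R hB a3
    have h3 : β p (B p) = 0 := h1
    rw [h3, zero_smul] at h2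
    exact hG (one hS S R hBg hB h2 hne))
  obtain ⟨C₀, ⟨hC₀g, hC₀⟩, hCgen⟩ := gen (eg g Θ a⁻¹) (fun1 β q) (by
    rintro B ⟨hBg, hB⟩ h1
    by_contra hne
    have h2 := Bp alt R' hB a3'
    have h3 : β q (B q) = 0 := h1
    rw [h3, zero_smul] at h2
    exact hG (one hS S R' hBg hB h2 hne))
  obtain ⟨cB, hmB⟩ := S.mult B₀ hB₀g
  obtain ⟨cC, hmC⟩ := S.mult C₀ hC₀g
  have hw := Bq alt R hB₀
  have hw' : β p (C₀ p) = 0 ∧ β q (C₀ p) = 0 := by
    obtain ⟨h1, h2⟩ := Bq alt R' hC₀
    simp only [map_neg, LinearMap.neg_apply, neg_neg, neg_eq_zero] at h1 h2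
    exact ⟨h2, h1⟩
  -- the stable subspace
  let F : Finset U := {p, q, B₀ q, C₀ p}
  let W : Submodule K U := Submodule.span K (F : Set U)
  have hpW : p ∈ W := Submodule.subset_span (by simp [F])
  have hqW : q ∈ W := Submodule.subset_span (by simp [F])
  have hwW : B₀ q ∈ W := Submodule.subset_span (by simp [F])
  have hwW' : C₀ p ∈ W := Submodule.subset_span (by simp [F])
  have hBW : ∀ x ∈ W, B₀ x ∈ W := by
    intro x hx
    have h1 : W ≤ W.comap B₀ := by
      refine Submodule.span_le.2 fun y hy => ?_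
      have hy' : y = p ∨ y = q ∨ y = B₀ q ∨ y = C₀ p := by simpa [F] using hy
      rcases hy' with rfl | rfl | rfl | rfl
      · change B₀ y ∈ W
        rw [Bp alt R hB₀ a3]
        exact Submodule.smul_mem _ _ hqW
      · exact hwW
      · change B₀ (B₀ q) ∈ W
        rw [Bz alt R hB₀ hmB hw.1 hw.2]
        exact Submodule.smul_mem _ _ hpW
      · change B₀ (C₀ p) ∈ W
        rw [Bz alt R hB₀ hmB hw'.1 hw'.2]
        exact Submodule.smul_mem _ _ hpW
    exact h1 hx
  have hneg : ∀ x, β p x = 0 → β (-p) x = 0 := by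
    intro x hx
    rw [map_neg, LinearMap.neg_apply, hx, neg_zero]
  have hCW : ∀ x ∈ W, C₀ x ∈ W := by
    intro x hx
    have h1 : W ≤ W.comap C₀ := by
      refine Submodule.span_le.2 fun y hy => ?_
      have hy' : y = p ∨ y = q ∨ y = B₀ q ∨ y = C₀ p := by simpa [F] using hy
      rcases hy' with rfl | rfl | rfl | rfl
      · exact hwW'
      · change C₀ y ∈ W
        rw [Bp alt R' hC₀ a3']
        exact Submodule.smul_mem _ _ (neg_mem hpW)
      · change C₀ (B₀ q) ∈ W
        rw [Bz alt R' hC₀ hmC hw.2 (hneg _ hw.1)]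
        exact Submodule.smul_mem _ _ hqW
      · change C₀ (C₀ p) ∈ W
        rw [Bz alt R' hC₀ hmC hw'.2 (hneg _ hw'.1)]
        exact Submodule.smul_mem _ _ hqW
    exact h1 hx
  have hAW : ∀ A ∈ g, Θ * A = A * Θ → ∀ x ∈ W, A x ∈ W := by
    intro A hA hAT x hx
    have hAp : A p = (- β q (A p)) • p := by
      refine eigA alt R ?_
      have h1 := LinearMap.congr_fun hAT p
      rw [Module.End.mul_apply, Module.End.mul_apply, R.hp, map_smul] at h1
      exact h1
    have hAq : A q = (- β (-p) (A q)) • q := by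
      refine eigA alt R' ?_
      have h1 := LinearMap.congr_fun hAT q
      rw [Module.End.mul_apply, Module.End.mul_apply, R.hq, map_smul] at h1
      exact h1
    have hcomm : ∀ (b : K) (B : Module.End K U), B ∈ g → Θ * B = b • (B * Θ) →
        A * B - B * A ∈ eg g Θ b := by
      intro b B hBg hB
      refine ⟨S.lie _ hA _ hBg, ?_⟩
      rw [mul_sub, ← mul_assoc, hAT, mul_assoc A, hB, ← mul_assoc, hB, smul_mul_assoc,
        mul_assoc B, hAT, mul_smul_comm, sub_mul, smul_sub, mul_assoc, mul_assoc]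
    obtain ⟨t, ht⟩ := hBgen _ (hcomm a B₀ hB₀g hB₀)
    obtain ⟨t', ht'⟩ := hCgen _ (hcomm a⁻¹ C₀ hC₀g hC₀)
    have h1 : W ≤ W.comap A := by
      refine Submodule.span_le.2 fun y hy => ?_
      have hy' : y = p ∨ y = q ∨ y = B₀ q ∨ y = C₀ p := by simpa [F] using hy
      rcases hy' with rfl | rfl | rfl | rfl
      · change A y ∈ W
        rw [hAp]
        exact Submodule.smul_mem _ _ hpW
      · change A y ∈ W
        rw [hAq]
        exact Submodule.smul_mem _ _ hqW
      · change A (B₀ q) ∈ W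
        have h2 := LinearMap.congr_fun ht q
        rw [LinearMap.sub_apply, Module.End.mul_apply, Module.End.mul_apply,
          LinearMap.smul_apply, hAq, map_smul, sub_eq_iff_eq_add] at h2
        rw [h2]
        exact add_mem (Submodule.smul_mem _ _ hwW) (Submodule.smul_mem _ _ hwW)
      · change A (C₀ p) ∈ W
        have h2 := LinearMap.congr_fun ht' p
        rw [LinearMap.sub_apply, Module.End.mul_apply, Module.End.mul_apply,
          LinearMap.smul_apply, hAp, map_smul, sub_eq_iff_eq_add] at h2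
        rw [h2]
        exact add_mem (Submodule.smul_mem _ _ hwW') (Submodule.smul_mem _ _ hwW')
    exact h1 hx
  have hstab : ∀ X ∈ g, ∀ y ∈ W, X y ∈ W := by
    intro X hX y hy
    let X1 := Θ * X * Θ'
    let X2 := Θ * X1 * Θ'
    have m1 : X1 ∈ g := nrm.n X hX
    have m2 : X2 ∈ g := nrm.n X1 m1
    have e0 : Θ * X = X1 * Θ := by
      change Θ * X = Θ * X * Θ' * Θ
      rw [mul_assoc (Θ * X), nrm.l, mul_one]
    have e1 : Θ * X1 = X2 * Θ := by
      change Θ * X1 = Θ * X1 * Θ' * Θ
      rw [mul_assoc (Θ * X1), nrm.l, mul_one]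
    have e2 : Θ * X2 = X * Θ := by
      calc Θ * X2 = Θ * Θ * Θ * X * (Θ' * Θ') := by
            change Θ * (Θ * (Θ * X * Θ') * Θ') = _
            simp only [mul_assoc]
        _ = X * Θ := by rw [hT3, hT2, one_mul]
    obtain ⟨tB, htB⟩ := hBgen (X + (a * a) • X1 + a • X2) ⟨add_mem (add_mem hX
      (Submodule.smul_mem _ _ m1)) (Submodule.smul_mem _ _ m2), by
        rw [mul_add, mul_add, mul_smul_comm, mul_smul_comm, e0, e1, e2, add_mul, add_mul,
          smul_mul_assoc, smul_mul_assoc, smul_add, smul_add, smul_smul, smul_smul,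
          show a * (a * a) = 1 by rw [← mul_assoc]; exact a3, one_smul]
        abel⟩
    obtain ⟨tC, htC⟩ := hCgen (X + a • X1 + (a * a) • X2) ⟨add_mem (add_mem hX
      (Submodule.smul_mem _ _ m1)) (Submodule.smul_mem _ _ m2), by
        rw [mul_add, mul_add, mul_smul_comm, mul_smul_comm, e0, e1, e2, add_mul, add_mul,
          smul_mul_assoc, smul_mul_assoc, smul_add, smul_add, smul_smul, smul_smul, hinv, a3,
          show a * a * (a * a) = a by rw [← mul_assoc, a3, one_mul], one_smul]
        abel⟩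
    have hA := hAW (X + X1 + X2) (add_mem (add_mem hX m1) m2) (by
      rw [mul_add, mul_add, e0, e1, e2, add_mul, add_mul]
      abel) y hy
    have h3 : (3 : K) ≠ 0 := by norm_num
    have hX3 : (3 : K) • X = (X + X1 + X2) + tB • B₀ + tC • C₀ := by
      rw [← htB, ← htC]
      have h4 : X + X1 + X2 + (X + (a * a) • X1 + a • X2) + (X + a • X1 + (a * a) • X2) =
          (3 : K) • X + (1 + a + a * a) • (X1 + X2) := by module
      rw [h4, hsum, zero_smul, add_zero]
    have h5 : (3 : K) • X y ∈ W := by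
      have h6 : (3 : K) • X y = (X + X1 + X2) y + tB • B₀ y + tC • C₀ y := by
        have := LinearMap.congr_fun hX3 y
        exact this
      rw [h6]
      exact add_mem (add_mem hA (Submodule.smul_mem _ _ (hBW y hy)))
        (Submodule.smul_mem _ _ (hCW y hy))
    have h6 := Submodule.smul_mem W (3 : K)⁻¹ h5
    rwa [smul_smul, inv_mul_cancel₀ h3, one_smul] at h6
  rcases S.irr W le_top hstab with h | h
  · have h1 : p = 0 := by
      rw [h] at hpW
      exact (Submodule.mem_bot K).1 hpW
    have h2 := R.pq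
    rw [h1, map_zero, LinearMap.zero_apply] at h2
    exact zero_ne_one h2
  · have h1 : finrank K W ≤ 4 := (finrank_span_finset_le_card F).trans Finset.card_le_four
    rw [h, finrank_top] at h1
    omega

end Pool.Agent.Lib.MP_640417_ag.Tg
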