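import Pool.Agent.Lib.MP_640417_ag.Tg.SpecY
import Pool.Agent.Lib.MP_640417_ag.Tg.FullX

/-!
# Elements of small rank: the form on a self-dual constituent
-/

set_option autoImplicit false

namespace Pool.Agent.Lib.MP_640417_ag.Tg

open Module TensorProduct Pool.Agent.Lib.MP_640417_ag Pool.Agent.Lib.MP_640417_ag.Tor
  Pool.Agent.Lib.MP_640417_ag.Lef Pool.Agent.Lib.MP_640417_ag.Frob
  Pool.Agent.Lib.MP_640417_ag.Glob Pool.Agent.Lib.MP_640417_ag.Ty
  Pool.Agent.Lib.MP_640417_ag.Ctl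

theorem pSdW (_hI : SIrrE) (hR : SRedW) (hD : SDualE) : SSdW := by
  intro K V _ _ _ _ ψ L C hC N st ε hS r u v hU W hW hdual
  obtain ⟨a, _, w, hw, d, hd, hwd, hew, _, hdW, hdw⟩ :=
    hR K V ψ L C hC N st ε hS r u v hU W hW
  have hcom : ∀ X ∈ L, ∀ c ∈ C, ∀ y, c (X y) = X (c y) := fun X hX c hc y =>
    LinearMap.congr_fun (hC.com X hX c hc) y
  have hew' : ∀ x, ε a (w x) = w x := fun x => LinearMap.congr_fun hew x
  have hwd' : ∀ x, w (d x) = ε a x := fun x => LinearMap.congr_fun hwd x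
  obtain ⟨β0, ⟨x0, hx0, y0, hy0, hne⟩, hβ0⟩ := hdual
  have hdu : DualMod ψ L (LinearMap.range (ε a)) (LinearMap.range (ε a)) := by
    refine ⟨β0.compl₁₂ d d, ⟨w x0, ⟨w x0, hew' x0⟩, w y0, ⟨w y0, hew' y0⟩, ?_⟩, ?_⟩
    · show β0 (d (w x0)) (d (w y0)) ≠ 0
      rw [hdw x0 hx0, hdw y0 hy0]
      exact hne
    · intro X hX m hm x _ y _
      show β0 (d (X x)) (d y) + β0 (d x) (d (X y)) = m * β0 (d x) (d y)
      rw [hcom X hX d hd, hcom X hX d hd]
      exact hβ0 X hX m hm (d x) (hdW x) (d y) (hdW y)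
  have hst : st a = a := (hD K V ψ L C hC N st ε hS r u v hU a a hdu).2 rfl
  refine ⟨ψ.compl₁₂ w w, fun x _ => hC.alt _, ?_, ?_, ?_⟩
  · intro x hx h
    have h1 : w x = 0 := by
      apply hC.nd
      intro z
      have h2 : ψ (w x) (w (d z)) = 0 := h (d z) (hdW z)
      rw [hwd'] at h2
      rw [← hew' x, hS.adj, hst]
      exact h2
    rw [← hdw x hx, h1, map_zero]
  · intro X hX m hm x _ y _
    show ψ (w (X x)) (w y) + ψ (w x) (w (X y)) = m * ψ (w x) (w y)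
    rw [hcom X hX w hw, hcom X hX w hw]
    exact hm _ _
  · intro B' hB'
    obtain ⟨t, ht⟩ := FX_pair hC hS a hst (B'.compl₁₂ d d) (by
      intro X hX m hm x _ y _
      show B' (d (X x)) (d y) + B' (d x) (d (X y)) = m * B' (d x) (d y)
      rw [hcom X hX d hd, hcom X hX d hd]
      exact hB' X hX m hm (d x) (hdW x) (d y) (hdW y))
    refine ⟨t, fun x hx y hy => ?_⟩
    have h1 : B' (d (w x)) (d (w y)) = t * ψ (w x) (w y) :=
      ht (w x) ⟨w x, hew' x⟩ (w y) ⟨w y, hew' y⟩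
    rw [hdw x hx, hdw y hy] at h1
    exact h1

end Pool.Agent.Lib.MP_640417_ag.Tg
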