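import Pool.Agent.Lib.MP_640417_ag.Tg.SpecY

/-!
# Operators of trace zero are sums of brackets of operators of trace zero
-/

set_option autoImplicit false

namespace Pool.Agent.Lib.MP_640417_ag.Tg

open Module Pool.Agent.Lib.MP_640417_ag Pool.Agent.Lib.MP_640417_ag.Tor

private theorem slpf_mat (K n : Type) [Field K] [CharZero K] [Fintype n] [DecidableEq n]
    (M : Matrix n n K) (hM : M.trace = 0) : M ∈ Submodule.span K
      {Z : Matrix n n K | ∃ Y Y' : Matrix n n K, Y.trace = 0 ∧ Y'.trace = 0 ∧
        Z = Y * Y' - Y' * Y} := by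
  set S := Submodule.span K
      {Z : Matrix n n K | ∃ Y Y' : Matrix n n K, Y.trace = 0 ∧ Y'.trace = 0 ∧
        Z = Y * Y' - Y' * Y} with hS
  have tr1 : ∀ (i j : n) (c : K), i ≠ j → (Matrix.single i j c).trace = 0 := fun i j c h =>
    Matrix.trace_single_eq_of_ne i j c h
  have tr2 : ∀ (i j : n) (c : K), (Matrix.single i i c - Matrix.single j j c).trace = 0 :=
    fun i j c => by
      rw [Matrix.trace_sub, Matrix.trace_single_eq_same, Matrix.trace_single_eq_same, sub_self]
  have h1 : ∀ (i j : n) (c : K), Matrix.single i i c - Matrix.single j j c ∈ S := by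
    intro i j c
    by_cases hij : i = j
    · rw [hij, sub_self]
      exact S.zero_mem
    · refine Submodule.subset_span ⟨Matrix.single i j c, Matrix.single j i 1, tr1 i j c hij,
        tr1 j i 1 (Ne.symm hij), ?_⟩
      rw [Matrix.single_mul_single_same, Matrix.single_mul_single_same, mul_one, one_mul]
  have h2 : ∀ (i j : n) (c : K), i ≠ j → Matrix.single i j c ∈ S := by
    intro i j c hij
    refine Submodule.subset_span ⟨Matrix.single i i 1 - Matrix.single j j 1,
      Matrix.single i j (c / 2), tr2 i j 1, tr1 i j _ hij, ?_⟩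
    have a1 : Matrix.single i i (1 : K) * Matrix.single i j (c / 2) =
        Matrix.single i j (c / 2) := by
      rw [Matrix.single_mul_single_same, one_mul]
    have a2 : Matrix.single j j (1 : K) * Matrix.single i j (c / 2) = 0 :=
      Matrix.single_mul_single_of_ne _ _ _ _ (Ne.symm hij) _
    have a3 : Matrix.single i j (c / 2) * Matrix.single i i (1 : K) = 0 :=
      Matrix.single_mul_single_of_ne _ _ _ _ (Ne.symm hij) _
    have a4 : Matrix.single i j (c / 2) * Matrix.single j j (1 : K) =
        Matrix.single i j (c / 2) := by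
      rw [Matrix.single_mul_single_same, mul_one]
    rw [sub_mul, mul_sub, a1, a2, a3, a4, sub_zero, zero_sub, sub_neg_eq_add,
      ← Matrix.single_add, add_halves]
  have h3 : M = ∑ i, ∑ j, Matrix.single i j (M i j) := Matrix.matrix_eq_sum_single M
  have h4 : ∀ i, ∑ j, Matrix.single i j (M i j) - Matrix.single i i (M i i) ∈ S := by
    intro i
    rw [← Finset.add_sum_erase Finset.univ _ (Finset.mem_univ i), add_sub_cancel_left]
    exact Submodule.sum_mem _ fun j hj => h2 i j _ (Ne.symm (Finset.ne_of_mem_erase hj))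
  have h5 : ∑ i, Matrix.single i i (M i i) ∈ S := by
    rcases isEmpty_or_nonempty n with hn | ⟨⟨i₀⟩⟩
    · rw [Finset.univ_eq_empty, Finset.sum_empty]
      exact S.zero_mem
    · have h6 : ∑ i, (Matrix.single i i (M i i) - Matrix.single i₀ i₀ (M i i)) =
          ∑ i, Matrix.single i i (M i i) := by
        rw [Finset.sum_sub_distrib]
        have h7 : ∑ i, Matrix.single i₀ i₀ (M i i) = 0 := by
          have h8 := map_sum (Matrix.singleAddMonoidHom i₀ i₀ : K →+ Matrix n n K)
            (fun i => M i i) Finset.univ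
          have h9 : ∑ i, M i i = 0 := hM
          rw [h9, map_zero] at h8
          exact h8.symm
        rw [h7, sub_zero]
      rw [← h6]
      exact Submodule.sum_mem _ fun i _ => h1 i i₀ _
  have h6 : M = ∑ i, (∑ j, Matrix.single i j (M i j) - Matrix.single i i (M i i)) +
      ∑ i, Matrix.single i i (M i i) := by
    rw [Finset.sum_sub_distrib, sub_add_cancel]
    exact h3
  rw [h6]
  exact S.add_mem (Submodule.sum_mem _ fun i _ => h4 i) h5

/-- **Operators of trace zero are sums of brackets of operators of trace zero.** -/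
theorem pSlPf : SSlPf := by
  intro K U _ _ _ _ _ X hX
  let b := Module.finBasis K U
  let φ : Matrix (Fin (finrank K U)) (Fin (finrank K U)) K ≃ₐ[K] Module.End K U :=
    (LinearMap.toMatrixAlgEquiv b).symm
  have hφ : ∀ M, tr (φ M) = M.trace := by
    intro M
    have h1 : tr (φ M) = (LinearMap.toMatrix b b (φ M)).trace := by
      rw [tr, LinearMap.trace_eq_matrix_trace K b]
    rw [h1]
    congr 1
    exact (LinearMap.toMatrixAlgEquiv b).apply_symm_apply M
  obtain ⟨M, rfl⟩ := φ.surjective X
  rw [hφ] at hX
  have h1 := slpf_mat K _ M hX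
  have h2 := Submodule.mem_map_of_mem (f := φ.toLinearMap) h1
  rw [Submodule.map_span] at h2
  refine Submodule.span_mono ?_ h2
  rintro _ ⟨_, ⟨Y, Y', hY, hY', rfl⟩, rfl⟩
  refine ⟨φ Y, φ Y', by rw [hφ, hY], by rw [hφ, hY'], ?_⟩
  rw [AlgEquiv.toLinearMap_apply, map_sub, map_mul, map_mul]

end Pool.Agent.Lib.MP_640417_ag.Tg
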