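import Pool.Agent.Lib.MP_640417_ag.Tg.SpecY
import Pool.Agent.Lib.MP_640417_ag.Tor.Adj

/-!
# Elements of small rank: similitude forms on a constituent which is not self-dual
-/

set_option autoImplicit false

namespace Pool.Agent.Lib.MP_640417_ag.Tg

open Module Pool.Agent.Lib.MP_640417_ag.Tor

theorem pTwW : STwW := by
  intro K V _ _ _ _ ψ L C hC hNT W hW hnd h3 ω hω hL
  obtain ⟨hne, hst, hirr⟩ := hW
  obtain ⟨q, hqC, hq1, hq2⟩ := hC.proj W hst
  let π : V →ₗ[K] W := q.codRestrict W hq1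
  have hπ : ∀ x : W, π x = x := fun x => Subtype.ext (hq2 x x.2)
  let c : Module.End K V := (Adj_equiv ψ hC.nd).symm.toLinearMap ∘ₗ (ω.compl₁₂ π π)
  have hc : ∀ x y, ψ (c x) y = ω (π x) (π y) := by
    intro x y
    rw [← Adj_equiv_apply ψ hC.nd]
    change (Adj_equiv ψ hC.nd) ((Adj_equiv ψ hC.nd).symm ((ω.compl₁₂ π π) x)) y = _
    rw [LinearEquiv.apply_symm_apply]
    rfl
  -- the restriction of an element of `L`
  have hres : ∀ X ∈ L, ∃ X' ∈ LW L W, (∀ x : W, ((X' x : W) : V) = X x) ∧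
      ∀ x : V, π (X x) = X' (π x) := by
    intro X hX
    refine ⟨X.restrict (fun y hy => hst X hX y hy), ⟨X, hX, fun x => rfl⟩, fun x => rfl, ?_⟩
    intro x
    apply Subtype.ext
    exact LinearMap.congr_fun (hC.com X hX q hqC) x
  have hcX : ∀ X ∈ L, ∃ s : K, ∀ x, c (X x) - X (c x) = s • c x := by
    intro X hX
    obtain ⟨X', hX', hX1, hX2⟩ := hres X hX
    obtain ⟨s, hs⟩ := hL X' hX'
    obtain ⟨m, hm⟩ := hC.mult X hX
    refine ⟨s - m, fun x => ?_⟩
    rw [← sub_eq_zero]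
    refine hC.nd _ fun y => ?_
    have h1 := hs (π x) (π y)
    have h2 := hm (c x) y
    rw [map_sub, map_sub, map_smul, LinearMap.sub_apply, LinearMap.sub_apply,
      LinearMap.smul_apply, smul_eq_mul, hc (X x) y, hX2, hc x y]
    rw [hc x y, hc x (X y), hX2] at h2
    linear_combination h1 - h2
  -- `c` is injective on `W`
  have hinj : ∀ x ∈ W, c x = 0 → x = 0 := by
    intro x hx h
    have h1 : (⟨x, hx⟩ : W) = 0 := by
      refine hω _ fun y => ?_
      have h2 := hc x y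
      rw [h, map_zero, LinearMap.zero_apply, hπ y] at h2
      have h4 : π x = ⟨x, hx⟩ := hπ ⟨x, hx⟩
      rw [h4] at h2
      exact h2.symm
    exact congrArg Subtype.val h1
  obtain ⟨x₀, hx₀, hx₀0⟩ := (Submodule.ne_bot_iff W).1 hne
  have hW' : IrrMod L (W.map c) := by
    refine ⟨?_, ?_, ?_⟩
    · rw [Submodule.ne_bot_iff]
      exact ⟨c x₀, ⟨x₀, hx₀, rfl⟩, fun h => hx₀0 (hinj x₀ hx₀ h)⟩
    · rintro X hX _ ⟨x, hx, rfl⟩
      obtain ⟨s, hs⟩ := hcX X hX
      have h1 : X (c x) = c (X x - s • x) := by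
        rw [map_sub, map_smul, ← hs x]
        abel
      rw [h1]
      exact ⟨_, W.sub_mem (hst X hX x hx) (W.smul_mem s hx), rfl⟩
    · intro W'' hle hst''
      have h1 := hirr (W ⊓ W''.comap c) inf_le_left (by
        rintro X hX x ⟨hx, hx'⟩
        refine ⟨hst X hX x hx, ?_⟩
        obtain ⟨s, hs⟩ := hcX X hX
        have h2 : c (X x) = X (c x) + s • c x := by
          rw [← hs x]
          abel
        change c (X x) ∈ W''
        rw [h2]
        exact W''.add_mem (hst'' X hX _ hx') (W''.smul_mem s hx'))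
      rcases h1 with h1 | h1
      · left
        rw [eq_bot_iff]
        intro y hy
        obtain ⟨x, hx, rfl⟩ := hle hy
        have h2 : x ∈ W ⊓ W''.comap c := ⟨hx, hy⟩
        rw [h1, Submodule.mem_bot] at h2
        rw [h2, map_zero]
        exact Submodule.zero_mem _
      · right
        refine le_antisymm hle ?_
        rintro _ ⟨x, hx, rfl⟩
        rw [← h1] at hx
        exact hx.2
  have htw : Twist L W (W.map c) c :=
    ⟨fun x hx => ⟨x, hx, rfl⟩, ⟨x₀, hx₀, fun h => hx₀0 (hinj x₀ hx₀ h)⟩, fun X hX => by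
      obtain ⟨s, hs⟩ := hcX X hX
      exact ⟨s, fun x _ => hs x⟩⟩
  rcases hNT W (W.map c) ⟨hne, hst, hirr⟩ hW' hnd (by omega) c htw with h | h
  · apply hnd
    refine ⟨ψ ∘ₗ c, ?_, ?_⟩
    · by_contra hcon
      push Not at hcon
      apply hx₀0
      have h1 : (⟨x₀, hx₀⟩ : W) = 0 := by
        refine hω _ fun y => ?_
        have h2 := hcon x₀ hx₀ y y.2
        change ψ (c x₀) y = 0 at h2
        rw [hc, hπ y] at h2
        have h4 : π x₀ = ⟨x₀, hx₀⟩ := hπ ⟨x₀, hx₀⟩
        rw [h4] at h2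
        exact h2
      exact congrArg Subtype.val h1
    · intro X hX m hm x hx y _
      change ψ (c (X x)) y + ψ (c x) (X y) = m * ψ (c x) y
      rw [h X hX x hx]
      exact hm (c x) y
  · omega

end Pool.Agent.Lib.MP_640417_ag.Tg
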