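import Pool.Agent.Lib.MP_640417_ag.Tg.SpecY

/-!
# Unipotent isometries of small rank
-/

set_option autoImplicit false

namespace Pool.Agent.Lib.MP_640417_ag.Tg

open Module Pool.Agent.Lib.MP_640417_ag Pool.Agent.Lib.MP_640417_ag.Tor

theorem pUni (hS : SNrmS) : SUni := by
  intro K U _ _ _ _ _ _ β g hg Θ Θ' hn hiso hne hrk hiso0
  obtain ⟨N, hN⟩ : ∃ N : Module.End K U, N = Θ - 1 := ⟨_, rfl⟩
  have hΘ : Θ = 1 + N := by rw [hN]; abel
  rw [← hN] at hrk hiso0
  have hskew : Skew β N := by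
    intro x y
    have h1 := hiso x y
    rw [hΘ] at h1
    simp only [LinearMap.add_apply, Module.End.one_apply, map_add] at h1
    have h2 := hiso0 x y
    rw [h2] at h1
    linear_combination h1
  have hNN : N * N = 0 := by
    apply LinearMap.ext
    intro x
    rw [Module.End.mul_apply, LinearMap.zero_apply]
    apply hg.nd
    intro y
    rw [hskew (N x) y, hiso0 x y, neg_zero]
  have hΘ' : Θ' = 1 - N := by
    have h1 : Θ * (1 - N) = 1 := by
      rw [hΘ]
      have : (1 + N) * (1 - N) = 1 - N * N := by noncomm_ring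
      rw [this, hNN, sub_zero]
    calc Θ' = Θ' * (Θ * (1 - N)) := by rw [h1, mul_one]
      _ = (Θ' * Θ) * (1 - N) := by rw [mul_assoc]
      _ = 1 - N := by rw [hn.l, one_mul]
  have hN0 : N ≠ 0 := by
    intro h
    rw [hN, sub_eq_zero] at h
    exact hne h
  refine hS K U β g hg N hskew hNN hN0 hrk ?_
  intro X hX
  have h1 := hn.n X hX
  have h2 := hn.n' X hX
  have h3 : N * X - X * N = (1 / 2 : K) • (Θ * X * Θ' - Θ' * X * Θ) := by
    have h4 : Θ * X * Θ' - Θ' * X * Θ = (2 : K) • (N * X - X * N) := by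
      rw [hΘ, hΘ', two_smul]
      noncomm_ring
    rw [h4, smul_smul]
    norm_num
  rw [h3]
  exact Submodule.smul_mem _ _ (sub_mem h1 h2)

end Pool.Agent.Lib.MP_640417_ag.Tg
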