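import Pool.Agent.Lib.MP_640417_ag.Tg.MainY
import Pool.Agent.Lib.MP_640417_ag.Tg.SlPf
import Pool.Agent.Lib.MP_640417_ag.Tg.NrmR
import Pool.Agent.Lib.MP_640417_ag.Tg.NrmOne
import Pool.Agent.Lib.MP_640417_ag.Tg.Refl
import Pool.Agent.Lib.MP_640417_ag.Tg.MulOne
import Pool.Agent.Lib.MP_640417_ag.Tg.NrmS
import Pool.Agent.Lib.MP_640417_ag.Tg.Uni
import Pool.Agent.Lib.MP_640417_ag.Tg.RotA
import Pool.Agent.Lib.MP_640417_ag.Tg.RotB
import Pool.Agent.Lib.MP_640417_ag.Tg.RotTwo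
import Pool.Agent.Lib.MP_640417_ag.Tg.LWa
import Pool.Agent.Lib.MP_640417_ag.Tg.TwW
import Pool.Agent.Lib.MP_640417_ag.Tg.SdW
import Pool.Agent.Lib.MP_640417_ag.Tg.PlcA
import Pool.Agent.Lib.MP_640417_ag.Tg.PlcB
import Pool.Agent.Lib.MP_640417_ag.Tg.DimTwo
import Pool.Agent.Lib.MP_640417_ag.Tg.AdL

/-!
# Places which decide: the final theorem
-/

set_option autoImplicit false

namespace Pool.Agent.Lib.MP_640417_ag.Tg

open Module TensorProduct Pool.Agent.Lib.MP_640417_ag Pool.Agent.Lib.MP_640417_ag.Tor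
  Pool.Agent.Lib.MP_640417_ag.Lef Pool.Agent.Lib.MP_640417_ag.Frob
  Pool.Agent.Lib.MP_640417_ag.Glob Pool.Agent.Lib.MP_640417_ag.Ty
  Pool.Agent.Lib.MP_640417_ag.Ctl Pool.Agent.Lib.MP_640417_ag.Gen4
  Pool.Agent.Lib.MP_640417_ag.Dfr

open Pool.Agent.Lib.MP_640417_ag.Four (Semisimple NoExotic Dv)

theorem nrmOne : SNrmOne := pNrmOne pSlPf pIdemOne (pCls pRad pJm pFrame pClsA pClsB)
theorem refl' : SRefl := pRefl (pCls pRad pJm pFrame pClsA pClsB)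
theorem uni : SUni := pUni pNrmS
theorem rotTwo : SRotTwo := pRotTwo uni (pRotA pNrmS) (pRotB pNrmS)
theorem plcA : SPlcA := pPlcA pNrmR nrmOne refl' pLWa pTwW
theorem plcB : SPlcB := pPlcB uni rotTwo pMulOne pLWa (pSdW pIrrE (pRedW pIrrE) pDualE)

variable (l : ℕ) [Fact l.Prime] {Γ : Type} [Group Γ]
    [TopologicalSpace Γ] [IsTopologicalGroup Γ] [CompactSpace Γ] {V : Type} [AddCommGroup V]
    [Module ℚ_[l] V] [FiniteDimensional ℚ_[l] V] (ρ : H1Rep Γ ℚ_[l] V)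

/-- **Places decide.** -/
theorem tfae_places (hss : Semisimple ρ) (h3 : NoTypeIII ρ) (K : Type) [Field K]
    [Algebra ℚ_[l] K] [IsAlgClosed K] :
    List.TFAE [NoExotic ρ,
      (∀ W, IrrMod (LieK l ρ K) W → BigMod (ρ.form.baseChange K) (LieK l ρ K) W) ∧
        NoTwist (ρ.form.baseChange K) (LieK l ρ K) ∧ ¬ WeilRel ρ,
      PlacesDecide l ρ K ∧ NoTwist (ρ.form.baseChange K) (LieK l ρ K) ∧ ¬ WeilRel ρ] := by
  tfae_have 1 ↔ 2 := (tfae_big l ρ hss h3 K).out 0 1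
  tfae_have 2 → 3 := fun h => ⟨fun W hW => Or.inr (Or.inl (h.1 W hW)), h.2⟩
  tfae_have 3 → 1 := fun h => (noExotic_iff_of_constH l ρ hss h3 K
    (constH_of_places l ρ plcA plcB pDimTwo pAdL hss h3 K h.2.1 h.1)).2 h.2
  tfae_finish

/-- Without factors of type IV there are no twists and no Weil relations. -/
theorem real_ok (hss : Semisimple ρ) (hr : RealType ρ) (K : Type) [Field K]
    [Algebra ℚ_[l] K] [IsAlgClosed K] :
    NoTwist (ρ.form.baseChange K) (LieK l ρ K) ∧ ¬ WeilRel ρ :=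
  ⟨fun W W' hW _ hnd => absurd (dualMod_of_real l ρ hss hr K W hW) hnd, not_weilRel_of_real hr⟩

end Pool.Agent.Lib.MP_640417_ag.Tg
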