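import Pool.Agent.Lib.MP_640417_ag.Tg.SpecA
import Pool.Agent.Lib.MP_640417_ag.Tor.GouC
import Pool.Agent.Lib.MP_640417_ag.Tor.PrimTr
import Pool.Agent.Lib.MP_640417_ag.Tor.Adj

/-!
# Toric places, no factors of type III: two blocks are independent
-/

namespace Pool.Agent.Lib.MP_640417_ag.Tg

open Module Pool.Agent.Lib.MP_640417_ag.Tor

variable {K V : Type} [Field K] [AddCommGroup V] [Module K V]

lemma PairG_line [FiniteDimensional K V] {e : Module.End K V} (h : rk e = 1)
    (Y : Module.End K V) : ∃ c : K, e * Y * e = c • e := by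
  obtain ⟨v, hv0, hv⟩ := finrank_eq_one_iff'.mp h
  obtain ⟨c, hc⟩ := hv ⟨e (Y v.1), ⟨_, rfl⟩⟩
  refine ⟨c, LinearMap.ext fun x => ?_⟩
  obtain ⟨d, hd⟩ := hv ⟨e x, ⟨x, rfl⟩⟩
  have hd' : d • v.1 = e x := congrArg Subtype.val hd
  have hc' : c • v.1 = e (Y v.1) := congrArg Subtype.val hc
  rw [Module.End.mul_apply, Module.End.mul_apply, LinearMap.smul_apply, ← hd', map_smul, map_smul,
    ← hc', smul_comm]

lemma PairG_sand [CharZero K] [FiniteDimensional K V] {e : Module.End K V} (hee : e * e = 0)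
    (h : rk e = 1) (Y : Module.End K V) : e * Y * e = tr (e * Y) • e := by
  have hne : e ≠ 0 := by
    rintro rfl
    unfold rk at h
    rw [LinearMap.range_zero, finrank_bot] at h
    exact zero_ne_one h
  have h1 := pPrimTr K V ⊤ e ⟨trivial, hne, hee, fun X _ => PairG_line h X⟩ Y trivial
  rwa [h, Nat.cast_one, one_smul] at h1

lemma PairG_ne {e : Module.End K V} (h : rk e = 1) : e ≠ 0 := by
  rintro rfl
  unfold rk at h
  rw [LinearMap.range_zero, finrank_bot] at h
  exact zero_ne_one h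

lemma der_le {g : Submodule K (Module.End K V)} (hl : Lie g) : der g ≤ g := by
  refine Submodule.span_le.mpr ?_
  rintro _ ⟨X, hX, Y, hY, rfl⟩
  exact hl X hX Y hY

lemma der_lie {g : Submodule K (Module.End K V)} (hl : Lie g) : Lie (der g) := fun X hX Y hY =>
  Submodule.subset_span ⟨X, der_le hl hX, Y, der_le hl hY, rfl⟩

lemma der_bracket {g : Submodule K (Module.End K V)} (hl : Lie g) {X Y : Module.End K V}
    (hX : X ∈ g) (hY : Y ∈ der g) : X * Y - Y * X ∈ der g :=
  Submodule.subset_span ⟨X, hX, Y, der_le hl hY, rfl⟩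

lemma der_sb {g : Submodule K (Module.End K V)} {ψ : LinearMap.BilinForm K V}
    {p : Module.End K V} {t : Prop} (hpp : p * p = p) (hadj : t → ∀ x y, ψ (p x) y = ψ x (p y))
    (hsk : ∀ X ∈ g, Skew ψ X) (hc : ∀ X ∈ g, p * X = X * p) :
    ∀ X ∈ der g, p * X ∈ sb ψ p t := by
  intro X hX
  unfold der at hX
  induction hX using Submodule.span_induction with
  | mem x hx =>
    obtain ⟨X, hX, Y, hY, rfl⟩ := hx
    refine ⟨?_, ?_, fun ht => ?_⟩
    · have h1 : p * (X * Y - Y * X) = (X * Y - Y * X) * p := by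
        rw [mul_sub, sub_mul, GouC_comm (hc X hX) (hc Y hY), GouC_comm (hc Y hY) (hc X hX)]
      rw [← mul_assoc, hpp, h1, mul_assoc, hpp]
    · rw [mul_sub, ← GouC_mul hpp (hc X hX), ← GouC_mul hpp (hc Y hY)]
      unfold tr
      rw [map_sub, LinearMap.trace_mul_comm, sub_self]
    · exact GouC_skew (hadj ht) (by
        rw [mul_sub, sub_mul, GouC_comm (hc X hX) (hc Y hY), GouC_comm (hc Y hY) (hc X hX)])
        ((hsk X hX).lie (hsk Y hY))
  | zero => rw [mul_zero]; exact zero_mem _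
  | add x y _ _ hx hy => rw [mul_add]; exact add_mem hx hy
  | smul r x _ hx => rw [mul_smul_comm]; exact Submodule.smul_mem _ _ hx

lemma der_lift {g : Submodule K (Module.End K V)} {ψ : LinearMap.BilinForm K V}
    {p : Module.End K V} {t : Prop} (hpp : p * p = p) (hc : ∀ X ∈ g, p * X = X * p)
    (hfull : ∀ X ∈ sb ψ p t, ∃ Y ∈ g, p * Y = X) (hperf : sb ψ p t ≤ der (sb ψ p t)) :
    ∀ X ∈ sb ψ p t, ∃ Y ∈ der g, p * Y = X := by
  intro X hX
  have h1 := hperf hX
  unfold der at h1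
  clear hX
  induction h1 using Submodule.span_induction with
  | mem x hx =>
    obtain ⟨X, hX, Y, hY, rfl⟩ := hx
    obtain ⟨X', hX', h2⟩ := hfull X hX
    obtain ⟨Y', hY', h3⟩ := hfull Y hY
    refine ⟨X' * Y' - Y' * X', Submodule.subset_span ⟨X', hX', Y', hY', rfl⟩, ?_⟩
    rw [mul_sub, ← GouC_mul hpp (hc X' hX'), ← GouC_mul hpp (hc Y' hY'), h2, h3]
  | zero => exact ⟨0, zero_mem _, mul_zero _⟩
  | add x y _ _ hx hy =>
    obtain ⟨X, hX, rfl⟩ := hx
    obtain ⟨Y, hY, rfl⟩ := hy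
    exact ⟨X + Y, add_mem hX hY, mul_add _ _ _⟩
  | smul r x _ hx =>
    obtain ⟨X, hX, rfl⟩ := hx
    exact ⟨r • X, Submodule.smul_mem _ _ hX, mul_smul_comm _ _ _⟩

/-- A multiple of an idempotent of trace zero vanishes. -/
lemma scalar_tr [CharZero K] [FiniteDimensional K V] {p : Module.End K V} (hpp : p * p = p)
    (hr : rk p ≠ 0) {X : Module.End K V} {s : K} (h : X = s • p) (ht : tr X = 0) : X = 0 := by
  rw [h] at ht ⊢
  have h1 : tr (s • p) = s * (rk p : K) := by
    rw [← tr_idem hpp]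
    exact map_smul _ s p
  rw [h1] at ht
  rcases mul_eq_zero.mp ht with h2 | h2
  · rw [h2, zero_smul]
  · exact absurd (Nat.cast_eq_zero.mp h2) hr

section bd

variable {B : Type} [Fintype B] {ψ : LinearMap.BilinForm K V}
  {p : B → Module.End K V} {st : B → B}

lemma BD.blk (h : BD ψ p st) {b : B} (hb : 2 ≤ rk (p b)) : Blk ψ (p b) (st b = b) where
  alt := h.alt
  anti := h.anti
  nd := h.nd
  pp := h.pp b
  adj := by
    intro hs x y
    rw [h.adj b x y, hs]
  two := hb

lemma BD.rk_st [FiniteDimensional K V] (h : BD ψ p st) (b : B) : rk (p (st b)) = rk (p b) :=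
  (rk_adj ψ h.nd (h.adj b)).symm

/-- The dual block of a skew operator. -/
lemma BD.st_mul (h : BD ψ p st) {b : B} {X Y : Module.End K V} (hX : Skew ψ X) (hY : Skew ψ Y)
    (hXc : ∀ c, p c * X = X * p c) (hYc : ∀ c, p c * Y = Y * p c) (he : p b * X = p b * Y) :
    p (st b) * X = p (st b) * Y := by
  have h1 : ∀ x y, ψ ((p (st b) * X) x) y = ψ ((p (st b) * Y) x) y := by
    intro x y
    have h2 : ∀ Z : Module.End K V, Skew ψ Z → (∀ c, p c * Z = Z * p c) →
        ψ ((p (st b) * Z) x) y = - ψ x ((p b * Z) y) := by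
      intro Z hZ hc
      rw [Module.End.mul_apply, h.adj, h.inv, hZ, hc b, Module.End.mul_apply]
    rw [h2 X hX hXc, h2 Y hY hYc, he]
  refine LinearMap.ext fun x => ?_
  rw [← sub_eq_zero]
  apply h.nd
  intro y
  rw [map_sub, LinearMap.sub_apply, h1, sub_self]

lemma BD.st_zero (h : BD ψ p st) {b : B} {X : Module.End K V} (hX : Skew ψ X)
    (hXc : ∀ c, p c * X = X * p c) (he : p b * X = 0) : p (st b) * X = 0 := by
  have h1 := h.st_mul (b := b) hX (Y := 0) (fun x y => by simp) hXc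
    (fun c => by rw [mul_zero, zero_mul]) (by rw [he, mul_zero])
  rwa [mul_zero] at h1

/-- The sum of some blocks. -/
def BE (p : B → Module.End K V) (T : Finset B) : Module.End K V := ∑ c ∈ T, p c

lemma BD.mul_BE (h : BD ψ p st) {T : Finset B} {c : B} (hc : c ∈ T) : p c * BE p T = p c := by
  unfold BE
  rw [Finset.mul_sum, Finset.sum_eq_single c]
  · exact h.pp c
  · intro b _ hb
    exact h.orth c b hb.symm
  · intro h0
    exact absurd hc h0

lemma BD.BE_mul (h : BD ψ p st) {T : Finset B} {c : B} (hc : c ∈ T) : BE p T * p c = p c := by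
  unfold BE
  rw [Finset.sum_mul, Finset.sum_eq_single c]
  · exact h.pp c
  · intro b _ hb
    exact h.orth b c hb
  · intro h0
    exact absurd hc h0

lemma BD.BE_BE (h : BD ψ p st) (T : Finset B) : BE p T * BE p T = BE p T := by
  conv_lhs =>
    enter [1]
    unfold BE
  rw [Finset.sum_mul]
  exact Finset.sum_congr rfl fun c hc => h.mul_BE hc

lemma BE_zero {T : Finset B} {X : Module.End K V} (h : ∀ c ∈ T, p c * X = 0) :
    BE p T * X = 0 := by
  unfold BE
  rw [Finset.sum_mul]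
  exact Finset.sum_eq_zero h

lemma BE_comm {T : Finset B} {X : Module.End K V} (h : ∀ c, p c * X = X * p c) :
    BE p T * X = X * BE p T := by
  unfold BE
  rw [Finset.sum_mul, Finset.mul_sum]
  exact Finset.sum_congr rfl fun c _ => h c

lemma BD.BE_adj (h : BD ψ p st) {T : Finset B} (hT : ∀ c ∈ T, st c ∈ T) (x y : V) :
    ψ (BE p T x) y = ψ x (BE p T y) := by
  unfold BE
  rw [LinearMap.sum_apply, LinearMap.sum_apply, map_sum, LinearMap.sum_apply, map_sum]
  refine Finset.sum_bij (fun c _ => st c) hT ?_ ?_ ?_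
  · intro c _ d _ hcd
    rw [← h.inv c, hcd, h.inv]
  · intro c hc
    exact ⟨st c, hT c hc, h.inv c⟩
  · intro c _
    exact h.adj c x y

end bd

end Pool.Agent.Lib.MP_640417_ag.Tg
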