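import Pool.Agent.Lib.MP_640417_ag.Tg.PairG

/-!
# Toric places, no factors of type III: extremal elements in two linked blocks
-/

namespace Pool.Agent.Lib.MP_640417_ag.Tg

open Module Pool.Agent.Lib.MP_640417_ag.Tor

variable {K V : Type} [Field K] [AddCommGroup V] [Module K V] {B : Type} [Fintype B]
  {ψ : LinearMap.BilinForm K V} {p : B → Module.End K V} {st : B → B}

lemma rk_neg' (X : Module.End K V) : rk (-X) = rk X := by
  unfold rk
  rw [LinearMap.range_neg]

/-- Square and rank in the dual block. -/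
lemma BD.st_sq [FiniteDimensional K V] (h : BD ψ p st) {b : B} {x : Module.End K V}
    (hx : Skew ψ x) (hc : ∀ c, p c * x = x * p c) (h1 : (p b * x) * (p b * x) = 0)
    (h2 : rk (p b * x) = 1) : (p (st b) * x) * (p (st b) * x) = 0 ∧ rk (p (st b) * x) = 1 := by
  have hadj : ∀ u y, ψ ((p (st b) * x) u) y = ψ u ((-(p b * x)) y) := by
    intro u y
    rw [Module.End.mul_apply, h.adj, h.inv, hx, hc b, LinearMap.neg_apply, Module.End.mul_apply,
      map_neg]
  constructor
  · refine LinearMap.ext fun u => ?_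
    rw [LinearMap.zero_apply]
    apply h.nd
    intro y
    rw [Module.End.mul_apply, hadj, hadj, LinearMap.neg_apply, LinearMap.neg_apply, map_neg, map_neg,
      map_neg, neg_neg, ← Module.End.mul_apply (p b * x), h1, LinearMap.zero_apply, map_zero]
  · rw [rk_adj ψ h.nd hadj, rk_neg', h2]

lemma PairG_ext [IsAlgClosed K] [CharZero K] [FiniteDimensional K V] (hExt : SExt)
    (h : BD ψ p st) {D : Submodule K (Module.End K V)} (hD : Lie D) {T : Finset B}
    (hsk : ∀ X ∈ D, Skew ψ X) (hc : ∀ b, ∀ X ∈ D, p b * X = X * p b) {a b : B}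
    (hT : ∀ c ∈ T, c = a ∨ c = b ∨ c = st a ∨ c = st b) (hbT : b ∈ T) (hb : 2 ≤ rk (p b))
    (h0 : ∀ X ∈ D, p a * X = 0 → ∀ c ∈ T, p c * X = 0)
    (h0' : ∀ X ∈ D, p b * X = 0 → p a * X = 0)
    (hlb : ∀ Y ∈ sb ψ (p b) (st b = b), ∃ X ∈ D, p b * X = Y)
    (hsb : ∀ X ∈ D, p b * X ∈ sb ψ (p b) (st b = b)) {x : Module.End K V} (hx : x ∈ D)
    (hxx : (p a * x) * (p a * x) = 0) (hr : rk (p a * x) = 1) :
    (∀ c ∈ T, (p c * x) * (p c * x) = 0 ∧ rk (p c * x) = 1) ∧
      (∀ X ∈ D, BE p T * (x * X * x) = tr (p a * (x * X)) • (BE p T * x)) ∧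
      BE p T * (x * x) = 0 := by
  have hZ : ∀ X ∈ D, x * (x * X - X * x) - (x * X - X * x) * x +
      (2 * tr (p a * (x * X))) • x ∈ D ∧
      p a * (x * (x * X - X * x) - (x * X - X * x) * x + (2 * tr (p a * (x * X))) • x) = 0 := by
    intro X hX
    refine ⟨add_mem (hD x hx _ (hD x hx X hX)) (Submodule.smul_mem _ _ hx), ?_⟩
    rw [mul_add, ← GouC_double (h.pp a) (hc a x hx) (hc a X hX), sandwich_eq hxx,
      PairG_sand hxx hr, GouC_mul (h.pp a) (hc a x hx), mul_smul_comm]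
    module
  have hbx : (p b * x) * (p b * x) = 0 ∧ rk (p b * x) = 1 := by
    refine hExt K V ψ (p b) _ (h.blk hb) _ (hsb x hx) ?_ ?_
    · intro h1
      exact PairG_ne hr (h0' x hx h1)
    · intro Y hY
      obtain ⟨X, hX, rfl⟩ := hlb Y hY
      refine ⟨-(2 * tr (p a * (x * X))), ?_⟩
      obtain ⟨h1, h2⟩ := hZ X hX
      have h3 := h0 _ h1 h2 b hbT
      rw [mul_add, ← GouC_double (h.pp b) (hc b x hx) (hc b X hX), mul_smul_comm] at h3
      rw [neg_smul]
      exact eq_neg_of_add_eq_zero_left h3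
  have hall : ∀ c ∈ T, (p c * x) * (p c * x) = 0 ∧ rk (p c * x) = 1 := by
    intro c hcT
    rcases hT c hcT with rfl | rfl | rfl | rfl
    · exact ⟨hxx, hr⟩
    · exact hbx
    · exact h.st_sq (hsk x hx) (fun c => hc c x hx) hxx hr
    · exact h.st_sq (hsk x hx) (fun c => hc c x hx) hbx.1 hbx.2
  have hEE := h.BE_BE T
  have hEc : ∀ X ∈ D, BE p T * X = X * BE p T := fun X hX => BE_comm fun c => hc c X hX
  have hExx : BE p T * (x * x) = 0 := by
    refine BE_zero fun c hcT => ?_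
    rw [← GouC_mul (h.pp c) (hc c x hx), (hall c hcT).1]
  refine ⟨hall, fun X hX => ?_, hExx⟩
  obtain ⟨h1, h2⟩ := hZ X hX
  have h3 := BE_zero (fun c hcT => h0 _ h1 h2 c hcT)
  have h4 : BE p T * (x * (x * X - X * x) - (x * X - X * x) * x +
      (2 * tr (p a * (x * X))) • x) = BE p T * (x * x) * X - (2 : K) • (BE p T * (x * X * x)) +
      BE p T * X * (x * x) + (2 * tr (p a * (x * X))) • (BE p T * x) := by
    rw [mul_add, mul_smul_comm, two_smul]
    noncomm_ring
  have h5 : BE p T * X * (x * x) = 0 := by rw [hEc X hX, mul_assoc, hExx, mul_zero]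
  rw [h4, hExx, zero_mul, h5, add_zero, zero_sub] at h3
  have h6 : (2 : K) • (BE p T * (x * X * x)) = (2 : K) • (tr (p a * (x * X)) • (BE p T * x)) := by
    rw [smul_smul]
    exact (neg_add_eq_zero.mp h3)
  exact smul_right_injective _ two_ne_zero h6

end Pool.Agent.Lib.MP_640417_ag.Tg
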