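import Pool.Agent.Lib.MP_640417_ag.Tg.PairH
import Pool.Agent.Lib.MP_640417_ag.Tor.Idl
import Pool.Agent.Lib.MP_640417_ag.Tor.Top
import Pool.Agent.Lib.MP_640417_ag.Tor.Grade

/-!
# Toric places, no factors of type III: two linked blocks
-/

namespace Pool.Agent.Lib.MP_640417_ag.Tg

open Module Pool.Agent.Lib.MP_640417_ag.Tor

variable {K V : Type} [Field K] [AddCommGroup V] [Module K V] {B : Type} [Fintype B]
  [DecidableEq B] {ψ : LinearMap.BilinForm K V} {p : B → Module.End K V} {st : B → B} {a b : B}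
  {D : Submodule K (Module.End K V)}

/-- The blocks `a`, `b` and their duals. -/
def TT (st : B → B) (a b : B) : Finset B := {a, b, st a, st b}

lemma TT_a : a ∈ TT st a b := by simp [TT]
lemma TT_b : b ∈ TT st a b := by simp [TT]
lemma TT_sb : st b ∈ TT st a b := by simp [TT]

lemma TT_cases {c : B} (h : c ∈ TT st a b) : c = a ∨ c = b ∨ c = st a ∨ c = st b := by
  simpa [TT] using h

lemma TT_st (hinv : ∀ c, st (st c) = c) {c : B} (h : c ∈ TT st a b) : st c ∈ TT st a b := by
  rcases TT_cases h with rfl | rfl | rfl | rfl <;> simp [TT, hinv]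

/-- Two linked blocks: `D` lives on `TT st a b`, it is determined by each of the two blocks `a`, `b`, and it
is as large as possible in each block. -/
structure Lk (ψ : LinearMap.BilinForm K V) (p : B → Module.End K V) (st : B → B) (a b : B)
    (D : Submodule K (Module.End K V)) : Prop where
  bd : BD ψ p st
  lie : Lie D
  sk : ∀ X ∈ D, Skew ψ X
  com : ∀ c, ∀ X ∈ D, p c * X = X * p c
  sup : ∀ X ∈ D, BE p (TT st a b) * X = X
  ia : ∀ X ∈ D, p a * X = 0 → X = 0
  ib : ∀ X ∈ D, p b * X = 0 → X = 0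
  lft : ∀ c ∈ TT st a b, ∀ Y ∈ sb ψ (p c) (st c = c), ∃ X ∈ D, p c * X = Y
  msb : ∀ c ∈ TT st a b, ∀ X ∈ D, p c * X ∈ sb ψ (p c) (st c = c)
  rk2 : ∀ c ∈ TT st a b, 2 ≤ rk (p c)

/-- Extremal elements. -/
lemma Lk.ext [IsAlgClosed K] [CharZero K] [FiniteDimensional K V] (hExt : SExt)
    (h : Lk ψ p st a b D) {x : Module.End K V} (hx : x ∈ D) (hxx : (p a * x) * (p a * x) = 0)
    (hr : rk (p a * x) = 1) :
    (∀ c ∈ TT st a b, (p c * x) * (p c * x) = 0 ∧ rk (p c * x) = 1) ∧
      (∀ X ∈ D, x * X * x = tr (p a * (x * X)) • x) ∧ x * x = 0 := by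
  obtain ⟨h1, h2, h3⟩ := PairG_ext hExt h.bd h.lie (T := TT st a b) h.sk h.com
    (fun c hc => TT_cases hc) TT_b (h.rk2 b TT_b)
    (fun X hX h0 c _ => by rw [h.ia X hX h0, mul_zero])
    (fun X hX h0 => by rw [h.ib X hX h0, mul_zero]) (h.lft b TT_b) (h.msb b TT_b) hx hxx hr
  refine ⟨h1, fun X hX => ?_, ?_⟩
  · have h4 := h2 X hX
    rwa [h.sup x hx, ← mul_assoc, ← mul_assoc, h.sup x hx] at h4
  · rwa [← mul_assoc, h.sup x hx] at h3

/-- The `sl₂` in two linked blocks. -/
lemma Lk.sl [IsAlgClosed K] [CharZero K] [FiniteDimensional K V] (hExt : SExt)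
    (hPartner : SPartner) (h : Lk ψ p st a b D) :
    ∃ e f, Sl D e f ∧ Prm D e ∧ Prm D f ∧ (∀ c ∈ TT st a b, (p c * e) * (p c * e) = 0 ∧
      rk (p c * e) = 1) := by
  obtain ⟨hP1, e₁, he₁, hee, hr⟩ := hPartner K V ψ (p a) _ (h.bd.blk (h.rk2 a TT_a))
  obtain ⟨f₁, hS⟩ := hP1 e₁ he₁ hee hr
  obtain ⟨e, he, hea⟩ := h.lft a TT_a e₁ he₁
  obtain ⟨f, hf, hfa⟩ := h.lft a TT_a f₁ hS.mf
  have hfr : rk f₁ = 1 := by
    have h1 : rk f₁ ≤ 1 := by
      have h2 : LinearMap.range f₁ ≤ (LinearMap.range e₁).map f₁ := by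
        rintro _ ⟨x, rfl⟩
        refine ⟨e₁ (f₁ x), ⟨_, rfl⟩, ?_⟩
        have h3 := LinearMap.congr_fun hS.fef x
        exact h3
      unfold rk at hr ⊢
      exact (Submodule.finrank_mono h2).trans ((Submodule.finrank_map_le _ _).trans hr.le)
    have h2 : rk f₁ ≠ 0 := by
      intro h0
      unfold rk at h0
      rw [Submodule.finrank_eq_zero, LinearMap.range_eq_bot] at h0
      apply PairG_ne hr
      rw [← hS.efe, h0, mul_zero, zero_mul]
    omega
  obtain ⟨e1, e2, e3⟩ := h.ext hExt he (by rw [hea]; exact hee) (by rw [hea]; exact hr)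
  obtain ⟨f1, f2, f3⟩ := h.ext hExt hf (by rw [hfa]; exact hS.ff) (by rw [hfa]; exact hfr)
  have hca := h.com a
  have key : ∀ x y : Module.End K V, x ∈ D → y ∈ D →
      p a * (x * y * x) = (p a * x) * (p a * y) * (p a * x) := by
    intro x y hx hy
    rw [GouC_mul (h.bd.pp a) (hca x hx), GouC_mul (h.bd.pp a) (GouC_comm (hca x hx) (hca y hy))]
  have hne : e ≠ 0 := by
    rintro rfl
    apply PairG_ne hr
    rw [← hea, mul_zero]
  have hfne : f ≠ 0 := by
    rintro rfl
    apply PairG_ne hfr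
    rw [← hfa, mul_zero]
  have hefe : e * f * e = e := by
    have h1 := e2 f hf
    have h2 : p a * (e * f * e) = e₁ := by rw [key e f he hf, hea, hfa, hS.efe]
    rw [h1, mul_smul_comm, hea] at h2
    have h3 : (tr (p a * (e * f)) - 1) • e₁ = 0 := by rw [sub_smul, h2, one_smul, sub_self]
    rw [h1, sub_eq_zero.mp ((smul_eq_zero.mp h3).resolve_right (PairG_ne hr)), one_smul]
  have hfef : f * e * f = f := by
    have h1 := f2 e he
    have h2 : p a * (f * e * f) = f₁ := by rw [key f e hf he, hea, hfa, hS.fef]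
    rw [h1, mul_smul_comm, hfa] at h2
    have h3 : (tr (p a * (f * e)) - 1) • f₁ = 0 := by rw [sub_smul, h2, one_smul, sub_self]
    rw [h1, sub_eq_zero.mp ((smul_eq_zero.mp h3).resolve_right (PairG_ne hfr)), one_smul]
  exact ⟨e, f, ⟨he, hf, e3, f3, hefe, hfef⟩, ⟨he, hne, e3, fun X hX => ⟨_, e2 X hX⟩⟩,
    ⟨hf, hfne, f3, fun X hX => ⟨_, f2 X hX⟩⟩, e1⟩

/-- `D` is generated by the elements of degree one. -/
lemma Lk.gen [IsAlgClosed K] [CharZero K] [FiniteDimensional K V] (hSimp : SSimp)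
    (h : Lk ψ p st a b D) {e f : Module.End K V} (hS : Sl D e f) (hP : Prm D e) :
    ∀ S : Submodule K (Module.End K V), Lie S → e ∈ S → f ∈ S → G1 D e f ≤ S → G1 D f e ≤ S →
      D ≤ S := by
  obtain ⟨I, hI, heI, -, hIS⟩ := pIdl pGrade pTop K V D h.lie e f hP hS
  have hDI : D ≤ I := by
    have h1 : sb ψ (p a) (st a = a) ≤ I.map (LinearMap.mulLeft K (p a)) := by
      refine hSimp K V ψ (p a) _ (h.bd.blk (h.rk2 a TT_a)) _ ?_ ?_ (p a * e) ⟨e, heI, rfl⟩ ?_
      · rintro _ ⟨X, hX, rfl⟩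
        have h2 := h.msb a TT_a X (hI.le hX)
        exact ⟨h2.1, h2.2.2⟩
      · rintro Z hZ _ ⟨Y, hY, rfl⟩
        obtain ⟨Z', hZ', rfl⟩ := h.lft a TT_a Z hZ
        refine ⟨Z' * Y - Y * Z', hI.lie Z' hZ' Y hY, ?_⟩
        show p a * (Z' * Y - Y * Z') = (p a * Z') * (p a * Y) - (p a * Y) * (p a * Z')
        rw [GouC_mul (h.bd.pp a) (h.com a Z' hZ'), GouC_mul (h.bd.pp a) (h.com a Y (hI.le hY)),
          mul_sub]
      · intro c hc
        have h2 := scalar_tr (h.bd.pp a) (by have := h.rk2 a TT_a; omega) hc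
          (h.msb a TT_a e hS.me).2.1
        exact hP.ne (h.ia e hS.me h2)
    intro X hX
    obtain ⟨Y, hY, hYX⟩ := h1 (h.msb a TT_a X hX)
    have h2 : p a * (X - Y) = 0 := by
      rw [mul_sub, sub_eq_zero]
      exact hYX.symm
    have h3 := h.ia _ (sub_mem hX (hI.le hY)) h2
    rw [sub_eq_zero.mp h3]
    exact hY
  intro S hS1 h1 h2 h3 h4
  exact hDI.trans (hIS S hS1 h1 h2 h3 h4)

/-- The form on the elements of degree one defined by the block `c`. -/
noncomputable def bt (p : B → Module.End K V) (f : Module.End K V) (c : B)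
    (x y : Module.End K V) : K := tr (p c * (f * x * y))

lemma Lk.xy [CharZero K] [FiniteDimensional K V] (h : Lk ψ p st a b D) {e f : Module.End K V}
    (hS : Sl D e f) {c : B} (hc : (p c * e) * (p c * e) = 0 ∧ rk (p c * e) = 1)
    {x y : Module.End K V} (hx : x ∈ G1 D e f) (hy : y ∈ G1 D e f) :
    x * y * p c = bt p f c x y • (e * p c) := by
  have hce := h.com c e hS.me
  have hcf := h.com c f hS.mf
  have hcx := h.com c x hx.1
  have hcy := h.com c y hy.1
  have h1 : x * y * p c = (p c * e) * (f * (x * y) * f) * (p c * e) := by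
    conv_lhs => rw [G1.xy hS hx hy]
    calc e * f * (x * y) * (f * e) * p c = e * (f * (x * y) * f) * (e * p c) := by
          simp only [mul_assoc]
      _ = e * (f * (x * y) * f) * (p c * (e * p c)) := by
          rw [← hce, ← mul_assoc (p c) (p c), h.bd.pp c]
      _ = e * ((f * (x * y) * f) * p c) * (e * p c) := by simp only [mul_assoc]
      _ = e * (p c * (f * (x * y) * f)) * (e * p c) := by
          rw [GouC_comm (GouC_comm hcf (GouC_comm hcx hcy)) hcf]
      _ = (p c * e) * (f * (x * y) * f) * (p c * e) := by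
          rw [hce]
          simp only [mul_assoc]
  have h2 : tr (p c * e * (f * (x * y) * f)) = bt p f c x y := by
    unfold bt
    have h3 : p c * e * (f * (x * y) * f) = (p c * (e * f * (x * y))) * f := by
      simp only [mul_assoc]
    rw [h3, tr_comm, ← mul_assoc, ← hcf]
    congr 1
    have h4 : f * (e * f * (x * y)) = f * x * y := by
      calc f * (e * f * (x * y)) = (f * e * f) * (x * y) := by simp only [mul_assoc]
        _ = f * x * y := by rw [hS.fef, mul_assoc]
    rw [mul_assoc, h4]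
  rw [h1, PairG_sand hc.1 hc.2, h2, hce]

end Pool.Agent.Lib.MP_640417_ag.Tg
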