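import Pool.Agent.Lib.MP_640417_ag.Tg.PairI

/-!
# Toric places, no factors of type III: linked blocks are isomorphic or dual
-/

namespace Pool.Agent.Lib.MP_640417_ag.Tg

open Module Pool.Agent.Lib.MP_640417_ag.Tor

variable {K V : Type} [Field K] [AddCommGroup V] [Module K V] {B : Type} [Fintype B]
  [DecidableEq B] {ψ : LinearMap.BilinForm K V} {p : B → Module.End K V} {st : B → B} {a b : B}
  {D : Submodule K (Module.End K V)}

/-- The form as a bilinear form on the elements of degree one, symmetrized. -/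
noncomputable def btB (p : B → Module.End K V) (D : Submodule K (Module.End K V))
    (e f : Module.End K V) (c : B) : LinearMap.BilinForm K (G1 D e f) :=
  LinearMap.mk₂ K (fun x y => bt p f c x.1 y.1 + bt p f c y.1 x.1)
    (by
      intro x y z
      unfold bt tr
      simp only [Submodule.coe_add, mul_add, add_mul, map_add]
      ring)
    (by
      intro s x y
      unfold bt tr
      simp only [Submodule.coe_smul, mul_smul_comm, smul_mul_assoc, map_smul, smul_eq_mul]
      ring)
    (by
      intro x y z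
      unfold bt tr
      simp only [Submodule.coe_add, mul_add, add_mul, map_add]
      ring)
    (by
      intro s x y
      unfold bt tr
      simp only [Submodule.coe_smul, mul_smul_comm, smul_mul_assoc, map_smul, smul_eq_mul]
      ring)

omit [Fintype B] [DecidableEq B] in
lemma btB_apply (e f : Module.End K V) (c : B) (x y : G1 D e f) :
    btB p D e f c x y = bt p f c x.1 y.1 + bt p f c y.1 x.1 := rfl

/-- The fourth power of `ad x`. -/
lemma ad_four [CharZero K] {g : Submodule K (Module.End K V)} (hl : Lie g) {e f x : Module.End K V}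
    (hS : Sl g e f) (hx : x ∈ G1 g e f) : (6 : K) • (x * x * f * x * x) ∈ g := by
  have h1 := hl x hx.1 _ (hl x hx.1 _ (hl x hx.1 _ (hl x hx.1 f hS.mf)))
  have h3 : x * x * x = 0 := G1.xyz hS hx hx hx
  have h2 : x * (x * (x * (x * f - f * x) - (x * f - f * x) * x) -
      (x * (x * f - f * x) - (x * f - f * x) * x) * x) -
      (x * (x * (x * f - f * x) - (x * f - f * x) * x) -
      (x * (x * f - f * x) - (x * f - f * x) * x) * x) * x =
      x * x * x * (x * f) - (4 : K) • (x * x * x * f * x) + (6 : K) • (x * x * f * x * x) -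
        (4 : K) • (x * f * (x * x * x)) + f * x * (x * x * x) := by
    have h4 : (4 : K) = 1 + 1 + 1 + 1 := by norm_num
    have h6 : (6 : K) = 1 + 1 + 1 + 1 + 1 + 1 := by norm_num
    rw [h4, h6]
    simp only [add_smul, one_smul]
    noncomm_ring
  rw [h2, h3] at h1
  simpa using h1

/-- The two forms have the same squares. -/
lemma Lk.sq [CharZero K] [FiniteDimensional K V] (h : Lk ψ p st a b D) {e f : Module.End K V}
    (hS : Sl D e f) (hP : Prm D e) (hr : ∀ c ∈ TT st a b, (p c * e) * (p c * e) = 0 ∧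
      rk (p c * e) = 1) {x : Module.End K V} (hx : x ∈ G1 D e f) :
    ∃ s : K, ∀ c ∈ TT st a b, bt p f c x x ^ 2 = s := by
  obtain ⟨s, hs⟩ := (pTop K V D h.lie e f hP hS).1 _ (ad_four h.lie hS hx)
  have h1 : (e * f) * ((6 : K) • (x * x * f * x * x)) * (f * e) =
      (6 : K) • (x * x * f * (x * x)) := by
    have h2 : (e * f) * (x * x) = x * x := by
      calc (e * f) * (x * x) = (e * f) * ((e * f) * (x * x) * (f * e)) := by
            rw [← G1.xy hS hx hx]
        _ = ((e * f) * (e * f)) * (x * x) * (f * e) := by simp only [mul_assoc]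
        _ = x * x := by rw [hS.pp, ← G1.xy hS hx hx]
    have h3 : (x * x) * (f * e) = x * x := by
      calc (x * x) * (f * e) = (e * f) * (x * x) * (f * e) * (f * e) := by
            rw [← G1.xy hS hx hx]
        _ = (e * f) * (x * x) * ((f * e) * (f * e)) := by simp only [mul_assoc]
        _ = x * x := by rw [hS.qq, ← G1.xy hS hx hx]
    calc (e * f) * ((6 : K) • (x * x * f * x * x)) * (f * e) =
        (6 : K) • (((e * f) * (x * x)) * f * ((x * x) * (f * e))) := by
          rw [mul_smul_comm, smul_mul_assoc]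
          simp only [mul_assoc]
      _ = _ := by rw [h2, h3]
  refine ⟨6⁻¹ * s, fun c hc => ?_⟩
  rw [h1] at hs
  have h2 := congrArg (fun z => z * p c) hs
  simp only [smul_mul_assoc] at h2
  have h3 : x * x * f * (x * x) * p c = (bt p f c x x ^ 2) • (e * p c) := by
    have h4 := h.xy hS (hr c hc) hx hx
    have hcf := h.com c f hS.mf
    calc x * x * f * (x * x) * p c = x * x * f * (x * x * p c) := by simp only [mul_assoc]
      _ = bt p f c x x • (x * x * f * (p c * e)) := by
          rw [h4, mul_smul_comm, h.com c e hS.me]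
      _ = bt p f c x x • (x * x * p c * (f * e)) := by
          congr 1
          calc x * x * f * (p c * e) = x * x * (f * p c) * e := by simp only [mul_assoc]
            _ = x * x * (p c * f) * e := by rw [hcf]
            _ = _ := by simp only [mul_assoc]
      _ = (bt p f c x x * bt p f c x x) • (e * p c * (f * e)) := by
          rw [h4, smul_mul_assoc, smul_smul]
      _ = _ := by
          have h5 : e * p c * (f * e) = e * p c := by
            calc e * p c * (f * e) = e * (p c * f) * e := by simp only [mul_assoc]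
              _ = e * f * (p c * e) := by rw [hcf]; simp only [mul_assoc]
              _ = e * f * e * p c := by rw [h.com c e hS.me]; simp only [mul_assoc]
              _ = _ := by rw [hS.efe]
          rw [h5, pow_two]
  rw [h3] at h2
  have h4 : e * p c ≠ 0 := by
    rw [← h.com c e hS.me]
    exact PairG_ne (hr c hc).2
  have h5 : (6 * bt p f c x x ^ 2 - s) • (e * p c) = 0 := by
    rw [sub_smul, ← h2, smul_smul, sub_self]
  have h6 := sub_eq_zero.mp ((smul_eq_zero.mp h5).resolve_right h4)
  rw [← h6, ← mul_assoc, inv_mul_cancel₀ (by norm_num), one_mul]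

/-- The alternating part does not depend on the block. -/
lemma Lk.om [CharZero K] [FiniteDimensional K V] (h : Lk ψ p st a b D) {e f : Module.End K V}
    (hS : Sl D e f) (hP : Prm D e) (hr : ∀ c ∈ TT st a b, (p c * e) * (p c * e) = 0 ∧
      rk (p c * e) = 1) {x y : Module.End K V} (hx : x ∈ G1 D e f) (hy : y ∈ G1 D e f) :
    ∃ s : K, ∀ c ∈ TT st a b, bt p f c x y - bt p f c y x = s := by
  obtain ⟨s, hs⟩ := (pTop K V D h.lie e f hP hS).2.2 x hx y hy
  refine ⟨s, fun c hc => ?_⟩
  have h2 := congrArg (fun z => z * p c) hs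
  simp only [smul_mul_assoc, sub_mul] at h2
  rw [h.xy hS (hr c hc) hx hy, h.xy hS (hr c hc) hy hx, ← sub_smul] at h2
  have h4 : e * p c ≠ 0 := by
    rw [← h.com c e hS.me]
    exact PairG_ne (hr c hc).2
  have h5 : (bt p f c x y - bt p f c y x - s) • (e * p c) = 0 := by
    rw [sub_smul, h2, sub_self]
  exact sub_eq_zero.mp ((smul_eq_zero.mp h5).resolve_right h4)

/-- The form of the dual block. -/
lemma Lk.dual [FiniteDimensional K V] (h : Lk ψ p st a b D) {e f : Module.End K V}
    (hS : Sl D e f) (c : B) {x y : Module.End K V} (hx : x ∈ G1 D e f) (hy : y ∈ G1 D e f) :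
    bt p f (st c) x y = - bt p f c y x := by
  unfold bt
  have h1 : tr (p (st c) * (f * x * y)) = tr (-(y * x * f * p c)) := by
    refine tr_adj ψ h.bd.nd fun u w => ?_
    rw [Module.End.mul_apply, h.bd.adj, h.bd.inv, Module.End.mul_apply, Module.End.mul_apply,
      h.sk f hS.mf, h.sk x hx.1, h.sk y hy.1]
    simp only [LinearMap.neg_apply, Module.End.mul_apply, map_neg, neg_neg]
  rw [h1]
  have h2 : tr (-(y * x * f * p c)) = - tr (y * x * f * p c) := by
    unfold tr
    rw [map_neg]
  rw [h2, mul_assoc, tr_comm, ← h.com c f hS.mf, mul_assoc (p c) f, mul_assoc f y x]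

/-- Irreducibility of the blocks. -/
lemma Lk.irr [IsAlgClosed K] [CharZero K] [FiniteDimensional K V] (hIrrB : SIrrB)
    (h : Lk ψ p st a b D) {c : B} (hc : c ∈ TT st a b) : Irr D (LinearMap.range (p c)) := by
  obtain ⟨h1, -⟩ := hIrrB K V ψ (p c) _ (h.bd.blk (h.rk2 c hc))
  intro W' hW' hst
  refine h1 W' hW' fun Y hY y hy => ?_
  obtain ⟨X, hX, rfl⟩ := h.lft c hc Y hY
  obtain ⟨z, hz⟩ := hW' hy
  have h2 : (p c * X) y = X y := by
    rw [h.com c X hX, Module.End.mul_apply]
    congr 1
    rw [← hz, ← Module.End.mul_apply, h.bd.pp]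
  rw [h2]
  exact hst X hX y hy

/-- Two linked blocks are isomorphic or dual. -/
lemma Lk.main [IsAlgClosed K] [CharZero K] [FiniteDimensional K V] (hExt : SExt)
    (hPartner : SPartner) (hSimp : SSimp) (hIrrB : SIrrB) (hQuad : SQuad) (hLinkA : SLinkA)
    (h : Lk ψ p st a b D) (hab : a ≠ b) (hasb : a ≠ st b) :
    ∃ q, (q = b ∨ q = st b) ∧ ∃ c : Module.End K V, p q * c * p a = c ∧ c ≠ 0 ∧
      ∀ X ∈ D, c * X = X * c := by
  obtain ⟨e, f, hS, hP, -, hr⟩ := h.sl hExt hPartner
  have hgen := h.gen hSimp hS hP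
  have key : ∀ q ∈ TT st a b, a ≠ q →
      (∀ x ∈ G1 D e f, ∀ y ∈ G1 D e f, bt p f a x y = bt p f q x y) →
      ∃ c : Module.End K V, p q * c * p a = c ∧ c ≠ 0 ∧ ∀ X ∈ D, c * X = X * c := by
    intro q hq haq hβ
    refine hLinkA K V D h.lie (p a) (p q) (h.bd.pp a) (h.bd.pp q) (h.bd.orth a q haq)
      (h.bd.orth q a haq.symm) (h.com a) (h.com q) (h.irr hIrrB TT_a) (h.irr hIrrB hq) e f hS ?_ ?_
      (bt p f a) ?_ hgen
    · rw [← h.com a e hS.me]
      exact PairG_ne (hr a TT_a).2
    · rw [← h.com q e hS.me]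
      exact PairG_ne (hr q hq).2
    · intro x hx y hy
      refine ⟨h.xy hS (hr a TT_a) hx hy, ?_⟩
      rw [hβ x hx y hy]
      exact h.xy hS (hr q hq) hx hy
  have hsq : ∀ x : G1 D e f, (btB p D e f a x x) ^ 2 = (btB p D e f b x x) ^ 2 := by
    intro x
    obtain ⟨s, hs⟩ := h.sq hS hP hr x.2
    rw [btB_apply, btB_apply]
    have h1 := hs a TT_a
    have h2 := hs b TT_b
    linear_combination 4 * h1 - 4 * h2
  have h2 : (2 : K) ≠ 0 := two_ne_zero
  rcases hQuad K (G1 D e f) (btB p D e f a) (btB p D e f b)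
    (fun x y => by rw [btB_apply, btB_apply, add_comm])
    (fun x y => by rw [btB_apply, btB_apply, add_comm]) hsq with hB | hB
  · obtain ⟨c, hc⟩ := key b TT_b hab (by
      intro x hx y hy
      obtain ⟨s, hs⟩ := h.om hS hP hr hx hy
      have h3 := hB ⟨x, hx⟩ ⟨y, hy⟩
      rw [btB_apply, btB_apply] at h3
      have h4 := hs a TT_a
      have h5 := hs b TT_b
      have h6 : (2 : K) * (bt p f a x y - bt p f b x y) = 0 := by
        linear_combination h3 + h4 - h5
      exact sub_eq_zero.mp ((mul_eq_zero.mp h6).resolve_left h2))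
    exact ⟨b, Or.inl rfl, c, hc⟩
  · obtain ⟨c, hc⟩ := key (st b) TT_sb hasb (by
      intro x hx y hy
      obtain ⟨s, hs⟩ := h.om hS hP hr hx hy
      have h3 := hB ⟨x, hx⟩ ⟨y, hy⟩
      rw [btB_apply, btB_apply] at h3
      have h4 := hs a TT_a
      have h5 := hs b TT_b
      rw [h.dual hS b hx hy]
      have h6 : (2 : K) * (bt p f a x y - -bt p f b y x) = 0 := by
        linear_combination h3 + h4 - h5
      exact sub_eq_zero.mp ((mul_eq_zero.mp h6).resolve_left h2))
    exact ⟨st b, Or.inr rfl, c, hc⟩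

end Pool.Agent.Lib.MP_640417_ag.Tg
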