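import Pool.Agent.Lib.MP_640417_ag.Tg.MainC

/-!
# Toric places decide: without factors of type III and IV there are no conditions
-/

set_option autoImplicit false

namespace Pool.Agent.Lib.MP_640417_ag.Tg

open Module TensorProduct Pool.Agent.Lib.MP_640417_ag Pool.Agent.Lib.MP_640417_ag.Tor
  Pool.Agent.Lib.MP_640417_ag.Lef Pool.Agent.Lib.MP_640417_ag.Frob
  Pool.Agent.Lib.MP_640417_ag.Glob Pool.Agent.Lib.MP_640417_ag.Ty
  Pool.Agent.Lib.MP_640417_ag.Ctl Pool.Agent.Lib.MP_640417_ag.Gen4
  Pool.Agent.Lib.MP_640417_ag.Dfr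

open Pool.Agent.Lib.MP_640417_ag.Four (Semisimple NoExotic Dv sum_cp cp cp_mul_baseChange
  cp_baseChange_mul)

/-- Polynomials in a self-adjoint operator are self-adjoint. -/
theorem RealA_aeval {F V : Type} [Field F] [AddCommGroup V] [Module F V]
    (B : LinearMap.BilinForm F V) {s : Module.End F V} (h : ∀ x y, B (s x) y = B x (s y))
    (Q : Polynomial F) (x y : V) : B (Polynomial.aeval s Q x) y = B x (Polynomial.aeval s Q y) := by
  have hpow : ∀ (n : ℕ) x y, B ((s ^ n) x) y = B x ((s ^ n) y) := by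
    intro n
    induction n with
    | zero => intro x y; simp
    | succ n ih =>
      intro x y
      rw [pow_succ, Module.End.mul_apply, Module.End.mul_apply, ih, h, ← Module.End.mul_apply s,
        ← pow_succ', pow_succ, Module.End.mul_apply]
  rw [Polynomial.aeval_eq_sum_range, LinearMap.sum_apply, LinearMap.sum_apply, map_sum,
    map_sum, LinearMap.sum_apply]
  refine Finset.sum_congr rfl fun n _ => ?_
  rw [LinearMap.smul_apply, LinearMap.smul_apply, map_smul, map_smul, LinearMap.smul_apply, hpow]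

/-- Base change of self-adjointness. -/
theorem RealA_base {F K V : Type} [Field F] [Field K] [Algebra F K] [AddCommGroup V]
    [Module F V] (B : LinearMap.BilinForm F V) {s : Module.End F V}
    (h : ∀ x y, B (s x) y = B x (s y)) (x y : K ⊗[F] V) :
    B.baseChange K (s.baseChange K x) y = B.baseChange K x (s.baseChange K y) := by
  induction x using TensorProduct.induction_on with
  | zero => simp
  | add x₁ x₂ h₁ h₂ => simp only [map_add, LinearMap.add_apply, h₁, h₂]
  | tmul a v =>
    induction y using TensorProduct.induction_on with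
    | zero => simp
    | add y₁ y₂ h₁ h₂ => simp only [map_add, h₁, h₂]
    | tmul b w =>
      rw [LinearMap.baseChange_tmul, LinearMap.baseChange_tmul,
        LinearMap.BilinForm.baseChange_tmul, LinearMap.BilinForm.baseChange_tmul, h]

section

variable {Γ : Type} [Group Γ] [TopologicalSpace Γ] {F : Type} [Field F] [TopologicalSpace F]
  {V : Type} [AddCommGroup V] [Module F V] [FiniteDimensional F V] {ρ : H1Rep Γ F V}

omit [FiniteDimensional F V] in
theorem noTypeIII_of_real (h : RealType ρ) : NoTypeIII ρ := by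
  obtain ⟨s, h1, h2, h3, h4⟩ := h
  exact ⟨s, s, h1, h2, Algebra.subset_adjoin rfl, h3, h4, fun c _ hc => hc⟩

/-- Central elements of the commutant over `K` are self-adjoint. -/
theorem RealA_self {s : Module.End F V} (h1 : ∀ x y, ρ.form (s x) y = ρ.form x (s y))
    (h2 : ∀ c : Module.End F V, CommF ρ c → c * s = s * c → c ∈ Algebra.adjoin F {s}) {K : Type}
    [Field K] [Algebra F K] {z : Module.End K (K ⊗[F] V)} {U : OpenSubgroup Γ}
    (hz : ∀ γ ∈ U, z * (ρ.T γ).baseChange K = (ρ.T γ).baseChange K * z)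
    (hzs : z * s.baseChange K = s.baseChange K * z) (x y : K ⊗[F] V) :
    ρ.form.baseChange K (z x) y = ρ.form.baseChange K x (z y) := by
  classical
  let b := Module.Free.chooseBasis F K
  obtain ⟨τ, hτ⟩ := sum_cp b z
  rw [hτ, LinearMap.sum_apply, LinearMap.sum_apply, map_sum, map_sum, LinearMap.sum_apply]
  refine Finset.sum_congr rfl fun t _ => ?_
  rw [LinearMap.smul_apply, LinearMap.smul_apply, map_smul, map_smul, LinearMap.smul_apply]
  congr 1
  refine RealA_base ρ.form ?_ x y
  have h3 : cp (b.coord t) z ∈ Algebra.adjoin F {s} := by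
    refine h2 _ ⟨U, fun γ hγ => ?_⟩ ?_
    · rw [← cp_mul_baseChange, ← cp_baseChange_mul, hz γ hγ]
    · rw [← cp_mul_baseChange, ← cp_baseChange_mul, hzs]
  rw [Algebra.adjoin_singleton_eq_range_aeval] at h3
  obtain ⟨Q, hQ⟩ := h3
  intro u v
  have hQ' : Polynomial.aeval s Q = cp (b.coord t) z := hQ
  rw [← hQ']
  exact RealA_aeval ρ.form h1 Q u v

end

section

variable {Γ : Type} [Group Γ] [TopologicalSpace Γ] {F : Type} [Field F] [CharZero F]
  [TopologicalSpace F] {V : Type} [AddCommGroup V] [Module F V] [FiniteDimensional F V]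
  {ρ : H1Rep Γ F V}

/-- Real type: there is no Weil relation. -/
theorem not_weilRel_of_real (h : RealType ρ) : ¬ WeilRel ρ := by
  rintro ⟨k, p, s, hp, hne, -⟩
  obtain ⟨σ, h1, h2, h3, h4⟩ := h
  apply hne
  have hC : ∀ j, ∀ c ∈ comK ρ, c * p j = p j * c := hp.cen
  obtain ⟨z, hz⟩ : ∃ z, z = ∑ j, (s j : AlgebraicClosure F) • p j := ⟨_, rfl⟩
  rw [← hz]
  have hzC : z ∈ comK ρ := by
    rw [hz]
    exact Subalgebra.sum_mem _ fun j _ => Subalgebra.smul_mem _ (hp.mem j) _
  have hzs : z * σ.baseChange (AlgebraicClosure F) = σ.baseChange (AlgebraicClosure F) * z := by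
    rw [hz, Finset.sum_mul, Finset.mul_sum]
    refine Finset.sum_congr rfl fun j _ => ?_
    have hσ : σ.baseChange (AlgebraicClosure F) ∈ comK ρ := by
      obtain ⟨U, hU⟩ := h1
      refine ⟨U, fun γ hγ => ?_⟩
      rw [← LinearMap.baseChange_mul, hU γ hγ, LinearMap.baseChange_mul]
    rw [smul_mul_assoc, mul_smul_comm, hC j _ hσ]
  obtain ⟨U, hU⟩ := hzC
  have hself := RealA_self h2 h4 hU hzs
  have hskew : ∀ x y, ρ.form.baseChange (AlgebraicClosure F) (z x) y +
      ρ.form.baseChange (AlgebraicClosure F) x (z y) = 0 := by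
    rw [hz]
    exact hp.skew
  have hchar : CharZero (AlgebraicClosure F) :=
    charZero_of_injective_algebraMap (algebraMap F (AlgebraicClosure F)).injective
  refine LinearMap.ext fun x => ?_
  rw [LinearMap.zero_apply]
  refine nondeg_baseChange _ ρ.form ρ.form_alt ρ.form_nondeg _ fun y => ?_
  have h5 := hskew x y
  rw [← hself x y, ← two_mul] at h5
  exact (mul_eq_zero.mp h5).resolve_left two_ne_zero

end

section

variable (l : ℕ) [Fact l.Prime] {Γ : Type} [Group Γ]
    [TopologicalSpace Γ] [IsTopologicalGroup Γ] [CompactSpace Γ] {V : Type} [AddCommGroup V]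
    [Module ℚ_[l] V] [FiniteDimensional ℚ_[l] V] (ρ : H1Rep Γ ℚ_[l] V)

/-- Real type: all constituents are self-dual. -/
theorem dualMod_of_real (hss : Semisimple ρ) (hr : RealType ρ) (K : Type) [Field K]
    [Algebra ℚ_[l] K] [IsAlgClosed K] (W : Submodule K (K ⊗[ℚ_[l]] V))
    (hW : IrrMod (LieK l ρ K) W) : DualMod (ρ.form.baseChange K) (LieK l ρ K) W W := by
  classical
  obtain ⟨U, hU⟩ := exists_U0 ρ
  have hCK : CharZero K := charZero_of_injective_algebraMap (algebraMap ℚ_[l] K).injective
  have hC := pCcL l Γ V ρ hss U hU K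
  obtain ⟨s, hs, hadj, hsq, hs2⟩ := hr
  have hres : ∀ c, CommF ρ c → ∀ γ : U, c * (res ρ U).T γ = (res ρ U).T γ * c :=
    fun c hc γ => (hU γ).1 γ.2 c hc
  have hres' : ∀ c, (∀ γ : U, c * (res ρ U).T γ = (res ρ U).T γ * c) → CommF ρ c :=
    fun c hc => ⟨U, fun γ hγ => hc ⟨γ, hγ⟩⟩
  obtain ⟨N, st, ε, hS⟩ := exists_sys K (res ρ U).T ρ.form ρ.form_alt ρ.form_nondeg s s
    (hres s hs) hadj (Algebra.subset_adjoin rfl) hsq (fun c hc => hs2 c (hres' c hc))
    (fun c _ h => h)
  have hreg := reg_L K (res ρ U).T (semi_res ρ U hss)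
  have hadjC := adjC_L K (res ρ U).T ρ.form ρ.form_alt ρ.form_nondeg
    (fun γ => ((res ρ U).χ γ)⁻¹) (fun γ => (res ρ U).form_equivariant γ)
  obtain ⟨r, u, v, hUV⟩ := exists_uv hC.alt hC.nd hS hreg hadjC
  obtain ⟨a, hra, w, hw, d, hd, hwd, haw, hda, hdW, hdw⟩ :=
    pRedW pIrrE K _ _ _ _ hC N st ε hS r u v hUV W hW
  -- the central idempotent of `a` is self-adjoint
  have hsC : s.baseChange K ∈ cenK K (res ρ U).T := NtK_mem ρ U hU hs
  have hmem := eC_mem (r := r) hS a
  have hP : ∀ x y, ρ.form.baseChange K (eC ε r a x) y = ρ.form.baseChange K x (eC ε r a y) := by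
    refine RealA_self hadj hs2 (U := U) ?_ (eC_cen hS hUV a hsC).symm
    intro γ hγ
    rw [cenK, Subalgebra.mem_centralizer_iff] at hmem
    exact (hmem _ ⟨⟨γ, hγ⟩, rfl⟩).symm
  have hst : st a = a := by
    by_contra hne
    have h1 : eC ε r a = eC ε r (st a) := by
      refine LinearMap.ext fun x => ?_
      rw [← sub_eq_zero]
      apply hC.nd
      intro y
      rw [map_sub, LinearMap.sub_apply, hP, eC_adj hS hUV (st a), hS.inv, sub_self]
    have h2 : eC ε r a = 0 := by
      have h3 := eC_idem (r := r) hS a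
      conv_lhs at h3 => rw [h1]
      rw [← h1] at h3
      have h4 := eC_orth (r := r) hS (Ne.symm hne)
      rw [← h1] at h4
      rw [← h3, h4]
    have h3 : ε a * eC ε r a = ε a := by
      unfold eC
      rw [Finset.mul_sum, Finset.sum_eq_single a]
      · exact hS.idem a
      · intro j _ hj
        exact hS.orth a j hj.symm
      · intro h
        simp [hra] at h
    rw [h2, mul_zero] at h3
    exact hS.ne a h3.symm
  have hadja : ∀ x y, ρ.form.baseChange K (ε a x) y = ρ.form.baseChange K x (ε a y) := by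
    intro x y
    rw [hS.adj, hst]
  exact NtA_dual hC (hS.idem a) (hS.ne a) hadja hw hw hwd hwd hdW hdW

/-- **Toric places decide; without factors of type IV there are no conditions.** -/
theorem noExotic_of_toric_real (hss : Semisimple ρ) (hr : RealType ρ) (K : Type) [Field K]
    [Algebra ℚ_[l] K] [IsAlgClosed K] (hT : ToricAll l ρ K) : NoExotic ρ := by
  refine (noExotic_iff_of_toric l ρ hss (noTypeIII_of_real hr) K hT).mpr
    ⟨fun W W' hW _ hnd => ?_, not_weilRel_of_real hr⟩
  exact absurd (dualMod_of_real l ρ hss hr K W hW) hnd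

end

end Pool.Agent.Lib.MP_640417_ag.Tg
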