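import Pool.Agent.Lib.MP_640417_ag.Tg.RotB

/-!
# Elements of small rank: isometries of rank two
-/

set_option autoImplicit false

namespace Pool.Agent.Lib.MP_640417_ag.Tg

open Module Pool.Agent.Lib.MP_640417_ag Pool.Agent.Lib.MP_640417_ag.Tor

namespace RotTwoA

variable {K U : Type} [Field K] [AddCommGroup U] [Module K U] [FiniteDimensional K U]
  {β : LinearMap.BilinForm K U}

/-- a plane is spanned by two vectors which are not orthogonal -/
lemma plane (alt : ∀ x, β x x = 0) {P : Submodule K U} (hP : finrank K P = 2) {u v : U}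
    (hu : u ∈ P) (hv : v ∈ P) (h : β u v ≠ 0) : ∀ x ∈ P, ∃ c d : K, x = c • u + d • v := by
  have hli : LinearIndependent K ![u, v] := by
    rw [LinearIndependent.pair_iff]
    intro s t hst
    have h1 := congrArg (β u) hst
    have h2 := congrArg (fun w => β w v) hst
    simp only [map_add, map_smul, alt, mul_zero, zero_add, add_zero, map_zero, smul_eq_mul,
      LinearMap.add_apply, LinearMap.smul_apply, LinearMap.zero_apply] at h1 h2
    exact ⟨(mul_eq_zero.1 h2).resolve_right h, (mul_eq_zero.1 h1).resolve_right h⟩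
  have h1 : Submodule.span K (Set.range ![u, v]) ≤ P := by
    refine Submodule.span_le.2 ?_
    rintro _ ⟨i, rfl⟩
    fin_cases i
    · exact hu
    · exact hv
  have h2 : finrank K (Submodule.span K (Set.range ![u, v])) = 2 := by
    rw [finrank_span_eq_card hli, Fintype.card_fin]
  have h3 := Submodule.eq_of_le_of_finrank_eq h1 (h2.trans hP.symm)
  intro x hx
  rw [← h3] at hx
  have h4 : Set.range ![u, v] ⊆ {u, v} := by
    rintro _ ⟨i, rfl⟩
    fin_cases i
    · exact Or.inl rfl
    · exact Or.inr rfl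
  have hx := Submodule.span_mono h4 hx
  obtain ⟨c, d, h5⟩ := Submodule.mem_span_pair.1 hx
  exact ⟨c, d, h5.symm⟩

end RotTwoA

open RotBA RotTwoA in
theorem pRotTwo (hU : SUni) (hA : SRotA) (hB : SRotB) : SRotTwo := by
  intro K U _ _ _ _ _ _ β g S Θ Θ' nrm iso hrk hsq hdim
  classical
  have alt := S.alt
  have hne : Θ ≠ 1 := by
    rintro rfl
    exact hsq (one_mul 1)
  -- the form on the range of `Θ - 1`
  have hN : ∀ x, (Θ - 1) x = Θ x - x := fun x => rfl
  have key : ∀ x y, β ((Θ - 1) y) x = - β (Θ y) ((Θ - 1) x) := by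
    intro x y
    have h1 := iso y x
    rw [hN, hN, map_sub, map_sub, LinearMap.sub_apply, h1]
    ring
  have hker : ∀ x, (∀ y, β ((Θ - 1) y) x = 0) → Θ x = x := by
    intro x hx
    have h1 : (Θ - 1) x = 0 := by
      refine S.nd _ fun y => ?_
      have h2 := key x (Θ' y)
      have h3 : Θ (Θ' y) = y := LinearMap.congr_fun nrm.r y
      rw [hx, h3] at h2
      rw [anti alt]
      exact h2.symm
    rw [hN, sub_eq_zero] at h1
    exact h1
  by_cases hcase : ∀ x y, β ((Θ - 1) x) ((Θ - 1) y) = 0
  · exact hU K U β g S Θ Θ' nrm iso hne hrk.le hcase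
  push Not at hcase
  obtain ⟨x₀, y₀, hxy⟩ := hcase
  let P := LinearMap.range (Θ - 1)
  have hP2 : finrank K P = 2 := hrk
  have hxP : (Θ - 1) x₀ ∈ P := ⟨x₀, rfl⟩
  have hyP : (Θ - 1) y₀ ∈ P := ⟨y₀, rfl⟩
  have hpl := plane alt hP2 hxP hyP hxy
  have hΘP : ∀ x ∈ P, Θ x ∈ P := by
    rintro _ ⟨x, rfl⟩
    refine ⟨Θ x, ?_⟩
    rw [hN, hN, map_sub]
  -- an eigenvector
  have hnt : Nontrivial P := by
    apply Module.nontrivial_of_finrank_pos (R := K)
    rw [hP2]
    norm_num
  obtain ⟨a, ha⟩ := Module.End.exists_eigenvalue (LinearMap.restrict Θ hΘP)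
  obtain ⟨p', hp'⟩ := ha.exists_hasEigenvector
  obtain ⟨p, hpP, hp0, hp⟩ : ∃ p : U, p ∈ P ∧ p ≠ 0 ∧ Θ p = a • p := by
    refine ⟨p', p'.2, fun h => hp'.2 (Subtype.ext h), ?_⟩
    have h1 := congrArg Subtype.val hp'.apply_eq_smul
    exact h1
  obtain ⟨q, hqP, hpq⟩ : ∃ q ∈ P, β p q = 1 := by
    obtain ⟨r, hr, hpr⟩ : ∃ r ∈ P, β p r ≠ 0 := by
      by_contra hcon
      push Not at hcon
      obtain ⟨c, d, hcd⟩ := hpl p hpP
      have h1 := hcon _ hxP
      have h2 := hcon _ hyP
      rw [hcd, map_add, map_smul, map_smul, LinearMap.add_apply, LinearMap.smul_apply,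
        LinearMap.smul_apply, alt, smul_zero, zero_add, smul_eq_mul] at h1
      rw [hcd, map_add, map_smul, map_smul, LinearMap.add_apply, LinearMap.smul_apply,
        LinearMap.smul_apply, alt, smul_zero, add_zero, smul_eq_mul] at h2
      have h3 : β ((Θ - 1) y₀) ((Θ - 1) x₀) ≠ 0 := by
        rw [anti alt]
        exact neg_ne_zero.2 hxy
      have h4 := (mul_eq_zero.1 h1).resolve_right h3
      have h5 := (mul_eq_zero.1 h2).resolve_right hxy
      rw [h4, h5, zero_smul, zero_smul, add_zero] at hcd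
      exact hp0 hcd
    refine ⟨(β p r)⁻¹ • r, Submodule.smul_mem _ _ hr, ?_⟩
    rw [map_smul, smul_eq_mul, inv_mul_cancel₀ hpr]
  have hpl2 := plane alt hP2 hpP hqP (by rw [hpq]; exact one_ne_zero)
  have hfix : ∀ x, β p x = 0 → β q x = 0 → Θ x = x := by
    intro x h1 h2
    refine hker x fun y => ?_
    obtain ⟨c, d, hcd⟩ := hpl2 _ (⟨y, rfl⟩ : (Θ - 1) y ∈ P)
    rw [hcd, map_add, map_smul, map_smul, LinearMap.add_apply, LinearMap.smul_apply,
      LinearMap.smul_apply, h1, h2, smul_zero, smul_zero, add_zero]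
  have ha1 : a ≠ 1 := by
    rintro rfl
    rw [one_smul] at hp
    obtain ⟨w, hw⟩ := hqP
    have h1 := key p w
    rw [hN p, hp, sub_self, map_zero, neg_zero, hw, anti alt, hpq] at h1
    exact (neg_ne_zero.2 one_ne_zero) h1
  obtain ⟨t, b, htb⟩ := hpl2 _ (hΘP q hqP)
  have hab : a * b = 1 := by
    have h1 := iso p q
    rw [hp, htb, map_smul, LinearMap.smul_apply, map_add, map_smul, map_smul, alt, hpq, smul_zero,
      zero_add, smul_eq_mul, smul_eq_mul, mul_one] at h1
    exact h1
  have ha0 : a ≠ 0 := left_ne_zero_of_mul_eq_one hab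
  have hb : b = a⁻¹ := (eq_inv_of_mul_eq_one_right hab)
  by_cases ha2 : a * a = 1
  · -- `a = -1`
    have ham : a = -1 := by
      rcases mul_self_eq_one_iff.1 ha2 with h | h
      · exact absurd h ha1
      · exact h
    have hbm : b = -1 := by rw [hb, ham, inv_neg, inv_one]
    have hsqx : ∀ x, (Θ * Θ - 1) x = (β p x * (-2 * t)) • p := by
      intro x
      have h1 : β p (x + β q x • p - β p x • q) = 0 := by
        rw [map_sub, map_add, map_smul, map_smul, alt, hpq, smul_eq_mul, smul_eq_mul]
        ring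
      have h2 : β q (x + β q x • p - β p x • q) = 0 := by
        rw [map_sub, map_add, map_smul, map_smul, alt, anti alt q p, hpq, smul_eq_mul,
          smul_eq_mul]
        ring
      have h3 := hfix _ h1 h2
      have h4 : Θ x = x + β q x • p - β p x • q - β q x • a • p + β p x • (t • p + b • q) := by
        rw [map_sub, map_add, map_smul, map_smul, hp, htb] at h3
        rw [← h3]
        abel
      have h5 : (Θ * Θ - 1) x = Θ (Θ x) - x := rfl
      rw [h5, h4]
      simp only [map_add, map_sub, map_smul, hp, htb]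
      rw [h4, ham, hbm]
      module
    have nrm2 : Nrm g (Θ * Θ) (Θ' * Θ') := by
      refine ⟨?_, ?_, fun X hX => ?_, fun X hX => ?_⟩
      · rw [mul_assoc, ← mul_assoc Θ Θ', nrm.r, one_mul, nrm.r]
      · rw [mul_assoc, ← mul_assoc Θ' Θ, nrm.l, one_mul, nrm.l]
      · have h1 := nrm.n _ (nrm.n X hX)
        simpa only [mul_assoc] using h1
      · have h1 := nrm.n' _ (nrm.n' X hX)
        simpa only [mul_assoc] using h1
    refine hU K U β g S (Θ * Θ) (Θ' * Θ') nrm2 (fun x y => ?_) hsq ?_ fun x y => ?_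
    · rw [Module.End.mul_apply, Module.End.mul_apply, iso, iso]
    · have h1 : LinearMap.range (Θ * Θ - 1) ≤ Submodule.span K ((({p} : Finset U)) : Set U) := by
        rintro _ ⟨x, rfl⟩
        rw [hsqx x]
        exact Submodule.smul_mem _ _ (Submodule.subset_span (by simp))
      have h2 := (Submodule.finrank_mono h1).trans (finrank_span_finset_le_card _)
      rw [Finset.card_singleton] at h2
      exact h2.trans (by norm_num)
    · rw [hsqx x, hsqx y, map_smul, map_smul, LinearMap.smul_apply, alt, smul_zero, smul_zero]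
  · -- a semisimple isometry
    have hia : a⁻¹ - a ≠ 0 := by
      intro h
      apply ha2
      have h1 : a * (a⁻¹ - a) = 0 := by rw [h, mul_zero]
      rw [mul_sub, mul_inv_cancel₀ ha0, sub_eq_zero] at h1
      exact h1.symm
    obtain ⟨s, hs⟩ : ∃ s : K, s * (a⁻¹ - a) = t := ⟨t / (a⁻¹ - a), div_mul_cancel₀ _ hia⟩
    obtain ⟨q', hq'⟩ : ∃ q', q' = q + s • p := ⟨_, rfl⟩
    have R : Rot β Θ Θ' p q' a := by
      refine ⟨iso, ?_, ha0, ha2, hp, ?_, fun x h1 h2 => hfix x h1 ?_⟩
      · rw [hq', map_add, map_smul, alt, smul_zero, add_zero, hpq]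
      · rw [hq', map_add, map_smul, htb, hp, hb, smul_add, ← hs]
        module
      · rw [hq', map_add, map_smul, LinearMap.add_apply, LinearMap.smul_apply, h1, smul_zero,
          add_zero] at h2
        exact h2
    by_cases ha3 : a * a * a = 1
    · exact hB K U β g S Θ Θ' nrm p q' a R ha3 hdim
    by_cases h1 : ∃ X ∈ g, ∀ s t : K, X q' ≠ s • p + t • q'
    · exact hA K U β g S Θ Θ' nrm p q' a R ha3 h1
    by_cases h2 : ∃ X ∈ g, ∀ s t : K, X p ≠ s • p + t • q'
    · obtain ⟨X, hX, h3⟩ := h2
      refine hA K U β g S Θ Θ' nrm q' (-p) a⁻¹ (sym alt R) ?_ ⟨X, hX, fun s t h4 => ?_⟩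
      · intro h5
        apply ha3
        have h6 := congrArg (fun t => t⁻¹) h5
        simp only [mul_inv, inv_inv, inv_one] at h6
        exact h6
      · apply h3 t (-s)
        rw [map_neg] at h4
        rw [← neg_neg (X p), h4]
        module
    push Not at h1 h2
    exfalso
    let F : Finset U := {p, q'}
    let W : Submodule K U := Submodule.span K (F : Set U)
    have hpW : p ∈ W := Submodule.subset_span (by simp [F])
    have hqW : q' ∈ W := Submodule.subset_span (by simp [F])
    rcases S.irr W le_top (by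
      intro X hX y hy
      have h3 : W ≤ W.comap X := by
        refine Submodule.span_le.2 fun y hy => ?_
        have hy' : y = p ∨ y = q' := by simpa [F] using hy
        rcases hy' with rfl | rfl
        · obtain ⟨s, t, h4⟩ := h2 X hX
          change X y ∈ W
          rw [h4]
          exact add_mem (Submodule.smul_mem _ _ hpW) (Submodule.smul_mem _ _ hqW)
        · obtain ⟨s, t, h4⟩ := h1 X hX
          change X y ∈ W
          rw [h4]
          exact add_mem (Submodule.smul_mem _ _ hpW) (Submodule.smul_mem _ _ hqW)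
      exact h3 hy) with h | h
    · rw [h] at hpW
      exact hp0 ((Submodule.mem_bot K).1 hpW)
    · have h3 : finrank K W ≤ 2 := (finrank_span_finset_le_card F).trans Finset.card_le_two
      rw [h, finrank_top] at h3
      omega

end Pool.Agent.Lib.MP_640417_ag.Tg
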