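import Pool.Agent.Lib.MP_640417_ag.Tg.SpecA
import Pool.Agent.Lib.MP_640417_ag.Tg.DefsR
import Pool.Agent.Lib.MP_640417_ag.Lef.Defs
import Pool.Agent.Lib.MP_640417_ag.Ctl.Plus
import Pool.Agent.Lib.MP_640417_ag.Ctl.Defs

/-!
# Toric places, no factors of type III: statements of the modules (representations), with proofs

Every statement is a proposition `SName`; the module `Tg/Name.lean` proves `pName : SName`, or, if the
docstring names other statements, `pName` takes these as hypotheses. `tr`, `rk`, `Skew`: `Tor/Defs.lean`; `Toric`, `IrrMod`: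
`Tor/DefsL.lean`; `skp`: `Tor/SpecL.lean`; `Sys`, `UV`, `cenK`: `Lef/Defs.lean`. `Skew` is `Tor.Skew` (there is also a
`Four.Skew`, so do not open the namespace `Four` completely).
-/

set_option autoImplicit false

namespace Pool.Agent.Lib.MP_640417_ag.Tg

open Module TensorProduct Pool.Agent.Lib.MP_640417_ag Pool.Agent.Lib.MP_640417_ag.Tor
  Pool.Agent.Lib.MP_640417_ag.Lef Pool.Agent.Lib.MP_640417_ag.Frob
  Pool.Agent.Lib.MP_640417_ag.Glob Pool.Agent.Lib.MP_640417_ag.Ty
  Pool.Agent.Lib.MP_640417_ag.Ctl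

open Pool.Agent.Lib.MP_640417_ag.Four (Semisimple)

/-- `L` is a Lie algebra of similitudes of the symplectic space `V`, `C` is its centralizer, and the `L`-stable
subspaces are ranges of projections in `C`. -/
structure Cc {K V : Type} [Field K] [AddCommGroup V] [Module K V] (ψ : LinearMap.BilinForm K V)
    (L : Submodule K (Module.End K V)) (C : Subalgebra K (Module.End K V)) : Prop where
  alt : ∀ x, ψ x x = 0
  anti : ∀ x y, ψ x y = - ψ y x
  nd : ∀ x, (∀ y, ψ x y = 0) → x = 0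
  lie : Lie L
  mult : ∀ X ∈ L, ∃ c : K, ∀ x y, ψ (X x) y + ψ x (X y) = c * ψ x y
  com : ∀ X ∈ L, ∀ c ∈ C, c * X = X * c
  bic : ∀ c : Module.End K V, (∀ X ∈ L, c * X = X * c) → c ∈ C
  proj : ∀ N : Submodule K V, (∀ X ∈ L, ∀ y ∈ N, X y ∈ N) →
    ∃ q ∈ C, (∀ y, q y ∈ N) ∧ ∀ y ∈ N, q y = y

/-- The conditions of `ToricAll` for a Lie algebra. -/
def ToricG {K V : Type} [Field K] [AddCommGroup V] [Module K V] (ψ : LinearMap.BilinForm K V)
    (L : Submodule K (Module.End K V)) : Prop :=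
  ∀ W : Submodule K V, IrrMod L W → finrank K W = 1 ∨ ∃ N ∈ L, N * N = 0 ∧ Skew ψ N ∧
    (finrank K (W.map N) = 1 ∨ (DualMod ψ L W W ∧ Toric L W N))

/-- **The range of a minimal idempotent is irreducible.**
Proof. Not zero by `ne`. Stable: `ε j` commutes with `L` (`com`). Let `W' ≤ range (ε j)` be stable, `q ∈ C` a projection onto
`W'` (`proj`). `ε j q ε j = t ε j` (`one`). If `0 ≠ y ∈ W'` then `ε j y = y`, `q y = y`, so `t y = y`, `t = 1`. For `y` in the range of `ε j`:
`q y ∈ W'`, so `q y = ε j (q y) = ε j q ε j y = y`, and `y ∈ W'`. -/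
def SIrrE : Prop :=
  ∀ (K V : Type) [Field K] [AddCommGroup V] [Module K V] (ψ : LinearMap.BilinForm K V)
    (L : Submodule K (Module.End K V)) (C : Subalgebra K (Module.End K V)) (_ : Cc ψ L C) (N : ℕ)
    (st : Fin N → Fin N) (ε : Fin N → Module.End K V) (_ : Sys ψ C N st ε) (j : Fin N),
    IrrMod L (LinearMap.range (ε j))

/-- **Dual blocks.**
Proof. Let `β` be the pairing. By nondegeneracy of `ψ` (`Adj_equiv` in `Tor/Adj.lean`) there is `c` with `ψ (c x) y = β (ε j x) (ε k y)`. For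
`X ∈ L` with multiplier `m` (`ε j`, `ε k` commute with `X`): `ψ (c X x) y = β (X ε j x) (ε k y) = m β (ε j x) (ε k y) - β (ε j x) (X ε k y) =
m ψ (c x) y - ψ (c x) (X y) = ψ (X c x) y`. So `c ∈ C` (`bic`). `ψ (ε (st k) c x) y = ψ (c x) (ε k y) = ψ (c x) y` (`adj`, `inv`, `idem`; the
adjoint formula holds in both directions), so `ε (st k) c ε j = c ≠ 0`. By `UV.one`: `c = t u_(st k) v_j`, and
`u_(st k) v_j = u_(st k) ε (r (st k)) ε (r j) v_j` vanishes unless `r (st k) = r j`. For `j = k`: `Sys.far` gives `st j = j`. -/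
def SDualE : Prop :=
  ∀ (K V : Type) [Field K] [AddCommGroup V] [Module K V] [FiniteDimensional K V]
    (ψ : LinearMap.BilinForm K V) (L : Submodule K (Module.End K V))
    (C : Subalgebra K (Module.End K V)) (_ : Cc ψ L C) (N : ℕ) (st : Fin N → Fin N)
    (ε : Fin N → Module.End K V) (_ : Sys ψ C N st ε) (r : Fin N → Fin N)
    (u v : Fin N → Module.End K V) (_ : UV ψ C N st ε r u v) (j k : Fin N),
    DualMod ψ L (LinearMap.range (ε j)) (LinearMap.range (ε k)) →
      r j = st (r k) ∧ (j = k → st j = j)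

/-- **Twists between blocks** (from `SIrrE`, `SDualE`).
Proof. Let `c = ε k c ε j`, `c X - X c = s c` for `X ∈ L`, and suppose `c ≠ 0`. `W = range (ε j)`, `W' = range (ε k)`; `W` is not self-dual (`SDualE`,
`st j ≠ j`) and `Twist L W W' c`. So `NoTwist` gives: either `c X x = X c x` for `x ∈ W`, `X ∈ L`; as `c` vanishes on the range of `1 - ε j`, which is
stable, `c` commutes with `L`, `c ∈ C`, `c = t u_k v_j` (`UV.one`), zero as `r k = k ≠ j = r j` (see `SDualE`), a contradiction; or `rk (ε j) = 2` and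
`DualMod ψ L W W'`, so `r j = st (r k)`, i.e. `j = st k`, `k = st j` (`inv`), excluded. -/
def STwistE : Prop :=
  ∀ (K V : Type) [Field K] [AddCommGroup V] [Module K V] [FiniteDimensional K V]
    (ψ : LinearMap.BilinForm K V) (L : Submodule K (Module.End K V))
    (C : Subalgebra K (Module.End K V)) (_ : Cc ψ L C) (N : ℕ) (st : Fin N → Fin N)
    (ε : Fin N → Module.End K V) (_ : Sys ψ C N st ε) (r : Fin N → Fin N)
    (u v : Fin N → Module.End K V) (_ : UV ψ C N st ε r u v) (_ : NoTwist ψ L) (j k : Fin N),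
    r j = j → r k = k → j ≠ k → st j ≠ j → 2 ≤ rk (ε j) → ¬ (k = st j ∧ rk (ε j) = 2) →
      ∀ c : Module.End K V, ε k * c * ε j = c → (∀ X ∈ L, ∃ s : K, c * X - X * c = s • c) → c = 0

/-- **The Lie algebra of a sum with multiplicities** (from `SIrrE`, `SDualE`, `STwistE`, `SAllG`).
Proof. Let `B = {j // r j = j}`, `f = ∑_(j ∈ B) ε j`, an idempotent of `C`, self-adjoint as `st` preserves `B` (`rst`). Let `V₀ = range f`, with the
form `ψ₀` (restriction of `ψ`), and for an operator `X` of `V` let `X₀ : V₀ → V₀`, `X₀ y = f (X y)`; it is linear in `X`, `(X Y)₀ = X₀ Y₀` if `X` or `Y` commutes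
with `f` (compare `FTy_c` in `Tor/FullTy.lean`). `L₀ = {X₀ | X ∈ L}`, `p b = (ε b)₀`. Apply `SAllG` to `V₀`, `ψ₀`, `B`, `p`, `st`, `L₀`, `X₀`:
`BD`: clear. `Lie`, multipliers, commuting with `p b`: clear. Irreducible: `range (p b)` corresponds to `range (ε b)` (map with the inclusion
`V₀ → V`), `SIrrE`. Cross condition: if `c : V₀ → V₀` commutes with `L₀` then `c' = incl c f` commutes with `L`, so it is in `C`, and `ε a c' ε b = t u_a v_b = 0`
for `a ≠ b` in `B` (`UV.one`; `u_a ε a = u_a`, `ε b v_b = v_b`). Toric condition: for `W = range (ε b)`: if `finrank W = 1` then `st b ≠ b` (if `st b = b` then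
`ψ` is nondegenerate and alternating on the line `W`), otherwise take `N₀`; `W.map N` corresponds to `(range (p b)).map N₀`; if `DualMod ψ L W W` then `st b = b`
(`SDualE`), and `Toric L W N` gives `Toric L₀ (range (p b)) N₀` as in `Tor/FullTy.lean` (`X ↦ X₀` is injective on the operators
which commute with `C`: `X = ∑_j u_j v_j X = ∑_j u_j X ε (r j) v_j`; ideals of `L₀` are pulled back; idempotents go to idempotents). Twists: `c : V₀ → V₀` gives
`incl c f`, `STwistE`. `X₀` is skew, commutes with the `p b`, `tr (p b X₀) = tr (ε b X) = 0`. So `X₀ ∈ skp ψ₀ L₀`, i.e. `X₀ + s = A₀` with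
`A ∈ L`, and by injectivity `X + s = A`. -/
def SFullG : Prop :=
  ∀ (K V : Type) [Field K] [IsAlgClosed K] [CharZero K] [AddCommGroup V] [Module K V]
    [FiniteDimensional K V] (ψ : LinearMap.BilinForm K V) (L : Submodule K (Module.End K V))
    (C : Subalgebra K (Module.End K V)) (_ : Cc ψ L C) (N : ℕ) (st : Fin N → Fin N)
    (ε : Fin N → Module.End K V) (_ : Sys ψ C N st ε) (r : Fin N → Fin N)
    (u v : Fin N → Module.End K V) (_ : UV ψ C N st ε r u v) (_ : ToricG ψ L) (_ : NoTwist ψ L)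
    (X : Module.End K V), Skew ψ X → (∀ c ∈ C, X * c = c * X) → (∀ j, tr (ε j * X) = 0) →
      X ∈ skp ψ L

/-- **Central part.**
Proof. `z = ∑_j (tr (ε j X) / rk (ε j)) ε j ∈ C`. Let `τ_j = tr (ε j X)`, `n_j = rk (ε j) ≠ 0` (in `K`: characteristic zero, `tr (ε j) = rk (ε j)` by `tr_idem`).
`τ_(st j) = - τ_j`: the adjoint of `ε j X` is `- X ε (st j)` (`tr_adj` in `Tor/Adj.lean`), `n_(st j) = n_j` (`rk_adj`); so `z` is skew. For `c ∈ C`:
`ε j c ε k = t u_j v_k` is zero unless `r j = r k`, and `τ_j = tr (u_j v_j X) = tr (v_j X u_j) = tr (X v_j u_j) = τ_(r j)`, `n_j = n_(r j)` (the same with `X = 1`), so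
`ε j (z c - c z) ε k = (τ_j / n_j - τ_k / n_k) ε j c ε k = 0` for all `j`, `k`. -/
def SSplit : Prop :=
  ∀ (K V : Type) [Field K] [CharZero K] [AddCommGroup V] [Module K V]
    [FiniteDimensional K V] (ψ : LinearMap.BilinForm K V) (_ : ∀ x y, ψ x y = - ψ y x)
    (_ : ∀ x, (∀ y, ψ x y = 0) → x = 0) (C : Subalgebra K (Module.End K V)) (N : ℕ)
    (st : Fin N → Fin N) (ε : Fin N → Module.End K V) (_ : Sys ψ C N st ε) (r : Fin N → Fin N)
    (u v : Fin N → Module.End K V) (_ : UV ψ C N st ε r u v)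
    (X : Module.End K V), Skew ψ X → (∀ c ∈ C, X * c = c * X) →
      ∃ z ∈ C, (∀ c ∈ C, z * c = c * z) ∧ Skew ψ z ∧ ∀ j, tr (ε j * (X - z)) = 0

/-- **The Lie algebra of the image over `K` and the commutant.** `U` is the open subgroup of all `γ` which commute with the
commutant.
Proof. Transport everything to coordinates: `e` a basis of `V`, `R` from `exists_coord` (`Glob/Coord.lean`), `φ = (Algebra.TensorProduct.basis K e).equivFun`; by
`CoordT_lieK`, `CoordT_conj_base` (`Tor/CoordT.lean`) `LieK` corresponds to `LKm R l K` (`Tor/LKm.lean`). `lie`, `mult`: `LKm_lie`, `LKm_mult` (`ψ` corresponds to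
`Matrix.toBilin' (R.J.map _)`, as `R.J i j = form (e i) (e j)`). `alt`, `nd`: `alt_baseChange`, `nondeg_baseChange` (see `Lef/RegL.lean`). `com`: let `c ∈ C`, i.e. `c`
commutes with all `(T γ)_K`, `γ ∈ U`; it is a `K`-combination of `c_i.baseChange K` with `CommF ρ c_i` (`sum_cp` in `Four/Span.lean`, see `Lef/SkewL.lean`), and
`LKm_comm`. `bic`: `LKm_open` and `LKm_commA` show that `c` commutes with `(T γ)_K` for `γ` in some open subgroup `U'`; again `c` is a combination of
`c_i.baseChange K` where `c_i` commutes with `T γ`, `γ ∈ U'`, so `CommF ρ c_i`, so it commutes with `U`. `proj`: `N` is stable under `(T γ)_K`, `γ ∈ U'`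
(`LKm_open`, `LKm_stab`); the projection exists by `proj_L` (`Lef/RegL.lean`) for the restriction to `U'` (`Ty/Res.lean`: `semi_res`), it is in `C` as before. -/
def SCcL : Prop :=
  ∀ (l : ℕ) [Fact l.Prime] (Γ : Type) [Group Γ] [TopologicalSpace Γ] [IsTopologicalGroup Γ]
    [CompactSpace Γ] (V : Type) [AddCommGroup V] [Module ℚ_[l] V] [FiniteDimensional ℚ_[l] V]
    (ρ : H1Rep Γ ℚ_[l] V) (_ : Semisimple ρ) (U : OpenSubgroup Γ)
    (_ : ∀ γ, γ ∈ U ↔ ∀ c, CommF ρ c → c * ρ.T γ = ρ.T γ * c) (K : Type) [Field K]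
    [Algebra ℚ_[l] K], Cc (ρ.form.baseChange K) (LieK l ρ K) (cenK K (res ρ U).T)

/-- **Unipotent elements.**
Proof. `pNil` (`Tor/Nil.lean`) in coordinates (`exists_coord`), then `CoordT_tan` (`Tor/CoordT.lean`): `ρ.T γ - 1 ∈ Tangent l ρ`, and it is skew
(`coord_skew` in `Ctl/Main.lean`); base change (check skewness on pure tensors). -/
def SNilT : Prop :=
  ∀ (l : ℕ) [Fact l.Prime] (Γ : Type) [Group Γ] [TopologicalSpace Γ] (V : Type) [AddCommGroup V]
    [Module ℚ_[l] V] [FiniteDimensional ℚ_[l] V] (ρ : H1Rep Γ ℚ_[l] V) (K : Type) [Field K]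
    [Algebra ℚ_[l] K] (γ : Γ), (ρ.T γ - 1) * (ρ.T γ - 1) = 0 →
    (ρ.T γ - 1).baseChange K ∈ LieK l ρ K ∧
      Skew (ρ.form.baseChange K) ((ρ.T γ - 1).baseChange K)

/-- **Descent.**
Proof. `X' + s ∈ L`. `z` is a `K`-combination of `z_i.baseChange K` with `CentralSkew ρ z_i`: `sum_cp` (`Four/Span.lean`) for a basis `b` of `K` over `F`;
`z_i = cp (b.coord i) z` commutes with `T γ`, `γ ∈ U`, and with all `c` with `CommF ρ c` (`c.baseChange K ∈ cenK`), and it is skew (see `Lef/SkewL.lean`, the proof of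
`skew_K`). So `X.baseChange K` is in the `K`-span of the `A.baseChange K`, `A ∈ S`, where `S` is the `F`-span of `Tangent l ρ`, `1` and the `z` with `CentralSkew ρ z`. Let
`ℓ : K → F` be linear with `ℓ 1 = 1`; `X = cp ℓ (X.baseChange K)`, and `cp ℓ (k • A.baseChange K) = ℓ k • A`. So `X = A + a • 1 + z'` with `A` in the span
of `Tangent l ρ`, `CentralSkew ρ z'` (these form a subspace). In coordinates (`R`, `e`): `toMatrix (X - z') ∈ spJ` (`coord_skew`) and it is in the span of `Zt` plus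
scalars (`CoordT_tan`), so in `Hh`; `toMatrix z' ∈ Zm` (`coord_zm`). -/
def SDescT : Prop :=
  ∀ (l : ℕ) [Fact l.Prime] (Γ : Type) [Group Γ] [TopologicalSpace Γ] [IsTopologicalGroup Γ]
    [CompactSpace Γ] (V : Type) [AddCommGroup V] [Module ℚ_[l] V] [FiniteDimensional ℚ_[l] V]
    (ρ : H1Rep Γ ℚ_[l] V) (U : OpenSubgroup Γ)
    (_ : ∀ γ, γ ∈ U ↔ ∀ c, CommF ρ c → c * ρ.T γ = ρ.T γ * c) (K : Type) [Field K]
    [Algebra ℚ_[l] K] (I : Type) [Fintype I] [DecidableEq I] (e : Basis I ℚ_[l] V)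
    (R : MRep Γ ℚ_[l] I) (_ : ∀ γ, R.M γ = LinearMap.toMatrix e e (ρ.T γ))
    (_ : ∀ i j, R.J i j = ρ.form (e i) (e j)) (X : Module.End ℚ_[l] V),
    (∀ x y, ρ.form (X x) y + ρ.form x (X y) = 0) →
    (∃ z ∈ cenK K (res ρ U).T, (∀ c ∈ cenK K (res ρ U).T, z * c = c * z) ∧
      Skew (ρ.form.baseChange K) z ∧
      X.baseChange K - z ∈ skp (ρ.form.baseChange K) (LieK l ρ K)) →
    LinearMap.toMatrix e e X ∈ Hp R l

/-- **The Lie algebra contains the Lefschetz Lie algebra, up to the center** (from `SFullG`, `SSplit`, `SCcL`, `SNilT`, `SDescT`).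
Proof. `U` from `exists_U0` (`Ty/Res.lean`). `exists_sys` (`Lef/Eps.lean`) for `(res ρ U).T` and the `s` of `NoTypeIII`, `reg_L`, `adjC_L` (`Lef/RegL.lean`), `exists_uv`
(`Lef/Units.lean`); see `Lef/Main.lean` for the same steps. `ToricG` from `ToricAll` and `SNilT`. `Y = X.baseChange K` is skew and commutes with `C`
(`cenK` elements are combinations of `c.baseChange K`, `CommF ρ c`, see `SCcL`). `SSplit` gives `z`, `SFullG` for `Y - z`, `SDescT`. -/
def SLefT : Prop :=
  ∀ (l : ℕ) [Fact l.Prime] (Γ : Type) [Group Γ] [TopologicalSpace Γ] [IsTopologicalGroup Γ]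
    [CompactSpace Γ] (V : Type) [AddCommGroup V] [Module ℚ_[l] V] [FiniteDimensional ℚ_[l] V]
    (ρ : H1Rep Γ ℚ_[l] V) (_ : Semisimple ρ) (_ : NoTypeIII ρ) (K : Type) [Field K]
    [Algebra ℚ_[l] K] [IsAlgClosed K] (_ : ToricAll l ρ K)
    (_ : NoTwist (ρ.form.baseChange K) (LieK l ρ K)) (I : Type) [Fintype I] [DecidableEq I]
    (e : Basis I ℚ_[l] V) (R : MRep Γ ℚ_[l] I) (_ : ∀ γ, R.M γ = LinearMap.toMatrix e e (ρ.T γ))
    (_ : ∀ i j, R.J i j = ρ.form (e i) (e j)) (X : Module.End ℚ_[l] V),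
    Lefschetz ρ X → LinearMap.toMatrix e e X ∈ Hp R l

end Pool.Agent.Lib.MP_640417_ag.Tg
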